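import Pool.Agent.Lib.H24P.P2
import Pool.Agent.Lib.H59P.M2A
import Pool.Agent.Lib.H59P.M2B
import Pool.Agent.Lib.H59P.M2C
import Pool.Agent.Lib.H59P.M3D

/-!
# Project H24P, chunk B1 (M): the deterministic coordinate, local identities
-/

open Finset Polynomial

namespace Pool.Agent.Lib.H24P

open Pool.Agent.Lib.H68T Pool.Agent.Lib.H18Q Pool.Agent.Lib.H59P

/-- Proof. `gk p κ m = (r/φ(r)) cj p m ∏_{l ∣ κ} gl l m` (`M2a`), `M2c`, `M2b` (`H59P`). -/
theorem B1_SD (N : ℕ) (hN : 0 < N) (p : Ch) (hd : p.1 ∣ N) (m : ℤ) :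
    ∑ κ ∈ SD N p.1, gk p κ m = cj p m * ((uu N.primeFactors m : ℝ) : ℂ) := by
  classical
  have h1 : ∀ κ ∈ SD N p.1, gk p κ m =
      (((p.1 : ℝ) / (Nat.totient p.1 : ℝ) : ℝ) : ℂ) * cj p m * ∏ l ∈ κ.primeFactors, ((gl l m : ℝ) : ℂ) := by
    intro κ hκ
    rw [SD, Finset.mem_filter] at hκ
    unfold gk
    rw [M2a κ hκ.2.1 m, Complex.ofReal_prod]
    rfl
  rw [Finset.sum_congr rfl h1, ← Finset.mul_sum, M2c (fun l => ((gl l m : ℝ) : ℂ)) N p.1 hN, ← M2b N hN p hd m]
  congr 1
  rw [Complex.ofReal_prod]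
  refine Finset.prod_congr rfl fun l _ => ?_
  push_cast
  rfl

/-- The mean of a product of periodic functions over the primes of a set. -/
theorem b1_set (F : ℕ → ℤ → ℝ) (hF : ∀ l : ℕ, ∀ n, F l (n + l) = F l n) (S : Finset ℕ) : (∀ l ∈ S, l.Prime) →
    ∑ n ∈ range (∏ l ∈ S, l), ∏ l ∈ S, F l n = ∏ l ∈ S, ∑ n ∈ range l, F l n := by
  have hper : ∀ (l c : ℕ) (n : ℤ), F l (n + ((c * l : ℕ) : ℤ)) = F l n := by
    intro l c
    induction c with
    | zero => intro n; simp
    | succ c ih =>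
      intro n
      have e : n + (((c + 1) * l : ℕ) : ℤ) = (n + ((c * l : ℕ) : ℤ)) + l := by push_cast; ring
      rw [e, hF, ih]
  induction S using Finset.induction_on with
  | empty => intro _; simp
  | insert a s ha ih =>
    intro hS
    have hap : a.Prime := hS a (Finset.mem_insert_self _ _)
    have hs : ∀ l ∈ s, l.Prime := fun l hl => hS l (Finset.mem_insert_of_mem hl)
    have hcop : Nat.Coprime a (∏ l ∈ s, l) := by
      apply Nat.Coprime.prod_right
      intro l hl
      rw [Nat.coprime_primes hap (hs l hl)]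
      rintro rfl
      exact ha hl
    have hpos : 0 < ∏ l ∈ s, l := Finset.prod_pos fun l hl => (hs l hl).pos
    have key := M3d (fun n => ((F a n : ℝ) : ℂ)) (fun n => ((∏ l ∈ s, F l n : ℝ) : ℂ)) a
      (∏ l ∈ s, l) hap.pos hpos hcop
      (fun m => by
        show ((F a (m + a) : ℝ) : ℂ) = ((F a m : ℝ) : ℂ)
        rw [hF])
      (fun m => by
        show ((∏ l ∈ s, F l (m + ((∏ l ∈ s, l : ℕ) : ℤ)) : ℝ) : ℂ) = ((∏ l ∈ s, F l m : ℝ) : ℂ)
        congr 1
        refine Finset.prod_congr rfl fun l hl => ?_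
        obtain ⟨c, hc⟩ := Finset.dvd_prod_of_mem (fun l => l) hl
        have e : (∏ l ∈ s, l : ℕ) = c * l := by
          rw [mul_comm]
          exact hc
        rw [e, hper])
    have key' : ∑ n ∈ range (a * ∏ l ∈ s, l), F a n * ∏ l ∈ s, F l n =
        (∑ n ∈ range a, F a n) * ∑ n ∈ range (∏ l ∈ s, l), ∏ l ∈ s, F l n := by
      have : ((∑ n ∈ range (a * ∏ l ∈ s, l), F a n * ∏ l ∈ s, F l n : ℝ) : ℂ) =
          (((∑ n ∈ range a, F a n) * ∑ n ∈ range (∏ l ∈ s, l), ∏ l ∈ s, F l n : ℝ) : ℂ) := by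
        rw [Complex.ofReal_sum, Complex.ofReal_mul, Complex.ofReal_sum, Complex.ofReal_sum]
        rw [← key]
        apply Finset.sum_congr rfl
        intro n _
        rw [Complex.ofReal_mul]
      exact_mod_cast this
    rw [Finset.prod_insert ha, Finset.prod_insert ha]
    have e1 : ∑ n ∈ range (a * ∏ l ∈ s, l), ∏ l ∈ insert a s, F l n =
        ∑ n ∈ range (a * ∏ l ∈ s, l), F a n * ∏ l ∈ s, F l n := by
      apply Finset.sum_congr rfl
      intro n _
      rw [Finset.prod_insert ha]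
    rw [e1, key', ih hs]

/-- The values of a linear polynomial run through all classes. -/
theorem b1_lin (l : ℕ) (hl : l.Prime) (a b : ℤ) (ha : ¬ (l : ℤ) ∣ a) :
    ∑ n ∈ range l, (1 + gl l (b + a * (n : ℤ))) = l := by
  classical
  have hl1 : (1 : ℝ) < l := by exact_mod_cast hl.one_lt
  have hlp : Prime (l : ℤ) := Nat.prime_iff_prime_int.1 hl
  have hl0 : (0 : ℤ) < l := by exact_mod_cast hl.pos
  have hcop : IsCoprime (l : ℤ) a := (Int.isCoprime_iff_gcd_eq_one).2 (by
    rw [← Int.isCoprime_iff_gcd_eq_one]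
    exact (Prime.coprime_iff_not_dvd hlp).2 ha)
  obtain ⟨u, c, huc⟩ := hcop
  -- the solution
  obtain ⟨n0, hn0⟩ : ∃ n0 : ℕ, ((n0 : ℕ) : ℤ) = (-b * c) % l :=
    ⟨((-b * c) % l).toNat, Int.toNat_of_nonneg (Int.emod_nonneg _ hl0.ne')⟩
  have hn0l : n0 < l := by
    have := Int.emod_lt_of_pos (-b * c) hl0
    omega
  have hdiv0 : (l : ℤ) ∣ b + a * (n0 : ℤ) := by
    obtain ⟨t, ht⟩ : ∃ t : ℤ, (n0 : ℤ) = -b * c - l * t := ⟨(-b * c) / l, by
      rw [hn0]
      have := Int.emod_add_mul_ediv (-b * c) l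
      linarith⟩
    refine ⟨b * u - a * t, ?_⟩
    rw [ht]
    linear_combination (-b) * huc
  have hfil : (range l).filter (fun n : ℕ => (l : ℤ) ∣ b + a * (n : ℤ)) = {n0} := by
    ext n
    rw [Finset.mem_filter, Finset.mem_range, Finset.mem_singleton]
    constructor
    · rintro ⟨h1, h2⟩
      have h3 : (l : ℤ) ∣ a * ((n : ℤ) - n0) := by
        have := dvd_sub h2 hdiv0
        have e : b + a * (n : ℤ) - (b + a * (n0 : ℤ)) = a * ((n : ℤ) - n0) := by ring
        rwa [e] at this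
      rcases hlp.dvd_or_dvd h3 with h4 | h4
      · exact absurd h4 ha
      · obtain ⟨t, ht⟩ := h4
        have h5 : t = 0 := by
          by_contra h6
          rcases lt_or_gt_of_ne h6 with h7 | h7
          · have : (l : ℤ) * t ≤ -l := by nlinarith
            omega
          · have : (l : ℤ) ≤ l * t := by nlinarith
            omega
        rw [h5, mul_zero] at ht
        omega
    · rintro rfl
      exact ⟨hn0l, hdiv0⟩
  have e1 : ∀ n ∈ range l, (1 + gl l (b + a * (n : ℤ))) =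
      (l : ℝ) / (l - 1) - if (l : ℤ) ∣ b + a * (n : ℤ) then (l : ℝ) / (l - 1) else 0 := by
    intro n _
    unfold gl
    split_ifs
    · ring
    · have : (l : ℝ) - 1 ≠ 0 := by linarith
      field_simp
      ring
  rw [Finset.sum_congr rfl e1, Finset.sum_sub_distrib, ← Finset.sum_filter, hfil, Finset.sum_singleton,
    Finset.sum_const, Finset.card_range, nsmul_eq_mul]
  have : (l : ℝ) - 1 ≠ 0 := by linarith
  field_simp

/-- Proof. For a prime `l` not dividing the leading coefficient `a` of `B` the values `B(n)`, `n < l`, run through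
all classes modulo `l` (`B(n) = b + a n`), so `∑_{n<l} (1 + gl l (B n)) = l` (one value `0`, the others
`l/(l-1)`), and `∑_{n<l} (1 + gl l (B n)) Wf l (ran) = l (1 + tpf l (sys)) - l = l tpf l (sys)`
(`Fin.prod_univ_succ`). The general case by induction over the prime factors with `M3d` (compare `m3e_set` in
`H59P/M3E.lean`). -/
theorem B1_mean {k : ℕ} (B : ℤ[X]) (hB : B.natDegree = 1) (P : Fin k → ℤ[X]) (h : Fin k → ℕ) (d : ℕ)
    (hd : Squarefree d) (hc : Nat.Coprime d B.leadingCoeff.natAbs) :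
    ∑ n ∈ range d, uu d.primeFactors (B.eval (n : ℤ)) * Wdf d (at' (ran P h) n) =
      d * tdf d (sys B P h) := by
  classical
  have hBe : ∀ x : ℤ, B.eval x = B.coeff 0 + B.leadingCoeff * x := by
    intro x
    rw [eval_eq_sum_range, hB, Finset.sum_range_succ, Finset.sum_range_one, leadingCoeff, hB]
    ring
  have hperF : ∀ (l : ℕ) (n : ℤ), (1 + gl l (B.eval (n + l))) * Wf l (at' (ran P h) (n + l)) =
      (1 + gl l (B.eval n)) * Wf l (at' (ran P h) n) := by
    intro l n
    have h1 : gl l (B.eval (n + l)) = gl l (B.eval n) :=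
      P2_gl (sys B P h) (P2_sys B P h) l l dvd_rfl 0 n
    have h2 : ∀ i, gl l (ran P h i (n + l)) = gl l (ran P h i n) := fun i =>
      P2_gl (ran P h) (P2_ran P h) l l dvd_rfl i n
    rw [h1]
    unfold Wf at'
    simp only [h2]
  have h1 := b1_set (fun l n => (1 + gl l (B.eval n)) * Wf l (at' (ran P h) n)) hperF d.primeFactors
    (fun l hl => Nat.prime_of_mem_primeFactors hl)
  rw [Nat.prod_primeFactors_of_squarefree hd] at h1
  have h2 : ∑ n ∈ range d, uu d.primeFactors (B.eval (n : ℤ)) * Wdf d (at' (ran P h) n) =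
      ∑ n ∈ range d, ∏ l ∈ d.primeFactors, (1 + gl l (B.eval (n : ℤ))) * Wf l (at' (ran P h) n) := by
    refine Finset.sum_congr rfl fun n _ => ?_
    unfold uu Wdf
    rw [← Finset.prod_mul_distrib]
  rw [h2]
  refine h1.trans ?_
  have h3 : ∀ l ∈ d.primeFactors, ∑ n ∈ range l, (1 + gl l (B.eval (n : ℤ))) * Wf l (at' (ran P h) n) =
      l * tpf l (sys B P h) := by
    intro l hl
    have hlp := Nat.prime_of_mem_primeFactors hl
    have hl0 : (l : ℝ) ≠ 0 := by exact_mod_cast hlp.pos.ne'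
    have hna : ¬ (l : ℤ) ∣ B.leadingCoeff := by
      intro hdv
      have h4 : l ∣ B.leadingCoeff.natAbs := Int.natCast_dvd.1 hdv
      have h5 := Nat.dvd_gcd (Nat.dvd_of_mem_primeFactors hl) h4
      rw [hc] at h5
      exact hlp.one_lt.ne' (Nat.dvd_one.1 h5)
    have h6 := b1_lin l hlp B.leadingCoeff (B.coeff 0) hna
    simp only [← hBe] at h6
    have h7 : ∀ n ∈ range l, (1 + gl l (B.eval (n : ℤ))) * Wf l (at' (ran P h) n) =
        ∏ i, (1 + gl l (sys B P h i (n : ℤ))) - (1 + gl l (B.eval (n : ℤ))) := by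
      intro n _
      rw [Fin.prod_univ_succ]
      unfold Wf at' sys
      simp only [Fin.cons_zero, Fin.cons_succ]
      ring
    rw [Finset.sum_congr rfl h7, Finset.sum_sub_distrib, h6]
    unfold tpf
    field_simp
  rw [Finset.prod_congr rfl h3, Finset.prod_mul_distrib]
  unfold tdf
  congr 1
  have h8 := Nat.prod_primeFactors_of_squarefree hd
  rw [← Nat.cast_prod, h8]

end Pool.Agent.Lib.H24P
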