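import Pool.Agent.Lib.H24P.B1

/-!
# Project H24P, chunk B2 (M): the mean value factorises
-/

open Finset Polynomial

namespace Pool.Agent.Lib.H24P

open Pool.Agent.Lib.H68T Pool.Agent.Lib.H18Q Pool.Agent.Lib.H59P

/-- Proof. `uu (R d).primeFactors = uu R.primeFactors · uu d.primeFactors` (disjoint: `R`, `d` coprime), the product of
`cj (p 0) (B n) uu R.primeFactors (B n)` and `Phf` of the other coordinates is `Phf p R.primeFactors (at' (sys B P h) n)`
(`Fin.prod_univ_succ`, `sys` is a `Fin.cons`); it has period `R` (`P2_sys`, `P2_Ph`), the other factor has period `d`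
(`P2_ran`, `P2_Wd`, `P2_gl`); `M3d` (`H59P`), `B1_mean` (`d` is coprime to `R`, hence to the leading coefficient). -/
theorem B2_fac {k : ℕ} (B : ℤ[X]) (hB : B.natDegree = 1) (P : Fin k → ℤ[X]) (h : Fin k → ℕ)
    (p : Fin (k + 1) → Ch) (R d : ℕ) (hR : 0 < R) (ha : B.leadingCoeff.natAbs ∣ R)
    (hp : ∀ i, (p i).1 ∣ R) (hd : Squarefree d) (hc : Nat.Coprime d R) :
    (∑ n ∈ range (R * d), cj (p 0) (B.eval (n : ℤ)) * ((uu (R * d).primeFactors (B.eval (n : ℤ)) : ℝ) : ℂ) *
      (Phf (fun i : Fin k => p i.succ) R.primeFactors (at' (ran P h) n) *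
        ((Wdf d (at' (ran P h) n) : ℝ) : ℂ))) / ((R * d : ℕ) : ℂ) =
    MRf p R (sys B P h) * ((tdf d (sys B P h) : ℝ) : ℂ) := by
  classical
  have hd0 : 0 < d := Nat.pos_of_ne_zero hd.ne_zero
  have hRd : (R * d).primeFactors = R.primeFactors ∪ d.primeFactors := Nat.primeFactors_mul hR.ne' hd0.ne'
  have hdis : Disjoint R.primeFactors d.primeFactors := hc.symm.disjoint_primeFactors
  have huu : ∀ m : ℤ, uu (R * d).primeFactors m = uu R.primeFactors m * uu d.primeFactors m := by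
    intro m
    unfold uu
    rw [hRd, Finset.prod_union hdis]
  have hPh : ∀ n : ℤ, cj (p 0) (B.eval n) * ((uu R.primeFactors (B.eval n) : ℝ) : ℂ) *
      Phf (fun i : Fin k => p i.succ) R.primeFactors (at' (ran P h) n) =
      Phf p R.primeFactors (at' (sys B P h) n) := by
    intro n
    unfold Phf
    rw [Fin.prod_univ_succ]
    unfold at' sys
    simp only [Fin.cons_zero, Fin.cons_succ]
  have e1 : ∀ n ∈ range (R * d), cj (p 0) (B.eval (n : ℤ)) * ((uu (R * d).primeFactors (B.eval (n : ℤ)) : ℝ) : ℂ) *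
      (Phf (fun i : Fin k => p i.succ) R.primeFactors (at' (ran P h) n) *
        ((Wdf d (at' (ran P h) n) : ℝ) : ℂ)) =
      Phf p R.primeFactors (at' (sys B P h) n) *
        ((uu d.primeFactors (B.eval (n : ℤ)) * Wdf d (at' (ran P h) n) : ℝ) : ℂ) := by
    intro n _
    rw [huu, ← hPh]
    push_cast
    ring
  have hper1 : ∀ m : ℤ, Phf p R.primeFactors (at' (sys B P h) (m + R)) =
      Phf p R.primeFactors (at' (sys B P h) m) := fun m =>
    P2_Ph (sys B P h) (P2_sys B P h) p R R dvd_rfl hp m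
  have hper2 : ∀ m : ℤ, ((uu d.primeFactors (B.eval (m + d)) * Wdf d (at' (ran P h) (m + d)) : ℝ) : ℂ) =
      ((uu d.primeFactors (B.eval m) * Wdf d (at' (ran P h) m) : ℝ) : ℂ) := by
    intro m
    congr 1
    rw [P2_Wd (ran P h) (P2_ran P h) d d dvd_rfl m]
    congr 1
    unfold uu
    refine Finset.prod_congr rfl fun l hl => ?_
    have h1 : gl l (B.eval (m + d)) = gl l (B.eval m) :=
      P2_gl (sys B P h) (P2_sys B P h) l d (Nat.dvd_of_mem_primeFactors hl) 0 m
    rw [h1]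
  have key := M3d (fun n => Phf p R.primeFactors (at' (sys B P h) n))
    (fun n => ((uu d.primeFactors (B.eval n) * Wdf d (at' (ran P h) n) : ℝ) : ℂ)) R d hR hd0 hc.symm hper1 hper2
  have h2 := B1_mean B hB P h d hd (hc.coprime_dvd_right ha)
  have h3 : ∑ n ∈ range d, ((uu d.primeFactors (B.eval (n : ℤ)) * Wdf d (at' (ran P h) n) : ℝ) : ℂ) =
      (d : ℂ) * ((tdf d (sys B P h) : ℝ) : ℂ) := by
    rw [← Complex.ofReal_sum, h2]
    push_cast
    rfl
  rw [Finset.sum_congr rfl e1]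
  refine (congrArg (fun z => z / ((R * d : ℕ) : ℂ)) key).trans ?_
  rw [h3]
  unfold MRf
  have hR' : (R : ℂ) ≠ 0 := by exact_mod_cast hR.ne'
  have hd' : (d : ℂ) ≠ 0 := by exact_mod_cast hd0.ne'
  push_cast
  field_simp

end Pool.Agent.Lib.H24P
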