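import Pool.Agent.Lib.H24P.Defs
import Pool.Agent.Lib.H59P.M3C
import Pool.Agent.Lib.H18Q.CA

/-!
# Project H24P, chunk B3 (M): components have mean zero in progressions
-/

open Finset Polynomial

namespace Pool.Agent.Lib.H24P

open Pool.Agent.Lib.H68T Pool.Agent.Lib.H18Q Pool.Agent.Lib.H59P

theorem b3_perZ (G : ℤ → ℂ) (q : ℤ) (hG : ∀ t, G (t + q) = G t) (j : ℤ) (t : ℤ) :
    G (t + q * j) = G t := by
  induction j using Int.induction_on with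
  | zero => simp
  | succ i ih =>
    rw [← ih, ← hG (t + q * i)]
    congr 1
    ring
  | pred i ih =>
    rw [← ih, ← hG (t + q * (-(i : ℤ) - 1))]
    congr 1
    ring

/-- the sum over a period does not depend on the starting point -/
theorem b3_shift (G : ℤ → ℂ) (q : ℕ) (hq : 0 < q) (hG : ∀ t, G (t + q) = G t) (c : ℤ) :
    ∑ t ∈ range q, G ((t : ℤ) + c) = ∑ t ∈ range q, G (t : ℤ) := by
  have h0 : (0 : ℤ) < q := by exact_mod_cast hq
  have h1 : 0 ≤ c % (q : ℤ) := Int.emod_nonneg _ h0.ne'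
  obtain ⟨a, ha⟩ := Int.eq_ofNat_of_zero_le h1
  have h2 : ∀ t ∈ range q, G ((t : ℤ) + c) = G ((a : ℤ) + t) := by
    intro t _
    have h3 := Int.emod_add_mul_ediv c (q : ℤ)
    have h4 : (t : ℤ) + c = ((a : ℤ) + t) + q * (c / q) := by
      rw [← ha]
      linarith
    rw [h4, b3_perZ G q hG]
  rw [sum_congr rfl h2]
  exact m3c_start G q hG a

/-- Proof. Let `q = r κ`, `g = gcd(N, q)`, a proper divisor of `q`; let `l` be a prime dividing `q/g`. Then `g` divides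
`q' = q/l`, so `q' ≡ s N` modulo `q` for some integer `s ≥ 0`. `F = gk p κ` has period `q` (`gk_period`), so the sum over
`t` of `F(m + t N)` over a complete system of residues modulo `q` is invariant under `t ↦ t + j s`, and so
`l ∑_t F(m + t N) = ∑_t ∑_{j<l} F(m + t N + j q') = 0` by `gk_prim` (`H18Q/CA.lean`). -/
theorem B3_zero (Q : ℕ) (p : Ch) (hp : p ∈ PC Q) (κ : ℕ) (hκ : κ ∈ KS Q p.1) (N : ℤ)
    (hN : ¬ ((p.1 * κ : ℕ) : ℤ) ∣ N) (m : ℤ) :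
    ∑ t ∈ range (p.1 * κ), gk p κ (m + (t : ℤ) * N) = 0 := by
  obtain ⟨hr1, hrQ, -⟩ := mem_PC.1 hp
  obtain ⟨⟨hk1, -⟩, -, -⟩ := CA_mem_KS.1 hκ
  have hq : 0 < p.1 * κ := Nat.mul_pos hr1 hk1
  have hgz : ((Int.gcd N ((p.1 * κ : ℕ) : ℤ) : ℕ) : ℤ) =
      N * Int.gcdA N ((p.1 * κ : ℕ) : ℤ) + ((p.1 * κ : ℕ) : ℤ) * Int.gcdB N ((p.1 * κ : ℕ) : ℤ) :=
    Int.gcd_eq_gcd_ab _ _
  have hgN : ((Int.gcd N ((p.1 * κ : ℕ) : ℤ) : ℕ) : ℤ) ∣ N := Int.gcd_dvd_left _ _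
  have hgq : ((Int.gcd N ((p.1 * κ : ℕ) : ℤ) : ℕ) : ℤ) ∣ ((p.1 * κ : ℕ) : ℤ) := Int.gcd_dvd_right _ _
  generalize Int.gcd N ((p.1 * κ : ℕ) : ℤ) = g at hgz hgN hgq
  generalize Int.gcdA N ((p.1 * κ : ℕ) : ℤ) = x at hgz
  generalize Int.gcdB N ((p.1 * κ : ℕ) : ℤ) = y at hgz
  have hgq' : g ∣ p.1 * κ := by exact_mod_cast hgq
  obtain ⟨c, hc⟩ := hgq'
  have hc1 : c ≠ 1 := by
    intro h
    rw [h, mul_one] at hc
    rw [hc] at hN
    exact hN hgN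
  obtain ⟨l, hl, hlc⟩ := Nat.exists_prime_and_dvd hc1
  obtain ⟨c', hc'⟩ := hlc
  have hlq : l ∣ p.1 * κ := ⟨g * c', by rw [hc, hc']; ring⟩
  have hdiv : p.1 * κ / l = g * c' := by
    rw [hc, hc']
    have : g * (l * c') = l * (g * c') := by ring
    rw [this, Nat.mul_div_cancel_left _ hl.pos]
  have hprim := gk_prim Q p hp κ hκ l hl hlq
  rw [hdiv] at hprim
  have hper := gk_period p κ
  -- G t = F(m + t N)
  have hGper : ∀ t : ℤ, gk p κ (m + (t + ((p.1 * κ : ℕ) : ℤ)) * N) = gk p κ (m + t * N) := by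
    intro t
    have : m + (t + ((p.1 * κ : ℕ) : ℤ)) * N = (m + t * N) + ((p.1 * κ : ℕ) : ℤ) * N := by ring
    rw [this, hper]
  have hsh := fun c0 : ℤ => b3_shift (fun t : ℤ => gk p κ (m + t * N)) (p.1 * κ) hq hGper c0
  have h1 : ∑ j ∈ range l, ∑ t ∈ range (p.1 * κ), gk p κ (m + ((t : ℤ) + (j : ℤ) * (x * c')) * N) =
      (l : ℂ) * ∑ t ∈ range (p.1 * κ), gk p κ (m + (t : ℤ) * N) := by
    have hh : ∀ j ∈ range l,
        ∑ t ∈ range (p.1 * κ), gk p κ (m + ((t : ℤ) + (j : ℤ) * (x * c')) * N) =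
        ∑ t ∈ range (p.1 * κ), gk p κ (m + (t : ℤ) * N) := fun j _ => hsh ((j : ℤ) * (x * c'))
    rw [sum_congr rfl hh, sum_const, card_range, nsmul_eq_mul]
  have h2 : ∑ j ∈ range l, ∑ t ∈ range (p.1 * κ), gk p κ (m + ((t : ℤ) + (j : ℤ) * (x * c')) * N) = 0 := by
    rw [sum_comm]
    refine sum_eq_zero fun t _ => ?_
    rw [← hprim (m + (t : ℤ) * N)]
    refine sum_congr rfl fun j _ => ?_
    have h3 : m + ((t : ℤ) + (j : ℤ) * (x * c')) * N =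
        (m + (t : ℤ) * N + (j : ℤ) * ((g * c' : ℕ) : ℤ)) +
          ((p.1 * κ : ℕ) : ℤ) * (-((j : ℤ) * c' * y)) := by
      rw [Nat.cast_mul g c', hgz]
      ring
    rw [h3, hper]
  rw [h2] at h1
  have hl0 : (l : ℂ) ≠ 0 := by exact_mod_cast hl.ne_zero
  exact (mul_eq_zero.1 h1.symm).resolve_left hl0

/-- the sum over `q N` consecutive numbers -/
theorem b3_blocks (f : ℕ → ℂ) (q N : ℕ) :
    ∑ n ∈ range (q * N), f n = ∑ t ∈ range q, ∑ v ∈ range N, f (t * N + v) := by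
  induction q with
  | zero => simp
  | succ q ih =>
    rw [Nat.succ_mul, sum_range_add, ih, sum_range_succ]

/-- Proof. `n = v + t N`, `v < N`, `t < q = r κ`, `B(v + t N) = B(v) + t a N` (`B` linear), `ψ(v + t N) = ψ(v)`;
`B3_zero` for `a N`. So the sum over the period `q N` vanishes; `M3c` (`H59P/M3C.lean`; `‖gk‖ ≤ Q`: `gk_bound`). -/
theorem B3_int (Q : ℕ) (p : Ch) (hp : p ∈ PC Q) (κ : ℕ) (hκ : κ ∈ KS Q p.1) (B : ℤ[X])
    (hB : B.natDegree = 1) (N : ℕ) (hN : 0 < N) (ψ : ℤ → ℂ) (hψ : ∀ n, ψ (n + N) = ψ n) (Φ : ℝ)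
    (hΦ : ∀ n, ‖ψ n‖ ≤ Φ) (hn : ¬ ((p.1 * κ : ℕ) : ℤ) ∣ B.leadingCoeff * N) (a H : ℕ) :
    ‖∑ n ∈ Ico a (a + H), gk p κ (B.eval (n : ℤ)) * ψ n‖ ≤ 2 * (Q * N) * (Q * Φ) := by
  obtain ⟨hr1, hrQ, -⟩ := mem_PC.1 hp
  obtain ⟨⟨hk1, hk2⟩, -, -⟩ := CA_mem_KS.1 hκ
  have hq : 0 < p.1 * κ := Nat.mul_pos hr1 hk1
  have hqQ : p.1 * κ ≤ Q := (Nat.mul_le_mul_left _ hk2).trans (Nat.mul_div_le _ _)
  have hΦ0 : 0 ≤ Φ := le_trans (norm_nonneg _) (hΦ 0)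
  have hev : ∀ z w : ℤ, B.eval (z + w) = B.eval z + w * B.leadingCoeff := by
    intro z w
    have h1 : ∀ u : ℤ, B.eval u = B.coeff 0 + B.leadingCoeff * u := by
      intro u
      rw [eval_eq_sum_range, hB, sum_range_succ, sum_range_one, leadingCoeff, hB]
      simp
    rw [h1, h1]
    ring
  have hper := gk_period p κ
  have hf : ∀ n : ℤ, gk p κ (B.eval (n + ((p.1 * κ * N : ℕ) : ℤ))) * ψ (n + ((p.1 * κ * N : ℕ) : ℤ)) =
      gk p κ (B.eval n) * ψ n := by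
    intro n
    have h1 : gk p κ (B.eval (n + ((p.1 * κ * N : ℕ) : ℤ))) = gk p κ (B.eval n) := by
      rw [hev]
      have : B.eval n + ((p.1 * κ * N : ℕ) : ℤ) * B.leadingCoeff =
          B.eval n + ((p.1 * κ : ℕ) : ℤ) * (N * B.leadingCoeff) := by
        push_cast
        ring
      rw [this, hper]
    have h2 : ψ (n + ((p.1 * κ * N : ℕ) : ℤ)) = ψ n := by
      have := b3_perZ ψ N hψ ((p.1 * κ : ℕ) : ℤ) n
      rw [← this]
      congr 1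
      push_cast
      ring
    rw [h1, h2]
  have hbd : ∀ n : ℤ, ‖gk p κ (B.eval n) * ψ n‖ ≤ Q * Φ := by
    intro n
    rw [norm_mul]
    exact mul_le_mul (gk_bound Q p hp κ hκ _) (hΦ n) (norm_nonneg _) (Nat.cast_nonneg _)
  have hP : 0 < p.1 * κ * N := Nat.mul_pos hq hN
  have hM := M3c (fun n : ℤ => gk p κ (B.eval n) * ψ n) (p.1 * κ * N) hP hf (Q * Φ) hbd a H
  have hzero : ∑ n ∈ range (p.1 * κ * N), (fun n : ℤ => gk p κ (B.eval n) * ψ n) (n : ℤ) = 0 := by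
    rw [b3_blocks (fun n : ℕ => (fun n : ℤ => gk p κ (B.eval n) * ψ n) (n : ℤ)), sum_comm]
    refine sum_eq_zero fun v _ => ?_
    have h1 : ∀ t ∈ range (p.1 * κ), (fun n : ℤ => gk p κ (B.eval n) * ψ n) ((t * N + v : ℕ) : ℤ) =
        gk p κ (B.eval (v : ℤ) + (t : ℤ) * (B.leadingCoeff * N)) * ψ v := by
      intro t _
      have h2 : ((t * N + v : ℕ) : ℤ) = (v : ℤ) + (t : ℤ) * N := by
        push_cast
        ring
      simp only
      rw [h2, hev]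
      have h3 : ψ ((v : ℤ) + (t : ℤ) * N) = ψ v := by
        have := b3_perZ ψ N hψ (t : ℤ) v
        rw [← this]
        congr 1
        ring
      rw [h3]
      congr 2
      ring
    rw [sum_congr rfl h1, ← sum_mul, B3_zero Q p hp κ hκ _ hn, zero_mul]
  rw [hzero, zero_div, mul_zero, sub_zero] at hM
  refine hM.trans ?_
  have h1 : ((p.1 * κ * N : ℕ) : ℝ) ≤ Q * N := by
    exact_mod_cast Nat.mul_le_mul_right N hqQ
  have h2 : 0 ≤ (Q : ℝ) * Φ := by positivity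
  nlinarith [mul_le_mul_of_nonneg_right h1 h2]

end Pool.Agent.Lib.H24P
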