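import Pool.Agent.Lib.H24P.B1
import Pool.Agent.Lib.H24P.B3

/-!
# Project H24P, chunk B4 (M): the deterministic coordinate against periodic functions
-/

open Finset Polynomial

namespace Pool.Agent.Lib.H24P

open Pool.Agent.Lib.H68T Pool.Agent.Lib.H18Q Pool.Agent.Lib.H59P

theorem b4_card (Q : ℕ) (r : ℕ) (S : Finset ℕ) (hS : S ⊆ KS Q r) : (S.card : ℝ) ≤ Q := by
  have h1 : S ⊆ Icc 1 Q := by
    intro κ hκ
    have h2 := (CA_mem_KS.1 (hS hκ)).1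
    rw [Finset.mem_Icc]
    exact ⟨h2.1, h2.2.trans (Nat.div_le_self _ _)⟩
  have h3 := Finset.card_le_card h1
  rw [Nat.card_Icc, Nat.add_sub_cancel] at h3
  exact_mod_cast h3

theorem b4_sum (Q N : ℕ) (p : Ch) (hp : p ∈ PC Q) (B : ℤ[X]) (hB : B.natDegree = 1) (hN : 0 < N)
    (ψ : ℤ → ℂ) (hψ : ∀ n, ψ (n + N) = ψ n) (Φ : ℝ) (hΦ : ∀ n, ‖ψ n‖ ≤ Φ) (a H : ℕ)
    (S : Finset ℕ) (hS : S ⊆ KS Q p.1)
    (hn : ∀ κ ∈ S, ¬ ((p.1 * κ : ℕ) : ℤ) ∣ B.leadingCoeff * N) :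
    ‖∑ n ∈ Ico a (a + H), (∑ κ ∈ S, gk p κ (B.eval (n : ℤ))) * ψ n‖ ≤ 2 * (Q : ℝ) ^ 3 * N * Φ := by
  have hΦ0 : 0 ≤ Φ := le_trans (norm_nonneg _) (hΦ 0)
  have h1 : ∑ n ∈ Ico a (a + H), (∑ κ ∈ S, gk p κ (B.eval (n : ℤ))) * ψ n =
      ∑ κ ∈ S, ∑ n ∈ Ico a (a + H), gk p κ (B.eval (n : ℤ)) * ψ n := by
    rw [Finset.sum_comm]
    refine Finset.sum_congr rfl fun n _ => ?_
    rw [Finset.sum_mul]
  rw [h1]
  calc ‖∑ κ ∈ S, ∑ n ∈ Ico a (a + H), gk p κ (B.eval (n : ℤ)) * ψ n‖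
      ≤ ∑ _κ ∈ S, 2 * ((Q : ℝ) * N) * (Q * Φ) :=
        norm_sum_le_of_le _ fun κ hκ => B3_int Q p hp κ (hS hκ) B hB N hN ψ hψ Φ hΦ (hn κ hκ) a H
    _ = S.card * (2 * ((Q : ℝ) * N) * (Q * Φ)) := by rw [Finset.sum_const, nsmul_eq_mul]
    _ ≤ Q * (2 * ((Q : ℝ) * N) * (Q * Φ)) :=
        mul_le_mul_of_nonneg_right (b4_card Q p.1 S hS) (by positivity)
    _ = 2 * (Q : ℝ) ^ 3 * N * Φ := by ring

theorem b4_lc (B : ℤ[X]) (hB : B.natDegree = 1) : 0 < B.leadingCoeff.natAbs := by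
  rw [Int.natAbs_pos, Polynomial.leadingCoeff_ne_zero]
  intro h
  rw [h] at hB
  simp at hB

theorem b4_ndvd (N a κ : ℕ) (hN : 0 < N) (ha : a ∣ N) (hκ : Squarefree κ) (h : κ ∣ a * N) : κ ∣ N := by
  have h1 := Nat.prod_primeFactors_of_squarefree hκ
  rw [← h1]
  refine Finset.prod_primes_dvd N (fun l hl => (Nat.prime_of_mem_primeFactors hl).prime)
    (fun l hl => ?_)
  have h2 := (Nat.dvd_of_mem_primeFactors hl).trans h
  rcases (Nat.Prime.dvd_mul (Nat.prime_of_mem_primeFactors hl)).1 h2 with h3 | h3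
  · exact h3.trans ha
  · exact h3

/-- Proof. `Fc Q p = ∑_{κ ∈ KS Q r} gk p κ`. If `κ ∈ KS Q r` does not divide `N` then `r κ` does not divide `a N`, `a` the
leading coefficient (`κ` is squarefree and `a ∣ N`, so `κ ∣ a N` would imply `κ ∣ N`); `B3_int`; there are at most `Q` of
them: total error `2 Q^3 N Φ`. The `κ ∈ KS Q r` dividing `N` are the elements of `SD N r` (`r κ ≤ N^2 ≤ Q`); their sum is
`cj uu` (`B1_SD`), of period `N` (in `n`; `r ∣ N`, primes of `N`), bounded by `N` (`M3a_uu`, `N/φ(N) ≤ N`):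
`M3c`: error `2 N · N Φ`. `N ≤ Q`. -/
theorem B4_small (Q N : ℕ) (p : Ch) (hp : p ∈ PC Q) (hr : p.1 ∣ N) (B : ℤ[X]) (hB : B.natDegree = 1)
    (ha : B.leadingCoeff.natAbs ∣ N) (hN : 0 < N) (hNQ : N * N ≤ Q) (ψ : ℤ → ℂ)
    (hψ : ∀ n, ψ (n + N) = ψ n) (Φ : ℝ) (hΦ : ∀ n, ‖ψ n‖ ≤ Φ) (a H : ℕ) :
    ‖∑ n ∈ Ico a (a + H), Fc Q p (B.eval (n : ℤ)) * ψ n -
      H * ((∑ n ∈ range N, cj p (B.eval (n : ℤ)) * ((uu N.primeFactors (B.eval (n : ℤ)) : ℝ) : ℂ) *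
        ψ n) / N)‖ ≤ 4 * (Q : ℝ) ^ 4 * Φ := by
  classical
  have hΦ0 : 0 ≤ Φ := le_trans (norm_nonneg _) (hΦ 0)
  obtain ⟨hr1, hrQ, -⟩ := mem_PC.1 hp
  have hNN : N ≤ N * N := Nat.le_mul_of_pos_left N hN
  have hNQ1 : (N : ℝ) ≤ Q := by exact_mod_cast hNN.trans hNQ
  have hNQ2 : (N : ℝ) * N ≤ Q := by exact_mod_cast hNQ
  have hQ1 : (1 : ℝ) ≤ Q := by
    have : 1 ≤ Q := by
      have := Nat.mul_pos hN hN
      omega
    exact_mod_cast this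
  -- splitting
  have hfil : (KS Q p.1).filter (fun κ => κ ∣ N) = SD N p.1 := by
    ext κ
    rw [Finset.mem_filter, CA_mem_KS, SD, Finset.mem_filter, Nat.mem_divisors]
    constructor
    · rintro ⟨⟨-, h2, h3⟩, h4⟩
      exact ⟨⟨h4, hN.ne'⟩, h2, h3⟩
    · rintro ⟨⟨h4, -⟩, h2, h3⟩
      have hκ0 : 0 < κ := Nat.pos_of_dvd_of_pos h4 hN
      refine ⟨⟨⟨hκ0, ?_⟩, h2, h3⟩, h4⟩
      rw [Nat.le_div_iff_mul_le (by omega)]
      exact (Nat.mul_le_mul (Nat.le_of_dvd hN h4) (Nat.le_of_dvd hN hr)).trans hNQ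
  have hsplit : ∀ m : ℤ, Fc Q p m = cj p m * ((uu N.primeFactors m : ℝ) : ℂ) +
      ∑ κ ∈ (KS Q p.1).filter (fun κ => ¬ κ ∣ N), gk p κ m := by
    intro m
    unfold Fc
    rw [← Finset.sum_filter_add_sum_filter_not (KS Q p.1) (fun κ => κ ∣ N), hfil, B1_SD N hN p hr m]
  -- the large part
  have hlarge := b4_sum Q N p hp B hB hN ψ hψ Φ hΦ a H ((KS Q p.1).filter (fun κ => ¬ κ ∣ N))
    (Finset.filter_subset _ _) (by
      intro κ hκ hdvd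
      rw [Finset.mem_filter] at hκ
      apply hκ.2
      have h1 : p.1 * κ ∣ B.leadingCoeff.natAbs * N := by
        have h2 := Int.natAbs_dvd_natAbs.2 hdvd
        rw [Int.natAbs_mul, Int.natAbs_natCast, Int.natAbs_natCast] at h2
        exact h2
      exact b4_ndvd N _ κ hN ha (CA_mem_KS.1 hκ.1).2.1 ((dvd_mul_left _ _).trans h1))
  -- the main part
  set f : ℤ → ℂ := fun n => cj p (B.eval n) * ((uu N.primeFactors (B.eval n) : ℝ) : ℂ) * ψ n with hf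
  have hPh : ∀ n : ℤ, Phf (fun _ : Fin 1 => p) N.primeFactors (at' (fun _ : Fin 1 => fun n => B.eval n) n) =
      cj p (B.eval n) * ((uu N.primeFactors (B.eval n) : ℝ) : ℂ) := by
    intro n
    unfold Phf at'
    rw [Fin.prod_univ_one]
  have hCp : Cp (fun _ : Fin 1 => fun n : ℤ => B.eval n) := by
    intro i q n
    have h1 := Polynomial.sub_dvd_eval_sub (n + q) n B
    have h2 : n + q - n = q := by ring
    rw [h2] at h1
    exact h1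
  have hper : ∀ m, f (m + N) = f m := by
    intro m
    have h1 := P2_Ph _ hCp (fun _ : Fin 1 => p) N N dvd_rfl (fun _ => hr) m
    rw [hPh, hPh] at h1
    simp only [hf]
    rw [h1, hψ]
  have hbd : ∀ m, ‖f m‖ ≤ N * Φ := by
    intro m
    have h1 := P0_PhR (fun _ : Fin 1 => p) N hN (at' (fun _ : Fin 1 => fun n => B.eval n) m)
    rw [hPh, pow_one] at h1
    have h2 : (N : ℝ) / (Nat.totient N : ℝ) ≤ N := by
      have h4 : (1 : ℝ) ≤ (Nat.totient N : ℝ) := by exact_mod_cast Nat.totient_pos.2 hN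
      exact div_le_self (by positivity) h4
    simp only [hf]
    rw [norm_mul]
    exact mul_le_mul (h1.trans h2) (hΦ m) (norm_nonneg _) (by positivity)
  have hmain := M3c f N hN hper (N * Φ) hbd a H
  have heq : ∑ n ∈ Ico a (a + H), Fc Q p (B.eval (n : ℤ)) * ψ n -
      H * ((∑ n ∈ range N, f n) / N) =
      (∑ n ∈ Ico a (a + H), f n - H * ((∑ n ∈ range N, f n) / N)) +
      ∑ n ∈ Ico a (a + H), (∑ κ ∈ (KS Q p.1).filter (fun κ => ¬ κ ∣ N), gk p κ (B.eval (n : ℤ))) * ψ n := by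
    have h1 : ∑ n ∈ Ico a (a + H), Fc Q p (B.eval (n : ℤ)) * ψ n = ∑ n ∈ Ico a (a + H), f n +
        ∑ n ∈ Ico a (a + H), (∑ κ ∈ (KS Q p.1).filter (fun κ => ¬ κ ∣ N), gk p κ (B.eval (n : ℤ))) *
          ψ n := by
      rw [← Finset.sum_add_distrib]
      refine Finset.sum_congr rfl fun n _ => ?_
      rw [hsplit]
      simp only [hf]
      ring
    rw [h1]
    ring
  have hgoal : ∑ n ∈ range N, cj p (B.eval (n : ℤ)) * ((uu N.primeFactors (B.eval (n : ℤ)) : ℝ) : ℂ) *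
        ψ n = ∑ n ∈ range N, f n := rfl
  rw [hgoal, heq]
  refine (norm_add_le _ _).trans ?_
  have h3 : (2 : ℝ) * N * (N * Φ) ≤ 2 * (Q : ℝ) ^ 4 * Φ := by
    have h4 : (Q : ℝ) ≤ (Q : ℝ) ^ 4 := le_self_pow₀ hQ1 (by norm_num)
    calc (2 : ℝ) * N * (N * Φ) = 2 * (N * N) * Φ := by ring
      _ ≤ 2 * (Q : ℝ) ^ 4 * Φ := by
        apply mul_le_mul_of_nonneg_right _ hΦ0
        linarith
  have h5 : 2 * (Q : ℝ) ^ 3 * N * Φ ≤ 2 * (Q : ℝ) ^ 4 * Φ := by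
    apply mul_le_mul_of_nonneg_right _ hΦ0
    calc 2 * (Q : ℝ) ^ 3 * N ≤ 2 * (Q : ℝ) ^ 3 * Q := mul_le_mul_of_nonneg_left hNQ1 (by positivity)
      _ = 2 * (Q : ℝ) ^ 4 := by ring
  linarith

/-- Proof. `r κ ≥ r > |a| N > 0`, so `r κ` does not divide `a N`: `B3_int` for all (at most `Q`) `κ ∈ KS Q r`. -/
theorem B4_large (Q N : ℕ) (p : Ch) (hp : p ∈ PC Q) (B : ℤ[X]) (hB : B.natDegree = 1) (hN : 0 < N)
    (hr : B.leadingCoeff.natAbs * N < p.1) (ψ : ℤ → ℂ) (hψ : ∀ n, ψ (n + N) = ψ n) (Φ : ℝ)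
    (hΦ : ∀ n, ‖ψ n‖ ≤ Φ) (a H : ℕ) :
    ‖∑ n ∈ Ico a (a + H), Fc Q p (B.eval (n : ℤ)) * ψ n‖ ≤ 2 * (Q : ℝ) ^ 3 * N * Φ := by
  refine b4_sum Q N p hp B hB hN ψ hψ Φ hΦ a H (KS Q p.1) (Finset.Subset.refl _) fun κ hκ hdvd => ?_
  have h1 : p.1 * κ ∣ B.leadingCoeff.natAbs * N := by
    have h2 := Int.natAbs_dvd_natAbs.2 hdvd
    rw [Int.natAbs_mul, Int.natAbs_natCast, Int.natAbs_natCast] at h2
    exact h2
  have h3 := Nat.le_of_dvd (Nat.mul_pos (b4_lc B hB) hN) h1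
  have h4 : p.1 ≤ p.1 * κ := Nat.le_mul_of_pos_right _ (CA_mem_KS.1 hκ).1.1
  omega

end Pool.Agent.Lib.H24P
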