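import Pool.Agent.Lib.H24P.Defs
import Pool.Agent.Lib.H59P.S1B
import Pool.Agent.Lib.H68T.CG2
import Pool.Agent.Lib.H18Q.CA

/-!
# Project H24P, chunk B5 (M): mean squares of the linear coordinate
-/

open Finset Polynomial

namespace Pool.Agent.Lib.H24P

open Pool.Agent.Lib.H68T Pool.Agent.Lib.H18Q Pool.Agent.Lib.H59P

theorem b5_per (Q : ℕ) (x t : ℤ) : dQ Q (x + (Q.factorial : ℤ) * t) = dQ Q x := by
  unfold dQ
  congr 2
  refine Finset.filter_congr fun d hd => ?_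
  rw [Finset.mem_Icc] at hd
  have h1 : (d : ℤ) ∣ (Q.factorial : ℤ) * t :=
    Dvd.dvd.mul_right (Int.natCast_dvd_natCast.2 (Nat.dvd_factorial (by omega) hd.2)) t
  constructor
  · intro h
    exact (Int.dvd_add_left h1).1 h
  · intro h
    exact (Int.dvd_add_left h1).2 h

theorem b5_core (Q W H : ℕ) (hW : 0 < W) (x : ℤ) (hx : IsCoprime x (W : ℤ)) :
    ∑ c ∈ range H, dQ Q (x + W * (c : ℤ)) ^ 2 ≤ H * (1 + Real.log Q) ^ 3 + (Q : ℝ) ^ 2 := by
  have hW' : (1 : ℤ) ≤ W := by exact_mod_cast hW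
  have hF : (1 : ℤ) ≤ (Q.factorial : ℤ) := by exact_mod_cast Nat.succ_le_of_lt (Nat.factorial_pos Q)
  have h0 : 0 ≤ x + (Q.factorial : ℤ) * (W * |x|) := by
    have h1 : |x| ≤ (Q.factorial : ℤ) * (W * |x|) := by
      have h2 := abs_nonneg x
      calc |x| = 1 * (1 * |x|) := by ring
        _ ≤ (Q.factorial : ℤ) * (W * |x|) := by gcongr
    have h3 := neg_abs_le x
    linarith
  obtain ⟨b, hb⟩ := Int.eq_ofNat_of_zero_le h0
  have hbW : Nat.Coprime b W := by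
    rw [← Nat.isCoprime_iff_coprime]
    have h4 : (b : ℤ) = x + (W : ℤ) * ((Q.factorial : ℤ) * |x|) := by
      rw [← hb]
      ring
    rw [h4]
    exact (IsCoprime.add_mul_left_left_iff).2 hx
  have h5 := dQ_moment Q H W b 0 hW hbW
  refine le_trans (le_of_eq ?_) h5
  refine Finset.sum_congr rfl fun c _ => ?_
  have h6 : (b : ℤ) + W * ((0 + c : ℕ) : ℤ) = (x + W * (c : ℤ)) + (Q.factorial : ℤ) * (W * |x|) := by
    rw [← hb, Nat.zero_add]
    ring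
  rw [h6, b5_per]

/-- Proof. `B(n) = b + a n`, `gcd(a, b) = 1`. `dQ Q m` depends only on `m` modulo `Q!` and `dQ Q (-m) = dQ Q m`. If `a < 0`
reflect the interval (`n ↦ 2 a0 + H - 1 - n`). So the sum is `∑_{c < H} dQ(x + W c)^2` with `W = |a| ≥ 1` and an
integer `x` coprime to `W`, which may be replaced by `x + W Q! t ≥ 0`; then `x = b' + W s` with naturals, `b' = x % W`:
`dQ_moment` (`H68T/CG2.lean`). -/
theorem B5_dQ (Q A : ℕ) (B : ℤ[X]) (hB : Lin A B) (a H : ℕ) :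
    ∑ n ∈ Ico a (a + H), dQ Q (B.eval (n : ℤ)) ^ 2 ≤ H * (1 + Real.log Q) ^ 3 + (Q : ℝ) ^ 2 := by
  have hev : ∀ n : ℤ, B.eval n = B.coeff 0 + B.coeff 1 * n := by
    intro n
    rw [Polynomial.eval_eq_sum_range, hB.deg]
    simp [Finset.sum_range_succ]
  have hc1 : B.coeff 1 ≠ 0 := by
    have h1 : B.leadingCoeff ≠ 0 := by
      rw [Polynomial.leadingCoeff_ne_zero]
      intro h
      have h2 := hB.deg
      rw [h] at h2
      simp at h2
    rwa [Polynomial.leadingCoeff, hB.deg] at h1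
  rcases lt_or_gt_of_ne hc1 with hneg | hpos
  · -- negative
    obtain ⟨W, hW⟩ : ∃ W : ℕ, (W : ℤ) = -B.coeff 1 := ⟨(-B.coeff 1).toNat, by
      rw [Int.toNat_of_nonneg (by linarith)]⟩
    have hW0 : 0 < W := by
      have : (0 : ℤ) < W := by rw [hW]; linarith
      exact_mod_cast this
    have hx : IsCoprime (B.coeff 0 + (W : ℤ) * (-((a : ℤ) + H - 1))) (W : ℤ) := by
      rw [IsCoprime.add_mul_left_left_iff, hW]
      exact (IsCoprime.neg_right_iff _ _).2 hB.cop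
    have h1 := b5_core Q W H hW0 _ hx
    refine le_trans (le_of_eq ?_) h1
    rw [Finset.sum_Ico_eq_sum_range, Nat.add_sub_cancel_left]
    rw [← Finset.sum_range_reflect]
    refine Finset.sum_congr rfl fun c hc => ?_
    rw [Finset.mem_range] at hc
    have h2 : ((a + (H - 1 - c) : ℕ) : ℤ) = a + H - 1 - c := by
      have : 1 + c ≤ H := by omega
      rw [Nat.sub_sub]
      push_cast [this]
      ring
    have h4 : B.eval ((a + (H - 1 - c) : ℕ) : ℤ) =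
        B.coeff 0 + (W : ℤ) * (-((a : ℤ) + H - 1)) + W * (c : ℤ) := by
      rw [hev, h2, hW]
      ring
    rw [h4]
  · obtain ⟨W, hW⟩ : ∃ W : ℕ, (W : ℤ) = B.coeff 1 := ⟨(B.coeff 1).toNat, by
      rw [Int.toNat_of_nonneg (by linarith)]⟩
    have hW0 : 0 < W := by
      have : (0 : ℤ) < W := by rw [hW]; linarith
      exact_mod_cast this
    have hx : IsCoprime (B.coeff 0 + (W : ℤ) * a) (W : ℤ) := by
      rw [IsCoprime.add_mul_left_left_iff, hW]
      exact hB.cop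
    have h1 := b5_core Q W H hW0 _ hx
    refine le_trans (le_of_eq ?_) h1
    rw [Finset.sum_Ico_eq_sum_range, Nat.add_sub_cancel_left]
    refine Finset.sum_congr rfl fun c hc => ?_
    have h4 : B.eval ((a + c : ℕ) : ℤ) = B.coeff 0 + (W : ℤ) * a + W * (c : ℤ) := by
      rw [hev, hW]
      push_cast
      ring
    rw [h4]

/-- Proof. `Fc Q p m = Gam Q p.1 m conj χ(m)` (`gam_expand`) `= SG Q b m` with `b = 1` at `p` and `0` else, so
`‖Fc‖ ≤ 100 (1 + log Q)^3 dQ Q m` (`S1b` with `mb = b`). -/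
theorem B5_Fc (Q : ℕ) (hQ : 1 ≤ Q) (p : Ch) (hp : p ∈ PC Q) (m : ℤ) :
    ‖Fc Q p m‖ ≤ 100 * (1 + Real.log Q) ^ 3 * dQ Q m := by
  classical
  have h1 := S1b Q hQ (fun q => if q = p then 1 else 0) (fun q => if q = p then 1 else 0)
    (fun q _ => by split_ifs <;> simp) m
  have h2 : SG Q (fun q => if q = p then 1 else 0) m = Fc Q p m := by
    unfold SG Fc
    rw [← gam_expand Q p hp m, Finset.sum_eq_single_of_mem p hp]
    · beta_reduce
      rw [if_pos rfl, mul_one]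
    · intro q _ hq
      beta_reduce
      rw [if_neg hq, mul_zero]
  have h3 : ∑ q ∈ PC Q, (if q = p then (1 : ℝ) else 0) = 1 := by
    rw [Finset.sum_ite_eq' (PC Q) p (fun _ => (1 : ℝ)), if_pos hp]
  rw [h2, h3, mul_one] at h1
  exact h1

/-- Proof. `B5_Fc`, `B5_dQ`. -/
theorem B5_sq (Q A : ℕ) (hQ : 1 ≤ Q) (p : Ch) (hp : p ∈ PC Q) (B : ℤ[X]) (hB : Lin A B) (a H : ℕ)
    (hH : Q ^ 2 ≤ H) :
    ∑ n ∈ Ico a (a + H), ‖Fc Q p (B.eval (n : ℤ))‖ ^ 2 ≤ 20000 * (1 + Real.log Q) ^ 9 * H := by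
  have hL : 0 ≤ Real.log Q := Real.log_nonneg (by exact_mod_cast hQ)
  have hH' : (Q : ℝ) ^ 2 ≤ H := by exact_mod_cast hH
  have h1 : ∑ n ∈ Ico a (a + H), ‖Fc Q p (B.eval (n : ℤ))‖ ^ 2 ≤
      ∑ n ∈ Ico a (a + H), (100 * (1 + Real.log Q) ^ 3) ^ 2 * dQ Q (B.eval (n : ℤ)) ^ 2 := by
    refine Finset.sum_le_sum fun n _ => ?_
    rw [← mul_pow]
    exact pow_le_pow_left₀ (norm_nonneg _) (B5_Fc Q hQ p hp _) 2
  rw [← Finset.mul_sum] at h1
  have h2 := B5_dQ Q A B hB a H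
  have h3 : (H : ℝ) * (1 + Real.log Q) ^ 3 + (Q : ℝ) ^ 2 ≤ 2 * ((1 + Real.log Q) ^ 3 * H) := by
    have h4 : (1 : ℝ) ≤ (1 + Real.log Q) ^ 3 := one_le_pow₀ (by linarith)
    have h5 : (H : ℝ) ≤ (1 + Real.log Q) ^ 3 * H := le_mul_of_one_le_left (Nat.cast_nonneg H) h4
    nlinarith
  calc ∑ n ∈ Ico a (a + H), ‖Fc Q p (B.eval (n : ℤ))‖ ^ 2
      ≤ (100 * (1 + Real.log Q) ^ 3) ^ 2 * ∑ n ∈ Ico a (a + H), dQ Q (B.eval (n : ℤ)) ^ 2 := h1
    _ ≤ (100 * (1 + Real.log Q) ^ 3) ^ 2 * (2 * ((1 + Real.log Q) ^ 3 * H)) :=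
        mul_le_mul_of_nonneg_left (h2.trans h3) (by positivity)
    _ = 20000 * (1 + Real.log Q) ^ 9 * H := by ring

end Pool.Agent.Lib.H24P
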