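import Pool.Agent.Lib.H24P.Defs

/-!
# Project H24P, chunk D1 (M): solutions of polynomial congruences are spaced
-/

open Finset Polynomial

namespace Pool.Agent.Lib.H24P

/-- Proof. Induction on `d`. `d = 0`: `P` is the constant `a`, `q ∣ u s a`, which is not `0`, so `q ≤ |u s| |a|`.
Step `d + 1`: fix `s0 ∈ S`; `P(x) = P(s0) + (x - s0) R(x)` (`R = (P - C (P.eval s0)) /ₘ (X - C s0)`, or
`Polynomial.dvd_iff_isRoot`), `deg R = d`, leading coefficient `a`. For `s ∈ S.erase s0`: `q` divides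
`u s0 u s (P(s) - P(s0)) = u s0 u s (s - s0) R(s)`. Apply the induction hypothesis to `R`, `S.erase s0`, the weights
`u' s = u s0 u s (s - s0)`, `0 < |u' s| ≤ U^2 T`: `q ≤ |a| (U^2 T)^(2^d) T^(2^d - 1)`. -/
theorem D1_weights (d : ℕ) (P : ℤ[X]) (hd : P.natDegree = d) (hP : P ≠ 0) (q U T : ℕ) (S : Finset ℤ)
    (hS : S.card = d + 1) (hT : ∀ s ∈ S, ∀ s' ∈ S, |s - s'| ≤ T) (u : ℤ → ℤ)
    (hu : ∀ s ∈ S, u s ≠ 0 ∧ |u s| ≤ U) (hq : ∀ s ∈ S, (q : ℤ) ∣ u s * P.eval s) :
    (q : ℤ) ≤ |P.leadingCoeff| * (U : ℤ) ^ (2 ^ d) * (T : ℤ) ^ (2 ^ d - 1) := by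
  classical
  induction d generalizing P U S u with
  | zero =>
    obtain ⟨s, hs⟩ := Finset.card_eq_one.1 hS
    have hsS : s ∈ S := by rw [hs]; exact Finset.mem_singleton_self s
    obtain ⟨a, ha⟩ := Polynomial.natDegree_eq_zero.1 hd
    have ha0 : a ≠ 0 := by
      intro h0
      apply hP
      rw [← ha, h0, map_zero]
    have h1 := hq s hsS
    rw [← ha, eval_C] at h1
    have h2 := Int.le_of_dvd (abs_pos.2 (mul_ne_zero (hu s hsS).1 ha0)) ((dvd_abs _ _).2 h1)
    rw [abs_mul] at h2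
    rw [← ha, leadingCoeff_C]
    simp only [pow_zero, pow_one, Nat.sub_self, mul_one]
    have h3 := (hu s hsS).2
    have h4 := abs_nonneg a
    nlinarith
  | succ d ih =>
    have hne : S.Nonempty := by
      rw [← Finset.card_pos, hS]
      omega
    obtain ⟨s0, hs0⟩ := hne
    obtain ⟨R, hR⟩ : ∃ R : ℤ[X], P - C (P.eval s0) = (X - C s0) * R := by
      have : (X - C s0) ∣ P - C (P.eval s0) := by
        rw [dvd_iff_isRoot]
        simp
      exact this
    have hdeg1 : (P - C (P.eval s0)).natDegree = d + 1 := by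
      rw [natDegree_sub_C, hd]
    have hR0 : R ≠ 0 := by
      intro h0
      rw [h0, mul_zero] at hR
      rw [hR, natDegree_zero] at hdeg1
      omega
    have hX : (X - C s0 : ℤ[X]) ≠ 0 := X_sub_C_ne_zero s0
    have hdR : R.natDegree = d := by
      rw [hR, natDegree_mul hX hR0, natDegree_X_sub_C] at hdeg1
      omega
    have hlc : R.leadingCoeff = P.leadingCoeff := by
      have h1 : (P - C (P.eval s0)).leadingCoeff = P.leadingCoeff := by
        apply leadingCoeff_sub_of_degree_lt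
        refine lt_of_le_of_lt degree_C_le ?_
        rw [degree_eq_natDegree hP, hd]
        exact_mod_cast Nat.succ_pos d
      rw [← h1, hR, leadingCoeff_mul, leadingCoeff_X_sub_C, one_mul]
    have h2 := ih R hdR hR0 (U ^ 2 * T) (S.erase s0) (by rw [Finset.card_erase_of_mem hs0, hS]; rfl)
      (fun s hs s' hs' => hT s (Finset.mem_of_mem_erase hs) s' (Finset.mem_of_mem_erase hs'))
      (fun s => u s0 * u s * (s - s0)) (by
        intro s hs
        have hs1 := Finset.mem_of_mem_erase hs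
        have hs2 := Finset.ne_of_mem_erase hs
        refine ⟨mul_ne_zero (mul_ne_zero (hu s0 hs0).1 (hu s hs1).1) (sub_ne_zero.2 hs2), ?_⟩
        rw [abs_mul, abs_mul]
        push_cast
        have e : (U : ℤ) ^ 2 * T = U * U * T := by ring
        rw [e]
        exact mul_le_mul (mul_le_mul (hu s0 hs0).2 (hu s hs1).2 (abs_nonneg _) (Int.natCast_nonneg U))
          (hT s hs1 s0 hs0) (abs_nonneg _) (by positivity)) (by
        intro s hs
        have hs1 := Finset.mem_of_mem_erase hs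
        have e1 : P.eval s - P.eval s0 = (s - s0) * R.eval s := by
          have := congrArg (eval s) hR
          simpa using this
        have e2 : u s0 * u s * (s - s0) * R.eval s = u s0 * (u s * P.eval s) - u s * (u s0 * P.eval s0) := by
          rw [mul_assoc, ← e1]
          ring
        rw [e2]
        exact dvd_sub ((hq s hs1).mul_left _) ((hq s0 hs0).mul_left _))
    rw [hlc] at h2
    refine h2.trans (le_of_eq ?_)
    push_cast
    have e3 : 2 ^ (d + 1) - 1 = 2 ^ d + (2 ^ d - 1) := by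
      have : 1 ≤ 2 ^ d := Nat.one_le_two_pow
      rw [pow_succ]
      omega
    have e4 : 2 ^ (d + 1) = 2 * 2 ^ d := by rw [pow_succ]; ring
    rw [e3, e4, pow_add (T : ℤ), mul_pow, ← pow_mul]
    ring

/-- Proof. `D1_weights` for `P - C c` (degree `d ≥ 1`, the same leading coefficient) and `u = 1`, `U = 1`. -/
theorem D1_sp (d : ℕ) (hd1 : 1 ≤ d) (P : ℤ[X]) (hd : P.natDegree = d) (q T : ℕ) (c : ℤ) (S : Finset ℤ)
    (hS : S.card = d + 1) (hT : ∀ s ∈ S, ∀ s' ∈ S, |s - s'| ≤ T)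
    (hq : ∀ s ∈ S, (q : ℤ) ∣ P.eval s - c) :
    (q : ℤ) ≤ |P.leadingCoeff| * (T : ℤ) ^ (2 ^ d - 1) := by
  have hP : P ≠ 0 := by
    intro h0
    rw [h0, natDegree_zero] at hd
    omega
  have hdeg : (P - C c).natDegree = d := by rw [natDegree_sub_C, hd]
  have hP' : P - C c ≠ 0 := by
    intro h0
    rw [h0, natDegree_zero] at hdeg
    omega
  have hlc : (P - C c).leadingCoeff = P.leadingCoeff := by
    apply leadingCoeff_sub_of_degree_lt
    refine lt_of_le_of_lt degree_C_le ?_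
    rw [degree_eq_natDegree hP, hd]
    exact_mod_cast hd1
  have h1 := D1_weights d (P - C c) hdeg hP' q 1 T S hS hT (fun _ => 1) (fun s _ => ⟨one_ne_zero, by simp⟩)
    (fun s hs => by
      rw [one_mul, eval_sub, eval_C]
      exact hq s hs)
  rw [hlc] at h1
  simpa using h1

/-- Few solutions in an interval. Proof. Cut the interval into at most `H/T + 1` pieces of length at most `T`; each
contains at most `d` solutions: `d + 1` of them would contradict `D1_sp`. -/
theorem D1_count (d : ℕ) (hd1 : 1 ≤ d) (P : ℤ[X]) (hd : P.natDegree = d) (q T : ℕ) (hT : 1 ≤ T)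
    (hq : P.leadingCoeff.natAbs * T ^ (2 ^ d - 1) < q) (c : ℤ) (a H : ℕ) :
    ((((Ico a (a + H)).filter (fun n : ℕ => (q : ℤ) ∣ P.eval (n : ℤ) - c)).card : ℕ) : ℝ) ≤
      d * ((H : ℝ) / T + 1) := by
  classical
  obtain ⟨F, hF⟩ : ∃ F, F = (Ico a (a + H)).filter (fun n : ℕ => (q : ℤ) ∣ P.eval (n : ℤ) - c) := ⟨_, rfl⟩
  rw [← hF]
  have hmaps : ∀ n ∈ F, (n - a) / T ∈ range (H / T + 1) := by
    intro n hn
    rw [hF, Finset.mem_filter, Finset.mem_Ico] at hn
    rw [Finset.mem_range]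
    have : (n - a) / T ≤ H / T := Nat.div_le_div_right (by omega)
    omega
  have hfib : ∀ j ∈ range (H / T + 1), (F.filter fun n => (n - a) / T = j).card ≤ d := by
    intro j _
    by_contra hcon
    push Not at hcon
    obtain ⟨S, hS1, hS2⟩ := Finset.exists_subset_card_eq (Nat.succ_le_of_lt hcon)
    have hinj : Function.Injective (fun n : ℕ => (n : ℤ)) := Nat.cast_injective
    have h1 := D1_sp d hd1 P hd q T c (S.image fun n : ℕ => (n : ℤ))
      (by rw [Finset.card_image_of_injective _ hinj, hS2]) (by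
        intro s hs s' hs'
        obtain ⟨n, hn, rfl⟩ := Finset.mem_image.1 hs
        obtain ⟨n', hn', rfl⟩ := Finset.mem_image.1 hs'
        have h2 := Finset.mem_filter.1 (hS1 hn)
        have h3 := Finset.mem_filter.1 (hS1 hn')
        have h4 := h2.1
        have h5 := h3.1
        rw [hF, Finset.mem_filter, Finset.mem_Ico] at h4 h5
        have hT0 : 0 < T := hT
        have h6 := Nat.div_add_mod (n - a) T
        have h7 := Nat.div_add_mod (n' - a) T
        have h8 := Nat.mod_lt (n - a) hT0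
        have h9 := Nat.mod_lt (n' - a) hT0
        rw [h2.2] at h6
        rw [h3.2] at h7
        rw [abs_le]
        constructor <;> omega) (by
        intro s hs
        obtain ⟨n, hn, rfl⟩ := Finset.mem_image.1 hs
        have h4 := (Finset.mem_filter.1 (hS1 hn)).1
        rw [hF, Finset.mem_filter] at h4
        exact h4.2)
    have h2 : (q : ℤ) ≤ ((P.leadingCoeff.natAbs * T ^ (2 ^ d - 1) : ℕ) : ℤ) := by
      push_cast
      exact h1
    have h3 : q ≤ P.leadingCoeff.natAbs * T ^ (2 ^ d - 1) := by exact_mod_cast h2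
    omega
  have h1 : F.card ≤ d * (H / T + 1) := by
    rw [Finset.card_eq_sum_card_fiberwise hmaps]
    calc ∑ j ∈ range (H / T + 1), (F.filter fun n => (n - a) / T = j).card ≤ ∑ _j ∈ range (H / T + 1), d :=
          Finset.sum_le_sum hfib
      _ = d * (H / T + 1) := by rw [Finset.sum_const, Finset.card_range, smul_eq_mul, mul_comm]
  have h2 : (F.card : ℝ) ≤ d * (((H / T : ℕ) : ℝ) + 1) := by exact_mod_cast h1
  refine h2.trans ?_
  have h3 : ((H / T : ℕ) : ℝ) ≤ (H : ℝ) / T := Nat.cast_div_le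
  have h4 : (0 : ℝ) ≤ d := Nat.cast_nonneg d
  nlinarith

/-- Proof. `D1_count` with `T = ⌊(q/(2A))^(1/2^A)⌋` if this is at least `1` (`T^(2^d - 1) ≤ T^(2^A) ≤ q/(2A)`;
`|a| ≤ A`), `H/T + 1 ≤ 2 H/T` (`T ≤ q ≤ H`), `T ≥ (q/(2A))^(1/2^A)/2`. Otherwise `q < 2 A`, and the trivial bound
`H ≤ 4 A^2 H q^(-1/2^A)` holds. -/
theorem D1_dens (A : ℕ) (hA : 1 ≤ A) (P : ℤ[X]) (hd1 : 1 ≤ P.natDegree) (hdA : P.natDegree ≤ A)
    (hlc : P.leadingCoeff.natAbs ≤ A) (q : ℕ) (hq : 1 ≤ q) (c : ℤ) (a H : ℕ) (hH : q ≤ H) :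
    ((((Ico a (a + H)).filter (fun n : ℕ => (q : ℤ) ∣ P.eval (n : ℤ) - c)).card : ℕ) : ℝ) ≤
      8 * (A : ℝ) ^ 2 * H * (q : ℝ) ^ (-(1 / 2 ^ A) : ℝ) := by
  have hA' : (1 : ℝ) ≤ A := by exact_mod_cast hA
  have hq' : (1 : ℝ) ≤ q := by exact_mod_cast hq
  have hq0 : (0 : ℝ) < q := by linarith
  have hH' : (q : ℝ) ≤ H := by exact_mod_cast hH
  have hH0 : (0 : ℝ) ≤ H := by linarith
  obtain ⟨e, he⟩ : ∃ e : ℝ, e = 1 / 2 ^ A := ⟨_, rfl⟩
  have he0 : 0 < e := by rw [he]; positivity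
  have he1 : e ≤ 1 := by
    rw [he, div_le_one (by positivity)]
    exact one_le_pow₀ (by norm_num)
  rw [← he, Real.rpow_neg hq0.le]
  have hqe : (q : ℝ) ^ e ≤ q := by
    calc (q : ℝ) ^ e ≤ (q : ℝ) ^ (1 : ℝ) := Real.rpow_le_rpow_of_exponent_le hq' he1
      _ = q := Real.rpow_one _
  have hqe0 : 0 < (q : ℝ) ^ e := Real.rpow_pos_of_pos hq0 e
  rcases lt_or_ge (q : ℝ) (2 * A) with hcase | hcase
  · -- trivial bound
    have h1 : ((((Ico a (a + H)).filter (fun n : ℕ => (q : ℤ) ∣ P.eval (n : ℤ) - c)).card : ℕ) : ℝ) ≤ H := by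
      have : ((Ico a (a + H)).filter (fun n : ℕ => (q : ℤ) ∣ P.eval (n : ℤ) - c)).card ≤ H := by
        refine (Finset.card_filter_le _ _).trans ?_
        rw [Nat.card_Ico]
        omega
      exact_mod_cast this
    refine h1.trans ?_
    have h2 : 1 ≤ 8 * (A : ℝ) ^ 2 * ((q : ℝ) ^ e)⁻¹ := by
      rw [← div_eq_mul_inv, one_le_div hqe0]
      nlinarith
    calc (H : ℝ) = H * 1 := (mul_one _).symm
      _ ≤ H * (8 * (A : ℝ) ^ 2 * ((q : ℝ) ^ e)⁻¹) := mul_le_mul_of_nonneg_left h2 hH0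
      _ = _ := by ring
  · have h2A : (0 : ℝ) < 2 * A := by linarith
    obtain ⟨x, hx⟩ : ∃ x : ℝ, x = ((q : ℝ) / (2 * A)) ^ e := ⟨_, rfl⟩
    have hbase : 1 ≤ (q : ℝ) / (2 * A) := by rw [one_le_div h2A]; exact hcase
    have hx1 : 1 ≤ x := by
      rw [hx]
      exact Real.one_le_rpow hbase he0.le
    obtain ⟨T, hT⟩ : ∃ T : ℕ, T = ⌊x⌋₊ := ⟨_, rfl⟩
    have hT1 : 1 ≤ T := by
      rw [hT]
      exact Nat.le_floor (by simpa using hx1)
    have hTx : (T : ℝ) ≤ x := by
      rw [hT]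
      exact Nat.floor_le (by linarith)
    have hTx2 : x ≤ 2 * T := by
      have h1 : x < (T : ℝ) + 1 := by
        rw [hT]
        exact Nat.lt_floor_add_one x
      have h2 : (1 : ℝ) ≤ T := by exact_mod_cast hT1
      linarith
    have hT0 : (0 : ℝ) < T := by exact_mod_cast hT1
    have hTpow : (T : ℝ) ^ (2 ^ A) ≤ (q : ℝ) / (2 * A) := by
      calc (T : ℝ) ^ (2 ^ A) ≤ x ^ (2 ^ A) := pow_le_pow_left₀ hT0.le hTx _
        _ = (q : ℝ) / (2 * A) := by
          rw [hx, he, ← Real.rpow_natCast, ← Real.rpow_mul (by positivity)]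
          push_cast
          rw [one_div_mul_cancel (by positivity), Real.rpow_one]
    have hlt : P.leadingCoeff.natAbs * T ^ (2 ^ P.natDegree - 1) < q := by
      have h1 : T ^ (2 ^ P.natDegree - 1) ≤ T ^ (2 ^ A) := by
        apply Nat.pow_le_pow_right hT1
        exact (Nat.sub_le _ _).trans (Nat.pow_le_pow_right (by norm_num) hdA)
      have h2 : ((P.leadingCoeff.natAbs * T ^ (2 ^ P.natDegree - 1) : ℕ) : ℝ) < q := by
        push_cast
        have h3 : (T : ℝ) ^ (2 ^ P.natDegree - 1) ≤ (q : ℝ) / (2 * A) := by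
          refine le_trans ?_ hTpow
          exact_mod_cast h1
        have h4 : (P.leadingCoeff.natAbs : ℝ) ≤ A := by exact_mod_cast hlc
        have h5 : (0 : ℝ) ≤ (q : ℝ) / (2 * A) := by positivity
        calc _ ≤ (A : ℝ) * ((q : ℝ) / (2 * A)) := by
              exact mul_le_mul h4 h3 (by positivity) (by positivity)
          _ = q / 2 := by field_simp
          _ < q := by linarith
      exact_mod_cast h2
    have h1 := D1_count P.natDegree hd1 P rfl q T hT1 hlt c a H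
    refine h1.trans ?_
    have hTH : (T : ℝ) ≤ H := by
      have h2 : (T : ℝ) ≤ (T : ℝ) ^ (2 ^ A) := by
        have h3 : (1 : ℝ) ≤ T := by exact_mod_cast hT1
        calc (T : ℝ) = (T : ℝ) ^ 1 := (pow_one _).symm
          _ ≤ (T : ℝ) ^ (2 ^ A) := pow_le_pow_right₀ h3 Nat.one_le_two_pow
      have h3 : (q : ℝ) / (2 * A) ≤ q := by
        apply div_le_self hq0.le
        linarith
      linarith
    have h2 : (H : ℝ) / T + 1 ≤ 2 * (H / T) := by
      have : 1 ≤ (H : ℝ) / T := by rw [one_le_div hT0]; exact hTH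
      linarith
    have h3 : (P.natDegree : ℝ) ≤ A := by exact_mod_cast hdA
    have h4 : (2 * (A : ℝ)) ^ e ≤ 2 * A := by
      calc (2 * (A : ℝ)) ^ e ≤ (2 * (A : ℝ)) ^ (1 : ℝ) :=
            Real.rpow_le_rpow_of_exponent_le (by linarith) he1
        _ = 2 * A := Real.rpow_one _
    have h5 : x = (q : ℝ) ^ e / (2 * (A : ℝ)) ^ e := by
      rw [hx, Real.div_rpow hq0.le h2A.le]
    have h6 : (q : ℝ) ^ e ≤ 4 * A * T := by
      have h7 : (q : ℝ) ^ e = x * (2 * (A : ℝ)) ^ e := by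
        rw [h5]
        have : (2 * (A : ℝ)) ^ e ≠ 0 := (Real.rpow_pos_of_pos h2A e).ne'
        field_simp
      rw [h7]
      calc x * (2 * (A : ℝ)) ^ e ≤ (2 * T) * (2 * A) := mul_le_mul hTx2 h4 (by positivity) (by positivity)
        _ = 4 * A * T := by ring
    have h8 : (H : ℝ) / T ≤ 4 * A * H * ((q : ℝ) ^ e)⁻¹ := by
      rw [← div_eq_mul_inv, div_le_div_iff₀ hT0 hqe0]
      nlinarith
    calc (P.natDegree : ℝ) * ((H : ℝ) / T + 1) ≤ A * (2 * (H / T)) :=
          mul_le_mul h3 h2 (by positivity) (by positivity)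
      _ ≤ A * (2 * (4 * A * H * ((q : ℝ) ^ e)⁻¹)) := by
          apply mul_le_mul_of_nonneg_left _ (by positivity)
          linarith
      _ = _ := by ring

end Pool.Agent.Lib.H24P
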