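import Pool.Agent.Lib.H24P.Defs
import Pool.Agent.Lib.H59P.FDefs

/-!
# Project H24P, chunk D2 (M): large sieve and second moment over the frequencies
(ports of H59P/F3, F4)
-/

open Finset Polynomial

namespace Pool.Agent.Lib.H24P

open Pool.Agent.Lib.H68T Pool.Agent.Lib.H18Q Pool.Agent.Lib.H59P

theorem d2_conj_symm (s : Finset ℕ) (x y : ℝ) :
    ‖∑ h ∈ s, e ((h : ℝ) * (x - y))‖ = ‖∑ h ∈ s, e ((h : ℝ) * (y - x))‖ := by
  have h1 : ∑ h ∈ s, e ((h : ℝ) * (x - y)) = (starRingEnd ℂ) (∑ h ∈ s, e ((h : ℝ) * (y - x))) := by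
    rw [map_sum]
    refine sum_congr rfl fun h _ => ?_
    rw [PV_e_conj]
    congr 1
    ring
  rw [h1, Complex.norm_conj]

/-- Schur's test for a symmetric nonnegative kernel -/
theorem d2_schur {ι : Type} (S : Finset ι) (K : ι → ι → ℝ) (hK : ∀ i j, 0 ≤ K i j)
    (hs : ∀ i j, K i j = K j i) (B : ℝ) (hB : ∀ i ∈ S, ∑ j ∈ S, K i j ≤ B) (A : ι → ℝ) :
    ∑ i ∈ S, ∑ j ∈ S, A i * A j * K i j ≤ B * ∑ i ∈ S, A i ^ 2 := by
  have h1 : ∀ i ∈ S, ∀ j ∈ S, A i * A j * K i j ≤ (A i ^ 2 * K i j + A j ^ 2 * K i j) / 2 := by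
    intro i _ j _
    have := mul_nonneg (sq_nonneg (A i - A j)) (hK i j)
    nlinarith
  have h2 : ∑ i ∈ S, ∑ j ∈ S, A j ^ 2 * K i j = ∑ i ∈ S, ∑ j ∈ S, A i ^ 2 * K i j := by
    rw [sum_comm]
    exact sum_congr rfl fun i _ => sum_congr rfl fun j _ => by rw [hs j i]
  calc ∑ i ∈ S, ∑ j ∈ S, A i * A j * K i j
      ≤ ∑ i ∈ S, ∑ j ∈ S, (A i ^ 2 * K i j + A j ^ 2 * K i j) / 2 :=
        sum_le_sum fun i hi => sum_le_sum fun j hj => h1 i hi j hj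
    _ = (∑ i ∈ S, ∑ j ∈ S, A i ^ 2 * K i j + ∑ i ∈ S, ∑ j ∈ S, A j ^ 2 * K i j) / 2 := by
        rw [← sum_add_distrib, sum_div]
        refine sum_congr rfl fun i _ => ?_
        rw [← sum_add_distrib, sum_div]
    _ = ∑ i ∈ S, ∑ j ∈ S, A i ^ 2 * K i j := by rw [h2]; ring
    _ = ∑ i ∈ S, A i ^ 2 * ∑ j ∈ S, K i j := sum_congr rfl fun i _ => (mul_sum _ _ _).symm
    _ ≤ ∑ i ∈ S, A i ^ 2 * B := sum_le_sum fun i hi => mul_le_mul_of_nonneg_left (hB i hi) (sq_nonneg _)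
    _ = B * ∑ i ∈ S, A i ^ 2 := by rw [← sum_mul, mul_comm]

theorem d2_conj (x : ℝ) : (starRingEnd ℂ) (e x) = e (-x) := by
  unfold e
  rw [← Complex.exp_conj]
  congr 1
  simp only [map_mul, Complex.conj_I, Complex.conj_ofReal, map_ofNat]
  push_cast
  ring

/-- The large sieve in `k` dimensions, by Schur's test. Proof. As `F3` (`H59P/F3.lean`), with the side
`s i` and the bound `Bd i` depending on `i`. -/
theorem D2_F3 {k : ℕ} {ι : Type} (J : Fin k → Finset ι) (θ : Fin k → ι → ℝ) (b s : Fin k → ℕ)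
    (Bd : Fin k → ℝ) (hB0 : ∀ i, 0 ≤ Bd i) (hB : ∀ i, ∀ j ∈ J i,
      ∑ j' ∈ J i, ‖∑ h ∈ Ico (b i) (b i + s i), e ((h : ℝ) * (θ i j - θ i j'))‖ ≤ Bd i)
    (A : (Fin k → ι) → ℂ) :
    ∑ h ∈ cub b s, ‖∑ j ∈ Fintype.piFinset J, A j * ∏ i, e ((h i : ℝ) * θ i (j i))‖ ^ 2 ≤
      (∏ i, Bd i) * ∑ j ∈ Fintype.piFinset J, ‖A j‖ ^ 2 := by
  set P := Fintype.piFinset J with hP
  set K : (Fin k → ι) → (Fin k → ι) → ℝ := fun j j' =>
    ∏ i, ‖∑ h ∈ Ico (b i) (b i + s i), e ((h : ℝ) * (θ i (j i) - θ i (j' i)))‖ with hKdef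
  have hC : ((∑ h ∈ cub b s, ‖∑ j ∈ P, A j * ∏ i, e ((h i : ℝ) * θ i (j i))‖ ^ 2 : ℝ) : ℂ) =
      ∑ j ∈ P, ∑ j' ∈ P, A j * (starRingEnd ℂ) (A j') *
        ∏ i, ∑ h ∈ Ico (b i) (b i + s i), e ((h : ℝ) * (θ i (j i) - θ i (j' i))) := by
    have h1 : ∀ h : Fin k → ℕ, ((‖∑ j ∈ P, A j * ∏ i, e ((h i : ℝ) * θ i (j i))‖ ^ 2 : ℝ) : ℂ) =
        ∑ j ∈ P, ∑ j' ∈ P, A j * (starRingEnd ℂ) (A j') *
          ∏ i, e ((h i : ℝ) * (θ i (j i) - θ i (j' i))) := by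
      intro h
      rw [Complex.ofReal_pow, ← Complex.mul_conj', map_sum, sum_mul_sum]
      refine sum_congr rfl fun j _ => sum_congr rfl fun j' _ => ?_
      rw [map_mul, map_prod]
      have h2 : ∏ i, e ((h i : ℝ) * (θ i (j i) - θ i (j' i))) =
          (∏ i, e ((h i : ℝ) * θ i (j i))) * ∏ i, (starRingEnd ℂ) (e ((h i : ℝ) * θ i (j' i))) := by
        rw [← prod_mul_distrib]
        refine prod_congr rfl fun i _ => ?_
        rw [PV_e_conj, ← PV_e_add]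
        congr 1
        ring
      rw [h2]
      ring
    rw [Complex.ofReal_sum, sum_congr rfl fun h _ => h1 h, sum_comm]
    refine sum_congr rfl fun j _ => ?_
    rw [sum_comm]
    refine sum_congr rfl fun j' _ => ?_
    rw [← mul_sum]
    congr 1
    rw [prod_univ_sum]
    rfl
  have hle : ∑ h ∈ cub b s, ‖∑ j ∈ P, A j * ∏ i, e ((h i : ℝ) * θ i (j i))‖ ^ 2 ≤
      ∑ j ∈ P, ∑ j' ∈ P, ‖A j‖ * ‖A j'‖ * K j j' := by
    have h3 : ∑ h ∈ cub b s, ‖∑ j ∈ P, A j * ∏ i, e ((h i : ℝ) * θ i (j i))‖ ^ 2 =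
        ‖((∑ h ∈ cub b s, ‖∑ j ∈ P, A j * ∏ i, e ((h i : ℝ) * θ i (j i))‖ ^ 2 : ℝ) : ℂ)‖ := by
      rw [Complex.norm_real, Real.norm_eq_abs, abs_of_nonneg (sum_nonneg fun _ _ => sq_nonneg _)]
    rw [h3, hC]
    refine (norm_sum_le _ _).trans (sum_le_sum fun j _ => (norm_sum_le _ _).trans
      (sum_le_sum fun j' _ => ?_))
    rw [norm_mul, norm_mul, Complex.norm_conj, norm_prod]
  refine hle.trans (d2_schur P K (fun j j' => prod_nonneg fun i _ => norm_nonneg _) ?_ (∏ i, Bd i) ?_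
    (fun j => ‖A j‖))
  · intro j j'
    exact prod_congr rfl fun i _ => d2_conj_symm _ _ _
  · intro j hj
    rw [hP, Fintype.mem_piFinset] at hj
    calc ∑ j' ∈ P, K j j' = ∏ i, ∑ x ∈ J i,
          ‖∑ h ∈ Ico (b i) (b i + s i), e ((h : ℝ) * (θ i (j i) - θ i x))‖ := by
          rw [prod_univ_sum]
      _ ≤ ∏ i : Fin k, Bd i := prod_le_prod (fun i _ => sum_nonneg fun _ _ => norm_nonneg _)
          (fun i _ => hB i (j i) (hj i))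

/-- Proof. As `F4` (`H59P/F4.lean`): expand the square:
`∑_{n,n'} w(n) conj w(n') ∏_i ∑_{x_i < q_i} e((P_i(n) - P_i(n')) x_i/q_i)`, the inner sum is `q_i` if
`q_i ∣ P_i(n) - P_i(n')` and `0` else (`CQ1_geom`). With `|w(n) w(n')| ≤ (|w(n)|² + |w(n')|²)/2` and the symmetry the
double sum is at most `∑_n |w(n)|² · #{n' : …} ≤ Nb ∑_n |w(n)|²`. -/
theorem D2_F4 {k : ℕ} (P : Fin k → ℤ[X]) (q : Fin k → ℕ) (hq : ∀ i, 1 ≤ q i) (a H : ℕ) (w : ℕ → ℂ)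
    (Nb : ℝ) (hNb : ∀ n ∈ Ico a (a + H), ((((Ico a (a + H)).filter (fun n' : ℕ =>
      ∀ i, (q i : ℤ) ∣ (P i).eval (n' : ℤ) - (P i).eval (n : ℤ))).card : ℕ) : ℝ) ≤ Nb) :
    ∑ x ∈ Fintype.piFinset (fun i => range (q i)),
      ‖∑ n ∈ Ico a (a + H), w n * ∏ i, e ((((P i).eval (n : ℤ) : ℤ) : ℝ) * ((x i : ℝ) / (q i : ℝ)))‖ ^ 2 ≤
      (∏ i, (q i : ℝ)) * (Nb * ∑ n ∈ Ico a (a + H), ‖w n‖ ^ 2) := by
  set S := Ico a (a + H) with hS
  set K : ℕ → ℕ → ℝ := fun n n' =>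
    if ∀ i, (q i : ℤ) ∣ (P i).eval (n' : ℤ) - (P i).eval (n : ℤ) then 1 else 0 with hKdef
  have h1 : ∀ x : Fin k → ℕ, ((‖∑ n ∈ S, w n * ∏ i, e ((((P i).eval (n : ℤ) : ℤ) : ℝ) *
      ((x i : ℝ) / (q i : ℝ)))‖ ^ 2 : ℝ) : ℂ) =
      ∑ n ∈ S, ∑ n' ∈ S, (starRingEnd ℂ) (w n) * w n' *
        ∏ i, e ((x i : ℝ) * (((((P i).eval (n' : ℤ) - (P i).eval (n : ℤ) : ℤ)) : ℝ) / (q i : ℝ))) := by
    intro x
    rw [Complex.ofReal_pow, ← Complex.conj_mul', map_sum, sum_mul_sum]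
    refine sum_congr rfl fun n _ => sum_congr rfl fun n' _ => ?_
    rw [map_mul, map_prod]
    have h2 : ∏ i, e ((x i : ℝ) * (((((P i).eval (n' : ℤ) - (P i).eval (n : ℤ) : ℤ)) : ℝ) / (q i : ℝ))) =
        (∏ i, (starRingEnd ℂ) (e ((((P i).eval (n : ℤ) : ℤ) : ℝ) * ((x i : ℝ) / (q i : ℝ))))) *
          ∏ i, e ((((P i).eval (n' : ℤ) : ℤ) : ℝ) * ((x i : ℝ) / (q i : ℝ))) := by
      rw [← prod_mul_distrib]
      refine prod_congr rfl fun i _ => ?_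
      rw [d2_conj, ← CQ1_e_add]
      congr 1
      push_cast
      ring
    rw [h2]
    ring
  have h2 : ((∑ x ∈ Fintype.piFinset (fun i => range (q i)),
      ‖∑ n ∈ S, w n * ∏ i, e ((((P i).eval (n : ℤ) : ℤ) : ℝ) * ((x i : ℝ) / (q i : ℝ)))‖ ^ 2 : ℝ) : ℂ) =
      ∑ n ∈ S, ∑ n' ∈ S, (starRingEnd ℂ) (w n) * w n' * (((K n n' * ∏ i, (q i : ℝ)) : ℝ) : ℂ) := by
    rw [Complex.ofReal_sum]
    simp_rw [h1]
    rw [sum_comm]
    refine sum_congr rfl fun n _ => ?_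
    rw [sum_comm]
    refine sum_congr rfl fun n' _ => ?_
    rw [← mul_sum]
    congr 1
    rw [← prod_univ_sum (fun i => range (q i))
      (fun i b => e ((b : ℝ) * (((((P i).eval (n' : ℤ) - (P i).eval (n : ℤ) : ℤ)) : ℝ) / (q i : ℝ))))]
    have h3 : ∀ i, ∑ b ∈ range (q i), e ((b : ℝ) *
        (((((P i).eval (n' : ℤ) - (P i).eval (n : ℤ) : ℤ)) : ℝ) / (q i : ℝ))) =
        if (q i : ℤ) ∣ (P i).eval (n' : ℤ) - (P i).eval (n : ℤ) then (q i : ℂ) else 0 :=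
      fun i => CQ1_geom (q i) (hq i) _
    simp_rw [h3]
    rw [prod_ite_zero]
    simp only [mem_univ, true_implies, hKdef]
    split_ifs
    · push_cast
      rw [one_mul]
    · simp
  have h5 : ∑ x ∈ Fintype.piFinset (fun i => range (q i)),
      ‖∑ n ∈ S, w n * ∏ i, e ((((P i).eval (n : ℤ) : ℤ) : ℝ) * ((x i : ℝ) / (q i : ℝ)))‖ ^ 2 ≤
      (∏ i, (q i : ℝ)) * ∑ n ∈ S, ∑ n' ∈ S, ‖w n‖ * ‖w n'‖ * K n n' := by
    have h3 : ∑ x ∈ Fintype.piFinset (fun i => range (q i)),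
        ‖∑ n ∈ S, w n * ∏ i, e ((((P i).eval (n : ℤ) : ℤ) : ℝ) * ((x i : ℝ) / (q i : ℝ)))‖ ^ 2 =
        ‖((∑ x ∈ Fintype.piFinset (fun i => range (q i)),
        ‖∑ n ∈ S, w n * ∏ i, e ((((P i).eval (n : ℤ) : ℤ) : ℝ) * ((x i : ℝ) / (q i : ℝ)))‖ ^ 2 : ℝ) : ℂ)‖ := by
      rw [Complex.norm_real, Real.norm_eq_abs, abs_of_nonneg (sum_nonneg fun _ _ => sq_nonneg _)]
    rw [h3, h2, mul_sum]
    refine (norm_sum_le _ _).trans (sum_le_sum fun n _ => ?_)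
    rw [mul_sum]
    refine (norm_sum_le _ _).trans (sum_le_sum fun n' _ => ?_)
    have hK0 : 0 ≤ K n n' * ∏ i, (q i : ℝ) := by
      apply mul_nonneg
      · simp only [hKdef]
        split_ifs <;> norm_num
      · exact prod_nonneg fun i _ => Nat.cast_nonneg _
    rw [norm_mul, norm_mul, Complex.norm_conj, Complex.norm_real, Real.norm_eq_abs, abs_of_nonneg hK0]
    apply le_of_eq
    ring
  refine h5.trans (mul_le_mul_of_nonneg_left ?_ (prod_nonneg fun i _ => Nat.cast_nonneg _))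
  refine d2_schur S K ?_ ?_ Nb ?_ (fun n => ‖w n‖)
  · intro n n'
    simp only [hKdef]
    split_ifs <;> norm_num
  · intro n n'
    simp only [hKdef]
    refine if_congr (forall_congr' fun i => ?_) rfl rfl
    rw [dvd_sub_comm]
  · intro n hn
    refine le_trans (le_of_eq ?_) (hNb n hn)
    simp only [hKdef]
    rw [sum_boole]

end Pool.Agent.Lib.H24P
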