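import Pool.Agent.Lib.H24P.D1
import Pool.Agent.Lib.H24P.D2
import Pool.Agent.Lib.H59P.F1
import Pool.Agent.Lib.H59P.F2
import Pool.Agent.Lib.H59P.F5
import Pool.Agent.Lib.H59P.F

/-!
# Project H24P, chunk D3 (M/L): the mean square of the part with large moduli (`Fgen`)
-/

open Finset Polynomial

namespace Pool.Agent.Lib.H24P

open Pool.Agent.Lib.H68T Pool.Agent.Lib.H18Q Pool.Agent.Lib.H59P

/-- the amplitude -/
noncomputable def d3_A {k : ℕ} (P : Fin k → ℤ[X]) (p : Fin k → Ch) (c : Fin k → ℕ → ℕ → ℂ) (w : ℕ → ℂ)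
    (a H : ℕ) (j : Fin k → ℕ × ℕ) : ℂ :=
  (∏ i, c i (j i).1 (j i).2) *
    ∑ n ∈ Ico a (a + H), w n * ∏ i, e ((((P i).eval (n : ℤ) : ℤ) : ℝ) * fr (p i).1 (j i))

theorem d3_expand {k Q : ℕ} (P : Fin k → ℤ[X]) (p : Fin k → Ch) (hp : ∀ i, p i ∈ PC Q)
    (T : Finset (Fin k → ℕ))
    (hT : T ⊆ Fintype.piFinset (fun i => KS Q (p i).1)) (c : Fin k → ℕ → ℕ → ℂ)
    (hc : ∀ i, ∀ κ ∈ KS Q (p i).1, ∀ m : ℤ, gk (p i) κ m =
      ∑ x ∈ UR ((p i).1 * κ), c i κ x * e ((m : ℝ) * fr (p i).1 (κ, x))) (w : ℕ → ℂ) (a H : ℕ)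
    (h : Fin k → ℕ) :
    ∑ n ∈ Ico a (a + H), w n * ∑ κ ∈ T, ∏ i, gk (p i) (κ i) ((P i).eval (n : ℤ) + h i) =
    ∑ j ∈ Fintype.piFinset (fun i => FJ Q (p i).1),
      (if (fun i => (j i).1) ∈ T then d3_A P p c w a H j else 0) *
        ∏ i, e ((h i : ℝ) * fr (p i).1 (j i)) := by
  have h1 : ∀ j ∈ Fintype.piFinset (fun i => FJ Q (p i).1),
      (if (fun i => (j i).1) ∈ T then d3_A P p c w a H j else 0) *
        ∏ i, e ((h i : ℝ) * fr (p i).1 (j i)) =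
      if (fun i => (j i).1) ∈ T then d3_A P p c w a H j * ∏ i, e ((h i : ℝ) * fr (p i).1 (j i))
        else 0 := by
    intro j _
    rw [ite_mul, zero_mul]
  rw [sum_congr rfl h1,
    f_sum p hp T hT (fun j => d3_A P p c w a H j * ∏ i, e ((h i : ℝ) * fr (p i).1 (j i)))]
  have h0 : ∀ n ∈ Ico a (a + H),
      w n * ∑ κ ∈ T, ∏ i, gk (p i) (κ i) ((P i).eval (n : ℤ) + h i) =
      ∑ κ ∈ T, w n * ∏ i, gk (p i) (κ i) ((P i).eval (n : ℤ) + h i) := by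
    intro n _
    rw [mul_sum]
  rw [sum_congr rfl h0, sum_comm]
  refine sum_congr rfl fun κ hκ => ?_
  have h2 := Fintype.mem_piFinset.1 (hT hκ)
  have h3 : ∀ n ∈ Ico a (a + H), w n * ∏ i, gk (p i) (κ i) ((P i).eval (n : ℤ) + h i) =
      ∑ x ∈ Fintype.piFinset (fun i => UR ((p i).1 * κ i)), (∏ i, c i (κ i) (x i)) *
        (w n * ∏ i, e ((((P i).eval (n : ℤ) : ℤ) : ℝ) * fr (p i).1 (κ i, x i))) *
        ∏ i, e ((h i : ℝ) * fr (p i).1 (κ i, x i)) := by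
    intro n _
    rw [prod_congr rfl fun i _ => hc i (κ i) (h2 i) ((P i).eval (n : ℤ) + h i), prod_univ_sum, mul_sum]
    refine sum_congr rfl fun x _ => ?_
    have h4 : ∏ i, c i (κ i) (x i) * e ((((P i).eval (n : ℤ) + h i : ℤ) : ℝ) * fr (p i).1 (κ i, x i)) =
        (∏ i, c i (κ i) (x i)) * ((∏ i, e ((((P i).eval (n : ℤ) : ℤ) : ℝ) * fr (p i).1 (κ i, x i))) *
          ∏ i, e ((h i : ℝ) * fr (p i).1 (κ i, x i))) := by
      rw [← prod_mul_distrib, ← prod_mul_distrib]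
      refine prod_congr rfl fun i _ => ?_
      rw [← PV_e_add]
      congr 2
      push_cast
      ring
    rw [h4]
    ring
  rw [sum_congr rfl h3, sum_comm]
  refine sum_congr rfl fun x _ => ?_
  unfold d3_A
  rw [mul_sum, sum_mul]

theorem d3_moment {k Q : ℕ} (P : Fin k → ℤ[X]) (p : Fin k → Ch) (hp : ∀ i, p i ∈ PC Q)
    (T : Finset (Fin k → ℕ))
    (hT : T ⊆ Fintype.piFinset (fun i => KS Q (p i).1)) (c : Fin k → ℕ → ℕ → ℂ)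
    (hc : ∀ i, ∀ κ ∈ KS Q (p i).1, ∀ x, ‖c i κ x‖ ^ 2 ≤ ((p i).1 : ℝ) / (Nat.totient ((p i).1 * κ) : ℝ) ^ 2)
    (w : ℕ → ℂ) (a H : ℕ) (Nb : ℝ) (hNb0 : 0 ≤ Nb)
    (hNb : ∀ κ ∈ T, ∀ n ∈ Ico a (a + H), ((((Ico a (a + H)).filter (fun n' : ℕ =>
      ∀ i, (((p i).1 * κ i : ℕ) : ℤ) ∣ (P i).eval (n' : ℤ) - (P i).eval (n : ℤ))).card : ℕ) : ℝ) ≤ Nb) :
    ∑ j ∈ Fintype.piFinset (fun i => FJ Q (p i).1),
      ‖(if (fun i => (j i).1) ∈ T then d3_A P p c w a H j else 0)‖ ^ 2 ≤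
      (Nb * ∑ n ∈ Ico a (a + H), ‖w n‖ ^ 2) * (3 * (1 + Real.log Q) ^ 3) ^ k := by
  have h1 : ∀ j ∈ Fintype.piFinset (fun i => FJ Q (p i).1),
      ‖(if (fun i => (j i).1) ∈ T then d3_A P p c w a H j else 0)‖ ^ 2 =
      if (fun i => (j i).1) ∈ T then ‖d3_A P p c w a H j‖ ^ 2 else 0 := by
    intro j _
    split_ifs <;> simp
  rw [sum_congr rfl h1, f_sum p hp T hT (fun j => ‖d3_A P p c w a H j‖ ^ 2)]
  have hW0 : 0 ≤ ∑ n ∈ Ico a (a + H), ‖w n‖ ^ 2 := sum_nonneg fun _ _ => by positivity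
  have h2 : ∀ κ ∈ T, ∑ x ∈ Fintype.piFinset (fun i => UR ((p i).1 * κ i)),
      ‖d3_A P p c w a H (fun i => (κ i, x i))‖ ^ 2 ≤
      (Nb * ∑ n ∈ Ico a (a + H), ‖w n‖ ^ 2) *
        ∏ i, (((p i).1 : ℝ) / (Nat.totient ((p i).1 * κ i) : ℝ) ^ 2 * ((p i).1 * κ i : ℕ)) := by
    intro κ hκ
    have hk := Fintype.mem_piFinset.1 (hT hκ)
    have h3 : ∀ x ∈ Fintype.piFinset (fun i => UR ((p i).1 * κ i)),
        ‖d3_A P p c w a H (fun i => (κ i, x i))‖ ^ 2 ≤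
        (∏ i, (((p i).1 : ℝ) / (Nat.totient ((p i).1 * κ i) : ℝ) ^ 2)) *
          ‖∑ n ∈ Ico a (a + H), w n * ∏ i, e ((((P i).eval (n : ℤ) : ℤ) : ℝ) *
            ((x i : ℝ) / (((p i).1 * κ i : ℕ) : ℝ)))‖ ^ 2 := by
      intro x _
      unfold d3_A
      rw [norm_mul, mul_pow]
      refine mul_le_mul_of_nonneg_right ?_ (by positivity)
      rw [norm_prod, ← prod_pow]
      exact prod_le_prod (fun i _ => by positivity) (fun i _ => hc i (κ i) (hk i) (x i))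
    have h4 := D2_F4 P (fun i => (p i).1 * κ i) (fun i => (f_q_le (hp i) (hk i)).1) a H w Nb (hNb κ hκ)
    calc ∑ x ∈ Fintype.piFinset (fun i => UR ((p i).1 * κ i)), ‖d3_A P p c w a H (fun i => (κ i, x i))‖ ^ 2
        ≤ ∑ x ∈ Fintype.piFinset (fun i => UR ((p i).1 * κ i)),
          (∏ i, (((p i).1 : ℝ) / (Nat.totient ((p i).1 * κ i) : ℝ) ^ 2)) *
          ‖∑ n ∈ Ico a (a + H), w n * ∏ i, e ((((P i).eval (n : ℤ) : ℤ) : ℝ) *
            ((x i : ℝ) / (((p i).1 * κ i : ℕ) : ℝ)))‖ ^ 2 :=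
          sum_le_sum h3
      _ ≤ ∑ x ∈ Fintype.piFinset (fun i => range ((p i).1 * κ i)),
          (∏ i, (((p i).1 : ℝ) / (Nat.totient ((p i).1 * κ i) : ℝ) ^ 2)) *
          ‖∑ n ∈ Ico a (a + H), w n * ∏ i, e ((((P i).eval (n : ℤ) : ℤ) : ℝ) *
            ((x i : ℝ) / (((p i).1 * κ i : ℕ) : ℝ)))‖ ^ 2 := by
          refine sum_le_sum_of_subset_of_nonneg ?_ (fun _ _ _ => by positivity)
          exact Fintype.piFinset_subset _ _ (fun i => filter_subset _ _)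
      _ = (∏ i, (((p i).1 : ℝ) / (Nat.totient ((p i).1 * κ i) : ℝ) ^ 2)) *
          ∑ x ∈ Fintype.piFinset (fun i => range ((p i).1 * κ i)),
          ‖∑ n ∈ Ico a (a + H), w n * ∏ i, e ((((P i).eval (n : ℤ) : ℤ) : ℝ) *
            ((x i : ℝ) / (((p i).1 * κ i : ℕ) : ℝ)))‖ ^ 2 :=
          (mul_sum _ _ _).symm
      _ ≤ (∏ i, (((p i).1 : ℝ) / (Nat.totient ((p i).1 * κ i) : ℝ) ^ 2)) *
          ((∏ i, (((p i).1 * κ i : ℕ) : ℝ)) * (Nb * ∑ n ∈ Ico a (a + H), ‖w n‖ ^ 2)) :=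
          mul_le_mul_of_nonneg_left h4 (prod_nonneg fun i _ => by positivity)
      _ = _ := by
          rw [prod_mul_distrib]
          ring
  refine (sum_le_sum h2).trans ?_
  rw [← mul_sum]
  refine mul_le_mul_of_nonneg_left ?_ (by positivity)
  calc ∑ κ ∈ T, ∏ i, (((p i).1 : ℝ) / (Nat.totient ((p i).1 * κ i) : ℝ) ^ 2 * ((p i).1 * κ i : ℕ))
      ≤ ∑ κ ∈ Fintype.piFinset (fun i => KS Q (p i).1),
        ∏ i, (((p i).1 : ℝ) / (Nat.totient ((p i).1 * κ i) : ℝ) ^ 2 * ((p i).1 * κ i : ℕ)) :=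
        sum_le_sum_of_subset_of_nonneg hT (fun _ _ _ => prod_nonneg fun i _ => by positivity)
    _ = ∏ i, ∑ κ ∈ KS Q (p i).1, (((p i).1 : ℝ) / (Nat.totient ((p i).1 * κ) : ℝ) ^ 2 *
        ((p i).1 * κ : ℕ)) := by
        rw [prod_univ_sum]
    _ ≤ ∏ _i : Fin k, (3 * (1 + Real.log Q) ^ 3) := by
        refine prod_le_prod (fun i _ => sum_nonneg fun κ _ => by positivity) (fun i _ => ?_)
        obtain ⟨hr1, hrQ, -⟩ := mem_PC.1 (hp i)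
        exact F5 Q (p i).1 hr1 hrQ
    _ = _ := by rw [prod_const, card_univ, Fintype.card_fin]

/-- the least common multiple divides the product -/
theorem d3_lcm_le {k : ℕ} (q : Fin k → ℕ) (hq : ∀ i, 1 ≤ q i) : univ.lcm q ≤ ∏ i, q i := by
  refine Nat.le_of_dvd (prod_pos fun i _ => hq i) ?_
  exact Finset.lcm_dvd fun i hi => dvd_prod_of_mem q hi

/-- some modulus is large -/
theorem d3_large {k D : ℕ} (q : Fin k → ℕ) (hq : ∀ i, 1 ≤ q i) (hk : 0 < k)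
    (hD : D < univ.lcm q) : ∃ i, (D : ℝ) ^ ((1 : ℝ) / k) ≤ q i := by
  by_contra hcon
  push Not at hcon
  have h1 : (∏ i, (q i : ℝ)) ≤ ∏ _i : Fin k, (D : ℝ) ^ ((1 : ℝ) / k) :=
    prod_le_prod (fun i _ => by positivity) (fun i _ => (hcon i).le)
  rw [prod_const, card_univ, Fintype.card_fin, ← Real.rpow_natCast, ← Real.rpow_mul (by positivity)] at h1
  have hk' : ((1 : ℝ) / k) * k = 1 := by
    field_simp
  rw [hk', Real.rpow_one] at h1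
  have h2 : (∏ i, q i) ≤ D := by exact_mod_cast h1
  exact absurd (d3_lcm_le q hq) (by omega)

/-- **Fgen.** Proof. Compare the assembly `F_main` in `H59P/F.lean`.

For `k = 0` the set `T` is empty (`univ.lcm = 1 ≤ D`). Let `k ≥ 1`. `F1` gives coefficients `c_i κ x` with
`gk (p i) κ m = ∑_{x ∈ UR (r_i κ)} c_i κ x e(m x/(r_i κ))`. So the inner function is
`∑_{κ ∈ T} ∑_{x ∈ ∏ UR (r_i κ_i)} ∏_i c_i κ_i x_i · S(κ, x) · ∏_i e(h_i x_i/(r_i κ_i))`,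
`S(κ, x) = ∑_n w(n) ∏_i e(P_i(n) x_i/(r_i κ_i))`: of the form of `D2_F3` with `J i = FJ Q r_i`, `θ i = fr r_i`,
`Bd i = 2 s_i` (`F2`, `Q^4 ≤ s_i`), `A j = 0` unless `(κ_i) ∈ T`. So the left side is at most
`∏ (2 s_i) ∑_{κ ∈ T} ∏_i (r_i/φ(r_i κ_i)²) ∑_x |S(κ, x)|²` (`F1`: `|c_i κ x|² ≤ r_i/φ(r_i κ_i)²`), and for `κ ∈ T` by
`D2_F4` with `q_i = r_i κ_i ≤ Q ≤ H`: the least common multiple of the `q_i` is `> D`, so some
`q_j ≥ D^(1/k)` (the product of the `q_i` is at least the lcm), and by `D1_dens` for `P_j`, `c = P_j(n)`: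
`Nb = 8 A² H D^(-1/(k 2^A))`. Finally `∑_{κ ∈ T} ∏_i (r_i/φ(r_i κ_i)²) r_i κ_i ≤ (3 (1 + log Q)^3)^k` (`F5`). So the
constants are `Cc = 2^k 8 A² 3^k + 3 k`, `cc = 1/(k 2^A)`. -/
theorem Fgen (k A : ℕ) (hA : 1 ≤ A) : ∃ Cc cc : ℝ, 1 ≤ Cc ∧ 0 < cc ∧ cc ≤ 1 ∧
    ∀ P : Fin k → ℤ[X], Pol A P → ∀ Q : ℕ, 1 ≤ Q → ∀ p : Fin k → Ch, (∀ i, p i ∈ PC Q) →
    ∀ T : Finset (Fin k → ℕ), T ⊆ Fintype.piFinset (fun i => KS Q (p i).1) →
    ∀ D : ℕ, 1 ≤ D → (∀ κ ∈ T, D < univ.lcm (fun i => (p i).1 * κ i)) →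
    ∀ b s : Fin k → ℕ, (∀ i, Q ^ 4 ≤ s i) → ∀ a H : ℕ, Q ≤ H → ∀ w : ℕ → ℂ,
    ∑ h ∈ cub b s, ‖∑ n ∈ Ico a (a + H), w n *
        ∑ κ ∈ T, ∏ i, gk (p i) (κ i) ((P i).eval (n : ℤ) + h i)‖ ^ 2 ≤
      Cc * (1 + Real.log Q) ^ Cc * vol s * (H * ∑ n ∈ Ico a (a + H), ‖w n‖ ^ 2) *
        (D : ℝ) ^ (-cc) := by
  have hAr : (1 : ℝ) ≤ A := by exact_mod_cast hA
  rcases Nat.eq_zero_or_pos k with hk | hk
  · subst hk
    refine ⟨1, 1, le_rfl, one_pos, le_rfl, ?_⟩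
    intro P hP Q hQ p hp T hT D hD1 hTD b s hs a H hQH w
    have hlQ : 0 ≤ Real.log Q := Real.log_natCast_nonneg Q
    have hTe : T = ∅ := by
      rw [eq_empty_iff_forall_notMem]
      intro κ hκ
      have h1 := hTD κ hκ
      rw [univ_eq_empty, lcm_empty] at h1
      omega
    have hv : 0 ≤ vol s := prod_nonneg fun i _ => by positivity
    rw [hTe]
    have : ∑ h ∈ cub b s, ‖∑ n ∈ Ico a (a + H), w n * ∑ κ ∈ (∅ : Finset (Fin 0 → ℕ)),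
        ∏ i, gk (p i) (κ i) ((P i).eval (n : ℤ) + h i)‖ ^ 2 = 0 := by
      simp
    rw [this]
    positivity
  have hkr : (1 : ℝ) ≤ k := by exact_mod_cast hk
  have h2A : (1 : ℝ) ≤ 2 ^ A := one_le_pow₀ (by norm_num)
  set cc : ℝ := 1 / (k * 2 ^ A) with hcc
  have hcc0 : 0 < cc := by positivity
  have hcc1 : cc ≤ 1 := by
    rw [hcc, div_le_one (by positivity)]
    nlinarith
  set Cc : ℝ := 2 ^ k * (8 * (A : ℝ) ^ 2) * 3 ^ k + 3 * k with hCc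
  have hCc1 : 1 ≤ Cc := by
    have : (0 : ℝ) ≤ 2 ^ k * (8 * (A : ℝ) ^ 2) * 3 ^ k := by positivity
    rw [hCc]
    linarith
  refine ⟨Cc, cc, hCc1, hcc0, hcc1, ?_⟩
  intro P hP Q hQ p hp T hT D hD1 hTD b s hs a H hQH w
  have hlQ : 0 ≤ Real.log Q := Real.log_natCast_nonneg Q
  have hL1 : 1 ≤ 1 + Real.log Q := by linarith
  have hDr : (1 : ℝ) ≤ D := by exact_mod_cast hD1
  have hW0 : 0 ≤ ∑ n ∈ Ico a (a + H), ‖w n‖ ^ 2 := sum_nonneg fun _ _ => by positivity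
  have hv : 0 ≤ vol s := prod_nonneg fun i _ => by positivity
  -- the number of solutions
  have hNb : ∀ κ ∈ T, ∀ n ∈ Ico a (a + H), ((((Ico a (a + H)).filter (fun n' : ℕ =>
      ∀ i, (((p i).1 * κ i : ℕ) : ℤ) ∣ (P i).eval (n' : ℤ) - (P i).eval (n : ℤ))).card : ℕ) : ℝ) ≤
      8 * (A : ℝ) ^ 2 * H * (D : ℝ) ^ (-cc) := by
    intro κ hκ n _
    have hk' := Fintype.mem_piFinset.1 (hT hκ)
    obtain ⟨j, hj⟩ := d3_large (fun i => (p i).1 * κ i) (fun i => (f_q_le (hp i) (hk' i)).1) hk (hTD κ hκ)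
    obtain ⟨hq1, hq2⟩ := f_q_le (hp j) (hk' j)
    have h1 := D1_dens A hA (P j) (hP.deg j) (hP.degA j) (hP.lc j) ((p j).1 * κ j) hq1
      ((P j).eval (n : ℤ)) a H (hq2.trans hQH)
    have h2 : ((((Ico a (a + H)).filter (fun n' : ℕ =>
        ∀ i, (((p i).1 * κ i : ℕ) : ℤ) ∣ (P i).eval (n' : ℤ) - (P i).eval (n : ℤ))).card : ℕ) : ℝ) ≤
        ((((Ico a (a + H)).filter (fun n' : ℕ =>
        (((p j).1 * κ j : ℕ) : ℤ) ∣ (P j).eval (n' : ℤ) - (P j).eval (n : ℤ))).card : ℕ) : ℝ) := by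
      have hsub : (Ico a (a + H)).filter (fun n' : ℕ =>
          ∀ i, (((p i).1 * κ i : ℕ) : ℤ) ∣ (P i).eval (n' : ℤ) - (P i).eval (n : ℤ)) ⊆
          (Ico a (a + H)).filter (fun n' : ℕ =>
          (((p j).1 * κ j : ℕ) : ℤ) ∣ (P j).eval (n' : ℤ) - (P j).eval (n : ℤ)) := by
        intro n' hn'
        rw [mem_filter] at hn' ⊢
        exact ⟨hn'.1, hn'.2 j⟩
      exact_mod_cast card_le_card hsub
    refine h2.trans (h1.trans ?_)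
    refine mul_le_mul_of_nonneg_left ?_ (by positivity)
    have hq0 : (0 : ℝ) < (((p j).1 * κ j : ℕ) : ℝ) := by exact_mod_cast hq1
    have hD0 : (0 : ℝ) < D := by linarith
    have h3 : (D : ℝ) ^ cc ≤ (((p j).1 * κ j : ℕ) : ℝ) ^ ((1 : ℝ) / 2 ^ A) := by
      have h4 : (D : ℝ) ^ cc = ((D : ℝ) ^ ((1 : ℝ) / k)) ^ ((1 : ℝ) / 2 ^ A) := by
        rw [← Real.rpow_mul hD0.le]
        congr 1
        rw [hcc]
        field_simp
      rw [h4]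
      exact Real.rpow_le_rpow (by positivity) hj (by positivity)
    rw [Real.rpow_neg hq0.le, Real.rpow_neg hD0.le]
    exact inv_anti₀ (by positivity) h3
  choose c hc using fun i => F1 Q (p i) (hp i)
  have h1 : ∀ h ∈ cub b s, ‖∑ n ∈ Ico a (a + H), w n *
        ∑ κ ∈ T, ∏ i, gk (p i) (κ i) ((P i).eval (n : ℤ) + h i)‖ ^ 2 =
      ‖∑ j ∈ Fintype.piFinset (fun i => FJ Q (p i).1),
      (if (fun i => (j i).1) ∈ T then d3_A P p c w a H j else 0) *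
        ∏ i, e ((h i : ℝ) * fr (p i).1 (j i))‖ ^ 2 := by
    intro h _
    rw [d3_expand P p hp T hT c (fun i κ hκ => (hc i κ hκ).2) w a H h]
  rw [sum_congr rfl h1]
  have h2 := D2_F3 (fun i => FJ Q (p i).1) (fun i => fr (p i).1) b s (fun i => 2 * (s i : ℝ))
    (fun i => by positivity)
    (fun i j hj => F2 Q (p i).1 (s i) (b i) (mem_PC.1 (hp i)).1 (mem_PC.1 (hp i)).2.1 (hs i) j hj)
    (fun j => if (fun i => (j i).1) ∈ T then d3_A P p c w a H j else 0)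
  have h3 := d3_moment P p hp T hT c (fun i κ hκ => (hc i κ hκ).1) w a H
    (8 * (A : ℝ) ^ 2 * H * (D : ℝ) ^ (-cc)) (by positivity) hNb
  refine h2.trans ((mul_le_mul_of_nonneg_left h3 (prod_nonneg fun i _ => by positivity)).trans ?_)
  have hprod : ∏ i, 2 * (s i : ℝ) = 2 ^ k * vol s := by
    rw [prod_mul_distrib, prod_const, card_univ, Fintype.card_fin]
    rfl
  rw [hprod]
  have hpow : (1 + Real.log Q) ^ (3 * k) ≤ (1 + Real.log Q) ^ Cc := by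
    rw [← Real.rpow_natCast]
    refine Real.rpow_le_rpow_of_exponent_le hL1 ?_
    have : (0 : ℝ) ≤ 2 ^ k * (8 * (A : ℝ) ^ 2) * 3 ^ k := by positivity
    rw [hCc]
    push_cast
    linarith
  have hcst : 2 ^ k * (8 * (A : ℝ) ^ 2) * 3 ^ k ≤ Cc := by
    rw [hCc]
    linarith
  have hR0 : 0 ≤ vol s * (H * ∑ n ∈ Ico a (a + H), ‖w n‖ ^ 2) * (D : ℝ) ^ (-cc) := by positivity
  calc 2 ^ k * vol s * ((8 * (A : ℝ) ^ 2 * H * (D : ℝ) ^ (-cc) * ∑ n ∈ Ico a (a + H), ‖w n‖ ^ 2) *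
        (3 * (1 + Real.log Q) ^ 3) ^ k)
      = (2 ^ k * (8 * (A : ℝ) ^ 2) * 3 ^ k) * (1 + Real.log Q) ^ (3 * k) *
        (vol s * (H * ∑ n ∈ Ico a (a + H), ‖w n‖ ^ 2) * (D : ℝ) ^ (-cc)) := by
        rw [mul_pow, ← pow_mul]
        ring
    _ ≤ Cc * (1 + Real.log Q) ^ Cc *
        (vol s * (H * ∑ n ∈ Ico a (a + H), ‖w n‖ ^ 2) * (D : ℝ) ^ (-cc)) := by
        refine mul_le_mul_of_nonneg_right ?_ hR0
        exact mul_le_mul hcst hpow (by positivity) (by linarith)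
    _ = _ := by ring

end Pool.Agent.Lib.H24P
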