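import Mathlib
import Pool.Agent.Lib.H59P.MDefs
import Pool.Agent.Lib.H59P.SDefs

/-!
# Project H24P (MP_0bf1d2_nt): power savings for Schinzel's problem with varying constant terms

Definitions. See `PROOF.md`. The notions of H59P (where the coordinates are `n + h_i`) for congruence
preserving maps `φ_i : ℤ → ℤ`.
-/

open Finset Polynomial

namespace Pool.Agent.Lib.H24P

open Pool.Agent.Lib.H68T Pool.Agent.Lib.H18Q Pool.Agent.Lib.H59P

noncomputable section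

/-! ## Local factors, mean values -/

/-- The maps `φ_i` preserve congruences. -/
def Cp {k : ℕ} (φ : Fin k → ℤ → ℤ) : Prop := ∀ (i : Fin k) (q n : ℤ), q ∣ φ i (n + q) - φ i n

/-- The local factor of the singular series at the prime `l`, minus `1`. -/
def tpf {k : ℕ} (l : ℕ) (φ : Fin k → ℤ → ℤ) : ℝ :=
  (∑ n ∈ range l, ∏ i, (1 + gl l (φ i n))) / l - 1

/-- The product of the local factors over the primes in `P`. -/
def SSf {k : ℕ} (P : Finset ℕ) (φ : Fin k → ℤ → ℤ) : ℝ := ∏ l ∈ P, (1 + tpf l φ)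

/-- `∏_{l ∣ d} tpf l φ` -/
def tdf {k : ℕ} (d : ℕ) (φ : Fin k → ℤ → ℤ) : ℝ := ∏ l ∈ d.primeFactors, tpf l φ

/-- `∏_i (1 + gl l (m_i)) - 1` -/
def Wf {k : ℕ} (l : ℕ) (m : Fin k → ℤ) : ℝ := ∏ i, (1 + gl l (m i)) - 1

/-- `∏_{l ∣ d} Wf l m` -/
def Wdf {k : ℕ} (d : ℕ) (m : Fin k → ℤ) : ℝ := ∏ l ∈ d.primeFactors, Wf l m

/-- `∏_i conj χ_i(m_i) ∏_{l ∈ P} (1 + gl l (m_i))` -/
def Phf {k : ℕ} (p : Fin k → Ch) (P : Finset ℕ) (m : Fin k → ℤ) : ℂ :=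
  ∏ i, (cj (p i) (m i) * ((uu P (m i) : ℝ) : ℂ))

/-- The values of the maps at `n`. -/
def at' {k : ℕ} (φ : Fin k → ℤ → ℤ) (n : ℤ) : Fin k → ℤ := fun i => φ i n

/-- The mean modulo `R` for the primes dividing `R`. -/
def MRf {k : ℕ} (p : Fin k → Ch) (R : ℕ) (φ : Fin k → ℤ → ℤ) : ℂ :=
  (∑ n ∈ range R, Phf p R.primeFactors (at' φ n)) / R

/-- The mean over a complete period `Q!` for all primes up to `Q`. -/
def MQf {k : ℕ} (Q : ℕ) (p : Fin k → Ch) (φ : Fin k → ℤ → ℤ) : ℂ :=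
  (∑ n ∈ range Q.factorial, Phf p (pr Q) (at' φ n)) / (Q.factorial : ℂ)

/-- `∏_i uu(m_i) (1 - th_i ψ(m_i))` -/
def fPf {k : ℕ} (Q : ℕ) (px : Ch) (th : Fin k → ℝ) (m : Fin k → ℤ) : ℝ :=
  ∏ i, (uu (pr Q) (m i) * (1 - th i * (cj px (m i)).re))

/-- The main term: the mean of `fPf` over a complete period. -/
def PMf {k : ℕ} (Q : ℕ) (px : Ch) (th : Fin k → ℝ) (φ : Fin k → ℤ → ℤ) : ℝ :=
  (∑ n ∈ range Q.factorial, fPf Q px th (at' φ n)) / (Q.factorial : ℝ)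

open Classical in
/-- The tuples of characters with `lcm(m0, p_1.1, …, p_k.1) ≤ D`. -/
def TSf (k Q D m0 : ℕ) : Finset (Fin k → Ch) :=
  (Fintype.piFinset fun _ : Fin k => PC Q).filter
    (fun p => m0.lcm (univ.lcm fun i => (p i).1) ≤ D)

/-- The modulus of a tuple of characters. -/
def Rf {k : ℕ} (m0 : ℕ) (p : Fin k → Ch) : ℕ := m0.lcm (univ.lcm fun i => (p i).1)

/-- No prime divides the product of the `φ_i(n)` for all `n`. -/
def NoFix {k : ℕ} (φ : Fin k → ℤ → ℤ) : Prop :=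
  ∀ l : ℕ, l.Prime → ∃ n : ℤ, ∀ i, ¬ (l : ℤ) ∣ φ i n

/-! ## Systems of polynomials -/

/-- The random coordinates `P_i + h_i`. -/
def ran {k : ℕ} (P : Fin k → ℤ[X]) (h : Fin k → ℕ) : Fin k → ℤ → ℤ :=
  fun i n => (P i).eval n + h i

/-- The system: the deterministic linear coordinate `B` and the random coordinates `P_i + h_i`. -/
def sys {k : ℕ} (B : ℤ[X]) (P : Fin k → ℤ[X]) (h : Fin k → ℕ) : Fin (k + 1) → ℤ → ℤ :=
  Fin.cons (fun n => B.eval n) (ran P h)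

/-- Degrees between `1` and `A`, leading coefficients (of any sign) at most `A` in absolute value. -/
structure Pol (A : ℕ) {k : ℕ} (P : Fin k → ℤ[X]) : Prop where
  deg : ∀ i, 1 ≤ (P i).natDegree
  degA : ∀ i, (P i).natDegree ≤ A
  lc : ∀ i, (P i).leadingCoeff.natAbs ≤ A

/-- The linear coordinate: degree `1`, leading coefficient at most `A` in absolute value, primitive. -/
structure Lin (A : ℕ) (B : ℤ[X]) : Prop where
  deg : B.natDegree = 1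
  lc : B.leadingCoeff.natAbs ≤ A
  cop : IsCoprime (B.coeff 0) (B.coeff 1)

/-- The box `∏ [b_i, b_i + s_i)`. -/
def cub {k : ℕ} (b s : Fin k → ℕ) : Finset (Fin k → ℕ) :=
  Fintype.piFinset fun i => Ico (b i) (b i + s i)

/-- `∏ s_i` -/
def vol {k : ℕ} (s : Fin k → ℕ) : ℝ := ∏ i, (s i : ℝ)

/-- The component of the character `p` at level `Q`: `Gam Q r m conj χ(m) = ∑_{κ ∈ KS Q r} gk p κ m`. -/
def Fc (Q : ℕ) (p : Ch) (m : ℤ) : ℂ := ∑ κ ∈ KS Q p.1, gk p κ m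

/-- The regime: `Q` is a power of `X` between `X^(1/C)` and `X^(1/K)`. -/
def Rg (K C : ℝ) (Q X : ℕ) : Prop :=
  K * Real.log Q ≤ Real.log X ∧ Real.log X ≤ C * Real.log Q

/-- The scale of the values on the dyadic box `∏ [M_i, 2 M_i)`: `Y = 3 M/4` (`8 ∣ M`), the values are in
`[Y, 3 Y)`. -/
def Ysc (M : ℕ) : ℕ := 3 * (M / 4)

/-- The geometry: range `[X1, 2 X1)` of `n`, dyadic box `∏ [M_i, 2 M_i)` of the `h`; `L` a large
constant. -/
structure Geo (L Q X X1 : ℕ) {k : ℕ} (P : Fin k → ℤ[X]) (M : Fin k → ℕ) : Prop where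
  dvd : Q ^ 800 ∣ X1
  pos : 0 < X1
  le : X1 ≤ X
  ge : X ≤ X1 * Q
  dvdM : ∀ i, 8 * Q ^ 8 ∣ M i
  lo : ∀ i, L * X1 ^ (P i).natDegree ≤ M i
  hi : ∀ i, (M i : ℝ) ≤ (X1 : ℝ) ^ (P i).natDegree * (Q : ℝ) ^ (1 / 8 : ℝ)

/-- The values of the linear coordinate on `[X1, 2 X1)` are in `[Y, 3 Y)`. -/
structure GeoB (A X X1 Y : ℕ) (B : ℤ[X]) : Prop where
  lin : Lin A B
  lo : ∀ n : ℕ, n ∈ Ico X1 (2 * X1) → (Y : ℤ) ≤ B.eval (n : ℤ)
  hi : ∀ n : ℕ, n ∈ Ico X1 (2 * X1) → B.eval (n : ℤ) < 3 * Y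
  Ylo : X1 ≤ 2 * Y
  Yhi : Y ≤ A * X

end

end Pool.Agent.Lib.H24P
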