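import Pool.Agent.Lib.H24P.Defs

/-!
# Project H24P: definitions for the assembly
-/

open Finset Polynomial

namespace Pool.Agent.Lib.H24P

open Pool.Agent.Lib.H68T Pool.Agent.Lib.H18Q Pool.Agent.Lib.H59P

noncomputable section

/-- `⌊Q^x⌋` -/
def fl (Q : ℕ) (x : ℝ) : ℕ := ⌊(Q : ℝ) ^ x⌋₊

/-- The point where the coefficients of a random coordinate are frozen: cells of length `H` for `n`,
of length `s` for `x`. -/
def fz (P : ℤ[X]) (H s n x : ℕ) : ℤ := P.eval ((bs H n : ℕ) : ℤ) + (bs s x : ℕ)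

/-- The sum with the projections in the random coordinates, the weight `w` in the linear one. -/
def Rw {k : ℕ} (Q X1 : ℕ) (P : Fin k → ℤ[X]) (M : Fin k → ℕ) (w : ℕ → ℝ) (h : Fin k → ℕ) : ℝ :=
  ∑ n ∈ Ico X1 (2 * X1), w n * ∏ i, Lk Q (Ysc (M i) / Q ^ 2) ((P i).eval (n : ℤ) + h i)

/-- The same with frozen coefficients in the random coordinates. -/
def Rz {k : ℕ} (Q X1 : ℕ) (P : Fin k → ℤ[X]) (M : Fin k → ℕ) (C : Fin k → ℤ → Ch → ℂ) (w : ℕ → ℂ)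
    (h : Fin k → ℕ) : ℂ :=
  ∑ n ∈ Ico X1 (2 * X1), w n *
    ∏ i, SG Q (C i (fz (P i) (X1 / Q ^ 8) (M i / Q ^ 8) n (h i))) ((P i).eval (n : ℤ) + h i)

/-- The complete main term of a cell with coefficients `c`. -/
def MDf {k : ℕ} (Q m0 : ℕ) (c : Fin k → Ch → ℂ) (φ : Fin k → ℤ → ℤ) : ℂ :=
  ∑ p ∈ TSf k Q (fl Q (1 / 16)) m0, (∏ i, c i (p i)) * MQf Q p φ

/-- The conclusion of module T (truncation of the singular series): for given `k`, `A`. -/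
def TMf (k A : ℕ) : Prop := ∃ c : ℝ, 0 < c ∧ ∃ Q0 : ℕ, ∀ Q : ℕ, Q0 ≤ Q → ∀ B : ℤ[X], Lin A B →
  ∀ P : Fin k → ℤ[X], Pol A P → ∀ b s : Fin k → ℕ, (∀ i, Q ^ 8 ≤ s i) →
  ∀ R : ℕ, 1 ≤ R → R ≤ fl Q (1 / 16) → B.leadingCoeff.natAbs ∣ R →
  ∑ h ∈ cub b s, (∑ d ∈ SF (fl Q (1 / 2) / R) R, tdf d (sys B P h) -
    SSf ((pr Q).filter (fun l => ¬ l ∣ R)) (sys B P h)) ^ 2 ≤ vol s * (Q : ℝ) ^ (-c)

end

end Pool.Agent.Lib.H24P
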