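import Pool.Agent.Lib.H24P.Defs2
import Pool.Agent.Lib.H59P.Z2

/-!
# Project H24P, chunk E1 (M): cells
-/

open Finset Polynomial

namespace Pool.Agent.Lib.H24P

open Pool.Agent.Lib.H68T Pool.Agent.Lib.H18Q Pool.Agent.Lib.H59P

/-- the fibres of `h ↦ (h - M) / s` on the dyadic box are the cells -/
theorem e1_fib {k : ℕ} (M s : Fin k → ℕ) (q : ℕ) (hs : ∀ i, M i = s i * q) (hpos : ∀ i, 0 < s i)
    (t : Fin k → ℕ) (ht : ∀ i, t i < q) :
    (cub M M).filter (fun h => (fun i => (h i - M i) / s i) = t) = cub (fun i => M i + t i * s i) s := by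
  classical
  ext h
  unfold cub
  rw [mem_filter, Fintype.mem_piFinset, Fintype.mem_piFinset]
  constructor
  · rintro ⟨h1, h2⟩ i
    have h3 : (h i - M i) / s i = t i := congrFun h2 i
    have h0 := mem_Ico.mp (h1 i)
    rw [mem_Ico]
    change M i + t i * s i ≤ h i ∧ h i < M i + t i * s i + s i
    have h4 := Nat.div_mul_le_self (h i - M i) (s i)
    have h5 := Nat.lt_div_mul_add (hpos i) (a := h i - M i)
    rw [h3] at h4 h5
    constructor
    · omega
    · omega
  · intro h1
    have h3 : ∀ i, M i + t i * s i ≤ h i ∧ h i < M i + t i * s i + s i := fun i => mem_Ico.mp (h1 i)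
    refine ⟨fun i => ?_, ?_⟩
    · rw [mem_Ico]
      have h4 : (t i + 1) * s i ≤ q * s i := Nat.mul_le_mul_right (s i) (ht i)
      have h5 : q * s i = M i := by rw [hs i]; ring
      have h6 : (t i + 1) * s i = t i * s i + s i := by ring
      have h7 := h3 i
      constructor
      · omega
      · omega
    · funext i
      have h4 := h3 i
      rw [Nat.div_eq_iff (hpos i)]
      constructor
      · omega
      · have h5 := hpos i
        omega

/-- From the cells to the dyadic box. Proof. Compare `Z2` and `z2_fib`, `z2_cells`, `z2_cs` in `H59P/Z2.lean`.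
`cub M M` is the disjoint union of the `q^k` boxes `cub (M + t s) s` (`t i = (h i - M i)/s i < q`, `M i = s i q`),
`Ico X1 (2 X1)` of the `N` intervals `Ico (X1 + j H) (X1 + j H + H)` (`X1 = H N`). For each `t`:
`‖∑_j (…)‖² ≤ N ∑_j ‖…‖²`. Sum: `q^k · N · N · vol s · H² W = vol M X1² W`. (`s i = 0` is possible: then `M i = 0`
and all is empty unless `k = 0`.) -/
theorem E1_cells {k : ℕ} (M s : Fin k → ℕ) (q : ℕ) (hs : ∀ i, M i = s i * q) (X1 H N : ℕ)
    (hX : X1 = H * N) (W : ℝ) (hW : 0 ≤ W) (F : (Fin k → ℕ) → ℕ → ℂ)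
    (hF : ∀ t : Fin k → ℕ, (∀ i, t i < q) → ∀ j < N,
      ∑ h ∈ cub (fun i => M i + t i * s i) s,
        ‖∑ n ∈ Ico (X1 + j * H) (X1 + j * H + H), F h n‖ ^ 2 ≤ vol s * H ^ 2 * W) :
    ∑ h ∈ cub M M, ‖∑ n ∈ Ico X1 (2 * X1), F h n‖ ^ 2 ≤ vol M * X1 ^ 2 * W := by
  classical
  have hvM : 0 ≤ vol M := Finset.prod_nonneg (fun i _ => Nat.cast_nonneg _)
  by_cases hz : ∃ i, s i = 0
  · obtain ⟨i, hi⟩ := hz
    have h0 : cub M M = ∅ := by
      rw [Finset.eq_empty_iff_forall_notMem]
      intro h hh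
      unfold cub at hh
      rw [Fintype.mem_piFinset] at hh
      have h1 := mem_Ico.mp (hh i)
      have h2 : M i = 0 := by rw [hs i, hi, zero_mul]
      omega
    rw [h0, Finset.sum_empty]
    positivity
  · push Not at hz
    have hpos : ∀ i, 0 < s i := fun i => Nat.pos_of_ne_zero (hz i)
    have hcube : ∀ t ∈ Fintype.piFinset (fun _ : Fin k => range q),
        ∑ h ∈ cub (fun i => M i + t i * s i) s, ‖∑ n ∈ Ico X1 (2 * X1), F h n‖ ^ 2
          ≤ (N : ℝ) * (N * (vol s * H ^ 2 * W)) := by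
      intro t ht
      rw [Fintype.mem_piFinset] at ht
      have ht' : ∀ i, t i < q := fun i => mem_range.mp (ht i)
      have h2 : 2 * X1 = X1 + N * H := by
        have : N * H = X1 := by rw [hX]; ring
        omega
      calc ∑ h ∈ cub (fun i => M i + t i * s i) s, ‖∑ n ∈ Ico X1 (2 * X1), F h n‖ ^ 2
          ≤ ∑ h ∈ cub (fun i => M i + t i * s i) s, (N : ℝ) * ∑ j ∈ range N,
              ‖∑ n ∈ Ico (X1 + j * H) (X1 + j * H + H), F h n‖ ^ 2 := by
            refine Finset.sum_le_sum (fun h _ => ?_)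
            rw [h2, z2_cells]
            exact z2_cs _ _
        _ = (N : ℝ) * ∑ j ∈ range N, ∑ h ∈ cub (fun i => M i + t i * s i) s,
              ‖∑ n ∈ Ico (X1 + j * H) (X1 + j * H + H), F h n‖ ^ 2 := by
            rw [← Finset.mul_sum, Finset.sum_comm]
        _ ≤ (N : ℝ) * ∑ j ∈ range N, vol s * H ^ 2 * W := by
            refine mul_le_mul_of_nonneg_left ?_ (by positivity)
            exact Finset.sum_le_sum (fun j hj => hF t ht' j (mem_range.mp hj))
        _ = (N : ℝ) * (N * (vol s * H ^ 2 * W)) := by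
            rw [Finset.sum_const, card_range, nsmul_eq_mul]
    have hmaps : ∀ h ∈ cub M M,
        (fun i => (h i - M i) / s i) ∈ Fintype.piFinset (fun _ : Fin k => range q) := by
      intro h hh
      unfold cub at hh
      rw [Fintype.mem_piFinset] at hh ⊢
      intro i
      have h1 := mem_Ico.mp (hh i)
      rw [mem_range, Nat.div_lt_iff_lt_mul (hpos i)]
      have h5 : q * s i = M i := by rw [hs i]; ring
      omega
    rw [← Finset.sum_fiberwise_of_maps_to hmaps]
    have hfib : ∀ t ∈ Fintype.piFinset (fun _ : Fin k => range q),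
        ∑ h ∈ (cub M M).filter (fun h => (fun i => (h i - M i) / s i) = t),
          ‖∑ n ∈ Ico X1 (2 * X1), F h n‖ ^ 2 ≤ (N : ℝ) * (N * (vol s * H ^ 2 * W)) := by
      intro t ht
      have ht' : ∀ i, t i < q := fun i => mem_range.mp ((Fintype.mem_piFinset.mp ht) i)
      rw [e1_fib M s q hs hpos t ht']
      exact hcube t ht
    refine (Finset.sum_le_sum hfib).trans (le_of_eq ?_)
    rw [Finset.sum_const, Fintype.card_piFinset, nsmul_eq_mul]
    simp only [card_range, Finset.prod_const, card_univ, Fintype.card_fin]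
    have hv : vol M = vol s * (q : ℝ) ^ k := by
      unfold vol
      have h1 : ∀ i, (M i : ℝ) = (s i : ℝ) * (q : ℝ) := fun i => by rw [hs i]; push_cast; ring
      simp only [h1]
      rw [Finset.prod_mul_distrib, Finset.prod_const, card_univ, Fintype.card_fin]
    rw [hv, hX]
    push_cast
    ring

/-- The base points. Proof. `bs s x = x / s * s`; `z2_bs`. `Hc = Hf N'`. -/
theorem E1_bs {s m t x : ℕ} (hs : 0 < s) (hm : s ∣ m) (hx : x ∈ Ico (m + t * s) (m + t * s + s)) :
    bs s x = m + t * s := by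
  obtain ⟨c, rfl⟩ := hm
  have h1 := mem_Ico.mp hx
  have h2 : s * c + t * s = (c + t) * s := by ring
  rw [h2] at h1 ⊢
  exact z2_bs hs (c + t) x h1.1 h1.2

/-- The base point for long cells is constant on short cells. Proof. `X1 = Hc N = Hf N' N`; both `n` and the left
end of the short cell are in the same interval `[c Hc, (c+1) Hc)`. -/
theorem E1_fine {X1 Hc Hf N' j n : ℕ} (hf : 0 < Hf) (hN : 0 < N') (hc : Hc = Hf * N') (hX : Hc ∣ X1)
    (hn : n ∈ Ico (X1 + j * Hf) (X1 + j * Hf + Hf)) : bs Hc n = bs Hc (X1 + j * Hf) := by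
  have h1 := mem_Ico.mp hn
  obtain ⟨c, rfl⟩ := hX
  have h2 : Hc * c + j * Hf = (N' * c + j) * Hf := by rw [hc]; ring
  rw [h2] at h1 ⊢
  have h3 : n / Hf = N' * c + j := by
    rw [Nat.div_eq_iff hf]
    constructor
    · exact h1.1
    · omega
  unfold bs
  have h4 : n / Hc = (N' * c + j) * Hf / Hc := by
    rw [hc, ← Nat.div_div_eq_div_mul, ← Nat.div_div_eq_div_mul, h3, Nat.mul_div_cancel _ hf]
  rw [h4]

end Pool.Agent.Lib.H24P
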