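import Pool.Agent.Lib.H24P.KDefs
import Pool.Agent.Lib.H33B.AC
import Pool.Agent.Lib.H59X.Defs

/-!
# Project H24P, module F: the linear coordinates `N - G`, `F_0` and the dummy coordinate
-/

open Finset Polynomial Filter Topology

namespace Pool.Agent.Lib.H24P

open Pool.Agent.Lib.H59 (argSet argCount Admissible primeCount argSet_eq argCount_tendsto)

theorem FA_eval (G : ℤ[X]) (hG : G.natDegree = 1) (n : ℤ) :
    G.eval n = G.leadingCoeff * n + G.coeff 0 := by
  conv_lhs => rw [Polynomial.eq_X_add_C_of_natDegree_le_one hG.le]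
  rw [eval_add, eval_mul, eval_C, eval_X, eval_C]
  have : G.coeff 1 = G.leadingCoeff := by rw [leadingCoeff, hG]
  rw [this]

/-- The coordinate `N - G`. -/
theorem FA_fix (G : ℤ[X]) (hG : G.natDegree = 1) (hl : 0 < G.leadingCoeff) (A : ℕ)
    (hA : G.leadingCoeff.natAbs + 4 ≤ A) (ε : ℝ) :
    ∀ᶠ N : ℕ in atTop, OKB A ε (argCount G N) (C (N : ℤ) - G) := by
  have h1 := argSet_eq (G := G) (by omega) hl
  have h2 := argCount_tendsto (G := G) (by omega) hl
  filter_upwards [h1, h2.eventually_ge_atTop 1] with N hN hZ1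
  set Z := argCount G N with hZ
  set b := G.leadingCoeff with hb
  have hZmem : (Z : ℤ) * b + G.coeff 0 < N := by
    have h3 : Z ∈ argSet G N := by
      rw [hN, Finset.mem_coe, Finset.mem_Icc]; exact ⟨hZ1, le_rfl⟩
    have h4 := h3.2
    rw [FA_eval G hG, ← hb] at h4
    linarith
  have hZnot : (N : ℤ) ≤ ((Z : ℤ) + 1) * b + G.coeff 0 := by
    by_contra hcon
    push Not at hcon
    have h3 : Z + 1 ∈ argSet G N := by
      refine ⟨by omega, ?_⟩
      rw [FA_eval G hG, ← hb]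
      push_cast
      linarith
    rw [hN, Finset.mem_coe, Finset.mem_Icc] at h3
    omega
  have hev : ∀ n : ℤ, (C (N : ℤ) - G).eval n = N - (b * n + G.coeff 0) := by
    intro n
    rw [eval_sub, eval_C, FA_eval G hG]
  have hA4 : (4 : ℤ) ≤ A := by
    have : 4 ≤ A := by omega
    exact_mod_cast this
  have hAb : b ≤ A := by
    have h3 : (b.natAbs : ℤ) = b := Int.natAbs_of_nonneg hl.le
    have h4 : b.natAbs ≤ A := by omega
    have h5 : (b.natAbs : ℤ) ≤ A := by exact_mod_cast h4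
    linarith
  have hb1 : 1 ≤ b := hl
  have hZpos : (1 : ℤ) ≤ Z := by exact_mod_cast hZ1
  have hquart : ∀ n : ℕ, A * n ≤ Z → 4 * (n : ℤ) ≤ Z := by
    intro n hn
    have h3 : (A : ℤ) * n ≤ Z := by exact_mod_cast hn
    have h4 : 4 * (n : ℤ) ≤ A * n := mul_le_mul_of_nonneg_right hA4 (Nat.cast_nonneg _)
    linarith
  refine ⟨?_, ?_, ?_, ?_, ?_, ?_⟩
  · have h3 : (C (N : ℤ) - G) = -G + C (N : ℤ) := by ring
    rw [h3, natDegree_add_C, natDegree_neg, hG]
  · have h3 : (C (N : ℤ) - G) = -G + C (N : ℤ) := by ring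
    have h4 : (C (N : ℤ) - G).leadingCoeff = -b := by
      have h5 : (C (N : ℤ) - G).natDegree = 1 := by rw [h3, natDegree_add_C, natDegree_neg, hG]
      rw [leadingCoeff, h5, coeff_sub, coeff_C, if_neg one_ne_zero, zero_sub, hb, leadingCoeff, hG]
    rw [h4, Int.natAbs_neg]
    omega
  · intro n _ hn
    have h4 := hquart n hn
    rw [hev]
    have h5 : b * (4 * (n : ℤ)) ≤ b * Z := mul_le_mul_of_nonneg_left h4 (by linarith)
    have h6 : 1 * (Z : ℤ) ≤ b * Z := mul_le_mul_of_nonneg_right hb1 (by linarith)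
    linarith
  · intro n hn0 hn
    rw [hev]
    have h5 : b * (Z : ℤ) ≤ A * Z := mul_le_mul_of_nonneg_right hAb (by linarith)
    have h6 : (1 : ℤ) ≤ n := by
      have h7 : (0 : ℝ) < (Z : ℝ) ^ (1 - ε) := Real.rpow_pos_of_pos (by exact_mod_cast hZ1) _
      have h8 : (0 : ℝ) < n := lt_of_lt_of_le h7 hn0
      exact_mod_cast h8
    have h7 : b * 1 ≤ b * n := mul_le_mul_of_nonneg_left h6 (by linarith)
    linarith
  · intro n n' hn0 hn hnn hnn'
    rw [hev, hev]
    have h4 := hquart n hn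
    have h5 : b * (4 * (n : ℤ)) ≤ b * Z := mul_le_mul_of_nonneg_left h4 (by linarith)
    have h6 : (1 : ℤ) ≤ n := by
      have h7 : (0 : ℝ) < (Z : ℝ) ^ (1 - ε) := Real.rpow_pos_of_pos (by exact_mod_cast hZ1) _
      have h8 : (0 : ℝ) < n := lt_of_lt_of_le h7 hn0
      exact_mod_cast h8
    have h8 : b * (n : ℤ) ≤ b * n' := mul_le_mul_of_nonneg_left (by exact_mod_cast hnn) (by linarith)
    have h9 : b * 1 ≤ b * n := mul_le_mul_of_nonneg_left h6 (by linarith)
    linarith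
  · intro n n' hn0 hn hnn hnn'
    rw [hev, hev]
    have h4 := hquart n hn
    have h5 : b * (4 * (n : ℤ)) ≤ b * Z := mul_le_mul_of_nonneg_left h4 (by linarith)
    have h8 : b * ((n' : ℤ) + 1) ≤ b * (2 * n) :=
      mul_le_mul_of_nonneg_left (by have : n' + 1 ≤ 2 * n := hnn'; exact_mod_cast this) (by linarith)
    have h6 : (1 : ℤ) ≤ n := by
      have h7 : (0 : ℝ) < (Z : ℝ) ^ (1 - ε) := Real.rpow_pos_of_pos (by exact_mod_cast hZ1) _
      have h8 : (0 : ℝ) < n := lt_of_lt_of_le h7 hn0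
      exact_mod_cast h8
    have h9 : b * 1 ≤ b * n := mul_le_mul_of_nonneg_left h6 (by linarith)
    linarith

/-- A fixed linear polynomial with positive leading coefficient. -/
theorem FA_pos (B : ℤ[X]) (hB : B.natDegree = 1) (hl : 0 < B.leadingCoeff) (A : ℕ)
    (hA : B.leadingCoeff.natAbs + (B.coeff 0).natAbs + 4 ≤ A) (ε : ℝ) (hε1 : ε < 1) :
    ∀ᶠ Z : ℕ in atTop, OKB A ε Z B := by
  have h1 : Tendsto (fun Z : ℕ => (Z : ℝ) ^ (1 - ε)) atTop atTop :=
    (tendsto_rpow_atTop (by linarith)).comp tendsto_natCast_atTop_atTop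
  filter_upwards [h1.eventually_ge_atTop (2 * ((B.coeff 0).natAbs : ℝ) + 2),
    eventually_ge_atTop 1] with Z hZ hZ1
  set b := B.leadingCoeff with hb
  set c := B.coeff 0 with hc
  have hb1 : 1 ≤ b := hl
  have hn2 : ∀ n : ℕ, (Z : ℝ) ^ (1 - ε) ≤ n → 2 * (c.natAbs : ℤ) + 2 ≤ n := by
    intro n hn
    have h3 : 2 * (c.natAbs : ℝ) + 2 ≤ n := hZ.trans hn
    exact_mod_cast h3
  have hca : -(c.natAbs : ℤ) ≤ c ∧ c ≤ c.natAbs := by
    constructor
    · have := Int.le_natAbs (a := -c)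
      rw [Int.natAbs_neg] at this
      linarith
    · exact Int.le_natAbs
  have hAc : b + (c.natAbs : ℤ) + 4 ≤ A := by
    have h3 : (b.natAbs : ℤ) = b := Int.natAbs_of_nonneg hl.le
    have h5 : ((b.natAbs + c.natAbs + 4 : ℕ) : ℤ) ≤ A := Nat.cast_le.2 hA
    simp only [Nat.cast_add, Nat.cast_ofNat] at h5
    linarith
  refine ⟨hB, by omega, ?_, ?_, ?_, ?_⟩
  · intro n hn _
    have h3 := hn2 n hn
    rw [FA_eval B hB, ← hb, ← hc]
    have h4 : 1 * (n : ℤ) ≤ b * n := mul_le_mul_of_nonneg_right hb1 (Nat.cast_nonneg _)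
    linarith [hca.1]
  · intro n hn hn'
    have h3 := hn2 n hn
    rw [FA_eval B hB, ← hb, ← hc]
    have hc0 : (0 : ℤ) ≤ c.natAbs := Nat.cast_nonneg _
    have h5 : (A : ℤ) * n ≤ Z := by exact_mod_cast hn'
    have h6 : b * (n : ℤ) + (c.natAbs : ℤ) * n ≤ A * n := by
      have := mul_le_mul_of_nonneg_right (show b + (c.natAbs : ℤ) ≤ A by linarith)
        (show (0 : ℤ) ≤ n by linarith)
      linarith
    have h7 : (c.natAbs : ℤ) * 1 ≤ (c.natAbs : ℤ) * n := mul_le_mul_of_nonneg_left (by linarith) hc0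
    have h8 : 1 * (Z : ℤ) ≤ A * Z := mul_le_mul_of_nonneg_right (by linarith) (Nat.cast_nonneg _)
    linarith [hca.2]
  · intro n n' hn _ hnn hnn'
    have h3 := hn2 n hn
    rw [FA_eval B hB, FA_eval B hB, ← hb, ← hc]
    have h8 : b * ((n' : ℤ) + 1) ≤ b * (2 * n) :=
      mul_le_mul_of_nonneg_left (by have : n' + 1 ≤ 2 * n := hnn'; exact_mod_cast this) (by linarith)
    have h4 : 1 * (n : ℤ) ≤ b * n := mul_le_mul_of_nonneg_right hb1 (Nat.cast_nonneg _)
    linarith [hca.1]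
  · intro n n' hn _ hnn hnn'
    have h3 := hn2 n hn
    rw [FA_eval B hB, FA_eval B hB, ← hb, ← hc]
    have h8 : b * (n : ℤ) ≤ b * n' := mul_le_mul_of_nonneg_left (by exact_mod_cast hnn) (by linarith)
    have h4 : 1 * (n : ℤ) ≤ b * n := mul_le_mul_of_nonneg_right hb1 (Nat.cast_nonneg _)
    linarith [hca.1]

end Pool.Agent.Lib.H24P
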