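import Pool.Agent.Lib.H24P.FA

/-!
# Project H24P, module F: admissibility, counting and the final theorems from the core theorem
-/

open Finset Polynomial Filter Topology

namespace Pool.Agent.Lib.H24P

open Pool.Agent.Lib.H59P (gl)
open Pool.Agent.Lib.H59 (argSet argCount Admissible primeCount argSet_eq argCount_tendsto)

/-- The system `P_i + h_i`. -/
noncomputable def famP {k : ℕ} (P : Fin k → ℤ[X]) (h : Fin k → ℕ) : Fin k → ℤ[X] :=
  fun i => P i + C (h i : ℤ)

theorem famP_eval {k : ℕ} (P : Fin k → ℤ[X]) (h : Fin k → ℕ) (i : Fin k) (n : ℤ) :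
    (famP P h i).eval n = (P i).eval n + (h i : ℤ) := by
  unfold famP
  rw [eval_add, eval_C]

theorem fb_prime {x : ℤ} : (∃ q : ℕ, q.Prime ∧ x = q) ↔ x.toNat.Prime := by
  constructor
  · rintro ⟨q, hq, rfl⟩
    rwa [Int.toNat_natCast]
  · intro h
    have h1 : 0 < x.toNat := h.pos
    exact ⟨x.toNat, h, (Int.toNat_of_nonneg (by omega)).symm⟩

/-- From admissibility: for every prime `l` some `n` with `l ∤ F_i(n)` and `l ∤ N - G(n)`. -/
theorem fb_adm {k : ℕ} {F : Fin k → ℤ[X]} {G : ℤ[X]} {N : ℕ} (h : Admissible F G N) (l : ℕ)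
    (hl : l.Prime) : ∃ n : ℤ, (∀ i, ¬ (l : ℤ) ∣ (F i).eval n) ∧ ¬ (l : ℤ) ∣ N - G.eval n := by
  have h1 := h.2 l hl
  push Not at h1
  obtain ⟨n, hn⟩ := h1
  rw [eval_mul, eval_prod, eval_sub, eval_C] at hn
  refine ⟨n, fun i hi => hn ?_, fun hi => hn (hi.mul_left _)⟩
  exact (hi.trans (dvd_prod_of_mem (fun j => (F j).eval n) (mem_univ i))).mul_right _

/-- (a) the coordinate `N - G` is fixed. -/
theorem fb_a {k : ℕ} {P : Fin k → ℤ[X]} {G : ℤ[X]} {N : ℕ} {h : Fin k → ℕ}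
    (ha : Admissible (famP P h) G N) : NoFix (sys (C (N : ℤ) - G) P h) := by
  intro l hl
  obtain ⟨n, h1, h2⟩ := fb_adm ha l hl
  refine ⟨n, fun i => ?_⟩
  refine Fin.cases ?_ (fun i => ?_) i
  · unfold sys
    rw [Fin.cons_zero, eval_sub, eval_C]
    exact h2
  · unfold sys ran
    rw [Fin.cons_succ, ← famP_eval]
    exact h1 i

/-- (b) `F_0` is the linear coordinate. -/
theorem fb_b {k : ℕ} {P : Fin k → ℤ[X]} {G F₀ : ℤ[X]} {N : ℕ} {h : Fin k → ℕ}
    (ha : Admissible (Fin.cons F₀ (famP P h) : Fin (k + 1) → ℤ[X]) G N) :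
    NoFix (sys F₀ (Fin.cons (-G) P : Fin (k + 1) → ℤ[X]) (Fin.cons N h : Fin (k + 1) → ℕ)) := by
  intro l hl
  obtain ⟨n, h1, h2⟩ := fb_adm ha l hl
  refine ⟨n, fun i => ?_⟩
  refine Fin.cases ?_ (fun i => ?_) i
  · have h3 := h1 0
    rw [Fin.cons_zero] at h3
    unfold sys
    rw [Fin.cons_zero]
    exact h3
  · unfold sys ran
    rw [Fin.cons_succ]
    refine Fin.cases ?_ (fun i => ?_) i
    · rw [Fin.cons_zero, Fin.cons_zero, eval_neg]
      have h4 : -G.eval n + (N : ℤ) = N - G.eval n := by ring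
      rw [h4]
      exact h2
    · rw [Fin.cons_succ, Fin.cons_succ, ← famP_eval]
      have h3 := h1 i.succ
      rwa [Fin.cons_succ] at h3

/-- The number of roots modulo `l` of a polynomial which does not vanish identically modulo `l`. -/
theorem fb_roots (F : ℤ[X]) (l : ℕ) (hl : l.Prime) (n : ℤ) (hn : ¬ (l : ℤ) ∣ F.eval n) :
    ((range l).filter (fun a : ℕ => (l : ℤ) ∣ F.eval (a : ℤ))).card ≤ F.natDegree := by
  classical
  have := Fact.mk hl
  set Q : (ZMod l)[X] := F.map (Int.castRingHom (ZMod l)) with hQ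
  have hev : ∀ m : ℤ, Q.eval (m : ZMod l) = ((F.eval m : ℤ) : ZMod l) := by
    intro m
    rw [hQ, eval_intCast_map]
    rfl
  have hQ0 : Q ≠ 0 := by
    intro h0
    apply hn
    rw [← ZMod.intCast_zmod_eq_zero_iff_dvd, ← hev, h0, eval_zero]
  have h1 : ((range l).filter (fun a : ℕ => (l : ℤ) ∣ F.eval (a : ℤ))).card ≤ Q.roots.toFinset.card := by
    refine card_le_card_of_injOn (fun a : ℕ => (a : ZMod l)) ?_ ?_
    · intro a ha
      have ha' := (mem_filter.1 (mem_coe.1 ha)).2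
      rw [mem_coe, Multiset.mem_toFinset, mem_roots hQ0, IsRoot.def]
      have h2 := hev (a : ℤ)
      rw [Int.cast_natCast] at h2
      rw [h2, ZMod.intCast_zmod_eq_zero_iff_dvd]
      exact ha'
    · intro a ha b hb hab
      have ha' := mem_range.1 (mem_filter.1 (mem_coe.1 ha)).1
      have hb' := mem_range.1 (mem_filter.1 (mem_coe.1 hb)).1
      have h2 := (ZMod.natCast_eq_natCast_iff a b l).1 hab
      exact Nat.ModEq.eq_of_lt_of_lt h2 ha' hb'
  refine h1.trans ((Multiset.toFinset_card_le _).trans ((card_roots' _).trans ?_))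
  exact natDegree_map_le

/-- The dummy coordinate. -/
noncomputable def dum {k : ℕ} (P : Fin k → ℤ[X]) (G : ℤ[X]) : ℤ[X] :=
  C ((primorial (∑ i, (P i).natDegree + G.natDegree + 1) : ℕ) : ℤ) * X + 1

theorem dum_eval {k : ℕ} (P : Fin k → ℤ[X]) (G : ℤ[X]) (n : ℤ) :
    (dum P G).eval n = ((primorial (∑ i, (P i).natDegree + G.natDegree + 1) : ℕ) : ℤ) * n + 1 := by
  unfold dum
  rw [eval_add, eval_mul, eval_C, eval_X, eval_one]

theorem dum_deg {k : ℕ} (P : Fin k → ℤ[X]) (G : ℤ[X]) : (dum P G).natDegree = 1 := by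
  unfold dum
  rw [show (1 : ℤ[X]) = C 1 from rfl]
  exact natDegree_linear (by exact_mod_cast (primorial_pos _).ne')

theorem dum_lc {k : ℕ} (P : Fin k → ℤ[X]) (G : ℤ[X]) : 0 < (dum P G).leadingCoeff := by
  unfold dum
  rw [show (1 : ℤ[X]) = C 1 from rfl,
    leadingCoeff_linear (by exact_mod_cast (primorial_pos _).ne')]
  exact_mod_cast primorial_pos _

theorem fb_deg_famP {k : ℕ} {P : Fin k → ℤ[X]} {h : Fin k → ℕ} (i : Fin k) :
    (famP P h i).natDegree = (P i).natDegree := by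
  unfold famP
  rw [natDegree_add_C]

/-- (c) with the dummy coordinate. -/
theorem fb_c {k : ℕ} {P : Fin k → ℤ[X]} {G : ℤ[X]} {N : ℕ} {h : Fin k → ℕ}
    (ha : Admissible (famP P h) G N) :
    NoFix (sys (dum P G) (Fin.cons (-G) P : Fin (k + 1) → ℤ[X]) (Fin.cons N h : Fin (k + 1) → ℕ)) := by
  classical
  intro l hl
  set m := ∑ i, (P i).natDegree + G.natDegree + 1 with hm
  obtain ⟨n, h1, h2⟩ := fb_adm ha l hl
  -- enough
  have key : ∀ a : ℤ, (∀ i, ¬ (l : ℤ) ∣ (famP P h i).eval a) → (¬ (l : ℤ) ∣ N - G.eval a) →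
      (¬ (l : ℤ) ∣ (dum P G).eval a) → ∀ i, ¬ (l : ℤ) ∣
        sys (dum P G) (Fin.cons (-G) P : Fin (k + 1) → ℤ[X]) (Fin.cons N h : Fin (k + 1) → ℕ) i a := by
    intro a h1 h2 h3 i
    refine Fin.cases ?_ (fun i => ?_) i
    · unfold sys
      rw [Fin.cons_zero]
      exact h3
    · unfold sys ran
      rw [Fin.cons_succ]
      refine Fin.cases ?_ (fun i => ?_) i
      · rw [Fin.cons_zero, Fin.cons_zero, eval_neg]
        have h4 : -G.eval a + (N : ℤ) = N - G.eval a := by ring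
        rw [h4]
        exact h2
      · rw [Fin.cons_succ, Fin.cons_succ, ← famP_eval]
        exact h1 i
  by_cases hlm : l ≤ m
  · refine ⟨n, key n h1 h2 ?_⟩
    rw [dum_eval, ← hm]
    intro hd
    have h3 : (l : ℤ) ∣ ((primorial m : ℕ) : ℤ) := by
      exact_mod_cast (hl.dvd_primorial_iff).2 hlm
    have h4 : (l : ℤ) ∣ 1 := (Int.dvd_add_right (h3.mul_right n)).1 hd
    have h5 : (l : ℤ) ≤ 1 := Int.le_of_dvd one_pos h4
    have h6 := hl.two_le
    omega
  · push Not at hlm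
    -- bad residues
    set bad : Finset ℕ := (univ.biUnion fun i => (range l).filter fun a : ℕ =>
      (l : ℤ) ∣ (famP P h i).eval (a : ℤ)) ∪
      (((range l).filter fun a : ℕ => (l : ℤ) ∣ (C (N : ℤ) - G).eval (a : ℤ)) ∪
      ((range l).filter fun a : ℕ => (l : ℤ) ∣ (dum P G).eval (a : ℤ))) with hbad
    have hcard : bad.card ≤ m := by
      refine (card_union_le _ _).trans ?_
      refine (add_le_add card_biUnion_le (card_union_le _ _)).trans ?_
      have h3 : ∑ i, ((range l).filter fun a : ℕ => (l : ℤ) ∣ (famP P h i).eval (a : ℤ)).card ≤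
          ∑ i, (P i).natDegree := by
        refine sum_le_sum fun i _ => ?_
        refine (fb_roots _ l hl n (h1 i)).trans ?_
        rw [fb_deg_famP]
      have h4 : ((range l).filter fun a : ℕ => (l : ℤ) ∣ (C (N : ℤ) - G).eval (a : ℤ)).card ≤
          G.natDegree := by
        refine (fb_roots _ l hl n ?_).trans ?_
        · rw [eval_sub, eval_C]
          exact h2
        · have h5 : (C (N : ℤ) - G) = -G + C (N : ℤ) := by ring
          rw [h5, natDegree_add_C, natDegree_neg]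
      have h5 : ((range l).filter fun a : ℕ => (l : ℤ) ∣ (dum P G).eval (a : ℤ)).card ≤ 1 := by
        refine (fb_roots _ l hl 0 ?_).trans ?_
        · rw [dum_eval, mul_zero, zero_add]
          intro h6
          have h7 := Int.le_of_dvd one_pos h6
          have h8 := hl.two_le
          omega
        · rw [dum_deg]
      omega
    have hex : ∃ a ∈ range l, a ∉ bad := by
      by_contra hcon
      push Not at hcon
      have h3 : (range l).card ≤ bad.card := card_le_card hcon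
      rw [card_range] at h3
      omega
    obtain ⟨a, ha1, ha2⟩ := hex
    rw [hbad, mem_union, mem_union, mem_biUnion] at ha2
    push Not at ha2
    refine ⟨a, key a (fun i hi => ha2.1 i (mem_univ i) (mem_filter.2 ⟨ha1, hi⟩)) (fun hi => ?_)
      (fun hi => ha2.2.2 (mem_filter.2 ⟨ha1, hi⟩))⟩
    refine ha2.2.1 (mem_filter.2 ⟨ha1, ?_⟩)
    rw [eval_sub, eval_C]
    exact hi

/-! ## Counting -/

/-- `pcount` and `primeCount`, the coordinate `N - G` being fixed. -/
theorem fb_cnt_a {k : ℕ} {P : Fin k → ℤ[X]} {G : ℤ[X]} {N : ℕ} {h : Fin k → ℕ}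
    (hN : argSet G N = (Icc 1 (argCount G N) : Finset ℕ)) :
    pcount (argCount G N) (C (N : ℤ) - G) P h = primeCount (famP P h) G N := by
  unfold primeCount pcount
  rw [← Set.ncard_coe_finset]
  apply congrArg Set.ncard
  ext n
  rw [mem_coe, mem_filter, Set.mem_ofPred_eq, hN, mem_coe, fb_prime, eval_sub, eval_C]
  constructor
  · rintro ⟨h1, h2, h3⟩
    exact ⟨h1, fun i => by rw [fb_prime, famP_eval]; exact h3 i, h2⟩
  · rintro ⟨h1, h2, h3⟩
    exact ⟨h1, h3, fun i => by have := h2 i; rwa [fb_prime, famP_eval] at this⟩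

/-- The set counted by `primeCount` is a subset of `[1, X(Y)]` for `N ≤ Y`. -/
theorem fb_sub {k : ℕ} {F : Fin k → ℤ[X]} {G : ℤ[X]} {N Y : ℕ} (hNY : N ≤ Y)
    (hY : argSet G Y = (Icc 1 (argCount G Y) : Finset ℕ)) :
    {n : ℕ | n ∈ argSet G N ∧ (∀ i, ∃ q : ℕ, q.Prime ∧ (F i).eval (n : ℤ) = q) ∧
      ∃ q : ℕ, q.Prime ∧ (N : ℤ) - G.eval (n : ℤ) = q} ⊆ (Icc 1 (argCount G Y) : Finset ℕ) := by
  intro n hn
  rw [← hY]
  have h1 := hn.1
  refine ⟨h1.1, ?_⟩
  have h2 := h1.2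
  have h3 : (N : ℤ) ≤ Y := by exact_mod_cast hNY
  linarith

/-- `pcount ≤ primeCount` with `F_0` as linear coordinate. -/
theorem fb_cnt_b {k : ℕ} {P : Fin k → ℤ[X]} {G F₀ : ℤ[X]} {N Y : ℕ} {h : Fin k → ℕ} (hNY : N ≤ Y)
    (hY : argSet G Y = (Icc 1 (argCount G Y) : Finset ℕ)) :
    pcount (argCount G Y) F₀ (Fin.cons (-G) P : Fin (k + 1) → ℤ[X])
      (Fin.cons N h : Fin (k + 1) → ℕ) ≤
      primeCount (Fin.cons F₀ (famP P h) : Fin (k + 1) → ℤ[X]) G N := by
  unfold primeCount pcount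
  rw [← Set.ncard_coe_finset]
  refine Set.ncard_le_ncard ?_ ((Finset.finite_toSet _).subset (fb_sub hNY hY))
  intro n hn
  rw [mem_coe, mem_filter] at hn
  obtain ⟨h1, h2, h3⟩ := hn
  have h4 := h3 0
  rw [Fin.cons_zero, Fin.cons_zero, eval_neg] at h4
  have h5 : -G.eval (n : ℤ) + (N : ℤ) = N - G.eval (n : ℤ) := by ring
  rw [h5] at h4
  refine ⟨⟨(mem_Icc.1 h1).1, ?_⟩, fun i => ?_, fb_prime.2 h4⟩
  · have h6 := h4.pos
    omega
  · rw [fb_prime]
    refine Fin.cases ?_ (fun i => ?_) i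
    · rw [Fin.cons_zero]
      exact h2
    · have h6 := h3 i.succ
      rw [Fin.cons_succ, Fin.cons_succ] at h6
      rw [Fin.cons_succ, famP_eval]
      exact h6

/-- `pcount ≤ primeCount` with any linear coordinate. -/
theorem fb_cnt_c {k : ℕ} {P : Fin k → ℤ[X]} {G B : ℤ[X]} {N Y : ℕ} {h : Fin k → ℕ} (hNY : N ≤ Y)
    (hY : argSet G Y = (Icc 1 (argCount G Y) : Finset ℕ)) :
    pcount (argCount G Y) B (Fin.cons (-G) P : Fin (k + 1) → ℤ[X])
      (Fin.cons N h : Fin (k + 1) → ℕ) ≤ primeCount (famP P h) G N := by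
  refine (fb_cnt_b hNY hY).trans ?_
  unfold primeCount
  refine Set.ncard_le_ncard ?_ ((Finset.finite_toSet _).subset (fb_sub hNY hY))
  rintro n ⟨h1, h2, h3⟩
  refine ⟨h1, fun i => ?_, h3⟩
  have h4 := h2 i.succ
  rwa [Fin.cons_succ] at h4

end Pool.Agent.Lib.H24P
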