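import Pool.Agent.Lib.H24P.FB

/-!
# Project H24P, module F: the final theorems from the core theorem
-/

open Finset Polynomial Filter Topology

namespace Pool.Agent.Lib.H24P

open Pool.Agent.Lib.H59 (argSet argCount Admissible primeCount argSet_eq argCount_tendsto)

/-- The sides `H_i` of the box are between `X^(d_i)/c` and `c X^(d_i)`, `d_i = deg P_i`. -/
def FitC {k : ℕ} (c : ℝ) (X : ℕ) (P : Fin k → ℤ[X]) (H : Fin k → ℕ) : Prop :=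
  ∀ i, (X : ℝ) ^ (P i).natDegree ≤ c * H i ∧ (H i : ℝ) ≤ c * (X : ℝ) ^ (P i).natDegree

theorem fc_fit {k : ℕ} {c : ℝ} {X A : ℕ} {P : Fin k → ℤ[X]} {H : Fin k → ℕ} (h : FitC c X P H)
    (hA : c ≤ A) : FitH A X P H := fun i =>
  ⟨(h i).1.trans (mul_le_mul_of_nonneg_right hA (Nat.cast_nonneg _)),
    (h i).2.trans (mul_le_mul_of_nonneg_right hA (by positivity))⟩

open Classical in
/-- `G` linear, `N` fixed. -/
theorem F_fix (hC : Core) {g : ℕ} (G : ℤ[X]) (hG : G.natDegree = 1) (hl : 0 < G.leadingCoeff)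
    (P : Fin g → ℤ[X]) (hP : ∀ i, 1 ≤ (P i).natDegree) (c ε : ℝ) (hε : 0 < ε) :
    ∃ δ : ℝ, 0 < δ ∧ ∃ N₀ : ℕ, ∀ N : ℕ, N₀ ≤ N → ∀ H : Fin g → ℕ, FitC c (argCount G N) P H →
      (((BoxH H).filter (fun h => Admissible (famP P h) G N ∧
        ((primeCount (famP P h) G N : ℕ) : ℝ) < (argCount G N : ℝ) ^ (1 - ε))).card : ℝ) ≤
          (argCount G N : ℝ) ^ (-δ) * vol H := by
  set A : ℕ := ⌈c⌉₊ + (G.leadingCoeff.natAbs + 4) with hA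
  have hcA : c ≤ A := by
    rw [hA, Nat.cast_add]
    have h1 := Nat.le_ceil c
    have h2 : (0 : ℝ) ≤ ((G.leadingCoeff.natAbs + 4 : ℕ) : ℝ) := Nat.cast_nonneg _
    linarith
  obtain ⟨δ, hδ, Z0, hZ0⟩ := hC g P hP A ε hε
  have h1 := FA_fix G hG hl A (by omega) ε
  have h2 := argSet_eq (G := G) (by omega) hl
  have h3 := argCount_tendsto (G := G) (by omega) hl
  obtain ⟨N₀, hN₀⟩ := eventually_atTop.1 (h1.and (h2.and (h3.eventually_ge_atTop Z0)))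
  refine ⟨δ, hδ, N₀, fun N hN H hH => ?_⟩
  obtain ⟨hok, hset, hZ⟩ := hN₀ N hN
  refine (Nat.cast_le.2 (card_le_card ?_)).trans (hZ0 _ hZ _ hok H (fc_fit hH hcA))
  intro h hh
  obtain ⟨hh1, hh2, hh3⟩ := mem_filter.1 hh
  refine mem_filter.2 ⟨hh1, fb_a hh2, ?_⟩
  rw [fb_cnt_a hset]
  exact hh3

/-- The size of the side `Y`. -/
theorem fc_Y (G : ℤ[X]) (hG : 1 ≤ G.natDegree) (hl : 0 < G.leadingCoeff) :
    ∀ᶠ Y : ℕ in atTop, (argCount G Y : ℝ) ^ G.natDegree ≤ 2 * Y ∧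
      (Y : ℝ) ≤ 2 * G.leadingCoeff.natAbs * (argCount G Y : ℝ) ^ G.natDegree := by
  have h1 := Pool.Agent.Lib.H33B.argCount_pow G hG hl
  have hb : (1 : ℝ) ≤ G.leadingCoeff := by exact_mod_cast hl
  have hb0 : (0 : ℝ) < G.leadingCoeff := by linarith
  have hna : ((G.leadingCoeff.natAbs : ℕ) : ℝ) = G.leadingCoeff := by
    have h2 : ((G.leadingCoeff.natAbs : ℕ) : ℤ) = G.leadingCoeff := Int.natAbs_of_nonneg hl.le
    rw [← Int.cast_natCast, h2]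
  have hi : (G.leadingCoeff : ℝ)⁻¹ ≤ 1 := inv_le_one_of_one_le₀ hb
  have hi0 : 0 < (G.leadingCoeff : ℝ)⁻¹ := inv_pos.2 hb0
  filter_upwards [h1.eventually (gt_mem_nhds (show (G.leadingCoeff : ℝ)⁻¹ < 2 by linarith)),
    h1.eventually (lt_mem_nhds (show (G.leadingCoeff : ℝ)⁻¹ / 2 < (G.leadingCoeff : ℝ)⁻¹ by linarith)),
    eventually_ge_atTop 1] with Y hY1 hY2 hY3
  have hYp : (0 : ℝ) < Y := by exact_mod_cast hY3
  rw [div_lt_iff₀ hYp] at hY1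
  rw [lt_div_iff₀ hYp] at hY2
  refine ⟨hY1.le, ?_⟩
  rw [hna]
  have h3 : (Y : ℝ) = 2 * G.leadingCoeff * ((G.leadingCoeff : ℝ)⁻¹ / 2 * Y) := by
    field_simp
  rw [h3]
  exact mul_le_mul_of_nonneg_left hY2.le (by positivity)

theorem fc_fitcons {g : ℕ} {c : ℝ} {X Y A : ℕ} {P : Fin g → ℤ[X]} {H : Fin g → ℕ} {G : ℤ[X]}
    (h : FitC c X P H) (hA : c ≤ A) (hA2 : 2 ≤ A) (hAG : 2 * G.leadingCoeff.natAbs ≤ A)
    (h1 : (X : ℝ) ^ G.natDegree ≤ 2 * Y)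
    (h2 : (Y : ℝ) ≤ 2 * G.leadingCoeff.natAbs * (X : ℝ) ^ G.natDegree) :
    FitH A X (Fin.cons (-G) P : Fin (g + 1) → ℤ[X]) (Fin.cons Y H : Fin (g + 1) → ℕ) := by
  intro i
  refine Fin.cases ?_ (fun i => ?_) i
  · rw [Fin.cons_zero, Fin.cons_zero, natDegree_neg]
    have hA2' : (2 : ℝ) ≤ A := by exact_mod_cast hA2
    have hAG' : 2 * (G.leadingCoeff.natAbs : ℝ) ≤ A := by exact_mod_cast hAG
    exact ⟨h1.trans (mul_le_mul_of_nonneg_right hA2' (Nat.cast_nonneg _)),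
      h2.trans (mul_le_mul_of_nonneg_right hAG' (by positivity))⟩
  · rw [Fin.cons_succ, Fin.cons_succ]
    exact fc_fit h hA i

theorem fc_vol {g : ℕ} (Y : ℕ) (H : Fin g → ℕ) :
    vol (Fin.cons Y H : Fin (g + 1) → ℕ) = Y * vol H := by
  unfold vol
  rw [Fin.prod_univ_succ, Fin.cons_zero]
  simp only [Fin.cons_succ]

theorem fc_card {g : ℕ} (Y : ℕ) (H : Fin g → ℕ) (Q : ℕ × (Fin g → ℕ) → Prop) [DecidablePred Q]
    (R : (Fin (g + 1) → ℕ) → Prop) [DecidablePred R]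
    (h : ∀ N hh, N ≤ Y → Q (N, hh) → R (Fin.cons N hh : Fin (g + 1) → ℕ)) :
    ((Icc 1 Y ×ˢ BoxH H).filter Q).card ≤
      ((BoxH (Fin.cons Y H : Fin (g + 1) → ℕ)).filter R).card := by
  refine card_le_card_of_injOn (fun x => (Fin.cons x.1 x.2 : Fin (g + 1) → ℕ)) ?_ ?_
  · rintro ⟨N, hh⟩ hx
    obtain ⟨hx1, hx2⟩ := mem_filter.1 (mem_coe.1 hx)
    obtain ⟨hN, hh1⟩ := mem_product.1 hx1
    suffices hm : (Fin.cons N hh : Fin (g + 1) → ℕ) ∈ BoxH (Fin.cons Y H : Fin (g + 1) → ℕ) by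
      exact mem_coe.2 (mem_filter.2 ⟨hm, h N hh (mem_Icc.1 hN).2 hx2⟩)
    unfold BoxH at hh1 ⊢
    rw [Fintype.mem_piFinset] at hh1 ⊢
    intro i
    refine Fin.cases ?_ (fun i => ?_) i
    · rw [Fin.cons_zero, Fin.cons_zero]
      exact hN
    · rw [Fin.cons_succ, Fin.cons_succ]
      exact hh1 i
  · rintro ⟨N, hh⟩ _ ⟨N', hh'⟩ _ he
    have he' := Fin.cons_injective2 he
    exact Prod.ext he'.1 he'.2

theorem fc_neg_deg {g : ℕ} {P : Fin g → ℤ[X]} {G : ℤ[X]} (hG : 1 ≤ G.natDegree)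
    (hP : ∀ i, 1 ≤ (P i).natDegree) :
    ∀ i, 1 ≤ ((Fin.cons (-G) P : Fin (g + 1) → ℤ[X]) i).natDegree := by
  intro i
  refine Fin.cases ?_ (fun i => ?_) i
  · rw [Fin.cons_zero, natDegree_neg]
    exact hG
  · rw [Fin.cons_succ]
    exact hP i

open Classical in
/-- Any `G`, with a fixed linear `F_0`. -/
theorem F_one (hC : Core) {g : ℕ} (G : ℤ[X]) (hG : 1 ≤ G.natDegree) (hl : 0 < G.leadingCoeff)
    (P : Fin g → ℤ[X]) (hP : ∀ i, 1 ≤ (P i).natDegree) (F₀ : ℤ[X]) (hF : F₀.natDegree = 1)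
    (hF0 : 0 < F₀.leadingCoeff) (c ε : ℝ) (hε : 0 < ε) :
    ∃ δ : ℝ, 0 < δ ∧ ∃ Y₀ : ℕ, ∀ Y : ℕ, Y₀ ≤ Y → ∀ H : Fin g → ℕ, FitC c (argCount G Y) P H →
      (((Icc 1 Y ×ˢ BoxH H).filter (fun x : ℕ × (Fin g → ℕ) =>
        Admissible (Fin.cons F₀ (famP P x.2) : Fin (g + 1) → ℤ[X]) G x.1 ∧
        ((primeCount (Fin.cons F₀ (famP P x.2) : Fin (g + 1) → ℤ[X]) G x.1 : ℕ) : ℝ) <
          (argCount G Y : ℝ) ^ (1 - ε))).card : ℝ) ≤
          (argCount G Y : ℝ) ^ (-δ) * (Y * vol H) := by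
  set A : ℕ := ⌈c⌉₊ + (2 * G.leadingCoeff.natAbs +
    (F₀.leadingCoeff.natAbs + (F₀.coeff 0).natAbs + 4)) with hA
  have hcA : c ≤ A := by
    rw [hA, Nat.cast_add]
    have h1 := Nat.le_ceil c
    have h2 : (0 : ℝ) ≤ ((2 * G.leadingCoeff.natAbs +
      (F₀.leadingCoeff.natAbs + (F₀.coeff 0).natAbs + 4) : ℕ) : ℝ) := Nat.cast_nonneg _
    linarith
  set η : ℝ := min ε (1 / 2) with hη
  have hη0 : 0 < η := lt_min hε (by norm_num)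
  have hη1 : η < 1 := lt_of_le_of_lt (min_le_right _ _) (by norm_num)
  obtain ⟨δ, hδ, Z0, hZ0⟩ := hC (g + 1) (Fin.cons (-G) P : Fin (g + 1) → ℤ[X])
    (fc_neg_deg hG hP) A η hη0
  have h3 := argCount_tendsto (G := G) hG hl
  have h1 := h3.eventually (FA_pos F₀ hF hF0 A (by omega) η hη1)
  have h2 := argSet_eq (G := G) hG hl
  obtain ⟨Y₀, hY₀⟩ := eventually_atTop.1 (h1.and (h2.and ((h3.eventually_ge_atTop (max Z0 1)).and
    (fc_Y G hG hl))))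
  refine ⟨δ, hδ, Y₀, fun Y hY H hH => ?_⟩
  obtain ⟨hok, hset, hZ, hY1, hY2⟩ := hY₀ Y hY
  have h5 := hZ0 _ ((le_max_left _ _).trans hZ) _ hok (Fin.cons Y H : Fin (g + 1) → ℕ)
    (fc_fitcons hH hcA (by omega) (by omega) hY1 hY2)
  rw [fc_vol] at h5
  refine (Nat.cast_le.2 (fc_card Y H _ _ ?_)).trans h5
  rintro N h hNY ⟨hh1, hh2⟩
  refine ⟨fb_b hh1, ?_⟩
  have h6 : ((pcount (argCount G Y) F₀ (Fin.cons (-G) P : Fin (g + 1) → ℤ[X])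
      (Fin.cons N h : Fin (g + 1) → ℕ) : ℕ) : ℝ) ≤
      ((primeCount (Fin.cons F₀ (famP P h) : Fin (g + 1) → ℤ[X]) G N : ℕ) : ℝ) :=
    Nat.cast_le.2 (fb_cnt_b hNY hset)
  refine h6.trans_lt (hh2.trans_le ?_)
  exact Real.rpow_le_rpow_of_exponent_le (by exact_mod_cast (le_max_right _ _).trans hZ)
    (by linarith [min_le_left ε (1 / 2)])

open Classical in
/-- Any `G`. -/
theorem F_any (hC : Core) {g : ℕ} (G : ℤ[X]) (hG : 1 ≤ G.natDegree) (hl : 0 < G.leadingCoeff)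
    (P : Fin g → ℤ[X]) (hP : ∀ i, 1 ≤ (P i).natDegree) (c ε : ℝ) (hε : 0 < ε) :
    ∃ δ : ℝ, 0 < δ ∧ ∃ Y₀ : ℕ, ∀ Y : ℕ, Y₀ ≤ Y → ∀ H : Fin g → ℕ, FitC c (argCount G Y) P H →
      (((Icc 1 Y ×ˢ BoxH H).filter (fun x : ℕ × (Fin g → ℕ) =>
        Admissible (famP P x.2) G x.1 ∧
        ((primeCount (famP P x.2) G x.1 : ℕ) : ℝ) < (argCount G Y : ℝ) ^ (1 - ε))).card : ℝ) ≤
          (argCount G Y : ℝ) ^ (-δ) * (Y * vol H) := by
  set F₀ : ℤ[X] := dum P G with hF₀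
  have hF : F₀.natDegree = 1 := dum_deg P G
  have hF0 : 0 < F₀.leadingCoeff := dum_lc P G
  set A : ℕ := ⌈c⌉₊ + (2 * G.leadingCoeff.natAbs +
    (F₀.leadingCoeff.natAbs + (F₀.coeff 0).natAbs + 4)) with hA
  have hcA : c ≤ A := by
    rw [hA, Nat.cast_add]
    have h1 := Nat.le_ceil c
    have h2 : (0 : ℝ) ≤ ((2 * G.leadingCoeff.natAbs +
      (F₀.leadingCoeff.natAbs + (F₀.coeff 0).natAbs + 4) : ℕ) : ℝ) := Nat.cast_nonneg _
    linarith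
  set η : ℝ := min ε (1 / 2) with hη
  have hη0 : 0 < η := lt_min hε (by norm_num)
  have hη1 : η < 1 := lt_of_le_of_lt (min_le_right _ _) (by norm_num)
  obtain ⟨δ, hδ, Z0, hZ0⟩ := hC (g + 1) (Fin.cons (-G) P : Fin (g + 1) → ℤ[X])
    (fc_neg_deg hG hP) A η hη0
  have h3 := argCount_tendsto (G := G) hG hl
  have h1 := h3.eventually (FA_pos F₀ hF hF0 A (by omega) η hη1)
  have h2 := argSet_eq (G := G) hG hl
  obtain ⟨Y₀, hY₀⟩ := eventually_atTop.1 (h1.and (h2.and ((h3.eventually_ge_atTop (max Z0 1)).and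
    (fc_Y G hG hl))))
  refine ⟨δ, hδ, Y₀, fun Y hY H hH => ?_⟩
  obtain ⟨hok, hset, hZ, hY1, hY2⟩ := hY₀ Y hY
  have h5 := hZ0 _ ((le_max_left _ _).trans hZ) _ hok (Fin.cons Y H : Fin (g + 1) → ℕ)
    (fc_fitcons hH hcA (by omega) (by omega) hY1 hY2)
  rw [fc_vol] at h5
  refine (Nat.cast_le.2 (fc_card Y H _ _ ?_)).trans h5
  rintro N h hNY ⟨hh1, hh2⟩
  refine ⟨fb_c hh1, ?_⟩
  have h6 : ((pcount (argCount G Y) F₀ (Fin.cons (-G) P : Fin (g + 1) → ℤ[X])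
      (Fin.cons N h : Fin (g + 1) → ℕ) : ℕ) : ℝ) ≤
      ((primeCount (famP P h) G N : ℕ) : ℝ) :=
    Nat.cast_le.2 (fb_cnt_c hNY hset)
  refine h6.trans_lt (hh2.trans_le ?_)
  exact Real.rpow_le_rpow_of_exponent_le (by exact_mod_cast (le_max_right _ _).trans hZ)
    (by linarith [min_le_left ε (1 / 2)])

end Pool.Agent.Lib.H24P
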