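import Pool.Agent.Lib.H24P.Defs2

/-!
# Project H24P, chunk G1 (S/M): numerical facts
-/

open Finset Polynomial

namespace Pool.Agent.Lib.H24P

theorem G1_aux (K s ε : ℝ) (hε : 0 < ε) : ∃ Q0 : ℕ, 3 ≤ Q0 ∧ ∀ Q : ℕ, Q0 ≤ Q →
    K * (Real.log Q) ^ s ≤ (Q : ℝ) ^ ε := by
  have h := isLittleO_log_rpow_rpow_atTop s hε
  have hc : (0:ℝ) < 1 / (|K| + 1) := by positivity
  have h1 := h.bound hc
  obtain ⟨x0, hx0⟩ := Filter.eventually_atTop.1 h1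
  refine ⟨max 3 ⌈x0⌉₊, le_max_left _ _, fun Q hQ => ?_⟩
  have hQ3 : 3 ≤ Q := (le_max_left _ _).trans hQ
  have hQ0 : (0:ℝ) < Q := by exact_mod_cast (show 0 < Q by omega)
  have hQx : x0 ≤ Q := (Nat.le_ceil x0).trans (by exact_mod_cast (le_max_right _ _).trans hQ)
  have h2 := hx0 Q hQx
  have hlog : 0 ≤ Real.log Q := Real.log_natCast_nonneg Q
  rw [Real.norm_of_nonneg (Real.rpow_nonneg hlog _), Real.norm_of_nonneg (Real.rpow_nonneg hQ0.le _)] at h2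
  have h3 : 0 ≤ (Real.log Q) ^ s := Real.rpow_nonneg hlog _
  have h4 : (|K| + 1) * (Real.log Q) ^ s ≤ (Q : ℝ) ^ ε := by
    calc (|K| + 1) * (Real.log Q) ^ s ≤ (|K| + 1) * (1 / (|K| + 1) * (Q : ℝ) ^ ε) :=
          mul_le_mul_of_nonneg_left h2 (by positivity)
      _ = (Q : ℝ) ^ ε := by field_simp
  have h5 : K ≤ |K| + 1 := (le_abs_self K).trans (by linarith)
  exact (mul_le_mul_of_nonneg_right h5 h3).trans h4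

theorem G1_log1 {Q : ℕ} (hQ : 3 ≤ Q) : 1 ≤ Real.log Q := by
  rw [Real.le_log_iff_exp_le (by exact_mod_cast (show 0 < Q by omega))]
  have h1 := Real.exp_one_lt_d9
  have h2 : (3:ℝ) ≤ Q := by exact_mod_cast hQ
  linarith

/-- Powers of logarithms are small against powers of `Q`. Proof. `log X ≤ C log Q`, so
`a (log X)^n ≤ |a| |C|^n (log Q)^n`, which is `≤ Q^ε` for large `Q` (`isLittleO_log_rpow_atTop` or
`Real.add_one_le_exp`). -/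
theorem G1_log (C : ℝ) (n : ℕ) (a ε : ℝ) (hε : 0 < ε) : ∃ Q0 : ℕ, 1 ≤ Q0 ∧ ∀ Q X : ℕ, Q0 ≤ Q →
    Real.log X ≤ C * Real.log Q → a * (Real.log X) ^ n ≤ (Q : ℝ) ^ ε := by
  obtain ⟨Q0, h3, h⟩ := G1_aux (|a| * |C| ^ n) n ε hε
  refine ⟨Q0, by omega, fun Q X hQ hX => ?_⟩
  have h0 := Real.log_natCast_nonneg X
  have hlog : 0 ≤ Real.log Q := Real.log_natCast_nonneg Q
  have h1 : Real.log X ≤ |C| * Real.log Q := hX.trans (mul_le_mul_of_nonneg_right (le_abs_self C) hlog)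
  calc a * (Real.log X) ^ n ≤ |a| * (|C| * Real.log Q) ^ n := by
        refine mul_le_mul (le_abs_self a) (pow_le_pow_left₀ h0 h1 n) (pow_nonneg h0 n) (abs_nonneg a)
    _ = |a| * |C| ^ n * (Real.log Q) ^ (n : ℝ) := by
        rw [mul_pow, Real.rpow_natCast]
        ring
    _ ≤ (Q : ℝ) ^ ε := h Q hQ

/-- The same with a real exponent. -/
theorem G1_rlog (a b ε : ℝ) (hε : 0 < ε) : ∃ Q0 : ℕ, 1 ≤ Q0 ∧ ∀ Q : ℕ, Q0 ≤ Q →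
    a * (1 + Real.log Q) ^ b ≤ (Q : ℝ) ^ ε := by
  obtain ⟨Q0, h3, h⟩ := G1_aux (|a| * 2 ^ |b|) |b| ε hε
  refine ⟨Q0, by omega, fun Q hQ => ?_⟩
  have hlog : 1 ≤ Real.log Q := G1_log1 (h3.trans hQ)
  have h1 : (1 + Real.log Q) ^ b ≤ 2 ^ |b| * (Real.log Q) ^ |b| := by
    calc (1 + Real.log Q) ^ b ≤ (1 + Real.log Q) ^ |b| :=
          Real.rpow_le_rpow_of_exponent_le (by linarith) (le_abs_self b)
      _ ≤ (2 * Real.log Q) ^ |b| := Real.rpow_le_rpow (by linarith) (by linarith) (abs_nonneg b)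
      _ = 2 ^ |b| * (Real.log Q) ^ |b| := Real.mul_rpow (by norm_num) (by linarith)
  calc a * (1 + Real.log Q) ^ b ≤ |a| * (2 ^ |b| * (Real.log Q) ^ |b|) :=
        mul_le_mul (le_abs_self a) h1 (Real.rpow_nonneg (by linarith) _) (abs_nonneg a)
    _ = |a| * 2 ^ |b| * (Real.log Q) ^ |b| := by ring
    _ ≤ (Q : ℝ) ^ ε := h Q hQ

/-- In the regime everything is large: `log X ≥ K log Q`, `X ≥ Q`, `log log X`. -/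
theorem G1_one {Q : ℕ} {x : ℝ} (hQ : 1 ≤ Q) (hx : 0 ≤ x) : 1 ≤ fl Q x ∧ (fl Q x : ℝ) ≤ (Q : ℝ) ^ x ∧
    (Q : ℝ) ^ x ≤ 2 * (fl Q x : ℝ) := by
  have hQ1 : (1:ℝ) ≤ Q := by exact_mod_cast hQ
  have h1 : 1 ≤ (Q : ℝ) ^ x := Real.one_le_rpow hQ1 hx
  have h2 : 1 ≤ fl Q x := Nat.le_floor (by rw [Nat.cast_one]; exact h1)
  have h3 : (fl Q x : ℝ) ≤ (Q : ℝ) ^ x := Nat.floor_le (by linarith)
  have h4 : (Q : ℝ) ^ x < fl Q x + 1 := Nat.lt_floor_add_one _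
  have h5 : (1:ℝ) ≤ fl Q x := by exact_mod_cast h2
  exact ⟨h2, h3, by linarith⟩

theorem G1_le {Q : ℕ} {x : ℝ} (hQ : 1 ≤ Q) (hx : 0 ≤ x) (hx1 : x ≤ 1) : fl Q x ≤ Q := by
  have hQ1 : (1:ℝ) ≤ Q := by exact_mod_cast hQ
  refine Nat.floor_le_of_le ?_
  calc (Q : ℝ) ^ x ≤ (Q : ℝ) ^ (1:ℝ) := Real.rpow_le_rpow_of_exponent_le hQ1 hx1
    _ = Q := Real.rpow_one _

/-- Powers of `fl Q x`: `(fl Q x)^(-c) ≤ 2^c Q^(-c x)`. -/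
theorem G1_neg {Q : ℕ} {x c : ℝ} (hQ : 1 ≤ Q) (hx : 0 ≤ x) (hc : 0 ≤ c) :
    (fl Q x : ℝ) ^ (-c) ≤ 2 ^ c * (Q : ℝ) ^ (-(c * x)) := by
  have hQ0 : (0:ℝ) < Q := by exact_mod_cast hQ
  obtain ⟨h1, -, h3⟩ := G1_one hQ hx
  have h4 : 0 < (Q : ℝ) ^ x / 2 := by positivity
  calc (fl Q x : ℝ) ^ (-c) ≤ ((Q : ℝ) ^ x / 2) ^ (-c) :=
        Real.rpow_le_rpow_of_nonpos h4 (by linarith) (by linarith)
    _ = 2 ^ c * (Q : ℝ) ^ (-(c * x)) := by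
        rw [Real.div_rpow (by positivity) (by norm_num), ← Real.rpow_mul hQ0.le,
          Real.rpow_neg (by norm_num : (0:ℝ) ≤ 2) c, div_inv_eq_mul, mul_comm]
        congr 2
        ring

/-- Sizes. `m0 ≤ A Q^(1/100)`. Proof. `Q` large in terms of `A`. -/
theorem G1_size (A : ℕ) : ∃ Q0 : ℕ, 1 ≤ Q0 ∧ ∀ Q : ℕ, Q0 ≤ Q → ∀ r a : ℕ, 1 ≤ a → a ≤ A → r ^ 100 ≤ Q →
    a * r ≤ fl Q (1 / 16) ∧ fl Q (1 / 16) ≤ fl Q (1 / 2) ∧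
    a * r * fl Q (1 / 32) * (a * fl Q (1 / 128)) < fl Q (1 / 16) ∧
    fl Q (1 / 2) * fl Q (1 / 2) ≤ Q ∧
    ∀ R : ℕ, 1 ≤ R → R ≤ fl Q (1 / 16) → (Q : ℝ) ^ (1 / 4 : ℝ) ≤ ((fl Q (1 / 2) / R : ℕ) : ℝ) := by
  obtain ⟨Q0, h3, hK⟩ := G1_aux (4 * (A + 1) ^ 2 + 4) 0 (1 / 100) (by norm_num)
  refine ⟨Q0, by omega, fun Q hQ r a ha1 haA hr => ?_⟩
  have hQ3 := h3.trans hQ
  have hQ1 : 1 ≤ Q := by omega
  have hQr : (1:ℝ) ≤ Q := by exact_mod_cast hQ1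
  have hQ0 : (0:ℝ) < Q := by linarith
  have k1 := hK Q hQ
  rw [Real.rpow_zero, mul_one] at k1
  have haA' : (a:ℝ) ≤ A := by exact_mod_cast haA
  have ha1' : (1:ℝ) ≤ a := by exact_mod_cast ha1
  have hA1 : (1:ℝ) ≤ A := ha1'.trans haA'
  -- r is at most Q^(1/100)
  have hr' : (r:ℝ) ≤ (Q:ℝ) ^ (1 / 100 : ℝ) := by
    have h1 : ((r:ℝ)) ^ 100 ≤ Q := by exact_mod_cast hr
    have h2 : (r:ℝ) = (((r:ℝ)) ^ 100) ^ (1 / 100 : ℝ) := by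
      rw [← Real.rpow_natCast, ← Real.rpow_mul (Nat.cast_nonneg r)]
      norm_num
    rw [h2]
    exact Real.rpow_le_rpow (by positivity) h1 (by norm_num)
  have hr0 : (0:ℝ) ≤ r := Nat.cast_nonneg r
  set u := (Q:ℝ) ^ (1 / 100 : ℝ) with hu
  have hu0 : 0 < u := Real.rpow_pos_of_pos hQ0 _
  have o16 := G1_one (x := 1 / 16) hQ1 (by norm_num)
  have o2 := G1_one (x := 1 / 2) hQ1 (by norm_num)
  have o32 := G1_one (x := 1 / 32) hQ1 (by norm_num)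
  have o128 := G1_one (x := 1 / 128) hQ1 (by norm_num)
  have hmono : ∀ x y : ℝ, x ≤ y → (Q:ℝ) ^ x ≤ (Q:ℝ) ^ y := fun x y h =>
    Real.rpow_le_rpow_of_exponent_le hQr h
  refine ⟨?_, ?_, ?_, ?_, ?_⟩
  · refine Nat.le_floor ?_
    push_cast
    calc (a:ℝ) * r ≤ u * u := by
          refine mul_le_mul ?_ hr' hr0 hu0.le
          nlinarith
      _ = (Q:ℝ) ^ (1 / 50 : ℝ) := by
          rw [hu, ← Real.rpow_add hQ0]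
          norm_num
      _ ≤ (Q:ℝ) ^ (1 / 16 : ℝ) := hmono _ _ (by norm_num)
  · exact Nat.floor_le_floor (hmono _ _ (by norm_num))
  · have h1 : ((a:ℝ) * r * fl Q (1 / 32)) * (a * fl Q (1 / 128)) < fl Q (1 / 16) := by
      have e1 : ((a:ℝ) * r * fl Q (1 / 32)) * (a * fl Q (1 / 128)) ≤
          ((A:ℝ) * u * (Q:ℝ) ^ (1 / 32 : ℝ)) * (A * (Q:ℝ) ^ (1 / 128 : ℝ)) := by
        have n32 : (0:ℝ) ≤ fl Q (1 / 32) := Nat.cast_nonneg _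
        have n128 : (0:ℝ) ≤ fl Q (1 / 128) := Nat.cast_nonneg _
        have := o32.2.1
        have := o128.2.1
        gcongr
      have e2 : ((A:ℝ) * u * (Q:ℝ) ^ (1 / 32 : ℝ)) * (A * (Q:ℝ) ^ (1 / 128 : ℝ)) =
          (A:ℝ) ^ 2 * (Q:ℝ) ^ (1 / 100 + 1 / 32 + 1 / 128 : ℝ) := by
        rw [Real.rpow_add hQ0, Real.rpow_add hQ0, hu]
        ring
      have e3 : 4 * ((A:ℝ) ^ 2 * (Q:ℝ) ^ (1 / 100 + 1 / 32 + 1 / 128 : ℝ)) ≤ (Q:ℝ) ^ (1 / 16 : ℝ) := by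
        calc 4 * ((A:ℝ) ^ 2 * (Q:ℝ) ^ (1 / 100 + 1 / 32 + 1 / 128 : ℝ))
            = (4 * (A:ℝ) ^ 2) * (Q:ℝ) ^ (1 / 100 + 1 / 32 + 1 / 128 : ℝ) := by ring
          _ ≤ (Q:ℝ) ^ (1 / 100 : ℝ) * (Q:ℝ) ^ (1 / 100 + 1 / 32 + 1 / 128 : ℝ) := by
              refine mul_le_mul_of_nonneg_right ?_ (Real.rpow_nonneg hQ0.le _)
              refine le_trans ?_ k1
              nlinarith
          _ = (Q:ℝ) ^ (1 / 100 + (1 / 100 + 1 / 32 + 1 / 128) : ℝ) := (Real.rpow_add hQ0 _ _).symm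
          _ ≤ (Q:ℝ) ^ (1 / 16 : ℝ) := hmono _ _ (by norm_num)
      have e4 : 0 < (A:ℝ) ^ 2 * (Q:ℝ) ^ (1 / 100 + 1 / 32 + 1 / 128 : ℝ) := by positivity
      have := o16.2.2
      rw [e2] at e1
      linarith
    exact_mod_cast h1
  · have h1 : (fl Q (1 / 2) : ℝ) * fl Q (1 / 2) ≤ Q := by
      calc (fl Q (1 / 2) : ℝ) * fl Q (1 / 2) ≤ (Q:ℝ) ^ (1 / 2 : ℝ) * (Q:ℝ) ^ (1 / 2 : ℝ) :=
            mul_le_mul o2.2.1 o2.2.1 (Nat.cast_nonneg _) (Real.rpow_nonneg hQ0.le _)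
        _ = Q := by
            rw [← Real.rpow_add hQ0]
            norm_num
    exact_mod_cast h1
  · intro R hR1 hR
    have hR0 : (0:ℝ) < R := by exact_mod_cast hR1
    have hRle : (R:ℝ) ≤ (Q:ℝ) ^ (1 / 16 : ℝ) := le_trans (by exact_mod_cast hR) o16.2.1
    have h1 : (fl Q (1 / 2) : ℝ) < R * (((fl Q (1 / 2) / R : ℕ) : ℝ) + 1) := by
      exact_mod_cast Nat.lt_mul_div_succ (fl Q (1 / 2)) hR1
    set D : ℝ := ((fl Q (1 / 2) / R : ℕ) : ℝ) with hD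
    have hD0 : 0 ≤ D := Nat.cast_nonneg _
    have h2 : (Q:ℝ) ^ (1 / 2 : ℝ) ≤ 2 * ((Q:ℝ) ^ (1 / 16 : ℝ) * (D + 1)) := by
      have h3 : (R:ℝ) * (D + 1) ≤ (Q:ℝ) ^ (1 / 16 : ℝ) * (D + 1) :=
        mul_le_mul_of_nonneg_right hRle (by linarith)
      linarith [o2.2.2]
    have h4 : (Q:ℝ) ^ (1 / 16 : ℝ) * (4 * (Q:ℝ) ^ (1 / 4 : ℝ)) ≤ (Q:ℝ) ^ (1 / 2 : ℝ) := by
      calc (Q:ℝ) ^ (1 / 16 : ℝ) * (4 * (Q:ℝ) ^ (1 / 4 : ℝ))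
          ≤ (Q:ℝ) ^ (1 / 16 : ℝ) * ((Q:ℝ) ^ (1 / 100 : ℝ) * (Q:ℝ) ^ (1 / 4 : ℝ)) := by
            refine mul_le_mul_of_nonneg_left ?_ (Real.rpow_nonneg hQ0.le _)
            refine mul_le_mul_of_nonneg_right ?_ (Real.rpow_nonneg hQ0.le _)
            refine le_trans ?_ k1
            nlinarith
        _ = (Q:ℝ) ^ (1 / 16 + (1 / 100 + 1 / 4) : ℝ) := by
            rw [Real.rpow_add hQ0, Real.rpow_add hQ0]
        _ ≤ (Q:ℝ) ^ (1 / 2 : ℝ) := hmono _ _ (by norm_num)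
    have hp16 : 0 < (Q:ℝ) ^ (1 / 16 : ℝ) := Real.rpow_pos_of_pos hQ0 _
    have h5 : 4 * (Q:ℝ) ^ (1 / 4 : ℝ) ≤ 2 * (D + 1) := by
      have h6 : (Q:ℝ) ^ (1 / 16 : ℝ) * (4 * (Q:ℝ) ^ (1 / 4 : ℝ)) ≤ (Q:ℝ) ^ (1 / 16 : ℝ) * (2 * (D + 1)) := by
        refine h4.trans (h2.trans (le_of_eq ?_))
        ring
      exact le_of_mul_le_mul_left h6 hp16
    have h7 : 1 ≤ (Q:ℝ) ^ (1 / 4 : ℝ) := Real.one_le_rpow hQr (by norm_num)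
    linarith

end Pool.Agent.Lib.H24P
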