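import Pool.Agent.Lib.H24P.Defs2
import Pool.Agent.Lib.H18Q.R0

/-!
# Project H24P, chunk G2 (M): geometry
-/

open Finset Polynomial

namespace Pool.Agent.Lib.H24P

open Pool.Agent.Lib.H68T Pool.Agent.Lib.H18Q Pool.Agent.Lib.H59P

theorem g2_pow (N n n' : ℤ) (hn : 0 ≤ n) (h : n ≤ n') (h' : n' ≤ N) (j : ℕ) :
    0 ≤ n' ^ j - n ^ j ∧ N * (n' ^ j - n ^ j) ≤ j * N ^ j * (n' - n) := by
  induction j with
  | zero => simp
  | succ j ih =>
    obtain ⟨ih0, ih1⟩ := ih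
    have hn' : 0 ≤ n' := hn.trans h
    have hN : 0 ≤ N := hn'.trans h'
    have e1 : n' ^ (j + 1) - n ^ (j + 1) = n' * (n' ^ j - n ^ j) + n ^ j * (n' - n) := by ring
    have hnj : 0 ≤ n ^ j := pow_nonneg hn j
    have hNj : n ^ j ≤ N ^ j := pow_le_pow_left₀ hn (h.trans h') j
    have hd : 0 ≤ n' - n := by linarith
    refine ⟨?_, ?_⟩
    · rw [e1]
      exact add_nonneg (mul_nonneg hn' ih0) (mul_nonneg hnj hd)
    · rw [e1]
      have h1 : N * (n' * (n' ^ j - n ^ j)) ≤ N * (j * N ^ j * (n' - n)) := by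
        have h2 : n' * (N * (n' ^ j - n ^ j)) ≤ n' * (j * N ^ j * (n' - n)) :=
          mul_le_mul_of_nonneg_left ih1 hn'
        have h3 : n' * (j * N ^ j * (n' - n)) ≤ N * (j * N ^ j * (n' - n)) := by
          refine mul_le_mul_of_nonneg_right h' ?_
          exact mul_nonneg (mul_nonneg (by positivity) (pow_nonneg hN j)) hd
        calc N * (n' * (n' ^ j - n ^ j)) = n' * (N * (n' ^ j - n ^ j)) := by ring
          _ ≤ _ := h2.trans h3
      have h4 : N * (n ^ j * (n' - n)) ≤ N * (N ^ j * (n' - n)) :=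
        mul_le_mul_of_nonneg_left (mul_le_mul_of_nonneg_right hNj hd) hN
      calc N * (n' * (n' ^ j - n ^ j) + n ^ j * (n' - n))
          = N * (n' * (n' ^ j - n ^ j)) + N * (n ^ j * (n' - n)) := by ring
        _ ≤ N * (j * N ^ j * (n' - n)) + N * (N ^ j * (n' - n)) := add_le_add h1 h4
        _ = ((j + 1 : ℕ) : ℤ) * N ^ (j + 1) * (n' - n) := by push_cast; ring

theorem g2_asy (K D : ℝ) (hK : 1 ≤ K) (hD : 0 < D) : ∃ Q0 : ℕ, ∀ Q : ℕ, Q0 ≤ Q →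
    3 ≤ Q ∧ 1 ≤ Real.log Q ∧ K ≤ Real.log (Real.log Q) ∧ K * Real.log (D * Real.log Q) ≤ Real.log Q := by
  refine ⟨⌈Real.exp (Real.exp K + 4 * K ^ 2 * D)⌉₊ + 3, fun Q hQ => ?_⟩
  have h3 : 3 ≤ Q := by omega
  have hQ1 : Real.exp (Real.exp K + 4 * K ^ 2 * D) ≤ Q := by
    refine (Nat.le_ceil _).trans ?_
    exact_mod_cast (by omega : ⌈Real.exp (Real.exp K + 4 * K ^ 2 * D)⌉₊ ≤ Q)
  have hQ0 : (0 : ℝ) < Q := (Real.exp_pos _).trans_le hQ1
  have hl : Real.exp K + 4 * K ^ 2 * D ≤ Real.log Q := (Real.le_log_iff_exp_le hQ0).mpr hQ1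
  have hp : 0 < 4 * K ^ 2 * D := by positivity
  have hek : 1 ≤ Real.exp K := Real.one_le_exp (by linarith)
  have hl1 : 1 ≤ Real.log Q := by linarith
  have hl2 : Real.exp K ≤ Real.log Q := by linarith
  have hl3 : 4 * K ^ 2 * D ≤ Real.log Q := by linarith
  have hl0 : 0 < Real.log Q := by linarith
  refine ⟨h3, hl1, (Real.le_log_iff_exp_le hl0).mpr hl2, ?_⟩
  generalize Real.log Q = t at *
  have hDt : 0 < D * t := mul_pos hD hl0
  have hs : 0 < Real.sqrt (D * t) := Real.sqrt_pos.mpr hDt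
  have h4 : Real.log (D * t) ≤ 2 * Real.sqrt (D * t) := by
    have h5 : Real.log (D * t) = 2 * Real.log (Real.sqrt (D * t)) := by
      rw [Real.log_sqrt hDt.le]
      ring
    rw [h5]
    have h6 := Real.log_le_sub_one_of_pos hs
    linarith
  have h7 : 2 * K * Real.sqrt (D * t) ≤ t := by
    have h8 : (2 * K * Real.sqrt (D * t)) ^ 2 ≤ t ^ 2 := by
      rw [mul_pow, Real.sq_sqrt hDt.le]
      nlinarith [mul_le_mul_of_nonneg_right hl3 hl0.le]
    exact abs_le_of_sq_le_sq' h8 hl0.le |>.2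
  have h9 := mul_le_mul_of_nonneg_left h4 (by linarith : 0 ≤ K)
  linarith

/-- One polynomial. Proof. `|P(n)| ≤ ∑_j |a_j| (2 X1)^j ≤ C X1^d`; `P(n') - P(n) = ∑_j a_j (n'^j - n^j)`,
`|n'^j - n^j| ≤ (n' - n) j (2 X1)^(j-1)`, so `|P(n') - P(n)| ≤ C (n' - n) X1^(d-1)` (`X1 ≥ 1`). -/
theorem G2_one (P : ℤ[X]) (hP : 1 ≤ P.natDegree) : ∃ L : ℕ, 1 ≤ L ∧ ∀ X1 n n' : ℕ, 1 ≤ X1 →
    n ≤ n' → n' < 2 * X1 → |P.eval (n : ℤ)| ≤ L * (X1 : ℤ) ^ P.natDegree ∧
    X1 * |P.eval (n' : ℤ) - P.eval (n : ℤ)| ≤ L * (n' - n) * (X1 : ℤ) ^ P.natDegree := by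
  set d := P.natDegree with hd
  refine ⟨∑ j ∈ range (d + 1), (P.coeff j).natAbs * ((j + 1) * 2 ^ j) + 1, by omega, ?_⟩
  intro X1 n n' hX hnn hn'
  have hL : ((∑ j ∈ range (d + 1), (P.coeff j).natAbs * ((j + 1) * 2 ^ j) + 1 : ℕ) : ℤ)
      = ∑ j ∈ range (d + 1), |P.coeff j| * ((j + 1) * 2 ^ j) + 1 := by
    push_cast
    rfl
  rw [hL]
  have hXz : (1 : ℤ) ≤ X1 := by exact_mod_cast hX
  have hXd : (0 : ℤ) ≤ (X1 : ℤ) ^ d := by positivity
  have hXj : ∀ j ∈ range (d + 1), (X1 : ℤ) ^ j ≤ (X1 : ℤ) ^ d := fun j hj =>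
    pow_le_pow_right₀ hXz (by have := mem_range.mp hj; omega)
  have hn0 : (0 : ℤ) ≤ n := by positivity
  have hnn' : (n : ℤ) ≤ n' := by exact_mod_cast hnn
  have hn2 : (n' : ℤ) ≤ 2 * X1 := by
    have : n' ≤ 2 * X1 := hn'.le
    exact_mod_cast this
  have hdn : (0 : ℤ) ≤ (n' : ℤ) - n := by linarith
  constructor
  · rw [eval_eq_sum_range]
    refine (abs_sum_le_sum_abs _ _).trans ?_
    have h1 : ∑ j ∈ range (d + 1), |P.coeff j * (n : ℤ) ^ j|
        ≤ ∑ j ∈ range (d + 1), |P.coeff j| * ((j + 1) * 2 ^ j) * (X1 : ℤ) ^ d := by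
      refine sum_le_sum fun j hj => ?_
      rw [abs_mul, mul_assoc]
      refine mul_le_mul_of_nonneg_left ?_ (abs_nonneg _)
      rw [abs_of_nonneg (by positivity : (0 : ℤ) ≤ (n : ℤ) ^ j)]
      have h2 : (n : ℤ) ^ j ≤ (2 * X1) ^ j := pow_le_pow_left₀ hn0 (hnn'.trans hn2) j
      have h3 : ((2 : ℤ) * X1) ^ j = 2 ^ j * (X1 : ℤ) ^ j := mul_pow _ _ _
      have h4 : (2 : ℤ) ^ j * (X1 : ℤ) ^ j ≤ 2 ^ j * (X1 : ℤ) ^ d :=
        mul_le_mul_of_nonneg_left (hXj j hj) (by positivity)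
      have h5 : (0 : ℤ) ≤ 2 ^ j * (X1 : ℤ) ^ d := by positivity
      have h6 : (0 : ℤ) ≤ (j : ℤ) := by positivity
      nlinarith [mul_nonneg h6 h5]
    refine h1.trans ?_
    rw [← sum_mul, add_mul, one_mul]
    linarith
  · rw [eval_eq_sum_range, eval_eq_sum_range, ← sum_sub_distrib]
    have h1 : (X1 : ℤ) * |∑ j ∈ range (P.natDegree + 1), (P.coeff j * (n' : ℤ) ^ j - P.coeff j * (n : ℤ) ^ j)|
        ≤ ∑ j ∈ range (d + 1), |P.coeff j| * ((j + 1) * 2 ^ j) * (((n' : ℤ) - n) * (X1 : ℤ) ^ d) := by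
      refine (mul_le_mul_of_nonneg_left (abs_sum_le_sum_abs _ _) (by linarith)).trans ?_
      rw [mul_sum]
      refine sum_le_sum fun j hj => ?_
      obtain ⟨p0, p1⟩ := g2_pow (2 * X1) n n' hn0 hnn' hn2 j
      have h2 : P.coeff j * (n' : ℤ) ^ j - P.coeff j * (n : ℤ) ^ j
          = P.coeff j * ((n' : ℤ) ^ j - (n : ℤ) ^ j) := by ring
      rw [h2, abs_mul, abs_of_nonneg p0]
      have h3 : (2 * (X1 : ℤ)) ^ j ≤ 2 ^ j * (X1 : ℤ) ^ d := by
        rw [mul_pow]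
        exact mul_le_mul_of_nonneg_left (hXj j hj) (by positivity)
      have h6 : (0 : ℤ) ≤ (j : ℤ) := by positivity
      have h7 : (X1 : ℤ) * ((n' : ℤ) ^ j - (n : ℤ) ^ j)
          ≤ (j + 1) * 2 ^ j * (((n' : ℤ) - n) * (X1 : ℤ) ^ d) := by
        have h8 : (j : ℤ) * (2 * (X1 : ℤ)) ^ j * ((n' : ℤ) - n)
            ≤ (j : ℤ) * (2 ^ j * (X1 : ℤ) ^ d) * ((n' : ℤ) - n) :=
          mul_le_mul_of_nonneg_right (mul_le_mul_of_nonneg_left h3 h6) hdn
        have h9 : (0 : ℤ) ≤ 2 ^ j * (((n' : ℤ) - n) * (X1 : ℤ) ^ d) :=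
          mul_nonneg (by positivity) (mul_nonneg hdn hXd)
        have h10 : 0 ≤ (X1 : ℤ) * ((n' : ℤ) ^ j - (n : ℤ) ^ j) := mul_nonneg (by linarith) p0
        nlinarith [mul_nonneg h6 h9]
      calc (X1 : ℤ) * (|P.coeff j| * ((n' : ℤ) ^ j - (n : ℤ) ^ j))
          = |P.coeff j| * ((X1 : ℤ) * ((n' : ℤ) ^ j - (n : ℤ) ^ j)) := by ring
        _ ≤ |P.coeff j| * ((j + 1) * 2 ^ j * (((n' : ℤ) - n) * (X1 : ℤ) ^ d)) :=
            mul_le_mul_of_nonneg_left h7 (abs_nonneg _)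
        _ = _ := by ring
    refine h1.trans ?_
    rw [← sum_mul]
    have h11 : 0 ≤ ((n' : ℤ) - n) * (X1 : ℤ) ^ d := mul_nonneg hdn hXd
    nlinarith

/-- Proof. `G2_one` for all `i`, `L` = `8` times the sum of the constants. `L X1^d ≤ M_i`; for the second part
multiply by `X1 > 0`: `X1 Q^8 |P(n') - P(n)| ≤ L' (n' - n) Q^8 X1^d ≤ L' X1 X1^d ≤ X1 M_i`. -/
theorem G2_P {k : ℕ} (P : Fin k → ℤ[X]) (hP : ∀ i, 1 ≤ (P i).natDegree) : ∃ L : ℕ, 2 ≤ L ∧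
    ∀ (Q X X1 : ℕ) (M : Fin k → ℕ), Geo L Q X X1 P M → ∀ i, ∀ n ∈ Ico X1 (2 * X1),
    8 * |(P i).eval (n : ℤ)| ≤ M i ∧ ∀ n' ∈ Ico X1 (2 * X1), n ≤ n' → (n' - n) * Q ^ 8 ≤ X1 →
      (Q : ℤ) ^ 8 * |(P i).eval (n' : ℤ) - (P i).eval (n : ℤ)| ≤ M i := by
  choose L hL1 hL2 using fun i => G2_one (P i) (hP i)
  refine ⟨8 * ∑ i, L i + 2, by omega, ?_⟩
  intro Q X X1 M hG i n hn
  have hX1 : 1 ≤ X1 := hG.pos
  obtain ⟨hn1, hn2⟩ := mem_Ico.mp hn
  have hLi : L i ≤ ∑ i, L i := single_le_sum (fun j _ => Nat.zero_le _) (mem_univ i)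
  have hM : (8 * (L i : ℤ)) * (X1 : ℤ) ^ (P i).natDegree ≤ M i := by
    have h1 := hG.lo i
    have h2 : 8 * L i * X1 ^ (P i).natDegree ≤ M i :=
      (Nat.mul_le_mul_right _ (by omega)).trans h1
    exact_mod_cast h2
  have hXd : (0 : ℤ) ≤ (X1 : ℤ) ^ (P i).natDegree := by positivity
  have hL0 : (0 : ℤ) ≤ L i := by positivity
  refine ⟨?_, ?_⟩
  · have h3 := (hL2 i X1 n n hX1 le_rfl hn2).1
    nlinarith
  · intro n' hn' hnn hQ
    obtain ⟨hn1', hn2'⟩ := mem_Ico.mp hn'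
    have h3 := (hL2 i X1 n n' hX1 hnn hn2').2
    have hXp : (0 : ℤ) < X1 := by exact_mod_cast hX1
    have hQz : ((n' : ℤ) - n) * (Q : ℤ) ^ 8 ≤ X1 := by
      have h4 : (((n' - n) * Q ^ 8 : ℕ) : ℤ) ≤ X1 := by exact_mod_cast hQ
      push_cast [Nat.cast_sub hnn] at h4
      exact h4
    have h5 : (X1 : ℤ) * ((Q : ℤ) ^ 8 * |(P i).eval (n' : ℤ) - (P i).eval (n : ℤ)|)
        ≤ X1 * M i := by
      calc (X1 : ℤ) * ((Q : ℤ) ^ 8 * |(P i).eval (n' : ℤ) - (P i).eval (n : ℤ)|)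
          = (Q : ℤ) ^ 8 * (X1 * |(P i).eval (n' : ℤ) - (P i).eval (n : ℤ)|) := by ring
        _ ≤ (Q : ℤ) ^ 8 * (L i * (n' - n) * (X1 : ℤ) ^ (P i).natDegree) :=
            mul_le_mul_of_nonneg_left h3 (by positivity)
        _ = (((n' : ℤ) - n) * (Q : ℤ) ^ 8) * (L i * (X1 : ℤ) ^ (P i).natDegree) := by ring
        _ ≤ X1 * (L i * (X1 : ℤ) ^ (P i).natDegree) :=
            mul_le_mul_of_nonneg_right hQz (mul_nonneg hL0 hXd)
        _ ≤ X1 * M i := by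
            refine mul_le_mul_of_nonneg_left ?_ hXp.le
            nlinarith [mul_nonneg hL0 hXd]
    exact le_of_mul_le_mul_left h5 hXp

/-- The values are in `[Y, 3Y)`. Proof. `8 ∣ M`: `M = 4 m'`, `m'` even, `Y = 3 m'`. -/
theorem G2_val (M x : ℕ) (v : ℤ) (hM : 8 ∣ M) (hv : 8 * |v| ≤ M) (hx : x ∈ Ico M (2 * M)) :
    (Ysc M : ℤ) ≤ v + x ∧ v + x < 3 * Ysc M ∧ 4 * Ysc M = 3 * M := by
  obtain ⟨m, rfl⟩ := hM
  obtain ⟨hx1, hx2⟩ := mem_Ico.mp hx
  have hY : Ysc (8 * m) = 6 * m := by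
    unfold Ysc
    omega
  rw [hY]
  have h1 := neg_le_abs v
  have h2 := le_abs_self v
  push_cast at hv ⊢
  refine ⟨?_, ?_, ?_⟩
  · have h3 : (8 * m : ℤ) ≤ x := by exact_mod_cast hx1
    linarith
  · have h3 : (x : ℤ) < 2 * (8 * m) := by exact_mod_cast hx2
    have h4 : (8 * m : ℤ) ≤ x := by exact_mod_cast hx1
    linarith
  · ring

/-- The regime for the values. Proof. `M_i ≥ L X1^d ≥ 2 X1`, so `Y_i ≥ X1`, and `log X1 ≥ log X - log Q ≥ K log Q`.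
`M_i ≤ X1^d Q^(1/8) ≤ X^(d+1)` (`Q ≤ X`), so `log Y_i ≤ (d+1) log X ≤ (d+1) C log Q`; `log log Y_i ≤ log Q/K` and
`K ≤ log log Y_i` for `Q` large. -/
theorem G2_reg {k : ℕ} (P : Fin k → ℤ[X]) (hP : ∀ i, 1 ≤ (P i).natDegree) (K C : ℝ) (hK : 1 ≤ K) :
    ∃ Q0 : ℕ, ∀ (L Q X X1 : ℕ) (M : Fin k → ℕ), Q0 ≤ Q → 2 ≤ L → Rg (K + 1) C Q X →
    Geo L Q X X1 P M → ∀ i, RegP K Q (Ysc (M i)) ∧ X1 ≤ Ysc (M i) ∧
      Real.log (Ysc (M i)) ≤ ((P i).natDegree + 1) * Real.log X := by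
  set D : ℝ := ((∑ i, (P i).natDegree : ℕ) + 1 : ℝ) * max C 1 with hD
  have hD0 : 0 < D := mul_pos (by positivity) (lt_of_lt_of_le one_pos (le_max_right _ _))
  obtain ⟨Q0, hQ0⟩ := g2_asy K D hK hD0
  refine ⟨Q0, ?_⟩
  intro L Q X X1 M hQ hL hR hG i
  obtain ⟨hQ3, hlQ1, hllQ, hasy⟩ := hQ0 Q hQ
  obtain ⟨hR1, hR2⟩ := hR
  have hX1 : 1 ≤ X1 := hG.pos
  have hXX : X1 ≤ X := hG.le
  have hX1r : (1 : ℝ) ≤ X1 := by exact_mod_cast hX1
  have hXr : (1 : ℝ) ≤ X := by exact_mod_cast hX1.trans hXX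
  have hQr : (0 : ℝ) < Q := by
    have : 0 < Q := by omega
    exact_mod_cast this
  have hlX1 : Real.log X - Real.log Q ≤ Real.log X1 := by
    have h1 : (X : ℝ) ≤ X1 * Q := by exact_mod_cast hG.ge
    have h2 := Real.log_le_log (by linarith) h1
    rw [Real.log_mul (by linarith) hQr.ne'] at h2
    linarith
  have hlX1' : Real.log X1 ≤ Real.log X := Real.log_le_log (by linarith) (by exact_mod_cast hXX)
  have h8 : 8 ∣ M i := (Dvd.intro _ rfl : 8 ∣ 8 * Q ^ 8).trans (hG.dvdM i)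
  have hY4 : 4 * Ysc (M i) = 3 * M i := by
    obtain ⟨m, hm⟩ := h8
    unfold Ysc
    omega
  have hM2 : 2 * X1 ≤ M i := by
    refine le_trans ?_ (hG.lo i)
    refine Nat.mul_le_mul hL ?_
    calc X1 = X1 ^ 1 := (pow_one _).symm
      _ ≤ X1 ^ (P i).natDegree := Nat.pow_le_pow_right hX1 (hP i)
  have hXY : X1 ≤ Ysc (M i) := by omega
  have hYM : Ysc (M i) ≤ M i := by omega
  have hYr : (1 : ℝ) ≤ Ysc (M i) := by exact_mod_cast hX1.trans hXY
  have hlXY : Real.log X1 ≤ Real.log (Ysc (M i)) :=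
    Real.log_le_log (by linarith) (by exact_mod_cast hXY)
  have hlow : K * Real.log Q ≤ Real.log (Ysc (M i)) := by linarith
  have hQX : Real.log Q ≤ Real.log X := by nlinarith
  have hup : Real.log (Ysc (M i)) ≤ ((P i).natDegree + 1) * Real.log X := by
    have h1 : ((Ysc (M i) : ℕ) : ℝ) ≤ (X1 : ℝ) ^ (P i).natDegree * (Q : ℝ) ^ (1 / 8 : ℝ) :=
      (by exact_mod_cast hYM : ((Ysc (M i) : ℕ) : ℝ) ≤ M i).trans (hG.hi i)
    have h2 := Real.log_le_log (by linarith) h1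
    rw [Real.log_mul (by positivity) (by positivity), Real.log_pow, Real.log_rpow hQr] at h2
    have h3 : ((P i).natDegree : ℝ) * Real.log X1 ≤ (P i).natDegree * Real.log X :=
      mul_le_mul_of_nonneg_left hlX1' (by positivity)
    have h4 : (0 : ℝ) ≤ Real.log Q := by linarith
    linarith
  have hlY1 : 1 ≤ Real.log (Ysc (M i)) := by nlinarith
  refine ⟨⟨?_, ?_, hlow⟩, hXY, hup⟩
  · refine hllQ.trans (Real.log_le_log (by linarith) ?_)
    nlinarith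
  · refine le_trans (mul_le_mul_of_nonneg_left (Real.log_le_log (by linarith) ?_) (by linarith)) hasy
    refine hup.trans ?_
    have h5 : Real.log X ≤ max C 1 * Real.log Q :=
      hR2.trans (mul_le_mul_of_nonneg_right (le_max_left _ _) (by linarith))
    have h6 : (((P i).natDegree : ℕ) : ℝ) ≤ ((∑ i, (P i).natDegree : ℕ) : ℝ) := by
      have : (P i).natDegree ≤ ∑ i, (P i).natDegree :=
        single_le_sum (f := fun i => (P i).natDegree) (fun j _ => Nat.zero_le _) (mem_univ i)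
      exact_mod_cast this
    have h7 : 0 ≤ max C 1 * Real.log Q := by positivity
    calc (((P i).natDegree : ℝ) + 1) * Real.log X
        ≤ (((P i).natDegree : ℝ) + 1) * (max C 1 * Real.log Q) :=
          mul_le_mul_of_nonneg_left h5 (by positivity)
      _ ≤ (((∑ i, (P i).natDegree : ℕ) : ℝ) + 1) * (max C 1 * Real.log Q) :=
          mul_le_mul_of_nonneg_right (by linarith) h7
      _ = D * Real.log Q := by rw [hD]; ring

/-- The regime for the linear coordinate, at level `Q^100`. Proof. `X1/2 ≤ Y ≤ A X`, `X ≤ X1 Q`. -/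
theorem G2_regB (A : ℕ) (K C : ℝ) (hK : 1 ≤ K) : ∃ Q0 : ℕ, ∀ (Q X X1 Y : ℕ) (B : ℤ[X]), Q0 ≤ Q →
    Rg (100 * K + 2) C Q X → 0 < X1 → X1 ≤ X → X ≤ X1 * Q → GeoB A X X1 Y B →
    RegP K (Q ^ 100) Y ∧ Real.log Y ≤ 2 * Real.log X := by
  set D : ℝ := 2 * max C 1 with hD
  have hD0 : 0 < D := mul_pos two_pos (lt_of_lt_of_le one_pos (le_max_right _ _))
  obtain ⟨Q0, hQ0⟩ := g2_asy K D hK hD0
  refine ⟨Q0 + A, ?_⟩
  intro Q X X1 Y B hQ hR hX1 hXX hXQ hG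
  obtain ⟨hQ3, hlQ1, hllQ, hasy⟩ := hQ0 Q (by omega)
  obtain ⟨hR1, hR2⟩ := hR
  have hX1r : (1 : ℝ) ≤ X1 := by exact_mod_cast hX1
  have hXr : (1 : ℝ) ≤ X := by exact_mod_cast (le_trans hX1 hXX)
  have hQr : (0 : ℝ) < Q := by
    have : 0 < Q := by omega
    exact_mod_cast this
  have hlX1 : Real.log X - Real.log Q ≤ Real.log X1 := by
    have h1 : (X : ℝ) ≤ X1 * Q := by exact_mod_cast hXQ
    have h2 := Real.log_le_log (by linarith) h1
    rw [Real.log_mul (by linarith) hQr.ne'] at h2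
    linarith
  have hY0 : 0 < Y := by
    have := hG.Ylo
    omega
  have hYr : (1 : ℝ) ≤ Y := by exact_mod_cast hY0
  have hA0 : 0 < A := by
    have h1 := hG.Yhi
    rcases Nat.eq_zero_or_pos A with h | h
    · rw [h, zero_mul] at h1
      omega
    · exact h
  have hAr : (1 : ℝ) ≤ A := by exact_mod_cast hA0
  have hl2 : Real.log 2 ≤ Real.log Q := by
    refine Real.log_le_log two_pos ?_
    have : 2 ≤ Q := by omega
    exact_mod_cast this
  have hlA : Real.log A ≤ Real.log Q := by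
    refine Real.log_le_log (by linarith) ?_
    have : A ≤ Q := by omega
    exact_mod_cast this
  have hlY : Real.log X1 ≤ Real.log 2 + Real.log Y := by
    rw [← Real.log_mul (by norm_num) (by linarith)]
    exact Real.log_le_log (by linarith) (by exact_mod_cast hG.Ylo)
  have hKQ : Real.log Q ≤ K * Real.log Q := by nlinarith
  have hlow : K * (100 * Real.log Q) ≤ Real.log Y := by
    have h1 : (100 * K + 2) * Real.log Q = K * (100 * Real.log Q) + 2 * Real.log Q := by ring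
    linarith
  have hQX : Real.log Q ≤ Real.log X := by nlinarith
  have hup : Real.log Y ≤ 2 * Real.log X := by
    have h1 : Real.log Y ≤ Real.log A + Real.log X := by
      rw [← Real.log_mul (by linarith) (by linarith)]
      exact Real.log_le_log (by linarith) (by exact_mod_cast hG.Yhi)
    linarith
  have hlY1 : Real.log Q ≤ Real.log Y := by
    have h1 : K * (100 * Real.log Q) = 100 * (K * Real.log Q) := by ring
    linarith
  have hlQ100 : Real.log ((Q ^ 100 : ℕ) : ℝ) = 100 * Real.log Q := by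
    rw [Nat.cast_pow, Real.log_pow]
    norm_num
  refine ⟨⟨?_, ?_, ?_⟩, hup⟩
  · exact hllQ.trans (Real.log_le_log (by linarith) hlY1)
  · rw [hlQ100]
    have h5 : Real.log X ≤ max C 1 * Real.log Q :=
      hR2.trans (mul_le_mul_of_nonneg_right (le_max_left _ _) (by linarith))
    have h6 : K * Real.log (Real.log Y) ≤ K * Real.log (D * Real.log Q) := by
      refine mul_le_mul_of_nonneg_left (Real.log_le_log (by linarith) ?_) (by linarith)
      rw [hD]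
      linarith
    linarith
  · rw [hlQ100]
    exact hlow

end Pool.Agent.Lib.H24P
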