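import Pool.Agent.Lib.H24P.P3
import Pool.Agent.Lib.H59P.C3A
import Pool.Agent.Lib.H59P.X1

/-!
# Project H24P, chunk P5 (M): lower bounds for the main term (port of H59P/X2A, X2)
-/

open Finset

namespace Pool.Agent.Lib.H24P

open Pool.Agent.Lib.H68T Pool.Agent.Lib.H18Q Pool.Agent.Lib.H59P

/-- The expansion of the main term (port of `X2a`). -/
theorem p5_X2a {k : ℕ} (φ : Fin k → ℤ → ℤ) (hφ : Cp φ) (Q : ℕ) (px : Ch) (hpx : px ∈ PC Q)
    (hreal : px.2 ^ 2 = 1) (th : Fin k → ℝ) :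
    ((PMf Q px th φ : ℝ) : ℂ) = ∑ B ∈ (univ : Finset (Fin k)).powerset,
      ((∏ i ∈ B, -(th i) : ℝ) : ℂ) * (MRf (pB px B) px.1 φ *
        ((SSf ((pr Q).filter (fun l => ¬ l ∣ px.1)) φ : ℝ) : ℂ)) := by
  classical
  obtain ⟨hr1, hrQ, hprim⟩ := mem_PC.1 hpx
  have h1 : ∀ B : Finset (Fin k), MRf (pB px B) px.1 φ *
        ((SSf ((pr Q).filter (fun l => ¬ l ∣ px.1)) φ : ℝ) : ℂ) = MQf Q (pB px B) φ := by
    intro B
    refine P3_M5 φ hφ Q px.1 (by omega) (Nat.dvd_factorial (by omega) hrQ) (pB px B) ?_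
    intro i
    unfold pB
    split_ifs
    · exact dvd_rfl
    · exact one_dvd _
  rw [sum_congr rfl fun B _ => by rw [h1 B]]
  have h2 : ∀ n : ℤ, ((fPf Q px th (at' φ n) : ℝ) : ℂ) = ∑ B ∈ (univ : Finset (Fin k)).powerset,
      ((∏ i ∈ B, -(th i) : ℝ) : ℂ) * Phf (pB px B) (pr Q) (at' φ n) := by
    intro n
    unfold fPf at'
    rw [Complex.ofReal_prod]
    have e1 : ∀ i : Fin k, ((uu (pr Q) (φ i n) * (1 - th i * (cj px (φ i n)).re) : ℝ) : ℂ) =
        ((uu (pr Q) (φ i n) : ℝ) : ℂ) * ((((-(th i) : ℝ)) : ℂ) * cj px (φ i n) + 1) := by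
      intro i
      push_cast
      rw [← (C3a px hreal (φ i n)).1]
      ring
    rw [prod_congr rfl fun i _ => e1 i, prod_mul_distrib, Finset.prod_add, mul_sum]
    refine sum_congr rfl fun B hB => ?_
    unfold Phf
    rw [prod_mul_distrib, prod_mul_distrib, prod_const_one, mul_one, Complex.ofReal_prod]
    have e2 : ∏ i, cj (pB px B i) (φ i n) = ∏ i ∈ B, cj px (φ i n) := by
      rw [← prod_subset (subset_univ B)]
      · refine prod_congr rfl fun i hi => ?_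
        unfold pB
        rw [if_pos hi]
      · intro i _ hi
        unfold pB
        rw [if_neg hi, m5b_cj]
    rw [e2]
    ring
  unfold PMf MQf
  rw [Complex.ofReal_div, Complex.ofReal_sum, sum_congr rfl fun (n : ℕ) _ => h2 (n : ℤ), sum_comm,
    sum_div]
  refine sum_congr rfl fun B _ => ?_
  rw [← mul_sum, mul_div_assoc]
  norm_cast

theorem p5_mem_pr {Q l : ℕ} : l ∈ pr Q ↔ l.Prime ∧ l ≤ Q := by
  unfold pr
  rw [Finset.mem_filter, Finset.mem_Icc]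
  constructor
  · rintro ⟨⟨_, h2⟩, h3⟩
    exact ⟨h3, h2⟩
  · rintro ⟨h1, h2⟩
    exact ⟨⟨h1.one_lt.le, h2⟩, h1⟩

theorem p5_SS_nonneg {k : ℕ} (P : Finset ℕ) (hP : ∀ l ∈ P, l.Prime) (φ : Fin k → ℤ → ℤ) :
    0 ≤ SSf P φ :=
  Finset.prod_nonneg fun l hl => (P0_tp l (hP l hl) φ).1

/-- Proof. As `X2a`, `X2` in `H59P`: with `n + h_i` replaced by `φ i n`; `pB` is in `H59P/X1.lean`; `M5` is `P3_M5`
(`R = px.1`, `px.1 ∣ Q!` as `1 ≤ px.1 ≤ Q`), `M5_loc` is `P3_loc`. -/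
theorem P5_X2 {k : ℕ} (φ : Fin k → ℤ → ℤ) (hφ : Cp φ) (Q : ℕ) (px : Ch) (hpx : px ∈ PC Q)
    (hreal : px.2 ^ 2 = 1) (th : Fin k → ℝ) (hth0 : ∀ i, 0 ≤ th i) (hth : ∀ i, th i ≤ 1)
    (hm : ∀ B : Finset (Fin k), B.Nonempty →
      2 ^ (k + 1) * ‖MRf (pB px B) px.1 φ‖ ≤ SSf px.1.primeFactors φ) :
    1 / 2 * SSf (pr Q) φ ≤ PMf Q px th φ := by
  classical
  have hpc := mem_PC.mp hpx
  have hr : 0 < px.1 := hpc.1
  set S : ℝ := SSf px.1.primeFactors φ with hS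
  set S' : ℝ := SSf ((pr Q).filter (fun l => ¬ l ∣ px.1)) φ with hS'
  have hS0 : 0 ≤ S := p5_SS_nonneg _ (fun l hl => Nat.prime_of_mem_primeFactors hl) φ
  have hS'0 : 0 ≤ S' := p5_SS_nonneg _ (fun l hl => (p5_mem_pr.mp (Finset.mem_filter.mp hl).1).1) φ
  have hsplit : SSf (pr Q) φ = S * S' := by
    have h1 : (pr Q).filter (fun l => l ∣ px.1) = px.1.primeFactors := by
      ext l
      rw [Finset.mem_filter, p5_mem_pr, Nat.mem_primeFactors]
      constructor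
      · rintro ⟨⟨h1, _⟩, h3⟩
        exact ⟨h1, h3, hr.ne'⟩
      · rintro ⟨h1, h3, _⟩
        exact ⟨⟨h1, (Nat.le_of_dvd hr h3).trans hpc.2.1⟩, h3⟩
    rw [hS, hS', ← h1]
    unfold SSf
    exact (Finset.prod_filter_mul_prod_filter_not (pr Q) (fun l => l ∣ px.1)
      (fun l => 1 + tpf l φ)).symm
  have hempty : MRf (pB px (∅ : Finset (Fin k))) px.1 φ = ((S : ℝ) : ℂ) := by
    have h1 : (pB px (∅ : Finset (Fin k))) = fun _ => p0 := by
      funext i
      simp [pB]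
    rw [h1]
    exact P3_loc φ hφ px.1 hr
  have hX := p5_X2a φ hφ Q px hpx hreal th
  -- take real parts
  set E : Finset (Fin k) → ℂ := fun B => ((∏ i ∈ B, -(th i) : ℝ) : ℂ) * MRf (pB px B) px.1 φ with hE
  have hX' : ((PMf Q px th φ : ℝ) : ℂ) = (∑ B ∈ (univ : Finset (Fin k)).powerset, E B) * (S' : ℂ) := by
    rw [hX, Finset.sum_mul]
    refine Finset.sum_congr rfl fun B _ => ?_
    simp only [hE]
    ring
  have hne : (∅ : Finset (Fin k)) ∈ (univ : Finset (Fin k)).powerset := by simp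
  rw [← Finset.add_sum_erase _ E hne] at hX'
  have hE0 : E ∅ = ((S : ℝ) : ℂ) := by
    simp only [hE, Finset.prod_empty, hempty]
    simp
  rw [hE0] at hX'
  have hre : PMf Q px th φ = (S + (∑ B ∈ (univ : Finset (Fin k)).powerset.erase ∅, E B).re) * S' := by
    have h1 := congrArg Complex.re hX'
    rw [Complex.ofReal_re, Complex.re_mul_ofReal, Complex.add_re, Complex.ofReal_re] at h1
    exact h1
  have hbound : ‖∑ B ∈ (univ : Finset (Fin k)).powerset.erase ∅, E B‖ ≤ S / 2 := by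
    refine (norm_sum_le _ _).trans ?_
    have h1 : ∀ B ∈ (univ : Finset (Fin k)).powerset.erase ∅, ‖E B‖ ≤ S / 2 ^ (k + 1) := by
      intro B hB
      have hBn : B.Nonempty := Finset.nonempty_iff_ne_empty.mpr (Finset.mem_erase.mp hB).1
      simp only [hE]
      rw [norm_mul, Complex.norm_real]
      have h2 : ‖(∏ i ∈ B, -(th i) : ℝ)‖ ≤ 1 := by
        rw [norm_prod]
        refine Finset.prod_le_one (fun i _ => norm_nonneg _) fun i _ => ?_
        rw [norm_neg, Real.norm_eq_abs, abs_of_nonneg (hth0 i)]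
        exact hth i
      have h3 := hm B hBn
      have h4 : ‖MRf (pB px B) px.1 φ‖ ≤ S / 2 ^ (k + 1) := by
        rw [le_div_iff₀ (by positivity), mul_comm]
        exact h3
      calc ‖(∏ i ∈ B, -(th i) : ℝ)‖ * ‖MRf (pB px B) px.1 φ‖ ≤ 1 * ‖MRf (pB px B) px.1 φ‖ :=
            mul_le_mul_of_nonneg_right h2 (norm_nonneg _)
        _ ≤ S / 2 ^ (k + 1) := by rw [one_mul]; exact h4
    refine (Finset.sum_le_sum h1).trans ?_
    rw [Finset.sum_const, nsmul_eq_mul]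
    have h5 : (((univ : Finset (Fin k)).powerset.erase ∅).card : ℝ) ≤ 2 ^ k := by
      have h6 : ((univ : Finset (Fin k)).powerset.erase ∅).card ≤
          (univ : Finset (Fin k)).powerset.card := Finset.card_erase_le
      rw [Finset.card_powerset, Finset.card_univ, Fintype.card_fin] at h6
      exact_mod_cast h6
    have h7 : 0 ≤ S / 2 ^ (k + 1) := by positivity
    calc (((univ : Finset (Fin k)).powerset.erase ∅).card : ℝ) * (S / 2 ^ (k + 1))
        ≤ 2 ^ k * (S / 2 ^ (k + 1)) := mul_le_mul_of_nonneg_right h5 h7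
      _ = S / 2 := by rw [pow_succ]; field_simp
  have hre2 : -(S / 2) ≤ (∑ B ∈ (univ : Finset (Fin k)).powerset.erase ∅, E B).re := by
    have h1 := Complex.abs_re_le_norm (∑ B ∈ (univ : Finset (Fin k)).powerset.erase ∅, E B)
    have h2 := (abs_le.mp (h1.trans hbound)).1
    exact h2
  rw [hre, hsplit]
  have h3 : S / 2 * S' ≤
      (S + (∑ B ∈ (univ : Finset (Fin k)).powerset.erase ∅, E B).re) * S' :=
    mul_le_mul_of_nonneg_right (by linarith) hS'0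
  linarith

/-- Proof. `1 - th_i ψ ≥ 1 - th_i ≥ η` (`|ψ| ≤ 1`: `C3a`), `uu ≥ 0` (`M3a_uu_nonneg`), so
`fPf ≥ η^k ∏ uu` pointwise; `P3_SS`. -/
theorem P5_eta {k : ℕ} (φ : Fin k → ℤ → ℤ) (hφ : Cp φ) (Q : ℕ) (px : Ch) (hreal : px.2 ^ 2 = 1)
    (η : ℝ) (hη : 0 ≤ η) (th : Fin k → ℝ) (hth0 : ∀ i, 0 ≤ th i) (hth : ∀ i, th i ≤ 1 - η) :
    η ^ k * SSf (pr Q) φ ≤ PMf Q px th φ := by
  have hQ0 : (0 : ℝ) < (Q.factorial : ℝ) := by exact_mod_cast Nat.factorial_pos Q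
  rw [← P3_SS φ hφ Q]
  unfold PMf
  rw [mul_div_assoc']
  refine div_le_div_of_nonneg_right ?_ hQ0.le
  rw [Finset.mul_sum]
  refine Finset.sum_le_sum fun n _ => ?_
  unfold fPf at'
  have h1 : η ^ k = ∏ _i : Fin k, η := by
    rw [Finset.prod_const, Finset.card_univ, Fintype.card_fin]
  rw [h1, ← Finset.prod_mul_distrib]
  refine Finset.prod_le_prod (fun i _ => ?_) (fun i _ => ?_)
  · exact mul_nonneg hη (M3a_uu_nonneg _ (fun l hl => (p5_mem_pr.1 hl).1) _)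
  · rw [mul_comm]
    refine mul_le_mul_of_nonneg_left ?_ (M3a_uu_nonneg _ (fun l hl => (p5_mem_pr.1 hl).1) _)
    have h2 := (abs_le.mp (C3a px hreal (φ i n)).2).2
    have h3 := mul_le_mul_of_nonneg_left h2 (hth0 i)
    have h4 := hth i
    linarith

end Pool.Agent.Lib.H24P
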