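import Pool.Agent.Lib.H24P.P0
import Pool.Agent.Lib.H59P.M3F

/-!
# Project H24P, chunk P2 (S/M): congruence preserving maps, periodicity
-/

open Finset Polynomial

namespace Pool.Agent.Lib.H24P

open Pool.Agent.Lib.H68T Pool.Agent.Lib.H18Q Pool.Agent.Lib.H59P

/-- Proof. `Polynomial.sub_dvd_eval_sub`. -/
theorem P2_ran {k : ℕ} (P : Fin k → ℤ[X]) (h : Fin k → ℕ) : Cp (ran P h) := by
  intro i q n
  have h1 := Polynomial.sub_dvd_eval_sub (n + q) n (P i)
  have h2 : n + q - n = q := by ring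
  rw [h2] at h1
  have h3 : ran P h i (n + q) - ran P h i n = (P i).eval (n + q) - (P i).eval n := by
    unfold ran
    ring
  rw [h3]
  exact h1

/-- Proof. `Fin.cases`; `Polynomial.sub_dvd_eval_sub`. -/
theorem P2_sys {k : ℕ} (B : ℤ[X]) (P : Fin k → ℤ[X]) (h : Fin k → ℕ) : Cp (sys B P h) := by
  intro i q n
  refine Fin.cases ?_ (fun j => ?_) i
  · have h1 := Polynomial.sub_dvd_eval_sub (n + q) n B
    have h2 : n + q - n = q := by ring
    rw [h2] at h1
    exact h1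
  · exact P2_ran P h j q n

/-- Proof. `l ∣ N ∣ φ i (n + N) - φ i n`; definition of `gl`. -/
theorem P2_gl {k : ℕ} (φ : Fin k → ℤ → ℤ) (hφ : Cp φ) (l N : ℕ) (hl : l ∣ N) (i : Fin k) (n : ℤ) :
    gl l (φ i (n + N)) = gl l (φ i n) := by
  have h1 : (l : ℤ) ∣ φ i (n + N) - φ i n := (Int.natCast_dvd_natCast.2 hl).trans (hφ i N n)
  obtain ⟨c, hc⟩ := h1
  have h2 : φ i (n + N) = φ i n + c * l := by linarith
  rw [h2, gl_per]

/-- Proof. `P2_gl`. -/
theorem P2_Wd {k : ℕ} (φ : Fin k → ℤ → ℤ) (hφ : Cp φ) (d N : ℕ) (hd : d ∣ N) (n : ℤ) :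
    Wdf d (at' φ (n + N)) = Wdf d (at' φ n) := by
  unfold Wdf
  refine Finset.prod_congr rfl fun l hl => ?_
  unfold Wf
  congr 1
  refine Finset.prod_congr rfl fun i _ => ?_
  congr 1
  exact P2_gl φ hφ l N ((Nat.dvd_of_mem_primeFactors hl).trans hd) i n

/-- Proof. As `M3f_per`. -/
theorem P2_Ph {k : ℕ} (φ : Fin k → ℤ → ℤ) (hφ : Cp φ) (p : Fin k → Ch) (R N : ℕ) (hN : R ∣ N)
    (hd : ∀ i, (p i).1 ∣ R) (n : ℤ) :
    Phf p R.primeFactors (at' φ (n + N)) = Phf p R.primeFactors (at' φ n) := by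
  unfold Phf
  refine Finset.prod_congr rfl fun i _ => ?_
  have h1 : uu R.primeFactors (at' φ (n + N) i) = uu R.primeFactors (at' φ n i) := by
    unfold uu
    refine Finset.prod_congr rfl fun l hl => ?_
    congr 1
    exact P2_gl φ hφ l N ((Nat.dvd_of_mem_primeFactors hl).trans hN) i n
  have h2 : cj (p i) (at' φ (n + N) i) = cj (p i) (at' φ n i) := by
    unfold cj
    have h3 : ((at' φ (n + N) i : ℤ) : ZMod (p i).1) = ((at' φ n i : ℤ) : ZMod (p i).1) := by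
      have h4 : ((p i).1 : ℤ) ∣ φ i (n + N) - φ i n :=
        (Int.natCast_dvd_natCast.2 ((hd i).trans hN)).trans (hφ i N n)
      have h5 := (ZMod.intCast_zmod_eq_zero_iff_dvd (φ i (n + N) - φ i n) (p i).1).2 h4
      rw [Int.cast_sub] at h5
      exact sub_eq_zero.1 h5
    rw [h3]
  rw [h1, h2]

end Pool.Agent.Lib.H24P
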