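import Pool.Agent.Lib.H24P.X1A
import Pool.Agent.Lib.H24P.B3
import Pool.Agent.Lib.H24P.P2
import Pool.Agent.Lib.H24P.G1

/-!
# Project H24P, chunk X1B (M): a twisted mean value, only the linear coordinate twisted
-/

open Finset Polynomial

namespace Pool.Agent.Lib.H24P

open Pool.Agent.Lib.H68T Pool.Agent.Lib.H18Q Pool.Agent.Lib.H59P

theorem x1b_pow (k : ℕ) (L : ℝ) : ((2 * L) ^ (k + 1)) ^ 2 = 4 ^ (k + 1) * L ^ (2 * k + 2) := by
  have h1 : (2 * L) ^ 2 = 4 * L ^ 2 := by ring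
  have h2 : 2 * (k + 1) = 2 * k + 2 := by ring
  rw [← pow_mul, mul_comm (k + 1) 2, pow_mul, h1, mul_pow, ← pow_mul, h2]

theorem x1b_mean (f : ℤ → ℂ) (r M : ℕ) (hf : ∀ n, f (n + r) = f n) :
    ∑ n ∈ range (M * r), f (n : ℤ) = M * ∑ n ∈ range r, f (n : ℤ) := by
  have h1 := b3_blocks (fun n : ℕ => f (n : ℤ)) M r
  rw [h1]
  have h2 : ∀ t ∈ range M, ∑ v ∈ range r, f (((t * r + v : ℕ) : ℤ)) = ∑ v ∈ range r, f (v : ℤ) := by
    intro t _
    refine Finset.sum_congr rfl fun v _ => ?_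
    have h3 := b3_perZ f r hf (t : ℤ) (v : ℤ)
    have h4 : (((t * r + v : ℕ) : ℤ)) = (v : ℤ) + r * (t : ℤ) := by
      push_cast
      ring
    rw [h4, h3]
  rw [Finset.sum_congr rfl h2, Finset.sum_const, card_range, nsmul_eq_mul]

/-- The components with bounded moduli (compare `W1_small`). -/
theorem x1b_small {k : ℕ} (B : ℤ[X]) (hB : B.natDegree = 1) (P : Fin k → ℤ[X]) (r D : ℕ) (hD : 1 ≤ D)
    (px : Ch) (hpx : px ∈ PC r) (hr : px.1 = r) (p : Fin k → Ch)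
    (hp : ∀ i, p i ∈ PC r) (T : Finset (Fin k → ℕ)) (hT : T ⊆ Fintype.piFinset (fun i => KS r (p i).1))
    (hTD : ∀ κ ∈ T, univ.lcm (fun i => (p i).1 * κ i) ≤ D)
    (hn : ∀ N : ℕ, 0 < N → N ≤ D → ¬ (r : ℤ) ∣ B.leadingCoeff * N) (h : Fin k → ℕ) (a H : ℕ) :
    ‖∑ n ∈ Ico a (a + H), gk px 1 (B.eval (n : ℤ)) *
      ∑ κ ∈ T, ∏ i, gk (p i) (κ i) ((P i).eval (n : ℤ) + h i)‖ ≤ 2 * (r : ℝ) ^ 2 * (D : ℝ) ^ (2 * k + 1) := by
  have hr1 : 1 ≤ r := by
    have := (mem_PC.1 hpx).1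
    rwa [hr] at this
  have hDr : (1 : ℝ) ≤ D := by exact_mod_cast hD
  have hrr : (0 : ℝ) ≤ r := Nat.cast_nonneg _
  have h1 : ∑ n ∈ Ico a (a + H), gk px 1 (B.eval (n : ℤ)) *
      ∑ κ ∈ T, ∏ i, gk (p i) (κ i) ((P i).eval (n : ℤ) + h i)
      = ∑ κ ∈ T, ∑ n ∈ Ico a (a + H), gk px 1 (B.eval (n : ℤ)) *
        ∏ i, gk (p i) (κ i) ((P i).eval (n : ℤ) + h i) := by
    simp_rw [mul_sum]
    exact sum_comm
  rw [h1]
  refine (norm_sum_le _ _).trans ?_
  have hKS : ∀ κ ∈ T, ∀ i, κ i ∈ KS r (p i).1 := fun κ hκ i => Fintype.mem_piFinset.mp (hT hκ) i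
  have hle : ∀ κ ∈ T, ∀ i, (p i).1 * κ i ≤ D := by
    intro κ hκ i
    have hpos : 0 < univ.lcm (fun i => (p i).1 * κ i) := by
      rw [Nat.pos_iff_ne_zero, Ne, Finset.lcm_eq_zero_iff]
      rintro ⟨j, -, hj⟩
      have h2 := (mem_PC.1 (hp j)).1
      have h3 := (CA_mem_KS.1 (hKS κ hκ j)).1
      have h4 : 1 ≤ κ j := h3.1
      have h5 : 0 < (p j).1 * κ j := Nat.mul_pos h2 h4
      omega
    exact (Nat.le_of_dvd hpos (dvd_lcm (mem_univ i))).trans (hTD κ hκ)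
  have h1KS : 1 ∈ KS r px.1 := by
    refine CA_mem_KS.2 ⟨⟨le_rfl, ?_⟩, squarefree_one, Nat.coprime_one_left _⟩
    rw [hr, Nat.div_self hr1]
  have h2 : ∀ κ ∈ T, ‖∑ n ∈ Ico a (a + H), gk px 1 (B.eval (n : ℤ)) *
      ∏ i, gk (p i) (κ i) ((P i).eval (n : ℤ) + h i)‖ ≤ 2 * (r : ℝ) ^ 2 * (D : ℝ) ^ (k + 1) := by
    intro κ hκ
    set N : ℕ := univ.lcm (fun i => (p i).1 * κ i) with hN
    have hND : N ≤ D := hTD κ hκ
    have hN0 : 0 < N := by
      rw [Nat.pos_iff_ne_zero, hN, Ne, Finset.lcm_eq_zero_iff]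
      rintro ⟨j, -, hj⟩
      have h2 := (mem_PC.1 (hp j)).1
      have h3 := (CA_mem_KS.1 (hKS κ hκ j)).1
      have h4 : 1 ≤ κ j := h3.1
      have h5 : 0 < (p j).1 * κ j := Nat.mul_pos h2 h4
      omega
    have h3 := B3_int r px hpx 1 h1KS B hB N hN0 (fun n => ∏ i, gk (p i) (κ i) ((P i).eval n + h i)) (by
      intro n
      refine prod_congr rfl fun i _ => ?_
      have h4 : (((p i).1 * κ i : ℕ) : ℤ) ∣ (P i).eval (n + N) - (P i).eval n := by
        have h5 : (n + (N : ℤ)) - n ∣ (P i).eval (n + N) - (P i).eval n := sub_dvd_eval_sub _ _ _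
        rw [add_sub_cancel_left] at h5
        refine dvd_trans ?_ h5
        have h6 : (p i).1 * κ i ∣ N := dvd_lcm (mem_univ i)
        exact_mod_cast h6
      obtain ⟨j, hj⟩ := h4
      have h7 : (P i).eval (n + N) + (h i : ℤ) = ((P i).eval n + h i) + (((p i).1 * κ i : ℕ) : ℤ) * j := by
        linarith
      rw [h7]
      exact gk_period _ _ _ _) ((D : ℝ) ^ k) (by
      intro n
      rw [norm_prod]
      calc ∏ i, ‖gk (p i) (κ i) ((P i).eval n + h i)‖ ≤ ∏ _i : Fin k, (D : ℝ) := by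
            refine prod_le_prod (fun i _ => norm_nonneg _) fun i _ => ?_
            obtain ⟨hr1, hrQ, hprim⟩ := mem_PC.1 (hp i)
            obtain ⟨hI, hsq, hcop⟩ := CA_mem_KS.1 (hKS κ hκ i)
            have hk1 : 1 ≤ κ i := hI.1
            have hiD := hle κ hκ i
            refine gk_bound D (p i) (mem_PC.2 ⟨hr1, ?_, hprim⟩) (κ i) (CA_mem_KS.2 ⟨?_, hsq, hcop⟩) _
            · exact (Nat.le_mul_of_pos_right _ hk1).trans hiD
            · refine ⟨hk1, ?_⟩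
              rw [Nat.le_div_iff_mul_le hr1, mul_comm]
              exact hiD
        _ = (D : ℝ) ^ k := by rw [prod_const, card_univ, Fintype.card_fin]) (by
      rw [mul_one, hr]
      exact hn N hN0 hND) a H
    refine h3.trans ?_
    have hNr : (N : ℝ) ≤ D := by exact_mod_cast hND
    calc 2 * ((r : ℝ) * N) * (r * (D : ℝ) ^ k) ≤ 2 * ((r : ℝ) * D) * (r * (D : ℝ) ^ k) := by gcongr
      _ = 2 * (r : ℝ) ^ 2 * (D : ℝ) ^ (k + 1) := by ring
  refine (sum_le_sum h2).trans ?_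
  rw [sum_const, nsmul_eq_mul]
  have hcard : (T.card : ℝ) ≤ (D : ℝ) ^ k := by
    have h3 : T ⊆ Fintype.piFinset (fun _ : Fin k => Icc 1 D) := by
      intro κ hκ
      refine Fintype.mem_piFinset.mpr fun i => ?_
      obtain ⟨hI, -, -⟩ := CA_mem_KS.1 (hKS κ hκ i)
      have hr1 := (mem_PC.1 (hp i)).1
      refine mem_Icc.mpr ⟨hI.1, ?_⟩
      exact (Nat.le_mul_of_pos_left _ hr1).trans (hle κ hκ i)
    have h4 := card_le_card h3
    rw [Fintype.card_piFinset] at h4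
    simp only [Nat.card_Icc, add_tsub_cancel_right, prod_const, card_univ, Fintype.card_fin] at h4
    exact_mod_cast h4
  calc (T.card : ℝ) * (2 * (r : ℝ) ^ 2 * (D : ℝ) ^ (k + 1)) ≤
        (D : ℝ) ^ k * (2 * (r : ℝ) ^ 2 * (D : ℝ) ^ (k + 1)) :=
        mul_le_mul_of_nonneg_right hcard (by positivity)
    _ = 2 * (r : ℝ) ^ 2 * (D : ℝ) ^ (2 * k + 1) := by ring

/-- the function in the mean, expanded -/
theorem x1b_exp {k : ℕ} (Q : ℕ) (px : Ch) (hpx : px ∈ PC Q) (B : ℤ[X]) (P : Fin k → ℤ[X])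
    (h : Fin k → ℕ) (n : ℤ) :
    Phf (pB px ({0} : Finset (Fin (k + 1)))) px.1.primeFactors (at' (sys B P h) n) =
      gk px 1 (B.eval n) * ∑ κ ∈ KT px (∅ : Finset (Fin k)),
        ∏ i, gk (pB px ∅ i) (κ i) ((P i).eval n + h i) := by
  classical
  obtain ⟨hr1, -, -⟩ := mem_PC.1 hpx
  rw [← X1A_expand Q px hpx ∅ (fun i => (P i).eval n + h i)]
  unfold Phf at'
  rw [Fin.prod_univ_succ]
  have e0 : sys B P h 0 n = B.eval n := rfl
  have e1 : ∀ i : Fin k, sys B P h i.succ n = (P i).eval n + h i := fun i => rfl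
  have e2 : pB px ({0} : Finset (Fin (k + 1))) 0 = px := by
    unfold pB
    rw [if_pos (Finset.mem_singleton_self _)]
  have e3 : ∀ i : Fin k, pB px ({0} : Finset (Fin (k + 1))) i.succ = pB px ∅ i := by
    intro i
    unfold pB
    rw [if_neg (by
      rw [Finset.mem_singleton]
      exact Fin.succ_ne_zero i), if_neg (Finset.notMem_empty _)]
  rw [e0, e2]
  have e4 : cj px (B.eval n) * ((uu px.1.primeFactors (B.eval n) : ℝ) : ℂ) = gk px 1 (B.eval n) := by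
    rw [← B1_SD px.1 hr1 px dvd_rfl (B.eval n), x1a_SD1 px.1 hr1, Finset.sum_singleton]
  rw [e4]
  refine congrArg (fun z => gk px 1 (B.eval n) * z) (Finset.prod_congr rfl fun i _ => ?_)
  rw [e1, e3 i]

/-- **X1B.** Proof. Here `Bs = {0}`. As in `X1A_main`: `MRf (pB px {0}) r (sys B P h) = (1/r) ∑_{n<r} gk px 1 (B n)
∑_{κ ∈ KT px ∅} ∏ gk p0 κ_i (P_i(n) + h_i)` (`X1A_expand`; the random coordinates are not twisted). All is periodic modulo
`r`, so it is also `(1/H) ∑_{n<H}` for `H = r^5`. Let `D = fl r (1/(2k+2))`. The `κ` with `lcm κ > D`: `Fgen` at the level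
`r` (`p = p0` at all coordinates), `H = r^5`, weight `gk px 1 (B n)`, bounded by `r/φ(r) ≤ 2 (1+log r)` (`M3b`).
The `κ` with `N = lcm κ ≤ D` (at most `D^k` of them): `ψ(n) = ∏ gk p0 κ_i (P_i(n) + h_i)` has period `N`
and is bounded by `1` (`gk p0 κ m = ∏_{l ∣ κ} gl l m`, `|gl| ≤ 1`), and `r` does not divide `a N` if `|a| D < r`
(`a = lc B ≠ 0`): `B3_int` with `Q = r`: error `2 r D · r` for each, in total at most `2 r^3` for each `h`, divided by
`H = r^5`. If `|a| D ≥ r`, then `r` is bounded in terms of `A` (`D ≤ r^(1/2)`), and the trivial bound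
`‖MRf‖ ≤ (2(1+log r))^(k+1)` suffices (`P0_MR`, `M3b`), with a large constant `C`. -/
theorem X1B_main (k A : ℕ) (hA : 1 ≤ A) : ∃ C c : ℝ, 1 ≤ C ∧ 0 < c ∧ c ≤ 1 ∧ ∀ B : ℤ[X], Lin A B →
    ∀ P : Fin k → ℤ[X], Pol A P → ∀ (Q : ℕ) (px : Ch), px ∈ PC Q → 2 ≤ px.1 →
    ∀ b s : Fin k → ℕ, (∀ i, px.1 ^ 4 ≤ s i) →
    ∑ h ∈ cub b s, ‖MRf (pB px ({0} : Finset (Fin (k + 1)))) px.1 (sys B P h)‖ ^ 2 ≤
      C * (1 + Real.log px.1) ^ C * vol s * (px.1 : ℝ) ^ (-c) := by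
  classical
  obtain ⟨Cc, cc, hCc1, hcc0, hcc1, hF⟩ := Fgen k A hA
  set x : ℝ := 1 / (2 * k + 2) with hx
  have hk0 : (0 : ℝ) ≤ k := Nat.cast_nonneg _
  have hx0 : 0 < x := by positivity
  have hx1 : x ≤ 1 / 2 := by
    rw [hx]
    exact one_div_le_one_div_of_le (by norm_num) (by linarith)
  have hA1 : (1 : ℝ) ≤ A := by exact_mod_cast hA
  have h4k : (1 : ℝ) ≤ 4 ^ (k + 1) := one_le_pow₀ (by norm_num)
  set c : ℝ := cc * x with hc
  have hc0 : 0 < c := mul_pos hcc0 hx0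
  have hc1 : c ≤ 1 := by
    calc cc * x ≤ 1 * 1 := mul_le_mul hcc1 (by linarith) hx0.le zero_le_one
      _ = 1 := one_mul 1
  set C : ℝ := 16 * Cc + 8 + 4 ^ (k + 1) * A ^ 2 + 2 * k with hC
  have hbig : 0 ≤ (4 : ℝ) ^ (k + 1) * A ^ 2 := by positivity
  refine ⟨C, c, by linarith, hc0, hc1, ?_⟩
  intro B hB P hP Q px hpx hr2 b s hs
  obtain ⟨hr1, -, hprim⟩ := mem_PC.1 hpx
  set r := px.1 with hr
  have hrR : (2 : ℝ) ≤ r := by exact_mod_cast hr2
  have hr0 : (0 : ℝ) < r := by linarith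
  have hrge1 : (1 : ℝ) ≤ r := by linarith
  have hlog : 0 ≤ Real.log r := Real.log_natCast_nonneg r
  have hL1 : 1 ≤ 1 + Real.log r := by linarith
  have hv : 0 ≤ vol s := prod_nonneg fun i _ => by positivity
  have hcardv : ((cub b s).card : ℝ) = vol s := by
    unfold cub vol
    rw [Fintype.card_piFinset]
    simp
  have hrc : 0 < (r : ℝ) ^ (-c) := Real.rpow_pos_of_pos hr0 _
  have hLC0 : 0 ≤ (1 + Real.log r) ^ C := Real.rpow_nonneg (by linarith) _
  have hCpos : 0 < C := by linarith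
  set D : ℕ := fl r x with hD
  obtain ⟨hD1, hD2, -⟩ := G1_one (Q := r) hr1 hx0.le
  rw [← hD] at hD1 hD2
  by_cases hcase : r ≤ A * D
  · -- r is bounded
    have hrA : (r : ℝ) ≤ (A : ℝ) ^ 2 := by
      have h1 : (r : ℝ) ≤ A * D := by exact_mod_cast hcase
      have h2 : (D : ℝ) ≤ (r : ℝ) ^ (1 / 2 : ℝ) :=
        hD2.trans (Real.rpow_le_rpow_of_exponent_le hrge1 hx1)
      have h3 : (r : ℝ) ≤ A * (r : ℝ) ^ (1 / 2 : ℝ) :=
        h1.trans (mul_le_mul_of_nonneg_left h2 (by linarith))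
      have h4 : (r : ℝ) ^ (1 / 2 : ℝ) * (r : ℝ) ^ (1 / 2 : ℝ) = r := by
        rw [← Real.rpow_add hr0]
        norm_num
      have h5 : 0 < (r : ℝ) ^ (1 / 2 : ℝ) := Real.rpow_pos_of_pos hr0 _
      have h6 : (r : ℝ) ^ (1 / 2 : ℝ) ≤ A := by
        by_contra h7
        push Not at h7
        have := mul_lt_mul_of_pos_right h7 h5
        rw [h4] at this
        linarith
      calc (r : ℝ) = (r : ℝ) ^ (1 / 2 : ℝ) * (r : ℝ) ^ (1 / 2 : ℝ) := h4.symm
        _ ≤ A * A := mul_le_mul h6 h6 h5.le (by linarith)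
        _ = (A : ℝ) ^ 2 := (sq _).symm
    have hone : ∀ h ∈ cub b s, ‖MRf (pB px ({0} : Finset (Fin (k + 1)))) r (sys B P h)‖ ^ 2 ≤
        4 ^ (k + 1) * (1 + Real.log r) ^ C := by
      intro h _
      have h1 := P0_MR (pB px ({0} : Finset (Fin (k + 1)))) r hr1 (sys B P h)
      have h2 : ((r : ℝ) / (Nat.totient r : ℝ)) ^ (k + 1) ≤ (2 * (1 + Real.log r)) ^ (k + 1) :=
        pow_le_pow_left₀ (by positivity) (M3b r hr1) _
      have h3 := pow_le_pow_left₀ (norm_nonneg _) (h1.trans h2) 2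
      refine h3.trans ?_
      have h4 : ((2 * (1 + Real.log r)) ^ (k + 1)) ^ 2 =
          4 ^ (k + 1) * (1 + Real.log r) ^ ((2 * k + 2 : ℕ) : ℝ) := by
        rw [Real.rpow_natCast]
        exact x1b_pow k _
      rw [h4]
      refine mul_le_mul_of_nonneg_left ?_ (by positivity)
      refine Real.rpow_le_rpow_of_exponent_le hL1 ?_
      push_cast
      linarith
    refine (Finset.sum_le_sum hone).trans ?_
    rw [Finset.sum_const, nsmul_eq_mul, hcardv]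
    have h5 : 1 ≤ (A : ℝ) ^ 2 * (r : ℝ) ^ (-c) := by
      have h6 : (r : ℝ) ^ (-(1 : ℝ)) ≤ (r : ℝ) ^ (-c) :=
        Real.rpow_le_rpow_of_exponent_le hrge1 (by linarith)
      rw [Real.rpow_neg_one] at h6
      calc (1 : ℝ) = r * (r : ℝ)⁻¹ := (mul_inv_cancel₀ hr0.ne').symm
        _ ≤ (A : ℝ) ^ 2 * (r : ℝ) ^ (-c) := mul_le_mul hrA h6 (by positivity) (by positivity)
    calc vol s * (4 ^ (k + 1) * (1 + Real.log r) ^ C)
        = 4 ^ (k + 1) * (1 + Real.log r) ^ C * vol s * 1 := by ring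
      _ ≤ 4 ^ (k + 1) * (1 + Real.log r) ^ C * vol s * ((A : ℝ) ^ 2 * (r : ℝ) ^ (-c)) :=
          mul_le_mul_of_nonneg_left h5 (by positivity)
      _ = (4 ^ (k + 1) * A ^ 2) * ((1 + Real.log r) ^ C * vol s * (r : ℝ) ^ (-c)) := by ring
      _ ≤ C * ((1 + Real.log r) ^ C * vol s * (r : ℝ) ^ (-c)) := by
          refine mul_le_mul_of_nonneg_right ?_ (by positivity)
          rw [hC]
          linarith
      _ = C * (1 + Real.log r) ^ C * vol s * (r : ℝ) ^ (-c) := by ring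
  · -- the main case
    push Not at hcase
    have hnd : ∀ N : ℕ, 0 < N → N ≤ D → ¬ (r : ℤ) ∣ B.leadingCoeff * N := by
      intro N hN hND hdv
      have h1 : r ∣ (B.leadingCoeff * (N : ℤ)).natAbs := Int.natCast_dvd.1 hdv
      rw [Int.natAbs_mul, Int.natAbs_natCast] at h1
      have hlc : 0 < B.leadingCoeff.natAbs := by
        rw [Int.natAbs_pos, Ne, leadingCoeff_eq_zero]
        intro h3
        have h4 := hB.deg
        rw [h3, natDegree_zero] at h4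
        omega
      have h2 := Nat.le_of_dvd (Nat.mul_pos hlc hN) h1
      have h3 : B.leadingCoeff.natAbs * N ≤ A * D := Nat.mul_le_mul hB.lc hND
      omega
    have hsub := X1A_sub Q px hpx (∅ : Finset (Fin k))
    have hpxr : px ∈ PC r := mem_PC.2 ⟨hr1, le_rfl, hprim⟩
    set p := pB px (∅ : Finset (Fin k)) with hp
    set T1 := (KT px (∅ : Finset (Fin k))).filter (fun κ => univ.lcm (fun i => (p i).1 * κ i) ≤ D) with hT1
    set T2 := (KT px (∅ : Finset (Fin k))).filter (fun κ => ¬ univ.lcm (fun i => (p i).1 * κ i) ≤ D) with hT2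
    set w : ℕ → ℂ := fun n => gk px 1 (B.eval (n : ℤ)) with hw
    set M : ℕ := r ^ 4 with hM
    set H : ℕ := M * r with hH
    have hHr : (H : ℝ) = (r : ℝ) ^ 5 := by
      rw [hH, hM]
      push_cast
      ring
    have hH0 : (0 : ℝ) < H := by rw [hHr]; positivity
    have hrH : r ≤ H := Nat.le_mul_of_pos_left _ (Nat.pow_pos hr1)
    have hwn : ∀ n, ‖w n‖ ≤ 2 * (1 + Real.log r) := by
      intro n
      have e4 : cj px (B.eval (n : ℤ)) * ((uu px.1.primeFactors (B.eval (n : ℤ)) : ℝ) : ℂ) =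
          gk px 1 (B.eval (n : ℤ)) := by
        rw [← B1_SD px.1 hr1 px dvd_rfl (B.eval (n : ℤ)), x1a_SD1 px.1 hr1, Finset.sum_singleton]
      rw [hw]
      beta_reduce
      rw [← e4, norm_mul, Complex.norm_real, Real.norm_eq_abs, abs_of_nonneg (M3a_uu r hr1 _).1]
      calc _ ≤ 1 * ((r : ℝ) / (Nat.totient r : ℝ)) :=
            mul_le_mul (x1_cj_norm _ _) (M3a_uu r hr1 _).2 (M3a_uu r hr1 _).1 zero_le_one
        _ = (r : ℝ) / (Nat.totient r : ℝ) := one_mul _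
        _ ≤ _ := M3b r hr1
    have hsum : ∀ h : Fin k → ℕ, (H : ℂ) * MRf (pB px ({0} : Finset (Fin (k + 1)))) r (sys B P h) =
        ∑ n ∈ Ico 0 (0 + H), w n * ∑ κ ∈ T1, ∏ i, gk (p i) (κ i) ((P i).eval (n : ℤ) + h i) +
        ∑ n ∈ Ico 0 (0 + H), w n * ∑ κ ∈ T2, ∏ i, gk (p i) (κ i) ((P i).eval (n : ℤ) + h i) := by
      intro h
      have hr0c : (r : ℂ) ≠ 0 := by exact_mod_cast hr0.ne'
      have h1 := x1b_mean (fun n => Phf (pB px ({0} : Finset (Fin (k + 1)))) r.primeFactors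
        (at' (sys B P h) n)) r M (fun n => P2_Ph (sys B P h) (P2_sys B P h) _ r r dvd_rfl (by
          intro i
          unfold pB
          split_ifs
          · exact dvd_rfl
          · exact one_dvd _) n)
      have h2 : (H : ℂ) * MRf (pB px ({0} : Finset (Fin (k + 1)))) r (sys B P h) =
          ∑ n ∈ range (M * r), Phf (pB px ({0} : Finset (Fin (k + 1)))) r.primeFactors
            (at' (sys B P h) (n : ℤ)) := by
        rw [h1]
        unfold MRf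
        rw [hH]
        push_cast
        field_simp
      rw [h2, ← Finset.sum_add_distrib, zero_add, Nat.Ico_zero_eq_range]
      refine Finset.sum_congr rfl fun n _ => ?_
      rw [← mul_add, hT1, hT2, Finset.sum_filter_add_sum_filter_not]
      exact x1b_exp Q px hpx B P h (n : ℤ)
    have hS1 : ∀ h : Fin k → ℕ, ‖∑ n ∈ Ico 0 (0 + H), w n *
        ∑ κ ∈ T1, ∏ i, gk (p i) (κ i) ((P i).eval (n : ℤ) + h i)‖ ≤ 2 * (r : ℝ) ^ 3 := by
      intro h
      refine (x1b_small B hB.deg P r D hD1 px hpxr rfl p hsub.2 T1 ((filter_subset _ _).trans hsub.1)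
        (fun κ hκ => (mem_filter.mp hκ).2) hnd h 0 H).trans ?_
      have h2 : (D : ℝ) ^ (2 * k + 1) ≤ r := by
        calc (D : ℝ) ^ (2 * k + 1) ≤ ((r : ℝ) ^ x) ^ (2 * k + 1) :=
              pow_le_pow_left₀ (by positivity) hD2 _
          _ = (r : ℝ) ^ (x * ((2 * k + 1 : ℕ) : ℝ)) := by
              rw [← Real.rpow_natCast, ← Real.rpow_mul hr0.le]
          _ ≤ (r : ℝ) ^ (1 : ℝ) := by
              refine Real.rpow_le_rpow_of_exponent_le hrge1 ?_
              rw [hx, div_mul_eq_mul_div, one_mul, div_le_one (by positivity)]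
              push_cast
              linarith
          _ = r := Real.rpow_one _
      calc 2 * (r : ℝ) ^ 2 * (D : ℝ) ^ (2 * k + 1) ≤ 2 * (r : ℝ) ^ 2 * r :=
            mul_le_mul_of_nonneg_left h2 (by positivity)
        _ = 2 * (r : ℝ) ^ 3 := by ring
    have hB2 := hF P hP r hr1 p hsub.2 T2 ((filter_subset _ _).trans hsub.1) D hD1
      (fun κ hκ => not_le.mp (mem_filter.mp hκ).2) b s hs 0 H hrH w
    have hW : ∑ n ∈ Ico 0 (0 + H), ‖w n‖ ^ 2 ≤ H * (4 * (1 + Real.log r) ^ 2) := by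
      calc ∑ n ∈ Ico 0 (0 + H), ‖w n‖ ^ 2 ≤ ∑ _n ∈ Ico 0 (0 + H), 4 * (1 + Real.log r) ^ 2 := by
            refine Finset.sum_le_sum fun n _ => ?_
            have h1 := pow_le_pow_left₀ (norm_nonneg _) (hwn n) 2
            calc ‖w n‖ ^ 2 ≤ (2 * (1 + Real.log r)) ^ 2 := h1
              _ = _ := by ring
        _ = _ := by
            rw [Finset.sum_const, Nat.card_Ico, nsmul_eq_mul, zero_add, Nat.sub_zero]
    have hneg : (D : ℝ) ^ (-cc) ≤ 2 * (r : ℝ) ^ (-c) := by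
      refine (G1_neg hr1 hx0.le hcc0.le).trans ?_
      refine mul_le_mul_of_nonneg_right ?_ (by positivity)
      calc (2 : ℝ) ^ cc ≤ 2 ^ (1 : ℝ) := Real.rpow_le_rpow_of_exponent_le (by norm_num) hcc1
        _ = 2 := Real.rpow_one 2
    have hLc : (1 + Real.log r) ^ Cc * (1 + Real.log r) ^ 2 ≤ (1 + Real.log r) ^ C := by
      rw [← Real.rpow_natCast (1 + Real.log r) 2, ← Real.rpow_add (by linarith)]
      refine Real.rpow_le_rpow_of_exponent_le hL1 ?_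
      push_cast
      linarith
    have hS2 : ∑ h ∈ cub b s, ‖∑ n ∈ Ico 0 (0 + H), w n *
        ∑ κ ∈ T2, ∏ i, gk (p i) (κ i) ((P i).eval (n : ℤ) + h i)‖ ^ 2 ≤
        (H : ℝ) ^ 2 * (8 * Cc * ((1 + Real.log r) ^ C * vol s * (r : ℝ) ^ (-c))) := by
      refine hB2.trans ?_
      have h0 : 0 ≤ (1 + Real.log r) ^ Cc := Real.rpow_nonneg (by linarith) _
      have hD0 : 0 ≤ (D : ℝ) ^ (-cc) := Real.rpow_nonneg (Nat.cast_nonneg _) _
      calc Cc * (1 + Real.log r) ^ Cc * vol s * (H * ∑ n ∈ Ico 0 (0 + H), ‖w n‖ ^ 2) * (D : ℝ) ^ (-cc)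
          ≤ Cc * (1 + Real.log r) ^ Cc * vol s * (H * (H * (4 * (1 + Real.log r) ^ 2))) *
            (2 * (r : ℝ) ^ (-c)) := by
            refine mul_le_mul ?_ hneg hD0 (by positivity)
            refine mul_le_mul_of_nonneg_left ?_ (by positivity)
            exact mul_le_mul_of_nonneg_left hW hH0.le
        _ = (H : ℝ) ^ 2 * (8 * Cc * (((1 + Real.log r) ^ Cc * (1 + Real.log r) ^ 2) * vol s *
            (r : ℝ) ^ (-c))) := by ring
        _ ≤ (H : ℝ) ^ 2 * (8 * Cc * ((1 + Real.log r) ^ C * vol s * (r : ℝ) ^ (-c))) := by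
            refine mul_le_mul_of_nonneg_left ?_ (by positivity)
            refine mul_le_mul_of_nonneg_left ?_ (by positivity)
            refine mul_le_mul_of_nonneg_right ?_ hrc.le
            exact mul_le_mul_of_nonneg_right hLc hv
    have hS1' : ∑ h ∈ cub b s, ‖∑ n ∈ Ico 0 (0 + H), w n *
        ∑ κ ∈ T1, ∏ i, gk (p i) (κ i) ((P i).eval (n : ℤ) + h i)‖ ^ 2 ≤
        (H : ℝ) ^ 2 * (4 * ((1 + Real.log r) ^ C * vol s * (r : ℝ) ^ (-c))) := by
      have h1 : ∀ h ∈ cub b s, ‖∑ n ∈ Ico 0 (0 + H), w n *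
          ∑ κ ∈ T1, ∏ i, gk (p i) (κ i) ((P i).eval (n : ℤ) + h i)‖ ^ 2 ≤ 4 * (r : ℝ) ^ 6 := by
        intro h _
        refine (pow_le_pow_left₀ (norm_nonneg _) (hS1 h) 2).trans (le_of_eq ?_)
        ring
      refine (Finset.sum_le_sum h1).trans ?_
      rw [Finset.sum_const, nsmul_eq_mul, hcardv, hHr]
      have h2 : (r : ℝ) ^ (-(1 : ℝ)) ≤ (r : ℝ) ^ (-c) :=
        Real.rpow_le_rpow_of_exponent_le hrge1 (by linarith)
      rw [Real.rpow_neg_one] at h2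
      have h3 : 1 ≤ (1 + Real.log r) ^ C := Real.one_le_rpow hL1 hCpos.le
      have h4 : (r : ℝ) ^ 6 ≤ (r : ℝ) ^ 10 * (r : ℝ)⁻¹ := by
        have h5 : (r : ℝ) ^ 10 * (r : ℝ)⁻¹ = (r : ℝ) ^ 9 := by
          field_simp
        rw [h5]
        exact pow_le_pow_right₀ hrge1 (by norm_num)
      calc vol s * (4 * (r : ℝ) ^ 6) ≤ vol s * (4 * ((r : ℝ) ^ 10 * (r : ℝ)⁻¹)) := by
            refine mul_le_mul_of_nonneg_left ?_ hv
            linarith
        _ ≤ vol s * (4 * ((r : ℝ) ^ 10 * (r : ℝ) ^ (-c))) := by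
            refine mul_le_mul_of_nonneg_left ?_ hv
            have := mul_le_mul_of_nonneg_left h2 (show (0 : ℝ) ≤ (r : ℝ) ^ 10 by positivity)
            linarith
        _ = 1 * (((r : ℝ) ^ 5) ^ 2 * (4 * (vol s * (r : ℝ) ^ (-c)))) := by ring
        _ ≤ (1 + Real.log r) ^ C * (((r : ℝ) ^ 5) ^ 2 * (4 * (vol s * (r : ℝ) ^ (-c)))) :=
            mul_le_mul_of_nonneg_right h3 (by positivity)
        _ = ((r : ℝ) ^ 5) ^ 2 * (4 * ((1 + Real.log r) ^ C * vol s * (r : ℝ) ^ (-c))) := by ring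
    have hpt : ∀ h ∈ cub b s, (H : ℝ) ^ 2 *
        ‖MRf (pB px ({0} : Finset (Fin (k + 1)))) r (sys B P h)‖ ^ 2 ≤
        2 * ‖∑ n ∈ Ico 0 (0 + H), w n * ∑ κ ∈ T1, ∏ i, gk (p i) (κ i) ((P i).eval (n : ℤ) + h i)‖ ^ 2 +
        2 * ‖∑ n ∈ Ico 0 (0 + H), w n *
          ∑ κ ∈ T2, ∏ i, gk (p i) (κ i) ((P i).eval (n : ℤ) + h i)‖ ^ 2 := by
      intro h _
      have h1 : (H : ℝ) * ‖MRf (pB px ({0} : Finset (Fin (k + 1)))) r (sys B P h)‖ =
          ‖(H : ℂ) * MRf (pB px ({0} : Finset (Fin (k + 1)))) r (sys B P h)‖ := by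
        rw [norm_mul, Complex.norm_natCast]
      rw [← mul_pow, h1, hsum h]
      refine (pow_le_pow_left₀ (norm_nonneg _) (norm_add_le _ _) 2).trans ?_
      nlinarith [sq_nonneg (‖∑ n ∈ Ico 0 (0 + H), w n *
        ∑ κ ∈ T1, ∏ i, gk (p i) (κ i) ((P i).eval (n : ℤ) + h i)‖ - ‖∑ n ∈ Ico 0 (0 + H), w n *
        ∑ κ ∈ T2, ∏ i, gk (p i) (κ i) ((P i).eval (n : ℤ) + h i)‖)]
    have htot := Finset.sum_le_sum hpt
    rw [← Finset.mul_sum, Finset.sum_add_distrib, ← Finset.mul_sum, ← Finset.mul_sum] at htot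
    set Z : ℝ := (1 + Real.log r) ^ C * vol s * (r : ℝ) ^ (-c) with hZ
    have hZ0 : 0 ≤ Z := by positivity
    have h6 : (H : ℝ) ^ 2 * ∑ h ∈ cub b s, ‖MRf (pB px ({0} : Finset (Fin (k + 1)))) r (sys B P h)‖ ^ 2 ≤
        (H : ℝ) ^ 2 * ((16 * Cc + 8) * Z) := by
      refine htot.trans ?_
      calc 2 * _ + 2 * _ ≤ 2 * ((H : ℝ) ^ 2 * (4 * Z)) + 2 * ((H : ℝ) ^ 2 * (8 * Cc * Z)) :=
            add_le_add (mul_le_mul_of_nonneg_left hS1' (by norm_num))
              (mul_le_mul_of_nonneg_left hS2 (by norm_num))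
        _ = (H : ℝ) ^ 2 * ((16 * Cc + 8) * Z) := by ring
    have h7 := le_of_mul_le_mul_left h6 (by positivity)
    refine h7.trans ?_
    calc (16 * Cc + 8) * Z ≤ C * Z := by
          refine mul_le_mul_of_nonneg_right ?_ hZ0
          rw [hC]
          linarith
      _ = C * (1 + Real.log r) ^ C * vol s * (r : ℝ) ^ (-c) := by
          rw [hZ]
          ring

end Pool.Agent.Lib.H24P
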