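import Pool.Agent.Lib.H24P.T1
import Pool.Agent.Lib.H24P.G1
import Pool.Agent.Lib.Helper57.Mertens

/-!
# Project H24P, chunk X2 (M): lower bound for the singular series
-/

open Finset Polynomial

namespace Pool.Agent.Lib.H24P

open Pool.Agent.Lib.H68T Pool.Agent.Lib.H18Q Pool.Agent.Lib.H59P

theorem x2_exp (x : ℝ) (hx0 : 0 ≤ x) (hx : x ≤ 1 / 2) : Real.exp (-(2 * x)) ≤ 1 - x := by
  have h1 : 0 < 1 - x := by linarith
  have h2 : 1 + 2 * x ≤ Real.exp (2 * x) := by linarith [Real.add_one_le_exp (2 * x)]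
  have h3 : 1 ≤ (1 - x) * (1 + 2 * x) := by nlinarith
  rw [Real.exp_neg, inv_le_comm₀ (Real.exp_pos _) h1]
  refine le_trans ?_ h2
  rw [inv_le_iff_one_le_mul₀ h1]
  linarith [mul_comm (1 - x) (1 + 2 * x)]

theorem x2_sum (Q : ℕ) (hQ : 2 ≤ Q) (P' : Finset ℕ) (hP' : P' ⊆ pr Q) :
    Real.exp (∑ l ∈ P', 1 / (l : ℝ)) ≤ 500 * (1 + Real.log Q) := by
  have hsub : P' ⊆ Pool.Agent.Lib.Sieve.primesUpTo Q := by
    intro l hl
    have h1 := hP' hl
    unfold pr at h1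
    rw [mem_filter, mem_Icc] at h1
    unfold Pool.Agent.Lib.Sieve.primesUpTo
    rw [mem_filter, mem_range]
    exact ⟨Nat.lt_succ_of_le h1.1.2, h1.2⟩
  have h1 : ∑ l ∈ P', 1 / (l : ℝ) ≤ ∑ l ∈ Pool.Agent.Lib.Sieve.primesUpTo Q, 1 / (l : ℝ) :=
    Finset.sum_le_sum_of_subset_of_nonneg hsub fun _ _ _ => by positivity
  have h2 : Real.exp (∑ l ∈ Pool.Agent.Lib.Sieve.primesUpTo Q, 1 / (l : ℝ)) ≤
      ∏ l ∈ Pool.Agent.Lib.Sieve.primesUpTo Q, (1 - 1 / (l : ℝ))⁻¹ := by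
    rw [Real.exp_sum]
    apply Finset.prod_le_prod
    · intro l _
      exact (Real.exp_pos _).le
    · intro l hl
      unfold Pool.Agent.Lib.Sieve.primesUpTo at hl
      rw [mem_filter] at hl
      have h3 : (2 : ℝ) ≤ l := by exact_mod_cast hl.2.two_le
      have h4 : 1 / (l : ℝ) ≤ 1 / 2 := one_div_le_one_div_of_le (by norm_num) h3
      have h5 : 0 < 1 - 1 / (l : ℝ) := by linarith
      have h6 := Real.add_one_le_exp (-(1 / (l : ℝ)))
      rw [le_inv_comm₀ (Real.exp_pos _) h5, ← Real.exp_neg]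
      linarith
  have h3 := Pool.Agent.Lib.Helper57.prod_one_sub_inv_inv_le Q hQ
  refine (Real.exp_le_exp.2 h1).trans (h2.trans (h3.trans ?_))
  linarith

/-- Proof. `|tpf| ≤ C1/l` (`T1_abs`). For `l > 2 C1`: `1 + tpf ≥ 1 - C1/l ≥ exp(-2 C1/l)`; for `l ≤ 2 C1`:
`1 + tpf ≥ 1/l ≥ 1/(2 C1)` (`T1_low`), and there are at most `2 C1` such primes. `exp(∑_{l ≤ Q} 1/l) ≤ ∏ (1 - 1/l)⁻¹ ≤ 500 log Q`
(`Helper57.prod_one_sub_inv_inv_le`; all primes in `P'` are `≤ Q`). So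
`SSf ≥ (2 C1)^(-2 C1) (500 log Q)^(-2 C1)`. -/
theorem X2_low (k A : ℕ) (hA : 1 ≤ A) : ∃ C c : ℝ, 1 ≤ C ∧ 0 < c ∧ ∀ B : ℤ[X], Lin A B →
    ∀ P : Fin k → ℤ[X], Pol A P → ∀ h : Fin k → ℕ, NoFix (sys B P h) → ∀ Q : ℕ, 2 ≤ Q →
    ∀ P' : Finset ℕ, P' ⊆ pr Q → c * (1 + Real.log Q) ^ (-C) ≤ SSf P' (sys B P h) := by
  classical
  obtain ⟨C1, hC1, hT⟩ := T1_abs k A hA
  obtain ⟨N, hN⟩ : ∃ N, N = ⌊2 * C1⌋₊ := ⟨_, rfl⟩
  have hC0 : 0 < 2 * C1 := by linarith
  refine ⟨2 * C1, (1 / (2 * C1)) ^ N * 500 ^ (-(2 * C1)), by linarith, by positivity, ?_⟩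
  intro B hB P hP h hNF Q hQ P' hP'
  have hQ1 : (1 : ℝ) ≤ Q := by exact_mod_cast (by omega : 1 ≤ Q)
  have hlog : 0 ≤ Real.log Q := Real.log_nonneg hQ1
  have hprime : ∀ l ∈ P', l.Prime := by
    intro l hl
    have h1 := hP' hl
    unfold pr at h1
    exact (mem_filter.1 h1).2
  have hfl : ∀ l ∈ P', (if l ≤ N then 1 / (2 * C1) else 1) * Real.exp (-(2 * C1 * (1 / (l : ℝ)))) ≤
      1 + tpf l (sys B P h) := by
    intro l hl
    have hlp := hprime l hl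
    have hl0 : (0 : ℝ) < l := by exact_mod_cast hlp.pos
    split_ifs with h1
    · have h2 := T1_low B P h hNF l hlp
      have h3 : (l : ℝ) ≤ 2 * C1 := by
        have h4 : (l : ℝ) ≤ (N : ℝ) := Nat.cast_le.2 h1
        refine h4.trans ?_
        rw [hN]
        exact Nat.floor_le hC0.le
      have h4 : 1 / (2 * C1) ≤ 1 / (l : ℝ) := one_div_le_one_div_of_le hl0 h3
      have h5 : Real.exp (-(2 * C1 * (1 / (l : ℝ)))) ≤ 1 := by
        rw [Real.exp_le_one_iff]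
        have : 0 ≤ 2 * C1 * (1 / (l : ℝ)) := by positivity
        linarith
      have h6 : 0 ≤ 1 / (2 * C1) := by positivity
      exact (mul_le_of_le_one_right h6 h5).trans (h4.trans h2)
    · have h2 : 2 * C1 < l := by
        rw [not_le, hN] at h1
        exact (Nat.floor_lt hC0.le).1 h1
      have h3 := (abs_le.1 (hT B hB P hP h l hlp)).1
      have h4 : C1 / (l : ℝ) ≤ 1 / 2 := by
        rw [div_le_iff₀ hl0]
        linarith
      have h5 := x2_exp (C1 / l) (by positivity) h4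
      rw [one_mul]
      have e : 2 * C1 * (1 / (l : ℝ)) = 2 * (C1 / l) := by ring
      rw [e]
      linarith
  have hnn : ∀ l ∈ P', 0 ≤ (if l ≤ N then 1 / (2 * C1) else 1) * Real.exp (-(2 * C1 * (1 / (l : ℝ)))) := by
    intro l _
    apply mul_nonneg _ (Real.exp_pos _).le
    split_ifs
    · positivity
    · exact zero_le_one
  have h1 := Finset.prod_le_prod hnn hfl
  unfold SSf
  refine le_trans ?_ h1
  rw [Finset.prod_mul_distrib, ← Real.exp_sum, mul_assoc]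
  have hA1 : (1 / (2 * C1)) ^ N ≤ ∏ l ∈ P', (if l ≤ N then 1 / (2 * C1) else (1 : ℝ)) := by
    rw [Finset.prod_ite, Finset.prod_const, Finset.prod_const_one, mul_one]
    apply pow_le_pow_of_le_one (by positivity)
    · rw [div_le_one hC0]
      linarith
    · have hsub : P'.filter (fun l => l ≤ N) ⊆ Icc 1 N := by
        intro l hl
        rw [mem_filter] at hl
        exact mem_Icc.2 ⟨(hprime l hl.1).one_lt.le, hl.2⟩
      have := Finset.card_le_card hsub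
      rwa [Nat.card_Icc, Nat.add_sub_cancel] at this
  have hA2 : (500 : ℝ) ^ (-(2 * C1)) * (1 + Real.log Q) ^ (-(2 * C1)) ≤
      Real.exp (∑ l ∈ P', -(2 * C1 * (1 / (l : ℝ)))) := by
    rw [← Real.mul_rpow (by norm_num) (by linarith)]
    have h2 := x2_sum Q hQ P' hP'
    have e : ∑ l ∈ P', -(2 * C1 * (1 / (l : ℝ))) = (∑ l ∈ P', 1 / (l : ℝ)) * (-(2 * C1)) := by
      rw [Finset.sum_mul]
      exact Finset.sum_congr rfl fun l _ => by ring
    rw [e, Real.exp_mul]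
    exact Real.rpow_le_rpow_of_nonpos (Real.exp_pos _) h2 (by linarith)
  refine mul_le_mul hA1 hA2 (by positivity) ?_
  exact Finset.prod_nonneg fun l _ => by
    split_ifs
    · positivity
    · exact zero_le_one

end Pool.Agent.Lib.H24P
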