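import Pool.Agent.Lib.H24P.Defs
import Pool.Agent.Lib.H59.SchinzelDefs

/-!
# Project H24P, definitions for the core theorem and the final module
-/

open Finset Polynomial

namespace Pool.Agent.Lib.H24P

open Pool.Agent.Lib.H68T Pool.Agent.Lib.H18Q Pool.Agent.Lib.H59P

noncomputable section

/-- The number of the positive integers `n ≤ Z` for which `B(n)` and all `P_i(n) + h_i` are primes. -/
def pcount {k : ℕ} (Z : ℕ) (B : ℤ[X]) (P : Fin k → ℤ[X]) (h : Fin k → ℕ) : ℕ :=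
  ((Icc 1 Z).filter (fun n : ℕ => (B.eval (n : ℤ)).toNat.Prime ∧
    ∀ i, ((P i).eval (n : ℤ) + (h i : ℤ)).toNat.Prime)).card

/-- The linear coordinate: degree `1`, leading coefficient at most `A` in absolute value, and for
`Z^(1-ε) ≤ n ≤ Z/A` the values are between `n/2` and `A Z` and vary on `[n, 2n)` by a factor less than `3`. -/
structure OKB (A : ℕ) (ε : ℝ) (Z : ℕ) (B : ℤ[X]) : Prop where
  deg : B.natDegree = 1
  lc : B.leadingCoeff.natAbs ≤ A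
  lo : ∀ n : ℕ, (Z : ℝ) ^ (1 - ε) ≤ n → A * n ≤ Z → (n : ℤ) ≤ 2 * B.eval (n : ℤ)
  hi : ∀ n : ℕ, (Z : ℝ) ^ (1 - ε) ≤ n → A * n ≤ Z → B.eval (n : ℤ) ≤ A * Z
  cmp1 : ∀ n n' : ℕ, (Z : ℝ) ^ (1 - ε) ≤ n → A * n ≤ Z → n ≤ n' → n' < 2 * n →
    B.eval (n' : ℤ) < 3 * B.eval (n : ℤ)
  cmp2 : ∀ n n' : ℕ, (Z : ℝ) ^ (1 - ε) ≤ n → A * n ≤ Z → n ≤ n' → n' < 2 * n →
    B.eval (n : ℤ) < 3 * B.eval (n' : ℤ)

/-- The box `1 ≤ h_i ≤ H_i`. -/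
def BoxH {k : ℕ} (H : Fin k → ℕ) : Finset (Fin k → ℕ) := Fintype.piFinset fun i => Icc 1 (H i)

/-- The sides of the box have the order of magnitude `Z^(deg P_i)`. -/
def FitH (A : ℕ) (Z : ℕ) {k : ℕ} (P : Fin k → ℤ[X]) (H : Fin k → ℕ) : Prop :=
  ∀ i, (Z : ℝ) ^ (P i).natDegree ≤ A * H i ∧ (H i : ℝ) ≤ A * (Z : ℝ) ^ (P i).natDegree

/-- **The core theorem** (conclusion of module K). -/
def Core : Prop := open Classical in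
  ∀ (k : ℕ) (P : Fin k → ℤ[X]), (∀ i, 1 ≤ (P i).natDegree) → ∀ (A : ℕ) (ε : ℝ), 0 < ε →
    ∃ c : ℝ, 0 < c ∧ ∃ Z0 : ℕ, ∀ Z : ℕ, Z0 ≤ Z → ∀ B : ℤ[X], OKB A ε Z B →
      ∀ H : Fin k → ℕ, FitH A Z P H →
        (((BoxH H).filter (fun h => NoFix (sys B P h) ∧
          ((pcount Z B P h : ℕ) : ℝ) < (Z : ℝ) ^ (1 - ε))).card : ℝ) ≤ (Z : ℝ) ^ (-c) * vol H

end

end Pool.Agent.Lib.H24P
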