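import Pool.Agent.Lib.H24P.ZDefs
import Pool.Agent.Lib.H24P.KDefs
import Pool.Agent.Lib.H24P.G2

/-!
# Project H24P, chunk K2 (S/M): geometry and counting for the core theorem
-/

open Finset Polynomial

namespace Pool.Agent.Lib.H24P

open Pool.Agent.Lib.H68T Pool.Agent.Lib.H18Q Pool.Agent.Lib.H59P

theorem k2_lp0 (m : ℤ) : 0 ≤ lp m := by
  unfold H68T.lp
  split_ifs with h
  · have h1 : 0 < m.toNat := h.pos
    have h2 : 0 < m := by omega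
    exact Real.log_nonneg (by exact_mod_cast (by omega : 1 ≤ m))
  · exact le_rfl

theorem k2_lp_le (m : ℤ) (N : ℕ) (hN : 1 ≤ N) (h : m ≤ N) : lp m ≤ Real.log N := by
  unfold H68T.lp
  split_ifs with hp
  · have h1 : 0 < m.toNat := hp.pos
    have h2 : 0 < m := by omega
    exact Real.log_le_log (by exact_mod_cast h2) (by exact_mod_cast h)
  · exact Real.log_nonneg (by exact_mod_cast hN)

/-- From the weighted count to the count. Proof. A term of `RPh` vanishes unless all the values are primes (`lp`), and these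
`n ∈ [X1, 2 X1) ⊆ [1, Z]` are counted by `pcount`; the term is at most `∏ log(value)`, the values are at most
`3 Y ≤ 3 A Z` resp. `3 Y_i ≤ 3 M_i ≤ Z^(A+2)` (`G2_val`; `M_i ≤ X1^d Q^(1/8) ≤ Z^(A+1)`, `d ≤ A`, `3 A ≤ Z`, `Q ≤ Z`); `lp ≥ 0`. -/
theorem K2_count {k : ℕ} (P : Fin k → ℤ[X]) (A L Q Z X1 Y : ℕ) (hQ : 1 ≤ Q) (hQZ : Q ≤ Z)
    (hAZ : 3 * A ≤ Z) (hZ : 3 ≤ Z) (M : Fin k → ℕ) (B : ℤ[X]) (hPA : Pol A P) (hG : Geo L Q Z X1 P M)
    (hGB : GeoB A Z X1 Y B) (hX : 2 * X1 ≤ Z)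
    (hP8 : ∀ i, ∀ n ∈ Ico X1 (2 * X1), 8 * |(P i).eval (n : ℤ)| ≤ M i) (h : Fin k → ℕ)
    (hh : h ∈ cub M M) :
    RPh X1 B P h ≤ pcount Z B P h * ((A + 2) * Real.log Z) ^ (k + 1) := by
  have hZ1 : 1 ≤ Z := by omega
  have hl0 : 0 ≤ Real.log Z := Real.log_nonneg (by exact_mod_cast hZ1)
  set W : ℝ := (A + 2) * Real.log Z with hW
  have hW0 : 0 ≤ W := by positivity
  have hWl : ∀ j : ℕ, j ≤ A + 2 → Real.log ((Z ^ j : ℕ) : ℝ) ≤ W := by
    intro j hj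
    rw [Nat.cast_pow, Real.log_pow]
    exact mul_le_mul_of_nonneg_right (by exact_mod_cast hj) hl0
  -- the linear coordinate
  have hB : ∀ n ∈ Ico X1 (2 * X1), lp (B.eval (n : ℤ)) ≤ W := by
    intro n hn
    refine (k2_lp_le _ (Z ^ 2) (Nat.one_le_pow _ _ hZ1) ?_).trans (hWl 2 (by omega))
    have h1 := hGB.hi n hn
    have h2 := hGB.Yhi
    have h3 : 3 * Y ≤ Z ^ 2 := by
      calc 3 * Y ≤ 3 * (A * Z) := Nat.mul_le_mul_left 3 h2
        _ = (3 * A) * Z := by ring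
        _ ≤ Z * Z := Nat.mul_le_mul_right Z hAZ
        _ = Z ^ 2 := by ring
    have h4 : (3 * Y : ℤ) ≤ ((Z ^ 2 : ℕ) : ℤ) := by exact_mod_cast h3
    linarith
  have hM : ∀ i, 3 * M i ≤ Z ^ (A + 2) := by
    intro i
    have h1 := hG.hi i
    have hXZ : X1 ≤ Z := by omega
    have hZr : (1 : ℝ) ≤ Z := by exact_mod_cast hZ1
    have h2 : (X1 : ℝ) ^ (P i).natDegree ≤ (Z : ℝ) ^ A :=
      (pow_le_pow_left₀ (by positivity) (by exact_mod_cast hXZ) _).trans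
        (pow_le_pow_right₀ hZr (hPA.degA i))
    have h3 : (Q : ℝ) ^ (1 / 8 : ℝ) ≤ Z := by
      calc (Q : ℝ) ^ (1 / 8 : ℝ) ≤ (Q : ℝ) ^ (1 : ℝ) :=
            Real.rpow_le_rpow_of_exponent_le (by exact_mod_cast hQ) (by norm_num)
        _ = Q := Real.rpow_one _
        _ ≤ Z := by exact_mod_cast hQZ
    have h4 : (M i : ℝ) ≤ (Z : ℝ) ^ A * Z :=
      h1.trans (mul_le_mul h2 h3 (by positivity) (by positivity))
    have h5 : ((3 * M i : ℕ) : ℝ) ≤ ((Z ^ (A + 2) : ℕ) : ℝ) := by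
      push_cast
      calc (3 : ℝ) * M i ≤ Z * ((Z : ℝ) ^ A * Z) :=
            mul_le_mul (by exact_mod_cast hZ) h4 (by positivity) (by positivity)
        _ = (Z : ℝ) ^ (A + 2) := by ring
    exact_mod_cast h5
  have hPi : ∀ n ∈ Ico X1 (2 * X1), ∀ i, lp ((P i).eval (n : ℤ) + h i) ≤ W := by
    intro n hn i
    refine (k2_lp_le _ (Z ^ (A + 2)) (Nat.one_le_pow _ _ hZ1) ?_).trans (hWl (A + 2) le_rfl)
    have h1 := hP8 i n hn
    have h2 : h i ∈ Ico (M i) (M i + M i) := by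
      have := Fintype.mem_piFinset.mp hh i
      exact this
    have h3 := (mem_Ico.mp h2).2
    have h4 := le_abs_self ((P i).eval (n : ℤ))
    have h5 := abs_nonneg ((P i).eval (n : ℤ))
    have h6 : ((3 * M i : ℕ) : ℤ) ≤ ((Z ^ (A + 2) : ℕ) : ℤ) := by exact_mod_cast hM i
    have h7 : (h i : ℤ) < M i + M i := by exact_mod_cast h3
    push_cast at h6
    push_cast
    linarith
  unfold RPh
  -- bound each term
  have hterm : ∀ n ∈ Ico X1 (2 * X1), lp (B.eval (n : ℤ)) * ∏ i, lp ((P i).eval (n : ℤ) + h i) ≤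
      if ((B.eval (n : ℤ)).toNat.Prime ∧ ∀ i, ((P i).eval (n : ℤ) + (h i : ℤ)).toNat.Prime) then
        W ^ (k + 1) else 0 := by
    intro n hn
    split_ifs with hp
    · rw [pow_succ, mul_comm]
      refine mul_le_mul ?_ (hB n hn) (k2_lp0 _) (by positivity)
      calc ∏ i, lp ((P i).eval (n : ℤ) + h i) ≤ ∏ _i : Fin k, W :=
            prod_le_prod (fun i _ => k2_lp0 _) (fun i _ => hPi n hn i)
        _ = W ^ k := by rw [prod_const, card_univ, Fintype.card_fin]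
    · rw [not_and_or, not_forall] at hp
      rcases hp with hp | ⟨i, hp⟩
      · have : lp (B.eval (n : ℤ)) = 0 := by
          unfold H68T.lp
          rw [if_neg hp]
        rw [this, zero_mul]
      · have h0 : lp ((P i).eval (n : ℤ) + h i) = 0 := by
          unfold H68T.lp
          rw [if_neg hp]
        have h1 : ∏ i, lp ((P i).eval (n : ℤ) + h i) = 0 := prod_eq_zero (mem_univ i) h0
        rw [h1, mul_zero]
  refine (sum_le_sum hterm).trans ?_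
  rw [← sum_filter, sum_const, nsmul_eq_mul]
  refine mul_le_mul_of_nonneg_right ?_ (by positivity)
  unfold pcount
  have hsub : (Ico X1 (2 * X1)).filter (fun n : ℕ => (B.eval (n : ℤ)).toNat.Prime ∧
      ∀ i, ((P i).eval (n : ℤ) + (h i : ℤ)).toNat.Prime) ⊆
      (Icc 1 Z).filter (fun n : ℕ => (B.eval (n : ℤ)).toNat.Prime ∧
      ∀ i, ((P i).eval (n : ℤ) + (h i : ℤ)).toNat.Prime) := by
    intro n hn
    rw [mem_filter, mem_Ico] at hn
    rw [mem_filter, mem_Icc]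
    have := hG.pos
    refine ⟨⟨by omega, by omega⟩, hn.2⟩
  exact_mod_cast card_le_card hsub

theorem k2_ev (C x : ℝ) (hx : 0 < x) : ∃ Q0 : ℕ, ∀ Q : ℕ, Q0 ≤ Q → C ≤ (Q : ℝ) ^ x := by
  have h1 : Filter.Tendsto (fun Q : ℕ => (Q : ℝ) ^ x) Filter.atTop Filter.atTop :=
    (tendsto_rpow_atTop hx).comp tendsto_natCast_atTop_atTop
  obtain ⟨Q0, h⟩ := Filter.eventually_atTop.mp (h1.eventually_ge_atTop C)
  exact ⟨Q0, h⟩

/-- The range of `n`. Proof. `m = ⌈Q^δ'⌉`, `δ' = 1/(10 (A+1))`, `X1 = Q^800 ⌊Z/(Q^800 m)⌋`; for `K ≥ 2000/ε` and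
`Q` large `X1 ≥ Z/(2m)`; `2 m ≤ 4 Q^δ' ≤ Z^(ε/2)`, `2 A X1 ≤ 2 A Z/Q^δ' ≤ Z`. For `Geo`: `X1^d ≤ Z^d Q^(-δ')` (`d ≥ 1`), and
`M_i ≥ Z^d/(A Q^δ)`, `δ = δ'/2`, `L A ≤ Q^(δ'/2)`; `X1^d Q^(1/8) ≥ Z^d (4 Q^δ')^(-d) Q^(1/8) ≥ A Z^d` (`δ' d ≤ 1/10`,
`4^A A ≤ Q^(1/40)`). For `GeoB`: `B` is linear, hence monotone; `Y = B(X1)` if the leading coefficient is positive,
`Y = B(2 X1 - 1)` else; `OKB` applies to all `n ∈ [X1, 2 X1)`. -/
theorem K2_geo {k : ℕ} (P : Fin k → ℤ[X]) (A : ℕ) (hA : 1 ≤ A) (hP : Pol A P) (ε : ℝ) (hε : 0 < ε)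
    (hε1 : ε ≤ 1 / 2) (L : ℕ) : ∃ K : ℝ, 1 ≤ K ∧ ∃ Q0 : ℕ, ∀ Q Z : ℕ, Q0 ≤ Q →
    K * Real.log Q ≤ Real.log Z → ∃ X1 : ℕ, 0 < X1 ∧ (Z : ℝ) ^ (1 - ε / 2) ≤ X1 ∧ 2 * A * X1 ≤ Z ∧
      Z ≤ X1 * Q ∧ Q ^ 800 ∣ X1 ∧
      (∀ M : Fin k → ℕ, (∀ i, 8 * Q ^ 8 ∣ M i) →
        (∀ i, (Z : ℝ) ^ (P i).natDegree ≤ A * (Q : ℝ) ^ (1 / (20 * (A + 1)) : ℝ) * M i) →
        (∀ i, (M i : ℝ) ≤ A * (Z : ℝ) ^ (P i).natDegree) → Geo L Q Z X1 P M) ∧
      (∀ B : ℤ[X], Lin A B → OKB A ε Z B → ∃ Y : ℕ, GeoB A Z X1 Y B ∧ Z ≤ Y ^ 2 ∧ Y ≤ Z ^ (A + 1)) := by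
  have hAr : (1 : ℝ) ≤ A := by exact_mod_cast hA
  set δ : ℝ := 1 / (20 * (A + 1)) with hδ
  have hδ0 : 0 < δ := by positivity
  have hδA : δ * (A + 1) = 1 / 20 := by rw [hδ]; field_simp
  have hδ1 : δ ≤ 1 / 40 := by nlinarith
  obtain ⟨Q1, hQ1⟩ := k2_ev (2 * A + 4) (2 * δ) (by linarith)
  obtain ⟨Q2, hQ2⟩ := k2_ev (L * A) δ hδ0
  obtain ⟨Q3, hQ3⟩ := k2_ev (A * 4 ^ A) (1 / 40) (by norm_num)
  have hK : (4000 : ℝ) ≤ 2000 / ε := by rw [le_div_iff₀ hε]; nlinarith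
  refine ⟨2000 / ε, by linarith, Q1 + Q2 + Q3 + 16, fun Q Z hQ hKQ => ?_⟩
  have hQ16 : 16 ≤ Q := by omega
  have e1 := hQ1 Q (by omega)
  have e2 := hQ2 Q (by omega)
  have e3 := hQ3 Q (by omega)
  clear hQ1 hQ2 hQ3
  have hq16 : (16 : ℝ) ≤ Q := by exact_mod_cast hQ16
  have hq1 : (1 : ℝ) ≤ Q := by linarith
  have hq0 : (0 : ℝ) < Q := by linarith
  have hlq : 0 < Real.log Q := Real.log_pos (by linarith)
  have hZ0 : (0 : ℝ) < Z := by
    rcases Nat.eq_zero_or_pos Z with h | h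
    · exfalso
      rw [h] at hKQ
      simp only [Nat.cast_zero, Real.log_zero] at hKQ
      have : 0 < 2000 / ε * Real.log Q := by positivity
      linarith
    · exact_mod_cast h
  -- `Q^(2000/ε) ≤ Z`
  have hQK : (Q : ℝ) ^ (2000 / ε : ℝ) ≤ Z := by
    rw [Real.rpow_def_of_pos hq0, ← Real.le_log_iff_exp_le hZ0, mul_comm]
    exact hKQ
  have hQ4 : (Q : ℝ) ^ (4000 : ℕ) ≤ Z := by
    refine le_trans ?_ hQK
    rw [← Real.rpow_natCast]
    exact Real.rpow_le_rpow_of_exponent_le hq1 (by exact_mod_cast hK)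
  have hQ4' : Q ^ 4000 ≤ Z := by exact_mod_cast hQ4
  have hQZ : Q ≤ Z := le_trans (Nat.le_self_pow (by norm_num) Q) hQ4'
  have hZ16 : 16 ≤ Z := by omega
  have hz1 : (1 : ℝ) ≤ Z := by exact_mod_cast (by omega : 1 ≤ Z)
  -- `Q^1000 ≤ Z^(ε/2)`
  have hQe : (Q : ℝ) ^ (1000 : ℕ) ≤ (Z : ℝ) ^ (ε / 2) := by
    calc (Q : ℝ) ^ (1000 : ℕ) = ((Q : ℝ) ^ (2000 / ε : ℝ)) ^ (ε / 2) := by
          rw [← Real.rpow_mul hq0.le, ← Real.rpow_natCast]
          have : (2000 / ε * (ε / 2) : ℝ) = ((1000 : ℕ) : ℝ) := by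
            push_cast
            field_simp
            norm_num
          rw [this]
      _ ≤ (Z : ℝ) ^ (ε / 2) := Real.rpow_le_rpow (by positivity) hQK (by positivity)
  -- `t = Q^δ'`
  set t : ℝ := (Q : ℝ) ^ (2 * δ) with ht
  have ht1 : 1 ≤ t := by linarith
  have ht0 : 0 < t := by linarith
  have htQ : 4 * t ≤ Q := by
    have h1 : t ≤ (Q : ℝ) ^ (1 / 2 : ℝ) := Real.rpow_le_rpow_of_exponent_le hq1 (by linarith)
    have h2 : (4 : ℝ) ≤ (Q : ℝ) ^ (1 / 2 : ℝ) := by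
      rw [← Real.sqrt_eq_rpow]
      exact Real.le_sqrt_of_sq_le (by linarith)
    have h3 : (Q : ℝ) ^ (1 / 2 : ℝ) * (Q : ℝ) ^ (1 / 2 : ℝ) = Q := by
      rw [← Real.rpow_add hq0]
      norm_num
    calc 4 * t ≤ (Q : ℝ) ^ (1 / 2 : ℝ) * (Q : ℝ) ^ (1 / 2 : ℝ) :=
          mul_le_mul h2 h1 ht0.le (by positivity)
      _ = Q := h3
  set m : ℕ := ⌈t⌉₊ with hm
  have hm1 : t ≤ m := Nat.le_ceil t
  have hm2 : (m : ℝ) ≤ 2 * t := by
    have := (Nat.ceil_lt_add_one ht0.le).le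
    linarith
  have hm0 : 0 < m := Nat.ceil_pos.mpr ht0
  have hmQ : m ≤ Q := by
    have : (m : ℝ) ≤ Q := by linarith
    exact_mod_cast this
  set V : ℕ := Q ^ 800 * m with hV
  have hV0 : 0 < V := by positivity
  have h2V : 2 * V ≤ Z := by
    have h1 : V ≤ Q ^ 801 := by
      rw [hV, pow_succ]
      exact Nat.mul_le_mul_left _ hmQ
    have h2 : 2 * Q ^ 801 ≤ Q ^ 802 := by
      rw [pow_succ Q 801, mul_comm]
      exact Nat.mul_le_mul_left _ (by omega)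
    have h3 : Q ^ 802 ≤ Q ^ 4000 := Nat.pow_le_pow_right (by omega) (by norm_num)
    exact (Nat.mul_le_mul_left 2 h1).trans (h2.trans (h3.trans hQ4'))
  set X1 : ℕ := Q ^ 800 * (Z / V) with hX1
  have hXm : X1 * m ≤ Z := by
    calc X1 * m = V * (Z / V) := by rw [hX1, hV]; ring
      _ ≤ Z := Nat.mul_div_le Z V
  have hXm2 : Z ≤ 2 * (X1 * m) := by
    have h1 : X1 * m = V * (Z / V) := by rw [hX1, hV]; ring
    have h2 := Nat.div_add_mod Z V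
    have h3 := Nat.mod_lt Z hV0
    rw [h1]
    omega
  -- real versions
  have hx1 : (X1 : ℝ) * t ≤ Z := by
    calc (X1 : ℝ) * t ≤ X1 * m := mul_le_mul_of_nonneg_left hm1 (by positivity)
      _ ≤ Z := by exact_mod_cast hXm
  have hx2 : (Z : ℝ) ≤ X1 * (4 * t) := by
    have h1 : (Z : ℝ) ≤ 2 * (X1 * m) := by exact_mod_cast hXm2
    have h2 : (X1 : ℝ) * m ≤ X1 * (2 * t) := mul_le_mul_of_nonneg_left hm2 (by positivity)
    linarith
  have hXpos : 0 < X1 := by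
    rcases Nat.eq_zero_or_pos X1 with h | h
    · rw [h] at hx2
      simp only [Nat.cast_zero, zero_mul] at hx2
      linarith
    · exact h
  have hXr : (0 : ℝ) < X1 := by exact_mod_cast hXpos
  have hZe : (Z : ℝ) ^ (1 - ε / 2) ≤ X1 := by
    have h1 : 4 * t ≤ (Z : ℝ) ^ (ε / 2) := by
      refine htQ.trans (le_trans ?_ hQe)
      exact le_self_pow₀ hq1 (by norm_num)
    have h2 : (Z : ℝ) ^ (1 - ε / 2) * (Z : ℝ) ^ (ε / 2) = Z := by
      rw [← Real.rpow_add hZ0]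
      norm_num
    have h3 : (Z : ℝ) ^ (1 - ε / 2) * (Z : ℝ) ^ (ε / 2) ≤ X1 * (Z : ℝ) ^ (ε / 2) := by
      rw [h2]
      exact hx2.trans (mul_le_mul_of_nonneg_left h1 hXr.le)
    exact le_of_mul_le_mul_right h3 (Real.rpow_pos_of_pos hZ0 _)
  have hAX : 2 * A * X1 ≤ Z := by
    have h1 : (2 * A : ℝ) ≤ t := by linarith
    have h2 : (2 * A * X1 : ℝ) ≤ Z := by
      calc (2 * A * X1 : ℝ) ≤ t * X1 := mul_le_mul_of_nonneg_right h1 hXr.le
        _ = X1 * t := mul_comm _ _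
        _ ≤ Z := hx1
    exact_mod_cast h2
  have hZX : Z ≤ X1 * Q := by
    have h1 : (Z : ℝ) ≤ X1 * Q := hx2.trans (mul_le_mul_of_nonneg_left htQ hXr.le)
    exact_mod_cast h1
  have hXZ : X1 ≤ Z := by
    calc X1 ≤ X1 * m := Nat.le_mul_of_pos_right _ hm0
      _ ≤ Z := hXm
  have hdvd : Q ^ 800 ∣ X1 := ⟨_, hX1⟩
  refine ⟨X1, hXpos, hZe, hAX, hZX, hdvd, ?_, ?_⟩
  · intro M hM1 hM2 hM3
    refine ⟨hdvd, hXpos, hXZ, hZX, hM1, ?_, ?_⟩
    · intro i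
      set d := (P i).natDegree with hd
      have hd1 : 1 ≤ d := hP.deg i
      have h1 : (X1 : ℝ) ^ d * t ≤ (Z : ℝ) ^ d := by
        calc (X1 : ℝ) ^ d * t ≤ (X1 : ℝ) ^ d * t ^ d :=
              mul_le_mul_of_nonneg_left (le_self_pow₀ ht1 (by omega)) (by positivity)
          _ = (X1 * t) ^ d := by rw [mul_pow]
          _ ≤ (Z : ℝ) ^ d := pow_le_pow_left₀ (by positivity) hx1 d
      have h2 : (Q : ℝ) ^ δ * (Q : ℝ) ^ δ = t := by
        rw [← Real.rpow_add hq0, ht]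
        congr 1
        ring
      have h3 : (0 : ℝ) < (Q : ℝ) ^ δ := Real.rpow_pos_of_pos hq0 _
      have h4 := hM2 i
      have h5 : ((L * X1 ^ d : ℕ) : ℝ) * t ≤ M i * t := by
        push_cast
        calc (L : ℝ) * (X1 : ℝ) ^ d * t = L * ((X1 : ℝ) ^ d * t) := by ring
          _ ≤ L * (A * (Q : ℝ) ^ δ * M i) :=
              mul_le_mul_of_nonneg_left (h1.trans h4) (by positivity)
          _ = (L * A) * ((Q : ℝ) ^ δ * M i) := by ring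
          _ ≤ (Q : ℝ) ^ δ * ((Q : ℝ) ^ δ * M i) :=
              mul_le_mul_of_nonneg_right e2 (by positivity)
          _ = M i * ((Q : ℝ) ^ δ * (Q : ℝ) ^ δ) := by ring
          _ = M i * t := by rw [h2]
      have h6 := le_of_mul_le_mul_right h5 ht0
      exact_mod_cast h6
    · intro i
      set d := (P i).natDegree with hd
      have hdA : d ≤ A := hP.degA i
      refine (hM3 i).trans ?_
      have h1 : (Z : ℝ) ^ d ≤ (X1 : ℝ) ^ d * (4 * t) ^ d := by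
        rw [← mul_pow]
        exact pow_le_pow_left₀ hZ0.le hx2 d
      have h2 : (4 * t) ^ d ≤ (4 : ℝ) ^ A * (Q : ℝ) ^ (1 / 10 : ℝ) := by
        rw [mul_pow]
        refine mul_le_mul (pow_le_pow_right₀ (by norm_num) hdA) ?_ (by positivity) (by positivity)
        calc t ^ d ≤ t ^ A := pow_le_pow_right₀ ht1 hdA
          _ = (Q : ℝ) ^ (2 * δ * A) := by rw [ht, ← Real.rpow_natCast, ← Real.rpow_mul hq0.le]
          _ ≤ (Q : ℝ) ^ (1 / 10 : ℝ) :=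
              Real.rpow_le_rpow_of_exponent_le hq1 (by nlinarith)
      have h3 : (Q : ℝ) ^ (1 / 40 : ℝ) * (Q : ℝ) ^ (1 / 10 : ℝ) = (Q : ℝ) ^ (1 / 8 : ℝ) := by
        rw [← Real.rpow_add hq0]
        norm_num
      have h4 : (0 : ℝ) < (Q : ℝ) ^ (1 / 10 : ℝ) := Real.rpow_pos_of_pos hq0 _
      calc (A : ℝ) * (Z : ℝ) ^ d ≤ A * ((X1 : ℝ) ^ d * ((4 : ℝ) ^ A * (Q : ℝ) ^ (1 / 10 : ℝ))) :=
            mul_le_mul_of_nonneg_left (h1.trans (mul_le_mul_of_nonneg_left h2 (by positivity)))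
              (by positivity)
        _ = (X1 : ℝ) ^ d * ((A * (4 : ℝ) ^ A) * (Q : ℝ) ^ (1 / 10 : ℝ)) := by ring
        _ ≤ (X1 : ℝ) ^ d * ((Q : ℝ) ^ (1 / 40 : ℝ) * (Q : ℝ) ^ (1 / 10 : ℝ)) :=
            mul_le_mul_of_nonneg_left (mul_le_mul_of_nonneg_right e3 h4.le) (by positivity)
        _ = (X1 : ℝ) ^ d * (Q : ℝ) ^ (1 / 8 : ℝ) := by rw [h3]
  · intro B hB hOK
    have hne : (Ico X1 (2 * X1)).Nonempty := ⟨X1, mem_Ico.mpr ⟨le_rfl, by omega⟩⟩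
    obtain ⟨n0, hn0, hmin⟩ := exists_min_image (Ico X1 (2 * X1)) (fun n : ℕ => B.eval (n : ℤ)) hne
    have hZ' : ∀ n ∈ Ico X1 (2 * X1), (Z : ℝ) ^ (1 - ε) ≤ n ∧ A * n ≤ Z := by
      intro n hn
      rw [mem_Ico] at hn
      constructor
      · calc (Z : ℝ) ^ (1 - ε) ≤ (Z : ℝ) ^ (1 - ε / 2) :=
              Real.rpow_le_rpow_of_exponent_le hz1 (by linarith)
          _ ≤ X1 := hZe
          _ ≤ n := by exact_mod_cast hn.1
      · calc A * n ≤ A * (2 * X1) := Nat.mul_le_mul_left A (by omega)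
          _ = 2 * A * X1 := by ring
          _ ≤ Z := hAX
    obtain ⟨g1, g2⟩ := hZ' n0 hn0
    have hn0' := mem_Ico.mp hn0
    have hlo := hOK.lo n0 g1 g2
    have hhi := hOK.hi n0 g1 g2
    have hn0z : (X1 : ℤ) ≤ n0 := by exact_mod_cast hn0'.1
    have hX1z : (0 : ℤ) < X1 := by exact_mod_cast hXpos
    have hpos : 0 < B.eval (n0 : ℤ) := by linarith
    obtain ⟨Y, hY⟩ := Int.eq_ofNat_of_zero_le hpos.le
    have hYA : Y ≤ A * Z := by
      rw [hY] at hhi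
      exact_mod_cast hhi
    have hXY : X1 ≤ 2 * Y := by
      rw [hY] at hlo
      have : (X1 : ℤ) ≤ 2 * (Y : ℤ) := hn0z.trans hlo
      exact_mod_cast this
    refine ⟨Y, ⟨hB, ?_, ?_, hXY, hYA⟩, ?_, ?_⟩
    · intro n hn
      have := hmin n hn
      rw [hY] at this
      exact this
    · intro n hn
      obtain ⟨f1, f2⟩ := hZ' n hn
      have hn' := mem_Ico.mp hn
      rcases le_total n0 n with hle | hle
      · have := hOK.cmp1 n0 n g1 g2 hle (by omega)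
        rw [hY] at this
        exact this
      · have := hOK.cmp2 n n0 f1 f2 hle (by omega)
        rw [hY] at this
        exact this
    · -- `Z ≤ Y²`
      have h1 : (Z : ℝ) ^ (3 / 4 : ℝ) ≤ 2 * Y := by
        calc (Z : ℝ) ^ (3 / 4 : ℝ) ≤ (Z : ℝ) ^ (1 - ε / 2) :=
              Real.rpow_le_rpow_of_exponent_le hz1 (by linarith)
          _ ≤ X1 := hZe
          _ ≤ 2 * Y := by exact_mod_cast hXY
      have h2 : ((Z : ℝ) ^ (3 / 4 : ℝ)) ^ 2 ≤ (2 * Y) ^ 2 := pow_le_pow_left₀ (by positivity) h1 2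
      have h3 : ((Z : ℝ) ^ (3 / 4 : ℝ)) ^ 2 = Z * (Z : ℝ) ^ (1 / 2 : ℝ) := by
        rw [← Real.rpow_natCast, ← Real.rpow_mul hZ0.le, ← Real.rpow_one_add' hZ0.le (by norm_num)]
        congr 1
        norm_num
      have h4 : (4 : ℝ) ≤ (Z : ℝ) ^ (1 / 2 : ℝ) := by
        rw [← Real.sqrt_eq_rpow]
        refine Real.le_sqrt_of_sq_le ?_
        have : (16 : ℝ) ≤ Z := by exact_mod_cast hZ16
        linarith
      have h5 : (Z : ℝ) * 4 ≤ Z * (Z : ℝ) ^ (1 / 2 : ℝ) := mul_le_mul_of_nonneg_left h4 hZ0.le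
      have h6 : (Z : ℝ) ≤ (Y : ℝ) ^ 2 := by
        rw [h3] at h2
        have h7 : (2 * (Y : ℝ)) ^ 2 = 4 * (Y : ℝ) ^ 2 := by ring
        linarith
      exact_mod_cast h6
    · calc Y ≤ A * Z := hYA
        _ ≤ Z ^ A * Z := Nat.mul_le_mul_right Z (Nat.lt_pow_self (by omega)).le
        _ = Z ^ (A + 1) := by ring

end Pool.Agent.Lib.H24P
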