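import Pool.Agent.Lib.H24P.T2
import Pool.Agent.Lib.H24P.D3
import Pool.Agent.Lib.Helper57.Mertens

/-!
# Project H24P, chunk T3 (M): mean square of the twisted sums
-/

open Finset Polynomial

namespace Pool.Agent.Lib.H24P

open Pool.Agent.Lib.H68T Pool.Agent.Lib.H18Q Pool.Agent.Lib.H59P

theorem t3_per (B : ℤ[X]) (S : Finset ℕ) (v t : ℕ) :
    uu S (B.eval (((t * (∏ l ∈ S, l) + v : ℕ)) : ℤ)) = uu S (B.eval (v : ℤ)) := by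
  unfold uu
  refine prod_congr rfl fun l hl => ?_
  congr 1
  have h1 : (l : ℤ) ∣ ((∏ l ∈ S, l : ℕ) : ℤ) := by
    exact_mod_cast dvd_prod_of_mem (fun l : ℕ => l) hl
  have h2 := Polynomial.sub_dvd_eval_sub (((t * (∏ l ∈ S, l) + v : ℕ)) : ℤ) (v : ℤ) B
  have h3 : ((((t * (∏ l ∈ S, l) + v : ℕ)) : ℤ) - (v : ℤ)) = ((∏ l ∈ S, l : ℕ) : ℤ) * t := by
    push_cast
    ring
  rw [h3] at h2
  obtain ⟨c, hc⟩ := (h1.mul_right _).trans h2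
  have h4 : B.eval (((t * (∏ l ∈ S, l) + v : ℕ)) : ℤ) = B.eval (v : ℤ) + c * l := by
    linarith
  rw [h4, gl_per]

/-- the mean square of the weight -/
theorem t3_sq (B : ℤ[X]) (hB : B.natDegree = 1) (Q : ℕ) (hQ : 2 ≤ Q) (j : ℕ) (S : Finset ℕ)
    (hS : ∀ l ∈ S, l.Prime ∧ l ≤ Q ∧ ¬ l ∣ B.leadingCoeff.natAbs) :
    ∑ n ∈ Ico 0 (0 + (∏ l ∈ S, l) * j), ‖((uu S (B.eval (n : ℤ)) : ℝ) : ℂ)‖ ^ 2 ≤
      (((∏ l ∈ S, l) * j : ℕ) : ℝ) * (500 * Real.log Q) := by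
  have h1 : ∀ n ∈ Ico 0 (0 + (∏ l ∈ S, l) * j), ‖((uu S (B.eval (n : ℤ)) : ℝ) : ℂ)‖ ^ 2 =
      (uu S (B.eval (n : ℤ))) ^ 2 := by
    intro n _
    rw [Complex.norm_real, Real.norm_eq_abs, sq_abs]
  rw [sum_congr rfl h1, zero_add, ← range_eq_Ico, mul_comm (∏ l ∈ S, l) j]
  have h2 : ∀ q N : ℕ, ∀ f : ℕ → ℝ,
      ∑ n ∈ range (q * N), f n = ∑ t ∈ range q, ∑ v ∈ range N, f (t * N + v) := by
    intro q N f
    induction q with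
    | zero => simp
    | succ q ih => rw [Nat.succ_mul, sum_range_add, ih, sum_range_succ]
  rw [h2]
  have h3 := (T2_unit B hB S fun l hl => ⟨(hS l hl).1, (hS l hl).2.2⟩).2
  have h4 : ∀ t ∈ range j, ∑ v ∈ range (∏ l ∈ S, l),
      (uu S (B.eval (((t * (∏ l ∈ S, l) + v : ℕ)) : ℤ))) ^ 2 =
      ((∏ l ∈ S, l : ℕ) : ℝ) * ∏ l ∈ S, ((l : ℝ) / ((l : ℝ) - 1)) := by
    intro t _
    rw [← h3]
    exact sum_congr rfl fun v _ => by rw [t3_per]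
  rw [sum_congr rfl h4, sum_const, card_range, nsmul_eq_mul]
  have h5 : ∏ l ∈ S, ((l : ℝ) / ((l : ℝ) - 1)) ≤ 500 * Real.log Q := by
    have h6 : ∀ l : ℕ, l.Prime → ((l : ℝ) / ((l : ℝ) - 1)) = (1 - 1 / (l : ℝ))⁻¹ ∧
        1 ≤ (1 - 1 / (l : ℝ))⁻¹ := by
      intro l hl
      have h7 : (2 : ℝ) ≤ l := by exact_mod_cast hl.two_le
      have h8 : (0 : ℝ) < (l : ℝ) - 1 := by linarith
      have h9 : ((l : ℝ) / ((l : ℝ) - 1)) = (1 - 1 / (l : ℝ))⁻¹ := by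
        field_simp
      refine ⟨h9, ?_⟩
      rw [← h9, le_div_iff₀ h8]
      linarith
    have h10 : S ⊆ Pool.Agent.Lib.Sieve.primesUpTo Q := fun l hl =>
      Pool.Agent.Lib.Sieve.mem_primesUpTo.mpr ⟨(hS l hl).1, (hS l hl).2.1⟩
    rw [prod_congr rfl fun l hl => (h6 l (hS l hl).1).1]
    refine le_trans ?_ (Pool.Agent.Lib.Helper57.prod_one_sub_inv_inv_le Q hQ)
    rw [← prod_sdiff h10]
    have h13 : (1 : ℝ) ≤ ∏ l ∈ Pool.Agent.Lib.Sieve.primesUpTo Q \ S, (1 - 1 / (l : ℝ))⁻¹ := by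
      calc (1 : ℝ) = ∏ _l ∈ Pool.Agent.Lib.Sieve.primesUpTo Q \ S, (1 : ℝ) := prod_const_one.symm
        _ ≤ _ := prod_le_prod (fun _ _ => zero_le_one) (fun l hl =>
          (h6 l (Pool.Agent.Lib.Sieve.mem_primesUpTo.mp (mem_sdiff.mp hl).1).1).2)
    have h14 : (0 : ℝ) ≤ ∏ l ∈ S, (1 - 1 / (l : ℝ))⁻¹ :=
      prod_nonneg fun l hl => zero_le_one.trans (h6 l (hS l hl).1).2
    exact le_mul_of_one_le_left h14 h13
  have h11 : (0 : ℝ) ≤ ((∏ l ∈ S, l : ℕ) : ℝ) := by positivity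
  have h12 : (0 : ℝ) ≤ (j : ℝ) := by positivity
  calc (j : ℝ) * (((∏ l ∈ S, l : ℕ) : ℝ) * ∏ l ∈ S, ((l : ℝ) / ((l : ℝ) - 1)))
      ≤ (j : ℝ) * (((∏ l ∈ S, l : ℕ) : ℝ) * (500 * Real.log Q)) := by gcongr
    _ = _ := by push_cast; ring

/-- **T3.** Proof. `S` = the primes `l ≤ Q` not dividing `lc B`, `N = (∏ S) Q²`, `Z = Q²`: `T2_iden` with `j = Q²`; so
`N² ∑_h (∑_{d ∈ Δ} tdf d)²` is the left side of `Fgen` at the level `Q²` with `p = p0`, `T` the filter in `T2_iden`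
(`univ.lcm (fun i => 1 * κ i) = univ.lcm κ ∈ Δ`, so it is `> E`), `D = E`, `a = 0`, `H = N ≥ Q²`, the boxes of side
`s i ≥ (Q²)^4`, the weight `w n = uu S (B n)`, whose mean square is `∏_{l ∈ S} l/(l-1) ≤ 500 log Q`
(`T2_unit` and periodicity; `Helper57.prod_one_sub_inv_inv_le`, `(1 - 1/l)⁻¹ = l/(l-1) ≥ 1`). `1 + log Q² ≤ 2 (1 + log Q)`. -/
theorem T3_main (k A : ℕ) (hA : 1 ≤ A) : ∃ C c : ℝ, 1 ≤ C ∧ 0 < c ∧ c ≤ 1 ∧ ∀ B : ℤ[X], Lin A B →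
    ∀ P : Fin k → ℤ[X], Pol A P → ∀ Q : ℕ, 2 ≤ Q → ∀ (Δ : Finset ℕ) (E : ℕ), 1 ≤ E →
    (∀ d ∈ Δ, Squarefree d ∧ E < d ∧ d ≤ Q ^ 2 ∧
      ∀ l ∈ d.primeFactors, l ≤ Q ∧ ¬ l ∣ B.leadingCoeff.natAbs) →
    ∀ b s : Fin k → ℕ, (∀ i, Q ^ 8 ≤ s i) →
    ∑ h ∈ cub b s, (∑ d ∈ Δ, tdf d (sys B P h)) ^ 2 ≤
      C * (1 + Real.log Q) ^ C * vol s * (E : ℝ) ^ (-c) := by
  classical
  obtain ⟨Cc, cc, hCc, hcc0, hcc1, hF⟩ := Fgen k A hA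
  have hcst : 0 < 500 * Cc * 2 ^ Cc := by positivity
  refine ⟨500 * Cc * 2 ^ Cc + Cc + 1, cc, by linarith, hcc0, hcc1, ?_⟩
  intro B hB P hP Q hQ Δ E hE hΔ b s hs
  have hQr : (2 : ℝ) ≤ Q := by exact_mod_cast hQ
  have hlQ : 0 ≤ Real.log Q := Real.log_natCast_nonneg Q
  have hvs : 0 ≤ vol s := prod_nonneg fun _ _ => Nat.cast_nonneg _
  set S : Finset ℕ := (pr Q).filter (fun l => ¬ l ∣ B.leadingCoeff.natAbs) with hSdef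
  have hS : ∀ l ∈ S, l.Prime ∧ l ≤ Q ∧ ¬ l ∣ B.leadingCoeff.natAbs := by
    intro l hl
    rw [hSdef, mem_filter] at hl
    unfold pr at hl
    rw [mem_filter, mem_Icc] at hl
    exact ⟨hl.1.2, hl.1.1.2, hl.2⟩
  have hΔ' : ∀ d ∈ Δ, Squarefree d ∧ d ≤ Q ^ 2 ∧ d.primeFactors ⊆ S := by
    intro d hd
    obtain ⟨h1, h2, h3, h4⟩ := hΔ d hd
    refine ⟨h1, h3, fun l hl => ?_⟩
    rw [hSdef, mem_filter]
    unfold pr
    rw [mem_filter, mem_Icc]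
    have h5 := (Nat.mem_primeFactors.mp hl).1
    exact ⟨⟨⟨h5.one_lt.le, (h4 l hl).1⟩, h5⟩, (h4 l hl).2⟩
  have hpS : 0 < ∏ l ∈ S, l := prod_pos fun l hl => (hS l hl).1.pos
  have hQ2 : 1 ≤ Q ^ 2 := Nat.one_le_pow _ _ (by omega)
  set N : ℕ := (∏ l ∈ S, l) * Q ^ 2 with hN
  have hN0 : 0 < N := Nat.mul_pos hpS hQ2
  have hNQ : Q ^ 2 ≤ N := Nat.le_mul_of_pos_left _ hpS
  have hNr : (0 : ℝ) < N := by exact_mod_cast hN0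
  set T : Finset (Fin k → ℕ) := (Fintype.piFinset fun _ : Fin k => KS (Q ^ 2) 1).filter
    (fun κ => univ.lcm κ ∈ Δ) with hT
  have hiden := fun h : Fin k → ℕ => T2_iden B hB.deg P h S (fun l hl => ⟨(hS l hl).1, (hS l hl).2.2⟩)
    (Q ^ 2) (Q ^ 2) hQ2 Δ hΔ'
  have hFg := hF P hP (Q ^ 2) hQ2 (fun _ => p0) (fun _ => p0_mem hQ2) T (filter_subset _ _) E hE
    (by
      intro κ hκ
      have h1 := (mem_filter.mp hκ).2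
      have h2 : (fun i => (p0).1 * κ i) = κ := by
        funext i
        exact one_mul _
      rw [h2]
      exact (hΔ _ h1).2.1)
    b s (fun i => by
      rw [← pow_mul]
      exact hs i) 0 N hNQ (fun n => ((uu S (B.eval (n : ℤ)) : ℝ) : ℂ))
  have hsq := t3_sq B hB.deg Q hQ (Q ^ 2) S hS
  have hL : ∀ h ∈ cub b s, ‖∑ n ∈ Ico 0 (0 + N), ((uu S (B.eval (n : ℤ)) : ℝ) : ℂ) *
      ∑ κ ∈ T, ∏ i, gk p0 (κ i) ((P i).eval (n : ℤ) + h i)‖ ^ 2 =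
      (N : ℝ) ^ 2 * (∑ d ∈ Δ, tdf d (sys B P h)) ^ 2 := by
    intro h _
    rw [hiden h, norm_mul, Complex.norm_natCast, Complex.norm_real, mul_pow, Real.norm_eq_abs, sq_abs]
  have hFg' : (N : ℝ) ^ 2 * ∑ h ∈ cub b s, (∑ d ∈ Δ, tdf d (sys B P h)) ^ 2 ≤
      Cc * (1 + Real.log ((Q ^ 2 : ℕ) : ℝ)) ^ Cc * vol s *
        (N * ∑ n ∈ Ico 0 (0 + N), ‖((uu S (B.eval (n : ℤ)) : ℝ) : ℂ)‖ ^ 2) * (E : ℝ) ^ (-cc) := by
    rw [mul_sum, ← sum_congr rfl hL]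
    exact hFg
  have hlog2 : Real.log ((Q ^ 2 : ℕ) : ℝ) = 2 * Real.log Q := by
    rw [Nat.cast_pow, Real.log_pow]
    norm_num
  have hE0 : (0 : ℝ) ≤ (E : ℝ) ^ (-cc) := by positivity
  have hpw : (1 + Real.log ((Q ^ 2 : ℕ) : ℝ)) ^ Cc ≤ 2 ^ Cc * (1 + Real.log Q) ^ Cc := by
    rw [hlog2, ← Real.mul_rpow (by norm_num) (by linarith)]
    exact Real.rpow_le_rpow (by linarith) (by linarith) (by linarith)
  have hb1 : (N : ℝ) ^ 2 * ∑ h ∈ cub b s, (∑ d ∈ Δ, tdf d (sys B P h)) ^ 2 ≤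
      (N : ℝ) ^ 2 * (Cc * (2 ^ Cc * (1 + Real.log Q) ^ Cc) * vol s * (500 * (1 + Real.log Q)) *
        (E : ℝ) ^ (-cc)) := by
    refine hFg'.trans ?_
    have h1 : (N : ℝ) * ∑ n ∈ Ico 0 (0 + N), ‖((uu S (B.eval (n : ℤ)) : ℝ) : ℂ)‖ ^ 2 ≤
        N * (N * (500 * (1 + Real.log Q))) := by
      refine mul_le_mul_of_nonneg_left (hsq.trans ?_) hNr.le
      refine mul_le_mul_of_nonneg_left ?_ hNr.le
      linarith
    calc Cc * (1 + Real.log ((Q ^ 2 : ℕ) : ℝ)) ^ Cc * vol s *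
          (N * ∑ n ∈ Ico 0 (0 + N), ‖((uu S (B.eval (n : ℤ)) : ℝ) : ℂ)‖ ^ 2) * (E : ℝ) ^ (-cc)
        ≤ Cc * (2 ^ Cc * (1 + Real.log Q) ^ Cc) * vol s * (N * (N * (500 * (1 + Real.log Q)))) *
          (E : ℝ) ^ (-cc) := by
          gcongr
      _ = _ := by ring
  have hb2 := le_of_mul_le_mul_left hb1 (by positivity)
  refine hb2.trans ?_
  have h1L : 1 ≤ 1 + Real.log Q := by linarith
  have h3 : (1 + Real.log Q) ^ Cc * (1 + Real.log Q) ≤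
      (1 + Real.log Q) ^ (500 * Cc * 2 ^ Cc + Cc + 1) := by
    rw [← Real.rpow_add_one (by linarith)]
    exact Real.rpow_le_rpow_of_exponent_le h1L (by linarith)
  have h4 : 500 * Cc * 2 ^ Cc ≤ 500 * Cc * 2 ^ Cc + Cc + 1 := by linarith
  calc Cc * (2 ^ Cc * (1 + Real.log Q) ^ Cc) * vol s * (500 * (1 + Real.log Q)) * (E : ℝ) ^ (-cc)
      = (500 * Cc * 2 ^ Cc) * ((1 + Real.log Q) ^ Cc * (1 + Real.log Q)) * vol s * (E : ℝ) ^ (-cc) := by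
        ring
    _ ≤ (500 * Cc * 2 ^ Cc + Cc + 1) * (1 + Real.log Q) ^ (500 * Cc * 2 ^ Cc + Cc + 1) * vol s *
        (E : ℝ) ^ (-cc) := by
        gcongr

end Pool.Agent.Lib.H24P
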