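import Pool.Agent.Lib.H24P.T1
import Pool.Agent.Lib.H24P.T3
import Pool.Agent.Lib.H24P.T4
import Pool.Agent.Lib.H24P.G1
import Pool.Agent.Lib.H59P.Z2A

/-!
# Project H24P, chunk T5 (M): truncation of the singular series, assembly
-/

open Finset Polynomial

namespace Pool.Agent.Lib.H24P

open Pool.Agent.Lib.H68T Pool.Agent.Lib.H18Q Pool.Agent.Lib.H59P

theorem t5_ratio {l : ℕ} (hl : l.Prime) : 1 ≤ (l : ℝ) / ((l : ℝ) - 1) ∧
    (l : ℝ) / ((l : ℝ) - 1) = (1 - 1 / (l : ℝ))⁻¹ := by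
  have h2 : (2 : ℝ) ≤ l := by exact_mod_cast hl.two_le
  have h1 : (0 : ℝ) < (l : ℝ) - 1 := by linarith
  have h0 : (l : ℝ) ≠ 0 := by linarith
  refine ⟨?_, ?_⟩
  · rw [le_div_iff₀ h1]
    linarith
  · rw [one_sub_div h0, inv_div]

/-- Upper bound for products of local factors. Proof. `P0_tp`: `0 ≤ 1 + tpf ≤ (l/(l-1))^(k+1)`, all primes are `≤ Q`:
`Helper57.prod_one_sub_inv_inv_le`. -/
theorem T5_up {k : ℕ} (φ : Fin k → ℤ → ℤ) (Q : ℕ) (hQ : 2 ≤ Q) (P : Finset ℕ) (hP : P ⊆ pr Q) :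
    0 ≤ SSf P φ ∧ SSf P φ ≤ (500 * Real.log Q) ^ k := by
  have hpr : ∀ l ∈ P, l.Prime := fun l hl => (Finset.mem_filter.1 (hP hl)).2
  unfold SSf
  refine ⟨Finset.prod_nonneg fun l hl => (P0_tp l (hpr l hl) φ).1, ?_⟩
  have h1 : ∏ l ∈ P, (1 + tpf l φ) ≤ ∏ l ∈ P, ((l : ℝ) / ((l : ℝ) - 1)) ^ k :=
    Finset.prod_le_prod (fun l hl => (P0_tp l (hpr l hl) φ).1)
      (fun l hl => (P0_tp l (hpr l hl) φ).2)
  have h2 : ∏ l ∈ P, ((l : ℝ) / ((l : ℝ) - 1)) ^ k ≤ ∏ l ∈ pr Q, ((l : ℝ) / ((l : ℝ) - 1)) ^ k := by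
    rw [← Finset.prod_sdiff hP]
    refine le_mul_of_one_le_left (Finset.prod_nonneg fun l hl => ?_) ?_
    · exact pow_nonneg (zero_le_one.trans (t5_ratio (hpr l hl)).1) _
    · have h5 : ∏ _l ∈ pr Q \ P, (1 : ℝ) ≤ ∏ l ∈ pr Q \ P, ((l : ℝ) / ((l : ℝ) - 1)) ^ k :=
        Finset.prod_le_prod (fun _ _ => zero_le_one) fun l hl =>
          one_le_pow₀ (t5_ratio (Finset.mem_filter.1 (Finset.mem_sdiff.1 hl).1).2).1
      rwa [Finset.prod_const_one] at h5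
  have h3 : ∏ l ∈ pr Q, ((l : ℝ) / ((l : ℝ) - 1)) ^ k =
      (∏ l ∈ pr Q, (1 - 1 / (l : ℝ))⁻¹) ^ k := by
    rw [Finset.prod_pow]
    congr 1
    exact Finset.prod_congr rfl fun l hl => (t5_ratio (Finset.mem_filter.1 hl).2).2
  have h4 : pr Q = Sieve.primesUpTo Q := by
    ext l
    rw [Sieve.mem_primesUpTo]
    unfold pr
    rw [Finset.mem_filter, Finset.mem_Icc]
    constructor
    · rintro ⟨⟨_, h⟩, h'⟩
      exact ⟨h', h⟩
    · rintro ⟨h', h⟩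
      exact ⟨⟨h'.one_le, h⟩, h'⟩
  rw [h3] at h2
  refine h1.trans (h2.trans ?_)
  rw [h4]
  refine pow_le_pow_left₀ (Finset.prod_nonneg fun l hl => ?_) (Helper57.prod_one_sub_inv_inv_le Q hQ) k
  have hl' := (Sieve.mem_primesUpTo.1 hl).1
  rw [← (t5_ratio hl').2]
  exact zero_le_one.trans (t5_ratio hl').1

theorem t5_SF {Q E R : ℕ} (hE : E ≤ Q) :
    SF E R = dv ((pr Q).filter (fun l => ¬ l ∣ R)) Q E := by
  unfold SF dv
  refine Finset.filter_congr fun d hd => ?_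
  rw [Finset.mem_Icc] at hd
  refine and_congr_right fun hsq => ?_
  constructor
  · intro h l hl
    have hlp := Nat.prime_of_mem_primeFactors hl
    have hld := Nat.dvd_of_mem_primeFactors hl
    have hlQ : l ≤ Q := (Nat.le_of_dvd (by omega) hld).trans (hd.2.trans hE)
    refine ⟨Finset.mem_filter.2 ⟨Finset.mem_filter.2 ⟨Finset.mem_Icc.2 ⟨hlp.one_le, hlQ⟩, hlp⟩, ?_⟩, hlQ⟩
    intro hlR
    exact hlp.one_lt.ne' (Nat.dvd_one.1 (h ▸ Nat.dvd_gcd hld hlR))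
  · intro h
    by_contra hnc
    obtain ⟨l, hlp, h1, h2⟩ := Nat.Prime.not_coprime_iff_dvd.1 hnc
    exact (Finset.mem_filter.1 (h l (Nat.mem_primeFactors.2 ⟨hlp, h1, by omega⟩)).1).2 h2

/-- Minkowski with one distinguished term. -/
theorem t5_mink {α : Type*} (S : Finset α) (P : Finset ℕ) (γ : ℕ → ℝ) (hγ : ∀ q ∈ P, 0 ≤ γ q)
    (g : α → ℝ) (f : ℕ → α → ℝ) (D : α → ℝ) (c W : ℝ) (hW : 0 ≤ W)
    (hc : 1 + ∑ q ∈ P, γ q ≤ c) (hg : ∑ h ∈ S, g h ^ 2 ≤ W)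
    (hf : ∀ q ∈ P, ∑ h ∈ S, f q h ^ 2 ≤ W)
    (hD : ∀ h ∈ S, |D h| ≤ |g h| + ∑ q ∈ P, γ q * |f q h|) :
    ∑ h ∈ S, D h ^ 2 ≤ c ^ 2 * W := by
  classical
  let γ' : Option ℕ → ℂ := fun o => match o with
    | none => 1
    | some q => (γ q : ℂ)
  let f' : Option ℕ → α → ℂ := fun o h => match o with
    | none => ((|g h| : ℝ) : ℂ)
    | some q => ((|f q h| : ℝ) : ℂ)
  have h1 := Z2a S (Finset.insertNone P) γ' f' c W hW ?_ ?_
  · refine le_trans (Finset.sum_le_sum fun h hh => ?_) h1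
    have h2 : ∑ o ∈ Finset.insertNone P, γ' o * f' o h =
        ((|g h| + ∑ q ∈ P, γ q * |f q h| : ℝ) : ℂ) := by
      rw [Finset.sum_insertNone]
      simp only [γ', f']
      push_cast
      rw [one_mul]
    rw [h2, Complex.norm_real, ← sq_abs (D h)]
    refine pow_le_pow_left₀ (abs_nonneg _) ?_ 2
    rw [Real.norm_eq_abs]
    exact (hD h hh).trans (le_abs_self _)
  · rw [Finset.sum_insertNone]
    simp only [γ', norm_one, Complex.norm_real, Real.norm_eq_abs]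
    refine le_trans (le_of_eq ?_) hc
    congr 1
    exact Finset.sum_congr rfl fun q hq => abs_of_nonneg (hγ q hq)
  · intro o ho
    rw [Finset.mem_insertNone] at ho
    rcases o with _ | q
    · simp only [f', Complex.norm_real, Real.norm_eq_abs, abs_abs, sq_abs]
      exact hg
    · simp only [f', Complex.norm_real, Real.norm_eq_abs, abs_abs, sq_abs]
      exact hf q (ho q rfl)

theorem t5_harm (Q : ℕ) (P : Finset ℕ) (hP : P ⊆ pr Q) : ∑ q ∈ P, 1 / (q : ℝ) ≤ 1 + Real.log Q := by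
  have h1 : ∑ q ∈ P, 1 / (q : ℝ) ≤ ∑ q ∈ Icc 1 Q, 1 / (q : ℝ) := by
    refine Finset.sum_le_sum_of_subset_of_nonneg ?_ (fun q _ _ => by positivity)
    exact hP.trans (Finset.filter_subset _ _)
  have h2 : ∑ q ∈ Icc 1 Q, 1 / (q : ℝ) = ((harmonic Q : ℚ) : ℝ) := by
    rw [harmonic_eq_sum_Icc]
    push_cast
    exact Finset.sum_congr rfl fun q _ => one_div _
  rw [h2] at h1
  exact h1.trans (harmonic_le_one_add_log Q)

/-- The members of `mv`. -/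
theorem t5_mv {Q E R a j : ℕ} (hE : E ≤ Q) (ha : a ∣ R) (hj : j ≤ Q) :
    ∀ d ∈ mv ((pr Q).filter (fun l => ¬ l ∣ R)) j E, Squarefree d ∧ E < d ∧ d ≤ Q ^ 2 ∧
      ∀ l ∈ d.primeFactors, l ≤ Q ∧ ¬ l ∣ a := by
  intro d hd
  unfold mv at hd
  rw [Finset.mem_filter, Finset.mem_Ioc] at hd
  obtain ⟨⟨h1, h2⟩, h3, h4, -⟩ := hd
  refine ⟨h3, h1, ?_, fun l hl => ⟨(h4 l hl).2.trans hj, fun h => ?_⟩⟩
  · calc d ≤ E * j := h2
      _ ≤ Q * Q := Nat.mul_le_mul hE hj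
      _ = Q ^ 2 := (pow_two Q).symm
  · exact (Finset.mem_filter.1 (h4 l hl).1).2 (h.trans ha)

/-- The difference of the truncated and the complete singular series, pointwise. -/
theorem t5_point {k : ℕ} (φ : Fin k → ℤ → ℤ) (C1 : ℝ) (hC1 : ∀ l : ℕ, l.Prime → |tpf l φ| ≤ C1 / l)
    {Q E R : ℕ} (hQ : 2 ≤ Q) (hE1 : 1 ≤ E) (hE : E ≤ Q) (hR : 1 ≤ R) :
    |∑ d ∈ SF E R, tdf d φ - SSf ((pr Q).filter (fun l => ¬ l ∣ R)) φ| ≤
      |∑ m ∈ mv ((pr Q).filter (fun l => ¬ l ∣ R)) Q E, tdf m φ| +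
      ∑ q ∈ (pr Q).filter (fun l => ¬ l ∣ R), (C1 / q * (500 * Real.log Q) ^ k) *
        |∑ m ∈ mv ((pr Q).filter (fun l => ¬ l ∣ R)) (q - 1) E, tdf m φ| := by
  classical
  set P' := (pr Q).filter (fun l => ¬ l ∣ R) with hP'
  have hpr : ∀ l ∈ P', l.Prime := fun l hl => (Finset.mem_filter.1 (Finset.mem_filter.1 hl).1).2
  have hsub : P' ⊆ pr Q := Finset.filter_subset _ _
  have hPQ : P'.filter (fun l => l ≤ Q) = P' := by
    refine Finset.filter_true_of_mem fun l hl => ?_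
    exact (Finset.mem_Icc.1 (Finset.mem_filter.1 (hsub hl)).1).2
  have h4 := T4_main (fun l => tpf l φ) P' hpr E hE1 Q
  rw [hPQ] at h4
  have htt : ∀ d, tt (fun l => tpf l φ) d = tdf d φ := fun d => rfl
  simp only [htt] at h4
  rw [t5_SF hE, ← hP', abs_sub_comm]
  have h5 : SSf P' φ - ∑ d ∈ dv P' Q E, tdf d φ =
      ∑ m ∈ mv P' Q E, tdf m φ +
      ∑ q ∈ P', tpf q φ * (∑ m ∈ mv P' (q - 1) E, tdf m φ) *
        ∏ l ∈ P'.filter (fun l => q < l ∧ l ≤ Q), (1 + tpf l φ) := h4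
  rw [h5]
  refine (abs_add_le _ _).trans (add_le_add le_rfl ?_)
  refine (Finset.abs_sum_le_sum_abs _ _).trans (Finset.sum_le_sum fun q hq => ?_)
  rw [abs_mul, abs_mul]
  have h6 := T5_up φ Q hQ (P'.filter (fun l => q < l ∧ l ≤ Q)) ((Finset.filter_subset _ _).trans hsub)
  have h7 : |∏ l ∈ P'.filter (fun l => q < l ∧ l ≤ Q), (1 + tpf l φ)| ≤ (500 * Real.log Q) ^ k := by
    have h8 : |SSf (P'.filter (fun l => q < l ∧ l ≤ Q)) φ| ≤ (500 * Real.log Q) ^ k := by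
      rw [abs_of_nonneg h6.1]
      exact h6.2
    exact h8
  have h9 := hC1 q (hpr q hq)
  calc |tpf q φ| * |∑ m ∈ mv P' (q - 1) E, tdf m φ| *
        |∏ l ∈ P'.filter (fun l => q < l ∧ l ≤ Q), (1 + tpf l φ)|
      ≤ (C1 / q) * |∑ m ∈ mv P' (q - 1) E, tdf m φ| * (500 * Real.log Q) ^ k := by
        refine mul_le_mul (mul_le_mul_of_nonneg_right h9 (abs_nonneg _)) h7 (abs_nonneg _) ?_
        exact mul_nonneg ((abs_nonneg _).trans h9) (abs_nonneg _)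
    _ = (C1 / q * (500 * Real.log Q) ^ k) * |∑ m ∈ mv P' (q - 1) E, tdf m φ| := by ring

/-- **T5.** Proof. Fix `R`; `P' = (pr Q).filter (¬ l ∣ R)`, `E = fl Q (1/2) / R`, `1 ≤ E ≤ Q`, `E ≥ Q^(1/4)` (`G1_size`).
`SF E R = dv P' Q E`, `tt (fun l => tpf l φ) = tdf · φ`. `T4_main` with `t l = tpf l (sys B P h)` for each `h`:
the difference in `TMf` is (up to the sign) `∑_{mv P' Q E} tdf + ∑_q t_q (∑_{mv P' (q-1) E} tdf) ∏_{l > q} (1 + t_l)`,
in absolute value at most `∑_{q'} γ_{q'} |G_{q'}(h)|` with `G_{q'} = ∑_{mv P' q' E} tdf`, `γ_Q = 1`,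
`γ_{q-1} = (C/q) (500 log Q)^(k+1)` (`T1_abs`, `T5_up`); `∑_{q ≤ Q} 1/q ≤ 1 + log Q`. `Z2a` of `H59P` (Minkowski) with
`f_q(h) = |G_q(h)|`, whose sums of squares over `cub b s` are bounded by `T3_main` (`Δ = mv P' q' E`: `E < m ≤ E Q ≤ Q²`,
prime factors `≤ Q` not dividing `R`, hence not `lc B`). `G1_rlog`; `E^(-c) ≤ Q^(-c/4)`. -/
theorem T5_main (k A : ℕ) (hA : 1 ≤ A) : TMf k A := by
  classical
  obtain ⟨C3, c3, hC3, hc3, hc31, h3⟩ := T3_main k A hA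
  obtain ⟨C1, hC1, h1⟩ := T1_abs k A hA
  obtain ⟨Q1, hQ1, hlog⟩ := G1_rlog ((1 + C1 * 500 ^ (k + 1)) ^ 2 * C3) (2 * (k + 2) + C3) (c3 / 8)
    (by linarith)
  obtain ⟨Q2, hQ2, hsize⟩ := G1_size A
  refine ⟨c3 / 8, by linarith, max 3 (max Q1 Q2), fun Q hQ B hB P hP b s hs R hR1 hR hBR => ?_⟩
  have hQ3 : 3 ≤ Q := (le_max_left _ _).trans hQ
  have hQQ1 : Q1 ≤ Q := (le_max_left _ _).trans ((le_max_right _ _).trans hQ)
  have hQQ2 : Q2 ≤ Q := (le_max_right _ _).trans ((le_max_right _ _).trans hQ)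
  have hQr : (1 : ℝ) ≤ Q := by exact_mod_cast (show 1 ≤ Q by omega)
  have hQ0 : (0 : ℝ) < Q := by linarith
  have hL : 0 ≤ Real.log Q := Real.log_nonneg hQr
  obtain ⟨-, -, -, hEE, hEbig⟩ := hsize Q hQQ2 1 1 le_rfl hA (by rw [one_pow]; omega)
  have hEb := hEbig R hR1 hR
  have hone : (1 : ℝ) ≤ (Q : ℝ) ^ (1 / 4 : ℝ) := Real.one_le_rpow hQr (by norm_num)
  have hE1 : 1 ≤ fl Q (1 / 2) / R := by exact_mod_cast hone.trans hEb
  have hEQ : fl Q (1 / 2) / R ≤ Q := by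
    refine (Nat.div_le_self _ _).trans ?_
    exact G1_le (by omega) (by norm_num) (by norm_num)
  set E := fl Q (1 / 2) / R with hE
  set P' := (pr Q).filter (fun l => ¬ l ∣ R) with hP'
  have hsub : P' ⊆ pr Q := Finset.filter_subset _ _
  have hvol : 0 ≤ vol s := Finset.prod_nonneg fun i _ => Nat.cast_nonneg _
  have hE0 : (0 : ℝ) < E := by exact_mod_cast hE1
  have hmvs : ∀ j, j ≤ Q → ∑ h ∈ cub b s, (∑ d ∈ mv P' j E, tdf d (sys B P h)) ^ 2 ≤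
      C3 * (1 + Real.log Q) ^ C3 * vol s * (E : ℝ) ^ (-c3) := fun j hj =>
    h3 B hB P hP Q (by omega) (mv P' j E) E hE1 (t5_mv hEQ hBR hj) b s hs
  have hW : 0 ≤ C3 * (1 + Real.log Q) ^ C3 * vol s * (E : ℝ) ^ (-c3) := by
    have : 0 ≤ (1 + Real.log Q) ^ C3 := Real.rpow_nonneg (by linarith) _
    have : 0 ≤ (E : ℝ) ^ (-c3) := Real.rpow_nonneg hE0.le _
    positivity
  have hkey := t5_mink (cub b s) P' (fun q => C1 / q * (500 * Real.log Q) ^ (k + 1))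
    (fun q _ => by positivity)
    (fun h => ∑ m ∈ mv P' Q E, tdf m (sys B P h))
    (fun q h => ∑ m ∈ mv P' (q - 1) E, tdf m (sys B P h))
    (fun h => ∑ d ∈ SF E R, tdf d (sys B P h) - SSf P' (sys B P h))
    ((1 + C1 * 500 ^ (k + 1)) * (1 + Real.log Q) ^ (k + 2)) _ hW ?_ (hmvs Q le_rfl)
    (fun q hq => hmvs (q - 1) ?_) (fun h _ => t5_point (sys B P h) C1 (fun l hl => h1 B hB P hP h l hl)
      (by omega) hE1 hEQ hR1)
  · refine hkey.trans ?_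
    have e1 : (E : ℝ) ^ (-c3) ≤ (Q : ℝ) ^ (-(c3 / 4)) := by
      calc (E : ℝ) ^ (-c3) ≤ ((Q : ℝ) ^ (1 / 4 : ℝ)) ^ (-c3) :=
            Real.rpow_le_rpow_of_nonpos (by linarith) hEb (by linarith)
        _ = (Q : ℝ) ^ (-(c3 / 4)) := by
            rw [← Real.rpow_mul hQ0.le]
            congr 1
            ring
    have e2 := hlog Q hQQ1
    have e3 : ((1 + C1 * 500 ^ (k + 1)) * (1 + Real.log Q) ^ (k + 2)) ^ 2 *
        (C3 * (1 + Real.log Q) ^ C3) =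
        (1 + C1 * 500 ^ (k + 1)) ^ 2 * C3 * (1 + Real.log Q) ^ (2 * (k + 2) + C3) := by
      have hp : 0 < 1 + Real.log Q := by linarith
      have e4 : (1 + Real.log Q) ^ (2 * ((k : ℝ) + 2) + C3) =
          ((1 + Real.log Q) ^ (k + 2)) ^ 2 * (1 + Real.log Q) ^ C3 := by
        rw [Real.rpow_add hp]
        congr 1
        rw [← pow_mul, ← Real.rpow_natCast]
        congr 1
        push_cast
        ring
      rw [e4]
      ring
    calc ((1 + C1 * 500 ^ (k + 1)) * (1 + Real.log Q) ^ (k + 2)) ^ 2 *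
          (C3 * (1 + Real.log Q) ^ C3 * vol s * (E : ℝ) ^ (-c3))
        = (((1 + C1 * 500 ^ (k + 1)) * (1 + Real.log Q) ^ (k + 2)) ^ 2 *
          (C3 * (1 + Real.log Q) ^ C3)) * vol s * (E : ℝ) ^ (-c3) := by ring
      _ ≤ (Q : ℝ) ^ (c3 / 8) * vol s * (Q : ℝ) ^ (-(c3 / 4)) := by
          rw [e3]
          refine mul_le_mul (mul_le_mul_of_nonneg_right e2 hvol) e1 (Real.rpow_nonneg hE0.le _) ?_
          exact mul_nonneg (Real.rpow_nonneg hQ0.le _) hvol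
      _ = vol s * ((Q : ℝ) ^ (c3 / 8) * (Q : ℝ) ^ (-(c3 / 4))) := by ring
      _ = vol s * (Q : ℝ) ^ (-(c3 / 8)) := by
          rw [← Real.rpow_add hQ0]
          congr 2
          ring
  · have f1 := t5_harm Q P' hsub
    have f2 : ∑ q ∈ P', C1 / (q : ℝ) * (500 * Real.log Q) ^ (k + 1) =
        (C1 * (500 * Real.log Q) ^ (k + 1)) * ∑ q ∈ P', 1 / (q : ℝ) := by
      rw [Finset.mul_sum]
      refine Finset.sum_congr rfl fun q _ => ?_
      ring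
    rw [f2]
    have f3 : (500 * Real.log Q) ^ (k + 1) ≤ 500 ^ (k + 1) * (1 + Real.log Q) ^ (k + 1) := by
      rw [mul_pow]
      refine mul_le_mul_of_nonneg_left ?_ (by positivity)
      exact pow_le_pow_left₀ hL (by linarith) _
    have f4 : (1 : ℝ) ≤ (1 + Real.log Q) ^ (k + 2) := one_le_pow₀ (by linarith)
    have f5 : 0 ≤ C1 * (500 * Real.log Q) ^ (k + 1) := by positivity
    have f6 : C1 * (500 * Real.log Q) ^ (k + 1) * ∑ q ∈ P', 1 / (q : ℝ) ≤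
        C1 * (500 ^ (k + 1) * (1 + Real.log Q) ^ (k + 1)) * (1 + Real.log Q) := by
      refine mul_le_mul (mul_le_mul_of_nonneg_left f3 (by linarith)) f1 ?_ ?_
      · exact Finset.sum_nonneg fun q _ => by positivity
      · have : 0 ≤ 1 + Real.log Q := by linarith
        positivity
    calc 1 + C1 * (500 * Real.log Q) ^ (k + 1) * ∑ q ∈ P', 1 / (q : ℝ)
        ≤ (1 + Real.log Q) ^ (k + 2) +
          C1 * (500 ^ (k + 1) * (1 + Real.log Q) ^ (k + 1)) * (1 + Real.log Q) := add_le_add f4 f6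
      _ = (1 + C1 * 500 ^ (k + 1)) * (1 + Real.log Q) ^ (k + 2) := by ring
  · have h7 := (Finset.mem_Icc.1 (Finset.mem_filter.1 (hsub hq)).1).2
    omega

end Pool.Agent.Lib.H24P
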