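import Pool.Agent.Lib.H24P.Defs2
import Pool.Agent.Lib.H33B.V1

/-!
# Project H24P, chunk S1 (M): second moments over the boxes
-/

open Finset Polynomial

namespace Pool.Agent.Lib.H24P

open Pool.Agent.Lib.H68T Pool.Agent.Lib.H18Q Pool.Agent.Lib.H59P

/-- Crude bound. Proof. Cauchy-Schwarz in `n`: the square of the sum is at most
`(∑_n ‖w n‖²) ∑_n ∏_i ‖f i (v i n + h i)‖²`; sum over `h` (`Finset.prod_univ_sum` for the piFinset). -/
theorem S1_crude {k : ℕ} (b s : Fin k → ℕ) (I : Finset ℕ) (w : ℕ → ℂ) (v : Fin k → ℕ → ℤ)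
    (f : Fin k → ℤ → ℂ) (W : Fin k → ℝ)
    (hW : ∀ i, ∀ n ∈ I, ∑ x ∈ Ico (b i) (b i + s i), ‖f i (v i n + x)‖ ^ 2 ≤ W i) :
    ∑ h ∈ cub b s, ‖∑ n ∈ I, w n * ∏ i, f i (v i n + h i)‖ ^ 2 ≤
      (I.card : ℝ) * (∑ n ∈ I, ‖w n‖ ^ 2) * ∏ i, W i := by
  have hA : 0 ≤ ∑ n ∈ I, ‖w n‖ ^ 2 := Finset.sum_nonneg fun n _ => sq_nonneg _
  have h1 : ∀ h : Fin k → ℕ, ‖∑ n ∈ I, w n * ∏ i, f i (v i n + h i)‖ ^ 2 ≤
      (∑ n ∈ I, ‖w n‖ ^ 2) * ∑ n ∈ I, ∏ i, ‖f i (v i n + h i)‖ ^ 2 := by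
    intro h
    calc ‖∑ n ∈ I, w n * ∏ i, f i (v i n + h i)‖ ^ 2
        ≤ (∑ n ∈ I, ‖w n‖ * ‖∏ i, f i (v i n + h i)‖) ^ 2 := by
          refine pow_le_pow_left₀ (norm_nonneg _) ?_ 2
          refine (norm_sum_le _ _).trans (le_of_eq ?_)
          refine Finset.sum_congr rfl fun n _ => ?_
          rw [norm_mul]
      _ ≤ (∑ n ∈ I, ‖w n‖ ^ 2) * ∑ n ∈ I, ‖∏ i, f i (v i n + h i)‖ ^ 2 :=
          Finset.sum_mul_sq_le_sq_mul_sq _ _ _
      _ = _ := by
          congr 1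
          refine Finset.sum_congr rfl fun n _ => ?_
          rw [norm_prod, Finset.prod_pow]
  calc ∑ h ∈ cub b s, ‖∑ n ∈ I, w n * ∏ i, f i (v i n + h i)‖ ^ 2
      ≤ ∑ h ∈ cub b s, (∑ n ∈ I, ‖w n‖ ^ 2) * ∑ n ∈ I, ∏ i, ‖f i (v i n + h i)‖ ^ 2 :=
        Finset.sum_le_sum fun h _ => h1 h
    _ = (∑ n ∈ I, ‖w n‖ ^ 2) * ∑ n ∈ I, ∑ h ∈ cub b s, ∏ i, ‖f i (v i n + h i)‖ ^ 2 := by
        rw [← Finset.mul_sum, Finset.sum_comm]
    _ ≤ (∑ n ∈ I, ‖w n‖ ^ 2) * ∑ _n ∈ I, ∏ i, W i := by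
        refine mul_le_mul_of_nonneg_left (Finset.sum_le_sum fun n hn => ?_) hA
        have h2 : ∑ h ∈ cub b s, ∏ i, ‖f i (v i n + h i)‖ ^ 2 =
            ∏ i, ∑ x ∈ Ico (b i) (b i + s i), ‖f i (v i n + x)‖ ^ 2 :=
          (Finset.prod_univ_sum (fun i => Ico (b i) (b i + s i))
            (fun i x => ‖f i (v i n + (x : ℕ))‖ ^ 2)).symm
        rw [h2]
        exact Finset.prod_le_prod (fun i _ => Finset.sum_nonneg fun x _ => sq_nonneg _)
          fun i _ => hW i n hn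
    _ = _ := by
        rw [Finset.sum_const, nsmul_eq_mul]
        ring

theorem s1_cs (T : Finset ℤ) (a b : ℤ → ℝ) (W : ℝ) (ha : ∑ s ∈ T, a s ^ 2 ≤ W)
    (hb : ∑ s ∈ T, b s ^ 2 ≤ W) : |∑ s ∈ T, a s * b s| ≤ W := by
  have h0 : 0 ≤ W := le_trans (Finset.sum_nonneg fun s _ => sq_nonneg (a s)) ha
  have h1 := Finset.sum_mul_sq_le_sq_mul_sq T a b
  refine abs_le_of_sq_le_sq ?_ h0
  calc (∑ s ∈ T, a s * b s) ^ 2 ≤ (∑ s ∈ T, a s ^ 2) * ∑ s ∈ T, b s ^ 2 := h1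
    _ ≤ W * W := mul_le_mul ha hb (Finset.sum_nonneg fun s _ => sq_nonneg (b s)) h0
    _ = W ^ 2 := (sq W).symm

/-- expansion over a box of integers -/
theorem s1_exp {k : ℕ} (T : Fin k → Finset ℤ) (I : Finset ℕ) (w : ℕ → ℝ) (v : Fin k → ℕ → ℤ)
    (f : Fin k → ℤ → ℝ) :
    ∑ z ∈ Fintype.piFinset T, (∑ n ∈ I, w n * ∏ i, f i (v i n + z i)) ^ 2 =
      ∑ n ∈ I, ∑ n' ∈ I, w n * w n' * ∏ i, ∑ x ∈ T i, f i (v i n + x) * f i (v i n' + x) := by
  calc ∑ z ∈ Fintype.piFinset T, (∑ n ∈ I, w n * ∏ i, f i (v i n + z i)) ^ 2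
      = ∑ z ∈ Fintype.piFinset T, ∑ n ∈ I, ∑ n' ∈ I, w n * w n' *
          ∏ i, (f i (v i n + z i) * f i (v i n' + z i)) := by
        refine Finset.sum_congr rfl fun z _ => ?_
        rw [sq, Finset.sum_mul_sum]
        refine Finset.sum_congr rfl fun n _ => Finset.sum_congr rfl fun n' _ => ?_
        rw [Finset.prod_mul_distrib]
        ring
    _ = ∑ n ∈ I, ∑ n' ∈ I, ∑ z ∈ Fintype.piFinset T, w n * w n' *
          ∏ i, (f i (v i n + z i) * f i (v i n' + z i)) := by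
        rw [Finset.sum_comm]
        refine Finset.sum_congr rfl fun n _ => ?_
        rw [Finset.sum_comm]
    _ = _ := by
        refine Finset.sum_congr rfl fun n _ => Finset.sum_congr rfl fun n' _ => ?_
        rw [← Finset.mul_sum]
        congr 1
        exact (Finset.prod_univ_sum T (fun i x => f i (v i n + x) * f i (v i n' + x))).symm

/-- One factor `j` of bounded support is used through its correlations.

Proof. Write `h = (h_j, h')`. For fixed `h'` put `a_n = w n ∏_{i≠j} f i (v i n + h_i)`. The sum over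
`h_j ∈ Ico (b j) (b j + s j)` of `(∑_n a_n f_j(v_j n + h_j))²` is at most the sum over a large interval `T` of
integers `t` (all terms are non-negative), which contains all `t` with `v_j n + t ∈ [1, N]` for some `n ∈ I`. Expand:
`∑_{n,n'} a_n a_{n'} ∑_{t ∈ T} f_j(v_j n + t) f_j(v_j n' + t)`, the inner sum is `cor (f j) N (v_j n' - v_j n)`
(substitute `m = v_j n + t`; `cor_neg` in `H33B/V1.lean` for the sign). Now sum over `h'`:
`∑_{h'} ∏_{i≠j} f_i(v_i n + h_i) f_i(v_i n' + h_i)` is a product over `i ≠ j` of sums which are at most `W i` in absolute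
value by Cauchy-Schwarz (`s0b_aux` in `H59P/S0B.lean` is the same argument); `|w n w n'| ≤ wb²`. (One may split off the
coordinate `j` as follows: `cub b s` is `Fintype.piFinset`, `Fintype.piFinset` sums of products over all `i` factor;
equivalently first replace the box by the one in which the interval `j` is `T` (shifted to naturals), and then use
the full expansion and `Finset.prod_univ_sum`.) -/
theorem S1_cor {k : ℕ} (b s : Fin k → ℕ) (I : Finset ℕ) (w : ℕ → ℝ) (wb : ℝ)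
    (hw : ∀ n ∈ I, |w n| ≤ wb) (v : Fin k → ℕ → ℤ) (f : Fin k → ℤ → ℝ) (W : Fin k → ℝ)
    (hW0 : ∀ i, 0 ≤ W i) (j : Fin k)
    (hW : ∀ i, ∀ n ∈ I, ∑ x ∈ Ico (b i) (b i + s i), f i (v i n + x) ^ 2 ≤ W i)
    (N : ℕ) (hf : ∀ m, m ∉ Icc (1 : ℤ) N → f j m = 0) (V : ℝ)
    (hV : ∑ n ∈ I, ∑ n' ∈ I, |H33B.cor (f j) N (v j n - v j n')| ≤ V) :
    ∑ h ∈ cub b s, (∑ n ∈ I, w n * ∏ i, f i (v i n + h i)) ^ 2 ≤
      wb ^ 2 * V * ∏ i ∈ univ.erase j, W i := by
  classical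
  set Cs : Fin k → Finset ℤ := fun i => (Ico (b i) (b i + s i)).map Nat.castEmbedding with hCs
  set T : Finset ℤ := Cs j ∪ I.biUnion (fun n => (Icc (1 : ℤ) N).image (fun m => m - v j n)) with hT
  set T' : Fin k → Finset ℤ := fun i => if i = j then T else Cs i with hT'
  have hsub : ∀ i, Cs i ⊆ T' i := by
    intro i
    simp only [hT']
    split_ifs with h
    · rw [h]
      exact Finset.subset_union_left
    · exact Finset.Subset.refl _
  have h1 : ∑ h ∈ cub b s, (∑ n ∈ I, w n * ∏ i, f i (v i n + h i)) ^ 2 ≤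
      ∑ z ∈ Fintype.piFinset T', (∑ n ∈ I, w n * ∏ i, f i (v i n + z i)) ^ 2 := by
    have h2 : ∑ h ∈ cub b s, (∑ n ∈ I, w n * ∏ i, f i (v i n + h i)) ^ 2 =
        ∑ z ∈ (cub b s).image (fun h i => ((h i : ℕ) : ℤ)),
          (∑ n ∈ I, w n * ∏ i, f i (v i n + z i)) ^ 2 := by
      rw [Finset.sum_image]
      intro x _ y _ hxy
      funext i
      have := congrFun hxy i
      beta_reduce at this
      exact_mod_cast this
    rw [h2]
    refine Finset.sum_le_sum_of_subset_of_nonneg ?_ fun _ _ _ => sq_nonneg _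
    intro z hz
    obtain ⟨h, hh, rfl⟩ := Finset.mem_image.1 hz
    rw [Fintype.mem_piFinset]
    intro i
    refine hsub i ?_
    simp only [hCs]
    exact Finset.mem_map.2 ⟨h i, Fintype.mem_piFinset.1 hh i, rfl⟩
  refine h1.trans ?_
  rw [s1_exp]
  have hcor : ∀ n ∈ I, ∀ n' ∈ I, ∑ x ∈ T' j, f j (v j n + x) * f j (v j n' + x) =
      H33B.cor (f j) N (v j n - v j n') := by
    intro n hn n' _
    have h3 : ∑ x ∈ T' j, f j (v j n + x) * f j (v j n' + x) =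
        ∑' x : ℤ, f j (v j n + x) * f j (v j n' + x) := by
      symm
      refine tsum_eq_sum fun x hx => ?_
      rw [hf (v j n + x), zero_mul]
      intro h4
      apply hx
      simp only [hT', if_true]
      refine Finset.mem_union_right _ (Finset.mem_biUnion.2 ⟨n, hn, ?_⟩)
      exact Finset.mem_image.2 ⟨v j n + x, h4, by ring⟩
    rw [h3, ← H33B.cor_neg (f j) N hf, H33B.V1_tsum (f j) N hf,
      ← (Equiv.addLeft (-(v j n))).tsum_eq]
    refine tsum_congr fun m => ?_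
    simp only [Equiv.coe_addLeft]
    congr 2 <;> ring
  have hoth : ∀ i, i ≠ j → ∀ n ∈ I, ∀ n' ∈ I,
      |∑ x ∈ T' i, f i (v i n + x) * f i (v i n' + x)| ≤ W i := by
    intro i hij n hn n' hn'
    have h5 : ∀ n ∈ I, ∑ x ∈ T' i, f i (v i n + x) ^ 2 ≤ W i := by
      intro n hn
      have h6 : T' i = Cs i := by simp only [hT', if_neg hij]
      rw [h6]
      simp only [hCs]
      rw [Finset.sum_map]
      exact hW i n hn
    exact s1_cs (T' i) _ _ (W i) (h5 n hn) (h5 n' hn')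
  have hP : 0 ≤ ∏ i ∈ univ.erase j, W i := Finset.prod_nonneg fun i _ => hW0 i
  have hterm : ∀ n ∈ I, ∀ n' ∈ I,
      w n * w n' * ∏ i, ∑ x ∈ T' i, f i (v i n + x) * f i (v i n' + x) ≤
      wb ^ 2 * |H33B.cor (f j) N (v j n - v j n')| * ∏ i ∈ univ.erase j, W i := by
    intro n hn n' hn'
    have hwb : 0 ≤ wb := (abs_nonneg _).trans (hw n hn)
    refine (le_abs_self _).trans ?_
    rw [abs_mul, abs_mul, Finset.abs_prod, ← Finset.mul_prod_erase univ _ (Finset.mem_univ j),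
      hcor n hn n' hn']
    have h7 : |w n| * |w n'| ≤ wb ^ 2 := by
      rw [sq]
      exact mul_le_mul (hw n hn) (hw n' hn') (abs_nonneg _) hwb
    have h8 : ∏ i ∈ univ.erase j, |∑ x ∈ T' i, f i (v i n + x) * f i (v i n' + x)| ≤
        ∏ i ∈ univ.erase j, W i :=
      Finset.prod_le_prod (fun i _ => abs_nonneg _) fun i hi =>
        hoth i (Finset.ne_of_mem_erase hi) n hn n' hn'
    rw [← mul_assoc]
    refine mul_le_mul (mul_le_mul_of_nonneg_right h7 (abs_nonneg _)) h8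
      (Finset.prod_nonneg fun i _ => abs_nonneg _) ?_
    exact mul_nonneg (sq_nonneg _) (abs_nonneg _)
  calc ∑ n ∈ I, ∑ n' ∈ I, w n * w n' * ∏ i, ∑ x ∈ T' i, f i (v i n + x) * f i (v i n' + x)
      ≤ ∑ n ∈ I, ∑ n' ∈ I, wb ^ 2 * |H33B.cor (f j) N (v j n - v j n')| *
          ∏ i ∈ univ.erase j, W i :=
        Finset.sum_le_sum fun n hn => Finset.sum_le_sum fun n' hn' => hterm n hn n' hn'
    _ = wb ^ 2 * (∑ n ∈ I, ∑ n' ∈ I, |H33B.cor (f j) N (v j n - v j n')|) *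
          ∏ i ∈ univ.erase j, W i := by
        rw [Finset.mul_sum, Finset.sum_mul]
        refine Finset.sum_congr rfl fun n _ => ?_
        rw [Finset.mul_sum, Finset.sum_mul]
    _ ≤ wb ^ 2 * V * ∏ i ∈ univ.erase j, W i :=
        mul_le_mul_of_nonneg_right (mul_le_mul_of_nonneg_left hV (sq_nonneg _)) hP

end Pool.Agent.Lib.H24P
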