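import Pool.Agent.Lib.H24P.G1
import Pool.Agent.Lib.H24P.G2
import Pool.Agent.Lib.H24P.S1
import Pool.Agent.Lib.H59P.V1

/-!
# Project H24P, chunk V1A (M): freezing the coefficients of the random coordinates
-/

open Finset Polynomial

namespace Pool.Agent.Lib.H24P

open Pool.Agent.Lib.H68T Pool.Agent.Lib.H18Q Pool.Agent.Lib.H59P

theorem v1a_bs (H q m A : ℕ) (hH : 0 < H) (hA : A = H * q) (hm : m ∈ Ico A (2 * A)) :
    bs H m ∈ Ico A (2 * A) ∧ bs H m ≤ m ∧ m < bs H m + H := by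
  rw [Finset.mem_Ico] at hm ⊢
  have h1 : A ≤ bs H m := by
    unfold bs
    have h1 : q ≤ m / H := by
      rw [Nat.le_div_iff_mul_le hH]
      calc q * H = A := by rw [hA]; ring
        _ ≤ m := hm.1
    calc A = q * H := by rw [hA]; ring
      _ ≤ m / H * H := Nat.mul_le_mul_right _ h1
  have h2 : bs H m ≤ m := Nat.div_mul_le_self m H
  have h3 : m < bs H m + H := by
    unfold bs
    have h1 := Nat.div_add_mod' m H
    have h2 := Nat.mod_lt m hH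
    omega
  exact ⟨⟨h1, by omega⟩, h2, h3⟩

/-- slow variation, in both directions -/
theorem v1a_slow (Q Y : ℕ) (B : ℤ → Ch → ℂ) (mb : Ch → ℝ) (hB : Cf Q Y B mb) (m m' : ℤ)
    (hm : (Y : ℤ) ≤ m) (hm2 : m ≤ 4 * Y) (hm' : (Y : ℤ) ≤ m') (hm2' : m' ≤ 4 * Y) (p : Ch)
    (hp : p ∈ PC Q) : ‖B m' p - B m p‖ ≤ |(m' : ℝ) - m| * (2 * (Q : ℝ) ^ 3 / Y) := by
  rcases le_total m m' with h | h
  · have h1 := V1a Q Y B mb hB m m' hm h hm2' p hp
    rw [abs_of_nonneg (sub_nonneg.2 (by exact_mod_cast h))]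
    exact h1
  · have h1 := V1a Q Y B mb hB m' m hm' h hm2 p hp
    rw [norm_sub_rev, abs_sub_comm, abs_of_nonneg (sub_nonneg.2 (by exact_mod_cast h))]
    exact h1

/-- Pointwise comparison. Proof. As `V1b` (`H59P/V1B.lean`): `v1b_prod`, `S1b`, `Cf.eq`. The distance of
`P_i(n) + h_i` and the base point `fz` is at most `2 M_i/Q^8` (`G2_P` for `bs (X1/Q^8) n ≤ n`, which is in
`[X1, 2 X1)` because `Q^8 ∣ X1`; `h_i - bs s h_i < s = M_i/Q^8`), both are in `[Y_i, 3 Y_i)` (`G2_val`), `V1a` in the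
right order (the polynomial may decrease): the coefficients differ by at most
`(2 M_i/Q^8) (2 Q³/Y_i) ≤ 6/Q^5` (`4 Y_i = 3 M_i`), the sum over `p ∈ PC Q` by at most `6/Q³` (`card_PC_le`). -/
theorem V1_pt {k : ℕ} (P : Fin k → ℤ[X]) (L Q X X1 : ℕ) (hQ : 1 ≤ Q) (M : Fin k → ℕ)
    (hG : Geo L Q X X1 P M) (hP : ∀ i, ∀ n ∈ Ico X1 (2 * X1),
      8 * |(P i).eval (n : ℤ)| ≤ M i ∧ ∀ n' ∈ Ico X1 (2 * X1), n ≤ n' → (n' - n) * Q ^ 8 ≤ X1 →
        (Q : ℤ) ^ 8 * |(P i).eval (n' : ℤ) - (P i).eval (n : ℤ)| ≤ M i)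
    (Cc : Fin k → ℤ → Ch → ℂ) (mb : Fin k → Ch → ℝ) (hC : ∀ i, Cf Q (Ysc (M i)) (Cc i) (mb i))
    (h : Fin k → ℕ) (hh : h ∈ cub M M) (n : ℕ) (hn : n ∈ Ico X1 (2 * X1)) :
    ‖((∏ i, Lk Q (Ysc (M i) / Q ^ 2) ((P i).eval (n : ℤ) + h i) : ℝ) : ℂ) -
      ∏ i, SG Q (Cc i (fz (P i) (X1 / Q ^ 8) (M i / Q ^ 8) n (h i))) ((P i).eval (n : ℤ) + h i)‖ ≤
      k * (6 / (Q : ℝ) ^ 3) * (300 * (1 + Real.log Q) ^ 3) ^ k *
        ∏ i, dQ Q ((P i).eval (n : ℤ) + h i) ∧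
    ‖∏ i, SG Q (Cc i (fz (P i) (X1 / Q ^ 8) (M i / Q ^ 8) n (h i))) ((P i).eval (n : ℤ) + h i)‖ ≤
      (300 * (1 + Real.log Q) ^ 3) ^ k * ∏ i, dQ Q ((P i).eval (n : ℤ) + h i) := by
  have hQ1 : (1 : ℝ) ≤ Q := by exact_mod_cast hQ
  have hQ0 : (0 : ℝ) < Q := by linarith
  have hlog : 0 ≤ Real.log Q := Real.log_nonneg hQ1
  have hX1 := hG.pos
  have hq8 : 0 < Q ^ 8 := pow_pos (by omega) _
  -- the cells for n
  have hXd : Q ^ 8 ∣ X1 := (pow_dvd_pow Q (by norm_num)).trans hG.dvd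
  have hXe : X1 = X1 / Q ^ 8 * Q ^ 8 := (Nat.div_mul_cancel hXd).symm
  have hH : 0 < X1 / Q ^ 8 := Nat.div_pos (Nat.le_of_dvd hX1 hXd) hq8
  obtain ⟨hb1, hb2, hb3⟩ := v1a_bs (X1 / Q ^ 8) (Q ^ 8) n X1 hH hXe hn
  have hcell : (n - bs (X1 / Q ^ 8) n) * Q ^ 8 ≤ X1 := by
    calc (n - bs (X1 / Q ^ 8) n) * Q ^ 8 ≤ X1 / Q ^ 8 * Q ^ 8 :=
          Nat.mul_le_mul_right _ (by omega)
      _ = X1 := hXe.symm
  have hh' : ∀ i, h i ∈ Ico (M i) (M i + M i) := fun i => Fintype.mem_piFinset.1 hh i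
  have hMd : ∀ i, Q ^ 8 ∣ M i := fun i => (dvd_mul_left _ _).trans (hG.dvdM i)
  have hM8 : ∀ i, 8 ∣ M i := fun i => (dvd_mul_right _ _).trans (hG.dvdM i)
  have hMpos : ∀ i, 0 < M i := by
    intro i
    have := Finset.mem_Ico.1 (hh' i)
    omega
  have hMe : ∀ i, M i = M i / Q ^ 8 * Q ^ 8 := fun i => (Nat.div_mul_cancel (hMd i)).symm
  have hs : ∀ i, 0 < M i / Q ^ 8 := fun i => Nat.div_pos (Nat.le_of_dvd (hMpos i) (hMd i)) hq8
  -- the base points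
  obtain ⟨F, hF⟩ : ∃ F : Fin k → ℤ, F = fun i => fz (P i) (X1 / Q ^ 8) (M i / Q ^ 8) n (h i) := ⟨_, rfl⟩
  suffices hgoal : ‖((∏ i, Lk Q (Ysc (M i) / Q ^ 2) ((P i).eval (n : ℤ) + h i) : ℝ) : ℂ) -
      ∏ i, SG Q (Cc i (F i)) ((P i).eval (n : ℤ) + h i)‖ ≤
      k * (6 / (Q : ℝ) ^ 3) * (300 * (1 + Real.log Q) ^ 3) ^ k *
        ∏ i, dQ Q ((P i).eval (n : ℤ) + h i) ∧
    ‖∏ i, SG Q (Cc i (F i)) ((P i).eval (n : ℤ) + h i)‖ ≤
      (300 * (1 + Real.log Q) ^ 3) ^ k * ∏ i, dQ Q ((P i).eval (n : ℤ) + h i) by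
    rw [hF] at hgoal
    exact hgoal
  have hval : ∀ i, (Ysc (M i) : ℤ) ≤ (P i).eval (n : ℤ) + h i ∧
      (P i).eval (n : ℤ) + h i ≤ 4 * Ysc (M i) ∧ 4 * Ysc (M i) = 3 * M i := by
    intro i
    have h1 := G2_val (M i) (h i) ((P i).eval (n : ℤ)) (hM8 i) (hP i n hn).1
      (by have := hh' i; rw [← two_mul] at this; exact this)
    exact ⟨h1.1, by linarith [h1.2.1, h1.1], h1.2.2⟩
  have hY : ∀ i, 0 < Ysc (M i) := by
    intro i
    have h1 := (hval i).2.2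
    have h2 := hMpos i
    omega
  have hbase : ∀ i, (Ysc (M i) : ℤ) ≤ F i ∧ F i ≤ 4 * Ysc (M i) ∧
      (Q : ℤ) ^ 8 * |(P i).eval (n : ℤ) + h i - F i| ≤ 2 * M i := by
    intro i
    obtain ⟨c1, c2, c3⟩ := v1a_bs (M i / Q ^ 8) (Q ^ 8) (h i) (M i) (hs i) (hMe i)
      (by have := hh' i; rw [← two_mul] at this; exact this)
    have h1 := G2_val (M i) (bs (M i / Q ^ 8) (h i)) ((P i).eval ((bs (X1 / Q ^ 8) n : ℕ) : ℤ)) (hM8 i)
      (hP i _ hb1).1 c1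
    have hFe : F i = (P i).eval ((bs (X1 / Q ^ 8) n : ℕ) : ℤ) + (bs (M i / Q ^ 8) (h i) : ℕ) := by
      rw [hF]
      rfl
    rw [hFe]
    refine ⟨h1.1, by linarith [h1.2.1, h1.1], ?_⟩
    have h2 := (hP i _ hb1).2 n hn hb2 hcell
    have h3 : (Q : ℤ) ^ 8 * |((h i : ℕ) : ℤ) - (bs (M i / Q ^ 8) (h i) : ℕ)| ≤ M i := by
      have h4 : |((h i : ℕ) : ℤ) - (bs (M i / Q ^ 8) (h i) : ℕ)| ≤ ((M i / Q ^ 8 : ℕ) : ℤ) := by
        rw [abs_of_nonneg (by omega)]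
        omega
      calc (Q : ℤ) ^ 8 * |((h i : ℕ) : ℤ) - (bs (M i / Q ^ 8) (h i) : ℕ)|
          ≤ (Q : ℤ) ^ 8 * ((M i / Q ^ 8 : ℕ) : ℤ) := mul_le_mul_of_nonneg_left h4 (by positivity)
        _ = ((M i / Q ^ 8 * Q ^ 8 : ℕ) : ℤ) := by
            rw [Nat.cast_mul, Nat.cast_pow]
            ring
        _ = M i := by rw [← hMe i]
    have h5 : (P i).eval (n : ℤ) + (h i : ℤ) -
        ((P i).eval ((bs (X1 / Q ^ 8) n : ℕ) : ℤ) + (bs (M i / Q ^ 8) (h i) : ℕ)) =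
        ((P i).eval (n : ℤ) - (P i).eval ((bs (X1 / Q ^ 8) n : ℕ) : ℤ)) +
        (((h i : ℕ) : ℤ) - (bs (M i / Q ^ 8) (h i) : ℕ)) := by ring
    rw [h5]
    calc (Q : ℤ) ^ 8 * |((P i).eval (n : ℤ) - (P i).eval ((bs (X1 / Q ^ 8) n : ℕ) : ℤ)) +
        (((h i : ℕ) : ℤ) - (bs (M i / Q ^ 8) (h i) : ℕ))|
        ≤ (Q : ℤ) ^ 8 * (|(P i).eval (n : ℤ) - (P i).eval ((bs (X1 / Q ^ 8) n : ℕ) : ℤ)| +
        |((h i : ℕ) : ℤ) - (bs (M i / Q ^ 8) (h i) : ℕ)|) :=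
          mul_le_mul_of_nonneg_left (abs_add_le _ _) (by positivity)
      _ ≤ 2 * M i := by
          rw [mul_add]
          linarith
  have hZ : (∏ i : Fin k, (300 * (1 + Real.log Q) ^ 3 * dQ Q ((P i).eval (n : ℤ) + h i))) =
      (300 * (1 + Real.log Q) ^ 3) ^ k * ∏ i, dQ Q ((P i).eval (n : ℤ) + h i) := by
    rw [Finset.prod_mul_distrib, Finset.prod_const, Finset.card_univ, Fintype.card_fin]
  have hdq : ∀ i : Fin k, 0 ≤ dQ Q ((P i).eval (n : ℤ) + h i) := by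
    intro i
    exact Nat.cast_nonneg _
  have hC0 : 0 ≤ 100 * (1 + Real.log Q) ^ 3 := by positivity
  have hsg : ∀ (m : ℤ) (i : Fin k), (Ysc (M i) : ℤ) ≤ m → m ≤ 4 * Ysc (M i) →
      ‖SG Q (Cc i m) ((P i).eval (n : ℤ) + h i)‖ ≤
        300 * (1 + Real.log Q) ^ 3 * dQ Q ((P i).eval (n : ℤ) + h i) := by
    intro m i h1 h2
    refine (S1b Q hQ (Cc i m) (mb i) ((hC i).le m h1 h2) _).trans ?_
    have h3 : 0 ≤ 100 * (1 + Real.log Q) ^ 3 * dQ Q ((P i).eval (n : ℤ) + h i) := mul_nonneg hC0 (hdq i)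
    calc 100 * (1 + Real.log Q) ^ 3 * dQ Q ((P i).eval (n : ℤ) + h i) * ∑ p ∈ PC Q, mb i p
        ≤ 100 * (1 + Real.log Q) ^ 3 * dQ Q ((P i).eval (n : ℤ) + h i) * 3 :=
          mul_le_mul_of_nonneg_left (hC i).sum h3
      _ = 300 * (1 + Real.log Q) ^ 3 * dQ Q ((P i).eval (n : ℤ) + h i) := by ring
  constructor
  · have hLk : ((∏ i, Lk Q (Ysc (M i) / Q ^ 2) ((P i).eval (n : ℤ) + h i) : ℝ) : ℂ) =
        ∏ i, SG Q (Cc i ((P i).eval (n : ℤ) + h i)) ((P i).eval (n : ℤ) + h i) := by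
      rw [Complex.ofReal_prod]
      exact Finset.prod_congr rfl fun i _ => (hC i).eq _ (hval i).1 (hval i).2.1
    rw [hLk]
    have key := v1b_prod (Finset.univ : Finset (Fin k))
      (fun i => SG Q (Cc i ((P i).eval (n : ℤ) + h i)) ((P i).eval (n : ℤ) + h i))
      (fun i => SG Q (Cc i (F i)) ((P i).eval (n : ℤ) + h i))
      (fun i => 300 * (1 + Real.log Q) ^ 3 * dQ Q ((P i).eval (n : ℤ) + h i)) (6 / (Q : ℝ) ^ 3)
      (by positivity)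
      (fun i => mul_nonneg (by positivity) (hdq i))
      (fun i _ => hsg _ i (hval i).1 (hval i).2.1)
      (fun i _ => hsg _ i (hbase i).1 (hbase i).2.1)
      (fun i _ => ?_)
    · rw [hZ, Finset.card_univ, Fintype.card_fin] at key
      refine key.trans (le_of_eq ?_)
      ring
    · rw [v1b_sub]
      have hY0 : (0 : ℝ) < Ysc (M i) := by exact_mod_cast hY i
      have h1 : ∀ p ∈ PC Q, ‖Cc i ((P i).eval (n : ℤ) + h i) p - Cc i (F i) p‖ ≤ 6 / (Q : ℝ) ^ 5 := by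
        intro p hp
        refine (v1a_slow Q (Ysc (M i)) (Cc i) (mb i) (hC i) _ _ (hbase i).1 (hbase i).2.1
          (hval i).1 (hval i).2.1 p hp).trans ?_
        have h2 : (Q : ℝ) ^ 8 * |(((P i).eval (n : ℤ) + h i : ℤ) : ℝ) - ((F i : ℤ) : ℝ)| ≤ 2 * M i := by
          exact_mod_cast (hbase i).2.2
        have h3 : (4 : ℝ) * Ysc (M i) = 3 * M i := by exact_mod_cast (hval i).2.2
        have h4 : |(((P i).eval (n : ℤ) + h i : ℤ) : ℝ) - ((F i : ℤ) : ℝ)| ≤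
            (8 / 3 * Ysc (M i)) / (Q : ℝ) ^ 8 := by
          rw [le_div_iff₀ (by positivity), mul_comm]
          linarith
        calc |(((P i).eval (n : ℤ) + h i : ℤ) : ℝ) - ((F i : ℤ) : ℝ)| *
              (2 * (Q : ℝ) ^ 3 / Ysc (M i))
            ≤ (8 / 3 * Ysc (M i)) / (Q : ℝ) ^ 8 * (2 * (Q : ℝ) ^ 3 / Ysc (M i)) :=
              mul_le_mul_of_nonneg_right h4 (by positivity)
          _ = (16 / 3) / (Q : ℝ) ^ 5 := by
              field_simp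
              ring
          _ ≤ 6 / (Q : ℝ) ^ 5 := by
              apply div_le_div_of_nonneg_right _ (by positivity)
              norm_num
      refine (S1b Q hQ _ (fun _ => 6 / (Q : ℝ) ^ 5) h1 _).trans ?_
      rw [Finset.sum_const, nsmul_eq_mul]
      have hc : ((PC Q).card : ℝ) ≤ (Q : ℝ) ^ 2 := by exact_mod_cast card_PC_le Q
      have h3 : 0 ≤ 100 * (1 + Real.log Q) ^ 3 * dQ Q ((P i).eval (n : ℤ) + h i) :=
        mul_nonneg hC0 (hdq i)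
      calc 100 * (1 + Real.log Q) ^ 3 * dQ Q ((P i).eval (n : ℤ) + h i) *
            (((PC Q).card : ℝ) * (6 / (Q : ℝ) ^ 5))
          ≤ 100 * (1 + Real.log Q) ^ 3 * dQ Q ((P i).eval (n : ℤ) + h i) *
            ((Q : ℝ) ^ 2 * (6 / (Q : ℝ) ^ 5)) := by
            apply mul_le_mul_of_nonneg_left _ h3
            exact mul_le_mul_of_nonneg_right hc (by positivity)
        _ = 6 / (Q : ℝ) ^ 3 * (100 * (1 + Real.log Q) ^ 3 * dQ Q ((P i).eval (n : ℤ) + h i)) := by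
            field_simp
        _ ≤ 6 / (Q : ℝ) ^ 3 * (300 * (1 + Real.log Q) ^ 3 * dQ Q ((P i).eval (n : ℤ) + h i)) := by
            apply mul_le_mul_of_nonneg_left _ (by positivity)
            have h5 : 0 ≤ (1 + Real.log Q) ^ 3 * dQ Q ((P i).eval (n : ℤ) + h i) :=
              mul_nonneg (by positivity) (hdq i)
            nlinarith
  · rw [← hZ, norm_prod]
    exact Finset.prod_le_prod (fun i _ => norm_nonneg _) fun i _ => hsg _ i (hbase i).1 (hbase i).2.1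

end Pool.Agent.Lib.H24P
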