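import Pool.Agent.Lib.H24P.G1
import Pool.Agent.Lib.H24P.G2
import Pool.Agent.Lib.H24P.S1
import Pool.Agent.Lib.H59P.V1

/-!
# Project H24P, chunk V1B (S/M): freezing the coefficients of the random coordinates
-/

open Finset Polynomial

namespace Pool.Agent.Lib.H24P

open Pool.Agent.Lib.H68T Pool.Agent.Lib.H18Q Pool.Agent.Lib.H59P

/-- The mean square of a sum dominated by `∏ dQ`. Proof. `S1_crude` with `f i = dQ Q` (as complex numbers),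
`v i n = P_i(n)`: `∑_{x ∈ Ico M_i (2M_i)} dQ Q (P_i(n) + x)² ≤ 8 M_i (1+log Q)³` (`S1a` of `H59P`: `P_i(n) + M_i ≥ 0` is a
natural number; `Q² ≤ M_i`, from `8 Q^8 ∣ M_i`, `M_i > 0`). -/
theorem V1_dQ {k : ℕ} (P : Fin k → ℤ[X]) (L Q X X1 : ℕ) (hQ : 1 ≤ Q) (hL : 2 ≤ L) (M : Fin k → ℕ)
    (hG : Geo L Q X X1 P M) (hP : ∀ i, ∀ n ∈ Ico X1 (2 * X1), 8 * |(P i).eval (n : ℤ)| ≤ M i)
    (g : ℕ → ℝ) (δ : ℝ) (hg : ∀ n ∈ Ico X1 (2 * X1), |g n| ≤ δ) (F : (Fin k → ℕ) → ℂ)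
    (hF : ∀ h ∈ cub M M, ‖F h‖ ≤ ∑ n ∈ Ico X1 (2 * X1), |g n| * ∏ i, dQ Q ((P i).eval (n : ℤ) + h i)) :
    ∑ h ∈ cub M M, ‖F h‖ ^ 2 ≤ δ ^ 2 * (X1 : ℝ) ^ 2 * (8 * (1 + Real.log Q) ^ 3) ^ k * vol M := by
  have hX1 := hG.pos
  have hδ : 0 ≤ δ := (abs_nonneg _).trans (hg X1 (mem_Ico.2 ⟨le_refl _, by omega⟩))
  have hlog : 0 ≤ Real.log Q := Real.log_natCast_nonneg Q
  have hMpos : ∀ i, 0 < M i := by
    intro i
    have h1 := hG.lo i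
    have h2 : 0 < L * X1 ^ (P i).natDegree := Nat.mul_pos (by omega) (pow_pos hX1 _)
    omega
  have hQM : ∀ i, Q ^ 2 ≤ M i := by
    intro i
    have h1 := Nat.le_of_dvd (hMpos i) (hG.dvdM i)
    have h2 : Q ^ 2 ≤ Q ^ 8 := Nat.pow_le_pow_right hQ (by norm_num)
    omega
  have hW : ∀ i, ∀ n ∈ Ico X1 (2 * X1), ∑ x ∈ Ico (M i) (M i + M i),
      ‖((dQ Q ((P i).eval (n : ℤ) + x) : ℝ) : ℂ)‖ ^ 2 ≤ 8 * M i * (1 + Real.log Q) ^ 3 := by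
    intro i n hn
    have h1 := (abs_le.1 (show |(P i).eval (n : ℤ)| ≤ M i by have := hP i n hn; have := abs_nonneg ((P i).eval (n : ℤ)); omega)).1
    obtain ⟨a, ha⟩ := Int.eq_ofNat_of_zero_le (show 0 ≤ (P i).eval (n : ℤ) + M i by omega)
    have h2 := S1a Q (M i) hQ (hQM i) a
    refine le_trans (le_of_eq ?_) h2
    rw [Finset.sum_Ico_eq_sum_range, Nat.add_sub_cancel]
    refine Finset.sum_congr rfl fun c _ => ?_
    rw [Complex.norm_real, Real.norm_eq_abs, sq_abs]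
    congr 2
    push_cast
    rw [← ha]
    ring
  have hcr := S1_crude M M (Ico X1 (2 * X1)) (fun n => ((|g n| : ℝ) : ℂ))
    (fun i n => (P i).eval (n : ℤ)) (fun i m => ((dQ Q m : ℝ) : ℂ))
    (fun i => 8 * M i * (1 + Real.log Q) ^ 3) hW
  have hle : ∀ h ∈ cub M M, ‖F h‖ ^ 2 ≤ ‖∑ n ∈ Ico X1 (2 * X1), ((|g n| : ℝ) : ℂ) *
      ∏ i, ((dQ Q ((P i).eval (n : ℤ) + h i) : ℝ) : ℂ)‖ ^ 2 := by
    intro h hh
    have h3 : ∑ n ∈ Ico X1 (2 * X1), ((|g n| : ℝ) : ℂ) *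
        ∏ i, ((dQ Q ((P i).eval (n : ℤ) + h i) : ℝ) : ℂ) =
        ((∑ n ∈ Ico X1 (2 * X1), |g n| * ∏ i, dQ Q ((P i).eval (n : ℤ) + h i) : ℝ) : ℂ) := by
      push_cast
      rfl
    rw [h3, Complex.norm_real, Real.norm_eq_abs, sq_abs]
    exact pow_le_pow_left₀ (norm_nonneg _) (hF h hh) 2
  refine (Finset.sum_le_sum hle).trans (hcr.trans ?_)
  have hcard : ((Ico X1 (2 * X1)).card : ℝ) = X1 := by
    rw [Nat.card_Ico]
    congr 1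
    omega
  have hw : ∑ n ∈ Ico X1 (2 * X1), ‖((|g n| : ℝ) : ℂ)‖ ^ 2 ≤ X1 * δ ^ 2 := by
    calc ∑ n ∈ Ico X1 (2 * X1), ‖((|g n| : ℝ) : ℂ)‖ ^ 2 ≤ ∑ _n ∈ Ico X1 (2 * X1), δ ^ 2 := by
          refine Finset.sum_le_sum fun n hn => ?_
          rw [Complex.norm_real, Real.norm_eq_abs, abs_abs]
          exact pow_le_pow_left₀ (abs_nonneg _) (hg n hn) 2
      _ = X1 * δ ^ 2 := by rw [Finset.sum_const, nsmul_eq_mul, hcard]
  have hprod : ∏ i, (8 * (M i : ℝ) * (1 + Real.log Q) ^ 3) = (8 * (1 + Real.log Q) ^ 3) ^ k * vol M := by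
    have e1 : (8 * (1 + Real.log Q) ^ 3) ^ k = ∏ _i : Fin k, (8 * (1 + Real.log Q) ^ 3) := by
      rw [Finset.prod_const, Finset.card_univ, Fintype.card_fin]
    unfold vol
    rw [e1, ← Finset.prod_mul_distrib]
    refine Finset.prod_congr rfl fun i _ => ?_
    ring
  have hprod0 : 0 ≤ ∏ i, (8 * (M i : ℝ) * (1 + Real.log Q) ^ 3) :=
    Finset.prod_nonneg fun i _ => by positivity
  rw [hcard]
  calc (X1 : ℝ) * (∑ n ∈ Ico X1 (2 * X1), ‖((|g n| : ℝ) : ℂ)‖ ^ 2) *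
        ∏ i, (8 * (M i : ℝ) * (1 + Real.log Q) ^ 3)
      ≤ (X1 : ℝ) * (X1 * δ ^ 2) * ∏ i, (8 * (M i : ℝ) * (1 + Real.log Q) ^ 3) :=
        mul_le_mul_of_nonneg_right (mul_le_mul_of_nonneg_left hw (Nat.cast_nonneg _)) hprod0
    _ = δ ^ 2 * (X1 : ℝ) ^ 2 * (8 * (1 + Real.log Q) ^ 3) ^ k * vol M := by
        rw [hprod]
        ring

end Pool.Agent.Lib.H24P
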