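import Pool.Agent.Lib.H24P.G1
import Pool.Agent.Lib.H24P.G2
import Pool.Agent.Lib.H24P.S1
import Pool.Agent.Lib.H24P.V1A
import Pool.Agent.Lib.H24P.V1B
import Pool.Agent.Lib.H59P.V1

/-!
# Project H24P, chunk V1 (M): freezing the coefficients of the random coordinates
-/

open Finset Polynomial

namespace Pool.Agent.Lib.H24P

open Pool.Agent.Lib.H68T Pool.Agent.Lib.H18Q Pool.Agent.Lib.H59P

/-- **V1.** Proof. `V1_pt`, `V1_dQ` with `δ = (log X)² k (6/Q³) (300 (1+log Q)³)^k`; `G1_log`. -/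
theorem V1_main {k : ℕ} (P : Fin k → ℤ[X]) (hP : ∀ i, 1 ≤ (P i).natDegree) : ∃ L : ℕ, 2 ≤ L ∧
    ∀ C : ℝ, ∃ Q0 : ℕ, ∀ (Q X X1 : ℕ) (M : Fin k → ℕ), Q0 ≤ Q → Rg 1 C Q X → Geo L Q X X1 P M →
    ∀ (Cc : Fin k → ℤ → Ch → ℂ) (mb : Fin k → Ch → ℝ), (∀ i, Cf Q (Ysc (M i)) (Cc i) (mb i)) →
    ∀ w : ℕ → ℝ, (∀ n ∈ Ico X1 (2 * X1), |w n| ≤ (Real.log X) ^ 2) →
    ∑ h ∈ cub M M, ‖((Rw Q X1 P M w h : ℝ) : ℂ) - Rz Q X1 P M Cc (fun n => ((w n : ℝ) : ℂ)) h‖ ^ 2 ≤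
      (X1 : ℝ) ^ 2 * vol M * (Q : ℝ) ^ (-(1) : ℝ) := by
  obtain ⟨L, hL, hGP⟩ := G2_P P hP
  refine ⟨L, hL, fun C => ?_⟩
  obtain ⟨Qa, hQa1, ha⟩ := G1_log C 4 (36 * (k:ℝ) ^ 2 * 300 ^ (2 * k) * 8 ^ k) 2 two_pos
  obtain ⟨Qb, hQb1, hb⟩ := G1_rlog 1 ((9 * k : ℕ) : ℝ) 2 two_pos
  refine ⟨max Qa Qb, fun Q X X1 M hQ hR hG Cc mb hC w hw => ?_⟩
  have hQa := (le_max_left _ _).trans hQ
  have hQb := (le_max_right _ _).trans hQ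
  have hQ1 : 1 ≤ Q := hQa1.trans hQa
  have hQr : (1:ℝ) ≤ Q := by exact_mod_cast hQ1
  have hQ0 : (0:ℝ) < Q := by linarith
  have hlog : 0 ≤ Real.log Q := Real.log_natCast_nonneg Q
  have hgp := hGP Q X X1 M hG
  set κ : ℝ := k * (6 / (Q : ℝ) ^ 3) * (300 * (1 + Real.log Q) ^ 3) ^ k with hκ
  have hκ0 : 0 ≤ κ := by positivity
  have hmain := V1_dQ P L Q X X1 hQ1 hL M hG (fun i n hn => (hgp i n hn).1) (fun n => w n * κ)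
    ((Real.log X) ^ 2 * κ) (fun n hn => by
      rw [abs_mul, abs_of_nonneg hκ0]
      exact mul_le_mul_of_nonneg_right (hw n hn) hκ0)
    (fun h => ((Rw Q X1 P M w h : ℝ) : ℂ) - Rz Q X1 P M Cc (fun n => ((w n : ℝ) : ℂ)) h) (fun h hh => by
      have e : ((Rw Q X1 P M w h : ℝ) : ℂ) - Rz Q X1 P M Cc (fun n => ((w n : ℝ) : ℂ)) h =
          ∑ n ∈ Ico X1 (2 * X1), ((w n : ℝ) : ℂ) *
            (((∏ i, Lk Q (Ysc (M i) / Q ^ 2) ((P i).eval (n : ℤ) + h i) : ℝ) : ℂ) -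
              ∏ i, SG Q (Cc i (fz (P i) (X1 / Q ^ 8) (M i / Q ^ 8) n (h i))) ((P i).eval (n : ℤ) + h i)) := by
        unfold Rw Rz
        rw [Complex.ofReal_sum, ← Finset.sum_sub_distrib]
        refine Finset.sum_congr rfl fun n _ => ?_
        rw [Complex.ofReal_mul, mul_sub]
      rw [e]
      refine (norm_sum_le _ _).trans (Finset.sum_le_sum fun n hn => ?_)
      rw [norm_mul, Complex.norm_real, Real.norm_eq_abs, abs_mul, abs_of_nonneg hκ0, mul_assoc]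
      exact mul_le_mul_of_nonneg_left (V1_pt P L Q X X1 hQ1 M hG hgp Cc mb hC h hh n hn).1 (abs_nonneg _))
  refine hmain.trans ?_
  have hvol : 0 ≤ vol M := Finset.prod_nonneg fun i _ => Nat.cast_nonneg _
  have k1 := ha Q X hQa hR.2
  have k2 := hb Q hQb
  rw [one_mul, Real.rpow_natCast] at k2
  have h2 : (Q:ℝ) ^ (2:ℝ) = (Q:ℝ) ^ 2 := by exact_mod_cast Real.rpow_natCast (Q:ℝ) 2
  rw [h2] at k1 k2
  have h3 : (Q:ℝ) ^ (-(1):ℝ) = ((Q:ℝ))⁻¹ := by rw [Real.rpow_neg hQ0.le, Real.rpow_one]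
  rw [h3]
  have key : ((Real.log X) ^ 2 * κ) ^ 2 * (8 * (1 + Real.log Q) ^ 3) ^ k ≤ ((Q:ℝ))⁻¹ := by
    have e : ((Real.log X) ^ 2 * κ) ^ 2 * (8 * (1 + Real.log Q) ^ 3) ^ k =
        (36 * (k:ℝ) ^ 2 * 300 ^ (2 * k) * 8 ^ k * (Real.log X) ^ 4) * (1 + Real.log Q) ^ (9 * k) / (Q:ℝ) ^ 6 := by
      rw [hκ, mul_pow (300:ℝ), mul_pow (8:ℝ), ← pow_mul, pow_mul (300:ℝ) 2 k]
      have e1 : (300:ℝ) ^ 2 = 300 * 300 := by norm_num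
      have e2 : (1 + Real.log Q) ^ (9 * k) = ((1 + Real.log Q) ^ (3 * k)) ^ 2 * (1 + Real.log Q) ^ (3 * k) := by
        rw [← pow_mul, ← pow_add]
        congr 1
        ring
      rw [e2, e1, mul_pow (300:ℝ) 300 k]
      field_simp
      ring
    rw [e, div_le_iff₀ (by positivity)]
    calc (36 * (k:ℝ) ^ 2 * 300 ^ (2 * k) * 8 ^ k * (Real.log X) ^ 4) * (1 + Real.log Q) ^ (9 * k)
        ≤ (Q:ℝ) ^ 2 * (Q:ℝ) ^ 2 := mul_le_mul k1 k2 (by positivity) (by positivity)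
      _ = (Q:ℝ) ^ 4 := by ring
      _ ≤ (Q:ℝ) ^ 5 := pow_le_pow_right₀ hQr (by norm_num)
      _ = ((Q:ℝ))⁻¹ * (Q:ℝ) ^ 6 := by field_simp
  calc ((Real.log X) ^ 2 * κ) ^ 2 * (X1 : ℝ) ^ 2 * (8 * (1 + Real.log Q) ^ 3) ^ k * vol M
      = (((Real.log X) ^ 2 * κ) ^ 2 * (8 * (1 + Real.log Q) ^ 3) ^ k) * ((X1 : ℝ) ^ 2 * vol M) := by ring
    _ ≤ ((Q:ℝ))⁻¹ * ((X1 : ℝ) ^ 2 * vol M) := mul_le_mul_of_nonneg_right key (by positivity)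
    _ = (X1 : ℝ) ^ 2 * vol M * ((Q:ℝ))⁻¹ := by ring

/-- Small weights. Proof. `V1_pt` (second part), `V1_dQ`; `G1_log`. -/
theorem V1_small {k : ℕ} (P : Fin k → ℤ[X]) (hP : ∀ i, 1 ≤ (P i).natDegree) : ∃ L : ℕ, 2 ≤ L ∧
    ∃ Q0 : ℕ, ∀ (Q X X1 : ℕ) (M : Fin k → ℕ), Q0 ≤ Q → Geo L Q X X1 P M →
    ∀ (Cc : Fin k → ℤ → Ch → ℂ) (mb : Fin k → Ch → ℝ), (∀ i, Cf Q (Ysc (M i)) (Cc i) (mb i)) →
    ∀ (w : ℕ → ℂ) (δ : ℝ), (∀ n ∈ Ico X1 (2 * X1), ‖w n‖ ≤ δ) →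
    ∑ h ∈ cub M M, ‖Rz Q X1 P M Cc w h‖ ^ 2 ≤ δ ^ 2 * (X1 : ℝ) ^ 2 * vol M * Q := by
  obtain ⟨L, hL, hGP⟩ := G2_P P hP
  refine ⟨L, hL, ?_⟩
  obtain ⟨Qb, hQb1, hb⟩ := G1_rlog (300 ^ (2 * k) * 8 ^ k) ((9 * k : ℕ) : ℝ) 1 one_pos
  refine ⟨Qb, fun Q X X1 M hQ hG Cc mb hC w δ hw => ?_⟩
  have hQ1 : 1 ≤ Q := hQb1.trans hQ
  have hlog : 0 ≤ Real.log Q := Real.log_natCast_nonneg Q
  have hgp := hGP Q X X1 M hG
  set κ : ℝ := (300 * (1 + Real.log Q) ^ 3) ^ k with hκ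
  have hκ0 : 0 ≤ κ := by positivity
  have hmain := V1_dQ P L Q X X1 hQ1 hL M hG (fun i n hn => (hgp i n hn).1) (fun n => ‖w n‖ * κ)
    (δ * κ) (fun n hn => by
      rw [abs_mul, abs_of_nonneg hκ0, abs_of_nonneg (norm_nonneg _)]
      exact mul_le_mul_of_nonneg_right (hw n hn) hκ0)
    (fun h => Rz Q X1 P M Cc w h) (fun h hh => by
      unfold Rz
      refine (norm_sum_le _ _).trans (Finset.sum_le_sum fun n hn => ?_)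
      rw [norm_mul, abs_mul, abs_of_nonneg hκ0, abs_of_nonneg (norm_nonneg _), mul_assoc]
      exact mul_le_mul_of_nonneg_left (V1_pt P L Q X X1 hQ1 M hG hgp Cc mb hC h hh n hn).2 (norm_nonneg _))
  refine hmain.trans ?_
  have hvol : 0 ≤ vol M := Finset.prod_nonneg fun i _ => Nat.cast_nonneg _
  have k2 := hb Q hQ
  rw [Real.rpow_natCast, Real.rpow_one] at k2
  have key : κ ^ 2 * (8 * (1 + Real.log Q) ^ 3) ^ k ≤ Q := by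
    refine le_trans (le_of_eq ?_) k2
    rw [hκ, mul_pow (300:ℝ), mul_pow (8:ℝ), ← pow_mul, pow_mul (300:ℝ) 2 k]
    have e1 : (300:ℝ) ^ 2 = 300 * 300 := by norm_num
    have e2 : (1 + Real.log Q) ^ (9 * k) = ((1 + Real.log Q) ^ (3 * k)) ^ 2 * (1 + Real.log Q) ^ (3 * k) := by
      rw [← pow_mul, ← pow_add]
      congr 1
      ring
    rw [e2, e1, mul_pow (300:ℝ) 300 k]
    ring
  calc (δ * κ) ^ 2 * (X1 : ℝ) ^ 2 * (8 * (1 + Real.log Q) ^ 3) ^ k * vol M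
      = (κ ^ 2 * (8 * (1 + Real.log Q) ^ 3) ^ k) * (δ ^ 2 * (X1 : ℝ) ^ 2 * vol M) := by ring
    _ ≤ Q * (δ ^ 2 * (X1 : ℝ) ^ 2 * vol M) := mul_le_mul_of_nonneg_right key (by positivity)
    _ = δ ^ 2 * (X1 : ℝ) ^ 2 * vol M * Q := by ring

end Pool.Agent.Lib.H24P
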