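import Pool.Agent.Lib.H24P.V1
import Pool.Agent.Lib.H59P.V1A

/-!
# Project H24P, chunk V2 (S/M): freezing the coefficients of the linear coordinate
-/

open Finset Polynomial

namespace Pool.Agent.Lib.H24P

open Pool.Agent.Lib.H68T Pool.Agent.Lib.H18Q Pool.Agent.Lib.H59P

/-- The frozen linear coordinate: cells of length `X1/Q^800`. -/
noncomputable def gB (Q X1 : ℕ) (B : ℤ[X]) (C0 : ℤ → Ch → ℂ) (n : ℕ) : ℂ :=
  SG (Q ^ 100) (C0 (B.eval ((bs (X1 / Q ^ 800) n : ℕ) : ℤ))) (B.eval (n : ℤ))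

theorem v2_slow (Q X : ℕ) (B : ℤ → Ch → ℂ) (mb : Ch → ℝ) (hB : Cf Q X B mb) (m m' : ℤ)
    (hm : (X : ℤ) ≤ m) (hm4 : m ≤ 4 * X) (hm' : (X : ℤ) ≤ m') (hm4' : m' ≤ 4 * X) (p : Ch)
    (hp : p ∈ PC Q) : ‖B m p - B m' p‖ ≤ |((m - m' : ℤ) : ℝ)| * (2 * (Q : ℝ) ^ 3 / X) := by
  rcases le_total m m' with h | h
  · have h1 := V1a Q X B mb hB m m' hm h hm4' p hp
    have h2 : |((m - m' : ℤ) : ℝ)| = (m' : ℝ) - m := by
      rw [abs_of_nonpos]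
      · push_cast
        ring
      · have : m - m' ≤ 0 := by linarith
        exact_mod_cast this
    rw [h2, ← norm_neg, neg_sub]
    exact h1
  · have h1 := V1a Q X B mb hB m' m hm' h hm4 p hp
    have h2 : |((m - m' : ℤ) : ℝ)| = (m : ℝ) - m' := by
      rw [abs_of_nonneg]
      · push_cast
        ring
      · have : 0 ≤ m - m' := by linarith
        exact_mod_cast this
    rw [h2]
    exact h1

theorem v2_SG (Q : ℕ) (hQ : 1 ≤ Q) (b b' : Ch → ℂ) (D : ℝ) (hD : ∀ p ∈ PC Q, ‖b p - b' p‖ ≤ D)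
    (hD0 : 0 ≤ D) (m : ℤ) :
    ‖SG Q b m - SG Q b' m‖ ≤ 100 * (1 + Real.log Q) ^ 3 * Q * ((Q : ℝ) ^ 2 * D) := by
  have h1 : SG Q b m - SG Q b' m = SG Q (fun p => b p - b' p) m := by
    unfold SG
    rw [← sum_sub_distrib]
    refine sum_congr rfl fun p _ => ?_
    ring
  rw [h1]
  have h2 := S1b Q hQ (fun p => b p - b' p) (fun _ => D) hD m
  refine h2.trans ?_
  have h3 : dQ Q m ≤ Q := by
    unfold dQ
    have h4 : ((Icc 1 Q).filter (fun d : ℕ => (d : ℤ) ∣ m)).card ≤ Q := by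
      refine (card_filter_le _ _).trans ?_
      simp
    exact_mod_cast h4
  have h4 : ∑ p ∈ PC Q, D ≤ (Q : ℝ) ^ 2 * D := by
    rw [sum_const, nsmul_eq_mul]
    refine mul_le_mul_of_nonneg_right ?_ hD0
    exact_mod_cast card_PC_le Q
  have hl : 0 ≤ Real.log Q := Real.log_natCast_nonneg Q
  have h5 : 0 ≤ dQ Q m := by
    unfold dQ
    positivity
  have h6 : 0 ≤ ∑ p ∈ PC Q, D := sum_nonneg fun _ _ => hD0
  gcongr

/-- Proof. `Lk = SG (C0 (B n)) (B n)` (`Cf.eq`); by `S1b` of `H59P` for the difference of the coefficients the left side is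
at most `100 (1+log Q^100)³ dQ (Q^100) (B n) ∑_p ‖…‖`; `dQ ≤ Q^100`, at most `Q^200` characters (`card_PC_le`), each
difference at most `|B(n) - B(bs n)| 2 Q^300/Y` (`V1a` of `H59P` in the right order; both arguments are in `[Y, 3Y)` as
`bs n ∈ [X1, 2 X1)`: `Q^800 ∣ X1`), `|B(n) - B(bs n)| ≤ A X1/Q^800` and `X1 ≤ 2 Y`. Total
`400 A (1+log Q^100)³ Q^600/Q^800 ≤ Q^(-10)`. -/
theorem V2_pt (A : ℕ) : ∃ Q0 : ℕ, ∀ (Q X X1 Y : ℕ) (B : ℤ[X]) (C0 : ℤ → Ch → ℂ) (mb : Ch → ℝ),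
    Q0 ≤ Q → Q ^ 800 ∣ X1 → GeoB A X X1 Y B → Cf (Q ^ 100) Y C0 mb → ∀ n ∈ Ico X1 (2 * X1),
    ‖((Lk (Q ^ 100) (Y / (Q ^ 100) ^ 2) (B.eval (n : ℤ)) : ℝ) : ℂ) - gB Q X1 B C0 n‖ ≤
      (Q : ℝ) ^ (-(10) : ℝ) := by
  refine ⟨400000000 * A + 1, ?_⟩
  intro Q X X1 Y B C0 mb hQ hdvd hG hC n hn
  obtain ⟨hn1, hn2⟩ := mem_Ico.mp hn
  have hX1 : 0 < X1 := by omega
  have hQ1 : 1 ≤ Q := by omega
  obtain ⟨s0, hs0⟩ := hdvd
  have hQp : 0 < Q ^ 800 := pow_pos hQ1 _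
  have hs : X1 / Q ^ 800 = s0 := by rw [hs0, Nat.mul_div_cancel_left _ hQp]
  have hs0p : 0 < s0 := by
    rcases Nat.eq_zero_or_pos s0 with h | h
    · rw [h, mul_zero] at hs0
      omega
    · exact h
  set b : ℕ := bs (X1 / Q ^ 800) n with hb
  have hbn : b ≤ n := by
    rw [hb, hs]
    exact Nat.div_mul_le_self n s0
  have hnb : n - b < s0 := by
    rw [hb, hs]
    unfold bs
    have := Nat.mod_lt n hs0p
    have h2 := Nat.div_add_mod' n s0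
    omega
  have hX1b : X1 ≤ b := by
    rw [hb, hs]
    unfold bs
    have h1 : Q ^ 800 ≤ n / s0 := by
      rw [Nat.le_div_iff_mul_le hs0p, ← hs0]
      exact hn1
    calc X1 = Q ^ 800 * s0 := hs0
      _ ≤ n / s0 * s0 := Nat.mul_le_mul_right _ h1
  have hbI : b ∈ Ico X1 (2 * X1) := mem_Ico.mpr ⟨hX1b, by omega⟩
  have hYn := hG.lo n hn
  have hYn' := hG.hi n hn
  have hYb := hG.lo b hbI
  have hYb' := hG.hi b hbI
  have hY0 : 0 < Y := by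
    have := hG.Ylo
    omega
  have hlin : B.eval (n : ℤ) - B.eval (b : ℤ) = B.coeff 1 * ((n : ℤ) - b) := by
    rw [eval_eq_sum_range, eval_eq_sum_range, hG.lin.deg, sum_range_succ, sum_range_one,
      sum_range_succ, sum_range_one]
    ring
  have hA : |B.coeff 1| ≤ A := by
    have h1 := hG.lin.lc
    unfold leadingCoeff at h1
    rw [hG.lin.deg] at h1
    have h2 : ((B.coeff 1).natAbs : ℤ) ≤ A := by exact_mod_cast h1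
    rwa [Int.natCast_natAbs] at h2
  have hdiff : |((B.eval (n : ℤ) - B.eval (b : ℤ) : ℤ) : ℝ)| ≤ A * s0 := by
    have h1 : |B.eval (n : ℤ) - B.eval (b : ℤ)| ≤ (A : ℤ) * s0 := by
      rw [hlin, abs_mul]
      refine mul_le_mul hA ?_ (abs_nonneg _) (by positivity)
      rw [abs_of_nonneg (by omega)]
      omega
    have h2 : ((|B.eval (n : ℤ) - B.eval (b : ℤ)| : ℤ) : ℝ) ≤ ((A : ℤ) * s0 : ℤ) := by
      exact_mod_cast h1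
    push_cast at h2 ⊢
    exact h2
  have hQ100 : 1 ≤ Q ^ 100 := Nat.one_le_pow _ _ hQ1
  have hYr : (0 : ℝ) < Y := by exact_mod_cast hY0
  have hQr : (1 : ℝ) ≤ Q := by exact_mod_cast hQ1
  have e1 : ((Lk (Q ^ 100) (Y / (Q ^ 100) ^ 2) (B.eval (n : ℤ)) : ℝ) : ℂ)
      = SG (Q ^ 100) (C0 (B.eval (n : ℤ))) (B.eval (n : ℤ)) := hC.eq _ hYn (by linarith)
  rw [e1]
  unfold gB
  have hD0 : (0 : ℝ) ≤ A * s0 * (2 * ((Q ^ 100 : ℕ) : ℝ) ^ 3 / Y) := by positivity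
  have h3 := v2_SG (Q ^ 100) hQ100 (C0 (B.eval (n : ℤ))) (C0 (B.eval (b : ℤ)))
    (A * s0 * (2 * ((Q ^ 100 : ℕ) : ℝ) ^ 3 / Y)) (fun p hp => by
      refine (v2_slow (Q ^ 100) Y C0 mb hC (B.eval (n : ℤ)) (B.eval (b : ℤ)) hYn (by linarith)
        hYb (by linarith) p hp).trans ?_
      exact mul_le_mul_of_nonneg_right hdiff (by positivity)) hD0 (B.eval (n : ℤ))
  refine h3.trans ?_
  have hlog : Real.log ((Q ^ 100 : ℕ) : ℝ) = 100 * Real.log Q := by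
    rw [Nat.cast_pow, Real.log_pow]
    norm_num
  rw [hlog]
  have hl0 : 0 ≤ Real.log Q := Real.log_natCast_nonneg Q
  have hl1 : 1 + 100 * Real.log Q ≤ 100 * Q := by
    have := Real.log_le_sub_one_of_pos (by linarith : (0 : ℝ) < Q)
    linarith
  have hl3 : (1 + 100 * Real.log Q) ^ 3 ≤ (100 * Q) ^ 3 :=
    pow_le_pow_left₀ (by linarith) hl1 3
  have hsY : (s0 : ℝ) * (Q : ℝ) ^ 800 ≤ 2 * Y := by
    have h1 : X1 ≤ 2 * Y := hG.Ylo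
    have h2 : ((s0 * Q ^ 800 : ℕ) : ℝ) ≤ ((2 * Y : ℕ) : ℝ) := by
      have : s0 * Q ^ 800 ≤ 2 * Y := by
        rw [mul_comm, ← hs0]
        exact h1
      exact_mod_cast this
    push_cast at h2
    exact h2
  have hAQ : 400000000 * (A : ℝ) ≤ Q := by
    have : 400000000 * A ≤ Q := by omega
    exact_mod_cast this
  have hrp : (Q : ℝ) ^ (-(10) : ℝ) = ((Q : ℝ) ^ 10)⁻¹ := by
    rw [Real.rpow_neg (by linarith), Real.rpow_ofNat]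
  rw [hrp, ← one_div, le_div_iff₀ (by positivity)]
  have h7 : 100 * (1 + 100 * Real.log Q) ^ 3 * ((Q ^ 100 : ℕ) : ℝ) *
      (((Q ^ 100 : ℕ) : ℝ) ^ 2 * (A * s0 * (2 * ((Q ^ 100 : ℕ) : ℝ) ^ 3 / Y))) * (Q : ℝ) ^ 10
      = 200 * (1 + 100 * Real.log Q) ^ 3 * A * ((Q : ℝ) ^ 610 * s0 / Y) := by
    push_cast
    ring
  rw [h7]
  have h8 : (Q : ℝ) ^ 610 * s0 / Y ≤ 2 / (Q : ℝ) ^ 190 := by
    rw [div_le_div_iff₀ hYr (by positivity)]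
    have h11 : (Q : ℝ) ^ 610 * s0 * (Q : ℝ) ^ 190 = s0 * (Q : ℝ) ^ 800 := by ring
    rw [h11]
    exact hsY
  have h9 : 200 * (1 + 100 * Real.log Q) ^ 3 * A * ((Q : ℝ) ^ 610 * s0 / Y)
      ≤ 200 * (100 * Q) ^ 3 * A * (2 / (Q : ℝ) ^ 190) := by
    gcongr
  refine h9.trans ?_
  have h10 : 200 * (100 * (Q : ℝ)) ^ 3 * A * (2 / (Q : ℝ) ^ 190)
      = 400000000 * (A : ℝ) * (Q : ℝ) ^ 3 / (Q : ℝ) ^ 190 := by ring
  rw [h10, div_le_one (by positivity)]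
  calc 400000000 * (A : ℝ) * (Q : ℝ) ^ 3 ≤ Q * (Q : ℝ) ^ 3 :=
        mul_le_mul_of_nonneg_right hAQ (by positivity)
    _ = (Q : ℝ) ^ 4 := by ring
    _ ≤ (Q : ℝ) ^ 190 := pow_le_pow_right₀ hQr (by norm_num)

/-- **V2.** Proof. `Rz` is linear in the weight: `V1_small` with `δ = Q^(-10)`. -/
theorem V2_main {k : ℕ} (P : Fin k → ℤ[X]) (hP : ∀ i, 1 ≤ (P i).natDegree) (A : ℕ) : ∃ L : ℕ, 2 ≤ L ∧
    ∃ Q0 : ℕ, ∀ (Q X X1 Y : ℕ) (M : Fin k → ℕ) (B : ℤ[X]) (C0 : ℤ → Ch → ℂ) (mb : Ch → ℝ),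
    Q0 ≤ Q → Geo L Q X X1 P M → GeoB A X X1 Y B → Cf (Q ^ 100) Y C0 mb →
    ∀ (Cc : Fin k → ℤ → Ch → ℂ) (mc : Fin k → Ch → ℝ), (∀ i, Cf Q (Ysc (M i)) (Cc i) (mc i)) →
    ∑ h ∈ cub M M, ‖Rz Q X1 P M Cc
        (fun n => ((Lk (Q ^ 100) (Y / (Q ^ 100) ^ 2) (B.eval (n : ℤ)) : ℝ) : ℂ)) h -
      Rz Q X1 P M Cc (gB Q X1 B C0) h‖ ^ 2 ≤ (X1 : ℝ) ^ 2 * vol M * (Q : ℝ) ^ (-(1) : ℝ) := by
  obtain ⟨L, hL, Q1, h1⟩ := V1_small P hP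
  obtain ⟨Q2, h2⟩ := V2_pt A
  refine ⟨L, hL, max (max Q1 Q2) 1, ?_⟩
  intro Q X X1 Y M B C0 mb hQ hG hGB hC Cc mc hCc
  have hQ1 : Q1 ≤ Q := (le_max_left _ _).trans ((le_max_left _ _).trans hQ)
  have hQ2 : Q2 ≤ Q := (le_max_right _ _).trans ((le_max_left _ _).trans hQ)
  have hQ3 : 1 ≤ Q := (le_max_right _ _).trans hQ
  have h3 := h1 Q X X1 M hQ1 hG Cc mc hCc
    (fun n => ((Lk (Q ^ 100) (Y / (Q ^ 100) ^ 2) (B.eval (n : ℤ)) : ℝ) : ℂ) - gB Q X1 B C0 n)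
    ((Q : ℝ) ^ (-(10) : ℝ)) (fun n hn => h2 Q X X1 Y B C0 mb hQ2 hG.dvd hGB hC n hn)
  have h4 : ∀ h : Fin k → ℕ, Rz Q X1 P M Cc
        (fun n => ((Lk (Q ^ 100) (Y / (Q ^ 100) ^ 2) (B.eval (n : ℤ)) : ℝ) : ℂ)) h -
      Rz Q X1 P M Cc (gB Q X1 B C0) h = Rz Q X1 P M Cc
        (fun n => ((Lk (Q ^ 100) (Y / (Q ^ 100) ^ 2) (B.eval (n : ℤ)) : ℝ) : ℂ) - gB Q X1 B C0 n) h := by
    intro h
    unfold Rz
    rw [← sum_sub_distrib]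
    refine sum_congr rfl fun n _ => ?_
    ring
  simp only [h4]
  refine h3.trans ?_
  have hQr : (1 : ℝ) ≤ Q := by exact_mod_cast hQ3
  have hQp : (0 : ℝ) < Q := by linarith
  have hvol : 0 ≤ vol M := by
    unfold vol
    positivity
  have h5 : ((Q : ℝ) ^ (-(10) : ℝ)) ^ 2 * Q ≤ (Q : ℝ) ^ (-(1) : ℝ) := by
    have e1 : ((Q : ℝ) ^ (-(10) : ℝ)) ^ 2 = (Q : ℝ) ^ (-(20) : ℝ) := by
      rw [← Real.rpow_natCast, ← Real.rpow_mul hQp.le]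
      norm_num
    have e2 : (Q : ℝ) ^ (-(20) : ℝ) * Q = (Q : ℝ) ^ (-(19) : ℝ) := by
      have := Real.rpow_add hQp (-(20)) 1
      rw [Real.rpow_one] at this
      rw [← this]
      norm_num
    rw [e1, e2]
    exact Real.rpow_le_rpow_of_exponent_le hQr (by norm_num)
  calc ((Q : ℝ) ^ (-(10) : ℝ)) ^ 2 * (X1 : ℝ) ^ 2 * vol M * Q
      = (X1 : ℝ) ^ 2 * vol M * (((Q : ℝ) ^ (-(10) : ℝ)) ^ 2 * Q) := by ring
    _ ≤ (X1 : ℝ) ^ 2 * vol M * (Q : ℝ) ^ (-(1) : ℝ) :=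
        mul_le_mul_of_nonneg_left h5 (by positivity)

end Pool.Agent.Lib.H24P
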