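import Pool.Agent.Lib.H24P.B5
import Pool.Agent.Lib.H24P.G1
import Pool.Agent.Lib.H24P.G2
import Pool.Agent.Lib.H18Q.R1
import Pool.Agent.Lib.H68T.BA1

/-!
# Project H24P, chunk W2 (M): the linear coordinate minus its projection
-/

open Finset Polynomial

namespace Pool.Agent.Lib.H24P

open Pool.Agent.Lib.H68T Pool.Agent.Lib.H18Q Pool.Agent.Lib.H59P

/-- The primes minus the projection at level `Q^100` at the linear coordinate. -/
noncomputable def fB (Q Y : ℕ) (B : ℤ[X]) (n : ℕ) : ℝ :=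
  lp (B.eval (n : ℤ)) - Lk (Q ^ 100) (Y / (Q ^ 100) ^ 2) (B.eval (n : ℤ))

/-- A sum along a progression in `[Y, 3Y)`, with a linear phase. -/
theorem w2_ap (g : ℤ → ℂ) (Y : ℕ) (δ : ℝ)
    (hg : ∀ θ : ℝ, ∀ u v : ℤ, (Y : ℤ) ≤ u → v ≤ 4 * Y → ‖∑ m ∈ Ico u v, g m * e (m * θ)‖ ≤ δ)
    (W : ℕ) (hW : 0 < W) (x : ℤ) (H : ℕ)
    (hx : ∀ c : ℕ, c < H → (Y : ℤ) ≤ x + W * c ∧ x + W * c < 3 * Y) (θ : ℝ) :
    ‖∑ c ∈ range H, g (x + W * c) * e (c * θ)‖ ≤ δ := by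
  have hδ : 0 ≤ δ := (norm_nonneg _).trans (hg 0 Y Y le_rfl (by omega))
  rcases Nat.eq_zero_or_pos H with h0 | h0
  · rw [h0, Finset.sum_range_zero, norm_zero]
    exact hδ
  have hxY : (Y : ℤ) ≤ x := by
    have := (hx 0 h0).1
    simpa using this
  set u : ℤ → ℂ := fun m => if m < 3 * Y then g m else 0 with hu
  have h1 := BA1_prog u W H hW x θ
  have h2 : ∑ c ∈ range H, u (x + W * c) * e (c * θ) = ∑ c ∈ range H, g (x + W * c) * e (c * θ) := by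
    refine Finset.sum_congr rfl fun c hc => ?_
    have h3 := (hx c (mem_range.mp hc)).2
    rw [hu]
    beta_reduce
    rw [if_pos h3]
  rw [h2] at h1
  have h4 : ∀ j ∈ range W, ‖e (-(x : ℝ) * ((j + θ) / W)) *
      ∑ m ∈ Ico x (x + W * H), u m * e (m * ((j + θ) / W))‖ ≤ δ := by
    intro j _
    rw [norm_mul, BA1_norm_e, one_mul]
    have h5 : ∑ m ∈ Ico x (x + W * H), u m * e (m * ((j + θ) / W)) =
        ∑ m ∈ Ico x (min (x + W * H) (3 * Y)), g m * e (m * ((j + θ) / W)) := by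
      have h6 : (Ico x (min (x + (W : ℤ) * (H : ℤ)) (3 * (Y : ℤ))) : Finset ℤ) =
          (Ico x (x + (W : ℤ) * (H : ℤ)) : Finset ℤ).filter (fun m : ℤ => m < 3 * (Y : ℤ)) := by
        ext m
        rw [mem_filter, mem_Ico, mem_Ico, lt_min_iff]
        tauto
      rw [h6, Finset.sum_filter]
      refine Finset.sum_congr rfl fun m _ => ?_
      rw [hu]
      beta_reduce
      split_ifs
      · rfl
      · rw [zero_mul]
    rw [h5]
    refine hg _ _ _ hxY ?_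
    have := min_le_right (x + W * H) (3 * (Y : ℤ))
    omega
  have h7 : (W : ℝ) * ‖∑ c ∈ range H, g (x + W * c) * e (c * θ)‖ ≤ W * δ := by
    calc (W : ℝ) * ‖∑ c ∈ range H, g (x + W * c) * e (c * θ)‖
        = ‖(W : ℂ) * ∑ c ∈ range H, g (x + W * c) * e (c * θ)‖ := by
          rw [norm_mul, Complex.norm_natCast]
      _ = ‖∑ j ∈ range W, e (-(x : ℝ) * ((j + θ) / W)) *
            ∑ m ∈ Ico x (x + W * H), u m * e (m * ((j + θ) / W))‖ := by rw [h1]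
      _ ≤ ∑ j ∈ range W, δ := (norm_sum_le _ _).trans (Finset.sum_le_sum h4)
      _ = W * δ := by rw [Finset.sum_const, card_range, nsmul_eq_mul]
  have hW' : (0 : ℝ) < W := by exact_mod_cast hW
  exact le_of_mul_le_mul_left h7 hW'

theorem w2_lin {A : ℕ} {B : ℤ[X]} (hB : Lin A B) :
    (∀ n : ℤ, B.eval n = B.coeff 0 + B.coeff 1 * n) ∧ B.coeff 1 ≠ 0 := by
  constructor
  · intro n
    rw [Polynomial.eval_eq_sum_range, hB.deg]
    simp [Finset.sum_range_succ]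
  · have h1 : B.leadingCoeff ≠ 0 := by
      rw [Polynomial.leadingCoeff_ne_zero]
      intro h
      have h2 := hB.deg
      rw [h] at h2
      simp at h2
    rwa [Polynomial.leadingCoeff, hB.deg] at h1

/-- The Fourier transform along a linear polynomial. -/
theorem w2_four (g : ℤ → ℂ) (Y : ℕ) (δ : ℝ)
    (hg : ∀ θ : ℝ, ∀ u v : ℤ, (Y : ℤ) ≤ u → v ≤ 4 * Y → ‖∑ m ∈ Ico u v, g m * e (m * θ)‖ ≤ δ)
    {A : ℕ} {B : ℤ[X]} (hB : Lin A B) (a H : ℕ)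
    (hx : ∀ n ∈ Ico a (a + H), (Y : ℤ) ≤ B.eval (n : ℤ) ∧ B.eval (n : ℤ) < 3 * Y) (θ : ℝ) :
    ‖∑ n ∈ Ico a (a + H), g (B.eval (n : ℤ)) * e ((n : ℝ) * θ)‖ ≤ δ := by
  obtain ⟨hev, hc1⟩ := w2_lin hB
  have hfac : ∀ (s : Finset ℕ) (f : ℕ → ℂ) (t : ℝ), ‖∑ c ∈ s, f c * e t‖ = ‖∑ c ∈ s, f c‖ := by
    intro s f t
    rw [← Finset.sum_mul, norm_mul, BA1_norm_e, mul_one]
  rcases lt_or_gt_of_ne hc1 with hneg | hpos
  · obtain ⟨W, hW⟩ : ∃ W : ℕ, (W : ℤ) = -B.coeff 1 := ⟨(-B.coeff 1).toNat, by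
      rw [Int.toNat_of_nonneg (by linarith)]⟩
    have hW0 : 0 < W := by
      have : (0 : ℤ) < W := by rw [hW]; linarith
      exact_mod_cast this
    have hval : ∀ c : ℕ, c < H → B.eval ((a + (H - 1 - c) : ℕ) : ℤ) =
        B.coeff 0 + (W : ℤ) * (-((a : ℤ) + H - 1)) + W * (c : ℤ) := by
      intro c hc
      have h2 : ((a + (H - 1 - c) : ℕ) : ℤ) = a + H - 1 - c := by
        have : 1 + c ≤ H := by omega
        rw [Nat.sub_sub]
        push_cast [this]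
        ring
      rw [hev, h2, hW]
      ring
    have h1 := w2_ap g Y δ hg W hW0 (B.coeff 0 + (W : ℤ) * (-((a : ℤ) + H - 1))) H
      (fun c hc => by
        rw [← hval c hc]
        exact hx _ (by rw [mem_Ico]; omega)) (-θ)
    rw [Finset.sum_Ico_eq_sum_range, Nat.add_sub_cancel_left, ← Finset.sum_range_reflect]
    rw [← hfac _ _ (((a : ℝ) + H - 1) * θ)] at h1
    refine le_trans (le_of_eq ?_) h1
    congr 1
    refine Finset.sum_congr rfl fun c hc => ?_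
    rw [mem_range] at hc
    rw [hval c hc, mul_assoc (g _), ← BA1_e_add]
    congr 2
    have h3 : ((a + (H - 1 - c) : ℕ) : ℝ) = a + H - 1 - c := by
      have : 1 + c ≤ H := by omega
      rw [Nat.sub_sub]
      push_cast [this]
      ring
    rw [h3]
    ring
  · obtain ⟨W, hW⟩ : ∃ W : ℕ, (W : ℤ) = B.coeff 1 := ⟨(B.coeff 1).toNat, by
      rw [Int.toNat_of_nonneg (by linarith)]⟩
    have hW0 : 0 < W := by
      have : (0 : ℤ) < W := by rw [hW]; linarith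
      exact_mod_cast this
    have hval : ∀ c : ℕ, B.eval ((a + c : ℕ) : ℤ) = B.coeff 0 + (W : ℤ) * a + W * (c : ℤ) := by
      intro c
      rw [hev, hW]
      push_cast
      ring
    have h1 := w2_ap g Y δ hg W hW0 (B.coeff 0 + (W : ℤ) * a) H
      (fun c hc => by
        rw [← hval c]
        exact hx _ (by rw [mem_Ico]; omega)) θ
    rw [Finset.sum_Ico_eq_sum_range, Nat.add_sub_cancel_left]
    rw [← hfac _ _ ((a : ℝ) * θ)] at h1
    refine le_trans (le_of_eq ?_) h1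
    congr 1
    refine Finset.sum_congr rfl fun c hc => ?_
    rw [hval c, mul_assoc (g _), ← BA1_e_add]
    congr 2
    push_cast
    ring

/-- Fourier transform on intervals. Proof. `B(n) = b + a n`, `a ≠ 0`; if `a < 0` reflect. The `B(n)`, `n ∈ Ico a0 (a0+H)`, are
the `m ≡ b` modulo `|a|` in an interval contained in `[Y, 3Y)` (`GeoB`), so the sum is
`(1/|a|) ∑_{j < |a|} ∑_m (lp m - Lk m) e((m - b) (θ + j)/a)`, each inner sum is at most `Y (Q^100)^(-1/4)`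
(`fourier_smallP` with `X = Y`, `Q = Q^100`; empty intervals are trivial). `(Q^100)^(-1/4) = Q^(-25)`. -/
theorem W2_fourier : ∃ K : ℝ, 1 ≤ K ∧ ∀ (A Q X X1 Y : ℕ) (B : ℤ[X]), 1 ≤ Q → RegP K (Q ^ 100) Y →
    GeoB A X X1 Y B → ∀ a H : ℕ, X1 ≤ a → a + H ≤ 2 * X1 → ∀ θ : ℝ,
    ‖∑ n ∈ Ico a (a + H), ((fB Q Y B n : ℝ) : ℂ) * e ((n : ℝ) * θ)‖ ≤ Y * (Q : ℝ) ^ (-(25) : ℝ) := by
  obtain ⟨K, hK⟩ := fourier_smallP
  refine ⟨max K 1, le_max_right _ _, ?_⟩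
  intro A Q X X1 Y B hQ hR hG a H ha haH θ
  have hR' : RegP K (Q ^ 100) Y := hR.mono (le_trans zero_le_one (le_max_right _ _)) (le_max_left _ _)
  have hQ0 : (0 : ℝ) ≤ Q := Nat.cast_nonneg Q
  have hpow : (((Q ^ 100 : ℕ) : ℝ)) ^ (-(1 / 4) : ℝ) = (Q : ℝ) ^ (-(25) : ℝ) := by
    rw [Nat.cast_pow, ← Real.rpow_natCast, ← Real.rpow_mul hQ0]
    norm_num
  have h1 := w2_four (fun m => ((lp m - Lk (Q ^ 100) (Y / (Q ^ 100) ^ 2) m : ℝ) : ℂ)) Y
    (Y * (Q : ℝ) ^ (-(25) : ℝ)) (fun θ u v hu hv => by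
      rw [← hpow]
      exact hK (Q ^ 100) Y hR' θ u v hu hv) hG.lin a H
    (fun n hn => by
      rw [mem_Ico] at hn
      have hn' : n ∈ Ico X1 (2 * X1) := by rw [mem_Ico]; omega
      exact ⟨hG.lo n hn', hG.hi n hn'⟩) θ
  exact h1

/-- Mean squares. Proof. `|lp m| ≤ log(3 Y)` for `m < 3 Y`, `3 Y ≤ 3 A X`; `Lk = SG (C0 m) m` (`Cf.eq`), at most
`300 (1+log Q^100)³ dQ (Q^100) m` (`S1b` of `H59P`, `Cf.le`, `Cf.sum`); `B5_dQ` at level `Q^100`,
`(Q^100)² ≤ H` (`X1 ≤ H Q^800`, `X ≤ X1 Q`, `K` large: `Q^1001 ≤ X` etc.); logarithms: `log Q ≤ log X`. -/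
theorem W2_ms (A : ℕ) : ∃ K : ℝ, 1 ≤ K ∧ ∀ C : ℝ, ∃ Q0 : ℕ, ∀ (Q X X1 Y : ℕ) (B : ℤ[X])
    (C0 : ℤ → Ch → ℂ) (mb : Ch → ℝ), Q0 ≤ Q → Rg K C Q X → 0 < X1 → X1 ≤ X → X ≤ X1 * Q →
    GeoB A X X1 Y B → Cf (Q ^ 100) Y C0 mb → ∀ a H : ℕ, X1 ≤ a → a + H ≤ 2 * X1 → X1 ≤ H * Q ^ 800 →
    ∑ n ∈ Ico a (a + H), ‖((fB Q Y B n : ℝ) : ℂ)‖ ^ 2 ≤ H * (Real.log X) ^ 20 ∧
    ∀ n ∈ Ico X1 (2 * X1), |lp (B.eval (n : ℤ))| ≤ (Real.log X) ^ 2 := by
  refine ⟨1001, by norm_num, fun C => ⟨3 * A + 3, ?_⟩⟩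
  intro Q X X1 Y B C0 mb hQ hRg hX1 hX1X hXQ hG hC a H ha haH hH
  have hQ3 : 3 ≤ Q := by omega
  have hQA : 3 * A ≤ Q := by omega
  have hlogQ : 1 ≤ Real.log Q := G1_log1 hQ3
  have hlogX : 1001 * Real.log Q ≤ Real.log X := hRg.1
  set l := Real.log X with hl
  have hl1 : 1001 ≤ l := by linarith
  have hXpos : 0 < X := lt_of_lt_of_le hX1 hX1X
  have hQr : (0 : ℝ) < Q := by exact_mod_cast (show 0 < Q by omega)
  have hXr : (0 : ℝ) < X := by exact_mod_cast hXpos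
  have hQX : Q ^ 1001 ≤ X := by
    have h1 : Real.log ((Q : ℝ) ^ 1001) ≤ Real.log X := by
      rw [Real.log_pow]
      push_cast
      exact hlogX
    have h2 : (Q : ℝ) ^ 1001 ≤ X := (Real.log_le_log_iff (by positivity) hXr).1 h1
    exact_mod_cast h2
  have hH200 : (Q ^ 100) ^ 2 ≤ H := by
    have h1 : Q ^ 1001 ≤ H * Q ^ 801 := by
      calc Q ^ 1001 ≤ X := hQX
        _ ≤ X1 * Q := hXQ
        _ ≤ H * Q ^ 800 * Q := Nat.mul_le_mul_right Q hH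
        _ = H * Q ^ 801 := by ring
    have h2 : Q ^ 200 * Q ^ 801 ≤ H * Q ^ 801 := by
      rw [← pow_add]
      exact h1
    have h3 : Q ^ 200 ≤ H := Nat.le_of_mul_le_mul_right h2 (Nat.pow_pos (by omega))
    rw [← pow_mul]
    exact h3
  have hAX : Real.log (3 * (A : ℝ) * X) ≤ 2 * l := by
    rcases Nat.eq_zero_or_pos A with hA | hA
    · rw [hA]
      simp only [Nat.cast_zero, mul_zero, zero_mul, Real.log_zero]
      linarith
    have hA' : (0 : ℝ) < A := by exact_mod_cast hA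
    rw [Real.log_mul (by positivity) hXr.ne']
    have h1 : Real.log (3 * (A : ℝ)) ≤ Real.log Q := by
      refine Real.log_le_log (by positivity) ?_
      exact_mod_cast hQA
    linarith
  have hlp : ∀ n ∈ Ico X1 (2 * X1), |lp (B.eval (n : ℤ))| ≤ 2 * l := by
    intro n hn
    have h1 := hG.lo n hn
    have h2 := hG.hi n hn
    unfold Pool.Agent.Lib.H68T.lp
    split_ifs with hp
    · have h3 : 2 ≤ (B.eval (n : ℤ)).toNat := hp.two_le
      have h4 : (2 : ℤ) ≤ B.eval (n : ℤ) := by omega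
      have h5 : (2 : ℝ) ≤ ((B.eval (n : ℤ) : ℤ) : ℝ) := by exact_mod_cast h4
      rw [abs_of_nonneg (Real.log_nonneg (by linarith))]
      refine le_trans (Real.log_le_log (by linarith) ?_) hAX
      have h6 : B.eval (n : ℤ) ≤ ((3 * A * X : ℕ) : ℤ) := by
        have h7 : 3 * Y ≤ 3 * A * X := by
          have := hG.Yhi
          calc 3 * Y ≤ 3 * (A * X) := Nat.mul_le_mul_left 3 this
            _ = 3 * A * X := by ring
        have h8 : ((3 * Y : ℕ) : ℤ) ≤ ((3 * A * X : ℕ) : ℤ) := by exact_mod_cast h7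
        push_cast at h8 ⊢
        linarith
      calc ((B.eval (n : ℤ) : ℤ) : ℝ) ≤ (((3 * A * X : ℕ) : ℤ) : ℝ) := by exact_mod_cast h6
        _ = 3 * (A : ℝ) * X := by push_cast; ring
    · rw [abs_zero]
      linarith
  refine ⟨?_, fun n hn => (hlp n hn).trans ?_⟩
  · -- the mean square
    set l1 := 1 + Real.log ((Q ^ 100 : ℕ) : ℝ) with hl1d
    have hl1' : l1 = 1 + 100 * Real.log Q := by
      rw [hl1d, Nat.cast_pow, Real.log_pow]
      push_cast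
      ring
    have hl1one : 1 ≤ l1 := by rw [hl1']; linarith
    have hl1l : l1 ≤ l := by rw [hl1']; linarith
    have hQ100 : 1 ≤ Q ^ 100 := Nat.one_le_pow _ _ (by omega)
    have hLk : ∀ n ∈ Ico X1 (2 * X1), |Lk (Q ^ 100) (Y / (Q ^ 100) ^ 2) (B.eval (n : ℤ))| ≤
        300 * l1 ^ 3 * dQ (Q ^ 100) (B.eval (n : ℤ)) := by
      intro n hn
      have h1 := hG.lo n hn
      have h2 := hG.hi n hn
      have h3 : B.eval (n : ℤ) ≤ 4 * Y := by
        have : (0 : ℤ) ≤ Y := Int.natCast_nonneg Y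
        linarith
      have h4 := hC.eq _ h1 h3
      have h5 := S1b (Q ^ 100) hQ100 (C0 (B.eval (n : ℤ))) mb (fun p hp => hC.le _ h1 h3 p hp)
        (B.eval (n : ℤ))
      rw [← h4, Complex.norm_real, Real.norm_eq_abs] at h5
      refine h5.trans ?_
      have hd : 0 ≤ dQ (Q ^ 100) (B.eval (n : ℤ)) := Nat.cast_nonneg _
      calc 100 * (1 + Real.log ((Q ^ 100 : ℕ) : ℝ)) ^ 3 * dQ (Q ^ 100) (B.eval (n : ℤ)) *
            ∑ p ∈ PC (Q ^ 100), mb p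
          ≤ 100 * l1 ^ 3 * dQ (Q ^ 100) (B.eval (n : ℤ)) * 3 :=
            mul_le_mul_of_nonneg_left hC.sum (by positivity)
        _ = 300 * l1 ^ 3 * dQ (Q ^ 100) (B.eval (n : ℤ)) := by ring
    have hpt : ∀ n ∈ Ico a (a + H), ‖((fB Q Y B n : ℝ) : ℂ)‖ ^ 2 ≤
        8 * l ^ 2 + 2 * (300 * l1 ^ 3) ^ 2 * dQ (Q ^ 100) (B.eval (n : ℤ)) ^ 2 := by
      intro n hn
      have hn' : n ∈ Ico X1 (2 * X1) := by
        rw [mem_Ico] at hn ⊢
        omega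
      have h1 := hlp n hn'
      have h2 := hLk n hn'
      rw [Complex.norm_real, Real.norm_eq_abs, sq_abs]
      unfold fB
      have h3 : (lp (B.eval (n : ℤ))) ^ 2 ≤ (2 * l) ^ 2 := by
        rw [← sq_abs]
        exact pow_le_pow_left₀ (abs_nonneg _) h1 2
      have h4 : (Lk (Q ^ 100) (Y / (Q ^ 100) ^ 2) (B.eval (n : ℤ))) ^ 2 ≤
          (300 * l1 ^ 3 * dQ (Q ^ 100) (B.eval (n : ℤ))) ^ 2 := by
        rw [← sq_abs]
        exact pow_le_pow_left₀ (abs_nonneg _) h2 2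
      nlinarith [sq_nonneg (lp (B.eval (n : ℤ)) + Lk (Q ^ 100) (Y / (Q ^ 100) ^ 2) (B.eval (n : ℤ)))]
    have hms := B5_dQ (Q ^ 100) A B hG.lin a H
    have hms2 : ∑ n ∈ Ico a (a + H), dQ (Q ^ 100) (B.eval (n : ℤ)) ^ 2 ≤ 2 * H * l1 ^ 3 := by
      refine hms.trans ?_
      have h1 : (((Q ^ 100 : ℕ) : ℝ)) ^ 2 ≤ H := by exact_mod_cast hH200
      have h2 : (1 : ℝ) ≤ l1 ^ 3 := one_le_pow₀ hl1one
      have h3 : (H : ℝ) ≤ H * l1 ^ 3 := le_mul_of_one_le_right (Nat.cast_nonneg H) h2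
      linarith
    calc ∑ n ∈ Ico a (a + H), ‖((fB Q Y B n : ℝ) : ℂ)‖ ^ 2
        ≤ ∑ n ∈ Ico a (a + H), (8 * l ^ 2 + 2 * (300 * l1 ^ 3) ^ 2 *
            dQ (Q ^ 100) (B.eval (n : ℤ)) ^ 2) := Finset.sum_le_sum hpt
      _ = H * (8 * l ^ 2) + 2 * (300 * l1 ^ 3) ^ 2 *
            ∑ n ∈ Ico a (a + H), dQ (Q ^ 100) (B.eval (n : ℤ)) ^ 2 := by
          rw [Finset.sum_add_distrib, Finset.sum_const, Nat.card_Ico, Nat.add_sub_cancel_left,
            nsmul_eq_mul, ← Finset.mul_sum]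
      _ ≤ H * (8 * l ^ 2) + 2 * (300 * l1 ^ 3) ^ 2 * (2 * H * l1 ^ 3) := by
          have : 0 ≤ 2 * (300 * l1 ^ 3) ^ 2 := by positivity
          have := mul_le_mul_of_nonneg_left hms2 this
          linarith
      _ = H * (8 * l ^ 2 + 360000 * l1 ^ 9) := by ring
      _ ≤ H * l ^ 20 := by
          refine mul_le_mul_of_nonneg_left ?_ (Nat.cast_nonneg H)
          have hl0 : 0 ≤ l := by linarith
          have h1 : l1 ^ 9 ≤ l ^ 9 := pow_le_pow_left₀ (by linarith) hl1l 9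
          have h2 : l ^ 2 ≤ l ^ 9 := pow_le_pow_right₀ (by linarith) (by norm_num)
          have h3 : (1001 : ℝ) ^ 11 ≤ l ^ 11 := pow_le_pow_left₀ (by norm_num) hl1 11
          have h4 : (0 : ℝ) ≤ l ^ 9 := by positivity
          have h5 : (360008 : ℝ) ≤ l ^ 11 := le_trans (by norm_num) h3
          calc 8 * l ^ 2 + 360000 * l1 ^ 9 ≤ 360008 * l ^ 9 := by linarith
            _ ≤ l ^ 11 * l ^ 9 := mul_le_mul_of_nonneg_right h5 h4
            _ = l ^ 20 := by ring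
  · nlinarith

end Pool.Agent.Lib.H24P
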