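import Pool.Agent.Lib.H24P.W1
import Pool.Agent.Lib.H24P.W2
import Pool.Agent.Lib.H24P.E1
import Pool.Agent.Lib.H59P.Z2A

/-!
# Project H24P, chunk W3 (M): from primes to the projection in the linear coordinate
-/

open Finset Polynomial

namespace Pool.Agent.Lib.H24P

open Pool.Agent.Lib.H68T Pool.Agent.Lib.H18Q Pool.Agent.Lib.H59P

/-- Expansion. Proof. Definitions of `SG`, `Fc`, `gam_expand` (`H18Q/CA.lean`), `Finset.prod_univ_sum`. -/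
theorem W3_SG {k : ℕ} (Q : ℕ) (c : Fin k → Ch → ℂ) (m : Fin k → ℤ) :
    ∏ i, SG Q (c i) (m i) =
      ∑ p ∈ Fintype.piFinset fun _ : Fin k => PC Q, (∏ i, c i (p i)) * ∏ i, Fc Q (p i) (m i) := by
  classical
  have h1 : ∀ i, SG Q (c i) (m i) = ∑ p ∈ PC Q, c i p * Fc Q p (m i) := by
    intro i
    unfold SG Fc
    refine Finset.sum_congr rfl fun p hp => ?_
    rw [gam_expand Q p hp, mul_comm]
  calc ∏ i, SG Q (c i) (m i) = ∏ i, ∑ p ∈ PC Q, c i p * Fc Q p (m i) :=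
        Finset.prod_congr rfl fun i _ => h1 i
    _ = ∑ p ∈ Fintype.piFinset fun _ : Fin k => PC Q, ∏ i, c i (p i) * Fc Q (p i) (m i) :=
        Finset.prod_univ_sum _ _
    _ = _ := Finset.sum_congr rfl fun p _ => Finset.prod_mul_distrib

theorem w3_Rg {K K' C : ℝ} {Q X : ℕ} (h : Rg K C Q X) (hK : K' ≤ K) : Rg K' C Q X :=
  ⟨(mul_le_mul_of_nonneg_right hK (Real.log_natCast_nonneg Q)).trans h.1, h.2⟩

/-- One coarse cell. Proof. `W3_SG`, `Z2a` of `H59P` (`∑_p ∏ ‖c_i(p_i)‖ ≤ 3^k`), `W1_cell` with `f = fB`,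
`Ws = (log X)^20` (`W2_ms`), and `W2_fourier`: `Y Q^(-25) ≤ H/Q²` since `Y ≤ A X ≤ A X1 Q ≤ A H Q^9`; `RegP` from
`G2_regB`; `G1_log`. -/
theorem W3_cell (k A : ℕ) (hA : 1 ≤ A) : ∃ c K : ℝ, 0 < c ∧ 1 ≤ K ∧ ∀ C : ℝ, ∃ Q0 : ℕ,
    ∀ (Q X X1 Y : ℕ) (B : ℤ[X]) (C0 : ℤ → Ch → ℂ) (mb : Ch → ℝ), Q0 ≤ Q → Rg K C Q X → 0 < X1 →
    X1 ≤ X → X ≤ X1 * Q → GeoB A X X1 Y B → Cf (Q ^ 100) Y C0 mb →
    ∀ P : Fin k → ℤ[X], Pol A P → ∀ c' : Fin k → Ch → ℂ, (∀ i, ∑ p ∈ PC Q, ‖c' i p‖ ≤ 3) →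
    ∀ b s : Fin k → ℕ, (∀ i, Q ^ 4 ≤ s i) → ∀ a H : ℕ, X1 ≤ a → a + H ≤ 2 * X1 → X1 ≤ H * Q ^ 8 →
    ∑ h ∈ cub b s, ‖∑ n ∈ Ico a (a + H), ((fB Q Y B n : ℝ) : ℂ) *
      ∏ i, SG Q (c' i) ((P i).eval (n : ℤ) + h i)‖ ^ 2 ≤ vol s * H ^ 2 * (Q : ℝ) ^ (-c) := by
  classical
  obtain ⟨C1, c1, hC1, hc1, hc1', hW1⟩ := W1_cell k A hA
  obtain ⟨K2, hK2, hW2⟩ := W2_fourier
  obtain ⟨K3, hK3, hW3⟩ := W2_ms A
  refine ⟨c1 / 2, max (100 * K2 + 2) (max K3 10), by linarith,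
    (by norm_num : (1 : ℝ) ≤ 10).trans ((le_max_right _ _).trans (le_max_right _ _)), fun C => ?_⟩
  obtain ⟨Qa, hQa⟩ := hW3 C
  obtain ⟨Qb, hQb⟩ := G2_regB A K2 C hK2
  obtain ⟨Qc, hQc1, hQc⟩ := G1_log C 20 1 (c1 / 8) (by linarith)
  obtain ⟨Qd, hQd1, hQd⟩ := G1_rlog (2 * 9 ^ k * C1) C1 (c1 / 8) (by linarith)
  refine ⟨max (max Qa Qb) (max (max Qc Qd) (max A 1)), ?_⟩
  intro Q X X1 Y B C0 mb hQ hRg hX1 hX1X hXX1 hB hCf P hP c' hc' b s hs a H haX haH hH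
  have hQa' : Qa ≤ Q := (le_max_left _ _).trans ((le_max_left _ _).trans hQ)
  have hQb' : Qb ≤ Q := (le_max_right _ _).trans ((le_max_left _ _).trans hQ)
  have hQc' : Qc ≤ Q := (le_max_left _ _).trans ((le_max_left _ _).trans ((le_max_right _ _).trans hQ))
  have hQd' : Qd ≤ Q := (le_max_right _ _).trans ((le_max_left _ _).trans ((le_max_right _ _).trans hQ))
  have hQA : A ≤ Q := (le_max_left _ _).trans ((le_max_right _ _).trans ((le_max_right _ _).trans hQ))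
  have hQ1 : 1 ≤ Q := (le_max_right _ _).trans ((le_max_right _ _).trans ((le_max_right _ _).trans hQ))
  have hQr : (1 : ℝ) ≤ Q := by exact_mod_cast hQ1
  have hQ0 : (0 : ℝ) < Q := by linarith
  have hRa : Rg (100 * K2 + 2) C Q X := w3_Rg hRg (le_max_left _ _)
  have hRb : Rg K3 C Q X := w3_Rg hRg ((le_max_left _ _).trans (le_max_right _ _))
  have hRc : Rg 10 C Q X := w3_Rg hRg ((le_max_right _ _).trans (le_max_right _ _))
  have hHpos : 0 < H := by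
    rcases Nat.eq_zero_or_pos H with h0 | h0
    · rw [h0, zero_mul] at hH
      omega
    · exact h0
  have hHr : (0 : ℝ) < H := by exact_mod_cast hHpos
  have hXH : X ≤ H * Q ^ 9 := by
    calc X ≤ X1 * Q := hXX1
      _ ≤ (H * Q ^ 8) * Q := Nat.mul_le_mul_right Q hH
      _ = H * Q ^ 9 := by ring
  have hXpos : 0 < X := lt_of_lt_of_le hX1 hX1X
  have hQH : Q ≤ H := by
    have h1 : Real.log X ≤ Real.log H + 9 * Real.log Q := by
      calc Real.log X ≤ Real.log ((H : ℝ) * (Q : ℝ) ^ 9) :=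
            Real.log_le_log (by exact_mod_cast hXpos) (by exact_mod_cast hXH)
        _ = Real.log H + 9 * Real.log Q := by
            rw [Real.log_mul hHr.ne' (by positivity), Real.log_pow]
            norm_num
    have h2 := hRc.1
    have h3 : Real.log Q ≤ Real.log H := by linarith
    have h4 := (Real.log_le_log_iff hQ0 hHr).1 h3
    exact_mod_cast h4
  -- the Fourier bound
  have hreg := hQb Q X X1 Y B hQb' hRa hX1 hX1X hXX1 hB
  have hYH : (Y : ℝ) ≤ A * (H * (Q : ℝ) ^ 9) := by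
    have h1 : Y ≤ A * (H * Q ^ 9) := hB.Yhi.trans (Nat.mul_le_mul_left A hXH)
    exact_mod_cast h1
  have hfour : ∀ θ : ℝ, ‖∑ n ∈ Ico a (a + H), ((fB Q Y B n : ℝ) : ℂ) * e ((n : ℝ) * θ)‖ ≤
      H / (Q : ℝ) ^ 2 := by
    intro θ
    refine (hW2 A Q X X1 Y B hQ1 hreg.1 hB a H haX haH θ).trans ?_
    have h1 : (Q : ℝ) ^ (-(25) : ℝ) = ((Q : ℝ) ^ 25)⁻¹ := by
      have h25 : (25 : ℝ) = ((25 : ℕ) : ℝ) := by norm_num
      rw [Real.rpow_neg hQ0.le, h25, Real.rpow_natCast]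
    rw [h1, ← div_eq_mul_inv, div_le_div_iff₀ (by positivity) (by positivity)]
    have h2 : (A : ℝ) ≤ (Q : ℝ) ^ 14 := by
      have h3 : (A : ℝ) ≤ Q := by exact_mod_cast hQA
      have h4 : (Q : ℝ) ^ 1 ≤ (Q : ℝ) ^ 14 := pow_le_pow_right₀ hQr (by norm_num)
      rw [pow_one] at h4
      linarith
    calc (Y : ℝ) * (Q : ℝ) ^ 2 ≤ (A * (H * (Q : ℝ) ^ 9)) * (Q : ℝ) ^ 2 :=
          mul_le_mul_of_nonneg_right hYH (by positivity)
      _ = A * (H * (Q : ℝ) ^ 11) := by ring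
      _ ≤ (Q : ℝ) ^ 14 * (H * (Q : ℝ) ^ 11) := mul_le_mul_of_nonneg_right h2 (by positivity)
      _ = H * (Q : ℝ) ^ 25 := by ring
  -- the mean square
  have hms := (hQa Q X X1 Y B C0 mb hQa' hRb hX1 hX1X hXX1 hB hCf a H haX haH
    (hH.trans (Nat.mul_le_mul_left H (Nat.pow_le_pow_right hQ1 (by norm_num))))).1
  set Ws : ℝ := (Real.log X) ^ 20 with hWs
  have hWs0 : 0 ≤ Ws := pow_nonneg (Real.log_natCast_nonneg X) _
  set W : ℝ := vol s * H ^ 2 * (C1 * (1 + Real.log Q) ^ C1 * (Ws + 1) * (Q : ℝ) ^ (-c1)) with hW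
  have hvol : 0 ≤ vol s := Finset.prod_nonneg fun i _ => Nat.cast_nonneg _
  have hlogQ : 0 ≤ Real.log Q := Real.log_natCast_nonneg Q
  have hW0 : 0 ≤ W := by
    have h1 : 0 ≤ (1 + Real.log Q) ^ C1 := Real.rpow_nonneg (by linarith) _
    have h2 : 0 ≤ (Q : ℝ) ^ (-c1) := Real.rpow_nonneg hQ0.le _
    have h3 : 0 ≤ C1 := by linarith
    positivity
  -- expansion
  have hexp : ∀ h : Fin k → ℕ, ∑ n ∈ Ico a (a + H), ((fB Q Y B n : ℝ) : ℂ) *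
      ∏ i, SG Q (c' i) ((P i).eval (n : ℤ) + h i) =
      ∑ p ∈ Fintype.piFinset fun _ : Fin k => PC Q, (∏ i, c' i (p i)) *
        ∑ n ∈ Ico a (a + H), ((fB Q Y B n : ℝ) : ℂ) *
          ∏ i, Fc Q (p i) ((P i).eval (n : ℤ) + h i) := by
    intro h
    have h1 : ∀ n ∈ Ico a (a + H), ((fB Q Y B n : ℝ) : ℂ) *
        ∏ i, SG Q (c' i) ((P i).eval (n : ℤ) + h i) =
        ∑ p ∈ Fintype.piFinset fun _ : Fin k => PC Q, (∏ i, c' i (p i)) *
          (((fB Q Y B n : ℝ) : ℂ) * ∏ i, Fc Q (p i) ((P i).eval (n : ℤ) + h i)) := by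
      intro n _
      rw [W3_SG, Finset.mul_sum]
      refine Finset.sum_congr rfl fun p _ => ?_
      ring
    rw [Finset.sum_congr rfl h1, Finset.sum_comm]
    refine Finset.sum_congr rfl fun p _ => ?_
    rw [Finset.mul_sum]
  have hγ : ∑ p ∈ Fintype.piFinset fun _ : Fin k => PC Q, ‖∏ i, c' i (p i)‖ ≤ (3 : ℝ) ^ k := by
    have h1 : ∑ p ∈ Fintype.piFinset fun _ : Fin k => PC Q, ‖∏ i, c' i (p i)‖ =
        ∏ i, ∑ p ∈ PC Q, ‖c' i p‖ := by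
      rw [Finset.prod_univ_sum]
      exact Finset.sum_congr rfl fun p _ => norm_prod _ _
    rw [h1]
    have h2 : ∏ i : Fin k, ∑ p ∈ PC Q, ‖c' i p‖ ≤ ∏ _i : Fin k, (3 : ℝ) :=
      Finset.prod_le_prod (fun i _ => Finset.sum_nonneg fun p _ => norm_nonneg _) (fun i _ => hc' i)
    rwa [prod_const, card_univ, Fintype.card_fin] at h2
  have hmain := Z2a (cub b s) (Fintype.piFinset fun _ : Fin k => PC Q) (fun p => ∏ i, c' i (p i))
    (fun p h => ∑ n ∈ Ico a (a + H), ((fB Q Y B n : ℝ) : ℂ) *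
      ∏ i, Fc Q (p i) ((P i).eval (n : ℤ) + h i)) ((3 : ℝ) ^ k) W hW0 hγ (fun p hp =>
      hW1 P hP Q hQ1 p (fun i => Fintype.mem_piFinset.1 hp i) b s hs a H hQH
        (fun n => ((fB Q Y B n : ℝ) : ℂ)) Ws hWs0 hms hfour)
  refine (le_of_eq (Finset.sum_congr rfl fun h _ => by rw [hexp h])).trans (hmain.trans ?_)
  -- numerics
  have e1 : Ws + 1 ≤ 2 * (Q : ℝ) ^ (c1 / 8) := by
    have h1 := hQc Q X hQc' hRg.2
    rw [one_mul] at h1
    have h2 : 1 ≤ (Q : ℝ) ^ (c1 / 8) := Real.one_le_rpow hQr (by linarith)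
    linarith
  have e2 := hQd Q hQd'
  have h9 : ((3 : ℝ) ^ k) ^ 2 = 9 ^ k := by
    rw [← pow_mul, mul_comm k 2, pow_mul]
    norm_num
  have hL0 : 0 ≤ (1 + Real.log Q) ^ C1 := Real.rpow_nonneg (by linarith) _
  have hn1 : 0 ≤ (Q : ℝ) ^ (-c1) := Real.rpow_nonneg hQ0.le _
  have hC10 : 0 ≤ C1 := by linarith
  calc ((3 : ℝ) ^ k) ^ 2 * W = vol s * H ^ 2 *
        ((9 ^ k * C1 * (1 + Real.log Q) ^ C1) * (Ws + 1) * (Q : ℝ) ^ (-c1)) := by
        rw [h9, hW]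
        ring
    _ ≤ vol s * H ^ 2 * ((9 ^ k * C1 * (1 + Real.log Q) ^ C1) * (2 * (Q : ℝ) ^ (c1 / 8)) *
        (Q : ℝ) ^ (-c1)) := by
        refine mul_le_mul_of_nonneg_left ?_ (by positivity)
        refine mul_le_mul_of_nonneg_right ?_ hn1
        exact mul_le_mul_of_nonneg_left e1 (by positivity)
    _ = vol s * H ^ 2 * ((2 * 9 ^ k * C1 * (1 + Real.log Q) ^ C1) * (Q : ℝ) ^ (c1 / 8) *
        (Q : ℝ) ^ (-c1)) := by ring
    _ ≤ vol s * H ^ 2 * ((Q : ℝ) ^ (c1 / 8) * (Q : ℝ) ^ (c1 / 8) * (Q : ℝ) ^ (-c1)) := by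
        refine mul_le_mul_of_nonneg_left ?_ (by positivity)
        refine mul_le_mul_of_nonneg_right ?_ hn1
        exact mul_le_mul_of_nonneg_right e2 (Real.rpow_nonneg hQ0.le _)
    _ = vol s * H ^ 2 * (Q : ℝ) ^ (c1 / 8 + c1 / 8 + -c1) := by
        rw [Real.rpow_add hQ0, Real.rpow_add hQ0]
    _ ≤ vol s * H ^ 2 * (Q : ℝ) ^ (-(c1 / 2)) := by
        refine mul_le_mul_of_nonneg_left ?_ (by positivity)
        exact Real.rpow_le_rpow_of_exponent_le hQr (by linarith)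

/-- **W3.** Proof. `Rz` is linear in the weight, so the difference is `Rz` with the weight `fB`. `E1_cells` with
`s i = M i/Q^8`, `q = Q^8`, `H = X1/Q^8`, `N = Q^8`; on a cell the frozen coefficients are constant (`E1_bs`: the base point
is `P_i(X1 + jH) + M_i + t_i s_i`), of total size `≤ 3` (`Cf.le`, `Cf.sum`; the base points are in `[Y_i, 3 Y_i)`: `G2_P`,
`G2_val`): `W3_cell`. `Q^4 ≤ s i`: `s i = M i/Q^8 ≥ 2 X1/Q^8 ≥ Q^4`. -/
theorem W3_main {k : ℕ} (P : Fin k → ℤ[X]) (A : ℕ) (hP : Pol A P) : ∃ c K : ℝ, 0 < c ∧ 1 ≤ K ∧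
    ∃ L : ℕ, ∀ C : ℝ, ∃ Q0 : ℕ, ∀ (Q X X1 Y : ℕ) (M : Fin k → ℕ) (B : ℤ[X]) (C0 : ℤ → Ch → ℂ)
    (mb : Ch → ℝ), Q0 ≤ Q → Rg K C Q X → Geo L Q X X1 P M → GeoB A X X1 Y B →
    Cf (Q ^ 100) Y C0 mb → ∀ (Cc : Fin k → ℤ → Ch → ℂ) (mc : Fin k → Ch → ℝ),
    (∀ i, Cf Q (Ysc (M i)) (Cc i) (mc i)) →
    ∑ h ∈ cub M M, ‖Rz Q X1 P M Cc (fun n => ((lp (B.eval (n : ℤ)) : ℝ) : ℂ)) h -
      Rz Q X1 P M Cc (fun n => ((Lk (Q ^ 100) (Y / (Q ^ 100) ^ 2) (B.eval (n : ℤ)) : ℝ) : ℂ)) h‖ ^ 2 ≤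
      (X1 : ℝ) ^ 2 * vol M * (Q : ℝ) ^ (-c) := by
  classical
  rcases Nat.eq_zero_or_pos A with hA0 | hA
  · refine ⟨1, 1, one_pos, le_rfl, 0, fun C => ⟨0, ?_⟩⟩
    intro Q X X1 Y M B C0 mb _ _ _ hB
    exfalso
    have h1 := hB.lin.lc
    have h2 := hB.lin.deg
    rw [hA0] at h1
    have h3 : B.leadingCoeff = 0 := Int.natAbs_eq_zero.1 (Nat.le_zero.1 h1)
    rw [leadingCoeff_eq_zero] at h3
    rw [h3, natDegree_zero] at h2
    omega
  obtain ⟨c, K, hc, hK, hcell⟩ := W3_cell k A hA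
  obtain ⟨L, hL2, hL⟩ := G2_P P hP.deg
  refine ⟨c, K, hc, hK, L, fun C => ?_⟩
  obtain ⟨Q0, hQ0⟩ := hcell C
  refine ⟨max Q0 1, ?_⟩
  intro Q X X1 Y M B C0 mb hQ hRg hG hB hCf Cc mc hCc
  have hQ0' : Q0 ≤ Q := (le_max_left _ _).trans hQ
  have hQ1 : 1 ≤ Q := (le_max_right _ _).trans hQ
  have hQ8 : 0 < Q ^ 8 := Nat.pow_pos hQ1
  set H : ℕ := X1 / Q ^ 8 with hH
  set s : Fin k → ℕ := fun i => M i / Q ^ 8 with hs
  have hdX : Q ^ 8 ∣ X1 := (pow_dvd_pow Q (by norm_num)).trans hG.dvd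
  have hXH : X1 = H * Q ^ 8 := (Nat.div_mul_cancel hdX).symm
  have hHpos : 0 < H := by
    rcases Nat.eq_zero_or_pos H with h0 | h0
    · rw [h0, zero_mul] at hXH
      have := hG.pos
      omega
    · exact h0
  have hdM : ∀ i, Q ^ 8 ∣ M i := fun i => (Dvd.intro_left 8 rfl).trans (hG.dvdM i)
  have hsM : ∀ i, M i = s i * Q ^ 8 := fun i => (Nat.div_mul_cancel (hdM i)).symm
  have hX800 : Q ^ 800 ≤ X1 := Nat.le_of_dvd hG.pos hG.dvd
  have hMX : ∀ i, X1 ≤ M i := by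
    intro i
    have h1 := hG.lo i
    have h2 : X1 ^ 1 ≤ X1 ^ (P i).natDegree := Nat.pow_le_pow_right hG.pos (hP.deg i)
    rw [pow_one] at h2
    calc X1 ≤ X1 ^ (P i).natDegree := h2
      _ ≤ L * X1 ^ (P i).natDegree := Nat.le_mul_of_pos_left _ (by omega)
      _ ≤ M i := h1
  have hs4 : ∀ i, Q ^ 4 ≤ s i := by
    intro i
    refine (Nat.le_div_iff_mul_le hQ8).2 ?_
    calc Q ^ 4 * Q ^ 8 = Q ^ 12 := by ring
      _ ≤ Q ^ 800 := Nat.pow_le_pow_right hQ1 (by norm_num)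
      _ ≤ X1 := hX800
      _ ≤ M i := hMX i
  have hspos : ∀ i, 0 < s i := fun i => lt_of_lt_of_le (Nat.pow_pos hQ1) (hs4 i)
  -- the difference
  set F : (Fin k → ℕ) → ℕ → ℂ := fun h n => ((fB Q Y B n : ℝ) : ℂ) *
    ∏ i, SG Q (Cc i (fz (P i) (X1 / Q ^ 8) (M i / Q ^ 8) n (h i))) ((P i).eval (n : ℤ) + h i) with hF
  have hdiff : ∀ h : Fin k → ℕ,
      Rz Q X1 P M Cc (fun n => ((lp (B.eval (n : ℤ)) : ℝ) : ℂ)) h -
      Rz Q X1 P M Cc (fun n => ((Lk (Q ^ 100) (Y / (Q ^ 100) ^ 2) (B.eval (n : ℤ)) : ℝ) : ℂ)) h =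
      ∑ n ∈ Ico X1 (2 * X1), F h n := by
    intro h
    unfold Rz
    rw [← Finset.sum_sub_distrib]
    refine Finset.sum_congr rfl fun n _ => ?_
    rw [hF]
    simp only
    rw [← sub_mul]
    congr 1
    unfold fB
    push_cast
    ring
  rw [Finset.sum_congr rfl fun h _ => by rw [hdiff h]]
  have hE := E1_cells M s (Q ^ 8) hsM X1 H (Q ^ 8) hXH ((Q : ℝ) ^ (-c))
    (Real.rpow_nonneg (Nat.cast_nonneg _) _) F ?_
  · refine hE.trans (le_of_eq ?_)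
    ring
  intro t ht j hj
  have hjH : (j + 1) * H ≤ X1 := by
    rw [hXH, mul_comm H]
    exact Nat.mul_le_mul_right H hj
  have hjH' : j * H + H ≤ X1 := by
    have : (j + 1) * H = j * H + H := by ring
    omega
  have haI : X1 + j * H ∈ Ico X1 (2 * X1) := by
    rw [mem_Ico]
    omega
  -- on a cell
  have hbsn : ∀ n ∈ Ico (X1 + j * H) (X1 + j * H + H), bs H n = X1 + j * H := by
    intro n hn
    have h1 := mem_Ico.1 hn
    have h2 : X1 + j * H = (Q ^ 8 + j) * H := by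
      conv_lhs => rw [hXH]
      ring
    rw [h2] at h1 ⊢
    exact z2_bs hHpos _ _ h1.1 h1.2
  have hbsx : ∀ h ∈ cub (fun i => M i + t i * s i) s, ∀ i, bs (s i) (h i) = M i + t i * s i := by
    intro h hh i
    unfold cub at hh
    exact E1_bs (hspos i) ⟨Q ^ 8, hsM i⟩ ((Fintype.mem_piFinset.1 hh) i)
  set c' : Fin k → Ch → ℂ := fun i =>
    Cc i ((P i).eval ((X1 + j * H : ℕ) : ℤ) + ((M i + t i * s i : ℕ) : ℤ)) with hc'
  have hcell' := hQ0 Q X X1 Y B C0 mb hQ0' hRg hG.pos hG.le hG.ge hB hCf P hP c' ?_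
    (fun i => M i + t i * s i) s hs4 (X1 + j * H) H (by omega) (by omega) hXH.le
  · refine (le_of_eq ?_).trans hcell'
    refine Finset.sum_congr rfl fun h hh => ?_
    congr 2
    refine Finset.sum_congr rfl fun n hn => ?_
    rw [hF]
    simp only
    congr 1
    refine Finset.prod_congr rfl fun i _ => ?_
    congr 1
    rw [hc']
    simp only
    unfold fz
    rw [hbsn n hn, hbsx h hh i]
  · intro i
    have hx : M i + t i * s i ∈ Ico (M i) (2 * M i) := by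
      have h1 : (t i + 1) * s i ≤ Q ^ 8 * s i := Nat.mul_le_mul_right _ (ht i)
      have h2 : Q ^ 8 * s i = M i := by rw [hsM i]; ring
      have h3 : (t i + 1) * s i = t i * s i + s i := by ring
      have h4 := hspos i
      rw [mem_Ico]
      omega
    have hv := (hL Q X X1 M hG i (X1 + j * H) haI).1
    have hd8 : 8 ∣ M i := (Dvd.intro _ rfl).trans (hG.dvdM i)
    have h5 := G2_val (M i) (M i + t i * s i) _ hd8 hv hx
    refine (Finset.sum_le_sum fun p hp => ?_).trans (hCc i).sum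
    refine (hCc i).le _ h5.1 ?_ p hp
    have h6 : (0 : ℤ) ≤ Ysc (M i) := Nat.cast_nonneg _
    linarith [h5.2.1]

end Pool.Agent.Lib.H24P
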