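import Pool.Agent.Lib.H24P.Defs
import Pool.Agent.Lib.H59P.M3A
import Pool.Agent.Lib.H59P.M3B

/-!
# Project H24P, chunk P0 (S/M): bounds (port of H59P/M3A, second half)
-/

open Finset

namespace Pool.Agent.Lib.H24P

open Pool.Agent.Lib.H68T Pool.Agent.Lib.H18Q Pool.Agent.Lib.H59P

/-- Proof. As `M3a_Ph`: `‖cj‖ ≤ 1`, `0 ≤ uu`. -/
theorem P0_Ph {k : ℕ} (p : Fin k → Ch) (P : Finset ℕ) (hP : ∀ l ∈ P, l.Prime) (m : Fin k → ℤ) :
    ‖Phf p P m‖ ≤ ∏ i, uu P (m i) := by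
  unfold Phf
  rw [norm_prod]
  apply Finset.prod_le_prod (fun i _ => norm_nonneg _)
  intro i _
  have h0 := M3a_uu_nonneg P hP (m i)
  rw [norm_mul, Complex.norm_real, Real.norm_of_nonneg h0]
  have h1 : ‖cj (p i) (m i)‖ ≤ 1 := by
    unfold cj
    rw [RCLike.norm_conj]
    exact DirichletCharacter.norm_le_one _ _
  calc ‖cj (p i) (m i)‖ * uu P (m i) ≤ 1 * uu P (m i) :=
        mul_le_mul_of_nonneg_right h1 h0
    _ = uu P (m i) := one_mul _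

/-- Proof. `P0_Ph` and `M3a_uu` (`uu R.primeFactors m ≤ R/φ(R)`). -/
theorem P0_PhR {k : ℕ} (p : Fin k → Ch) (R : ℕ) (hR : 0 < R) (m : Fin k → ℤ) :
    ‖Phf p R.primeFactors m‖ ≤ ((R : ℝ) / (Nat.totient R : ℝ)) ^ k := by
  refine (P0_Ph p R.primeFactors (fun l hl => Nat.prime_of_mem_primeFactors hl) m).trans ?_
  calc ∏ i, uu R.primeFactors (m i) ≤ ∏ _i : Fin k, ((R : ℝ) / (Nat.totient R : ℝ)) :=
        Finset.prod_le_prod (fun i _ => (M3a_uu R hR _).1) (fun i _ => (M3a_uu R hR _).2)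
    _ = ((R : ℝ) / (Nat.totient R : ℝ)) ^ k := by
        rw [Finset.prod_const, Finset.card_univ, Fintype.card_fin]

theorem P0_one {k : ℕ} (l : ℕ) (hl : l.Prime) (m : Fin k → ℤ) : 0 ≤ ∏ i, (1 + gl l (m i)) ∧
    ∏ i, (1 + gl l (m i)) ≤ ((l : ℝ) / ((l : ℝ) - 1)) ^ k := by
  constructor
  · exact Finset.prod_nonneg fun i _ => (M3a_gl l hl _).1
  · calc ∏ i, (1 + gl l (m i)) ≤ ∏ _i : Fin k, ((l : ℝ) / ((l : ℝ) - 1)) :=
        Finset.prod_le_prod (fun i _ => (M3a_gl l hl _).1) (fun i _ => (M3a_gl l hl _).2)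
      _ = ((l : ℝ) / ((l : ℝ) - 1)) ^ k := by
        rw [Finset.prod_const, Finset.card_univ, Fintype.card_fin]

/-- Proof. As `M3a_tp`, `M3a_td`. -/
theorem P0_W {k : ℕ} (d : ℕ) (hd : Squarefree d) (m : Fin k → ℤ) :
    |Wdf d m| ≤ ((d : ℝ) / (Nat.totient d : ℝ)) ^ k := by
  have hd0 : 0 < d := Nat.pos_of_ne_zero hd.ne_zero
  rw [← M3a_prod d hd0, ← Finset.prod_pow]
  unfold Wdf
  rw [Finset.abs_prod]
  refine Finset.prod_le_prod (fun l _ => abs_nonneg _) (fun l hl => ?_)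
  have hl' := Nat.prime_of_mem_primeFactors hl
  have hc : (1 : ℝ) ≤ ((l : ℝ) / ((l : ℝ) - 1)) ^ k := one_le_pow₀ (M3a_ratio l hl')
  have h := P0_one l hl' m
  unfold Wf
  rw [abs_le]
  constructor <;> linarith [h.1, h.2]

/-- Proof. Mean of products between `0` and `(l/(l-1))^k`. -/
theorem P0_tp {k : ℕ} (l : ℕ) (hl : l.Prime) (φ : Fin k → ℤ → ℤ) :
    0 ≤ 1 + tpf l φ ∧ 1 + tpf l φ ≤ ((l : ℝ) / ((l : ℝ) - 1)) ^ k := by
  have hl0 : (0 : ℝ) < l := by exact_mod_cast hl.pos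
  unfold tpf
  rw [add_sub_cancel]
  constructor
  · exact div_nonneg (Finset.sum_nonneg fun n _ => (P0_one l hl fun i => φ i n).1) hl0.le
  · rw [div_le_iff₀ hl0]
    calc ∑ n ∈ range l, ∏ i, (1 + gl l (φ i n))
        ≤ ∑ _n ∈ range l, ((l : ℝ) / ((l : ℝ) - 1)) ^ k :=
          Finset.sum_le_sum fun n _ => (P0_one l hl fun i => φ i n).2
      _ = ((l : ℝ) / ((l : ℝ) - 1)) ^ k * l := by
        rw [Finset.sum_const, Finset.card_range, nsmul_eq_mul, mul_comm]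

/-- Proof. `P0_PhR`, a mean of `R` terms. -/
theorem P0_MR {k : ℕ} (p : Fin k → Ch) (R : ℕ) (hR : 0 < R) (φ : Fin k → ℤ → ℤ) :
    ‖MRf p R φ‖ ≤ ((R : ℝ) / (Nat.totient R : ℝ)) ^ k := by
  have hR0 : (0 : ℝ) < R := by exact_mod_cast hR
  unfold MRf
  rw [norm_div, Complex.norm_natCast, div_le_iff₀ hR0]
  calc ‖∑ n ∈ range R, Phf p R.primeFactors (at' φ n)‖
      ≤ ∑ _n ∈ range R, ((R : ℝ) / (Nat.totient R : ℝ)) ^ k :=
        norm_sum_le_of_le _ fun n _ => P0_PhR p R hR _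
    _ = ((R : ℝ) / (Nat.totient R : ℝ)) ^ k * R := by
      rw [Finset.sum_const, Finset.card_range, nsmul_eq_mul, mul_comm]

end Pool.Agent.Lib.H24P
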