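import Pool.Agent.Lib.H24P.P2
import Pool.Agent.Lib.H59P.M3D
import Pool.Agent.Lib.H59P.M3E
import Pool.Agent.Lib.H59P.M5B

/-!
# Project H24P, chunk P3 (M): mean values over complete periods (port of H59P/M5A, M5B, M5)
-/

open Finset

namespace Pool.Agent.Lib.H24P

open Pool.Agent.Lib.H68T Pool.Agent.Lib.H18Q Pool.Agent.Lib.H59P

/-- the local factors at one prime -/
noncomputable def p3_g {k : ℕ} (φ : Fin k → ℤ → ℤ) (l : ℕ) (n : ℤ) : ℂ :=
  ∏ i, (((1 + gl l (φ i n) : ℝ)) : ℂ)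

theorem p3_g_per {k : ℕ} (φ : Fin k → ℤ → ℤ) (hφ : Cp φ) (l N : ℕ) (h : l ∣ N) (n : ℤ) :
    p3_g φ l (n + N) = p3_g φ l n := by
  unfold p3_g
  refine prod_congr rfl fun i _ => ?_
  rw [P2_gl φ hφ l N h]

theorem p3_g_sum {k : ℕ} (φ : Fin k → ℤ → ℤ) (l : ℕ) (hl : 0 < l) :
    ∑ n ∈ range l, p3_g φ l n = l * (((1 + tpf l φ : ℝ)) : ℂ) := by
  have hl0 : (l : ℂ) ≠ 0 := by exact_mod_cast hl.ne'
  unfold tpf p3_g
  push_cast
  field_simp
  ring

theorem p3_ph {k : ℕ} (p : Fin k → Ch) (A S : Finset ℕ) (hd : Disjoint A S) (φ : Fin k → ℤ → ℤ)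
    (n : ℤ) :
    Phf p (A ∪ S) (at' φ n) = Phf p A (at' φ n) * ∏ l ∈ S, p3_g φ l n := by
  unfold Phf p3_g uu at'
  rw [prod_comm (s := S), ← prod_mul_distrib]
  refine prod_congr rfl fun i _ => ?_
  rw [prod_union hd]
  push_cast
  ring

theorem p3_main {k : ℕ} (φ : Fin k → ℤ → ℤ) (hφ : Cp φ) (R : ℕ) (hR : 0 < R) (p : Fin k → Ch)
    (hd : ∀ i, (p i).1 ∣ R) (S : Finset ℕ) (hS : ∀ l ∈ S, l.Prime ∧ ¬ l ∣ R) :
    ∑ n ∈ range (R * ∏ l ∈ S, l), Phf p R.primeFactors (at' φ n) * ∏ l ∈ S, p3_g φ l n =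
      (∑ n ∈ range R, Phf p R.primeFactors (at' φ n)) * ∏ l ∈ S, (l * (((1 + tpf l φ : ℝ)) : ℂ)) := by
  induction S using Finset.induction_on with
  | empty => simp
  | insert l S hl ih =>
    have ih := ih fun q hq => hS q (mem_insert_of_mem hq)
    obtain ⟨hlp, hlR⟩ := hS l (mem_insert_self _ _)
    have hSpos : 0 < ∏ q ∈ S, q := prod_pos fun q hq => (hS q (mem_insert_of_mem hq)).1.pos
    have hco : Nat.Coprime (R * ∏ q ∈ S, q) l := by
      rw [Nat.coprime_comm, Nat.Prime.coprime_iff_not_dvd hlp]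
      intro hdvd
      rcases (Nat.Prime.dvd_mul hlp).1 hdvd with h1 | h1
      · exact hlR h1
      · obtain ⟨q, hq, hlq⟩ := (Prime.dvd_finsetProd_iff hlp.prime _).1 h1
        have := (Nat.prime_dvd_prime_iff_eq hlp (hS q (mem_insert_of_mem hq)).1).1 hlq
        exact hl (this ▸ hq)
    have e1 : R * ∏ q ∈ insert l S, q = (R * ∏ q ∈ S, q) * l := by
      rw [prod_insert hl]; ring
    have h3 := M3d (fun n => Phf p R.primeFactors (at' φ n) * ∏ q ∈ S, p3_g φ q n) (p3_g φ l)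
      (R * ∏ q ∈ S, q) l (Nat.mul_pos hR hSpos) hlp.pos hco (by
        intro m
        have a1 : Phf p R.primeFactors (at' φ (m + (R * ∏ q ∈ S, q : ℕ))) =
            Phf p R.primeFactors (at' φ m) :=
          P2_Ph φ hφ p R _ (Dvd.intro _ rfl) hd m
        have a2 : ∀ q ∈ S, p3_g φ q (m + (R * ∏ q ∈ S, q : ℕ)) = p3_g φ q m := by
          intro q hq
          exact p3_g_per φ hφ q _ ((Finset.dvd_prod_of_mem (fun q => q) hq).trans (dvd_mul_left _ _)) m
        rw [a1, prod_congr rfl a2]) (p3_g_per φ hφ l l dvd_rfl)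
    rw [e1, prod_insert hl]
    have e2 : ∑ n ∈ range (R * (∏ q ∈ S, q) * l),
        Phf p R.primeFactors (at' φ n) * ∏ q ∈ insert l S, p3_g φ q n =
        ∑ n ∈ range (R * (∏ q ∈ S, q) * l),
          (Phf p R.primeFactors (at' φ n) * ∏ q ∈ S, p3_g φ q n) * p3_g φ l n := by
      refine sum_congr rfl fun n _ => ?_
      rw [prod_insert hl]
      ring
    rw [e2, h3, ih, p3_g_sum φ l hlp.pos]
    ring

/-- **M5.** The mean modulo `R` times the local factors at the other primes is the mean over `Q!`.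

Proof. As `M5` in `H59P/M5A.lean` with `n + h_i` replaced by `φ i n`:
`Phf p (pr Q) (at' φ n) = Phf p R.primeFactors (at' φ n) * ∏_{l ∈ pr Q, l ∤ R} ∏_i (1 + gl l (φ i n))` (the prime
factors of `R` are at most `Q`, since `R ∣ Q!`). By `M3d` and induction over the primes `l` the sum over a
period `N = R ∏_{l ≤ Q, l ∤ R} l` is `R MRf p R φ ∏ l (1 + tpf l φ)`; `N` divides `Q!`, so the mean over `Q!` is the
mean over `N` (full periods). -/
theorem P3_M5 {k : ℕ} (φ : Fin k → ℤ → ℤ) (hφ : Cp φ) (Q R : ℕ) (hR : 0 < R) (hRQ : R ∣ Q.factorial)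
    (p : Fin k → Ch) (hd : ∀ i, (p i).1 ∣ R) :
    MRf p R φ * ((SSf ((pr Q).filter (fun l => ¬ l ∣ R)) φ : ℝ) : ℂ) = MQf Q p φ := by
  obtain ⟨S, hSdef⟩ : ∃ S, S = (pr Q).filter (fun l => ¬ l ∣ R) := ⟨_, rfl⟩
  rw [← hSdef]
  have hS : ∀ l ∈ S, (l ≤ Q ∧ l.Prime) ∧ ¬ l ∣ R := by
    intro l hl
    rw [hSdef, mem_filter, pr, mem_filter, mem_Icc] at hl
    exact ⟨⟨hl.1.1.2, hl.1.2⟩, hl.2⟩
  have hSpos : 0 < ∏ q ∈ S, q := prod_pos fun q hq => (hS q hq).1.2.pos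
  have hdisj : Disjoint R.primeFactors S := by
    rw [disjoint_left]
    intro l h1 h2
    exact (hS l h2).2 (Nat.dvd_of_mem_primeFactors h1)
  have hunion : R.primeFactors ∪ S = pr Q := by
    ext l
    rw [mem_union, hSdef, mem_filter, Nat.mem_primeFactors]
    constructor
    · rintro (⟨h1, h2, -⟩ | h1)
      · rw [pr, mem_filter, mem_Icc]
        exact ⟨⟨h1.one_le, (Nat.Prime.dvd_factorial h1).1 (h2.trans hRQ)⟩, h1⟩
      · exact h1.1
    · intro h1
      by_cases h2 : l ∣ R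
      · left
        rw [pr, mem_filter] at h1
        exact ⟨h1.2, h2, hR.ne'⟩
      · exact Or.inr ⟨h1, h2⟩
  have hper : ∀ m : ℤ, Phf p (pr Q) (at' φ (m + (R * ∏ q ∈ S, q : ℕ))) = Phf p (pr Q) (at' φ m) := by
    intro m
    rw [← hunion, p3_ph p _ _ hdisj, p3_ph p _ _ hdisj,
      P2_Ph φ hφ p R _ (Dvd.intro _ rfl) hd m]
    congr 1
    refine prod_congr rfl fun q hq => ?_
    exact p3_g_per φ hφ q _ ((Finset.dvd_prod_of_mem (fun q => q) hq).trans (dvd_mul_left _ _)) m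
  have hcop : Nat.Coprime R (∏ q ∈ S, q) := by
    apply Nat.Coprime.prod_right
    intro q hq
    rw [Nat.coprime_comm, Nat.Prime.coprime_iff_not_dvd (hS q hq).1.2]
    exact (hS q hq).2
  have hdvdN : R * ∏ q ∈ S, q ∣ Q.factorial := by
    apply hcop.mul_dvd_of_dvd_of_dvd hRQ
    apply Finset.prod_primes_dvd
    · intro q hq
      exact (hS q hq).1.2.prime
    · intro q hq
      exact (Nat.Prime.dvd_factorial (hS q hq).1.2).2 (hS q hq).1.1
  obtain ⟨j, hj⟩ := hdvdN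
  have hfac : 0 < Q.factorial := Nat.factorial_pos Q
  have hj0 : 0 < j := by
    rcases Nat.eq_zero_or_pos j with rfl | h1
    · rw [mul_zero] at hj
      omega
    · exact h1
  have hsum : ∑ n ∈ range (R * ∏ l ∈ S, l), Phf p (pr Q) (at' φ n) =
      (∑ n ∈ range R, Phf p R.primeFactors (at' φ n)) *
        ∏ l ∈ S, (l * (((1 + tpf l φ : ℝ)) : ℂ)) := by
    rw [← p3_main φ hφ R hR p hd S fun l hl => ⟨(hS l hl).1.2, (hS l hl).2⟩]
    refine sum_congr rfl fun n _ => ?_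
    rw [← hunion, p3_ph p _ _ hdisj]
  have hfull := m5a_full (fun n => Phf p (pr Q) (at' φ n)) _ hper j
  unfold MQf MRf SSf
  rw [hj, hfull, hsum, prod_mul_distrib]
  have r0 : (R : ℂ) ≠ 0 := by exact_mod_cast hR.ne'
  have j0 : (j : ℂ) ≠ 0 := by exact_mod_cast hj0.ne'
  have s0 : (∏ l ∈ S, (l : ℂ)) ≠ 0 := by
    rw [← Nat.cast_prod]
    exact_mod_cast hSpos.ne'
  push_cast
  field_simp

theorem p3_ph0 {k : ℕ} (m : Fin k → ℤ) : Phf (fun _ => p0) ∅ m = 1 := by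
  unfold Phf uu
  refine prod_eq_one fun i _ => ?_
  rw [m5b_cj]
  simp

/-- Proof. As `M5_SS`: `P3_M5` with `R = 1` and the trivial characters (`cj p0 m = 1`), or directly. -/
theorem P3_SS {k : ℕ} (φ : Fin k → ℤ → ℤ) (hφ : Cp φ) (Q : ℕ) :
    (∑ n ∈ range Q.factorial, ∏ i, uu (pr Q) (φ i n)) / (Q.factorial : ℝ) = SSf (pr Q) φ := by
  have h1 := P3_M5 φ hφ Q 1 one_pos (one_dvd _) (fun _ : Fin k => p0) (fun _ => one_dvd _)
  have h2 : (pr Q).filter (fun l => ¬ l ∣ 1) = pr Q := by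
    refine Finset.filter_true_of_mem fun l hl h => ?_
    rw [pr, mem_filter] at hl
    exact hl.2.one_lt.ne' (Nat.dvd_one.1 h)
  have h3 : MRf (fun _ : Fin k => p0) 1 φ = 1 := by
    unfold MRf
    rw [Nat.primeFactors_one, Finset.sum_range_one, p3_ph0]
    simp
  rw [h2, h3, one_mul] at h1
  have h4 : MQf Q (fun _ : Fin k => p0) φ =
      (((∑ n ∈ range Q.factorial, ∏ i, uu (pr Q) (φ i n)) / (Q.factorial : ℝ) : ℝ) : ℂ) := by
    unfold MQf Phf at'
    push_cast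
    congr 1
    refine Finset.sum_congr rfl fun n _ => Finset.prod_congr rfl fun i _ => ?_
    rw [m5b_cj, one_mul]
  rw [h4] at h1
  exact (Complex.ofReal_injective h1).symm

/-- Proof. As `M5_loc` in `H59P/M5B.lean`. -/
theorem P3_loc {k : ℕ} (φ : Fin k → ℤ → ℤ) (hφ : Cp φ) (R : ℕ) (hR : 0 < R) :
    MRf (fun _ => p0) R φ = ((SSf R.primeFactors φ : ℝ) : ℂ) := by
  have hp1 : ∀ l ∈ R.primeFactors, l.Prime ∧ ¬ l ∣ 1 := by
    intro l hl
    have h1 := Nat.prime_of_mem_primeFactors hl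
    exact ⟨h1, fun h2 => h1.one_lt.ne' (Nat.dvd_one.1 h2)⟩
  have hpos : 0 < ∏ l ∈ R.primeFactors, l := prod_pos fun q hq => (hp1 q hq).1.pos
  have hPh : ∀ n : ℤ, Phf (fun _ : Fin k => p0) R.primeFactors (at' φ n) =
      ∏ l ∈ R.primeFactors, p3_g φ l n := by
    intro n
    have h1 := p3_ph (fun _ : Fin k => p0) ∅ R.primeFactors (disjoint_empty_left _) φ n
    rw [empty_union, p3_ph0, one_mul] at h1
    exact h1
  have hmain := p3_main φ hφ 1 one_pos (fun _ : Fin k => p0) (fun _ => one_dvd _) R.primeFactors hp1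
  rw [one_mul, Nat.primeFactors_one] at hmain
  have hone : ∑ n ∈ range 1, Phf (fun _ : Fin k => p0) ∅ (at' φ n) = 1 := by
    rw [sum_range_one]
    exact p3_ph0 _
  rw [hone, one_mul] at hmain
  have hmain2 : ∑ n ∈ range (∏ l ∈ R.primeFactors, l),
      Phf (fun _ : Fin k => p0) R.primeFactors (at' φ n) =
      ∏ l ∈ R.primeFactors, (l * (((1 + tpf l φ : ℝ)) : ℂ)) := by
    rw [← hmain]
    refine sum_congr rfl fun n _ => ?_
    rw [hPh, p3_ph0, one_mul]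
  have hper : ∀ m : ℤ, Phf (fun _ : Fin k => p0) R.primeFactors
      (at' φ (m + (∏ l ∈ R.primeFactors, l : ℕ))) =
      Phf (fun _ : Fin k => p0) R.primeFactors (at' φ m) := by
    intro m
    rw [hPh, hPh]
    refine prod_congr rfl fun q hq => ?_
    exact p3_g_per φ hφ q _ (Finset.dvd_prod_of_mem (fun q => q) hq) m
  obtain ⟨j, hj⟩ := Nat.prod_primeFactors_dvd R
  have hj0 : 0 < j := by
    rcases Nat.eq_zero_or_pos j with rfl | h1
    · rw [mul_zero] at hj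
      omega
    · exact h1
  have hsum : ∑ n ∈ range R, Phf (fun _ : Fin k => p0) R.primeFactors (at' φ n) =
      j * ∏ l ∈ R.primeFactors, (l * (((1 + tpf l φ : ℝ)) : ℂ)) := by
    have h1 := m5a_full (fun n => Phf (fun _ : Fin k => p0) R.primeFactors (at' φ n)) _ hper j
    rw [← hj, hmain2] at h1
    exact h1
  have hRc : (R : ℂ) = (∏ l ∈ R.primeFactors, (l : ℂ)) * j := by
    have h1 : ((R : ℕ) : ℂ) = (((∏ l ∈ R.primeFactors, l) * j : ℕ) : ℂ) := by rw [← hj]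
    rw [h1]
    push_cast
    rfl
  have hR0 : (R : ℂ) ≠ 0 := by exact_mod_cast hR.ne'
  unfold MRf SSf
  rw [hsum, prod_mul_distrib, div_eq_iff hR0, hRc]
  push_cast
  ring

end Pool.Agent.Lib.H24P
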