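import Pool.Agent.Lib.H24P.ZDefs
import Pool.Agent.Lib.H24P.G1
import Pool.Agent.Lib.H24P.P0
import Pool.Agent.Lib.H24P.P3
import Pool.Agent.Lib.H59P.Z2A
import Pool.Agent.Lib.H59P.M3B

/-!
# Project H24P, chunk Z2B (M): the truncated and the complete main term (compare H59P/Z3A)
-/

open Finset Polynomial

namespace Pool.Agent.Lib.H24P

open Pool.Agent.Lib.H68T Pool.Agent.Lib.H18Q Pool.Agent.Lib.H59P

theorem z2b_R {k : ℕ} (Q D m0 : ℕ) (hm0 : 1 ≤ m0) (p : Fin (k + 1) → Ch)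
    (hp : p ∈ TSf (k + 1) Q D m0) : 0 < Rf m0 p ∧ Rf m0 p ≤ D ∧ (∀ i, (p i).1 ∣ Rf m0 p) ∧
      m0 ∣ Rf m0 p := by
  classical
  unfold TSf at hp
  rw [Finset.mem_filter, Fintype.mem_piFinset] at hp
  obtain ⟨hp1, hp2⟩ := hp
  refine ⟨?_, hp2, ?_, ?_⟩
  · have h1 : (univ.lcm fun i => (p i).1) ≠ 0 := by
      intro h0
      rw [Finset.lcm_eq_zero_iff] at h0
      obtain ⟨i, _, h2⟩ := h0
      have h3 : 0 < (p i).1 := (mem_PC.mp (hp1 i)).1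
      exact h3.ne' h2
    unfold Rf
    exact Nat.lcm_pos hm0 (Nat.pos_of_ne_zero h1)
  · intro i
    unfold Rf
    exact (Finset.dvd_lcm (f := fun i => (p i).1) (Finset.mem_univ i)).trans (Nat.dvd_lcm_right _ _)
  · unfold Rf
    exact Nat.dvd_lcm_left _ _

/-- the size of the mean modulo `R` -/
theorem z2b_MR {k : ℕ} (Q : ℕ) (p : Fin (k + 1) → Ch) (R : ℕ) (hR : 0 < R) (hRQ : R ≤ Q)
    (φ : Fin (k + 1) → ℤ → ℤ) : ‖MRf p R φ‖ ≤ (2 * (1 + Real.log Q)) ^ (k + 1) := by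
  refine (P0_MR p R hR φ).trans ?_
  refine pow_le_pow_left₀ (by positivity) ((M3b R hR).trans ?_) _
  have h1 : Real.log R ≤ Real.log Q :=
    Real.log_le_log (by exact_mod_cast hR) (by exact_mod_cast hRQ)
  linarith

theorem z2b_gam {k : ℕ} (Q D m0 : ℕ) (c' : Fin (k + 1) → Ch → ℂ)
    (hc' : ∀ i, ∑ p ∈ PC Q, ‖c' i p‖ ≤ 3) :
    ∑ p ∈ TSf (k + 1) Q D m0, ‖∏ i, c' i (p i)‖ ≤ 3 ^ (k + 1) := by
  classical
  calc ∑ p ∈ TSf (k + 1) Q D m0, ‖∏ i, c' i (p i)‖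
      = ∑ p ∈ TSf (k + 1) Q D m0, ∏ i, ‖c' i (p i)‖ :=
        Finset.sum_congr rfl fun p _ => norm_prod _ _
    _ ≤ ∑ p ∈ Fintype.piFinset fun _ : Fin (k + 1) => PC Q, ∏ i, ‖c' i (p i)‖ := by
        refine Finset.sum_le_sum_of_subset_of_nonneg ?_ ?_
        · intro p hp
          unfold TSf at hp
          exact (Finset.mem_filter.mp hp).1
        · intro p _ _
          exact Finset.prod_nonneg fun i _ => norm_nonneg _
    _ = ∏ i, ∑ q ∈ PC Q, ‖c' i q‖ := by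
        rw [Finset.prod_univ_sum]
    _ ≤ ∏ _i : Fin (k + 1), (3 : ℝ) :=
        Finset.prod_le_prod (fun i _ => Finset.sum_nonneg fun _ _ => norm_nonneg _) fun i _ => hc' i
    _ = 3 ^ (k + 1) := by
        rw [Finset.prod_const, Finset.card_univ, Fintype.card_fin]

/-- **Z2B.** Proof. For `p ∈ TSf`, `R = Rf m0 p ≤ D1` (`1 ≤ R`), `m0 = |lc B| r`: `MQf Q p φ = MRf p R φ · SSf (…) φ`
(`P3_M5`, `P2_sys`; `R ∣ Q!` since `R ≤ D1 ≤ Q`: `Nat.dvd_factorial`), so `MCf - MDf` is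
`∑_p ∏ c · MRf p R φ · (∑_{d ∈ SF (D/R) R} tdf d φ - SSf (…) φ)`. `Z2a` of `H59P` (`TSf ⊆ piFinset (PC Q)`, total size
`≤ 3^(k+1)`): for each `p`, `‖MRf‖ ≤ (2(1+log Q))^(k+1)` (`P0_MR`, `M3b`) and `TMf` for `R` (`lc B ∣ m0 ∣ R`). `G1_rlog`. -/
theorem Z2B_main (k A : ℕ) (hT : TMf k A) : ∃ c : ℝ, 0 < c ∧ ∃ Q0 : ℕ, ∀ Q : ℕ, Q0 ≤ Q →
    ∀ B : ℤ[X], Lin A B → ∀ P : Fin k → ℤ[X], Pol A P → ∀ r : ℕ, 1 ≤ r → r ^ 100 ≤ Q →
    ∀ c' : Fin (k + 1) → Ch → ℂ, (∀ i, ∑ p ∈ PC Q, ‖c' i p‖ ≤ 3) →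
    ∀ b s : Fin k → ℕ, (∀ i, Q ^ 8 ≤ s i) →
    ∑ h ∈ cub b s, ‖MCf Q (B.leadingCoeff.natAbs * r) c' (sys B P h) -
      MDf Q (B.leadingCoeff.natAbs * r) c' (sys B P h)‖ ^ 2 ≤ vol s * (Q : ℝ) ^ (-c) := by
  classical
  obtain ⟨c1, hc1, Q1, h1⟩ := hT
  obtain ⟨Q3, hQ31, h3⟩ := G1_rlog (36 ^ (k + 1)) ((2 * (k + 1) : ℕ) : ℝ) (c1 / 2) (by linarith)
  refine ⟨c1 / 2, by linarith, max 1 (max Q1 Q3), ?_⟩
  intro Q hQ B hB P hP r hr1 hr c' hc' b s hs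
  have hQ1 : 1 ≤ Q := (le_max_left _ _).trans hQ
  have hQQ1 : Q1 ≤ Q := (le_max_left _ _).trans ((le_max_right _ _).trans hQ)
  have hQQ3 : Q3 ≤ Q := (le_max_right _ _).trans ((le_max_right _ _).trans hQ)
  have hQ0r : (0 : ℝ) < Q := by exact_mod_cast hQ1
  have hlog0 : 0 ≤ Real.log Q := Real.log_natCast_nonneg Q
  have hV : 0 ≤ vol s := by
    unfold vol
    exact Finset.prod_nonneg fun i _ => Nat.cast_nonneg _
  have hlc : 1 ≤ B.leadingCoeff.natAbs := by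
    have hB0 : B ≠ 0 := by
      intro h0
      have := hB.deg
      rw [h0, natDegree_zero] at this
      omega
    have : B.leadingCoeff ≠ 0 := leadingCoeff_ne_zero.2 hB0
    omega
  set m0 : ℕ := B.leadingCoeff.natAbs * r with hm0
  have hm01 : 1 ≤ m0 := Nat.mul_pos hlc hr1
  have hdvd : B.leadingCoeff.natAbs ∣ m0 := Dvd.intro _ rfl
  set D1 : ℕ := fl Q (1 / 16) with hD1
  have hD1Q : D1 ≤ Q := G1_le hQ1 (by norm_num) (by norm_num)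
  set L1 : ℝ := (2 * (1 + Real.log Q)) ^ (k + 1) with hL1
  have hL10 : 0 ≤ L1 := by positivity
  set W : ℝ := L1 ^ 2 * (vol s * (Q : ℝ) ^ (-c1)) with hW
  have hQc0 : 0 ≤ (Q : ℝ) ^ (-c1) := Real.rpow_nonneg hQ0r.le _
  have hW0 : 0 ≤ W := mul_nonneg (sq_nonneg _) (mul_nonneg hV hQc0)
  set f : (Fin (k + 1) → Ch) → (Fin k → ℕ) → ℂ := fun p h =>
    MRf p (Rf m0 p) (sys B P h) *
      (((∑ d ∈ SF (fl Q (1 / 2) / Rf m0 p) (Rf m0 p), tdf d (sys B P h) -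
        SSf ((pr Q).filter (fun l => ¬ l ∣ Rf m0 p)) (sys B P h) : ℝ) : ℂ)) with hfdef
  have hdec : ∀ h ∈ cub b s, ‖MCf Q m0 c' (sys B P h) - MDf Q m0 c' (sys B P h)‖ ^ 2 =
      ‖∑ p ∈ TSf (k + 1) Q D1 m0, (∏ i, c' i (p i)) * f p h‖ ^ 2 := by
    intro h _
    congr 2
    unfold MCf MDf
    rw [← Finset.sum_sub_distrib]
    refine Finset.sum_congr rfl fun p hp => ?_
    obtain ⟨hR0, hRD, hd, hmR⟩ := z2b_R Q D1 m0 hm01 p hp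
    have hfac : Rf m0 p ∣ Q.factorial := Nat.dvd_factorial hR0 (hRD.trans hD1Q)
    have e1 := P3_M5 (sys B P h) (P2_sys B P h) Q (Rf m0 p) hR0 hfac p hd
    rw [← e1, hfdef]
    beta_reduce
    rw [Complex.ofReal_sub]
    ring
  rw [Finset.sum_congr rfl hdec]
  have hmain := Z2a (cub b s) (TSf (k + 1) Q D1 m0) (fun p => ∏ i, c' i (p i)) f (3 ^ (k + 1)) W hW0
    (z2b_gam Q D1 m0 c' hc') ?_
  · refine hmain.trans ?_
    have e1 : ((3 : ℝ) ^ (k + 1)) ^ 2 * L1 ^ 2 =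
        36 ^ (k + 1) * (1 + Real.log Q) ^ ((2 * (k + 1) : ℕ) : ℝ) := by
      rw [hL1, Real.rpow_natCast, ← mul_pow, ← mul_pow, ← pow_mul, mul_comm (k + 1) 2, pow_mul,
        pow_mul, ← mul_pow]
      congr 1
      ring
    have e2 : (Q : ℝ) ^ (-(c1 / 2)) = (Q : ℝ) ^ (c1 / 2) * (Q : ℝ) ^ (-c1) := by
      rw [← Real.rpow_add hQ0r]
      congr 1
      ring
    have e3 := h3 Q hQQ3
    have e4 : ((3 : ℝ) ^ (k + 1)) ^ 2 * W = (((3 : ℝ) ^ (k + 1)) ^ 2 * L1 ^ 2) * (vol s * (Q : ℝ) ^ (-c1)) := by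
      rw [hW]
      ring
    rw [e4, e1, e2]
    have e5 := mul_le_mul_of_nonneg_right e3 (mul_nonneg hV hQc0)
    refine e5.trans (le_of_eq ?_)
    ring
  · intro p hp
    obtain ⟨hR0, hRD, hd, hmR⟩ := z2b_R Q D1 m0 hm01 p hp
    have hRQ : Rf m0 p ≤ Q := hRD.trans hD1Q
    have e1 := h1 Q hQQ1 B hB P hP b s hs (Rf m0 p) hR0 hRD (hdvd.trans hmR)
    rw [hW]
    refine le_trans ?_ (mul_le_mul_of_nonneg_left e1 (sq_nonneg L1))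
    rw [Finset.mul_sum]
    refine Finset.sum_le_sum fun h _ => ?_
    rw [hfdef]
    beta_reduce
    rw [norm_mul, Complex.norm_real, mul_pow, Real.norm_eq_abs, sq_abs]
    refine mul_le_mul_of_nonneg_right ?_ (sq_nonneg _)
    exact pow_le_pow_left₀ (norm_nonneg _) (z2b_MR Q p (Rf m0 p) hR0 hRQ _) 2

end Pool.Agent.Lib.H24P
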