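import Pool.Agent.Lib.H24P.Z2A
import Pool.Agent.Lib.H24P.Z2B
import Pool.Agent.Lib.H24P.E1
import Pool.Agent.Lib.H24P.G2
import Pool.Agent.Lib.H24P.V2

/-!
# Project H24P, chunk Z2 (M): all cells (compare H59P/Z2)
-/

open Finset Polynomial

namespace Pool.Agent.Lib.H24P

open Pool.Agent.Lib.H68T Pool.Agent.Lib.H18Q Pool.Agent.Lib.H59P

theorem z2f_X {K C : ℝ} {Q X X1 : ℕ} (hK : 1500 ≤ K) (hQ : 1 ≤ Q) (hR : Rg K C Q X) (hX : 0 < X)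
    (hX1 : X ≤ X1 * Q) (hd : Q ^ 800 ∣ X1) : Q ^ 600 ≤ X1 / Q ^ 800 := by
  have hQr : (0 : ℝ) < Q := by exact_mod_cast hQ
  have hXr : (0 : ℝ) < X := by exact_mod_cast hX
  have hlQ : 0 ≤ Real.log Q := Real.log_natCast_nonneg Q
  have h1 : Real.log ((Q : ℝ) ^ 1500) ≤ Real.log X := by
    rw [Real.log_pow]
    refine le_trans ?_ hR.1
    push_cast
    exact mul_le_mul_of_nonneg_right hK hlQ
  have h2 : (Q : ℝ) ^ 1500 ≤ X := (Real.log_le_log_iff (by positivity) hXr).1 h1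
  have h3 : Q ^ 1500 ≤ X := by exact_mod_cast h2
  have h4 : Q ^ 1499 * Q ≤ X1 * Q := by
    calc Q ^ 1499 * Q = Q ^ 1500 := by ring
      _ ≤ X := h3
      _ ≤ X1 * Q := hX1
  have h5 : Q ^ 1499 ≤ X1 := Nat.le_of_mul_le_mul_right h4 hQ
  rw [Nat.le_div_iff_mul_le (Nat.pow_pos hQ)]
  calc Q ^ 600 * Q ^ 800 = Q ^ 1400 := by ring
    _ ≤ Q ^ 1499 := Nat.pow_le_pow_right hQ (by norm_num)
    _ ≤ X1 := h5

theorem z2f_PC {Q : ℕ} (hQ : 1 ≤ Q) : PC Q ⊆ PC (Q ^ 100) := by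
  intro p hp
  obtain ⟨h1, h2, h3⟩ := mem_PC.1 hp
  exact mem_PC.2 ⟨h1, h2.trans (Nat.le_self_pow (by norm_num) Q), h3⟩

/-- **Z2.** Proof. `E1_cells` with `s i = M i/Q^8`, `q = Q^8`, `H = X1/Q^800`, `N = Q^800`,
`F h n = gB n ∏ SG … - MDf Q m0 (cfz … h n) (sys B P h)`. On a cell the base points are constant (`E1_bs`, `E1_fine`), so
`cfz … h n = Fin.cons c0 c'` and `∑_n gB n ∏ SG … = ∑_n SG (Q^100) c0 (B n) ∏ SG Q (c' i) …`; the total sizes are `≤ 3`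
(`Cf.le`, `Cf.sum`; the base points are in `[Y, 3Y)` resp. `[Y_i, 3 Y_i)`: `GeoB`, `G2_P`, `G2_val`; `bs` of a point of
`[X1, 2X1)` is in it). `Z2A_cell` and `Z2B_main` (times `H²`; `PC Q ⊆ PC (Q^100)`), `‖x+y‖² ≤ 2‖x‖² + 2‖y‖²`.
`Q^600 ≤ H = X1/Q^800`: `X1 ≥ X/Q`, `X ≥ Q^K`, `K ≥ 1500`; `Q^8 ≤ s i = M i/Q^8` (`M i ≥ 2 X1`). -/
theorem Z2_main {k : ℕ} (P : Fin k → ℤ[X]) (A : ℕ) (hA : 1 ≤ A) (hP : Pol A P) (hT : TMf k A) :
    ∃ c K : ℝ, 0 < c ∧ 1 ≤ K ∧ ∃ L : ℕ, 2 ≤ L ∧ ∀ C : ℝ, ∃ Q0 : ℕ,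
    ∀ (Q X X1 Y : ℕ) (M : Fin k → ℕ) (B : ℤ[X]) (C0 : ℤ → Ch → ℂ) (mb : Ch → ℝ), Q0 ≤ Q →
    Rg K C Q X → Geo L Q X X1 P M → GeoB A X X1 Y B → Cf (Q ^ 100) Y C0 mb →
    ∀ (Cc : Fin k → ℤ → Ch → ℂ) (mc : Fin k → Ch → ℝ), (∀ i, Cf Q (Ysc (M i)) (Cc i) (mc i)) →
    ∀ r : ℕ, 1 ≤ r → r ^ 100 ≤ Q →
    ∑ h ∈ cub M M, ‖Rz Q X1 P M Cc (gB Q X1 B C0) h -
      MZf Q X1 (B.leadingCoeff.natAbs * r) P M B C0 Cc h‖ ^ 2 ≤
      (X1 : ℝ) ^ 2 * vol M * (Q : ℝ) ^ (-c) := by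
  classical
  obtain ⟨c1, hc1, Q1, hZA⟩ := Z2A_cell k A hA
  obtain ⟨c2, hc2, Q2, hZB⟩ := Z2B_main k A hT
  obtain ⟨L, hL2, hL⟩ := G2_P P hP.deg
  have hcm : 0 < min c1 c2 := lt_min hc1 hc2
  obtain ⟨Q3, hQ3, hlog⟩ := G1_rlog 4 0 (min c1 c2 / 2) (by positivity)
  refine ⟨min c1 c2 / 2, 1500, by positivity, by norm_num, L, hL2, fun C => ⟨max (max Q1 Q2) (max Q3 1), ?_⟩⟩
  intro Q X X1 Y M B C0 mb hQ hRg hG hB hCf Cc mc hCc r hr hr100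
  have hQ1' : Q1 ≤ Q := (le_max_left _ _).trans ((le_max_left _ _).trans hQ)
  have hQ2' : Q2 ≤ Q := (le_max_right _ _).trans ((le_max_left _ _).trans hQ)
  have hQ3' : Q3 ≤ Q := (le_max_left _ _).trans ((le_max_right _ _).trans hQ)
  have hQ1 : 1 ≤ Q := (le_max_right _ _).trans ((le_max_right _ _).trans hQ)
  have hQr : (1 : ℝ) ≤ Q := by exact_mod_cast hQ1
  have hQr0 : (0 : ℝ) < Q := by linarith
  have hQ8 : 0 < Q ^ 8 := Nat.pow_pos hQ1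
  have hQ800 : 0 < Q ^ 800 := Nat.pow_pos hQ1
  have hXpos : 0 < X := hG.pos.trans_le hG.le
  set H : ℕ := X1 / Q ^ 800 with hH
  set s : Fin k → ℕ := fun i => M i / Q ^ 8 with hs
  have hXH : X1 = H * Q ^ 800 := (Nat.div_mul_cancel hG.dvd).symm
  have hH600 : Q ^ 600 ≤ H := z2f_X le_rfl hQ1 hRg hXpos hG.ge hG.dvd
  have hHpos : 0 < H := (Nat.pow_pos hQ1).trans_le hH600
  have hdM : ∀ i, Q ^ 8 ∣ M i := fun i => (Dvd.intro_left 8 rfl).trans (hG.dvdM i)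
  have hsM : ∀ i, M i = s i * Q ^ 8 := fun i => (Nat.div_mul_cancel (hdM i)).symm
  have hX800 : Q ^ 800 ≤ X1 := Nat.le_of_dvd hG.pos hG.dvd
  have hMX : ∀ i, X1 ≤ M i := by
    intro i
    have h1 := hG.lo i
    have h2 : X1 ^ 1 ≤ X1 ^ (P i).natDegree := Nat.pow_le_pow_right hG.pos (hP.deg i)
    rw [pow_one] at h2
    calc X1 ≤ X1 ^ (P i).natDegree := h2
      _ ≤ L * X1 ^ (P i).natDegree := Nat.le_mul_of_pos_left _ (by omega)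
      _ ≤ M i := h1
  have hs8 : ∀ i, Q ^ 8 ≤ s i := by
    intro i
    refine (Nat.le_div_iff_mul_le hQ8).2 ?_
    calc Q ^ 8 * Q ^ 8 = Q ^ 16 := by ring
      _ ≤ Q ^ 800 := Nat.pow_le_pow_right hQ1 (by norm_num)
      _ ≤ X1 := hX800
      _ ≤ M i := hMX i
  have hs4 : ∀ i, Q ^ 4 ≤ s i := fun i => (Nat.pow_le_pow_right hQ1 (by norm_num)).trans (hs8 i)
  have hspos : ∀ i, 0 < s i := fun i => lt_of_lt_of_le (Nat.pow_pos hQ1) (hs4 i)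
  -- the difference
  set m0 : ℕ := B.leadingCoeff.natAbs * r with hm0
  set F : (Fin k → ℕ) → ℕ → ℂ := fun h n => gB Q X1 B C0 n *
    ∏ i, SG Q (Cc i (fz (P i) (X1 / Q ^ 8) (M i / Q ^ 8) n (h i))) ((P i).eval (n : ℤ) + h i) -
    MDf Q m0 (cfz Q X1 P M B C0 Cc h n) (sys B P h) with hF
  have hdiff : ∀ h : Fin k → ℕ, Rz Q X1 P M Cc (gB Q X1 B C0) h - MZf Q X1 m0 P M B C0 Cc h =
      ∑ n ∈ Ico X1 (2 * X1), F h n := by
    intro h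
    unfold Rz MZf
    rw [← Finset.sum_sub_distrib]
  rw [Finset.sum_congr rfl fun h _ => by rw [hdiff h]]
  have hE := E1_cells M s (Q ^ 8) hsM X1 H (Q ^ 800) hXH ((Q : ℝ) ^ (-(min c1 c2 / 2)))
    (Real.rpow_nonneg (Nat.cast_nonneg _) _) F ?_
  · refine hE.trans (le_of_eq ?_)
    ring
  intro t ht j hj
  have hjH' : j * H + H ≤ X1 := by
    have h1 : (j + 1) * H ≤ Q ^ 800 * H := Nat.mul_le_mul_right H hj
    have h2 : (j + 1) * H = j * H + H := by ring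
    have h3 : Q ^ 800 * H = X1 := by rw [mul_comm]; exact hXH.symm
    omega
  have haI : X1 + j * H ∈ Ico X1 (2 * X1) := by
    rw [mem_Ico]
    omega
  -- the base points
  have hbsn : ∀ n ∈ Ico (X1 + j * H) (X1 + j * H + H), bs (X1 / Q ^ 800) n = X1 + j * H := by
    intro n hn
    have h1 := mem_Ico.1 hn
    have h2 : X1 + j * H = (Q ^ 800 + j) * H := by
      conv_lhs => rw [hXH]
      ring
    rw [h2] at h1 ⊢
    exact z2_bs hHpos _ _ h1.1 h1.2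
  have hdX8 : Q ^ 8 ∣ X1 := (pow_dvd_pow Q (by norm_num)).trans hG.dvd
  have hHc : X1 / Q ^ 8 = H * Q ^ 792 := by
    refine Nat.div_eq_of_eq_mul_left hQ8 ?_
    rw [mul_assoc, ← pow_add]
    exact hXH
  have hHcX : X1 / Q ^ 8 ∣ X1 := Nat.div_dvd_of_dvd hdX8
  have hHcpos : 0 < X1 / Q ^ 8 := by
    rw [hHc]
    exact Nat.mul_pos hHpos (Nat.pow_pos hQ1)
  have hbsc : ∀ n ∈ Ico (X1 + j * H) (X1 + j * H + H),
      bs (X1 / Q ^ 8) n = bs (X1 / Q ^ 8) (X1 + j * H) := fun n hn =>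
    E1_fine hHpos (Nat.pow_pos hQ1) hHc hHcX hn
  have hbsx : ∀ h ∈ cub (fun i => M i + t i * s i) s, ∀ i,
      bs (M i / Q ^ 8) (h i) = M i + t i * s i := by
    intro h hh i
    unfold cub at hh
    exact E1_bs (hspos i) ⟨Q ^ 8, hsM i⟩ ((Fintype.mem_piFinset.1 hh) i)
  -- the base point of the long cell is in the range
  have hbI : bs (X1 / Q ^ 8) (X1 + j * H) ∈ Ico X1 (2 * X1) := by
    have h1 : bs (X1 / Q ^ 8) (X1 + j * H) ≤ X1 + j * H := by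
      unfold bs
      exact Nat.div_mul_le_self _ _
    have h2 : X1 ≤ bs (X1 / Q ^ 8) (X1 + j * H) := by
      unfold bs
      calc X1 = X1 / (X1 / Q ^ 8) * (X1 / Q ^ 8) := (Nat.div_mul_cancel hHcX).symm
        _ ≤ _ := Nat.mul_le_mul_right _ (Nat.div_le_div_right (by omega))
    have h3 := (mem_Ico.1 haI).2
    rw [mem_Ico]
    omega
  set c0 : Ch → ℂ := C0 (B.eval ((X1 + j * H : ℕ) : ℤ)) with hc0
  set c' : Fin k → Ch → ℂ := fun i =>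
    Cc i ((P i).eval ((bs (X1 / Q ^ 8) (X1 + j * H) : ℕ) : ℤ) + ((M i + t i * s i : ℕ) : ℤ)) with hc'
  have hcfz : ∀ h ∈ cub (fun i => M i + t i * s i) s, ∀ n ∈ Ico (X1 + j * H) (X1 + j * H + H),
      cfz Q X1 P M B C0 Cc h n = (Fin.cons c0 c' : Fin (k + 1) → Ch → ℂ) := by
    intro h hh n hn
    unfold cfz
    rw [hbsn n hn]
    have h1 : (fun i => Cc i (fz (P i) (X1 / Q ^ 8) (M i / Q ^ 8) n (h i))) = c' := by
      funext i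
      rw [hc']
      unfold fz
      rw [hbsc n hn, hbsx h hh i]
    rw [h1]
  -- sizes
  have hsz0 : ∑ p ∈ PC (Q ^ 100), ‖c0 p‖ ≤ 3 := by
    refine (Finset.sum_le_sum fun p hp => ?_).trans hCf.sum
    have h1 := hB.lo _ haI
    have h2 := hB.hi _ haI
    exact hCf.le _ h1 (by linarith) p hp
  have hsz : ∀ i, ∑ p ∈ PC Q, ‖c' i p‖ ≤ 3 := by
    intro i
    have hx : M i + t i * s i ∈ Ico (M i) (2 * M i) := by
      have h1 : (t i + 1) * s i ≤ Q ^ 8 * s i := Nat.mul_le_mul_right _ (ht i)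
      have h2 : Q ^ 8 * s i = M i := by rw [hsM i]; ring
      have h3 : (t i + 1) * s i = t i * s i + s i := by ring
      have h4 := hspos i
      rw [mem_Ico]
      omega
    have hv := (hL Q X X1 M hG i _ hbI).1
    have hd8 : 8 ∣ M i := (Dvd.intro _ rfl).trans (hG.dvdM i)
    have h5 := G2_val (M i) (M i + t i * s i) _ hd8 hv hx
    refine (Finset.sum_le_sum fun p hp => ?_).trans (hCc i).sum
    refine (hCc i).le _ h5.1 ?_ p hp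
    have h6 : (0 : ℤ) ≤ Ysc (M i) := Nat.cast_nonneg _
    linarith [h5.2.1]
  have hsz' : ∀ i : Fin (k + 1), ∑ p ∈ PC Q, ‖(Fin.cons c0 c' : Fin (k + 1) → Ch → ℂ) i p‖ ≤ 3 := by
    intro i
    refine Fin.cases ?_ (fun i => ?_) i
    · rw [Fin.cons_zero]
      exact (Finset.sum_le_sum_of_subset_of_nonneg (z2f_PC hQ1) fun _ _ _ => norm_nonneg _).trans hsz0
    · rw [Fin.cons_succ]
      exact hsz i
  have hA1 := hZA Q hQ1' B hB.lin P hP r hr hr100 c0 hsz0 c' hsz (fun i => M i + t i * s i) s hs4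
    (X1 + j * H) H hH600
  have hB1 := hZB Q hQ2' B hB.lin P hP r hr hr100 (Fin.cons c0 c') hsz' (fun i => M i + t i * s i) s hs8
  rw [← hm0] at hA1 hB1
  have hv0 : 0 ≤ vol s := prod_nonneg fun i _ => Nat.cast_nonneg _
  have hsplit : ∀ h ∈ cub (fun i => M i + t i * s i) s,
      ‖∑ n ∈ Ico (X1 + j * H) (X1 + j * H + H), F h n‖ ^ 2 ≤
      2 * ‖∑ n ∈ Ico (X1 + j * H) (X1 + j * H + H), SG (Q ^ 100) c0 (B.eval (n : ℤ)) *
        ∏ i, SG Q (c' i) ((P i).eval (n : ℤ) + h i) -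
        H * MCf Q m0 (Fin.cons c0 c' : Fin (k + 1) → Ch → ℂ) (sys B P h)‖ ^ 2 +
      2 * ((H : ℝ) ^ 2 * ‖MCf Q m0 (Fin.cons c0 c' : Fin (k + 1) → Ch → ℂ) (sys B P h) -
        MDf Q m0 (Fin.cons c0 c' : Fin (k + 1) → Ch → ℂ) (sys B P h)‖ ^ 2) := by
    intro h hh
    have h1 : ∑ n ∈ Ico (X1 + j * H) (X1 + j * H + H), F h n =
        (∑ n ∈ Ico (X1 + j * H) (X1 + j * H + H), SG (Q ^ 100) c0 (B.eval (n : ℤ)) *
        ∏ i, SG Q (c' i) ((P i).eval (n : ℤ) + h i) -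
        H * MCf Q m0 (Fin.cons c0 c' : Fin (k + 1) → Ch → ℂ) (sys B P h)) +
        H * (MCf Q m0 (Fin.cons c0 c' : Fin (k + 1) → Ch → ℂ) (sys B P h) -
        MDf Q m0 (Fin.cons c0 c' : Fin (k + 1) → Ch → ℂ) (sys B P h)) := by
      have h2 : ∑ n ∈ Ico (X1 + j * H) (X1 + j * H + H), F h n =
          ∑ n ∈ Ico (X1 + j * H) (X1 + j * H + H), (SG (Q ^ 100) c0 (B.eval (n : ℤ)) *
          ∏ i, SG Q (c' i) ((P i).eval (n : ℤ) + h i) -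
          MDf Q m0 (Fin.cons c0 c' : Fin (k + 1) → Ch → ℂ) (sys B P h)) := by
        refine Finset.sum_congr rfl fun n hn => ?_
        rw [hF]
        simp only
        rw [hcfz h hh n hn]
        unfold gB
        rw [hbsn n hn]
        congr 2
        refine Finset.prod_congr rfl fun i _ => ?_
        congr 1
        rw [hc']
        simp only
        unfold fz
        rw [hbsc n hn, hbsx h hh i]
      rw [h2, Finset.sum_sub_distrib, Finset.sum_const, Nat.card_Ico, nsmul_eq_mul]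
      have h3 : X1 + j * H + H - (X1 + j * H) = H := by omega
      rw [h3]
      ring
    rw [h1]
    generalize (∑ n ∈ Ico (X1 + j * H) (X1 + j * H + H), SG (Q ^ 100) c0 (B.eval (n : ℤ)) *
        ∏ i, SG Q (c' i) ((P i).eval (n : ℤ) + h i) -
        H * MCf Q m0 (Fin.cons c0 c' : Fin (k + 1) → Ch → ℂ) (sys B P h)) = x
    generalize (MCf Q m0 (Fin.cons c0 c' : Fin (k + 1) → Ch → ℂ) (sys B P h) -
        MDf Q m0 (Fin.cons c0 c' : Fin (k + 1) → Ch → ℂ) (sys B P h)) = y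
    have h4 : ‖x + H * y‖ ≤ ‖x‖ + H * ‖y‖ := by
      refine (norm_add_le _ _).trans (le_of_eq ?_)
      rw [norm_mul, Complex.norm_natCast]
    have h5 : ‖x + H * y‖ ^ 2 ≤ (‖x‖ + H * ‖y‖) ^ 2 := pow_le_pow_left₀ (norm_nonneg _) h4 2
    nlinarith [sq_nonneg (‖x‖ - H * ‖y‖)]
  have hpow : 2 * (Q : ℝ) ^ (-c1) + 2 * (Q : ℝ) ^ (-c2) ≤ (Q : ℝ) ^ (-(min c1 c2 / 2)) := by
    have h1 : (Q : ℝ) ^ (-c1) ≤ (Q : ℝ) ^ (-(min c1 c2)) :=
      Real.rpow_le_rpow_of_exponent_le hQr (by linarith [min_le_left c1 c2])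
    have h2 : (Q : ℝ) ^ (-c2) ≤ (Q : ℝ) ^ (-(min c1 c2)) :=
      Real.rpow_le_rpow_of_exponent_le hQr (by linarith [min_le_right c1 c2])
    have h3 : (Q : ℝ) ^ (-(min c1 c2 / 2)) = (Q : ℝ) ^ (min c1 c2 / 2) * (Q : ℝ) ^ (-(min c1 c2)) := by
      rw [← Real.rpow_add hQr0]
      congr 1
      ring
    have h4 := hlog Q hQ3'
    rw [Real.rpow_zero, mul_one] at h4
    have h5 : 0 ≤ (Q : ℝ) ^ (-(min c1 c2)) := Real.rpow_nonneg hQr0.le _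
    rw [h3]
    nlinarith [mul_le_mul_of_nonneg_right h4 h5]
  calc ∑ h ∈ cub (fun i => M i + t i * s i) s,
        ‖∑ n ∈ Ico (X1 + j * H) (X1 + j * H + H), F h n‖ ^ 2
      ≤ ∑ h ∈ cub (fun i => M i + t i * s i) s,
      (2 * ‖∑ n ∈ Ico (X1 + j * H) (X1 + j * H + H), SG (Q ^ 100) c0 (B.eval (n : ℤ)) *
        ∏ i, SG Q (c' i) ((P i).eval (n : ℤ) + h i) -
        H * MCf Q m0 (Fin.cons c0 c' : Fin (k + 1) → Ch → ℂ) (sys B P h)‖ ^ 2 +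
      2 * ((H : ℝ) ^ 2 * ‖MCf Q m0 (Fin.cons c0 c' : Fin (k + 1) → Ch → ℂ) (sys B P h) -
        MDf Q m0 (Fin.cons c0 c' : Fin (k + 1) → Ch → ℂ) (sys B P h)‖ ^ 2)) :=
        Finset.sum_le_sum hsplit
    _ ≤ 2 * (vol s * H ^ 2 * (Q : ℝ) ^ (-c1)) + 2 * ((H : ℝ) ^ 2 * (vol s * (Q : ℝ) ^ (-c2))) := by
        rw [Finset.sum_add_distrib, ← Finset.mul_sum, ← Finset.mul_sum, ← Finset.mul_sum]
        gcongr
    _ = vol s * H ^ 2 * (2 * (Q : ℝ) ^ (-c1) + 2 * (Q : ℝ) ^ (-c2)) := by ring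
    _ ≤ vol s * H ^ 2 * (Q : ℝ) ^ (-(min c1 c2 / 2)) := by
        gcongr

end Pool.Agent.Lib.H24P
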