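import Pool.Agent.Lib.H24P.P0
import Pool.Agent.Lib.H59P.C3

/-!
# Project H24P, chunk P4 (M): domination by the model (port of H59P/C3)
-/

open Finset

namespace Pool.Agent.Lib.H24P

open Pool.Agent.Lib.H68T Pool.Agent.Lib.H18Q Pool.Agent.Lib.H59P

theorem p4_lcm {k : ℕ} (px : Ch) (m0 : ℕ) (hm0 : px.1 ∣ m0) (J : Finset (Fin k)) (p p' : Fin k → Ch)
    (h1 : ∀ i ∈ J, p i = p' i) (h2 : ∀ i, i ∉ J → p i = p0 ∨ p i = px) :
    m0.lcm (univ.lcm fun i => (p i).1) ∣ m0.lcm (univ.lcm fun i => (p' i).1) := by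
  refine Nat.lcm_dvd (Nat.dvd_lcm_left _ _) (Finset.lcm_dvd fun i _ => ?_)
  by_cases hi : i ∈ J
  · rw [h1 i hi]
    exact (Finset.dvd_lcm (f := fun i => (p' i).1) (Finset.mem_univ i)).trans (Nat.dvd_lcm_right _ _)
  · rcases h2 i hi with h | h
    · rw [h]
      exact one_dvd _
    · rw [h]
      exact hm0.trans (Nat.dvd_lcm_left _ _)

/-- the pointwise bound -/
theorem p4_pt {k : ℕ} (Q D1 m0 : ℕ) (hQ : 1 ≤ Q) (η E0 : ℝ) (px : Ch) (hpx : px ∈ PC Q)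
    (hreal : px.2 ^ 2 = 1) (hm0 : px.1 ∣ m0) (hmpos : 0 < m0)
    (hcond : m0 ≤ D1) (hη : 0 < η) (hE0 : 0 ≤ E0) (hE : 4 * k * E0 ≤ 1) (th : Fin k → ℝ)
    (hth0 : ∀ i, 0 ≤ th i) (hth : ∀ i, th i ≤ 1 - η) (htriv : px = p0 → ∀ i, th i = 0)
    (e : Fin k → Ch → ℂ) (he : ∀ i, ∑ p ∈ PC Q, ‖e i p‖ ≤ η * E0) (m : Fin k → ℤ) :
    ‖∑ p ∈ TSf k Q D1 m0, ∏ i, ((MX px (fun _ => th i) 0 (p i) + e i (p i)) * cj (p i) (m i)) -
      ((∏ i, (1 - th i * (cj px (m i)).re) : ℝ) : ℂ)‖ ≤ 1 / 2 * ∏ i, (1 - th i * (cj px (m i)).re) := by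
  classical
  have ha : ∀ i, η ≤ 1 - th i * (cj px (m i)).re := by
    intro i
    have h1 := (abs_le.mp (C3a px hreal (m i)).2).2
    have h2 := mul_le_mul_of_nonneg_left h1 (hth0 i)
    have h3 := hth i
    linarith
  have ha0 : ∀ i, 0 ≤ 1 - th i * (cj px (m i)).re := fun i => hη.le.trans (ha i)
  have hsum : ∀ i, ∑ p ∈ PC Q, MX px (fun _ => th i) 0 p * cj p (m i) =
      ((1 - th i * (cj px (m i)).re : ℝ) : ℂ) := fun i =>
    c3_sumA Q hQ px hpx (th i) (fun h => htriv h i) hreal (m i)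
  have hC1 := C1 (PC Q) ({p0, px} : Finset Ch) (fun p : Fin k → Ch => m0.lcm (univ.lcm fun i => (p i).1) ≤ D1)
    (fun i p => MX px (fun _ => th i) 0 p * cj p (m i)) (fun i p => e i p * cj p (m i)) ?_ ?_ ?_
  rotate_left
  · intro i p _ hne
    rw [Finset.mem_insert, Finset.mem_singleton, not_or] at hne
    have h0 : MX px (fun _ => th i) 0 p = 0 := by
      simp only [MX]
      rw [if_neg hne.1, if_neg hne.2]
    show MX px (fun _ => th i) 0 p * cj p (m i) = 0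
    rw [h0, zero_mul]
  · intro J p p' h1 h2 h3
    have k1 := p4_lcm px m0 hm0 J p p' h1 (fun i hi => by simpa using h2 i hi)
    have k2 := p4_lcm px m0 hm0 J p' p (fun i hi => (h1 i hi).symm) (fun i hi => by simpa using h3 i hi)
    show m0.lcm (univ.lcm fun i => (p i).1) ≤ D1 ↔ m0.lcm (univ.lcm fun i => (p' i).1) ≤ D1
    rw [Nat.dvd_antisymm k1 k2]
  · intro p hp
    have k1 := p4_lcm px m0 hm0 ∅ p (fun _ => p0) (fun i hi => by simp at hi) (fun i _ => by simpa using hp i)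
    have k2 : m0.lcm (univ.lcm fun i : Fin k => ((fun _ => p0 : Fin k → Ch) i).1) ∣ m0 := by
      refine Nat.lcm_dvd dvd_rfl (Finset.lcm_dvd fun i _ => ?_)
      exact one_dvd _
    exact (Nat.le_of_dvd hmpos (k1.trans k2)).trans hcond
  have e1 : ∀ p : Fin k → Ch, ∏ i, ((MX px (fun _ => th i) 0 (p i) + e i (p i)) * cj (p i) (m i)) =
      ∏ i, (MX px (fun _ => th i) 0 (p i) * cj (p i) (m i) + e i (p i) * cj (p i) (m i)) := fun p =>
    Finset.prod_congr rfl fun i _ => by ring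
  have e2 : ∏ i, ∑ p ∈ PC Q, MX px (fun _ => th i) 0 p * cj p (m i) =
      ((∏ i, (1 - th i * (cj px (m i)).re) : ℝ) : ℂ) := by
    rw [Complex.ofReal_prod]
    exact Finset.prod_congr rfl fun i _ => hsum i
  have e3 : ∀ i, ‖∑ p ∈ PC Q, MX px (fun _ => th i) 0 p * cj p (m i)‖ = 1 - th i * (cj px (m i)).re := by
    intro i
    rw [hsum i, Complex.norm_real, Real.norm_eq_abs, abs_of_nonneg (ha0 i)]
  have hC2 := C2 (fun i => 1 - th i * (cj px (m i)).re) (fun i => ∑ p ∈ PC Q, ‖e i p * cj p (m i)‖) η E0 hη hE0 hE ha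
    (fun i => Finset.sum_nonneg fun _ _ => norm_nonneg _) (fun i => ?_)
  swap
  · refine (Finset.sum_le_sum fun p _ => ?_).trans (he i)
    rw [norm_mul]
    exact mul_le_of_le_one_right (norm_nonneg _) (c3_cj_norm p (m i))
  simp only [e3] at hC1
  rw [e2] at hC1
  unfold TSf
  simp only [e1]
  exact hC1.trans hC2

/-- Proof. As `C3` (`H59P/C3.lean`), with `n + h_i` replaced by `φ i n` and `TS k Q D1 px` by `TSf k Q D1 m0`
(`px.1 ∣ m0 ≤ D1`): in `c3_pt` the condition `φ p` is now `m0.lcm (univ.lcm fun i => (p i).1) ≤ D1`; coordinates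
in `{p0, px}` have a modulus dividing `m0`, which does not change this least common multiple; if all coordinates
are in `{p0, px}` it is `m0 ≤ D1`. -/
theorem P4_C3 {k : ℕ} (φ : Fin k → ℤ → ℤ) (Q D1 m0 : ℕ) (hQ : 1 ≤ Q) (η E0 : ℝ) (px : Ch)
    (hpx : px ∈ PC Q) (hreal : px.2 ^ 2 = 1) (hm0 : px.1 ∣ m0) (hm : 0 < m0) (hcond : m0 ≤ D1)
    (hη : 0 < η) (hE0 : 0 ≤ E0) (hE : 4 * k * E0 ≤ 1) (th : Fin k → ℝ)
    (hth0 : ∀ i, 0 ≤ th i) (hth : ∀ i, th i ≤ 1 - η) (htriv : px = p0 → ∀ i, th i = 0)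
    (e : Fin k → Ch → ℂ) (he : ∀ i, ∑ p ∈ PC Q, ‖e i p‖ ≤ η * E0) :
    ‖∑ p ∈ TSf k Q D1 m0, (∏ i, (MX px (fun _ => th i) 0 (p i) + e i (p i))) * MQf Q p φ -
      ((PMf Q px th φ : ℝ) : ℂ)‖ ≤ 1 / 2 * PMf Q px th φ := by
  have hQ0 : (0 : ℝ) < (Q.factorial : ℝ) := by exact_mod_cast Nat.factorial_pos Q
  have hU : ∀ n : ℤ, 0 ≤ ∏ i : Fin k, uu (pr Q) (φ i n) := fun n =>
    Finset.prod_nonneg fun i _ => M3a_uu_nonneg _ (c3_pr Q) _
  have h1 : ∑ p ∈ TSf k Q D1 m0, (∏ i, (MX px (fun _ => th i) 0 (p i) + e i (p i))) * MQf Q p φ =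
      (∑ n ∈ range Q.factorial, ((∏ i : Fin k, uu (pr Q) (φ i (n : ℤ)) : ℝ) : ℂ) *
        ∑ p ∈ TSf k Q D1 m0, ∏ i, ((MX px (fun _ => th i) 0 (p i) + e i (p i)) *
          cj (p i) (φ i (n : ℤ)))) /
        ((Q.factorial : ℝ) : ℂ) := by
    unfold MQf
    rw [Finset.sum_div]
    simp only [Finset.mul_sum, Finset.sum_div, mul_div_assoc']
    rw [Finset.sum_comm]
    refine Finset.sum_congr rfl fun n _ => ?_
    refine Finset.sum_congr rfl fun p _ => ?_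
    unfold Phf at'
    rw [Finset.prod_mul_distrib, Finset.prod_mul_distrib, Complex.ofReal_prod]
    push_cast
    ring
  have h2 : PMf Q px th φ = (∑ n ∈ range Q.factorial, (∏ i : Fin k, uu (pr Q) (φ i (n : ℤ))) *
        ∏ i, (1 - th i * (cj px (φ i (n : ℤ))).re)) / (Q.factorial : ℝ) := by
    unfold PMf fPf at'
    congr 1
    refine Finset.sum_congr rfl fun n _ => ?_
    rw [Finset.prod_mul_distrib]
  rw [h1, h2]
  rw [Complex.ofReal_div, ← sub_div, norm_div, Complex.norm_real, Real.norm_eq_abs, abs_of_pos hQ0, mul_div_assoc']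
  refine div_le_div_of_nonneg_right ?_ hQ0.le
  rw [Complex.ofReal_sum, ← Finset.sum_sub_distrib, Finset.mul_sum]
  refine (norm_sum_le _ _).trans (Finset.sum_le_sum fun n _ => ?_)
  rw [Complex.ofReal_mul, ← mul_sub, norm_mul, Complex.norm_real, Real.norm_eq_abs, abs_of_nonneg (hU n)]
  have hpt := p4_pt Q D1 m0 hQ η E0 px hpx hreal hm0 hm hcond hη hE0 hE th hth0 hth htriv e he
    (fun i => φ i (n : ℤ))
  have := mul_le_mul_of_nonneg_left hpt (hU n)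
  refine this.trans (le_of_eq ?_)
  ring

end Pool.Agent.Lib.H24P
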