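import Pool.Agent.Lib.H24P.ZDefs
import Pool.Agent.Lib.H24P.P4
import Pool.Agent.Lib.H24P.G2

/-!
# Project H24P, chunk Z3 (S/M): lower bound for the main term (compare H59P/Z3)
-/

open Finset Polynomial

namespace Pool.Agent.Lib.H24P

open Pool.Agent.Lib.H68T Pool.Agent.Lib.H18Q Pool.Agent.Lib.H59P

/-- One cell. Proof. `P4_C3` with `D1 = fl Q (1/16)`, `k + 1` coordinates: `‖MDf - PMf‖ ≤ PMf/2`, so
`Re MDf ≥ PMf/2 ≥ m/2`. -/
theorem Z3_cell {k : ℕ} (Q m0 : ℕ) (hQ : 1 ≤ Q) (η E0 : ℝ) (px : Ch) (hpx : px ∈ PC Q)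
    (hreal : px.2 ^ 2 = 1) (hm0 : px.1 ∣ m0) (hm : 0 < m0) (hcond : m0 ≤ fl Q (1 / 16)) (hη : 0 < η)
    (hE0 : 0 ≤ E0) (hE : 4 * k * E0 ≤ 1) (φ : Fin k → ℤ → ℤ) (th : Fin k → ℝ) (hth0 : ∀ i, 0 ≤ th i)
    (hth : ∀ i, th i ≤ 1 - η) (htriv : px = p0 → ∀ i, th i = 0) (e c : Fin k → Ch → ℂ)
    (he : ∀ i, ∑ p ∈ PC Q, ‖e i p‖ ≤ η * E0)
    (hc : ∀ i p, c i p = MX px (fun _ => th i) 0 p + e i p) (m : ℝ)
    (hm' : ∀ th' : Fin k → ℝ, (∀ i, 0 ≤ th' i) → (∀ i, th' i ≤ 1 - η) →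
      (px = p0 → ∀ i, th' i = 0) → m ≤ PMf Q px th' φ) :
    m / 2 ≤ (MDf Q m0 c φ).re := by
  have z := P4_C3 φ Q (fl Q (1 / 16)) m0 hQ η E0 px hpx hreal hm0 hm hcond hη hE0 hE th hth0 hth htriv e he
  have hS : MDf Q m0 c φ = ∑ p ∈ TSf k Q (fl Q (1 / 16)) m0,
      (∏ i, (MX px (fun _ => th i) 0 (p i) + e i (p i))) * MQf Q p φ := by
    unfold MDf
    refine Finset.sum_congr rfl fun p _ => ?_
    congr 1
    exact Finset.prod_congr rfl fun i _ => hc i (p i)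
  rw [← hS] at z
  have h1 := hm' th hth0 hth htriv
  have h2 : -(1 / 2 * PMf Q px th φ) ≤ (MDf Q m0 c φ - ((PMf Q px th φ : ℝ) : ℂ)).re :=
    (abs_le.1 ((Complex.abs_re_le_norm _).trans z)).1
  rw [Complex.sub_re, Complex.ofReal_re] at h2
  linarith

/-- **Z3.** Proof. `Z3_cell` for `k + 1`, for each `n`; the coefficients `cfz` at `n` are
`MX px (fun _ => th (base)) 0 + e (base)` with base points `B(bs n) ∈ [Y, 3Y)`, `fz … ∈ [Y_i, 3 Y_i)` (`G2_val`),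
`MX px th m p = MX px (fun _ => th m) 0 p` (unfold `MX`); `∑_{PC Q} ‖e‖ ≤ ∑_{PC (Q^100)} eb ≤ η E0`. Sum over the `X1`
values of `n`. -/
theorem Z3_main {k : ℕ} (P : Fin k → ℤ[X]) (A L Q X X1 Y : ℕ) (hQ : 1 ≤ Q) (M : Fin k → ℕ) (B : ℤ[X])
    (hG : Geo L Q X X1 P M) (hGB : GeoB A X X1 Y B)
    (hP8 : ∀ i, ∀ n ∈ Ico X1 (2 * X1), 8 * |(P i).eval (n : ℤ)| ≤ M i) (η E0 : ℝ) (px : Ch)
    (th : ℤ → ℝ) (hpx : px ∈ PC Q) (hcond : B.leadingCoeff.natAbs * px.1 ≤ fl Q (1 / 16))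
    (hMB : Mdl (Q ^ 100) Y η E0 px th) (hM : ∀ i, Mdl Q (Ysc (M i)) η E0 px th)
    (hE0 : 0 ≤ E0) (hE : 4 * (k + 1) * E0 ≤ 1)
    (e0 : ℤ → Ch → ℂ) (eb0 : Ch → ℝ) (heb0 : ∀ p ∈ PC (Q ^ 100), 0 ≤ eb0 p)
    (hs0 : ∑ p ∈ PC (Q ^ 100), eb0 p ≤ η * E0)
    (he0 : ∀ m : ℤ, (Y : ℤ) ≤ m → m ≤ 4 * Y → ∀ p ∈ PC (Q ^ 100), ‖e0 m p‖ ≤ eb0 p)
    (e : Fin k → ℤ → Ch → ℂ) (eb : Fin k → Ch → ℝ) (hs : ∀ i, ∑ p ∈ PC Q, eb i p ≤ η * E0)
    (he : ∀ i, ∀ m : ℤ, (Ysc (M i) : ℤ) ≤ m → m ≤ 4 * Ysc (M i) → ∀ p ∈ PC Q, ‖e i m p‖ ≤ eb i p)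
    (h : Fin k → ℕ) (hh : h ∈ cub M M) (m : ℝ)
    (hm' : ∀ th' : Fin (k + 1) → ℝ, (∀ i, 0 ≤ th' i) → (∀ i, th' i ≤ 1 - η) →
      (px = p0 → ∀ i, th' i = 0) → m ≤ PMf Q px th' (sys B P h)) :
    X1 * (m / 2) ≤ (MZf Q X1 (B.leadingCoeff.natAbs * px.1) P M B (fun m p => MX px th m p + e0 m p)
      (fun i m p => MX px th m p + e i m p) h).re := by
  have hX1 : 0 < X1 := hG.pos
  have hm0 : 0 < B.leadingCoeff.natAbs * px.1 := by
    refine Nat.mul_pos ?_ (mem_PC.1 hpx).1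
    rw [Int.natAbs_pos, leadingCoeff_ne_zero]
    intro h0
    have h1 := hGB.lin.deg
    rw [h0, natDegree_zero] at h1
    exact absurd h1 (by norm_num)
  have hQ8 : Q ^ 8 ∣ X1 := (pow_dvd_pow Q (by norm_num)).trans hG.dvd
  have hbs : ∀ (D N n : ℕ), D ∣ N → 0 < N → n ∈ Ico N (2 * N) → bs (N / D) n ∈ Ico N (2 * N) := by
    intro D N n hD hN hn
    rw [mem_Ico] at hn ⊢
    obtain ⟨q, rfl⟩ := hD
    have hD0 : 0 < D := Nat.pos_of_ne_zero (by rintro rfl; simp at hN)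
    have hq0 : 0 < q := Nat.pos_of_ne_zero (by rintro rfl; simp at hN)
    rw [Nat.mul_div_cancel_left q hD0]
    unfold bs
    constructor
    · have h1 : D ≤ n / q := by
        rw [Nat.le_div_iff_mul_le hq0]
        exact hn.1
      exact Nat.mul_le_mul_right q h1
    · exact lt_of_le_of_lt (Nat.div_mul_le_self n q) hn.2
  have hh' : ∀ i, h i ∈ Ico (M i) (2 * M i) := by
    intro i
    have h1 := Fintype.mem_piFinset.1 hh i
    rw [mem_Ico] at h1 ⊢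
    omega
  have hY : ∀ n ∈ Ico X1 (2 * X1), (Y : ℤ) ≤ B.eval ((bs (X1 / Q ^ 800) n : ℕ) : ℤ) ∧
      B.eval ((bs (X1 / Q ^ 800) n : ℕ) : ℤ) ≤ 4 * Y := by
    intro n hn
    have h1 := hbs _ X1 n hG.dvd hX1 hn
    have h2 := hGB.lo _ h1
    have h3 := hGB.hi _ h1
    exact ⟨h2, by linarith⟩
  have hYi : ∀ n ∈ Ico X1 (2 * X1), ∀ i, (Ysc (M i) : ℤ) ≤ fz (P i) (X1 / Q ^ 8) (M i / Q ^ 8) n (h i) ∧
      fz (P i) (X1 / Q ^ 8) (M i / Q ^ 8) n (h i) ≤ 4 * Ysc (M i) := by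
    intro n hn i
    have h1 := hbs _ X1 n hQ8 hX1 hn
    have hMpos : 0 < M i := by
      have := mem_Ico.1 (hh' i)
      omega
    have h2 := hbs (Q ^ 8) (M i) (h i) ((Dvd.intro_left 8 rfl : Q ^ 8 ∣ 8 * Q ^ 8).trans (hG.dvdM i)) hMpos (hh' i)
    obtain ⟨h3, h4, -⟩ := G2_val (M i) _ _ ((Dvd.intro _ rfl : 8 ∣ 8 * Q ^ 8).trans (hG.dvdM i))
      (hP8 i _ h1) h2
    unfold fz
    constructor
    · exact h3
    · have h5 : (0 : ℤ) ≤ Ysc (M i) := by positivity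
      linarith
  have hsub : PC Q ⊆ PC (Q ^ 100) := by
    intro p hp
    rw [mem_PC] at hp ⊢
    exact ⟨hp.1, hp.2.1.trans (Nat.le_self_pow (by norm_num) Q), hp.2.2⟩
  have hcell : ∀ n ∈ Ico X1 (2 * X1), m / 2 ≤ (MDf Q (B.leadingCoeff.natAbs * px.1)
      (cfz Q X1 P M B (fun m p => MX px th m p + e0 m p) (fun i m p => MX px th m p + e i m p) h n)
      (sys B P h)).re := by
    intro n hn
    refine Z3_cell (k := k + 1) Q (B.leadingCoeff.natAbs * px.1) hQ η E0 px hpx hMB.real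
      (Dvd.intro_left _ rfl) hm0 hcond hMB.eta_pos hE0 (by push_cast; exact hE) (sys B P h)
      (Fin.cons (th (B.eval ((bs (X1 / Q ^ 800) n : ℕ) : ℤ)))
        (fun i => th (fz (P i) (X1 / Q ^ 8) (M i / Q ^ 8) n (h i)))) ?_ ?_ ?_
      (Fin.cons (e0 (B.eval ((bs (X1 / Q ^ 800) n : ℕ) : ℤ)))
        (fun i => e i (fz (P i) (X1 / Q ^ 8) (M i / Q ^ 8) n (h i)))) _ ?_ ?_ m hm'
    · intro i
      refine Fin.cases ?_ (fun i => ?_) i
      · rw [Fin.cons_zero]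
        exact hMB.nonneg _ (hY n hn).1 (hY n hn).2
      · rw [Fin.cons_succ]
        exact (hM i).nonneg _ (hYi n hn i).1 (hYi n hn i).2
    · intro i
      refine Fin.cases ?_ (fun i => ?_) i
      · rw [Fin.cons_zero]
        exact hMB.le _ (hY n hn).1 (hY n hn).2
      · rw [Fin.cons_succ]
        exact (hM i).le _ (hYi n hn i).1 (hYi n hn i).2
    · intro h0 i
      refine Fin.cases ?_ (fun i => ?_) i
      · rw [Fin.cons_zero]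
        exact hMB.triv h0 _
      · rw [Fin.cons_succ]
        exact (hM i).triv h0 _
    · intro i
      refine Fin.cases ?_ (fun i => ?_) i
      · simp only [Fin.cons_zero]
        refine (Finset.sum_le_sum fun p hp => he0 _ (hY n hn).1 (hY n hn).2 p (hsub hp)).trans ?_
        exact (Finset.sum_le_sum_of_subset_of_nonneg hsub fun p hp _ => heb0 p hp).trans hs0
      · simp only [Fin.cons_succ]
        exact (Finset.sum_le_sum fun p hp => he i _ (hYi n hn i).1 (hYi n hn i).2 p hp).trans (hs i)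
    · intro i
      refine Fin.cases ?_ (fun i => ?_) i
      · intro p
        rfl
      · intro p
        rfl
  unfold MZf
  rw [Complex.re_sum]
  have h1 := Finset.sum_le_sum hcell
  rw [Finset.sum_const, Nat.card_Ico, nsmul_eq_mul] at h1
  have h2 : 2 * X1 - X1 = X1 := by omega
  rw [h2] at h1
  exact h1

end Pool.Agent.Lib.H24P
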