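import Pool.Agent.Lib.H24P.S4
import Pool.Agent.Lib.H24P.V1
import Pool.Agent.Lib.H24P.V2
import Pool.Agent.Lib.H24P.W3
import Pool.Agent.Lib.H24P.Z2
import Pool.Agent.Lib.H24P.Z3
import Pool.Agent.Lib.H59P.CF0
import Pool.Agent.Lib.H59P.Z4

/-!
# Project H24P, chunk Z4 (M/L): the core theorem on a dyadic box (compare H59P/Z4)
-/

open Finset Polynomial

namespace Pool.Agent.Lib.H24P

open Pool.Agent.Lib.H68T Pool.Agent.Lib.H18Q Pool.Agent.Lib.H59P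

theorem z4_geo {L L' Q X X1 : ℕ} {k : ℕ} {P : Fin k → ℤ[X]} {M : Fin k → ℕ} (h : L' ≤ L)
    (hG : Geo L Q X X1 P M) : Geo L' Q X X1 P M where
  dvd := hG.dvd
  pos := hG.pos
  le := hG.le
  ge := hG.ge
  dvdM := hG.dvdM
  lo := fun i => (Nat.mul_le_mul_right _ h).trans (hG.lo i)
  hi := hG.hi

theorem z4_rg {K K' C : ℝ} {Q X : ℕ} (h : K' ≤ K) (hR : Rg K C Q X) : Rg K' C Q X :=
  ⟨(mul_le_mul_of_nonneg_right h (Real.log_natCast_nonneg Q)).trans hR.1, hR.2⟩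

theorem z4_five (a b c d e : ℂ) :
    ‖a + b + c + d + e‖ ^ 2 ≤ 5 * (‖a‖ ^ 2 + ‖b‖ ^ 2 + ‖c‖ ^ 2 + ‖d‖ ^ 2 + ‖e‖ ^ 2) := by
  have h1 : ‖a + b + c + d + e‖ ≤ ‖a‖ + ‖b‖ + ‖c‖ + ‖d‖ + ‖e‖ :=
    (norm_add_le _ _).trans (by
      gcongr
      exact (norm_add_le _ _).trans (by
        gcongr
        exact (norm_add_le _ _).trans (by
          gcongr
          exact norm_add_le _ _)))
  refine (pow_le_pow_left₀ (norm_nonneg _) h1 2).trans ?_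
  nlinarith [sq_nonneg (‖a‖ - ‖b‖), sq_nonneg (‖a‖ - ‖c‖), sq_nonneg (‖a‖ - ‖d‖),
    sq_nonneg (‖a‖ - ‖e‖), sq_nonneg (‖b‖ - ‖c‖), sq_nonneg (‖b‖ - ‖d‖), sq_nonneg (‖b‖ - ‖e‖),
    sq_nonneg (‖c‖ - ‖d‖), sq_nonneg (‖c‖ - ‖e‖), sq_nonneg (‖d‖ - ‖e‖)]

/-- The mean square of the difference of the weighted count and the main term.
Proof. Add up `S4_main` with `w n = lp (B n)` (`RPh = ∑ w ∏ lp`), `V1_main`, `W3_main`, `V2_main`, `Z2_main`: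
`RPh → Rw → Rz (lp) → Rz (Lk) → Rz (gB) → MZf`; `|w n| ≤ (log X)²` from `W2_ms`; `(∑ of 5)² ≤ 5 ∑ squares`. `L` = sum or
maximum of the constants (`Geo` is monotone in `L`), `K` = maximum (`Rg` is monotone in `K`). -/
theorem Z4_ms {k : ℕ} (P : Fin k → ℤ[X]) (A : ℕ) (hA : 1 ≤ A) (hP : Pol A P) (hT : TMf k A) :
    ∃ c K : ℝ, 0 < c ∧ 1 ≤ K ∧ ∃ L : ℕ, 2 ≤ L ∧ ∀ C : ℝ, ∃ Q0 : ℕ,
    ∀ (Q X X1 Y : ℕ) (M : Fin k → ℕ) (B : ℤ[X]) (C0 : ℤ → Ch → ℂ) (mb : Ch → ℝ), Q0 ≤ Q →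
    Rg K C Q X → Geo L Q X X1 P M → GeoB A X X1 Y B → Cf (Q ^ 100) Y C0 mb →
    ∀ (Cc : Fin k → ℤ → Ch → ℂ) (mc : Fin k → Ch → ℝ), (∀ i, Cf Q (Ysc (M i)) (Cc i) (mc i)) →
    ∀ r : ℕ, 1 ≤ r → r ^ 100 ≤ Q →
    ∑ h ∈ cub M M, ‖((RPh X1 B P h : ℝ) : ℂ) -
      MZf Q X1 (B.leadingCoeff.natAbs * r) P M B C0 Cc h‖ ^ 2 ≤
      (X1 : ℝ) ^ 2 * vol M * (Q : ℝ) ^ (-c) := by
  obtain ⟨c1, K1, hc1, hK1, L1, hS4⟩ := S4_main P hP.deg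
  obtain ⟨K2, hK2, hW2⟩ := W2_ms A
  obtain ⟨L3, hL3, hV1⟩ := V1_main P hP.deg
  obtain ⟨c4, K4, hc4, hK4, L4, hW3⟩ := W3_main P A hP
  obtain ⟨L5, hL5, Q5, hV2⟩ := V2_main P hP.deg A
  obtain ⟨c6, K6, hc6, hK6, L6, hL6, hZ2⟩ := Z2_main P A hA hP hT
  set cm : ℝ := min (min c1 1) (min c4 c6) with hcm
  have hcm0 : 0 < cm := lt_min (lt_min hc1 one_pos) (lt_min hc4 hc6)
  have hcm1 : cm ≤ c1 := (min_le_left _ _).trans (min_le_left _ _)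
  have hcm2 : cm ≤ 1 := (min_le_left _ _).trans (min_le_right _ _)
  have hcm4 : cm ≤ c4 := (min_le_right _ _).trans (min_le_left _ _)
  have hcm6 : cm ≤ c6 := (min_le_right _ _).trans (min_le_right _ _)
  obtain ⟨Q7, hQ7, hlog⟩ := G1_rlog 25 0 (cm / 2) (by positivity)
  refine ⟨cm / 2, max (max K1 K2) (max K4 K6), by positivity,
    le_max_of_le_left (le_max_of_le_left hK1), max (max L1 L3) (max (max L4 L5) L6),
    le_max_of_le_left (le_max_of_le_right hL3), fun C => ?_⟩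
  obtain ⟨Q1, hS4⟩ := hS4 C
  obtain ⟨Q2, hW2⟩ := hW2 C
  obtain ⟨Q3, hV1⟩ := hV1 C
  obtain ⟨Q4, hW3⟩ := hW3 C
  obtain ⟨Q6, hZ2⟩ := hZ2 C
  refine ⟨max (max (max Q1 Q2) (max Q3 Q4)) (max (max Q5 Q6) (max Q7 1)), ?_⟩
  intro Q X X1 Y M B C0 mb hQ hRg hG hB hCf Cc mc hCc r hr hr100
  have hQ' := max_le_iff.1 hQ
  have hQa := max_le_iff.1 hQ'.1
  have hQb := max_le_iff.1 hQ'.2
  have q1 : Q1 ≤ Q := (max_le_iff.1 hQa.1).1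
  have q2 : Q2 ≤ Q := (max_le_iff.1 hQa.1).2
  have q3 : Q3 ≤ Q := (max_le_iff.1 hQa.2).1
  have q4 : Q4 ≤ Q := (max_le_iff.1 hQa.2).2
  have q5 : Q5 ≤ Q := (max_le_iff.1 hQb.1).1
  have q6 : Q6 ≤ Q := (max_le_iff.1 hQb.1).2
  have q7 : Q7 ≤ Q := (max_le_iff.1 hQb.2).1
  have q8 : 1 ≤ Q := (max_le_iff.1 hQb.2).2
  have hQr : (1 : ℝ) ≤ Q := by exact_mod_cast q8
  have hQr0 : (0 : ℝ) < Q := by linarith
  have r1 : Rg K1 C Q X := z4_rg (le_max_of_le_left (le_max_left _ _)) hRg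
  have r2 : Rg K2 C Q X := z4_rg (le_max_of_le_left (le_max_right _ _)) hRg
  have r3 : Rg 1 C Q X := z4_rg hK1 r1
  have r4 : Rg K4 C Q X := z4_rg (le_max_of_le_right (le_max_left _ _)) hRg
  have r6 : Rg K6 C Q X := z4_rg (le_max_of_le_right (le_max_right _ _)) hRg
  have g1 : Geo L1 Q X X1 P M := z4_geo (le_max_of_le_left (le_max_left _ _)) hG
  have g3 : Geo L3 Q X X1 P M := z4_geo (le_max_of_le_left (le_max_right _ _)) hG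
  have g4 : Geo L4 Q X X1 P M := z4_geo (le_max_of_le_right (le_max_of_le_left (le_max_left _ _))) hG
  have g5 : Geo L5 Q X X1 P M := z4_geo (le_max_of_le_right (le_max_of_le_left (le_max_right _ _))) hG
  have g6 : Geo L6 Q X X1 P M := z4_geo (le_max_of_le_right (le_max_right _ _)) hG
  have hw : ∀ n ∈ Ico X1 (2 * X1), |lp (B.eval (n : ℤ))| ≤ (Real.log X) ^ 2 :=
    (hW2 Q X X1 Y B C0 mb q2 r2 hG.pos hG.le hG.ge hB hCf X1 X1 le_rfl (by omega)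
      (Nat.le_mul_of_pos_right _ (Nat.pow_pos q8))).2
  have e1 := hS4 Q X X1 M q1 r1 g1 (fun i => ⟨Cc i, mc i, hCc i⟩) (fun n => lp (B.eval (n : ℤ))) hw
  have e2 := hV1 Q X X1 M q3 r3 g3 Cc mc hCc (fun n => lp (B.eval (n : ℤ))) hw
  have e3 := hW3 Q X X1 Y M B C0 mb q4 r4 g4 hB hCf Cc mc hCc
  have e4 := hV2 Q X X1 Y M B C0 mb q5 g5 hB hCf Cc mc hCc
  have e5 := hZ2 Q X X1 Y M B C0 mb q6 r6 g6 hB hCf Cc mc hCc r hr hr100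
  set m0 : ℕ := B.leadingCoeff.natAbs * r with hm0
  have hv0 : 0 ≤ vol M := prod_nonneg fun i _ => Nat.cast_nonneg _
  set V : ℝ := (X1 : ℝ) ^ 2 * vol M with hV
  have hV0 : 0 ≤ V := by positivity
  have hpt : ∀ h ∈ cub M M, ‖((RPh X1 B P h : ℝ) : ℂ) - MZf Q X1 m0 P M B C0 Cc h‖ ^ 2 ≤
      5 * ((∑ n ∈ Ico X1 (2 * X1), lp (B.eval (n : ℤ)) * ∏ i, lp ((P i).eval (n : ℤ) + h i) -
        Rw Q X1 P M (fun n => lp (B.eval (n : ℤ))) h) ^ 2 +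
      ‖((Rw Q X1 P M (fun n => lp (B.eval (n : ℤ))) h : ℝ) : ℂ) -
        Rz Q X1 P M Cc (fun n => ((lp (B.eval (n : ℤ)) : ℝ) : ℂ)) h‖ ^ 2 +
      ‖Rz Q X1 P M Cc (fun n => ((lp (B.eval (n : ℤ)) : ℝ) : ℂ)) h -
        Rz Q X1 P M Cc (fun n => ((Lk (Q ^ 100) (Y / (Q ^ 100) ^ 2) (B.eval (n : ℤ)) : ℝ) : ℂ)) h‖ ^ 2 +
      ‖Rz Q X1 P M Cc (fun n => ((Lk (Q ^ 100) (Y / (Q ^ 100) ^ 2) (B.eval (n : ℤ)) : ℝ) : ℂ)) h -
        Rz Q X1 P M Cc (gB Q X1 B C0) h‖ ^ 2 +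
      ‖Rz Q X1 P M Cc (gB Q X1 B C0) h - MZf Q X1 m0 P M B C0 Cc h‖ ^ 2) := by
    intro h _
    have h1 : (∑ n ∈ Ico X1 (2 * X1), lp (B.eval (n : ℤ)) * ∏ i, lp ((P i).eval (n : ℤ) + h i) -
        Rw Q X1 P M (fun n => lp (B.eval (n : ℤ))) h) ^ 2 =
        ‖((RPh X1 B P h : ℝ) : ℂ) - ((Rw Q X1 P M (fun n => lp (B.eval (n : ℤ))) h : ℝ) : ℂ)‖ ^ 2 := by
      rw [← Complex.ofReal_sub, Complex.norm_real, Real.norm_eq_abs, sq_abs]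
      rfl
    rw [h1]
    refine le_trans (le_of_eq ?_) (z4_five _ _ _ _ _)
    congr 2
    ring
  refine (Finset.sum_le_sum hpt).trans ?_
  rw [← Finset.mul_sum, Finset.sum_add_distrib, Finset.sum_add_distrib, Finset.sum_add_distrib,
    Finset.sum_add_distrib]
  have hle : ∀ c' : ℝ, cm ≤ c' → V * (Q : ℝ) ^ (-c') ≤ V * (Q : ℝ) ^ (-cm) := by
    intro c' hc'
    exact mul_le_mul_of_nonneg_left (Real.rpow_le_rpow_of_exponent_le hQr (by linarith)) hV0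
  have f1 := e1.trans (hle _ hcm1)
  have f2 := e2.trans (hle _ hcm2)
  have f3 := e3.trans (hle _ hcm4)
  have f4 := e4.trans (hle _ hcm2)
  have f5 := e5.trans (hle _ hcm6)
  have hfin : 25 * (V * (Q : ℝ) ^ (-cm)) ≤ V * (Q : ℝ) ^ (-(cm / 2)) := by
    have h3 : (Q : ℝ) ^ (-(cm / 2)) = (Q : ℝ) ^ (cm / 2) * (Q : ℝ) ^ (-cm) := by
      rw [← Real.rpow_add hQr0]
      congr 1
      ring
    have h4 := hlog Q q7
    rw [Real.rpow_zero, mul_one] at h4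
    have h5 : 0 ≤ V * (Q : ℝ) ^ (-cm) := mul_nonneg hV0 (Real.rpow_nonneg hQr0.le _)
    rw [h3]
    nlinarith [mul_le_mul_of_nonneg_right h4 h5]
  linarith

/-- **Z4.** Proof. `CF0` of `H59P` for all coordinates (`E0 ≤ 1`), `Z4_ms` with `r = px.1`, `z4_cheb` of `H59P`:
`Bad` = the `h` with `‖RPh - MZf‖ > X1 Q^(-c/4)`, at most `vol M Q^(-c/2)` of them. For the others `Z3_main`
(`G1_size` for the condition `|lc B| px.1 ≤ fl Q (1/16)`, `G2_P`). -/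
theorem Z4_main {k : ℕ} (P : Fin k → ℤ[X]) (A : ℕ) (hA : 1 ≤ A) (hP : Pol A P) (hT : TMf k A) :
    ∃ c K : ℝ, 0 < c ∧ 1 ≤ K ∧ ∃ L : ℕ, 2 ≤ L ∧ ∀ C : ℝ, ∃ Q0 : ℕ,
    ∀ (Q X X1 Y : ℕ) (M : Fin k → ℕ) (B : ℤ[X]) (η E0 : ℝ) (px : Ch) (th : ℤ → ℝ), Q0 ≤ Q →
    Rg K C Q X → Geo L Q X X1 P M → GeoB A X X1 Y B → px ∈ PC Q → px.1 ^ 100 ≤ Q →
    Mdl (Q ^ 100) Y η E0 px th → (∀ i, Mdl Q (Ysc (M i)) η E0 px th) → 0 ≤ E0 →
    4 * (k + 1) * E0 ≤ 1 →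
    ∃ Bad : Finset (Fin k → ℕ), Bad ⊆ cub M M ∧ (Bad.card : ℝ) ≤ vol M * (Q : ℝ) ^ (-c) ∧
      ∀ h ∈ cub M M, h ∉ Bad → ∀ m : ℝ, (∀ th' : Fin (k + 1) → ℝ, (∀ i, 0 ≤ th' i) →
        (∀ i, th' i ≤ 1 - η) → (px = p0 → ∀ i, th' i = 0) → m ≤ PMf Q px th' (sys B P h)) →
        X1 * (m / 2 - (Q : ℝ) ^ (-c)) ≤ RPh X1 B P h := by
  obtain ⟨c, K, hc, hK, L, hL, hms⟩ := Z4_ms P A hA hP hT
  obtain ⟨L', hL', hG2⟩ := G2_P P hP.deg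
  obtain ⟨Q1, hQ1, hsize⟩ := G1_size A
  refine ⟨c / 4, K, by positivity, hK, max L L', le_max_of_le_left hL, fun C => ?_⟩
  obtain ⟨Q0, hms⟩ := hms C
  refine ⟨max Q0 Q1, ?_⟩
  intro Q X X1 Y M B η E0 px th hQ hRg hG hB hpx hpx100 hMB hM hE0 hE
  have q0 : Q0 ≤ Q := (le_max_left _ _).trans hQ
  have q1 : Q1 ≤ Q := (le_max_right _ _).trans hQ
  have q2 : 1 ≤ Q := hQ1.trans q1
  have hQr : (1 : ℝ) ≤ Q := by exact_mod_cast q2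
  have hQr0 : (0 : ℝ) < Q := by linarith
  have hE1 : E0 ≤ 1 := by
    have hk : (0 : ℝ) ≤ k := Nat.cast_nonneg _
    nlinarith
  have hQ100 : 1 ≤ Q ^ 100 := Nat.one_le_pow _ _ q2
  obtain ⟨e0, eb0, mb0, a1, a2, a3, a4⟩ := CF0 (Q ^ 100) Y η E0 px th hQ100 hMB hE1
  choose e eb mb b1 b2 b3 b4 using fun i => CF0 Q (Ysc (M i)) η E0 px th q2 (hM i) hE1
  have hms' := hms Q X X1 Y M B (fun m p => MX px th m p + e0 m p) mb0 q0 hRg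
    (z4_geo (le_max_left _ _) hG) hB a4 (fun i m p => MX px th m p + e i m p) mb b4 px.1
    (mem_PC.1 hpx).1 hpx100
  have hX1r : (0 : ℝ) < X1 := by exact_mod_cast hG.pos
  have hTpos : 0 < (X1 : ℝ) * (Q : ℝ) ^ (-(c / 4)) := by positivity
  have hch := z4_cheb (cub M M) (fun h => ‖((RPh X1 B P h : ℝ) : ℂ) -
    MZf Q X1 (B.leadingCoeff.natAbs * px.1) P M B (fun m p => MX px th m p + e0 m p)
      (fun i m p => MX px th m p + e i m p) h‖) _ _ hTpos hms' (fun _ => norm_nonneg _)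
  refine ⟨_, filter_subset _ _, hch.trans ?_, ?_⟩
  · have hv0 : 0 ≤ vol M := prod_nonneg fun i _ => Nat.cast_nonneg _
    have h1 : ((X1 : ℝ) * (Q : ℝ) ^ (-(c / 4))) ^ 2 = (X1 : ℝ) ^ 2 * (Q : ℝ) ^ (-(c / 2)) := by
      rw [mul_pow, ← Real.rpow_natCast ((Q : ℝ) ^ (-(c / 4))), ← Real.rpow_mul hQr0.le]
      congr 2
      push_cast
      ring
    have h2 : (Q : ℝ) ^ (-c) = (Q : ℝ) ^ (-(c / 2)) * (Q : ℝ) ^ (-(c / 2)) := by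
      rw [← Real.rpow_add hQr0]
      congr 1
      ring
    have h3 : (0 : ℝ) < (Q : ℝ) ^ (-(c / 2)) := Real.rpow_pos_of_pos hQr0 _
    have h4 : (X1 : ℝ) ^ 2 * vol M * (Q : ℝ) ^ (-c) / ((X1 : ℝ) * (Q : ℝ) ^ (-(c / 4))) ^ 2 =
        vol M * (Q : ℝ) ^ (-(c / 2)) := by
      rw [h1, h2]
      field_simp
    rw [h4]
    exact mul_le_mul_of_nonneg_left (Real.rpow_le_rpow_of_exponent_le hQr (by linarith)) hv0
  · intro h hh hbad m hm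
    rw [mem_filter, not_and, not_lt] at hbad
    have h1 := hbad hh
    have hlc0 : 1 ≤ B.leadingCoeff.natAbs := by
      have h2 : B.leadingCoeff ≠ 0 := by
        rw [Ne, leadingCoeff_eq_zero]
        intro h3
        have h4 := hB.lin.deg
        rw [h3, natDegree_zero] at h4
        omega
      exact Int.natAbs_pos.2 h2
    have hcond := (hsize Q q1 px.1 B.leadingCoeff.natAbs hlc0 hB.lin.lc hpx100).1
    have hZ3 := Z3_main P A (max L L') Q X X1 Y q2 M B hG hB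
      (fun i n hn => (hG2 Q X X1 M (z4_geo (le_max_right _ _) hG) i n hn).1) η E0 px th hpx hcond hMB hM
      hE0 hE e0 eb0 a1 a2 a3 e eb b2 b3 h hh m hm
    have h5 : (MZf Q X1 (B.leadingCoeff.natAbs * px.1) P M B (fun m p => MX px th m p + e0 m p)
        (fun i m p => MX px th m p + e i m p) h).re - RPh X1 B P h ≤
        X1 * (Q : ℝ) ^ (-(c / 4)) := by
      refine le_trans ?_ h1
      have h6 := Complex.abs_re_le_norm (((RPh X1 B P h : ℝ) : ℂ) -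
        MZf Q X1 (B.leadingCoeff.natAbs * px.1) P M B (fun m p => MX px th m p + e0 m p)
        (fun i m p => MX px th m p + e i m p) h)
      refine le_trans ?_ h6
      rw [Complex.sub_re, Complex.ofReal_re]
      have h7 := neg_abs_le (RPh X1 B P h -
        (MZf Q X1 (B.leadingCoeff.natAbs * px.1) P M B (fun m p => MX px th m p + e0 m p)
        (fun i m p => MX px th m p + e i m p) h).re)
      linarith
    have h8 : (X1 : ℝ) * (m / 2 - (Q : ℝ) ^ (-(c / 4))) =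
        X1 * (m / 2) - X1 * (Q : ℝ) ^ (-(c / 4)) := by ring
    rw [h8]
    linarith

end Pool.Agent.Lib.H24P
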