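import Pool.Agent.Lib.H24P.K1
import Pool.Agent.Lib.H24P.K2
import Pool.Agent.Lib.H24P.Z4
import Pool.Agent.Lib.H24P.T5
import Pool.Agent.Lib.H24P.L

/-!
# Project H24P, chunk K3 (M/L): the core theorem on a dyadic box
-/

open Finset Polynomial

namespace Pool.Agent.Lib.H24P

open Pool.Agent.Lib.H68T Pool.Agent.Lib.H18Q Pool.Agent.Lib.H59P

theorem k3_geo_mono {L L' Q Z X1 : ℕ} {k : ℕ} {P : Fin k → ℤ[X]} {M : Fin k → ℕ}
    (h : Geo L Q Z X1 P M) (hL : L' ≤ L) : Geo L' Q Z X1 P M :=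
  ⟨h.dvd, h.pos, h.le, h.ge, h.dvdM, fun i => (Nat.mul_le_mul_right _ hL).trans (h.lo i), h.hi⟩

theorem k3_fin (A k : ℕ) (ε c1 : ℝ) (hε : 0 < ε) : ∃ Z0 : ℕ, ∀ Z Q X1 : ℕ,
    Z0 ≤ Z → 1 ≤ Q → (4 * c1 / ε) * Real.log Q ≤ Real.log Z → (Z : ℝ) ^ (1 - ε / 2) ≤ X1 →
    ∀ N R : ℝ, N < (Z : ℝ) ^ (1 - ε) → R ≤ N * ((A + 2) * Real.log Z) ^ (k + 1) →
      R < X1 * ((Q : ℝ) ^ (-(c1 / 2)) / 4) := by
  obtain ⟨Z1, _, hZ1⟩ := G1_log 1 (k + 1) (8 * ((A : ℝ) + 2) ^ (k + 1)) (ε / 4) (by linarith)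
  refine ⟨max Z1 3, fun Z Q X1 hZ hQ hlog hX1 N R hN hR => ?_⟩
  have hZ3 : 3 ≤ Z := (le_max_right _ _).trans hZ
  have hZr : (3 : ℝ) ≤ Z := by exact_mod_cast hZ3
  have hZ0 : (0 : ℝ) < Z := by linarith
  have hQ0 : (0 : ℝ) < Q := by exact_mod_cast hQ
  have hl1 : 1 ≤ Real.log Z := G1_log1 hZ3
  have h1 := hZ1 Z Z ((le_max_left _ _).trans hZ) (by linarith)
  have hTp : 0 < (((A : ℝ) + 2) * Real.log Z) ^ (k + 1) := by
    have : 0 < ((A : ℝ) + 2) * Real.log Z := by positivity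
    positivity
  have h2 : 8 * (((A : ℝ) + 2) * Real.log Z) ^ (k + 1) ≤ (Z : ℝ) ^ (ε / 4) := by
    refine le_trans (le_of_eq ?_) h1
    rw [mul_pow]; ring
  have h3 : R < (Z : ℝ) ^ (1 - ε) * ((((A : ℝ) + 2) * Real.log Z) ^ (k + 1)) :=
    lt_of_le_of_lt hR (mul_lt_mul_of_pos_right hN hTp)
  have h4 : (Z : ℝ) ^ (1 - ε) * ((((A : ℝ) + 2) * Real.log Z) ^ (k + 1)) ≤
      (Z : ℝ) ^ (1 - ε) * ((Z : ℝ) ^ (ε / 4) / 8) :=
    mul_le_mul_of_nonneg_left (by linarith) (Real.rpow_nonneg hZ0.le _)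
  have h5 : (Z : ℝ) ^ (1 - ε) * ((Z : ℝ) ^ (ε / 4) / 8) = (Z : ℝ) ^ (1 - 3 * ε / 4) / 8 := by
    rw [mul_div_assoc', ← Real.rpow_add hZ0]
    congr 2
    ring
  have h6 : (Z : ℝ) ^ (-(ε / 8)) ≤ (Q : ℝ) ^ (-(c1 / 2)) := by
    rw [Real.rpow_def_of_pos hZ0, Real.rpow_def_of_pos hQ0]
    apply Real.exp_le_exp.2
    have h7 := mul_le_mul_of_nonneg_left hlog (by linarith : 0 ≤ ε / 8)
    have h8 : ε / 8 * (4 * c1 / ε * Real.log Q) = c1 / 2 * Real.log Q := by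
      field_simp
      ring
    rw [h8] at h7
    linarith
  have h9 : (Z : ℝ) ^ (1 - ε / 2) * ((Z : ℝ) ^ (-(ε / 8)) / 4) ≤ X1 * ((Q : ℝ) ^ (-(c1 / 2)) / 4) := by
    refine mul_le_mul hX1 (by linarith) (div_nonneg (Real.rpow_nonneg hZ0.le _) (by norm_num)) ?_
    exact Nat.cast_nonneg _
  have h10 : (Z : ℝ) ^ (1 - ε / 2) * ((Z : ℝ) ^ (-(ε / 8)) / 4) = (Z : ℝ) ^ (1 - 5 * ε / 8) / 4 := by
    rw [mul_div_assoc', ← Real.rpow_add hZ0]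
    congr 2
    ring
  have h11 : (Z : ℝ) ^ (1 - 3 * ε / 4) ≤ (Z : ℝ) ^ (1 - 5 * ε / 8) :=
    Real.rpow_le_rpow_of_exponent_le (by linarith) (by linarith)
  have h12 : 0 < (Z : ℝ) ^ (1 - 5 * ε / 8) := Real.rpow_pos_of_pos hZ0 _
  rw [h5] at h4
  rw [h10] at h9
  linarith

/-- **K3.** Proof. `T5_main`, `Z4_main` give `c1, K1, L1`; enlarge `L1` such that `G2_P` holds; `K2_geo` gives `K2`.
`L_levels` with `A`, `E0 = 1/(4 (k+1))`, `K0 = max(K1, K2, 1)` gives `C` and for large `Z` a level `Q` (which is large: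
`C log Q ≥ log Z`), so `Rg K1 C Q Z`. `K2_geo`: `X1`, `Geo`, `GeoB`, `Y`; `Z ≤ Y_i²`, `Y_i ≤ Z^(A+1)` for `Y_i = Ysc (M i)`
(`M_i ≥ Z/(A Q^(1/20))`, `M_i ≤ A Z^A`), so `Mdl` at all coordinates with `η = 1`, `px = p0`, `th = 0` or the exceptional
`η`, `px = ⟨r, ψ⟩`, `th m = m^(β-1)`. Let `Bad` be the union of the set of `Z4_main` and (exceptional case) the set
of `K1_exc` with `c1/2` instead of `c1` (`b = s = M`). For the other `h` without fixed divisor `m = Q^(-c1/2)` is allowed in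
`Z4_main` (`K1_good`, `K1_exc`), so `RPh ≥ X1 (Q^(-c1/2)/2 - Q^(-c1)) ≥ X1 Q^(-c1/2)/4`, and by `K2_count`
`pcount ≥ X1 Q^(-c1/2)/(4 ((A+2) log Z)^(k+1)) ≥ Z^(1-ε)` (`X1 ≥ Z^(1-ε/2)`; enlarge `K0` such that `Q^c1 ≤ Z^(ε/4)`, i.e.
`K0 ≥ 4 c1/ε`, and `Z` large). -/
theorem K3_box {k : ℕ} (P : Fin k → ℤ[X]) (A : ℕ) (hA : 1 ≤ A) (hP : Pol A P) (ε : ℝ) (hε : 0 < ε)
    (hε1 : ε ≤ 1 / 2) : open Classical in ∃ c C : ℝ, 0 < c ∧ 1 ≤ C ∧ ∃ Z0 : ℕ, ∀ Z : ℕ, Z0 ≤ Z →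
    ∃ Q : ℕ, 100 * Real.log Q ≤ Real.log Z ∧ Real.log Z ≤ C * Real.log Q ∧
    ∀ B : ℤ[X], Lin A B → OKB A ε Z B → ∀ M : Fin k → ℕ, (∀ i, 8 * Q ^ 8 ∣ M i) →
    (∀ i, (Z : ℝ) ^ (P i).natDegree ≤ A * (Q : ℝ) ^ (1 / (20 * (A + 1)) : ℝ) * M i) →
    (∀ i, (M i : ℝ) ≤ A * (Z : ℝ) ^ (P i).natDegree) →
    (((cub M M).filter (fun h => NoFix (sys B P h) ∧
      ((pcount Z B P h : ℕ) : ℝ) < (Z : ℝ) ^ (1 - ε))).card : ℝ) ≤ vol M * (Q : ℝ) ^ (-c) := by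
  obtain ⟨c1, K1, hc1, hK1, L1, hL1, hZ4⟩ := Z4_main P A hA hP (T5_main k A hA)
  obtain ⟨LP, hLP, hG2⟩ := G2_P P hP.deg
  obtain ⟨K2, hK2, Qg, hgeo⟩ := K2_geo P A hA hP ε hε hε1 (max L1 LP)
  obtain ⟨c2, hc2, Q2, hexc⟩ := K1_exc k A hA (c1 / 2) (by linarith)
  obtain ⟨Q3, hgood⟩ := K1_good k A hA (c1 / 2) (by linarith)
  obtain ⟨E0, hE0⟩ : ∃ E0 : ℝ, E0 = 1 / (4 * ((k : ℝ) + 1)) := ⟨_, rfl⟩
  have hE0p : 0 < E0 := by rw [hE0]; positivity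
  have hE0k : 4 * ((k : ℝ) + 1) * E0 ≤ 1 := by
    rw [hE0]
    have : (4 * ((k : ℝ) + 1)) ≠ 0 := by positivity
    rw [mul_one_div, div_self this]
  obtain ⟨K0, hK0⟩ : ∃ K0 : ℝ, K0 = max (max K1 K2) (max 100 (4 * c1 / ε)) := ⟨_, rfl⟩
  have hK0a : K1 ≤ K0 := by rw [hK0]; exact (le_max_left _ _).trans (le_max_left _ _)
  have hK0b : K2 ≤ K0 := by rw [hK0]; exact (le_max_right _ _).trans (le_max_left _ _)
  have hK0c : 100 ≤ K0 := by rw [hK0]; exact (le_max_left _ _).trans (le_max_right _ _)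
  have hK0d : 4 * c1 / ε ≤ K0 := by rw [hK0]; exact (le_max_right _ _).trans (le_max_right _ _)
  obtain ⟨C, hC, X0, hlev⟩ := L_levels A E0 K0 hE0p (by linarith)
  obtain ⟨Q4, hZ4'⟩ := hZ4 C
  obtain ⟨Z1, hfin⟩ := k3_fin A k ε c1 hε
  obtain ⟨Q5, _, hQ5⟩ := G1_rlog 4 0 (c1 / 2) (by linarith)
  obtain ⟨c, hc⟩ : ∃ c : ℝ, c = min c1 c2 / 2 := ⟨_, rfl⟩
  have hcp : 0 < c := by rw [hc]; have := lt_min hc1 hc2; linarith
  obtain ⟨Q6, _, hQ6⟩ := G1_rlog 2 0 c hcp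
  obtain ⟨Qm, hQm⟩ : ∃ Qm : ℕ, Qm = Qg + Q2 + Q3 + Q4 + Q5 + Q6 + 4 * A ^ 2 + 3 := ⟨_, rfl⟩
  refine ⟨c, C, hcp, hC, X0 + Z1 + 3 * A + 3 + ⌈Real.exp (C * Real.log Qm)⌉₊, fun Z hZ => ?_⟩
  obtain ⟨Q, hl1, hl2, _, hcase⟩ := hlev Z (by omega)
  -- sizes
  have hZ3 : 3 ≤ Z := by omega
  have hZ0 : (0 : ℝ) < Z := by exact_mod_cast (by omega : 0 < Z)
  have hZ1' : (1 : ℝ) ≤ Z := by exact_mod_cast (by omega : 1 ≤ Z)
  have hlZ : 1 ≤ Real.log Z := G1_log1 hZ3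
  have hlQ : 0 < Real.log Q := by
    by_contra hcon
    push Not at hcon
    have := mul_nonpos_of_nonneg_of_nonpos (by linarith : 0 ≤ C) hcon
    linarith
  have hQ0 : 0 < Q := by
    rcases Nat.eq_zero_or_pos Q with h | h
    · rw [h, Nat.cast_zero, Real.log_zero] at hlQ; exact absurd hlQ (lt_irrefl _)
    · exact h
  have hQr : (0 : ℝ) < Q := by exact_mod_cast hQ0
  have hQmQ : Qm ≤ Q := by
    have hQm0 : (0 : ℝ) < Qm := by exact_mod_cast (by omega : 0 < Qm)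
    have h1 : Real.exp (C * Real.log Qm) ≤ Z := (Nat.le_ceil _).trans (by
      exact_mod_cast (by omega : ⌈Real.exp (C * Real.log Qm)⌉₊ ≤ Z))
    have h2 : C * Real.log Qm ≤ Real.log Z := (Real.le_log_iff_exp_le hZ0).mpr h1
    have h3 : C * Real.log Qm ≤ C * Real.log Q := h2.trans hl2
    have h4 : Real.log Qm ≤ Real.log Q := le_of_mul_le_mul_left h3 (by linarith)
    have h5 : (Qm : ℝ) ≤ Q := (Real.log_le_log_iff hQm0 hQr).mp h4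
    exact_mod_cast h5
  have hQ1r : (1 : ℝ) ≤ Q := by exact_mod_cast hQ0
  have hlog100 : 100 * Real.log Q ≤ Real.log Z :=
    (mul_le_mul_of_nonneg_right hK0c hlQ.le).trans hl1
  have hQ100 : Q ^ 100 ≤ Z := by
    have h1 : Real.log ((Q : ℝ) ^ 100) ≤ Real.log Z := by
      rw [Real.log_pow]; push_cast; linarith
    have h2 : (Q : ℝ) ^ 100 ≤ Z := (Real.log_le_log_iff (by positivity) hZ0).mp h1
    exact_mod_cast h2
  have hQZ : Q ≤ Z := (Nat.le_self_pow (by norm_num) Q).trans hQ100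
  refine ⟨Q, hlog100, hl2, ?_⟩
  intro B hB hOK M hM hM1 hM2
  obtain ⟨X1, hX1p, hX1l, hX1A, hX1Q, hX1d, hgM, hgB⟩ := hgeo Q Z (by omega)
    ((mul_le_mul_of_nonneg_right hK0b hlQ.le).trans hl1)
  have hG := hgM M hM hM1 hM2
  obtain ⟨Y, hGB, hY1, hY2⟩ := hgB B hB hOK
  have hG1 : Geo L1 Q Z X1 P M := k3_geo_mono hG (le_max_left _ _)
  have hG2' : Geo LP Q Z X1 P M := k3_geo_mono hG (le_max_right _ _)
  have hRg : Rg K1 C Q Z := ⟨(mul_le_mul_of_nonneg_right hK0a hlQ.le).trans hl1, hl2⟩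
  have hX1Z : 2 * X1 ≤ Z := by
    refine le_trans ?_ hX1A
    have : 2 * X1 * 1 ≤ 2 * X1 * A := Nat.mul_le_mul_left _ hA
    nlinarith
  -- the sides
  have hMpos : ∀ i, 0 < M i := by
    intro i
    rcases Nat.eq_zero_or_pos (M i) with h | h
    · have h1 := hM1 i
      rw [h, Nat.cast_zero, mul_zero] at h1
      have h2 : 0 < (Z : ℝ) ^ (P i).natDegree := by positivity
      linarith
    · exact h
  have hMQ : ∀ i, Q ≤ M i := by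
    intro i
    have h1 : 8 * Q ^ 8 ≤ M i := Nat.le_of_dvd (hMpos i) (hM i)
    have h2 : Q ≤ Q ^ 8 := Nat.le_self_pow (by norm_num) Q
    omega
  have hM8 : ∀ i, 8 ∣ M i := fun i => (Dvd.intro _ rfl).trans (hM i)
  have hYM : ∀ i, M i ≤ 2 * Ysc (M i) ∧ Ysc (M i) ≤ M i := by
    intro i
    obtain ⟨t, ht⟩ := hM8 i
    unfold Ysc
    omega
  have hYs : ∀ i, Z ≤ (Ysc (M i)) ^ 2 ∧ Ysc (M i) ≤ Z ^ (A + 1) := by
    intro i
    obtain ⟨y1, y2⟩ := hYM i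
    constructor
    · by_contra hcon
      push Not at hcon
      have hd := hP.deg i
      have h1 : (Z : ℝ) ≤ A * Q * M i := by
        calc (Z : ℝ) ≤ (Z : ℝ) ^ (P i).natDegree := le_self_pow₀ hZ1' (by omega)
          _ ≤ A * (Q : ℝ) ^ (1 / (20 * (A + 1)) : ℝ) * M i := hM1 i
          _ ≤ A * Q * M i := by
            apply mul_le_mul_of_nonneg_right _ (Nat.cast_nonneg _)
            apply mul_le_mul_of_nonneg_left _ (Nat.cast_nonneg _)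
            calc (Q : ℝ) ^ (1 / (20 * (A + 1)) : ℝ) ≤ (Q : ℝ) ^ (1 : ℝ) := by
                  apply Real.rpow_le_rpow_of_exponent_le hQ1r
                  have hA0 : (0 : ℝ) ≤ A := Nat.cast_nonneg _
                  rw [div_le_one (by positivity)]
                  nlinarith
              _ = Q := Real.rpow_one _
      have h2 : Z ≤ A * Q * M i := by exact_mod_cast h1
      have h3 : Z ^ 2 ≤ (A * Q * (2 * Ysc (M i))) ^ 2 :=
        Nat.pow_le_pow_left (h2.trans (Nat.mul_le_mul_left _ y1)) 2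
      have h4 : (A * Q * (2 * Ysc (M i))) ^ 2 = (4 * A ^ 2 * Q ^ 2) * (Ysc (M i)) ^ 2 := by ring
      rw [h4] at h3
      have h5 : 0 < 4 * A ^ 2 * Q ^ 2 := by positivity
      have h6 : (4 * A ^ 2 * Q ^ 2) * (Ysc (M i)) ^ 2 < (4 * A ^ 2 * Q ^ 2) * Z :=
        Nat.mul_lt_mul_of_pos_left hcon h5
      have h7 : Z * Z < (4 * A ^ 2 * Q ^ 2) * Z := by
        have : Z ^ 2 = Z * Z := by ring
        rw [this] at h3
        exact h3.trans_lt h6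
      have h8 : Z < 4 * A ^ 2 * Q ^ 2 := Nat.lt_of_mul_lt_mul_right h7
      have h9 : 4 * A ^ 2 * Q ^ 2 ≤ Q ^ 3 := by
        have : 4 * A ^ 2 ≤ Q := by omega
        calc 4 * A ^ 2 * Q ^ 2 ≤ Q * Q ^ 2 := Nat.mul_le_mul_right _ this
          _ = Q ^ 3 := by ring
      have h10 : Q ^ 3 ≤ Q ^ 100 := Nat.pow_le_pow_right hQ0 (by norm_num)
      omega
    · have h1 : (Ysc (M i) : ℝ) ≤ A * (Z : ℝ) ^ (P i).natDegree :=
        le_trans (by exact_mod_cast y2) (hM2 i)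
      have h2 : Ysc (M i) ≤ A * Z ^ (P i).natDegree := by exact_mod_cast h1
      calc Ysc (M i) ≤ A * Z ^ (P i).natDegree := h2
        _ ≤ Z * Z ^ A := Nat.mul_le_mul (by omega) (Nat.pow_le_pow_right (by omega) (hP.degA i))
        _ = Z ^ (A + 1) := by ring
  have hvol : 0 ≤ vol M := by
    unfold vol
    exact prod_nonneg fun i _ => Nat.cast_nonneg _
  have hQc : (4 : ℝ) ≤ (Q : ℝ) ^ (c1 / 2) := by
    have := hQ5 Q (by omega)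
    rwa [Real.rpow_zero, mul_one] at this
  have hQc' : (2 : ℝ) ≤ (Q : ℝ) ^ c := by
    have := hQ6 Q (by omega)
    rwa [Real.rpow_zero, mul_one] at this
  -- the lower bound for the main term
  have hmain : (Q : ℝ) ^ (-(c1 / 2)) / 4 ≤ (Q : ℝ) ^ (-(c1 / 2)) / 2 - (Q : ℝ) ^ (-c1) := by
    have h1 : (Q : ℝ) ^ (-c1) = (Q : ℝ) ^ (-(c1 / 2)) * (Q : ℝ) ^ (-(c1 / 2)) := by
      rw [← Real.rpow_add hQr]
      congr 1
      ring
    have h2 : (Q : ℝ) ^ (-(c1 / 2)) ≤ 1 / 4 := by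
      rw [Real.rpow_neg hQr.le, ← one_div]
      exact one_div_le_one_div_of_le (by norm_num) hQc
    have h3 : 0 < (Q : ℝ) ^ (-(c1 / 2)) := Real.rpow_pos_of_pos hQr _
    rw [h1]
    nlinarith
  -- from the two bad sets to the theorem
  have hfinal : ∀ (Bad1 Bad2 : Finset (Fin k → ℕ)),
      (Bad1.card : ℝ) ≤ vol M * (Q : ℝ) ^ (-c1) → (Bad2.card : ℝ) ≤ vol M * (Q : ℝ) ^ (-c2) →
      (∀ h ∈ cub M M, h ∉ Bad1 → h ∉ Bad2 → NoFix (sys B P h) →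
        X1 * ((Q : ℝ) ^ (-(c1 / 2)) / 2 - (Q : ℝ) ^ (-c1)) ≤ RPh X1 B P h) →
      open Classical in (((cub M M).filter (fun h => NoFix (sys B P h) ∧
        ((pcount Z B P h : ℕ) : ℝ) < (Z : ℝ) ^ (1 - ε))).card : ℝ) ≤ vol M * (Q : ℝ) ^ (-c) := by
    intro Bad1 Bad2 hb1 hb2 hb
    classical
    have hsub : ((cub M M).filter (fun h => NoFix (sys B P h) ∧
        ((pcount Z B P h : ℕ) : ℝ) < (Z : ℝ) ^ (1 - ε))) ⊆ Bad1 ∪ Bad2 := by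
      intro h hh
      rw [mem_filter] at hh
      obtain ⟨hh1, hh2, hh3⟩ := hh
      rw [mem_union]
      by_contra hcon
      push Not at hcon
      have h1 := hb h hh1 hcon.1 hcon.2 hh2
      have h2 := K2_count P A (max L1 LP) Q Z X1 Y hQ0 hQZ (by omega) hZ3 M B hP hG hGB hX1Z
        (fun i n hn => (hG2 Q Z X1 M hG2' i n hn).1) h hh1
      have h3 := hfin Z Q X1 (by omega) hQ0
        ((mul_le_mul_of_nonneg_right hK0d hlQ.le).trans hl1) hX1l _ _ hh3 h2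
      have h4 := mul_le_mul_of_nonneg_left hmain (Nat.cast_nonneg X1 : (0 : ℝ) ≤ X1)
      linarith
    have hcard := card_le_card hsub
    have hcard2 := card_union_le Bad1 Bad2
    have h1 : (((cub M M).filter (fun h => NoFix (sys B P h) ∧
        ((pcount Z B P h : ℕ) : ℝ) < (Z : ℝ) ^ (1 - ε))).card : ℝ) ≤ (Bad1.card : ℝ) + Bad2.card := by
      exact_mod_cast hcard.trans hcard2
    have hexp : ∀ x : ℝ, min c1 c2 ≤ x → (Q : ℝ) ^ (-x) ≤ (Q : ℝ) ^ (-c) / 2 := by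
      intro x hx
      have g1 : (Q : ℝ) ^ (-x) ≤ (Q : ℝ) ^ (-c + -c) := by
        apply Real.rpow_le_rpow_of_exponent_le hQ1r
        rw [hc]
        linarith
      have g2 : (Q : ℝ) ^ (-c + -c) = (Q : ℝ) ^ (-c) * (Q : ℝ) ^ (-c) := Real.rpow_add hQr _ _
      have g3 : (Q : ℝ) ^ (-c) ≤ 1 / 2 := by
        rw [Real.rpow_neg hQr.le, ← one_div]
        exact one_div_le_one_div_of_le (by norm_num) hQc'
      have g4 : 0 < (Q : ℝ) ^ (-c) := Real.rpow_pos_of_pos hQr _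
      nlinarith
    have h2 := mul_le_mul_of_nonneg_left (hexp c1 (min_le_left _ _)) hvol
    have h3 := mul_le_mul_of_nonneg_left (hexp c2 (min_le_right _ _)) hvol
    linarith
  rcases hcase with hg | ⟨r, hr0, ψ, β, η, hr, hψ, hψ1, hψ2, hβ, hL0, hη, hmd⟩
  · obtain ⟨Bad, _, hBc, hBad⟩ := hZ4' Q Z X1 Y M B 1 E0 p0 (fun _ => 0) (by omega) hRg hG1 hGB
      (p0_mem hQ0) (by
        have : p0.1 = 1 := rfl
        rw [this, one_pow]; exact hQ0)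
      (hg Y hY1 hY2).2 (fun i => (hg _ (hYs i).1 (hYs i).2).1) hE0p.le hE0k
    refine hfinal Bad ∅ hBc ?_ ?_
    · rw [card_empty, Nat.cast_zero]
      exact mul_nonneg hvol (Real.rpow_nonneg hQr.le _)
    · intro h hh hb _ hNF
      refine hBad h hh hb _ ?_
      intro th' ht1 ht2 ht3
      have e : (fun i => th' i) = th' := rfl
      exact hgood Q (by omega) B hB P hP h hNF th' ht1 ht2
  · have hm := hmd Y hY1 hY2
    obtain ⟨Bad, _, hBc, hBad⟩ := hZ4' Q Z X1 Y M B η E0 ⟨r, ψ⟩ (fun m => (m : ℝ) ^ (β - 1))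
      (by omega) hRg hG1 hGB hm.1.mem hm.1.cond hm.2 (fun i => (hmd _ (hYs i).1 (hYs i).2).1)
      hE0p.le hE0k
    obtain ⟨Bad2, _, hBc2, hBad2⟩ := hexc Q (by omega) B hB P hP r ψ β η hr hψ hψ1 hψ2 hβ hL0 hη
      M M hMQ
    refine hfinal Bad Bad2 hBc hBc2 ?_
    intro h hh hb hb2 hNF
    refine hBad h hh hb _ ?_
    intro th' ht1 ht2 ht3
    exact hBad2 h hh hb2 hNF th' ht1 ht2

end Pool.Agent.Lib.H24P
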