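import Pool.Agent.Lib.H24P.KDefs

/-!
# Project H24P, chunk K4 (M): covering the box by dyadic boxes (elementary)
-/

open Finset Polynomial

namespace Pool.Agent.Lib.H24P

/-- One dimension. Proof. `u = ⌈H/(T q)⌉ ≥ 1`, the numbers `q u 2^j ≤ H` (finitely many). `H ≤ T q u ≤ T M`. The sum is at most
`2 H` (geometric series). If `2 H ≤ T h`, `h ≤ H` then `h ≥ q u` because `q u ≤ H/T + q ≤ 2 H/T` (`T q ≤ H`), and `h` is in
`[q u 2^j, q u 2^(j+1))` for some `j`, with `q u 2^j ≤ h ≤ H`. -/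
theorem K4_one (H q : ℕ) (T : ℝ) (hq : 1 ≤ q) (hT : 1 ≤ T) (hH : T * q ≤ H) :
    ∃ S : Finset ℕ, (∀ M ∈ S, q ∣ M ∧ (H : ℝ) ≤ T * M ∧ M ≤ H) ∧ ∑ M ∈ S, (M : ℝ) ≤ 2 * H ∧
      ∀ h ∈ Icc 1 H, 2 * (H : ℝ) ≤ T * h → ∃ M ∈ S, h ∈ Ico M (2 * M) := by
  have hT0 : 0 < T := zero_lt_one.trans_le hT
  have hq0 : (0 : ℝ) < q := by exact_mod_cast hq
  have hTq : 0 < T * q := mul_pos hT0 hq0
  have hH0 : (0 : ℝ) < H := hTq.trans_le hH
  obtain ⟨u, hu⟩ : ∃ u, u = ⌈(H : ℝ) / (T * q)⌉₊ := ⟨_, rfl⟩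
  have hu1 : 1 ≤ u := by
    rw [hu]
    exact Nat.one_le_ceil_iff.2 (by positivity)
  have hu2 : (H : ℝ) / (T * q) ≤ u := by
    rw [hu]
    exact Nat.le_ceil _
  have hu3 : (u : ℝ) < (H : ℝ) / (T * q) + 1 := by
    rw [hu]
    exact Nat.ceil_lt_add_one (by positivity)
  obtain ⟨a, ha⟩ : ∃ a, a = q * u := ⟨_, rfl⟩
  have ha1 : 1 ≤ a := by
    rw [ha]
    exact Nat.one_le_iff_ne_zero.2 (Nat.mul_ne_zero (by omega) (by omega))
  have haT : (H : ℝ) ≤ T * a := by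
    rw [div_le_iff₀ hTq] at hu2
    rw [ha]
    push_cast
    linarith [mul_comm (u : ℝ) (T * q)]
  have haT2 : T * a ≤ 2 * H := by
    have h1 : (u : ℝ) * (T * q) ≤ ((H : ℝ) / (T * q) + 1) * (T * q) :=
      mul_le_mul_of_nonneg_right hu3.le hTq.le
    rw [add_mul, div_mul_cancel₀ _ hTq.ne', one_mul] at h1
    rw [ha]
    push_cast
    linarith [mul_comm (u : ℝ) (T * q)]
  obtain ⟨J, hJ⟩ : ∃ J, J = (range (H + 1)).filter (fun j => a * 2 ^ j ≤ H) := ⟨_, rfl⟩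
  refine ⟨J.image (fun j => a * 2 ^ j), ?_, ?_, ?_⟩
  · intro M hM
    rw [mem_image] at hM
    obtain ⟨j, hj, rfl⟩ := hM
    rw [hJ, mem_filter] at hj
    refine ⟨?_, ?_, hj.2⟩
    · rw [ha, mul_assoc]
      exact dvd_mul_right _ _
    · refine haT.trans ?_
      push_cast
      apply mul_le_mul_of_nonneg_left _ hT0.le
      have h1 : (1 : ℝ) ≤ 2 ^ j := one_le_pow₀ (by norm_num)
      exact le_mul_of_one_le_right (Nat.cast_nonneg _) h1
  · have hle : ∑ M ∈ (J.image (fun j => a * 2 ^ j) : Finset ℕ), (M : ℝ) ≤ ∑ j ∈ J, ((a * 2 ^ j : ℕ) : ℝ) := by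
      rw [Finset.sum_image]
      intro x _ y _ hxy
      have h1 : a * 2 ^ x = a * 2 ^ y := hxy
      exact Nat.pow_right_injective (le_refl 2) (Nat.eq_of_mul_eq_mul_left ha1 h1)
    refine hle.trans ?_
    rcases J.eq_empty_or_nonempty with h0 | h0
    · rw [h0, sum_empty]
      positivity
    · have hm := J.max'_mem h0
      obtain ⟨m, hmd⟩ : ∃ m, m = J.max' h0 := ⟨_, rfl⟩
      rw [← hmd] at hm
      have hsub : J ⊆ range (m + 1) := by
        intro j hj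
        rw [mem_range, hmd]
        exact Nat.lt_succ_of_le (J.le_max' j hj)
      have h1 : ∑ j ∈ J, ((a * 2 ^ j : ℕ) : ℝ) ≤ ∑ j ∈ range (m + 1), ((a * 2 ^ j : ℕ) : ℝ) :=
        Finset.sum_le_sum_of_subset_of_nonneg hsub (fun _ _ _ => Nat.cast_nonneg _)
      refine h1.trans ?_
      push_cast
      rw [← Finset.mul_sum, geom_sum_eq (by norm_num : (2 : ℝ) ≠ 1)]
      rw [hJ, mem_filter] at hm
      have h3 : ((a * 2 ^ m : ℕ) : ℝ) ≤ H := Nat.cast_le.2 hm.2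
      push_cast at h3
      have h4 : (0 : ℝ) ≤ a := Nat.cast_nonneg _
      have e : (a : ℝ) * ((2 ^ (m + 1) - 1) / (2 - 1)) = 2 * (a * 2 ^ m) - a := by
        rw [pow_succ]
        ring
      rw [e]
      linarith
  · intro h hh hTh
    rw [mem_Icc] at hh
    have hah : a ≤ h := by
      have h1 : T * a ≤ T * h := haT2.trans hTh
      exact_mod_cast le_of_mul_le_mul_left h1 hT0
    have hdiv : h / a ≠ 0 := (Nat.div_pos hah ha1).ne'
    obtain ⟨j, hj⟩ : ∃ j, j = Nat.log 2 (h / a) := ⟨_, rfl⟩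
    have h1 : 2 ^ j ≤ h / a := by
      rw [hj]
      exact Nat.pow_log_le_self 2 hdiv
    have h2 : h / a < 2 ^ (j + 1) := by
      rw [hj]
      exact Nat.lt_pow_succ_log_self (by norm_num) _
    have h3 : a * 2 ^ j ≤ h := by
      rw [mul_comm]
      exact (Nat.le_div_iff_mul_le ha1).1 h1
    have h4 : h < 2 * (a * 2 ^ j) := by
      have h5 := (Nat.div_lt_iff_lt_mul ha1).1 h2
      have e : 2 ^ (j + 1) * a = 2 * (a * 2 ^ j) := by
        rw [pow_succ]
        ring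
      rwa [e] at h5
    refine ⟨a * 2 ^ j, ?_, mem_Ico.2 ⟨h3, h4⟩⟩
    rw [mem_image]
    refine ⟨j, ?_, rfl⟩
    rw [hJ, mem_filter, mem_range]
    refine ⟨?_, h3.trans hh.2⟩
    have h5 : j < 2 ^ j := Nat.lt_two_pow_self
    have h6 : 2 ^ j ≤ a * 2 ^ j := Nat.le_mul_of_pos_left _ ha1
    omega

theorem k4_low (n : ℕ) (T : ℝ) (hT : 1 ≤ T) :
    (((Icc 1 n).filter (fun h : ℕ => T * (h : ℝ) < 2 * n)).card : ℝ) ≤ 2 / T * n := by
  have hT0 : 0 < T := zero_lt_one.trans_le hT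
  have hsub : (Icc 1 n).filter (fun h : ℕ => T * (h : ℝ) < 2 * n) ⊆ Icc 1 ⌊2 / T * (n : ℝ)⌋₊ := by
    intro h hh
    rw [mem_filter, mem_Icc] at hh
    rw [mem_Icc]
    refine ⟨hh.1.1, ?_⟩
    apply Nat.le_floor
    rw [div_mul_eq_mul_div, le_div_iff₀ hT0]
    linarith [hh.2, mul_comm T (h : ℝ)]
  have h1 := Finset.card_le_card hsub
  rw [Nat.card_Icc, Nat.add_sub_cancel] at h1
  calc (((Icc 1 n).filter (fun h : ℕ => T * (h : ℝ) < 2 * n)).card : ℝ) ≤ (⌊2 / T * (n : ℝ)⌋₊ : ℝ) :=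
        Nat.cast_le.2 h1
    _ ≤ 2 / T * n := Nat.floor_le (by positivity)

theorem k4_bad {k : ℕ} (H : Fin k → ℕ) (T : ℝ) (hT : 1 ≤ T) (i : Fin k) :
    (((BoxH H).filter (fun h => T * (h i : ℝ) < 2 * H i)).card : ℝ) ≤ 2 / T * vol H := by
  classical
  have hT0 : 0 < T := zero_lt_one.trans_le hT
  have hsub : (BoxH H).filter (fun h => T * (h i : ℝ) < 2 * H i) ⊆
      Fintype.piFinset (fun j => if j = i then (Icc 1 (H j)).filter (fun h : ℕ => T * (h : ℝ) < 2 * H j)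
        else Icc 1 (H j)) := by
    intro h hh
    rw [mem_filter, BoxH, Fintype.mem_piFinset] at hh
    rw [Fintype.mem_piFinset]
    intro j
    by_cases hj : j = i
    · rw [if_pos hj, mem_filter]
      subst hj
      exact ⟨hh.1 j, hh.2⟩
    · rw [if_neg hj]
      exact hh.1 j
  have h1 := Finset.card_le_card hsub
  rw [Fintype.card_piFinset] at h1
  have h2 : (((BoxH H).filter (fun h => T * (h i : ℝ) < 2 * H i)).card : ℝ) ≤
      ∏ j, (((if j = i then (Icc 1 (H j)).filter (fun h : ℕ => T * (h : ℝ) < 2 * H j)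
        else Icc 1 (H j)).card : ℕ) : ℝ) := by
    rw [← Nat.cast_prod]
    exact Nat.cast_le.2 h1
  refine h2.trans ?_
  have h3 : ∏ j, (((if j = i then (Icc 1 (H j)).filter (fun h : ℕ => T * (h : ℝ) < 2 * H j)
        else Icc 1 (H j)).card : ℕ) : ℝ) ≤ ∏ j, ((if j = i then 2 / T else 1) * (H j : ℝ)) := by
    apply Finset.prod_le_prod
    · intro j _
      exact Nat.cast_nonneg _
    · intro j _
      by_cases hj : j = i
      · rw [if_pos hj, if_pos hj]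
        exact k4_low _ T hT
      · rw [if_neg hj, if_neg hj, Nat.card_Icc, Nat.add_sub_cancel, one_mul]
  refine h3.trans (le_of_eq ?_)
  rw [Finset.prod_mul_distrib, Finset.prod_ite_eq' univ i (fun _ => 2 / T), if_pos (mem_univ i), vol]

/-- **K4.** Proof. The bad `h ∈ BoxH H` (`E h`) either have a coordinate with `T h_i < 2 H_i` (at most
`∑_i (2 H_i/T) ∏_{j≠i} H_j = 2 k vol H/T` of them), or are in `cub M M` for some `M ∈ piFinset S_i` (`K4_one`; `M_i + M_i = 2 M_i`).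
Sum: `∑_M vol M · δ = δ ∏_i ∑_{M ∈ S_i} M ≤ δ 2^k vol H` (`Finset.prod_univ_sum`). -/
theorem K4_cover {k : ℕ} (H : Fin k → ℕ) (q : ℕ) (T δ : ℝ) (hq : 1 ≤ q) (hT : 1 ≤ T) (hδ : 0 ≤ δ)
    (hH : ∀ i, T * q ≤ H i) (E : (Fin k → ℕ) → Prop) [DecidablePred E]
    (hE : ∀ M : Fin k → ℕ, (∀ i, q ∣ M i) → (∀ i, (H i : ℝ) ≤ T * M i) → (∀ i, M i ≤ H i) →
      (((cub M M).filter E).card : ℝ) ≤ vol M * δ) :
    (((BoxH H).filter E).card : ℝ) ≤ (2 * k / T + 2 ^ k * δ) * vol H := by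
  classical
  have hT0 : 0 < T := zero_lt_one.trans_le hT
  choose S hS1 hS2 hS3 using fun i => K4_one (H i) q T hq hT (hH i)
  have hsub : (BoxH H).filter E ⊆ (univ.biUnion fun i => (BoxH H).filter (fun h => T * (h i : ℝ) < 2 * H i)) ∪
      ((Fintype.piFinset S).biUnion fun M => (cub M M).filter E) := by
    intro h hh
    rw [mem_filter] at hh
    rw [mem_union]
    by_cases hb : ∃ i, T * (h i : ℝ) < 2 * H i
    · left
      obtain ⟨i, hi⟩ := hb
      rw [mem_biUnion]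
      exact ⟨i, mem_univ i, mem_filter.2 ⟨hh.1, hi⟩⟩
    · right
      push Not at hb
      have hbox := hh.1
      rw [BoxH, Fintype.mem_piFinset] at hbox
      choose M hM1 hM2 using fun i => hS3 i (h i) (hbox i) (hb i)
      rw [mem_biUnion]
      refine ⟨M, Fintype.mem_piFinset.2 hM1, mem_filter.2 ⟨?_, hh.2⟩⟩
      rw [cub, Fintype.mem_piFinset]
      intro i
      rw [← two_mul]
      exact hM2 i
  have h1 : (((BoxH H).filter E).card : ℝ) ≤
      ∑ i : Fin k, (((BoxH H).filter (fun h => T * (h i : ℝ) < 2 * H i)).card : ℝ) +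
      ∑ M ∈ Fintype.piFinset S, (((cub M M).filter E).card : ℝ) := by
    have h2 := (Finset.card_le_card hsub).trans ((Finset.card_union_le _ _).trans
      (Nat.add_le_add Finset.card_biUnion_le Finset.card_biUnion_le))
    exact_mod_cast h2
  refine h1.trans ?_
  have h2 : ∑ i : Fin k, (((BoxH H).filter (fun h => T * (h i : ℝ) < 2 * H i)).card : ℝ) ≤
      2 * k / T * vol H := by
    refine (Finset.sum_le_sum fun i _ => k4_bad H T hT i).trans (le_of_eq ?_)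
    rw [Finset.sum_const, card_univ, Fintype.card_fin, nsmul_eq_mul]
    ring
  have h3 : ∑ M ∈ Fintype.piFinset S, (((cub M M).filter E).card : ℝ) ≤ 2 ^ k * δ * vol H := by
    have h4 : ∑ M ∈ Fintype.piFinset S, (((cub M M).filter E).card : ℝ) ≤
        ∑ M ∈ Fintype.piFinset S, vol M * δ := by
      refine Finset.sum_le_sum fun M hM => ?_
      rw [Fintype.mem_piFinset] at hM
      exact hE M (fun i => (hS1 i _ (hM i)).1) (fun i => (hS1 i _ (hM i)).2.1) (fun i => (hS1 i _ (hM i)).2.2)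
    refine h4.trans ?_
    rw [← Finset.sum_mul]
    have h5 : ∑ M ∈ Fintype.piFinset S, vol M = ∏ i, ∑ m ∈ S i, (m : ℝ) := by
      rw [Finset.prod_univ_sum]
      rfl
    rw [h5]
    have h6 : ∏ i, ∑ m ∈ S i, (m : ℝ) ≤ ∏ i, (2 * (H i : ℝ)) := by
      apply Finset.prod_le_prod
      · intro i _
        exact Finset.sum_nonneg fun _ _ => Nat.cast_nonneg _
      · intro i _
        exact hS2 i
    rw [Finset.prod_mul_distrib, Finset.prod_const, card_univ, Fintype.card_fin] at h6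
    calc (∏ i, ∑ m ∈ S i, (m : ℝ)) * δ ≤ (2 ^ k * ∏ i, (H i : ℝ)) * δ := mul_le_mul_of_nonneg_right h6 hδ
      _ = 2 ^ k * δ * vol H := by
        rw [vol]
        ring
  rw [add_mul]
  exact add_le_add h2 h3

end Pool.Agent.Lib.H24P
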