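import Pool.Agent.Lib.H24P.K3
import Pool.Agent.Lib.H24P.K4

/-!
# Project H24P, chunk K5 (M): the core theorem
-/

open Finset Polynomial

namespace Pool.Agent.Lib.H24P

open Pool.Agent.Lib.H68T Pool.Agent.Lib.H18Q Pool.Agent.Lib.H59P

/-- Monotonicity. Proof. Directly. -/
theorem K5_mono {A A' : ℕ} {ε ε' : ℝ} {Z : ℕ} (hZ : 1 ≤ Z) {B : ℤ[X]} (h : OKB A ε Z B) (hA : A ≤ A')
    (hε : ε' ≤ ε) : OKB A' ε' Z B := by
  have h1 : ∀ n : ℕ, (Z : ℝ) ^ (1 - ε') ≤ n → (Z : ℝ) ^ (1 - ε) ≤ n := by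
    intro n hn
    refine le_trans (Real.rpow_le_rpow_of_exponent_le ?_ (by linarith)) hn
    exact_mod_cast hZ
  have h2 : ∀ n : ℕ, A' * n ≤ Z → A * n ≤ Z := fun n hn => (Nat.mul_le_mul_right n hA).trans hn
  refine ⟨h.deg, h.lc.trans hA, fun n a b => h.lo n (h1 n a) (h2 n b), ?_,
    fun n n' a b => h.cmp1 n n' (h1 n a) (h2 n b), fun n n' a b => h.cmp2 n n' (h1 n a) (h2 n b)⟩
  intro n a b
  refine (h.hi n (h1 n a) (h2 n b)).trans ?_
  have h3 : (A : ℤ) ≤ A' := by exact_mod_cast hA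
  exact mul_le_mul_of_nonneg_right h3 (Int.natCast_nonneg _)

/-- The linear coordinate is primitive if there is no fixed divisor. Proof. Otherwise a prime `l` divides both
coefficients (`Int.isCoprime_iff_gcd_eq_one`, `Nat.exists_prime_and_dvd`; if both are `0` the degree is not `1`), so it
divides all `B(n)`; coordinate `0` of `sys` is `B`. -/
theorem K5_lin {k A : ℕ} {B : ℤ[X]} {P : Fin k → ℤ[X]} {h : Fin k → ℕ} (hd : B.natDegree = 1)
    (hl : B.leadingCoeff.natAbs ≤ A) (hN : NoFix (sys B P h)) : Lin A B := by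
  refine ⟨hd, hl, ?_⟩
  rw [Int.isCoprime_iff_gcd_eq_one]
  by_contra hg
  obtain ⟨l, hl1, hl2⟩ := Nat.exists_prime_and_dvd hg
  have ha : (l : ℤ) ∣ B.coeff 0 := (Int.natCast_dvd_natCast.2 hl2).trans (Int.gcd_dvd_left _ _)
  have hb : (l : ℤ) ∣ B.coeff 1 := (Int.natCast_dvd_natCast.2 hl2).trans (Int.gcd_dvd_right _ _)
  obtain ⟨n, hn⟩ := hN l hl1
  apply hn 0
  show (l : ℤ) ∣ B.eval n
  rw [Polynomial.eval_eq_sum_range, hd, Finset.sum_range_succ, Finset.sum_range_one, pow_zero, pow_one, mul_one]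
  exact dvd_add ha (hb.mul_right n)

theorem k5_ev (c : ℝ) (hc : 0 < c) (K : ℝ) : ∃ Z0 : ℕ, ∀ Z : ℕ, Z0 ≤ Z → K ≤ (Z : ℝ) ^ c := by
  have h1 : Filter.Tendsto (fun Z : ℕ => (Z : ℝ) ^ c) Filter.atTop Filter.atTop :=
    (tendsto_rpow_atTop hc).comp tendsto_natCast_atTop_atTop
  exact Filter.eventually_atTop.1 (h1.eventually_ge_atTop K)

/-- **The core theorem.** Proof. Given `k, P, A, ε`; let `A' ≥ 1` be at least `A`, all degrees and all `|lc P_i|`,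
`ε' = min ε (1/2)`; `K5_mono`, `FitH` is monotone in `A`, and the set for `ε` is contained in the set for `ε'`
(`Z ≥ 1`). If the set is empty there is nothing to do; otherwise `Lin A' B` by `K5_lin`. `K3_box` gives `Q`; `K4_cover` with
`q = 8 Q^8`, `T = Q^(1/(20(A'+1)))`, `δ = Q^(-c)`, `E h = NoFix ∧ pcount < Z^(1-ε')`: `Z^d ≤ A' H_i ≤ A' T M_i`,
`M_i ≤ H_i ≤ A' Z^d`; `T q ≤ 8 Q^9 ≤ Z/A' ≤ H_i`. Finally
`2 k/T + 2^k Q^(-c) ≤ Z^(-c')` since `Q ≥ Z^(1/C)` and `Z` is large. -/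
theorem core : Core := by
  classical
  intro k P hdeg A ε hε
  obtain ⟨A', hA'⟩ : ∃ A', A' = A + 1 + ∑ i, ((P i).natDegree + (P i).leadingCoeff.natAbs) := ⟨_, rfl⟩
  have hA1 : 1 ≤ A' := by omega
  have hAA : A ≤ A' := by omega
  have hsum : ∀ i, (P i).natDegree + (P i).leadingCoeff.natAbs ≤ A' := by
    intro i
    have := Finset.single_le_sum (f := fun i => (P i).natDegree + (P i).leadingCoeff.natAbs)
      (fun _ _ => Nat.zero_le _) (mem_univ i)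
    have h2 : (P i).natDegree + (P i).leadingCoeff.natAbs ≤
        ∑ i, ((P i).natDegree + (P i).leadingCoeff.natAbs) := this
    omega
  have hPol : Pol A' P := ⟨hdeg, fun i => by have := hsum i; omega, fun i => by have := hsum i; omega⟩
  obtain ⟨ε', hε'⟩ : ∃ ε', ε' = min ε (1 / 2) := ⟨_, rfl⟩
  have he0 : 0 < ε' := by
    rw [hε']
    exact lt_min hε (by norm_num)
  have he1 : ε' ≤ 1 / 2 := by
    rw [hε']
    exact min_le_right _ _
  have he2 : ε' ≤ ε := by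
    rw [hε']
    exact min_le_left _ _
  obtain ⟨c, C, hc, hC, Z0, hK⟩ := K3_box P A' hA1 hPol ε' he0 he1
  have hC0 : 0 < C := by linarith
  obtain ⟨a, ha⟩ : ∃ a : ℝ, a = 1 / (20 * (A' + 1)) := ⟨_, rfl⟩
  have hA1' : (1 : ℝ) ≤ A' := by exact_mod_cast hA1
  have ha0 : 0 < a := by
    rw [ha]
    positivity
  have ha1 : a ≤ 1 := by
    rw [ha, div_le_one (by positivity)]
    linarith
  obtain ⟨b, hb⟩ : ∃ b : ℝ, b = min a c := ⟨_, rfl⟩
  have hb0 : 0 < b := by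
    rw [hb]
    exact lt_min ha0 hc
  have hba : b ≤ a := by
    rw [hb]
    exact min_le_left _ _
  have hbc : b ≤ c := by
    rw [hb]
    exact min_le_right _ _
  have hc' : 0 < b / (2 * C) := by positivity
  obtain ⟨Z1, hZ1⟩ := k5_ev (1 / C) (by positivity) (8 * A')
  obtain ⟨Z2, hZ2⟩ := k5_ev (b / (2 * C)) hc' (2 * k + 2 ^ k)
  refine ⟨b / (2 * C), hc', Z0 + Z1 + Z2 + 2, ?_⟩
  intro Z hZ B hB H hH
  have hZ2' : 2 ≤ Z := by omega
  have hZr : (2 : ℝ) ≤ Z := by exact_mod_cast hZ2'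
  have hZ0' : (0 : ℝ) < Z := by linarith
  obtain ⟨Q, hQ1, hQ2, hQ3⟩ := hK Z (by omega)
  have hvol : 0 ≤ vol H := Finset.prod_nonneg fun i _ => Nat.cast_nonneg _
  have hlogZ : 0 < Real.log Z := Real.log_pos (by linarith)
  have hlogQ : 0 < Real.log Q := by
    by_contra h0
    rw [not_lt] at h0
    have h1 : C * Real.log Q ≤ 0 := mul_nonpos_of_nonneg_of_nonpos hC0.le h0
    linarith
  have hQ0 : (1 : ℝ) < Q := by
    by_contra h0
    rw [not_lt] at h0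
    exact absurd hlogQ (not_lt.2 (Real.log_nonpos (Nat.cast_nonneg _) h0))
  have hQp : (0 : ℝ) < Q := by linarith
  -- Z^(1/C) ≤ Q
  have hZQ : (Z : ℝ) ^ (1 / C) ≤ Q := by
    rw [← Real.log_le_log_iff (by positivity) hQp, Real.log_rpow hZ0', div_mul_eq_mul_div, one_mul,
      div_le_iff₀ hC0]
    linarith [mul_comm C (Real.log Q)]
  -- Q^100 ≤ Z
  have hQZ : (Q : ℝ) ^ 100 ≤ Z := by
    rw [← Real.log_le_log_iff (by positivity) hZ0', Real.log_pow]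
    exact_mod_cast hQ1
  have hQA : 8 * (A' : ℝ) ≤ Q := (hZ1 Z (by omega)).trans hZQ
  by_cases hne : ((BoxH H).filter (fun h => NoFix (sys B P h) ∧
      ((pcount Z B P h : ℕ) : ℝ) < (Z : ℝ) ^ (1 - ε))).Nonempty
  swap
  · rw [Finset.not_nonempty_iff_eq_empty] at hne
    rw [hne, card_empty, Nat.cast_zero]
    positivity
  obtain ⟨h0, hh0⟩ := hne
  rw [mem_filter] at hh0
  have hLin : Lin A' B := K5_lin hB.deg (hB.lc.trans hAA) hh0.2.1
  have hOKB : OKB A' ε' Z B := K5_mono (by omega) hB hAA he2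
  obtain ⟨T, hT⟩ : ∃ T : ℝ, T = (Q : ℝ) ^ a := ⟨_, rfl⟩
  have hT1 : 1 ≤ T := by
    rw [hT]
    exact Real.one_le_rpow hQ0.le ha0.le
  have hTQ : T ≤ Q := by
    rw [hT]
    calc (Q : ℝ) ^ a ≤ (Q : ℝ) ^ (1 : ℝ) := Real.rpow_le_rpow_of_exponent_le hQ0.le ha1
      _ = Q := Real.rpow_one _
  have hAr : (A : ℝ) ≤ A' := by exact_mod_cast hAA
  have hH1 : ∀ i, (Z : ℝ) ^ (P i).natDegree ≤ A' * H i := fun i =>
    (hH i).1.trans (mul_le_mul_of_nonneg_right hAr (Nat.cast_nonneg _))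
  have hH2 : ∀ i, (H i : ℝ) ≤ A' * (Z : ℝ) ^ (P i).natDegree := fun i =>
    (hH i).2.trans (mul_le_mul_of_nonneg_right hAr (by positivity))
  have hHq : ∀ i, T * ((8 * Q ^ 8 : ℕ) : ℝ) ≤ H i := by
    intro i
    have h1 : (Z : ℝ) ≤ (Z : ℝ) ^ (P i).natDegree := le_self_pow₀ (by linarith) (by have := hdeg i; omega)
    have h2 : (Z : ℝ) ≤ A' * H i := h1.trans (hH1 i)
    have h3 : (Q : ℝ) ^ 10 ≤ Z := (pow_le_pow_right₀ hQ0.le (by norm_num)).trans hQZ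
    have h4 : A' * (T * ((8 * Q ^ 8 : ℕ) : ℝ)) ≤ (Q : ℝ) ^ 10 := by
      push_cast
      calc (A' : ℝ) * (T * (8 * (Q : ℝ) ^ 8)) = 8 * A' * T * (Q : ℝ) ^ 8 := by ring
        _ ≤ Q * Q * (Q : ℝ) ^ 8 := by
          apply mul_le_mul_of_nonneg_right _ (by positivity)
          exact mul_le_mul hQA hTQ (by linarith) hQp.le
        _ = (Q : ℝ) ^ 10 := by ring
    have h5 : (A' : ℝ) * (T * ((8 * Q ^ 8 : ℕ) : ℝ)) ≤ A' * H i := h4.trans (h3.trans h2)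
    exact le_of_mul_le_mul_left h5 (by linarith)
  have hq1 : 1 ≤ 8 * Q ^ 8 := by
    have hQn : 1 ≤ Q := by
      have : (1 : ℝ) ≤ Q := hQ0.le
      exact_mod_cast this
    have := Nat.one_le_pow 8 Q hQn
    omega
  have hcov := K4_cover H (8 * Q ^ 8) T ((Q : ℝ) ^ (-c)) hq1 hT1 (by positivity) hHq
    (fun h => NoFix (sys B P h) ∧ ((pcount Z B P h : ℕ) : ℝ) < (Z : ℝ) ^ (1 - ε'))
    (fun M hM1 hM2 hM3 => by
      refine hQ3 B hLin hOKB M hM1 (fun i => ?_) (fun i => ?_)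
      · refine (hH1 i).trans ?_
        rw [mul_assoc]
        apply mul_le_mul_of_nonneg_left _ (by linarith)
        have h1 := hM2 i
        rwa [hT, ha] at h1
      · exact (Nat.cast_le.2 (hM3 i)).trans (hH2 i))
  have hsub : (BoxH H).filter (fun h => NoFix (sys B P h) ∧
      ((pcount Z B P h : ℕ) : ℝ) < (Z : ℝ) ^ (1 - ε)) ⊆
      (BoxH H).filter (fun h => NoFix (sys B P h) ∧
      ((pcount Z B P h : ℕ) : ℝ) < (Z : ℝ) ^ (1 - ε')) := by
    intro h hh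
    rw [mem_filter] at hh ⊢
    refine ⟨hh.1, hh.2.1, hh.2.2.trans_le ?_⟩
    exact Real.rpow_le_rpow_of_exponent_le (by linarith) (by linarith)
  refine (Nat.cast_le.2 (Finset.card_le_card hsub)).trans (hcov.trans ?_)
  apply mul_le_mul_of_nonneg_right _ hvol
  -- numerics
  have h1 : 2 * (k : ℝ) / T ≤ 2 * k * (Q : ℝ) ^ (-b) := by
    rw [div_eq_mul_inv, hT, ← Real.rpow_neg hQp.le]
    apply mul_le_mul_of_nonneg_left _ (by positivity)
    exact Real.rpow_le_rpow_of_exponent_le hQ0.le (by linarith)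
  have h2 : (2 : ℝ) ^ k * (Q : ℝ) ^ (-c) ≤ 2 ^ k * (Q : ℝ) ^ (-b) := by
    apply mul_le_mul_of_nonneg_left _ (by positivity)
    exact Real.rpow_le_rpow_of_exponent_le hQ0.le (by linarith)
  have h3 : (Q : ℝ) ^ (-b) ≤ (Z : ℝ) ^ (-(b / (2 * C))) * (Z : ℝ) ^ (-(b / (2 * C))) := by
    rw [← Real.rpow_add hZ0']
    have e : -(b / (2 * C)) + -(b / (2 * C)) = (1 / C) * (-b) := by
      field_simp
      ring
    rw [e, Real.rpow_mul hZ0'.le]
    exact Real.rpow_le_rpow_of_nonpos (by positivity) hZQ (by linarith)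
  have h4 := hZ2 Z (by omega)
  have h5 : (2 * (k : ℝ) + 2 ^ k) * (Z : ℝ) ^ (-(b / (2 * C))) ≤ 1 := by
    calc (2 * (k : ℝ) + 2 ^ k) * (Z : ℝ) ^ (-(b / (2 * C))) ≤
          (Z : ℝ) ^ (b / (2 * C)) * (Z : ℝ) ^ (-(b / (2 * C))) :=
          mul_le_mul_of_nonneg_right h4 (by positivity)
      _ = 1 := by rw [← Real.rpow_add hZ0', add_neg_cancel, Real.rpow_zero]
  calc 2 * (k : ℝ) / T + 2 ^ k * (Q : ℝ) ^ (-c) ≤ (2 * k + 2 ^ k) * (Q : ℝ) ^ (-b) := by linarith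
    _ ≤ (2 * k + 2 ^ k) * ((Z : ℝ) ^ (-(b / (2 * C))) * (Z : ℝ) ^ (-(b / (2 * C)))) :=
        mul_le_mul_of_nonneg_left h3 (by positivity)
    _ = ((2 * k + 2 ^ k) * (Z : ℝ) ^ (-(b / (2 * C)))) * (Z : ℝ) ^ (-(b / (2 * C))) := by ring
    _ ≤ 1 * (Z : ℝ) ^ (-(b / (2 * C))) := mul_le_mul_of_nonneg_right h5 (by positivity)
    _ = (Z : ℝ) ^ (-(b / (2 * C))) := one_mul _

end Pool.Agent.Lib.H24P
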