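import Pool.Agent.Lib.H24P.Defs
import Pool.Agent.Lib.H59P.M2
import Pool.Agent.Lib.H59P.M1A
import Pool.Agent.Lib.H59P.M2A

/-!
# Project H24P, chunk P1 (S/M): the part of the product with bounded least common multiple
-/

open Finset

namespace Pool.Agent.Lib.H24P

open Pool.Agent.Lib.H68T Pool.Agent.Lib.H18Q Pool.Agent.Lib.H59P

/-- Every tuple of integers is `n + h_i` with natural numbers `h_i`. Proof. `n = - ∑_j |m_j|`,
`h_i = (m_i - n).toNat`. -/
theorem P1_shift {k : ℕ} (m : Fin k → ℤ) : ∃ (n : ℤ) (h : Fin k → ℕ), ∀ i, n + h i = m i := by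
  refine ⟨-∑ j, |m j|, fun i => (m i - -∑ j, |m j|).toNat, fun i => ?_⟩
  have h1 : |m i| ≤ ∑ j, |m j| :=
    Finset.single_le_sum (f := fun j => |m j|) (fun j _ => abs_nonneg _) (Finset.mem_univ i)
  have h2 : -|m i| ≤ m i := neg_abs_le (m i)
  rw [Int.toNat_of_nonneg (by linarith)]
  ring

/-- Proof. `P1_shift` and `M2` of H59P (`Ph`, `Wd` there are `Phf`, `Wdf` at the tuple `n + h_i`; unfold
`Ph`, `Wd`, `Wl`, `Phf`, `Wdf`, `Wf` and rewrite `n + h i = m i`). -/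
theorem P1_M2 {k : ℕ} (Q D R : ℕ) (hDQ : D ≤ Q) (hR : 0 < R) (p : Fin k → Ch) (hp : ∀ i, p i ∈ PC Q)
    (hd : ∀ i, (p i).1 ∣ R) (m : Fin k → ℤ) :
    ∑ κ ∈ (Fintype.piFinset fun i => KS Q (p i).1).filter (fun κ => R.lcm (univ.lcm κ) ≤ D),
      ∏ i, gk (p i) (κ i) (m i) =
    Phf p R.primeFactors m * ∑ d ∈ SF (D / R) R, ((Wdf d m : ℝ) : ℂ) := by
  obtain ⟨n, h, hm⟩ := P1_shift m
  have key := M2 Q D R hDQ hR p hp hd h n
  simp only [Ph, H59P.Wd, H59P.Wl, hm] at key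
  exact key

/-- For squarefree `d`: `Wdf d m` is the sum over the tuples of divisors of `d` with least common
multiple `d` of the products of the components of the trivial character.

Proof. `M1a` of H59P with `a l i = gl l (m i)`, and `gk p0 κ m = ∏_{l ∣ κ} gl l m` (`M2a`; `p0.1 = 1`, the
character is `1`: `cj p0 m = 1`, `Nat.totient 1 = 1`). -/
theorem P1_Wd {k : ℕ} (d : ℕ) (hd : Squarefree d) (m : Fin k → ℤ) :
    ∑ κ ∈ (Fintype.piFinset fun _ : Fin k => d.divisors).filter (fun κ => univ.lcm κ = d),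
      ∏ i, gk p0 (κ i) (m i) = ((Wdf d m : ℝ) : ℂ) := by
  have key := M1a (fun l i => ((gl l (m i) : ℝ) : ℂ)) d hd
  have h1 : ((Wdf d m : ℝ) : ℂ) =
      ∏ l ∈ d.primeFactors, (∏ i, (1 + ((gl l (m i) : ℝ) : ℂ)) - 1) := by
    simp only [Wdf, Wf]
    push_cast
    rfl
  rw [h1, ← key]
  refine Finset.sum_congr rfl fun κ hκ => ?_
  refine Finset.prod_congr rfl fun i _ => ?_
  rw [Finset.mem_filter, Fintype.mem_piFinset] at hκ
  have hκi : Squarefree (κ i) := hd.squarefree_of_dvd (Nat.dvd_of_mem_divisors (hκ.1 i))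
  have h2 : cj p0 (m i) = 1 := by
    have hz : ((m i : ℤ) : ZMod 1) = 1 := Subsingleton.elim _ _
    show (starRingEnd ℂ) ((1 : DirichletCharacter ℂ 1) ((m i : ℤ) : ZMod 1)) = 1
    rw [hz, map_one, map_one]
  rw [← Complex.ofReal_prod, ← M2a (κ i) hκi (m i), gk]
  have h3 : (starRingEnd ℂ) (p0.2 ((m i : ℤ) : ZMod p0.1)) = 1 := h2
  rw [h3]
  have h4 : (p0.1 : ℕ) = 1 := rfl
  rw [h4]
  simp

end Pool.Agent.Lib.H24P
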