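import Pool.Agent.Lib.H24P.Defs2
import Pool.Agent.Lib.H59P.S1

/-!
# Project H24P, chunk S2 (S): mean squares over the windows
-/

open Finset Polynomial

namespace Pool.Agent.Lib.H24P

open Pool.Agent.Lib.H68T Pool.Agent.Lib.H18Q Pool.Agent.Lib.H59P

theorem s2_two (f : ℤ → ℝ) (hf : ∀ m, 0 ≤ f m) (M : ℕ) (hM : 8 ∣ M) (v : ℤ) (hv : 8 * |v| ≤ M) :
    ∑ x ∈ Ico M (2 * M), f (v + x) ≤
      ∑ s ∈ range (Ysc M), f ((Ysc M : ℤ) + s) +
        ∑ s ∈ range (Ysc M), f (((2 * Ysc M : ℕ) : ℤ) + s) := by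
  classical
  obtain ⟨m', rfl⟩ := hM
  have hY : Ysc (8 * m') = 6 * m' := by
    unfold Ysc
    omega
  rw [hY]
  have hv1 := abs_le.1 (show |v| ≤ m' by push_cast at hv; omega)
  have h1 : ∑ x ∈ Ico (8 * m') (2 * (8 * m')), f (v + x) =
      ∑ m ∈ (Ico (8 * m') (2 * (8 * m'))).image (fun x : ℕ => v + (x : ℤ)), f m := by
    rw [Finset.sum_image]
    intro x _ y _ hxy
    have : (x : ℤ) = y := by simpa using hxy
    exact_mod_cast this
  have h2 : ∑ s ∈ range (6 * m'), f (((6 * m' : ℕ) : ℤ) + s) +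
        ∑ s ∈ range (6 * m'), f (((2 * (6 * m') : ℕ) : ℤ) + s) =
      ∑ m ∈ Ico (((6 * m' : ℕ) : ℤ)) (((18 * m' : ℕ) : ℤ)), f m := by
    have h3 : ∑ s ∈ range (12 * m'), f (((6 * m' : ℕ) : ℤ) + s) =
        ∑ m ∈ Ico (((6 * m' : ℕ) : ℤ)) (((18 * m' : ℕ) : ℤ)), f m := by
      refine Finset.sum_nbij' (fun s => ((6 * m' : ℕ) : ℤ) + (s : ℤ))
        (fun m => (m - ((6 * m' : ℕ) : ℤ)).toNat) ?_ ?_ ?_ ?_ ?_
      · intro s hs
        rw [Finset.mem_range] at hs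
        rw [Finset.mem_Ico]
        push_cast
        constructor <;> omega
      · intro m hm
        rw [Finset.mem_Ico] at hm
        rw [Finset.mem_range]
        push_cast at hm ⊢
        omega
      · intro s _
        simp
      · intro m hm
        rw [Finset.mem_Ico] at hm
        rw [Int.toNat_of_nonneg (by omega)]
        ring
      · intro s _
        rfl
    rw [← h3, show 12 * m' = 6 * m' + 6 * m' by ring, Finset.sum_range_add]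
    congr 1
    refine Finset.sum_congr rfl fun s _ => ?_
    congr 1
    push_cast
    ring
  rw [h1, h2]
  refine Finset.sum_le_sum_of_subset_of_nonneg ?_ fun m _ _ => hf m
  intro m hm
  obtain ⟨x, hx, rfl⟩ := Finset.mem_image.1 hm
  rw [Finset.mem_Ico] at hx ⊢
  push_cast
  constructor <;> omega

/-- Proof. `v + x` runs through `[v + M, v + 2M)`, which is contained in `[Y, 3Y)` (`M = 4 m'`, `m'` even, `Y = 3 m'`,
`8 |v| ≤ M`); `[Y, 3Y)` is the union of the windows `[Y, 2Y)` and `[2Y, 3Y)`: `S1` of `H59P` with `n = Y`, `n = 2 Y`. -/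
theorem S2_ms : ∃ K : ℝ, 1 ≤ K ∧ ∀ (Q M : ℕ) (B : ℤ → Ch → ℂ) (mb : Ch → ℝ), 8 ∣ M →
    RegP K Q (Ysc M) → Cf Q (Ysc M) B mb → ∀ v : ℤ, 8 * |v| ≤ M →
    ∑ x ∈ Ico M (2 * M), Lk Q (Ysc M / Q ^ 2) (v + x) ^ 2 ≤ 2 * Ysc M * (Real.log (Ysc M)) ^ 10 ∧
    ∑ x ∈ Ico M (2 * M), lp (v + x) ^ 2 ≤ 2 * Ysc M * (Real.log (Ysc M)) ^ 10 ∧
    ∑ x ∈ Ico M (2 * M), (lp (v + x) - Lk Q (Ysc M / Q ^ 2) (v + x)) ^ 2 ≤
      2 * Ysc M * (Real.log (Ysc M)) ^ 10 := by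
  obtain ⟨K, hK, h⟩ := S1
  refine ⟨K, hK, fun Q M B mb hM hr hB v hv => ?_⟩
  obtain ⟨a1, a2, a3⟩ := h Q (Ysc M) B mb hr hB (Ysc M) (mem_Icc.2 ⟨le_refl _, by omega⟩)
  obtain ⟨b1, b2, b3⟩ := h Q (Ysc M) B mb hr hB (2 * Ysc M) (mem_Icc.2 ⟨by omega, le_refl _⟩)
  refine ⟨?_, ?_, ?_⟩
  · refine (s2_two (fun m => Lk Q (Ysc M / Q ^ 2) m ^ 2) (fun m => sq_nonneg _) M hM v hv).trans ?_
    linarith
  · refine (s2_two (fun m => lp m ^ 2) (fun m => sq_nonneg _) M hM v hv).trans ?_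
    linarith
  · refine (s2_two (fun m => (lp m - Lk Q (Ysc M / Q ^ 2) m) ^ 2) (fun m => sq_nonneg _) M hM v
      hv).trans ?_
    linarith

end Pool.Agent.Lib.H24P
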