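import Pool.Agent.Lib.H24P.G1
import Pool.Agent.Lib.H24P.G2
import Pool.Agent.Lib.H59P.S1
import Pool.Agent.Lib.H33B.V6
import Pool.Agent.Lib.H18Q.R1

/-!
# Project H24P, chunk S3 (M): correlations at the differences of a polynomial
-/

open Finset Polynomial

namespace Pool.Agent.Lib.H24P

open Pool.Agent.Lib.H68T Pool.Agent.Lib.H18Q Pool.Agent.Lib.H59P

/-- `lp - Lk` on `[Y, 3Y)`, extended by `0`. -/
noncomputable def uY (Q Y : ℕ) (m : ℤ) : ℝ :=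
  if (Y : ℤ) ≤ m ∧ m < 3 * Y then lp m - Lk Q (Y / Q ^ 2) m else 0

/-- sizes in the regime -/
theorem s3_reg {C : ℝ} {Q X X1 : ℕ} (hQ : 3 ≤ Q) (hR : Rg 3 C Q X) (h1 : X1 ≤ X) (h2 : X ≤ X1 * Q) :
    1 ≤ X1 ∧ 1 ≤ Real.log Q ∧ 3 ≤ Real.log X ∧ (Q : ℝ) ^ 2 ≤ X1 ∧ Real.log X1 ≤ Real.log X := by
  have hQ0 : (0 : ℝ) < Q := by exact_mod_cast (by omega : 0 < Q)
  have hlQ : 1 ≤ Real.log Q := by
    rw [Real.le_log_iff_exp_le hQ0]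
    have h3 : (3 : ℝ) ≤ Q := by exact_mod_cast hQ
    linarith [Real.exp_one_lt_d9]
  have hlX : 3 ≤ Real.log X := by
    have := hR.1
    linarith
  have hX0 : 0 < X := by
    rcases Nat.eq_zero_or_pos X with h | h
    · rw [h] at hlX
      simp at hlX
      linarith
    · exact h
  have hX1 : 1 ≤ X1 := by
    rcases Nat.eq_zero_or_pos X1 with h | h
    · rw [h] at h2
      omega
    · exact h
  have hX10 : (0 : ℝ) < X1 := by exact_mod_cast (by omega : 0 < X1)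
  have hXr : (0 : ℝ) < X := by exact_mod_cast hX0
  have h4 : Real.log X ≤ Real.log X1 + Real.log Q := by
    rw [← Real.log_mul hX10.ne' hQ0.ne']
    apply Real.log_le_log hXr
    exact_mod_cast h2
  have h5 : 2 * Real.log Q ≤ Real.log X1 := by
    have := hR.1
    linarith
  refine ⟨hX1, hlQ, hlX, ?_, Real.log_le_log hX10 (by exact_mod_cast h1)⟩
  rw [← Real.log_le_log_iff (by positivity) hX10, Real.log_pow]
  push_cast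
  exact h5

/-- the numerical part -/
theorem s3_num (d : ℕ) (Cv : ℝ) (hCv : 1 ≤ Cv) (β : ℝ) (hβ : 0 < β) (hβ1 : β ≤ 1) (C : ℝ) :
    ∃ Q0 : ℕ, 3 ≤ Q0 ∧ ∀ Q X X1 Y : ℕ, Q0 ≤ Q → Rg 3 C Q X → X1 ≤ X → X ≤ X1 * Q →
    1 ≤ Real.log Y → (Y : ℝ) ≤ (X1 : ℝ) ^ d * (Q : ℝ) ^ (1 / 8 : ℝ) →
    Cv * ((2 * X1 : ℕ) : ℝ) ^ 2 * (2 * (Y * (Real.log Y) ^ 10)) *
      (1 / ((2 * X1 : ℕ) : ℝ) + (Y * (Q : ℝ) ^ (-(1 / 4) : ℝ)) *
        (1 + Real.log ((2 * X1 : ℕ) : ℝ)) ^ Cv /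
        Real.sqrt (((2 * X1 : ℕ) : ℝ) ^ d * (2 * (Y * (Real.log Y) ^ 10)))) ^ β ≤
      (X1 : ℝ) ^ 2 * Y * (Q : ℝ) ^ (-(β / 16)) := by
  obtain ⟨Q1, hQ1, hlog1⟩ := G1_log C ⌈Cv⌉₊ ((3 : ℝ) ^ ⌈Cv⌉₊) (1 / 16) (by norm_num)
  obtain ⟨Q2, hQ2, hlog2⟩ := G1_log C 10 (16 * Cv * (d + 1) ^ 10) (β / 16) (by positivity)
  refine ⟨max 3 (max Q1 Q2), le_max_left _ _, ?_⟩
  intro Q X X1 Y hQ hR h1 h2 hlY hY
  have hQ3 : 3 ≤ Q := (le_max_left _ _).trans hQ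
  have hQ1' : Q1 ≤ Q := ((le_max_left _ _).trans (le_max_right _ _)).trans hQ
  have hQ2' : Q2 ≤ Q := ((le_max_right _ _).trans (le_max_right _ _)).trans hQ
  obtain ⟨hX1, hlQ, hlX, hQX1, hlX1⟩ := s3_reg hQ3 hR h1 h2
  have hQ0 : (0 : ℝ) < Q := by exact_mod_cast (by omega : 0 < Q)
  have hQ1r : (1 : ℝ) ≤ Q := by exact_mod_cast (by omega : 1 ≤ Q)
  have hX10 : (0 : ℝ) < X1 := by exact_mod_cast (by omega : 0 < X1)
  have hX11 : (1 : ℝ) ≤ X1 := by exact_mod_cast hX1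
  have hY0 : (0 : ℝ) < Y := by
    have hY0 : 0 < Y := by
      rcases Nat.eq_zero_or_pos Y with h | h
      · rw [h] at hlY
        simp at hlY
        linarith
      · exact h
    exact_mod_cast hY0
  have e1 : ((2 * X1 : ℕ) : ℝ) = 2 * X1 := by push_cast; ring
  rw [e1]
  have hlY10 : 1 ≤ (Real.log Y) ^ 10 := one_le_pow₀ hlY
  set E : ℝ := 2 * (Y * (Real.log Y) ^ 10) with hE
  have hEY : (Y : ℝ) ≤ E := by
    rw [hE]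
    nlinarith
  have hE0 : 0 < E := lt_of_lt_of_le hY0 hEY
  -- the logarithm factor
  have hlog : (1 + Real.log (2 * (X1 : ℝ))) ^ Cv ≤ (Q : ℝ) ^ (1 / 16 : ℝ) := by
    have hl2 : Real.log (2 * (X1 : ℝ)) = Real.log 2 + Real.log X1 :=
      Real.log_mul (by norm_num) hX10.ne'
    have hl2' : Real.log 2 ≤ 1 := by
      have := Real.log_two_lt_d9
      linarith
    have hl2'' : 0 ≤ Real.log 2 := Real.log_nonneg (by norm_num)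
    have hlX10 : 0 ≤ Real.log X1 := Real.log_nonneg hX11
    have hb : 1 + Real.log (2 * (X1 : ℝ)) ≤ 3 * Real.log X := by
      rw [hl2]
      linarith
    have hb1 : 1 ≤ 3 * Real.log X := by linarith
    calc (1 + Real.log (2 * (X1 : ℝ))) ^ Cv ≤ (3 * Real.log X) ^ Cv :=
          Real.rpow_le_rpow (by rw [hl2]; linarith) hb (by linarith)
      _ ≤ (3 * Real.log X) ^ ((⌈Cv⌉₊ : ℕ) : ℝ) :=
          Real.rpow_le_rpow_of_exponent_le hb1 (Nat.le_ceil Cv)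
      _ = (3 : ℝ) ^ ⌈Cv⌉₊ * (Real.log X) ^ ⌈Cv⌉₊ := by
          rw [Real.rpow_natCast, mul_pow]
      _ ≤ (Q : ℝ) ^ (1 / 16 : ℝ) := hlog1 Q X hQ1' hR.2
  -- the square root
  have hsq : Real.sqrt ((X1 : ℝ) ^ d * Y) ≤ Real.sqrt ((2 * (X1 : ℝ)) ^ d * E) := by
    apply Real.sqrt_le_sqrt
    apply mul_le_mul (pow_le_pow_left₀ hX10.le (by linarith) d) hEY hY0.le (by positivity)
  have hs0 : 0 < Real.sqrt ((X1 : ℝ) ^ d * Y) := Real.sqrt_pos.2 (by positivity)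
  have hYs : (Y : ℝ) ≤ Real.sqrt ((X1 : ℝ) ^ d * Y) * (Q : ℝ) ^ (1 / 16 : ℝ) := by
    have h3 : (Y : ℝ) = Real.sqrt (Y * Y) := by rw [Real.sqrt_mul_self hY0.le]
    have h4 : (Q : ℝ) ^ (1 / 16 : ℝ) = Real.sqrt ((Q : ℝ) ^ (1 / 8 : ℝ)) := by
      rw [Real.sqrt_eq_rpow, ← Real.rpow_mul hQ0.le]
      norm_num
    rw [h4, ← Real.sqrt_mul (by positivity)]
    nth_rewrite 1 [h3]
    apply Real.sqrt_le_sqrt
    nlinarith
  have hT2 : (Y * (Q : ℝ) ^ (-(1 / 4) : ℝ)) * (1 + Real.log (2 * (X1 : ℝ))) ^ Cv /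
      Real.sqrt ((2 * (X1 : ℝ)) ^ d * E) ≤ (Q : ℝ) ^ (-(1 / 8) : ℝ) := by
    have hnum : 0 ≤ (Y * (Q : ℝ) ^ (-(1 / 4) : ℝ)) := by positivity
    have h5 : (Y * (Q : ℝ) ^ (-(1 / 4) : ℝ)) * (1 + Real.log (2 * (X1 : ℝ))) ^ Cv ≤
        (Y * (Q : ℝ) ^ (-(1 / 4) : ℝ)) * (Q : ℝ) ^ (1 / 16 : ℝ) :=
      mul_le_mul_of_nonneg_left hlog hnum
    rw [div_le_iff₀ (lt_of_lt_of_le hs0 hsq)]
    calc (Y * (Q : ℝ) ^ (-(1 / 4) : ℝ)) * (1 + Real.log (2 * (X1 : ℝ))) ^ Cv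
        ≤ (Y * (Q : ℝ) ^ (-(1 / 4) : ℝ)) * (Q : ℝ) ^ (1 / 16 : ℝ) := h5
      _ ≤ (Real.sqrt ((X1 : ℝ) ^ d * Y) * (Q : ℝ) ^ (1 / 16 : ℝ) * (Q : ℝ) ^ (-(1 / 4) : ℝ)) *
            (Q : ℝ) ^ (1 / 16 : ℝ) := by
          apply mul_le_mul_of_nonneg_right _ (by positivity)
          exact mul_le_mul_of_nonneg_right hYs (by positivity)
      _ = (Q : ℝ) ^ (-(1 / 8) : ℝ) * Real.sqrt ((X1 : ℝ) ^ d * Y) := by
          have h6 : (Q : ℝ) ^ (-(1 / 8) : ℝ) =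
              (Q : ℝ) ^ (1 / 16 : ℝ) * (Q : ℝ) ^ (-(1 / 4) : ℝ) * (Q : ℝ) ^ (1 / 16 : ℝ) := by
            rw [← Real.rpow_add hQ0, ← Real.rpow_add hQ0]
            norm_num
          rw [h6]
          ring
      _ ≤ (Q : ℝ) ^ (-(1 / 8) : ℝ) * Real.sqrt ((2 * (X1 : ℝ)) ^ d * E) :=
          mul_le_mul_of_nonneg_left hsq (by positivity)
  have hT1 : 1 / (2 * (X1 : ℝ)) ≤ (Q : ℝ) ^ (-(1 / 8) : ℝ) := by
    have h6 : (Q : ℝ) ^ (-(1 / 8) : ℝ) = ((Q : ℝ) ^ (1 / 8 : ℝ))⁻¹ := Real.rpow_neg hQ0.le _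
    rw [h6, one_div]
    apply inv_anti₀ (by positivity)
    calc (Q : ℝ) ^ (1 / 8 : ℝ) ≤ (Q : ℝ) ^ (2 : ℝ) :=
          Real.rpow_le_rpow_of_exponent_le hQ1r (by norm_num)
      _ = (Q : ℝ) ^ 2 := by exact_mod_cast Real.rpow_natCast (Q : ℝ) 2
      _ ≤ 2 * X1 := by linarith
  have hT0 : 0 ≤ 1 / (2 * (X1 : ℝ)) + (Y * (Q : ℝ) ^ (-(1 / 4) : ℝ)) *
      (1 + Real.log (2 * (X1 : ℝ))) ^ Cv / Real.sqrt ((2 * (X1 : ℝ)) ^ d * E) := by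
    have h7 : 0 ≤ Real.log (2 * (X1 : ℝ)) := Real.log_nonneg (by linarith)
    have h8 : 0 ≤ (1 + Real.log (2 * (X1 : ℝ))) ^ Cv := Real.rpow_nonneg (by linarith) _
    positivity
  have hpow : (1 / (2 * (X1 : ℝ)) + (Y * (Q : ℝ) ^ (-(1 / 4) : ℝ)) *
      (1 + Real.log (2 * (X1 : ℝ))) ^ Cv / Real.sqrt ((2 * (X1 : ℝ)) ^ d * E)) ^ β ≤
      2 * (Q : ℝ) ^ (-(β / 8)) := by
    calc _ ≤ (2 * (Q : ℝ) ^ (-(1 / 8) : ℝ)) ^ β :=
          Real.rpow_le_rpow hT0 (by linarith) hβ.le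
      _ = 2 ^ β * (Q : ℝ) ^ (-(β / 8)) := by
          rw [Real.mul_rpow (by norm_num) (by positivity), ← Real.rpow_mul hQ0.le]
          congr 2
          ring
      _ ≤ 2 * (Q : ℝ) ^ (-(β / 8)) := by
          apply mul_le_mul_of_nonneg_right _ (by positivity)
          calc (2 : ℝ) ^ β ≤ 2 ^ (1 : ℝ) := Real.rpow_le_rpow_of_exponent_le (by norm_num) hβ1
            _ = 2 := Real.rpow_one 2
  -- the logarithms of Y
  have hlYX : Real.log Y ≤ (d + 1) * Real.log X := by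
    have h9 : Real.log Y ≤ Real.log ((X1 : ℝ) ^ d * (Q : ℝ) ^ (1 / 8 : ℝ)) :=
      Real.log_le_log hY0 hY
    rw [Real.log_mul (by positivity) (by positivity), Real.log_pow, Real.log_rpow hQ0] at h9
    have h10 : (d : ℝ) * Real.log X1 ≤ d * Real.log X :=
      mul_le_mul_of_nonneg_left hlX1 (Nat.cast_nonneg d)
    have h11 := hR.1
    linarith
  have hfin : 16 * Cv * (Real.log Y) ^ 10 ≤ (Q : ℝ) ^ (β / 16) := by
    refine le_trans ?_ (hlog2 Q X hQ2' hR.2)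
    rw [mul_assoc (16 * Cv) (((d : ℝ) + 1) ^ 10) _, ← mul_pow]
    exact mul_le_mul_of_nonneg_left (pow_le_pow_left₀ (by linarith) hlYX 10) (by linarith)
  calc Cv * (2 * (X1 : ℝ)) ^ 2 * E * (1 / (2 * (X1 : ℝ)) + (Y * (Q : ℝ) ^ (-(1 / 4) : ℝ)) *
      (1 + Real.log (2 * (X1 : ℝ))) ^ Cv / Real.sqrt ((2 * (X1 : ℝ)) ^ d * E)) ^ β
      ≤ Cv * (2 * (X1 : ℝ)) ^ 2 * E * (2 * (Q : ℝ) ^ (-(β / 8))) :=
        mul_le_mul_of_nonneg_left hpow (by positivity)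
    _ = (X1 : ℝ) ^ 2 * Y * ((16 * Cv * (Real.log Y) ^ 10) * (Q : ℝ) ^ (-(β / 8))) := by
        rw [hE]
        ring
    _ ≤ (X1 : ℝ) ^ 2 * Y * ((Q : ℝ) ^ (β / 16) * (Q : ℝ) ^ (-(β / 8))) := by
        apply mul_le_mul_of_nonneg_left _ (by positivity)
        exact mul_le_mul_of_nonneg_right hfin (by positivity)
    _ = (X1 : ℝ) ^ 2 * Y * (Q : ℝ) ^ (-(β / 16)) := by
        rw [← Real.rpow_add hQ0]
        congr 2
        ring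

theorem s3_supp (Q Y : ℕ) (hY : 1 ≤ Y) : ∀ m, m ∉ Icc (1 : ℤ) ((3 * Y : ℕ) : ℤ) → uY Q Y m = 0 := by
  intro m hm
  unfold uY
  rw [if_neg]
  rintro ⟨h1, h2⟩
  apply hm
  rw [Finset.mem_Icc]
  push_cast
  constructor <;> omega

theorem s3_sum {A : Type*} [AddCommMonoid A] (Q Y : ℕ) (hY : 1 ≤ Y) (F : ℤ → ℝ → A)
    (hF : ∀ m, F m 0 = 0) :
    ∑ m ∈ Icc (1 : ℤ) ((3 * Y : ℕ) : ℤ), F m (uY Q Y m) =
      ∑ m ∈ Ico (Y : ℤ) (3 * Y), F m (lp m - Lk Q (Y / Q ^ 2) m) := by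
  have h1 : Ico (Y : ℤ) (3 * Y) ⊆ Icc (1 : ℤ) ((3 * Y : ℕ) : ℤ) := by
    intro m hm
    rw [Finset.mem_Ico] at hm
    rw [Finset.mem_Icc]
    push_cast
    constructor <;> omega
  rw [← Finset.sum_subset h1]
  · refine Finset.sum_congr rfl fun m hm => ?_
    rw [Finset.mem_Ico] at hm
    unfold uY
    rw [if_pos hm]
  · intro m _ hm
    rw [Finset.mem_Ico] at hm
    unfold uY
    rw [if_neg hm, hF]

/-- Van der Corput. Proof. `H33B.vdc` (`H33B/V6.lean`) for `G = P` if the leading coefficient is positive and `G = -P`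
else (`H33B.cor_neg`), `M = 3 Y`, `X = 2 X1` (`Ico X1 (2 X1) ⊆ Icc 1 (2 X1)`, the terms are non-negative),
`E = 2 Y (log Y)^10` (`S1` of `H59P` with the windows `n = Y`, `n = 2Y`; `log Y ≥ 1`), `S = Y Q^(-1/4)`
(`fourier_smallP` with `a = Y`, `b = 3 Y`, `X = Y`; the terms outside `[Y, 3Y)` are `0`). So the sum is at most
`C (2 X1)² 2 Y (log Y)^10 (1/(2 X1) + S (1+log(2 X1))^C/√((2 X1)^d 2 Y (log Y)^10))^(1/2^(d-1))`,
and `S/√((2 X1)^d Y) ≤ √(Y/X1^d) Q^(-1/4) ≤ Q^(1/16 - 1/4)`. Logarithms: `G1_log` (`log Y ≤ (d + 1) log X`,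
`log X ≤ C log Q`), `X1 ≥ Q` (`log X1 ≥ log X - log Q`). E.g. `c = 1/(20 2^d)`. -/
theorem S3_vdc (P : ℤ[X]) (hP : 1 ≤ P.natDegree) : ∃ c K : ℝ, 0 < c ∧ 1 ≤ K ∧ ∀ C : ℝ,
    ∃ Q0 : ℕ, ∀ (Q X X1 Y : ℕ) (B : ℤ → Ch → ℂ) (mb : Ch → ℝ), Q0 ≤ Q → Rg 3 C Q X → X1 ≤ X →
    X ≤ X1 * Q → RegP K Q Y → Cf Q Y B mb → (Y : ℝ) ≤ (X1 : ℝ) ^ P.natDegree * (Q : ℝ) ^ (1 / 8 : ℝ) →
    ∑ n ∈ Ico X1 (2 * X1), ∑ n' ∈ Ico X1 (2 * X1),
      |H33B.cor (uY Q Y) (3 * Y) (P.eval (n : ℤ) - P.eval (n' : ℤ))| ≤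
      (X1 : ℝ) ^ 2 * Y * (Q : ℝ) ^ (-c) := by
  -- a polynomial with positive leading coefficient
  obtain ⟨G, hGd, hGl, hG⟩ : ∃ G : ℤ[X], G.natDegree = P.natDegree ∧ 0 < G.leadingCoeff ∧
      ∀ (u : ℤ → ℝ) (M : ℕ), (∀ m, m ∉ Icc (1 : ℤ) M → u m = 0) → ∀ n n' : ℕ,
        H33B.cor u M (P.eval (n : ℤ) - P.eval (n' : ℤ)) =
          H33B.cor u M (G.eval (n : ℤ) - G.eval (n' : ℤ)) := by
    have h0 : P.leadingCoeff ≠ 0 := by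
      rw [Polynomial.leadingCoeff_ne_zero]
      intro h
      rw [h] at hP
      simp at hP
    rcases lt_or_gt_of_ne h0 with h | h
    · refine ⟨-P, Polynomial.natDegree_neg P, by rw [Polynomial.leadingCoeff_neg]; linarith, ?_⟩
      intro u M hu n n'
      rw [← H33B.cor_neg u M hu, Polynomial.eval_neg, Polynomial.eval_neg]
      congr 1
      ring
    · exact ⟨P, rfl, h, fun u M hu n n' => rfl⟩
  obtain ⟨Cv, hCv, hv⟩ := H33B.vdc G (by rw [hGd]; exact hP) hGl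
  obtain ⟨K1, hK1, hS1⟩ := S1
  obtain ⟨K2, hF⟩ := fourier_smallP
  set β : ℝ := (1 : ℝ) / 2 ^ (P.natDegree - 1) with hβ
  have hβ0 : 0 < β := by positivity
  have hβ1 : β ≤ 1 := by
    rw [hβ, div_le_one (by positivity)]
    exact one_le_pow₀ (by norm_num)
  refine ⟨β / 16, max K1 (max K2 1), by positivity, hK1.trans (le_max_left _ _), fun C => ?_⟩
  obtain ⟨Q0, hQ03, hnum⟩ := s3_num P.natDegree Cv hCv β hβ0 hβ1 C
  refine ⟨Q0, ?_⟩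
  intro Q X X1 Y B mb hQ hRg h1 h2 hReg hCf hY
  have hKpos : (0 : ℝ) ≤ max K1 (max K2 1) := by
    have := le_max_left K1 (max K2 1)
    linarith
  have hR1 : RegP K1 Q Y := hReg.mono hKpos (le_max_left _ _)
  have hR2 : RegP K2 Q Y := hReg.mono hKpos ((le_max_left _ _).trans (le_max_right _ _))
  have hR3 : RegP 1 Q Y := hReg.mono hKpos ((le_max_right _ _).trans (le_max_right _ _))
  have hlY : 1 ≤ Real.log Y := hR3.logX_ge_one one_pos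
  have hY1 : 1 ≤ Y := hR3.X_pos one_pos
  have hY0 : (0 : ℝ) < Y := by exact_mod_cast hY1
  obtain ⟨hX1, -, -, -, -⟩ := s3_reg (hQ03.trans hQ) hRg h1 h2
  have hlY10 : 1 ≤ (Real.log Y) ^ 10 := one_le_pow₀ hlY
  have hE0 : 0 < 2 * ((Y : ℝ) * (Real.log Y) ^ 10) := by positivity
  have hsuppY := s3_supp Q Y hY1
  have hE : ∑ m ∈ Icc (1 : ℤ) ((3 * Y : ℕ) : ℤ), uY Q Y m ^ 2 ≤ 2 * ((Y : ℝ) * (Real.log Y) ^ 10) := by
    rw [s3_sum Q Y hY1 (fun _ x => x ^ 2) (fun _ => by norm_num)]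
    have a1 := (hS1 Q Y B mb hR1 hCf Y (mem_Icc.2 ⟨le_refl _, by omega⟩)).2.2
    have a2 := (hS1 Q Y B mb hR1 hCf (2 * Y) (mem_Icc.2 ⟨by omega, le_refl _⟩)).2.2
    have h3 : ∑ m ∈ Ico (Y : ℤ) (3 * Y), (lp m - Lk Q (Y / Q ^ 2) m) ^ 2 =
        ∑ s ∈ range (2 * Y), (lp ((Y : ℤ) + s) - Lk Q (Y / Q ^ 2) ((Y : ℤ) + s)) ^ 2 := by
      symm
      refine Finset.sum_nbij' (fun s => (Y : ℤ) + (s : ℤ)) (fun m => (m - (Y : ℤ)).toNat)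
        ?_ ?_ ?_ ?_ ?_
      · intro s hs
        rw [Finset.mem_range] at hs
        rw [Finset.mem_Ico]
        constructor <;> omega
      · intro m hm
        rw [Finset.mem_Ico] at hm
        rw [Finset.mem_range]
        omega
      · intro s _
        simp
      · intro m hm
        rw [Finset.mem_Ico] at hm
        rw [Int.toNat_of_nonneg (by omega)]
        ring
      · intro s _
        rfl
    rw [h3, two_mul Y, Finset.sum_range_add]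
    have h4 : ∑ s ∈ range Y, (lp ((Y : ℤ) + ((Y + s : ℕ) : ℤ)) -
        Lk Q (Y / Q ^ 2) ((Y : ℤ) + ((Y + s : ℕ) : ℤ))) ^ 2 =
        ∑ s ∈ range Y, (lp (((2 * Y : ℕ) : ℤ) + s) - Lk Q (Y / Q ^ 2) (((2 * Y : ℕ) : ℤ) + s)) ^ 2 := by
      refine Finset.sum_congr rfl fun s _ => ?_
      have : (Y : ℤ) + ((Y + s : ℕ) : ℤ) = ((2 * Y : ℕ) : ℤ) + s := by push_cast; ring
      rw [this]
    rw [h4]
    linarith
  have hS : ∀ θ : ℝ, ‖∑ m ∈ Icc (1 : ℤ) ((3 * Y : ℕ) : ℤ), (uY Q Y m : ℂ) * e (m * θ)‖ ≤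
      Y * (Q : ℝ) ^ (-(1 / 4) : ℝ) := by
    intro θ
    rw [s3_sum Q Y hY1 (fun m x => (x : ℂ) * e (m * θ)) (fun _ => by simp)]
    exact hF Q Y hR2 θ Y (3 * Y) (le_refl _) (by omega)
  have hmain := hv (uY Q Y) (3 * Y) hsuppY (2 * ((Y : ℝ) * (Real.log Y) ^ 10))
    (Y * (Q : ℝ) ^ (-(1 / 4) : ℝ)) hE0 hE (by positivity) hS (2 * X1) (by omega)
  rw [hGd] at hmain
  have hsub : Ico X1 (2 * X1) ⊆ Icc 1 (2 * X1) := by
    intro n hn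
    rw [Finset.mem_Ico] at hn
    rw [Finset.mem_Icc]
    omega
  calc ∑ n ∈ Ico X1 (2 * X1), ∑ n' ∈ Ico X1 (2 * X1),
      |H33B.cor (uY Q Y) (3 * Y) (P.eval (n : ℤ) - P.eval (n' : ℤ))|
      = ∑ n ∈ Ico X1 (2 * X1), ∑ n' ∈ Ico X1 (2 * X1),
      |H33B.cor (uY Q Y) (3 * Y) (G.eval (n : ℤ) - G.eval (n' : ℤ))| := by
        refine Finset.sum_congr rfl fun n _ => Finset.sum_congr rfl fun n' _ => ?_
        rw [hG (uY Q Y) (3 * Y) hsuppY n n']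
    _ ≤ ∑ n ∈ Ico X1 (2 * X1), ∑ n' ∈ Icc 1 (2 * X1),
      |H33B.cor (uY Q Y) (3 * Y) (G.eval (n : ℤ) - G.eval (n' : ℤ))| :=
        Finset.sum_le_sum fun n _ =>
          Finset.sum_le_sum_of_subset_of_nonneg hsub fun _ _ _ => abs_nonneg _
    _ ≤ ∑ n ∈ Icc 1 (2 * X1), ∑ n' ∈ Icc 1 (2 * X1),
      |H33B.cor (uY Q Y) (3 * Y) (G.eval (n : ℤ) - G.eval (n' : ℤ))| :=
        Finset.sum_le_sum_of_subset_of_nonneg hsub fun _ _ _ =>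
          Finset.sum_nonneg fun _ _ => abs_nonneg _
    _ ≤ _ := hmain
    _ ≤ _ := hnum Q X X1 Y hQ hRg h1 h2 hlY hY

end Pool.Agent.Lib.H24P
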