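import Pool.Agent.Lib.H24P.S1
import Pool.Agent.Lib.H24P.S2
import Pool.Agent.Lib.H24P.S3
import Pool.Agent.Lib.H59P.S3

/-!
# Project H24P, chunk S4 (M/L): from primes to projections in the random coordinates
-/

open Finset Polynomial

namespace Pool.Agent.Lib.H24P

open Pool.Agent.Lib.H68T Pool.Agent.Lib.H18Q Pool.Agent.Lib.H59P

/-- the functions of the telescoping sum -/
noncomputable def s4_f {k : ℕ} (Q : ℕ) (M : Fin k → ℕ) (j i : Fin k) (m : ℤ) : ℝ :=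
  if i < j then Lk Q (Ysc (M i) / Q ^ 2) m else if i = j then uY Q (Ysc (M i)) m else lp m

theorem s4_uY {Q M x : ℕ} {v : ℤ} (hM : 8 ∣ M) (hv : 8 * |v| ≤ M) (hx : x ∈ Ico M (2 * M)) :
    uY Q (Ysc M) (v + x) = lp (v + x) - Lk Q (Ysc M / Q ^ 2) (v + x) := by
  have h1 := G2_val M x v hM hv hx
  unfold uY
  rw [if_pos ⟨h1.1, h1.2.1⟩]

/-- telescoping -/
theorem s4_tel {k : ℕ} (P : Fin k → ℤ[X]) (Q X1 : ℕ) (M : Fin k → ℕ) (hM8 : ∀ i, 8 ∣ M i)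
    (hP : ∀ i, ∀ n ∈ Ico X1 (2 * X1), 8 * |(P i).eval (n : ℤ)| ≤ M i) (w : ℕ → ℝ)
    (h : Fin k → ℕ) (hh : h ∈ cub M M) :
    ∑ n ∈ Ico X1 (2 * X1), w n * ∏ i, lp ((P i).eval (n : ℤ) + h i) - Rw Q X1 P M w h =
      ∑ j, ∑ n ∈ Ico X1 (2 * X1), w n * ∏ i, s4_f Q M j i ((P i).eval (n : ℤ) + h i) := by
  unfold Rw
  rw [← Finset.sum_sub_distrib, Finset.sum_comm]
  refine Finset.sum_congr rfl fun n hn => ?_
  rw [← mul_sub, ← Finset.mul_sum]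
  congr 1
  rw [H59P.S3 (fun i => lp ((P i).eval (n : ℤ) + h i))
    (fun i => Lk Q (Ysc (M i) / Q ^ 2) ((P i).eval (n : ℤ) + h i))]
  refine Finset.sum_congr rfl fun j _ => Finset.prod_congr rfl fun i _ => ?_
  unfold s4_f
  have hx : h i ∈ Ico (M i) (2 * M i) := by
    have := Fintype.mem_piFinset.1 hh i
    rw [two_mul]
    exact this
  rw [s4_uY (hM8 i) (hP i n hn) hx]

theorem s4_min {k : ℕ} (c : Fin k → ℝ) (hc : ∀ i, 0 < c i) : ∃ c0 : ℝ, 0 < c0 ∧ ∀ i, c0 ≤ c i := by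
  have h0 : ∀ i, 0 ≤ 1 / c i := fun i => by have := hc i; positivity
  have hs : 0 ≤ ∑ i, 1 / c i := Finset.sum_nonneg fun i _ => h0 i
  refine ⟨1 / (1 + ∑ i, 1 / c i), by positivity, fun i => ?_⟩
  have h1 : 1 / c i ≤ 1 + ∑ i, 1 / c i := by
    have := Finset.single_le_sum (f := fun i => 1 / c i) (fun i _ => h0 i) (Finset.mem_univ i)
    beta_reduce at this
    linarith
  have hci := hc i
  rw [div_le_iff₀ (by positivity)]
  rw [div_le_iff₀ hci] at h1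
  linarith

theorem s4_le_sum {k : ℕ} (a : Fin k → ℝ) (ha : ∀ i, 0 ≤ a i) (i : Fin k) : a i ≤ ∑ i, a i :=
  Finset.single_le_sum (f := a) (fun i _ => ha i) (Finset.mem_univ i)

/-- one term of the telescoping sum -/
theorem s4_term {k : ℕ} (P : Fin k → ℤ[X]) (Q X X1 L : ℕ) (M : Fin k → ℕ)
    (hG : Geo L Q X X1 P M)
    (hP : ∀ i, ∀ n ∈ Ico X1 (2 * X1), 8 * |(P i).eval (n : ℤ)| ≤ M i)
    (hms : ∀ i, ∀ v : ℤ, 8 * |v| ≤ M i →
      ∑ x ∈ Ico (M i) (2 * M i), Lk Q (Ysc (M i) / Q ^ 2) (v + x) ^ 2 ≤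
        2 * Ysc (M i) * (Real.log (Ysc (M i))) ^ 10 ∧
      ∑ x ∈ Ico (M i) (2 * M i), lp (v + x) ^ 2 ≤ 2 * Ysc (M i) * (Real.log (Ysc (M i))) ^ 10 ∧
      ∑ x ∈ Ico (M i) (2 * M i), (lp (v + x) - Lk Q (Ysc (M i) / Q ^ 2) (v + x)) ^ 2 ≤
        2 * Ysc (M i) * (Real.log (Ysc (M i))) ^ 10)
    (hY1 : ∀ i, 1 ≤ Ysc (M i)) (w : ℕ → ℝ) (wb : ℝ) (hw : ∀ n ∈ Ico X1 (2 * X1), |w n| ≤ wb)
    (j : Fin k) (V : ℝ) (hV : ∑ n ∈ Ico X1 (2 * X1), ∑ n' ∈ Ico X1 (2 * X1),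
      |H33B.cor (uY Q (Ysc (M j))) (3 * Ysc (M j)) ((P j).eval (n : ℤ) - (P j).eval (n' : ℤ))| ≤ V) :
    ∑ h ∈ cub M M, (∑ n ∈ Ico X1 (2 * X1), w n * ∏ i, s4_f Q M j i ((P i).eval (n : ℤ) + h i)) ^ 2 ≤
      wb ^ 2 * V * ∏ i ∈ univ.erase j, (2 * Ysc (M i) * (Real.log (Ysc (M i))) ^ 10) := by
  have hM8 : ∀ i, 8 ∣ M i := fun i => (dvd_mul_right _ _).trans (hG.dvdM i)
  have hfj : s4_f Q M j j = uY Q (Ysc (M j)) := by
    funext m
    unfold s4_f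
    rw [if_neg (lt_irrefl j), if_pos rfl]
  refine S1_cor M M (Ico X1 (2 * X1)) w wb hw (fun i n => (P i).eval (n : ℤ)) (s4_f Q M j)
    (fun i => 2 * Ysc (M i) * (Real.log (Ysc (M i))) ^ 10) (fun i => ?_) j (fun i n hn => ?_)
    (3 * Ysc (M j)) ?_ V ?_
  · have : 0 ≤ (Real.log (Ysc (M i))) ^ 10 := by positivity
    positivity
  · obtain ⟨a1, a2, a3⟩ := hms i ((P i).eval (n : ℤ)) (hP i n hn)
    rw [← two_mul]
    rcases lt_trichotomy i j with hij | hij | hij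
    · refine le_trans (le_of_eq ?_) a1
      refine Finset.sum_congr rfl fun x _ => ?_
      unfold s4_f
      rw [if_pos hij]
    · refine le_trans (le_of_eq ?_) a3
      refine Finset.sum_congr rfl fun x hx => ?_
      unfold s4_f
      rw [if_neg (not_lt.2 hij.symm.le), if_pos hij, s4_uY (hM8 i) (hP i n hn) hx]
    · refine le_trans (le_of_eq ?_) a2
      refine Finset.sum_congr rfl fun x _ => ?_
      unfold s4_f
      rw [if_neg (not_lt.2 hij.le), if_neg hij.ne']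
  · rw [hfj]
    exact s3_supp Q (Ysc (M j)) (hY1 j)
  · rw [hfj]
    exact hV

/-- **S4.** Proof. Compare `S4` in `H59P`. Telescoping (`H59P.S3`): the inner sum is `∑_j D_j(h)`,
`D_j(h) = ∑_n w n ∏_i f_{j,i}(P_i(n) + h_i)`, `f_{j,i} = Lk` for `i < j`, `uY` for `i = j` (the values are in
`[Y, 3Y)`: `G2_P`, `G2_val`), `lp` for `i > j`. `S1_cor` with `v i n = P_i(n)`, `wb = (log X)²`,
`W i = 2 Y_i (log Y_i)^10` (`S2_ms`), `N = 3 Y_j`, `V = X1² Y_j Q^(-c)` (`S3_vdc`; `Y_j ≤ M_j`). So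
`∑_h D_j² ≤ (log X)^4 X1² Q^(-c) ∏ (2 Y_i (log Y_i)^10)`, `Y_i ≤ M_i`; `(∑_j D_j)² ≤ k ∑_j D_j²`; logarithms: `G1_log`,
`G2_reg`. -/
theorem S4_main {k : ℕ} (P : Fin k → ℤ[X]) (hP : ∀ i, 1 ≤ (P i).natDegree) : ∃ c K : ℝ, 0 < c ∧
    1 ≤ K ∧ ∃ L : ℕ, ∀ C : ℝ, ∃ Q0 : ℕ, ∀ (Q X X1 : ℕ) (M : Fin k → ℕ), Q0 ≤ Q → Rg K C Q X →
    Geo L Q X X1 P M → (∀ i, ∃ (B : ℤ → Ch → ℂ) (mb : Ch → ℝ), Cf Q (Ysc (M i)) B mb) →
    ∀ w : ℕ → ℝ, (∀ n ∈ Ico X1 (2 * X1), |w n| ≤ (Real.log X) ^ 2) →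
    ∑ h ∈ cub M M, (∑ n ∈ Ico X1 (2 * X1), w n * ∏ i, lp ((P i).eval (n : ℤ) + h i) -
      Rw Q X1 P M w h) ^ 2 ≤ (X1 : ℝ) ^ 2 * vol M * (Q : ℝ) ^ (-c) := by
  obtain ⟨L, hL2, hL⟩ := G2_P P hP
  obtain ⟨K1, hK1, hms⟩ := S2_ms
  have hv := fun i => S3_vdc (P i) (hP i)
  choose cc Kc hcc hKc hv using hv
  obtain ⟨c0, hc0, hcle⟩ := s4_min cc hcc
  set K0 : ℝ := K1 + ∑ i, Kc i with hK0
  have hKs : 0 ≤ ∑ i, Kc i := Finset.sum_nonneg fun i _ => zero_le_one.trans (hKc i)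
  have hKle : ∀ i, Kc i ≤ K0 := by
    intro i
    have := s4_le_sum Kc (fun i => zero_le_one.trans (hKc i)) i
    rw [hK0]
    linarith
  have hK01 : 1 ≤ K0 := by rw [hK0]; linarith
  set A : ℝ := 1 + ∑ i, (((P i).natDegree : ℝ) + 1) with hA
  have hAle : ∀ i, ((P i).natDegree : ℝ) + 1 ≤ A := by
    intro i
    have := s4_le_sum (fun i => ((P i).natDegree : ℝ) + 1) (fun i => by positivity) i
    beta_reduce at this
    rw [hA]
    linarith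
  have hA0 : 0 ≤ A := by
    rw [hA]
    have : 0 ≤ ∑ i, (((P i).natDegree : ℝ) + 1) := Finset.sum_nonneg fun i _ => by positivity
    linarith
  refine ⟨c0 / 2, K0 + 3, by positivity, by linarith, L, fun C => ?_⟩
  have hv' := fun i => hv i C
  choose Q3 hQ3 using hv'
  obtain ⟨Q1, hQ1, hlog⟩ := G1_log C (4 + 10 * (k - 1))
    ((k : ℝ) ^ 2 * (2 * A ^ 10) ^ (k - 1)) (c0 / 2) (by positivity)
  obtain ⟨Q2, hreg⟩ := G2_reg P hP K0 C hK01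
  refine ⟨max 3 (max Q1 (max Q2 (univ.sup Q3))), ?_⟩
  intro Q X X1 M hQ hRg hG hCf w hw
  have hQ3' : 3 ≤ Q := (le_max_left _ _).trans hQ
  have hQ1' : Q1 ≤ Q := ((le_max_left _ _).trans (le_max_right _ _)).trans hQ
  have hQ2' : Q2 ≤ Q :=
    ((le_max_left _ _).trans ((le_max_right _ _).trans (le_max_right _ _))).trans hQ
  have hQs : ∀ i, Q3 i ≤ Q := fun i =>
    ((Finset.le_sup (f := Q3) (Finset.mem_univ i)).trans
      ((le_max_right _ _).trans ((le_max_right _ _).trans (le_max_right _ _)))).trans hQ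
  have hQ0 : (0 : ℝ) < Q := by exact_mod_cast (by omega : 0 < Q)
  have hQr1 : (1 : ℝ) ≤ Q := by exact_mod_cast (by omega : 1 ≤ Q)
  have hlQ : 0 ≤ Real.log Q := Real.log_nonneg hQr1
  have hRg3 : Rg 3 C Q X := by
    refine ⟨?_, hRg.2⟩
    refine le_trans ?_ hRg.1
    exact mul_le_mul_of_nonneg_right (by linarith) hlQ
  have hRg1 : Rg (K0 + 1) C Q X := by
    refine ⟨?_, hRg.2⟩
    refine le_trans ?_ hRg.1
    exact mul_le_mul_of_nonneg_right (by linarith) hlQ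
  have hge := hG.ge
  have hle := hG.le
  obtain ⟨hX1, -, hlX, -, -⟩ := s3_reg hQ3' hRg3 hle hge
  have hreg' := hreg L Q X X1 M hQ2' hL2 hRg1 hG
  have hPb : ∀ i, ∀ n ∈ Ico X1 (2 * X1), 8 * |(P i).eval (n : ℤ)| ≤ M i := fun i n hn =>
    (hL Q X X1 M hG i n hn).1
  have hM8 : ∀ i, 8 ∣ M i := fun i => (dvd_mul_right _ _).trans (hG.dvdM i)
  have hY1 : ∀ i, 1 ≤ Ysc (M i) := fun i => hX1.trans (hreg' i).2.1
  have hYM : ∀ i, (Ysc (M i) : ℝ) ≤ M i := by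
    intro i
    have : Ysc (M i) ≤ M i := by
      unfold Ysc
      omega
    exact_mod_cast this
  choose BB mm hBB using hCf
  have hms' := fun i (v : ℤ) (hv : 8 * |v| ≤ (M i : ℤ)) => hms Q (M i) (BB i) (mm i) (hM8 i)
      ((hreg' i).1.mono (by linarith) (by rw [hK0]; linarith)) (hBB i) v hv
  have hV : ∀ j, ∑ n ∈ Ico X1 (2 * X1), ∑ n' ∈ Ico X1 (2 * X1),
      |H33B.cor (uY Q (Ysc (M j))) (3 * Ysc (M j)) ((P j).eval (n : ℤ) - (P j).eval (n' : ℤ))| ≤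
      (X1 : ℝ) ^ 2 * M j * (Q : ℝ) ^ (-c0) := by
    intro j
    refine (hQ3 j Q X X1 (Ysc (M j)) (BB j) (mm j) (hQs j) hRg3 hle hge
      ((hreg' j).1.mono (by linarith) (hKle j)) (hBB j) ((hYM j).trans (hG.hi j))).trans ?_
    apply mul_le_mul
    · exact mul_le_mul_of_nonneg_left (hYM j) (by positivity)
    · exact Real.rpow_le_rpow_of_exponent_le hQr1 (by linarith [hcle j])
    · positivity
    · positivity
  set T : ℝ := 2 * (A * Real.log X) ^ 10 with hT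
  have hT0 : 0 ≤ T := by positivity
  have hWT : ∀ i, 2 * (Ysc (M i) : ℝ) * (Real.log (Ysc (M i))) ^ 10 ≤ M i * T := by
    intro i
    have h1 : Real.log (Ysc (M i)) ≤ A * Real.log X :=
      ((hreg' i).2.2).trans (mul_le_mul_of_nonneg_right (hAle i) (by linarith))
    have h0 : 0 ≤ Real.log (Ysc (M i)) := Real.log_natCast_nonneg _
    have h2 : (Real.log (Ysc (M i))) ^ 10 ≤ (A * Real.log X) ^ 10 := pow_le_pow_left₀ h0 h1 10
    calc 2 * (Ysc (M i) : ℝ) * (Real.log (Ysc (M i))) ^ 10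
        ≤ 2 * (M i : ℝ) * (A * Real.log X) ^ 10 :=
          mul_le_mul (mul_le_mul_of_nonneg_left (hYM i) (by norm_num)) h2 (by positivity)
            (by positivity)
      _ = M i * T := by rw [hT]; ring
  have hterm : ∀ j, ∑ h ∈ cub M M, (∑ n ∈ Ico X1 (2 * X1), w n *
      ∏ i, s4_f Q M j i ((P i).eval (n : ℤ) + h i)) ^ 2 ≤
      (Real.log X) ^ 4 * T ^ (k - 1) * ((X1 : ℝ) ^ 2 * vol M * (Q : ℝ) ^ (-c0)) := by
    intro j
    refine (s4_term P Q X X1 L M hG hPb hms' hY1 w ((Real.log X) ^ 2) hw j _ (hV j)).trans ?_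
    have h3 : ∏ i ∈ univ.erase j, (2 * (Ysc (M i) : ℝ) * (Real.log (Ysc (M i))) ^ 10) ≤
        (∏ i ∈ univ.erase j, (M i : ℝ)) * T ^ (k - 1) := by
      calc ∏ i ∈ univ.erase j, (2 * (Ysc (M i) : ℝ) * (Real.log (Ysc (M i))) ^ 10)
          ≤ ∏ i ∈ univ.erase j, ((M i : ℝ) * T) :=
            Finset.prod_le_prod (fun i _ => by positivity) fun i _ => hWT i
        _ = _ := by
            rw [Finset.prod_mul_distrib, Finset.prod_const, Finset.card_erase_of_mem (mem_univ j),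
              Finset.card_univ, Fintype.card_fin]
    have h4 : vol M = M j * ∏ i ∈ univ.erase j, (M i : ℝ) :=
      (Finset.mul_prod_erase univ (fun i => (M i : ℝ)) (mem_univ j)).symm
    calc ((Real.log X) ^ 2) ^ 2 * ((X1 : ℝ) ^ 2 * M j * (Q : ℝ) ^ (-c0)) *
          ∏ i ∈ univ.erase j, (2 * (Ysc (M i) : ℝ) * (Real.log (Ysc (M i))) ^ 10)
        ≤ ((Real.log X) ^ 2) ^ 2 * ((X1 : ℝ) ^ 2 * M j * (Q : ℝ) ^ (-c0)) *
          ((∏ i ∈ univ.erase j, (M i : ℝ)) * T ^ (k - 1)) :=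
          mul_le_mul_of_nonneg_left h3 (by positivity)
      _ = _ := by
          rw [h4]
          ring
  have hsum : ∑ h ∈ cub M M, (∑ n ∈ Ico X1 (2 * X1), w n * ∏ i, lp ((P i).eval (n : ℤ) + h i) -
      Rw Q X1 P M w h) ^ 2 ≤
      k * (k * ((Real.log X) ^ 4 * T ^ (k - 1) * ((X1 : ℝ) ^ 2 * vol M * (Q : ℝ) ^ (-c0)))) := by
    calc ∑ h ∈ cub M M, (∑ n ∈ Ico X1 (2 * X1), w n * ∏ i, lp ((P i).eval (n : ℤ) + h i) -
        Rw Q X1 P M w h) ^ 2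
        ≤ ∑ h ∈ cub M M, (k : ℝ) * ∑ j, (∑ n ∈ Ico X1 (2 * X1), w n *
          ∏ i, s4_f Q M j i ((P i).eval (n : ℤ) + h i)) ^ 2 := by
          refine Finset.sum_le_sum fun h hh => ?_
          rw [s4_tel P Q X1 M hM8 hPb w h hh]
          refine sq_sum_le_card_mul_sum_sq.trans (le_of_eq ?_)
          rw [Finset.card_univ, Fintype.card_fin]
      _ = (k : ℝ) * ∑ j, ∑ h ∈ cub M M, (∑ n ∈ Ico X1 (2 * X1), w n *
          ∏ i, s4_f Q M j i ((P i).eval (n : ℤ) + h i)) ^ 2 := by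
          rw [← Finset.mul_sum, Finset.sum_comm]
      _ ≤ (k : ℝ) * ∑ _j : Fin k, ((Real.log X) ^ 4 * T ^ (k - 1) *
          ((X1 : ℝ) ^ 2 * vol M * (Q : ℝ) ^ (-c0))) :=
          mul_le_mul_of_nonneg_left (Finset.sum_le_sum fun j _ => hterm j) (Nat.cast_nonneg k)
      _ = _ := by
          rw [Finset.sum_const, Finset.card_univ, Fintype.card_fin, nsmul_eq_mul]
  refine hsum.trans ?_
  have hvol : 0 ≤ vol M := Finset.prod_nonneg fun i _ => Nat.cast_nonneg _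
  have hlog' : (k : ℝ) ^ 2 * ((Real.log X) ^ 4 * T ^ (k - 1)) ≤ (Q : ℝ) ^ (c0 / 2) := by
    refine le_trans (le_of_eq ?_) (hlog Q X hQ1' hRg.2)
    have e1 : T ^ (k - 1) = (2 * A ^ 10) ^ (k - 1) * (Real.log X) ^ (10 * (k - 1)) := by
      rw [hT, mul_pow A, ← mul_assoc, mul_pow (2 * A ^ 10), ← pow_mul (Real.log X)]
    rw [e1, pow_add]
    ring
  calc (k : ℝ) * (k * ((Real.log X) ^ 4 * T ^ (k - 1) * ((X1 : ℝ) ^ 2 * vol M * (Q : ℝ) ^ (-c0))))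
      = (X1 : ℝ) ^ 2 * vol M * (((k : ℝ) ^ 2 * ((Real.log X) ^ 4 * T ^ (k - 1))) *
          (Q : ℝ) ^ (-c0)) := by ring
    _ ≤ (X1 : ℝ) ^ 2 * vol M * ((Q : ℝ) ^ (c0 / 2) * (Q : ℝ) ^ (-c0)) := by
        apply mul_le_mul_of_nonneg_left _ (by positivity)
        exact mul_le_mul_of_nonneg_right hlog' (by positivity)
    _ = (X1 : ℝ) ^ 2 * vol M * (Q : ℝ) ^ (-(c0 / 2)) := by
        rw [← Real.rpow_add hQ0]
        congr 2
        ring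

end Pool.Agent.Lib.H24P
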