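import Pool.Agent.Lib.H24P.Defs2
import Pool.Agent.Lib.H24P.P0
import Pool.Agent.Lib.H24P.P2

/-!
# Project H24P, chunk T1 (M): size of the local factors
-/

open Finset Polynomial

namespace Pool.Agent.Lib.H24P

open Pool.Agent.Lib.H68T Pool.Agent.Lib.H18Q Pool.Agent.Lib.H59P

/-- The local factor as a count. Proof. `1 + gl l m = l/(l-1)` if `l ∤ m`, else `0`. -/
theorem T1_count {k : ℕ} (l : ℕ) (hl : l.Prime) (φ : Fin k → ℤ → ℤ) :
    1 + tpf l φ = (((range l).filter (fun n : ℕ => ∀ i, ¬ (l : ℤ) ∣ φ i n)).card : ℝ) / l *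
      ((l : ℝ) / ((l : ℝ) - 1)) ^ k := by
  classical
  have hl1 : (1 : ℝ) < l := by exact_mod_cast hl.one_lt
  have hl2 : (l : ℝ) - 1 ≠ 0 := by linarith
  have hg : ∀ m : ℤ, 1 + gl l m = if (l : ℤ) ∣ m then 0 else (l : ℝ) / ((l : ℝ) - 1) := by
    intro m
    unfold gl
    split_ifs
    · ring
    · field_simp
      ring
  have h1 : ∀ n ∈ range l, ∏ i, (1 + gl l (φ i (n : ℤ))) =
      if (∀ i, ¬ (l : ℤ) ∣ φ i (n : ℤ)) then ((l : ℝ) / ((l : ℝ) - 1)) ^ k else 0 := by
    intro n _
    split_ifs with h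
    · have h2 : ∀ i ∈ (univ : Finset (Fin k)), (1 + gl l (φ i (n : ℤ))) = (l : ℝ) / ((l : ℝ) - 1) := by
        intro i _
        rw [hg, if_neg (h i)]
      rw [Finset.prod_congr rfl h2, Finset.prod_const, card_univ, Fintype.card_fin]
    · push Not at h
      obtain ⟨i, hi⟩ := h
      refine Finset.prod_eq_zero (mem_univ i) ?_
      rw [hg, if_pos hi]
  unfold tpf
  rw [add_sub_cancel, Finset.sum_congr rfl h1, ← Finset.sum_filter, Finset.sum_const, nsmul_eq_mul]
  ring

/-- The number of zeros modulo `l`, the leading coefficient not being divisible by `l`. -/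
theorem t1_roots (F : ℤ[X]) (l : ℕ) (hl : l.Prime) (hn : ¬ (l : ℤ) ∣ F.leadingCoeff) :
    ((range l).filter (fun a : ℕ => (l : ℤ) ∣ F.eval (a : ℤ))).card ≤ F.natDegree := by
  classical
  have := Fact.mk hl
  set Q : (ZMod l)[X] := F.map (Int.castRingHom (ZMod l)) with hQ
  have hev : ∀ m : ℤ, Q.eval (m : ZMod l) = ((F.eval m : ℤ) : ZMod l) := by
    intro m
    rw [hQ, eval_intCast_map]
    rfl
  have hQ0 : Q ≠ 0 := by
    intro h0
    apply hn
    rw [← ZMod.intCast_zmod_eq_zero_iff_dvd]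
    have h2 : Q.coeff F.natDegree = 0 := by rw [h0, coeff_zero]
    rw [hQ, coeff_map] at h2
    exact h2
  have h1 : ((range l).filter (fun a : ℕ => (l : ℤ) ∣ F.eval (a : ℤ))).card ≤ Q.roots.toFinset.card := by
    refine card_le_card_of_injOn (fun a : ℕ => (a : ZMod l)) ?_ ?_
    · intro a ha
      have ha' := (mem_filter.1 (mem_coe.1 ha)).2
      rw [mem_coe, Multiset.mem_toFinset, mem_roots hQ0, IsRoot.def]
      have h2 := hev (a : ℤ)
      rw [Int.cast_natCast] at h2
      rw [h2, ZMod.intCast_zmod_eq_zero_iff_dvd]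
      exact ha'
    · intro a ha b hb hab
      have ha' := mem_range.1 (mem_filter.1 (mem_coe.1 ha)).1
      have hb' := mem_range.1 (mem_filter.1 (mem_coe.1 hb)).1
      have h2 := (ZMod.natCast_eq_natCast_iff a b l).1 hab
      exact Nat.ModEq.eq_of_lt_of_lt h2 ha' hb'
  refine h1.trans ((Multiset.toFinset_card_le _).trans ((card_roots' _).trans ?_))
  exact natDegree_map_le

theorem t1_pow (n : ℕ) (x : ℝ) (hx : 0 ≤ x) (hx1 : x ≤ 1) : (1 + x) ^ n ≤ 1 + (2 ^ n - 1) * x := by
  induction n with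
  | zero => simp
  | succ n ih =>
    have h1 : (1 : ℝ) ≤ 2 ^ n := one_le_pow₀ (by norm_num)
    calc (1 + x) ^ (n + 1) = (1 + x) ^ n * (1 + x) := pow_succ _ _
      _ ≤ (1 + (2 ^ n - 1) * x) * (1 + x) := mul_le_mul_of_nonneg_right ih (by linarith)
      _ ≤ 1 + (2 ^ (n + 1) - 1) * x := by
        have h2 : x * x ≤ 1 * x := mul_le_mul_of_nonneg_right hx1 hx
        have h3 : (2 ^ n - 1) * (x * x) ≤ (2 ^ n - 1) * (1 * x) :=
          mul_le_mul_of_nonneg_left h2 (by linarith)
        rw [pow_succ]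
        linarith

/-- **T1.** Proof. For `l ≤ A` trivial (`P0_tp`: `0 ≤ 1 + tpf ≤ 2^(k+1)`). For a prime `l > A` the leading coefficients are
not divisible by `l`, so `B`, `P_i + h_i` have at most `A` (resp. `1 ≤ A`) zeros modulo `l`
(`Polynomial.card_roots'` over `ZMod l`): the count in `T1_count` is at least `l - (k+1) A` and at most `l`;
`(l/(l-1))^(k+1) ≤ 1 + C/l` (e.g. `(1+1/(l-1))^(k+1) ≤ 1 + 2^(k+1)/(l-1)`, `l - 1 ≥ l/2`). -/
theorem T1_abs (k A : ℕ) (hA : 1 ≤ A) : ∃ C : ℝ, 1 ≤ C ∧ ∀ B : ℤ[X], Lin A B →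
    ∀ P : Fin k → ℤ[X], Pol A P → ∀ h : Fin k → ℕ, ∀ l : ℕ, l.Prime →
    |tpf l (sys B P h)| ≤ C / l := by
  classical
  have hA1 : (1 : ℝ) ≤ A := by exact_mod_cast hA
  have h2k : (1 : ℝ) ≤ 2 ^ (k + 1) := one_le_pow₀ (by norm_num)
  refine ⟨2 * 2 ^ (k + 1) * A + (k + 1) * A, ?_, ?_⟩
  · have h1 : (1 : ℝ) * 1 ≤ 2 ^ (k + 1) * A := mul_le_mul h2k hA1 (by norm_num) (by positivity)
    have h2 : (0 : ℝ) ≤ (k + 1) * A := by positivity
    linarith
  intro B hB P hP h l hl
  have hl2 : (2 : ℝ) ≤ l := by exact_mod_cast hl.two_le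
  have hl0 : (0 : ℝ) < l := by linarith
  have hl1 : (0 : ℝ) < l - 1 := by linarith
  have hratio : (l : ℝ) / (l - 1) ≤ 2 := by
    rw [div_le_iff₀ hl1]
    linarith
  have hr0 : (0 : ℝ) ≤ (l : ℝ) / (l - 1) := by positivity
  obtain ⟨e1, e2⟩ := P0_tp l hl (sys B P h)
  have hkA : (0 : ℝ) ≤ (k + 1) * A := by positivity
  by_cases hlA : l ≤ A
  · have h1 : ((l : ℝ) / (l - 1)) ^ (k + 1) ≤ 2 ^ (k + 1) := pow_le_pow_left₀ hr0 hratio _
    have h2 : |tpf l (sys B P h)| ≤ 2 ^ (k + 1) := by
      rw [abs_le]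
      constructor <;> linarith
    refine h2.trans ?_
    rw [le_div_iff₀ hl0]
    have h3 : (l : ℝ) ≤ A := by exact_mod_cast hlA
    have h4 : (2 : ℝ) ^ (k + 1) * l ≤ 2 ^ (k + 1) * A := mul_le_mul_of_nonneg_left h3 (by linarith)
    have h5 : (0 : ℝ) ≤ 2 ^ (k + 1) * A := by positivity
    linarith
  · push Not at hlA
    rw [abs_le]
    constructor
    · -- lower bound
      have hlc : ∀ F : ℤ[X], 1 ≤ F.natDegree → F.leadingCoeff.natAbs ≤ A →
          ¬ (l : ℤ) ∣ F.leadingCoeff := by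
        intro F hF hFA hd
        have h1 : F.leadingCoeff ≠ 0 := by
          rw [Ne, leadingCoeff_eq_zero]
          rintro rfl
          rw [natDegree_zero] at hF
          omega
        have h2 : l ∣ F.leadingCoeff.natAbs := Int.natCast_dvd.1 hd
        have h3 := Nat.le_of_dvd (Int.natAbs_pos.2 h1) h2
        omega
      set good := (range l).filter (fun n : ℕ => ∀ i, ¬ (l : ℤ) ∣ sys B P h i n) with hgood
      set bad := univ.biUnion (fun i : Fin (k + 1) => (range l).filter
        (fun n : ℕ => (l : ℤ) ∣ sys B P h i n)) with hbad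
      have hb : bad.card ≤ (k + 1) * A := by
        refine card_biUnion_le.trans ?_
        calc ∑ i : Fin (k + 1), ((range l).filter (fun n : ℕ => (l : ℤ) ∣ sys B P h i n)).card
            ≤ ∑ _i : Fin (k + 1), A := by
              refine Finset.sum_le_sum fun i _ => ?_
              refine Fin.cases ?_ (fun i => ?_) i
              · have h1 := t1_roots B l hl (hlc B (by rw [hB.deg]) hB.lc)
                rw [hB.deg] at h1
                exact h1.trans hA
              · have h2 : ((P i) + C (h i : ℤ)).natDegree = (P i).natDegree := natDegree_add_C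
                have h3 : ((P i) + C (h i : ℤ)).leadingCoeff = (P i).leadingCoeff := by
                  have h5 := hP.deg i
                  rw [leadingCoeff, h2, coeff_add, coeff_C, if_neg (by omega), add_zero, leadingCoeff]
                have h4 := t1_roots ((P i) + C (h i : ℤ)) l hl
                  (hlc _ (by rw [h2]; exact hP.deg i) (by rw [h3]; exact hP.lc i))
                rw [h2] at h4
                refine (le_of_eq ?_).trans (h4.trans (hP.degA i))
                congr 1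
                refine Finset.filter_congr fun n _ => ?_
                rw [eval_add, eval_C]
                rfl
          _ = (k + 1) * A := by
              rw [Finset.sum_const, card_univ, Fintype.card_fin, smul_eq_mul]
      have hcov : l ≤ good.card + bad.card := by
        have h1 : range l ⊆ good ∪ bad := by
          intro n hn
          by_cases h2 : ∀ i, ¬ (l : ℤ) ∣ sys B P h i n
          · exact mem_union_left _ (mem_filter.2 ⟨hn, h2⟩)
          · push Not at h2
            obtain ⟨i, hi⟩ := h2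
            exact mem_union_right _ (mem_biUnion.2 ⟨i, mem_univ i, mem_filter.2 ⟨hn, hi⟩⟩)
        have h2 := (card_le_card h1).trans (card_union_le _ _)
        rwa [card_range] at h2
      have h3 : (l : ℝ) ≤ good.card + (k + 1) * A := by
        have h4 : l ≤ good.card + (k + 1) * A := by omega
        exact_mod_cast h4
      have h5 := T1_count l hl (sys B P h)
      rw [← hgood] at h5
      have h6 : (1 : ℝ) ≤ ((l : ℝ) / (l - 1)) ^ (k + 1) := one_le_pow₀ (M3a_ratio l hl)
      have h7 : (0 : ℝ) ≤ (good.card : ℝ) / l := by positivity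
      have h8 : (good.card : ℝ) / l * 1 ≤ (good.card : ℝ) / l * ((l : ℝ) / (l - 1)) ^ (k + 1) :=
        mul_le_mul_of_nonneg_left h6 h7
      have h9 : 1 - (k + 1) * A / (l : ℝ) ≤ (good.card : ℝ) / l := by
        rw [le_div_iff₀ hl0]
        have h10 : (1 - (k + 1) * A / (l : ℝ)) * l = l - (k + 1) * A := by field_simp
        rw [h10]
        linarith
      have h11 : (0 : ℝ) ≤ 2 * 2 ^ (k + 1) * A / (l : ℝ) := by positivity
      rw [add_div]
      linarith
    · -- upper bound
      have h1 : (l : ℝ) / (l - 1) = 1 + 1 / ((l : ℝ) - 1) := by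
        field_simp
        ring
      have h2 : 1 / ((l : ℝ) - 1) ≤ 1 := by
        rw [div_le_one hl1]
        linarith
      have h3 := t1_pow (k + 1) (1 / ((l : ℝ) - 1)) (by positivity) h2
      rw [← h1] at h3
      have h4 : 1 / ((l : ℝ) - 1) ≤ 2 / l := by
        rw [div_le_div_iff₀ hl1 hl0]
        linarith
      have h5 : ((2 : ℝ) ^ (k + 1) - 1) * (1 / ((l : ℝ) - 1)) ≤ 2 ^ (k + 1) * (2 / l) := by
        refine mul_le_mul (by linarith) h4 (by positivity) (by linarith)
      have h6 : (2 : ℝ) ^ (k + 1) * (2 / l) ≤ (2 * 2 ^ (k + 1) * A + (k + 1) * A) / l := by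
        rw [← mul_div_assoc]
        refine div_le_div_of_nonneg_right ?_ hl0.le
        have h7 : (2 * 2 ^ (k + 1) : ℝ) * 1 ≤ 2 * 2 ^ (k + 1) * A :=
          mul_le_mul_of_nonneg_left hA1 (by positivity)
        linarith
      linarith

/-- Without fixed divisor. Proof. Some `n`, which may be reduced modulo `l` (`P2_sys`-type periodicity, i.e.
`Polynomial.sub_dvd_eval_sub`), is counted in `T1_count`; `(l/(l-1))^k ≥ 1`. -/
theorem T1_low {k : ℕ} (B : ℤ[X]) (P : Fin k → ℤ[X]) (h : Fin k → ℕ) (hN : NoFix (sys B P h)) (l : ℕ)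
    (hl : l.Prime) : 1 / (l : ℝ) ≤ 1 + tpf l (sys B P h) := by
  classical
  have hl2 : (2 : ℝ) ≤ l := by exact_mod_cast hl.two_le
  have hl0 : (0 : ℝ) < l := by linarith
  have hlz : (0 : ℤ) < l := by exact_mod_cast hl.pos
  obtain ⟨n, hn⟩ := hN l hl
  set n' : ℕ := (n % l).toNat with hn'
  have h1 : (n' : ℤ) = n % l := Int.toNat_of_nonneg (Int.emod_nonneg _ hlz.ne')
  have h2 : n' < l := by
    have := Int.emod_lt_of_pos n hlz
    omega
  have h3 : n' ∈ (range l).filter (fun n : ℕ => ∀ i, ¬ (l : ℤ) ∣ sys B P h i n) := by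
    refine mem_filter.2 ⟨mem_range.2 h2, fun i hi => hn i ?_⟩
    have h4 := P2_sys B P h i (l * (n / l)) (n' : ℤ)
    have h5 : (n' : ℤ) + l * (n / l) = n := by
      rw [h1]
      exact Int.emod_add_mul_ediv n l
    rw [h5] at h4
    have h6 : (l : ℤ) ∣ sys B P h i n - sys B P h i n' := (Dvd.intro _ rfl).trans h4
    exact (dvd_sub_left hi).1 h6
  rw [T1_count l hl]
  have h4 : (1 : ℝ) ≤ (((range l).filter (fun n : ℕ => ∀ i, ¬ (l : ℤ) ∣ sys B P h i n)).card : ℝ) := by
    exact_mod_cast Finset.card_pos.2 ⟨n', h3⟩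
  have h5 : (1 : ℝ) ≤ ((l : ℝ) / (l - 1)) ^ (k + 1) := one_le_pow₀ (M3a_ratio l hl)
  calc 1 / (l : ℝ) = 1 / (l : ℝ) * 1 := (mul_one _).symm
    _ ≤ _ := mul_le_mul (div_le_div_of_nonneg_right h4 hl0.le) h5 (by norm_num) (by positivity)

end Pool.Agent.Lib.H24P
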