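import Pool.Agent.Lib.H24P.Defs2
import Pool.Agent.Lib.H24P.P1
import Pool.Agent.Lib.H24P.P2
import Pool.Agent.Lib.H24P.B1
import Pool.Agent.Lib.H59P.M3D

/-!
# Project H24P, chunk T2 (M): the twisted sums as means over a complete period
-/

open Finset Polynomial

namespace Pool.Agent.Lib.H24P

open Pool.Agent.Lib.H68T Pool.Agent.Lib.H18Q Pool.Agent.Lib.H59P

theorem t2_eval (B : ℤ[X]) (hB : B.natDegree = 1) (x : ℤ) :
    B.eval x = B.coeff 0 + B.leadingCoeff * x := by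
  rw [eval_eq_sum_range, hB, Finset.sum_range_succ, Finset.sum_range_one, leadingCoeff, hB]
  ring

theorem t2_not (B : ℤ[X]) (l : ℕ) (h : ¬ l ∣ B.leadingCoeff.natAbs) : ¬ (l : ℤ) ∣ B.leadingCoeff :=
  fun hd => h (Int.natCast_dvd.1 hd)

/-- One prime. -/
theorem t2_one (B : ℤ[X]) (hB : B.natDegree = 1) (l : ℕ) (hl : l.Prime)
    (h : ¬ l ∣ B.leadingCoeff.natAbs) :
    ∑ n ∈ range l, (1 + gl l (B.eval (n : ℤ))) = l := by
  have h1 := b1_lin l hl B.leadingCoeff (B.coeff 0) (t2_not B l h)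
  refine (Finset.sum_congr rfl fun n _ => ?_).trans h1
  rw [t2_eval B hB]

/-- Proof. Induction over `S` (`Finset.induction_on`) with `M3d` of `H59P` (the moduli `l` and `∏_{S'} l` are coprime; `uu` is a
product, `gl_per`); for a prime `l ∤ lc B` the values `B(n)`, `n < l`, run through all classes modulo `l`, so
`∑_{n<l} (1 + gl l (B n)) = (l-1) l/(l-1) = l` and `∑_{n<l} (1 + gl l (B n))² = l²/(l-1)`. -/
theorem T2_unit (B : ℤ[X]) (hB : B.natDegree = 1) (S : Finset ℕ)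
    (hS : ∀ l ∈ S, l.Prime ∧ ¬ l ∣ B.leadingCoeff.natAbs) :
    ∑ n ∈ range (∏ l ∈ S, l), uu S (B.eval (n : ℤ)) = ((∏ l ∈ S, l : ℕ) : ℝ) ∧
    ∑ n ∈ range (∏ l ∈ S, l), (uu S (B.eval (n : ℤ))) ^ 2 =
      ((∏ l ∈ S, l : ℕ) : ℝ) * ∏ l ∈ S, ((l : ℝ) / ((l : ℝ) - 1)) := by
  have hper : ∀ l : ℕ, ∀ n : ℤ, gl l (B.eval (n + l)) = gl l (B.eval n) := by
    intro l n
    rw [t2_eval B hB, t2_eval B hB]
    have h1 : B.coeff 0 + B.leadingCoeff * (n + l) =
        (B.coeff 0 + B.leadingCoeff * n) + B.leadingCoeff * l := by ring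
    rw [h1, gl_per]
  constructor
  · have h1 := b1_set (fun l n => 1 + gl l (B.eval n)) (fun l n => by rw [hper]) S
      (fun l hl => (hS l hl).1)
    unfold uu
    rw [h1, Nat.cast_prod]
    exact Finset.prod_congr rfl fun l hl => t2_one B hB l (hS l hl).1 (hS l hl).2
  · have h1 := b1_set (fun l n => (1 + gl l (B.eval n)) ^ 2) (fun l n => by rw [hper]) S
      (fun l hl => (hS l hl).1)
    unfold uu
    have h2 : ∀ n ∈ range (∏ l ∈ S, l), (∏ l ∈ S, (1 + gl l (B.eval (n : ℤ)))) ^ 2 =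
        ∏ l ∈ S, (1 + gl l (B.eval (n : ℤ))) ^ 2 := fun n _ => (Finset.prod_pow _ _ _).symm
    rw [Finset.sum_congr rfl h2, h1, Nat.cast_prod, ← Finset.prod_mul_distrib]
    refine Finset.prod_congr rfl fun l hl => ?_
    obtain ⟨hlp, hlB⟩ := hS l hl
    have hl1 : (1 : ℝ) < l := by exact_mod_cast hlp.one_lt
    have hl2 : (l : ℝ) - 1 ≠ 0 := by linarith
    have h3 : ∀ m : ℤ, (1 + gl l m) ^ 2 = (1 + gl l m) * ((l : ℝ) / ((l : ℝ) - 1)) := by
      intro m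
      unfold gl
      split_ifs
      · ring
      · have h4 : 1 + 1 / ((l : ℝ) - 1) = (l : ℝ) / ((l : ℝ) - 1) := by
          field_simp
          ring
        rw [h4]
        ring
    simp only [h3]
    rw [← Finset.sum_mul, t2_one B hB l hlp hlB]

/-- Proof. `uu S = uu D uu (S \ D)`; the first factor times `Wdf` has period `∏ D` (`P2_Wd`, `P2_ran`), sum
`(∏ D) tdf` by `B1_mean` (`d = ∏ D` is squarefree with prime factors `D`: `Nat.primeFactors_prod`), the second has period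
`∏ (S \ D)` and sum `∏ (S \ D)` (`T2_unit`): `M3d`. -/
theorem T2_mean {k : ℕ} (B : ℤ[X]) (hB : B.natDegree = 1) (P : Fin k → ℤ[X]) (h : Fin k → ℕ)
    (S D : Finset ℕ) (hS : ∀ l ∈ S, l.Prime ∧ ¬ l ∣ B.leadingCoeff.natAbs) (hD : D ⊆ S) :
    ∑ n ∈ range (∏ l ∈ S, l), uu S (B.eval (n : ℤ)) * Wdf (∏ l ∈ D, l) (at' (ran P h) n) =
      ((∏ l ∈ S, l : ℕ) : ℝ) * tdf (∏ l ∈ D, l) (sys B P h) := by
  classical
  have hDp : (∏ l ∈ D, l).primeFactors = D := Nat.primeFactors_prod fun l hl => (hS l (hD hl)).1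
  have hper : ∀ l : ℕ, ∀ n : ℤ, gl l (B.eval (n + l)) = gl l (B.eval n) := by
    intro l n
    rw [t2_eval B hB, t2_eval B hB]
    have h1 : B.coeff 0 + B.leadingCoeff * (n + l) =
        (B.coeff 0 + B.leadingCoeff * n) + B.leadingCoeff * l := by ring
    rw [h1, gl_per]
  have hperW : ∀ l : ℕ, ∀ n : ℤ, Wf l (at' (ran P h) (n + l)) = Wf l (at' (ran P h) n) := by
    intro l n
    unfold Wf
    congr 1
    refine Finset.prod_congr rfl fun i _ => ?_
    congr 1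
    exact P2_gl (ran P h) (P2_ran P h) l l dvd_rfl i n
  -- one prime
  have hone : ∀ l ∈ S, ∑ n ∈ range l, (1 + gl l (B.eval (n : ℤ))) * Wf l (at' (ran P h) n) =
      l * tpf l (sys B P h) := by
    intro l hl
    obtain ⟨hlp, hlB⟩ := hS l hl
    have h1 := B1_mean B hB P h l hlp.prime.squarefree ((Nat.Prime.coprime_iff_not_dvd hlp).2 hlB)
    have h2 : l.primeFactors = {l} := hlp.primeFactors
    unfold Wdf tdf uu at h1
    rw [h2] at h1
    simp only [Finset.prod_singleton] at h1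
    exact h1
  set F : ℕ → ℤ → ℝ := fun l n =>
    (1 + gl l (B.eval n)) * (if l ∈ D then Wf l (at' (ran P h) n) else 1) with hF
  have h1 := b1_set F (fun l n => by
    rw [hF]
    simp only
    rw [hper, hperW]) S (fun l hl => (hS l hl).1)
  have h2 : ∀ n ∈ range (∏ l ∈ S, l), uu S (B.eval (n : ℤ)) * Wdf (∏ l ∈ D, l) (at' (ran P h) n) =
      ∏ l ∈ S, F l n := by
    intro n _
    unfold uu Wdf
    rw [hDp, hF]
    simp only
    rw [Finset.prod_mul_distrib]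
    congr 1
    rw [Finset.prod_ite_mem, Finset.inter_eq_right.2 hD]
  rw [Finset.sum_congr rfl h2, h1]
  have h3 : ∀ l ∈ S, ∑ n ∈ range l, F l n = (l : ℝ) * (if l ∈ D then tpf l (sys B P h) else 1) := by
    intro l hl
    rw [hF]
    simp only
    split_ifs
    · exact hone l hl
    · simp only [mul_one]
      exact t2_one B hB l (hS l hl).1 (hS l hl).2
  rw [Finset.prod_congr rfl h3, Finset.prod_mul_distrib, Nat.cast_prod]
  congr 1
  unfold tdf
  rw [hDp, Finset.prod_ite_mem, Finset.inter_eq_right.2 hD]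

/-- `j` periods. -/
theorem t2_per (f : ℤ → ℂ) (N : ℕ) (hf : ∀ m, f (m + N) = f m) (j : ℕ) :
    ∑ n ∈ Ico 0 (0 + N * j), f ((n : ℕ) : ℤ) = j * ∑ n ∈ range N, f n := by
  rw [zero_add, ← Finset.range_eq_Ico]
  induction j with
  | zero => simp
  | succ j ih =>
    rw [mul_add, mul_one, Finset.sum_range_add, ih]
    have h1 : ∀ n ∈ range N, f (((N * j + n : ℕ)) : ℤ) = f n := by
      intro n _
      have h2 := m3c_per f N hf j (n : ℤ)
      rw [← h2]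
      congr 1
      push_cast
      ring
    rw [Finset.sum_congr rfl h1]
    push_cast
    ring

/-- The components of the trivial character. -/
theorem t2_comp {k : ℕ} (Z : ℕ) (Δ : Finset ℕ) (hΔ : ∀ d ∈ Δ, Squarefree d ∧ d ≤ Z)
    (m : Fin k → ℤ) :
    ∑ κ ∈ (Fintype.piFinset fun _ : Fin k => KS Z 1).filter (fun κ => univ.lcm κ ∈ Δ),
      ∏ i, gk p0 (κ i) (m i) = ((∑ d ∈ Δ, Wdf d m : ℝ) : ℂ) := by
  classical
  have h0 : ∑ κ ∈ (Fintype.piFinset fun _ : Fin k => KS Z 1).filter (fun κ => univ.lcm κ ∈ Δ),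
      ∏ i, gk p0 (κ i) (m i) = ∑ d ∈ Δ, ∑ κ ∈ ((Fintype.piFinset fun _ : Fin k => KS Z 1).filter
        (fun κ => univ.lcm κ ∈ Δ)).filter (fun κ => univ.lcm κ = d), ∏ i, gk p0 (κ i) (m i) :=
    (Finset.sum_fiberwise_of_maps_to (fun κ hκ => (mem_filter.1 hκ).2) _).symm
  rw [h0, Complex.ofReal_sum]
  refine Finset.sum_congr rfl fun d hd => ?_
  obtain ⟨hsq, hdZ⟩ := hΔ d hd
  rw [← P1_Wd d hsq m]
  refine Finset.sum_congr ?_ fun _ _ => rfl
  ext κ
  simp only [mem_filter, Fintype.mem_piFinset]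
  constructor
  · rintro ⟨⟨h1, h2⟩, h3⟩
    refine ⟨fun i => ?_, h3⟩
    rw [Nat.mem_divisors]
    exact ⟨h3 ▸ Finset.dvd_lcm (mem_univ i), hsq.ne_zero⟩
  · rintro ⟨h1, h2⟩
    refine ⟨⟨fun i => ?_, h2 ▸ hd⟩, h2⟩
    have h3 := Nat.dvd_of_mem_divisors (h1 i)
    rw [CA_mem_KS, Nat.div_one]
    exact ⟨⟨Nat.pos_of_dvd_of_pos h3 (Nat.pos_of_ne_zero hsq.ne_zero),
      (Nat.le_of_dvd (Nat.pos_of_ne_zero hsq.ne_zero) h3).trans hdZ⟩, hsq.squarefree_of_dvd h3,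
      Nat.coprime_one_right _⟩

/-- The sum over `Δ` as a mean over `N = j ∏ S`. Proof. `P1_Wd` for each `d ∈ Δ` (`∏ p0`-components; for `κ` with
`lcm κ = d`, `d` squarefree, `d ≤ Z`: `κ_i ∣ d` iff `κ_i ∈ KS Z 1` given the lcm; `KS Z 1` = squarefree numbers up to `Z`)
gives `∑_{κ ∈ T} ∏ gk p0 (κ i) (m i) = ∑_{d ∈ Δ} Wdf d m`; `T2_mean` with `D = d.primeFactors`; `j` full periods
(`m3c_start` of `H59P`, or induction on `j`). -/
theorem T2_iden {k : ℕ} (B : ℤ[X]) (hB : B.natDegree = 1) (P : Fin k → ℤ[X]) (h : Fin k → ℕ)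
    (S : Finset ℕ) (hS : ∀ l ∈ S, l.Prime ∧ ¬ l ∣ B.leadingCoeff.natAbs) (Z j : ℕ) (hj : 1 ≤ j)
    (Δ : Finset ℕ) (hΔ : ∀ d ∈ Δ, Squarefree d ∧ d ≤ Z ∧ d.primeFactors ⊆ S) :
    ∑ n ∈ Ico 0 (0 + (∏ l ∈ S, l) * j), ((uu S (B.eval (n : ℤ)) : ℝ) : ℂ) *
        ∑ κ ∈ (Fintype.piFinset fun _ : Fin k => KS Z 1).filter (fun κ => univ.lcm κ ∈ Δ),
          ∏ i, gk p0 (κ i) ((P i).eval (n : ℤ) + h i) =
      (((∏ l ∈ S, l) * j : ℕ) : ℂ) * ((∑ d ∈ Δ, tdf d (sys B P h) : ℝ) : ℂ) := by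
  classical
  set N : ℕ := ∏ l ∈ S, l with hN
  have hdvd : ∀ l ∈ S, l ∣ N := fun l hl => Finset.dvd_prod_of_mem (fun l => l) hl
  have hprod : ∀ d ∈ Δ, ∏ l ∈ d.primeFactors, l = d := fun d hd =>
    Nat.prod_primeFactors_of_squarefree (hΔ d hd).1
  have hdN : ∀ d ∈ Δ, d ∣ N := by
    intro d hd
    rw [← hprod d hd, hN]
    exact Finset.prod_dvd_prod_of_subset _ _ _ (hΔ d hd).2.2
  set f : ℤ → ℂ := fun n => ((uu S (B.eval n) * ∑ d ∈ Δ, Wdf d (at' (ran P h) n) : ℝ) : ℂ) with hf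
  have hper : ∀ n : ℤ, f (n + N) = f n := by
    intro n
    rw [hf]
    simp only
    congr 2
    · unfold uu
      refine Finset.prod_congr rfl fun l hl => ?_
      congr 1
      rw [t2_eval B hB, t2_eval B hB]
      obtain ⟨c, hc⟩ := hdvd l hl
      have h1 : B.coeff 0 + B.leadingCoeff * (n + (N : ℤ)) =
          (B.coeff 0 + B.leadingCoeff * n) + (B.leadingCoeff * c) * l := by
        rw [hc]
        push_cast
        ring
      rw [h1, gl_per]
    · refine Finset.sum_congr rfl fun d hd => ?_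
      exact P2_Wd (ran P h) (P2_ran P h) d N (hdN d hd) n
  have h1 : ∀ n ∈ Ico 0 (0 + N * j), ((uu S (B.eval (n : ℤ)) : ℝ) : ℂ) *
        ∑ κ ∈ (Fintype.piFinset fun _ : Fin k => KS Z 1).filter (fun κ => univ.lcm κ ∈ Δ),
          ∏ i, gk p0 (κ i) ((P i).eval (n : ℤ) + h i) = f ((n : ℕ) : ℤ) := by
    intro n _
    have h2 := t2_comp Z Δ (fun d hd => ⟨(hΔ d hd).1, (hΔ d hd).2.1⟩) (at' (ran P h) (n : ℤ))
    have h3 : ∑ κ ∈ (Fintype.piFinset fun _ : Fin k => KS Z 1).filter (fun κ => univ.lcm κ ∈ Δ),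
          ∏ i, gk p0 (κ i) ((P i).eval (n : ℤ) + h i) =
        ((∑ d ∈ Δ, Wdf d (at' (ran P h) (n : ℤ)) : ℝ) : ℂ) := h2
    rw [h3, hf]
    simp only
    rw [Complex.ofReal_mul]
  rw [Finset.sum_congr rfl h1, t2_per f N hper j]
  have h4 : ∑ n ∈ range N, f n = ((N * ∑ d ∈ Δ, tdf d (sys B P h) : ℝ) : ℂ) := by
    rw [hf]
    simp only
    rw [← Complex.ofReal_sum]
    congr 1
    simp only [Finset.mul_sum]
    rw [Finset.sum_comm]
    refine Finset.sum_congr rfl fun d hd => ?_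
    have h5 := T2_mean B hB P h S d.primeFactors hS (hΔ d hd).2.2
    rw [hprod d hd] at h5
    exact h5
  rw [h4]
  push_cast
  ring

end Pool.Agent.Lib.H24P
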