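import Pool.Agent.Lib.H24P.D3
import Pool.Agent.Lib.H24P.G1

/-!
# Project H24P, chunk W1 (M): Fourier uniform weights
-/

open Finset Polynomial

namespace Pool.Agent.Lib.H24P

open Pool.Agent.Lib.H68T Pool.Agent.Lib.H18Q Pool.Agent.Lib.H59P

theorem w1_mul (f : ℤ → ℂ) (q : ℕ) (hf : ∀ m, f (m + q) = f m) (m k : ℤ) :
    f (m + k * q) = f m := by
  induction k using Int.induction_on with
  | zero => simp
  | succ i ih =>
    rw [show m + ((i : ℤ) + 1) * q = m + i * q + q by ring, hf, ih]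
  | pred i ih =>
    have := hf (m + (-(i : ℤ) - 1) * q)
    rw [← this, show m + (-(i : ℤ) - 1) * q + q = m + -(i : ℤ) * q by ring, ih]

/-- A weight without correlation with additive characters against a periodic function. Proof. With
`S_c = ∑_n f(n) e(n c/N)`: `∑_{n ≡ m} f(n) = (1/N) ∑_{c<N} e(-c m/N) S_c`, so the sum is
`∑_{m<N} ψ(m) (1/N) ∑_c e(-c m/N) S_c`, at most `N Φ δ`. -/
theorem W1_per (f : ℕ → ℂ) (I : Finset ℕ) (δ : ℝ)
    (hf : ∀ θ : ℝ, ‖∑ n ∈ I, f n * e ((n : ℝ) * θ)‖ ≤ δ) (N : ℕ) (hN : 0 < N) (ψ : ℤ → ℂ)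
    (hψ : ∀ n, ψ (n + N) = ψ n) (Φ : ℝ) (hΦ : ∀ n, ‖ψ n‖ ≤ Φ) :
    ‖∑ n ∈ I, f n * ψ n‖ ≤ N * Φ * δ := by
  have hδ : 0 ≤ δ := (norm_nonneg _).trans (hf 0)
  have hΦ0 : 0 ≤ Φ := (norm_nonneg _).trans (hΦ 0)
  have hNr : (0 : ℝ) < N := by exact_mod_cast hN
  have hNc : (N : ℂ) ≠ 0 := by exact_mod_cast hN.ne'
  have h1 : ∀ n : ℕ, ψ (n : ℤ) = ∑ m ∈ range N, if (N : ℤ) ∣ (n : ℤ) - m then ψ (m : ℤ) else 0 := by
    intro n
    have h2 : ψ (n : ℤ) = ψ ((n % N : ℕ) : ℤ) := by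
      have h3 : (n : ℤ) = ((n % N : ℕ) : ℤ) + ((n / N : ℕ) : ℤ) * N := by
        have h4 := Nat.mod_add_div' n N
        exact_mod_cast h4.symm
      rw [h3]
      exact w1_mul ψ N hψ _ _
    rw [sum_eq_single (n % N)]
    · rw [if_pos, h2]
      have h4 : ((n : ℤ) - ((n % N : ℕ) : ℤ)) = N * ((n / N : ℕ) : ℤ) := by
        have h5 := Nat.mod_add_div n N
        have h6 : ((n % N : ℕ) : ℤ) + N * ((n / N : ℕ) : ℤ) = n := by exact_mod_cast h5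
        linarith
      rw [h4]
      exact dvd_mul_right _ _
    · intro m hm hne
      rw [if_neg]
      intro hd
      apply hne
      have h4 := mem_range.mp hm
      have h5 : m % N = n % N := by
        have h6 : (m : ℤ) ≡ n [ZMOD N] := Int.modEq_iff_dvd.mpr hd
        have h7 : m ≡ n [MOD N] := (Int.natCast_modEq_iff).mp h6
        exact h7
      rw [← h5, Nat.mod_eq_of_lt h4]
    · intro h
      exact absurd (mem_range.mpr (Nat.mod_lt n hN)) h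
  have h2 : ∀ n : ℕ, ψ (n : ℤ) = (N : ℂ)⁻¹ * ∑ c ∈ range N,
      (∑ m ∈ range N, ψ (m : ℤ) * e (-(c * ((m : ℝ) / N)))) * e ((n : ℝ) * (c / N)) := by
    intro n
    have h3 : ∑ c ∈ range N, (∑ m ∈ range N, ψ (m : ℤ) * e (-(c * ((m : ℝ) / N)))) * e ((n : ℝ) * (c / N))
        = ∑ m ∈ range N, ψ (m : ℤ) * ∑ c ∈ range N, e (c * ((((n : ℤ) - m : ℤ) : ℝ) / N)) := by
      simp_rw [sum_mul, mul_sum]
      rw [sum_comm]
      refine sum_congr rfl fun m _ => sum_congr rfl fun c _ => ?_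
      rw [mul_assoc, ← CQ1_e_add]
      congr 2
      push_cast
      field_simp
      ring
    rw [h3, h1 n, mul_sum]
    refine sum_congr rfl fun m _ => ?_
    rw [CQ1_geom N hN]
    split_ifs
    · field_simp
    · simp
  have h3 : ∑ n ∈ I, f n * ψ n = (N : ℂ)⁻¹ * ∑ c ∈ range N,
      (∑ m ∈ range N, ψ (m : ℤ) * e (-(c * ((m : ℝ) / N)))) * ∑ n ∈ I, f n * e ((n : ℝ) * (c / N)) := by
    have h4 : ∀ n ∈ I, f n * ψ n = ∑ c ∈ range N, (N : ℂ)⁻¹ *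
        ((∑ m ∈ range N, ψ (m : ℤ) * e (-(c * ((m : ℝ) / N)))) * (f n * e ((n : ℝ) * (c / N)))) := by
      intro n _
      rw [h2 n, ← mul_sum, mul_left_comm, mul_sum]
      congr 1
      refine sum_congr rfl fun c _ => ?_
      ring
    rw [sum_congr rfl h4, sum_comm, mul_sum]
    refine sum_congr rfl fun c _ => ?_
    rw [← mul_sum, ← mul_sum]
  rw [h3, norm_mul, norm_inv]
  have h5 : ‖∑ c ∈ range N, (∑ m ∈ range N, ψ (m : ℤ) * e (-(c * ((m : ℝ) / N)))) *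
      ∑ n ∈ I, f n * e ((n : ℝ) * (c / N))‖ ≤ N * (N * Φ * δ) := by
    refine (norm_sum_le _ _).trans ?_
    have h6 : ∀ c ∈ range N, ‖(∑ m ∈ range N, ψ (m : ℤ) * e (-(c * ((m : ℝ) / N)))) *
        ∑ n ∈ I, f n * e ((n : ℝ) * (c / N))‖ ≤ N * Φ * δ := by
      intro c _
      rw [norm_mul]
      refine mul_le_mul ?_ (hf _) (norm_nonneg _) (by positivity)
      refine (norm_sum_le _ _).trans ?_
      have h7 : ∀ m ∈ range N, ‖ψ (m : ℤ) * e (-(c * ((m : ℝ) / N)))‖ ≤ Φ := by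
        intro m _
        have h8 : ‖e (-(c * ((m : ℝ) / N)))‖ = 1 := by
          unfold e
          have h9 : (2 * Real.pi * ((-(c * ((m : ℝ) / N)) : ℝ) : ℂ) * Complex.I : ℂ)
              = ((2 * Real.pi * (-(c * ((m : ℝ) / N))) : ℝ) : ℂ) * Complex.I := by push_cast; ring
          rw [h9, Complex.norm_exp_ofReal_mul_I]
        rw [norm_mul, h8, mul_one]
        exact hΦ _
      refine (sum_le_sum h7).trans ?_
      rw [sum_const, card_range, nsmul_eq_mul]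
    refine (sum_le_sum h6).trans ?_
    rw [sum_const, card_range, nsmul_eq_mul]
  have h10 : ‖(N : ℂ)‖ = N := by simp
  rw [h10]
  calc (N : ℝ)⁻¹ * _ ≤ (N : ℝ)⁻¹ * (N * (N * Φ * δ)) :=
        mul_le_mul_of_nonneg_left h5 (by positivity)
    _ = N * Φ * δ := by field_simp

/-- The components with bounded moduli. Proof. `κ ∈ T` have `r_i κ_i ≤ D`, so there are at most `D^k` of them,
`‖gk (p i) κ_i m‖ ≤ r_i ≤ D` (`gk_bound` with `Q = D`... or directly as in its proof: `r/φ(r) ≤ r` and the other factors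
are at most `1`), the product has period `lcm(r_i κ_i) ≤ D` in `n` (`gk_period`, `Polynomial.sub_dvd_eval_sub`):
`W1_per`. -/
theorem W1_small {k : ℕ} (P : Fin k → ℤ[X]) (Q D : ℕ) (hD : 1 ≤ D) (p : Fin k → Ch)
    (hp : ∀ i, p i ∈ PC Q) (T : Finset (Fin k → ℕ)) (hT : T ⊆ Fintype.piFinset (fun i => KS Q (p i).1))
    (hTD : ∀ κ ∈ T, univ.lcm (fun i => (p i).1 * κ i) ≤ D) (f : ℕ → ℂ) (I : Finset ℕ) (δ : ℝ)
    (hf : ∀ θ : ℝ, ‖∑ n ∈ I, f n * e ((n : ℝ) * θ)‖ ≤ δ) (h : Fin k → ℕ) :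
    ‖∑ n ∈ I, f n * ∑ κ ∈ T, ∏ i, gk (p i) (κ i) ((P i).eval (n : ℤ) + h i)‖ ≤
      (D : ℝ) ^ (2 * k + 1) * δ := by
  have hδ : 0 ≤ δ := (norm_nonneg _).trans (hf 0)
  have hDr : (1 : ℝ) ≤ D := by exact_mod_cast hD
  have h1 : ∑ n ∈ I, f n * ∑ κ ∈ T, ∏ i, gk (p i) (κ i) ((P i).eval (n : ℤ) + h i)
      = ∑ κ ∈ T, ∑ n ∈ I, f n * ∏ i, gk (p i) (κ i) ((P i).eval (n : ℤ) + h i) := by
    simp_rw [mul_sum]
    exact sum_comm
  rw [h1]
  refine (norm_sum_le _ _).trans ?_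
  have hKS : ∀ κ ∈ T, ∀ i, κ i ∈ KS Q (p i).1 := fun κ hκ i => Fintype.mem_piFinset.mp (hT hκ) i
  have hle : ∀ κ ∈ T, ∀ i, (p i).1 * κ i ≤ D := by
    intro κ hκ i
    have hpos : 0 < univ.lcm (fun i => (p i).1 * κ i) := by
      rw [Nat.pos_iff_ne_zero, Ne, Finset.lcm_eq_zero_iff]
      rintro ⟨j, -, hj⟩
      have h2 := (mem_PC.1 (hp j)).1
      have h3 := (CA_mem_KS.1 (hKS κ hκ j)).1
      have h4 : 1 ≤ κ j := h3.1
      have h5 : 0 < (p j).1 * κ j := Nat.mul_pos h2 h4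
      omega
    exact (Nat.le_of_dvd hpos (dvd_lcm (mem_univ i))).trans (hTD κ hκ)
  have h2 : ∀ κ ∈ T, ‖∑ n ∈ I, f n * ∏ i, gk (p i) (κ i) ((P i).eval (n : ℤ) + h i)‖
      ≤ (D : ℝ) ^ (k + 1) * δ := by
    intro κ hκ
    set N : ℕ := univ.lcm (fun i => (p i).1 * κ i) with hN
    have hND : N ≤ D := hTD κ hκ
    have hN0 : 0 < N := by
      rw [Nat.pos_iff_ne_zero, hN, Ne, Finset.lcm_eq_zero_iff]
      rintro ⟨j, -, hj⟩
      have h2 := (mem_PC.1 (hp j)).1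
      have h3 := (CA_mem_KS.1 (hKS κ hκ j)).1
      have h4 : 1 ≤ κ j := h3.1
      have h5 : 0 < (p j).1 * κ j := Nat.mul_pos h2 h4
      omega
    have h3 := W1_per f I δ hf N hN0 (fun n => ∏ i, gk (p i) (κ i) ((P i).eval n + h i)) (by
      intro n
      refine prod_congr rfl fun i _ => ?_
      have h4 : (((p i).1 * κ i : ℕ) : ℤ) ∣ (P i).eval (n + N) - (P i).eval n := by
        have h5 : (n + (N : ℤ)) - n ∣ (P i).eval (n + N) - (P i).eval n := sub_dvd_eval_sub _ _ _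
        rw [add_sub_cancel_left] at h5
        refine dvd_trans ?_ h5
        have h6 : (p i).1 * κ i ∣ N := dvd_lcm (mem_univ i)
        exact_mod_cast h6
      obtain ⟨j, hj⟩ := h4
      have h7 : (P i).eval (n + N) + (h i : ℤ) = ((P i).eval n + h i) + (((p i).1 * κ i : ℕ) : ℤ) * j := by
        linarith
      rw [h7]
      exact gk_period _ _ _ _) ((D : ℝ) ^ k) (by
      intro n
      rw [norm_prod]
      calc ∏ i, ‖gk (p i) (κ i) ((P i).eval n + h i)‖ ≤ ∏ _i : Fin k, (D : ℝ) := by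
            refine prod_le_prod (fun i _ => norm_nonneg _) fun i _ => ?_
            obtain ⟨hr1, hrQ, hprim⟩ := mem_PC.1 (hp i)
            obtain ⟨hI, hsq, hcop⟩ := CA_mem_KS.1 (hKS κ hκ i)
            have hk1 : 1 ≤ κ i := hI.1
            have hiD := hle κ hκ i
            refine gk_bound D (p i) (mem_PC.2 ⟨hr1, ?_, hprim⟩) (κ i) (CA_mem_KS.2 ⟨?_, hsq, hcop⟩) _
            · exact (Nat.le_mul_of_pos_right _ hk1).trans hiD
            · refine ⟨hk1, ?_⟩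
              rw [Nat.le_div_iff_mul_le hr1, mul_comm]
              exact hiD
        _ = (D : ℝ) ^ k := by rw [prod_const, card_univ, Fintype.card_fin])
    refine h3.trans ?_
    have hNr : (N : ℝ) ≤ D := by exact_mod_cast hND
    calc (N : ℝ) * (D : ℝ) ^ k * δ ≤ D * (D : ℝ) ^ k * δ := by gcongr
      _ = (D : ℝ) ^ (k + 1) * δ := by ring
  refine (sum_le_sum h2).trans ?_
  rw [sum_const, nsmul_eq_mul]
  have hcard : (T.card : ℝ) ≤ (D : ℝ) ^ k := by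
    have h3 : T ⊆ Fintype.piFinset (fun _ : Fin k => Icc 1 D) := by
      intro κ hκ
      refine Fintype.mem_piFinset.mpr fun i => ?_
      obtain ⟨hI, -, -⟩ := CA_mem_KS.1 (hKS κ hκ i)
      have hr1 := (mem_PC.1 (hp i)).1
      refine mem_Icc.mpr ⟨hI.1, ?_⟩
      exact (Nat.le_mul_of_pos_left _ hr1).trans (hle κ hκ i)
    have h4 := card_le_card h3
    rw [Fintype.card_piFinset] at h4
    simp only [Nat.card_Icc, add_tsub_cancel_right, prod_const, card_univ, Fintype.card_fin] at h4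
    exact_mod_cast h4
  calc (T.card : ℝ) * ((D : ℝ) ^ (k + 1) * δ) ≤ (D : ℝ) ^ k * ((D : ℝ) ^ (k + 1) * δ) :=
        mul_le_mul_of_nonneg_right hcard (by positivity)
    _ = (D : ℝ) ^ (2 * k + 1) * δ := by ring

/-- **W1.** Proof. `∏ Fc = ∑_κ ∏ gk` (`Finset.prod_univ_sum`). `D = fl Q (1/(2k+2))`. The `κ` with `lcm(r_i κ_i) > D`:
`Fgen`, with `D^(-cc) ≤ 2 Q^(-cc/(2k+2))` (`G1_neg`). The others: `W1_small` with `δ = H/Q²`, `D^(2k+1) ≤ Q`: at most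
`H/Q` for each `h`. `‖x + y‖² ≤ 2‖x‖² + 2‖y‖²`. -/
theorem W1_cell (k A : ℕ) (hA : 1 ≤ A) : ∃ C c : ℝ, 1 ≤ C ∧ 0 < c ∧ c ≤ 1 ∧
    ∀ P : Fin k → ℤ[X], Pol A P → ∀ Q : ℕ, 1 ≤ Q → ∀ p : Fin k → Ch, (∀ i, p i ∈ PC Q) →
    ∀ b s : Fin k → ℕ, (∀ i, Q ^ 4 ≤ s i) → ∀ a H : ℕ, Q ≤ H → ∀ (f : ℕ → ℂ) (Ws : ℝ), 0 ≤ Ws →
    ∑ n ∈ Ico a (a + H), ‖f n‖ ^ 2 ≤ H * Ws →
    (∀ θ : ℝ, ‖∑ n ∈ Ico a (a + H), f n * e ((n : ℝ) * θ)‖ ≤ H / (Q : ℝ) ^ 2) →
    ∑ h ∈ cub b s, ‖∑ n ∈ Ico a (a + H), f n *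
        ∏ i, Fc Q (p i) ((P i).eval (n : ℤ) + h i)‖ ^ 2 ≤
      vol s * H ^ 2 * (C * (1 + Real.log Q) ^ C * (Ws + 1) * (Q : ℝ) ^ (-c)) := by
  classical
  obtain ⟨Cc, cc, hCc, hcc0, hcc1, hF⟩ := Fgen k A hA
  set x : ℝ := 1 / (2 * k + 2) with hx
  have hx0 : 0 < x := by positivity
  have hx1 : x ≤ 1 := by
    rw [hx, div_le_one (by positivity)]
    have : (0 : ℝ) ≤ k := by positivity
    linarith
  refine ⟨4 * Cc + 2, cc * x, by linarith, mul_pos hcc0 hx0, ?_, ?_⟩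
  · calc cc * x ≤ 1 * 1 := mul_le_mul hcc1 hx1 hx0.le zero_le_one
      _ = 1 := one_mul 1
  intro P hP Q hQ p hp b s hs a H hQH f Ws hWs hf2 hfe
  set D : ℕ := fl Q x with hD
  obtain ⟨hD1, hD2, -⟩ := G1_one hQ hx0.le
  rw [← hD] at hD1 hD2
  have hQr : (1 : ℝ) ≤ Q := by exact_mod_cast hQ
  have hQp : (0 : ℝ) < Q := by linarith
  have hHr : (0 : ℝ) ≤ H := by positivity
  have hvol : 0 ≤ vol s := by
    unfold vol
    positivity
  have hl : 0 ≤ Real.log Q := Real.log_natCast_nonneg Q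
  set T0 := Fintype.piFinset (fun i => KS Q (p i).1) with hT0
  set T1 := T0.filter (fun κ => univ.lcm (fun i => (p i).1 * κ i) ≤ D) with hT1
  set T2 := T0.filter (fun κ => ¬ univ.lcm (fun i => (p i).1 * κ i) ≤ D) with hT2
  have hsplit : ∀ h : Fin k → ℕ, ∑ n ∈ Ico a (a + H), f n * ∏ i, Fc Q (p i) ((P i).eval (n : ℤ) + h i)
      = ∑ n ∈ Ico a (a + H), f n * ∑ κ ∈ T1, ∏ i, gk (p i) (κ i) ((P i).eval (n : ℤ) + h i)
        + ∑ n ∈ Ico a (a + H), f n * ∑ κ ∈ T2, ∏ i, gk (p i) (κ i) ((P i).eval (n : ℤ) + h i) := by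
    intro h
    rw [← sum_add_distrib]
    refine sum_congr rfl fun n _ => ?_
    rw [← mul_add, hT1, hT2, sum_filter_add_sum_filter_not]
    congr 1
    unfold Fc
    rw [hT0, prod_univ_sum]
  have hA1 : ∀ h : Fin k → ℕ,
      ‖∑ n ∈ Ico a (a + H), f n * ∑ κ ∈ T1, ∏ i, gk (p i) (κ i) ((P i).eval (n : ℤ) + h i)‖ ≤ H / Q := by
    intro h
    have h1 := W1_small P Q D hD1 p hp T1 (filter_subset _ _) (fun κ hκ => (mem_filter.mp hκ).2) f
      (Ico a (a + H)) (H / (Q : ℝ) ^ 2) hfe h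
    refine h1.trans ?_
    have h2 : (D : ℝ) ^ (2 * k + 1) ≤ Q := by
      calc (D : ℝ) ^ (2 * k + 1) ≤ ((Q : ℝ) ^ x) ^ (2 * k + 1) :=
            pow_le_pow_left₀ (by positivity) hD2 _
        _ = (Q : ℝ) ^ (x * ((2 * k + 1 : ℕ) : ℝ)) := by
            rw [← Real.rpow_natCast, ← Real.rpow_mul hQp.le]
        _ ≤ (Q : ℝ) ^ (1 : ℝ) := by
            refine Real.rpow_le_rpow_of_exponent_le hQr ?_
            rw [hx, div_mul_eq_mul_div, one_mul, div_le_one (by positivity)]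
            push_cast
            linarith
        _ = Q := Real.rpow_one _
    calc (D : ℝ) ^ (2 * k + 1) * (H / (Q : ℝ) ^ 2) ≤ Q * (H / (Q : ℝ) ^ 2) :=
          mul_le_mul_of_nonneg_right h2 (by positivity)
      _ = H / Q := by field_simp
  have hcard : ((cub b s).card : ℝ) = vol s := by
    unfold cub vol
    rw [Fintype.card_piFinset]
    simp
  have hA2 : ∑ h ∈ cub b s,
      ‖∑ n ∈ Ico a (a + H), f n * ∑ κ ∈ T1, ∏ i, gk (p i) (κ i) ((P i).eval (n : ℤ) + h i)‖ ^ 2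
      ≤ vol s * H ^ 2 * (Q : ℝ) ^ (-(cc * x)) := by
    have h1 : ∀ h ∈ cub b s,
        ‖∑ n ∈ Ico a (a + H), f n * ∑ κ ∈ T1, ∏ i, gk (p i) (κ i) ((P i).eval (n : ℤ) + h i)‖ ^ 2
        ≤ (H / Q) ^ 2 := fun h _ => pow_le_pow_left₀ (norm_nonneg _) (hA1 h) 2
    refine (sum_le_sum h1).trans ?_
    rw [sum_const, nsmul_eq_mul, hcard, div_pow, mul_assoc]
    refine mul_le_mul_of_nonneg_left ?_ hvol
    rw [div_eq_mul_inv]
    refine mul_le_mul_of_nonneg_left ?_ (by positivity)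
    have h2 : ((Q : ℝ) ^ 2)⁻¹ = (Q : ℝ) ^ (-(2 : ℝ)) := by
      rw [Real.rpow_neg hQp.le, Real.rpow_ofNat]
    rw [h2]
    refine Real.rpow_le_rpow_of_exponent_le hQr ?_
    have h3 : cc * x ≤ 1 * 1 := mul_le_mul hcc1 hx1 hx0.le zero_le_one
    linarith
  have hB := hF P hP Q hQ p hp T2 (filter_subset _ _) D hD1
    (fun κ hκ => not_le.mp (mem_filter.mp hκ).2) b s hs a H hQH f
  have hneg : (D : ℝ) ^ (-cc) ≤ 2 * (Q : ℝ) ^ (-(cc * x)) := by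
    refine (G1_neg hQ hx0.le hcc0.le).trans ?_
    refine mul_le_mul_of_nonneg_right ?_ (by positivity)
    calc (2 : ℝ) ^ cc ≤ 2 ^ (1 : ℝ) := Real.rpow_le_rpow_of_exponent_le (by norm_num) hcc1
      _ = 2 := Real.rpow_one 2
  set E : ℝ := (Q : ℝ) ^ (-(cc * x)) with hE
  have hE0 : 0 < E := by positivity
  set Lg : ℝ := (1 + Real.log Q) ^ (4 * Cc + 2) with hLg
  have hLg1 : 1 ≤ Lg := Real.one_le_rpow (by linarith) (by linarith)
  have hLg2 : (1 + Real.log Q) ^ Cc ≤ Lg :=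
    Real.rpow_le_rpow_of_exponent_le (by linarith) (by linarith)
  have hLc0 : 0 ≤ (1 + Real.log Q) ^ Cc := by positivity
  have hB2 : ∑ h ∈ cub b s,
      ‖∑ n ∈ Ico a (a + H), f n * ∑ κ ∈ T2, ∏ i, gk (p i) (κ i) ((P i).eval (n : ℤ) + h i)‖ ^ 2
      ≤ vol s * H ^ 2 * (2 * Cc * Lg * Ws * E) := by
    refine hB.trans ?_
    calc Cc * (1 + Real.log Q) ^ Cc * vol s * (H * ∑ n ∈ Ico a (a + H), ‖f n‖ ^ 2) * (D : ℝ) ^ (-cc)
        ≤ Cc * Lg * vol s * (H * (H * Ws)) * (2 * E) := by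
          have h0 : 0 ≤ ∑ n ∈ Ico a (a + H), ‖f n‖ ^ 2 := sum_nonneg fun _ _ => by positivity
          have h1 : 0 ≤ (D : ℝ) ^ (-cc) := by positivity
          gcongr
      _ = vol s * H ^ 2 * (2 * Cc * Lg * Ws * E) := by ring
  have h4 : ∀ h ∈ cub b s, ‖∑ n ∈ Ico a (a + H), f n *
        ∏ i, Fc Q (p i) ((P i).eval (n : ℤ) + h i)‖ ^ 2
      ≤ 2 * ‖∑ n ∈ Ico a (a + H), f n * ∑ κ ∈ T1, ∏ i, gk (p i) (κ i) ((P i).eval (n : ℤ) + h i)‖ ^ 2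
        + 2 * ‖∑ n ∈ Ico a (a + H), f n * ∑ κ ∈ T2, ∏ i, gk (p i) (κ i) ((P i).eval (n : ℤ) + h i)‖ ^ 2 := by
    intro h _
    rw [hsplit h]
    generalize (∑ n ∈ Ico a (a + H), f n * ∑ κ ∈ T1, ∏ i, gk (p i) (κ i) ((P i).eval (n : ℤ) + h i)) = z1
    generalize (∑ n ∈ Ico a (a + H), f n * ∑ κ ∈ T2, ∏ i, gk (p i) (κ i) ((P i).eval (n : ℤ) + h i)) = z2
    have h5 := norm_add_le z1 z2
    have h6 : ‖z1 + z2‖ ^ 2 ≤ (‖z1‖ + ‖z2‖) ^ 2 := pow_le_pow_left₀ (norm_nonneg _) h5 2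
    nlinarith [sq_nonneg (‖z1‖ - ‖z2‖)]
  refine (sum_le_sum h4).trans ?_
  rw [sum_add_distrib, ← mul_sum, ← mul_sum]
  have h7 : 2 * (vol s * (H : ℝ) ^ 2 * E) + 2 * (vol s * H ^ 2 * (2 * Cc * Lg * Ws * E))
      ≤ vol s * H ^ 2 * ((4 * Cc + 2) * Lg * (Ws + 1) * E) := by
    have h8 : 2 * (vol s * (H : ℝ) ^ 2 * E) + 2 * (vol s * H ^ 2 * (2 * Cc * Lg * Ws * E))
        = vol s * H ^ 2 * ((2 + 4 * Cc * Lg * Ws) * E) := by ring
    rw [h8]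
    refine mul_le_mul_of_nonneg_left ?_ (by positivity)
    refine mul_le_mul_of_nonneg_right ?_ hE0.le
    nlinarith [mul_nonneg (by linarith : 0 ≤ Lg) hWs, mul_nonneg (by linarith : 0 ≤ Cc) (by linarith : 0 ≤ Lg)]
  linarith

end Pool.Agent.Lib.H24P
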