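import Pool.Agent.Lib.H24P.D3
import Pool.Agent.Lib.H24P.B1
import Pool.Agent.Lib.H24P.P0
import Pool.Agent.Lib.H59P.X1
import Pool.Agent.Lib.H59P.M3B

/-!
# Project H24P, chunk X1A (M): a twisted mean value with a random coordinate twisted
-/

open Finset Polynomial

namespace Pool.Agent.Lib.H24P

open Pool.Agent.Lib.H68T Pool.Agent.Lib.H18Q Pool.Agent.Lib.H59P

/-- The set of the `κ` for the level `r`: `κ i = 1` at twisted coordinates, a divisor of the radical of `r` at the others.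
(Chunks X1A, X1B.) -/
noncomputable def KT {k : ℕ} (px : Ch) (Bs : Finset (Fin k)) : Finset (Fin k → ℕ) :=
  open Classical in Fintype.piFinset fun i =>
    if i ∈ Bs then {1} else (∏ l ∈ px.1.primeFactors, l).divisors

theorem x1a_SD1 (r : ℕ) (hr : 1 ≤ r) : SD r r = {1} := by
  classical
  ext s
  rw [SD, Finset.mem_filter, Finset.mem_singleton, Nat.mem_divisors]
  constructor
  · rintro ⟨⟨h1, _⟩, _, h3⟩
    exact Nat.Coprime.eq_one_of_dvd h3 h1
  · rintro rfl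
    exact ⟨⟨one_dvd _, by omega⟩, squarefree_one, Nat.coprime_one_left r⟩

theorem x1a_rad (r : ℕ) : Squarefree (∏ l ∈ r.primeFactors, l) := by
  rw [← Nat.radical_eq_prod_primeFactors]
  exact UniqueFactorizationMonoid.squarefree_radical

theorem x1a_SD2 (r : ℕ) (hr : 1 ≤ r) : SD r 1 = (∏ l ∈ r.primeFactors, l).divisors := by
  classical
  ext s
  rw [SD, Finset.mem_filter, Nat.mem_divisors, Nat.mem_divisors]
  constructor
  · rintro ⟨⟨h1, _⟩, h2, _⟩
    refine ⟨?_, (x1a_rad r).ne_zero⟩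
    rw [← Nat.prod_primeFactors_of_squarefree h2]
    exact Finset.prod_dvd_prod_of_subset _ _ _ (Nat.primeFactors_mono h1 (by omega))
  · rintro ⟨h1, _⟩
    exact ⟨⟨h1.trans (Nat.prod_primeFactors_dvd r), by omega⟩, (x1a_rad r).squarefree_of_dvd h1,
      Nat.coprime_one_right s⟩

/-- Proof. `r = px.1`. For `i ∈ Bs`: `cj px m uu r.primeFactors m = gk px 1 m` (both are
`(r/φ(r)) cj px m`: if `cj px m ≠ 0` then `m` is coprime to `r`: `x1_uu_unit`; `gk` with `κ = 1`: `M2a` of `H59P` or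
`B1_SD` with `N = r`, `SD r r = {1}`). For `i ∉ Bs`: `uu r.primeFactors m = ∑_{κ ∣ rad r} gk p0 κ m` (`B1_SD` with `p = p0`,
`N = r` or directly `Finset.prod_one_add`-type expansion, `M2a`). `Finset.prod_univ_sum`. -/
theorem X1A_expand {k : ℕ} (Q : ℕ) (px : Ch) (hpx : px ∈ PC Q) (Bs : Finset (Fin k)) (m : Fin k → ℤ) :
    ∏ i, (cj (pB px Bs i) (m i) * ((uu px.1.primeFactors (m i) : ℝ) : ℂ)) =
      ∑ κ ∈ KT px Bs, ∏ i, gk (pB px Bs i) (κ i) (m i) := by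
  classical
  obtain ⟨hr1, -, -⟩ := mem_PC.1 hpx
  unfold KT
  refine Eq.trans ?_ (Finset.prod_univ_sum (fun i : Fin k => if i ∈ Bs then ({1} : Finset ℕ) else
    (∏ l ∈ px.1.primeFactors, l).divisors) (fun i κ => gk (pB px Bs i) κ (m i)))
  refine Finset.prod_congr rfl fun i _ => ?_
  by_cases hi : i ∈ Bs
  · have hp : pB px Bs i = px := by
      unfold pB
      rw [if_pos hi]
    rw [if_pos hi, hp, ← B1_SD px.1 hr1 px dvd_rfl (m i), x1a_SD1 px.1 hr1]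
  · have hp : pB px Bs i = p0 := by
      unfold pB
      rw [if_neg hi]
    rw [if_neg hi, hp, ← B1_SD px.1 hr1 p0 (one_dvd _) (m i)]
    have h0 : (p0 : Ch).1 = 1 := rfl
    rw [h0, x1a_SD2 px.1 hr1]

/-- `KT` at the level `r`. Proof. `KS r r = {1}`, `KS r 1` = the squarefree numbers up to `r`; divisors of the radical of
`r` are squarefree and at most `r`. -/
theorem X1A_sub {k : ℕ} (Q : ℕ) (px : Ch) (hpx : px ∈ PC Q) (Bs : Finset (Fin k)) :
    KT px Bs ⊆ Fintype.piFinset (fun i => KS px.1 (pB px Bs i).1) ∧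
      ∀ i, pB px Bs i ∈ PC px.1 := by
  classical
  obtain ⟨hr1, -, hprim⟩ := mem_PC.1 hpx
  refine ⟨?_, ?_⟩
  · unfold KT
    refine Fintype.piFinset_subset _ _ fun i => ?_
    by_cases hi : i ∈ Bs
    · have hp : pB px Bs i = px := by
        unfold pB
        rw [if_pos hi]
      rw [if_pos hi, hp, Finset.singleton_subset_iff, KS, Finset.mem_filter, Finset.mem_Icc]
      refine ⟨⟨le_rfl, ?_⟩, squarefree_one, Nat.coprime_one_left _⟩
      rw [Nat.div_self hr1]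
    · have hp : pB px Bs i = p0 := by
        unfold pB
        rw [if_neg hi]
      have h0 : (p0 : Ch).1 = 1 := rfl
      rw [if_neg hi, hp, h0]
      intro s hs
      rw [Nat.mem_divisors] at hs
      have h1 := hs.1.trans (Nat.prod_primeFactors_dvd px.1)
      rw [KS, Finset.mem_filter, Finset.mem_Icc, Nat.div_one]
      refine ⟨⟨?_, Nat.le_of_dvd hr1 h1⟩, (x1a_rad px.1).squarefree_of_dvd hs.1, Nat.coprime_one_right s⟩
      exact Nat.pos_of_dvd_of_pos h1 hr1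
  · intro i
    by_cases hi : i ∈ Bs
    · have hp : pB px Bs i = px := by
        unfold pB
        rw [if_pos hi]
      rw [hp]
      exact mem_PC.2 ⟨hr1, le_rfl, hprim⟩
    · have hp : pB px Bs i = p0 := by
        unfold pB
        rw [if_neg hi]
      rw [hp]
      exact p0_mem hr1

/-- **X1A.** Proof. `MRf (pB px Bs) r (sys B P h) = (1/r) ∑_{n<r} w(n) ∏_{i} (…)(P_i(n) + h_i)` with
`w(n) = cj (pB px Bs 0) (B n) uu r.primeFactors (B n)`, `‖w‖ ≤ r/φ(r) ≤ 2 (1 + log r)` (`M3a_uu`, `M3b`, `x1_cj_norm`), and the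
product over the random coordinates is `∑_{κ ∈ KT px Bs'} ∏ gk` with `Bs'` = the `i` with `i.succ ∈ Bs` (`X1A_expand`,
`Fin.prod_univ_succ`). `Fgen` at the level `r`, `T = KT px Bs'`, `D = r - 1 ≥ 1` (the least common multiple is divisible by
`(p i).1 κ_i = r` for `i ∈ Bs'`, so it is `≥ r`), `a = 0`, `H = r`. `(r-1)^(-cc) ≤ 2 r^(-cc)`. -/
theorem X1A_main (k A : ℕ) (hA : 1 ≤ A) : ∃ C c : ℝ, 1 ≤ C ∧ 0 < c ∧ c ≤ 1 ∧ ∀ B : ℤ[X], Lin A B →
    ∀ P : Fin k → ℤ[X], Pol A P → ∀ (Q : ℕ) (px : Ch), px ∈ PC Q → 2 ≤ px.1 →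
    ∀ Bs : Finset (Fin (k + 1)), (∃ i : Fin k, i.succ ∈ Bs) → ∀ b s : Fin k → ℕ,
    (∀ i, px.1 ^ 4 ≤ s i) →
    ∑ h ∈ cub b s, ‖MRf (pB px Bs) px.1 (sys B P h)‖ ^ 2 ≤
      C * (1 + Real.log px.1) ^ C * vol s * (px.1 : ℝ) ^ (-c) := by
  classical
  obtain ⟨Cc, cc, hCc1, hcc0, hcc1, hF⟩ := Fgen k A hA
  refine ⟨8 * Cc + 2, cc, by linarith, hcc0, hcc1, ?_⟩
  intro B _hB P hP Q px hpx hr2 Bs hBs b s hs
  obtain ⟨hr1, -, hprim⟩ := mem_PC.1 hpx
  obtain ⟨i0, hi0⟩ := hBs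
  set r := px.1 with hr
  set Bs' : Finset (Fin k) := univ.filter (fun i : Fin k => i.succ ∈ Bs) with hBs'
  have hmem : ∀ i : Fin k, i ∈ Bs' ↔ i.succ ∈ Bs := by
    intro i
    rw [hBs', Finset.mem_filter]
    exact ⟨fun h => h.2, fun h => ⟨Finset.mem_univ _, h⟩⟩
  have hpB : ∀ i : Fin k, pB px Bs i.succ = pB px Bs' i := by
    intro i
    unfold pB
    by_cases hi : i.succ ∈ Bs
    · rw [if_pos hi, if_pos ((hmem i).2 hi)]
    · rw [if_neg hi, if_neg (fun h => hi ((hmem i).1 h))]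
  have hrR : (2 : ℝ) ≤ r := by exact_mod_cast hr2
  have hr0 : (0 : ℝ) < r := by linarith
  have hlog : 0 ≤ Real.log r := Real.log_natCast_nonneg r
  have hL1 : 1 ≤ 1 + Real.log r := by linarith
  have hv : 0 ≤ vol s := prod_nonneg fun i _ => by positivity
  set w : ℕ → ℂ := fun n => cj (pB px Bs 0) (B.eval (n : ℤ)) * ((uu r.primeFactors (B.eval (n : ℤ)) : ℝ) : ℂ)
    with hw
  have hwn : ∀ n, ‖w n‖ ≤ 2 * (1 + Real.log r) := by
    intro n
    rw [hw]
    simp only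
    rw [norm_mul, Complex.norm_real, Real.norm_eq_abs, abs_of_nonneg (M3a_uu r hr1 _).1]
    calc _ ≤ 1 * ((r : ℝ) / (Nat.totient r : ℝ)) :=
          mul_le_mul (x1_cj_norm _ _) (M3a_uu r hr1 _).2 (M3a_uu r hr1 _).1 zero_le_one
      _ = (r : ℝ) / (Nat.totient r : ℝ) := one_mul _
      _ ≤ _ := M3b r hr1
  have hsum : ∀ h : Fin k → ℕ, MRf (pB px Bs) r (sys B P h) = (∑ n ∈ Ico 0 (0 + r), w n *
      ∑ κ ∈ KT px Bs', ∏ i, gk (pB px Bs' i) (κ i) ((P i).eval (n : ℤ) + h i)) / r := by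
    intro h
    unfold MRf
    rw [zero_add, Nat.Ico_zero_eq_range]
    congr 1
    refine Finset.sum_congr rfl fun n _ => ?_
    rw [← X1A_expand Q px hpx Bs' (fun i => (P i).eval (n : ℤ) + h i)]
    unfold Phf at'
    rw [Fin.prod_univ_succ]
    have e0 : sys B P h 0 (n : ℤ) = B.eval (n : ℤ) := rfl
    have e1 : ∀ i : Fin k, sys B P h i.succ (n : ℤ) = (P i).eval (n : ℤ) + h i := fun i => rfl
    rw [e0]
    congr 1
    refine Finset.prod_congr rfl fun i _ => ?_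
    rw [e1, hpB i]
  have hsub := X1A_sub Q px hpx Bs'
  have hlcm : ∀ κ ∈ KT px Bs', r - 1 < univ.lcm (fun i => (pB px Bs' i).1 * κ i) := by
    intro κ hκ
    have hκ' := Fintype.mem_piFinset.1 (hsub.1 hκ)
    have hpos : ∀ i, (pB px Bs' i).1 * κ i ≠ 0 := by
      intro i
      have h1 := f_q_le (hsub.2 i) (hκ' i)
      exact (Nat.one_le_iff_ne_zero).1 h1.1
    have hκ0 : κ i0 = 1 := by
      unfold KT at hκ
      have h1 := Fintype.mem_piFinset.1 hκ i0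
      rw [if_pos ((hmem i0).2 hi0), Finset.mem_singleton] at h1
      exact h1
    have hp0 : pB px Bs' i0 = px := by
      unfold pB
      rw [if_pos ((hmem i0).2 hi0)]
    have hdvd : r ∣ univ.lcm (fun i => (pB px Bs' i).1 * κ i) := by
      have h1 : (pB px Bs' i0).1 * κ i0 ∣ univ.lcm (fun i => (pB px Bs' i).1 * κ i) :=
        Finset.dvd_lcm (f := fun i => (pB px Bs' i).1 * κ i) (Finset.mem_univ i0)
      rw [hκ0, mul_one, hp0] at h1
      exact h1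
    have hne : univ.lcm (fun i => (pB px Bs' i).1 * κ i) ≠ 0 := by
      rw [Ne, Finset.lcm_eq_zero_iff]
      rintro ⟨i, _, hi⟩
      exact hpos i hi
    have := Nat.le_of_dvd (Nat.pos_of_ne_zero hne) hdvd
    omega
  have hmain := hF P hP r hr1 (pB px Bs') hsub.2 (KT px Bs') hsub.1 (r - 1) (by omega) hlcm b s hs 0 r le_rfl w
  have hD : (((r - 1 : ℕ) : ℝ)) ^ (-cc) ≤ 2 * (r : ℝ) ^ (-cc) := by
    have h1 : (((r - 1 : ℕ) : ℝ)) = (r : ℝ) - 1 := by
      rw [Nat.cast_sub hr1, Nat.cast_one]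
    rw [h1]
    have h2 : (r : ℝ) / 2 ≤ (r : ℝ) - 1 := by linarith
    have h3 : ((r : ℝ) - 1) ^ (-cc) ≤ ((r : ℝ) / 2) ^ (-cc) :=
      Real.rpow_le_rpow_of_nonpos (by positivity) h2 (by linarith)
    refine h3.trans ?_
    rw [Real.div_rpow hr0.le (by norm_num), div_eq_mul_inv, mul_comm, ← Real.rpow_neg (by norm_num), neg_neg]
    have h4 : (2 : ℝ) ^ cc ≤ 2 := by
      calc (2 : ℝ) ^ cc ≤ 2 ^ (1 : ℝ) := Real.rpow_le_rpow_of_exponent_le (by norm_num) hcc1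
        _ = 2 := Real.rpow_one _
    exact mul_le_mul_of_nonneg_right h4 (by positivity)
  have hW : ∑ n ∈ Ico 0 (0 + r), ‖w n‖ ^ 2 ≤ r * (4 * (1 + Real.log r) ^ 2) := by
    calc ∑ n ∈ Ico 0 (0 + r), ‖w n‖ ^ 2 ≤ ∑ _n ∈ Ico 0 (0 + r), 4 * (1 + Real.log r) ^ 2 := by
          refine Finset.sum_le_sum fun n _ => ?_
          have h1 := pow_le_pow_left₀ (norm_nonneg _) (hwn n) 2
          calc ‖w n‖ ^ 2 ≤ (2 * (1 + Real.log r)) ^ 2 := h1
            _ = _ := by ring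
      _ = _ := by
          rw [Finset.sum_const, Nat.card_Ico, nsmul_eq_mul, zero_add, Nat.sub_zero]
  have hnorm : ∀ h ∈ cub b s, ‖MRf (pB px Bs) r (sys B P h)‖ ^ 2 = (1 / (r : ℝ) ^ 2) *
      ‖∑ n ∈ Ico 0 (0 + r), w n *
      ∑ κ ∈ KT px Bs', ∏ i, gk (pB px Bs' i) (κ i) ((P i).eval (n : ℤ) + h i)‖ ^ 2 := by
    intro h _
    rw [hsum h, norm_div, Complex.norm_natCast, div_pow]
    ring
  rw [Finset.sum_congr rfl hnorm, ← Finset.mul_sum]
  have hpowL : (1 + Real.log r) ^ Cc * (1 + Real.log r) ^ 2 ≤ (1 + Real.log r) ^ (8 * Cc + 2) := by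
    rw [← Real.rpow_natCast (1 + Real.log r) 2, ← Real.rpow_add (by linarith)]
    refine Real.rpow_le_rpow_of_exponent_le hL1 ?_
    push_cast
    linarith
  have hP0 : 0 ≤ (1 + Real.log r) ^ Cc := Real.rpow_nonneg (by linarith) _
  have hrc : 0 ≤ (r : ℝ) ^ (-cc) := Real.rpow_nonneg hr0.le _
  have hD0 : 0 ≤ (((r - 1 : ℕ) : ℝ)) ^ (-cc) := Real.rpow_nonneg (Nat.cast_nonneg _) _
  calc (1 / (r : ℝ) ^ 2) * ∑ h ∈ cub b s, ‖∑ n ∈ Ico 0 (0 + r), w n *
        ∑ κ ∈ KT px Bs', ∏ i, gk (pB px Bs' i) (κ i) ((P i).eval (n : ℤ) + h i)‖ ^ 2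
      ≤ (1 / (r : ℝ) ^ 2) * (Cc * (1 + Real.log r) ^ Cc * vol s * (r * ∑ n ∈ Ico 0 (0 + r), ‖w n‖ ^ 2) *
        (((r - 1 : ℕ) : ℝ)) ^ (-cc)) := mul_le_mul_of_nonneg_left hmain (by positivity)
    _ ≤ (1 / (r : ℝ) ^ 2) * (Cc * (1 + Real.log r) ^ Cc * vol s * (r * (r * (4 * (1 + Real.log r) ^ 2))) *
        (2 * (r : ℝ) ^ (-cc))) := by
        refine mul_le_mul_of_nonneg_left ?_ (by positivity)
        refine mul_le_mul ?_ hD hD0 (by positivity)
        refine mul_le_mul_of_nonneg_left ?_ (by positivity)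
        exact mul_le_mul_of_nonneg_left hW hr0.le
    _ = 8 * Cc * ((1 + Real.log r) ^ Cc * (1 + Real.log r) ^ 2) * vol s * (r : ℝ) ^ (-cc) := by
        field_simp
        ring
    _ ≤ (8 * Cc + 2) * (1 + Real.log r) ^ (8 * Cc + 2) * vol s * (r : ℝ) ^ (-cc) := by
        refine mul_le_mul_of_nonneg_right ?_ hrc
        refine mul_le_mul_of_nonneg_right ?_ hv
        exact mul_le_mul (by linarith) hpowL (by positivity) (by linarith)

end Pool.Agent.Lib.H24P
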