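import Pool.Agent.Lib.H24P.Z1S
import Pool.Agent.Lib.H24P.Z1L
import Pool.Agent.Lib.H59P.Z2A

/-!
# Project H24P, chunk Z2A (M): one cell, truncated main term (compare H59P/Z2B)
-/

open Finset Polynomial

namespace Pool.Agent.Lib.H24P

open Pool.Agent.Lib.H68T Pool.Agent.Lib.H18Q Pool.Agent.Lib.H59P

theorem z2a_SG (Q : ℕ) (c : Ch → ℂ) (m : ℤ) : SG Q c m = ∑ p ∈ PC Q, c p * Fc Q p m := by
  unfold SG Fc
  refine Finset.sum_congr rfl fun p hp => ?_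
  rw [gam_expand Q p hp, mul_comm]

/-- the index set of the tuples of characters -/
noncomputable def z2a_I (k Q : ℕ) : Finset (Fin (k + 1) → Ch) :=
  Fintype.piFinset (Fin.cons (PC (Q ^ 100)) (fun _ : Fin k => PC Q) : Fin (k + 1) → Finset Ch)

theorem z2a_mem {k Q : ℕ} {p : Fin (k + 1) → Ch} :
    p ∈ z2a_I k Q ↔ p 0 ∈ PC (Q ^ 100) ∧ ∀ i : Fin k, p i.succ ∈ PC Q := by
  unfold z2a_I
  rw [Fintype.mem_piFinset, Fin.forall_fin_succ]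
  simp only [Fin.cons_zero, Fin.cons_succ]

/-- Proof. `SG Q c m = ∑_{p ∈ PC Q} c p Fc Q p m` (definitions, `gam_expand`), `Finset.prod_univ_sum`,
`Fin.consEquiv`/`Fin.prod_univ_succ`: index set `Fintype.piFinset (Fin.cons (PC (Q^100)) fun _ => PC Q)`. -/
theorem Z2A_expand {k : ℕ} (Q : ℕ) (c0 : Ch → ℂ) (c' : Fin k → Ch → ℂ) (m0 : ℤ) (m : Fin k → ℤ) :
    SG (Q ^ 100) c0 m0 * ∏ i, SG Q (c' i) (m i) =
      ∑ p ∈ Fintype.piFinset (Fin.cons (PC (Q ^ 100)) (fun _ : Fin k => PC Q) :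
          Fin (k + 1) → Finset Ch),
        (∏ i, (Fin.cons c0 c' : Fin (k + 1) → Ch → ℂ) i (p i)) *
          (Fc (Q ^ 100) (p 0) m0 * ∏ i : Fin k, Fc Q (p i.succ) (m i)) := by
  classical
  have key := Finset.prod_univ_sum (Fin.cons (PC (Q ^ 100)) (fun _ : Fin k => PC Q) :
    Fin (k + 1) → Finset Ch)
    (fun (i : Fin (k + 1)) (q : Ch) => (Fin.cons c0 c' : Fin (k + 1) → Ch → ℂ) i q *
      (Fin.cons (fun q => Fc (Q ^ 100) q m0) (fun i q => Fc Q q (m i)) :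
        Fin (k + 1) → Ch → ℂ) i q)
  rw [Fin.prod_univ_succ] at key
  simp only [Fin.cons_zero, Fin.cons_succ] at key
  have e1 : SG (Q ^ 100) c0 m0 = ∑ q ∈ PC (Q ^ 100), c0 q * Fc (Q ^ 100) q m0 := z2a_SG _ _ _
  have e2 : ∏ i, SG Q (c' i) (m i) = ∏ i, ∑ q ∈ PC Q, c' i q * Fc Q q (m i) :=
    Finset.prod_congr rfl fun i _ => z2a_SG _ _ _
  rw [e1, e2, key]
  refine Finset.sum_congr rfl fun p _ => ?_
  rw [Finset.prod_mul_distrib]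
  congr 1
  rw [Fin.prod_univ_succ]
  simp only [Fin.cons_zero, Fin.cons_succ]

theorem z2a_gam {k : ℕ} (Q : ℕ) (c0 : Ch → ℂ) (h0 : ∑ p ∈ PC (Q ^ 100), ‖c0 p‖ ≤ 3)
    (c' : Fin k → Ch → ℂ) (hc' : ∀ i, ∑ p ∈ PC Q, ‖c' i p‖ ≤ 3) :
    ∑ p ∈ z2a_I k Q, ‖∏ i, (Fin.cons c0 c' : Fin (k + 1) → Ch → ℂ) i (p i)‖ ≤ 3 ^ (k + 1) := by
  classical
  have key := Finset.prod_univ_sum (Fin.cons (PC (Q ^ 100)) (fun _ : Fin k => PC Q) :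
    Fin (k + 1) → Finset Ch)
    (fun (i : Fin (k + 1)) (q : Ch) => ‖(Fin.cons c0 c' : Fin (k + 1) → Ch → ℂ) i q‖)
  have e1 : ∑ p ∈ z2a_I k Q, ‖∏ i, (Fin.cons c0 c' : Fin (k + 1) → Ch → ℂ) i (p i)‖ =
      ∏ i, ∑ q ∈ (Fin.cons (PC (Q ^ 100)) (fun _ : Fin k => PC Q) : Fin (k + 1) → Finset Ch) i,
        ‖(Fin.cons c0 c' : Fin (k + 1) → Ch → ℂ) i q‖ := by
    rw [key]
    refine Finset.sum_congr rfl fun p _ => ?_
    rw [norm_prod]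
  rw [e1]
  have e2 : ∏ i, ∑ q ∈ (Fin.cons (PC (Q ^ 100)) (fun _ : Fin k => PC Q) :
      Fin (k + 1) → Finset Ch) i, ‖(Fin.cons c0 c' : Fin (k + 1) → Ch → ℂ) i q‖ ≤
      ∏ _i : Fin (k + 1), (3 : ℝ) := by
    refine Finset.prod_le_prod (fun i _ => Finset.sum_nonneg fun p _ => norm_nonneg _) (fun i _ => ?_)
    refine Fin.cases ?_ (fun j => ?_) i
    · simp only [Fin.cons_zero]
      exact h0
    · simp only [Fin.cons_succ]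
      exact hc' j
  refine e2.trans (le_of_eq ?_)
  rw [Finset.prod_const, Finset.card_univ, Fintype.card_fin]

/-- the function of a tuple of characters -/
noncomputable def z2a_f {k : ℕ} (Q m0 : ℕ) (B : ℤ[X]) (P : Fin k → ℤ[X]) (a H : ℕ)
    (p : Fin (k + 1) → Ch) (h : Fin k → ℕ) : ℂ :=
  ∑ n ∈ Ico a (a + H), Fc (Q ^ 100) (p 0) (B.eval (n : ℤ)) *
    ∏ i : Fin k, Fc Q (p i.succ) ((P i).eval (n : ℤ) + h i)

/-- the main term of a tuple of characters -/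
noncomputable def z2a_g {k : ℕ} (Q m0 : ℕ) (B : ℤ[X]) (P : Fin k → ℤ[X]) (H : ℕ)
    (p : Fin (k + 1) → Ch) (h : Fin k → ℕ) : ℂ :=
  H * (MRf p (Rf m0 p) (sys B P h) *
    ((∑ d ∈ SF (fl Q (1 / 2) / Rf m0 p) (Rf m0 p), tdf d (sys B P h) : ℝ) : ℂ))

theorem z2a_sub {k Q D m0 : ℕ} (hQ : 1 ≤ Q) : TSf (k + 1) Q D m0 ⊆ z2a_I k Q := by
  intro p hp
  unfold TSf at hp
  have h1 := (Finset.mem_filter.1 hp).1
  rw [Fintype.mem_piFinset] at h1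
  exact z2a_mem.2 ⟨z1s_PC hQ (h1 0), fun i => h1 i.succ⟩

theorem z2a_dec {k : ℕ} (Q m0 : ℕ) (hQ : 1 ≤ Q) (B : ℤ[X]) (P : Fin k → ℤ[X]) (a H : ℕ)
    (c0 : Ch → ℂ) (c' : Fin k → Ch → ℂ) (h : Fin k → ℕ) (f : (Fin (k + 1) → Ch) → ℂ)
    (hf1 : ∀ p ∈ TSf (k + 1) Q (fl Q (1 / 16)) m0, f p =
      z2a_f Q m0 B P a H p h - z2a_g Q m0 B P H p h)
    (hf2 : ∀ p, p ∉ TSf (k + 1) Q (fl Q (1 / 16)) m0 → f p = z2a_f Q m0 B P a H p h) :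
    ∑ n ∈ Ico a (a + H), SG (Q ^ 100) c0 (B.eval (n : ℤ)) *
        ∏ i, SG Q (c' i) ((P i).eval (n : ℤ) + h i) -
      H * MCf Q m0 (Fin.cons c0 c' : Fin (k + 1) → Ch → ℂ) (sys B P h) =
      ∑ p ∈ z2a_I k Q, (∏ i, (Fin.cons c0 c' : Fin (k + 1) → Ch → ℂ) i (p i)) * f p := by
  classical
  have h1 : ∑ n ∈ Ico a (a + H), SG (Q ^ 100) c0 (B.eval (n : ℤ)) *
        ∏ i, SG Q (c' i) ((P i).eval (n : ℤ) + h i) =
      ∑ p ∈ z2a_I k Q, (∏ i, (Fin.cons c0 c' : Fin (k + 1) → Ch → ℂ) i (p i)) *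
        z2a_f Q m0 B P a H p h := by
    have e1 : ∀ n ∈ Ico a (a + H), SG (Q ^ 100) c0 (B.eval (n : ℤ)) *
        ∏ i, SG Q (c' i) ((P i).eval (n : ℤ) + h i) =
        ∑ p ∈ z2a_I k Q, (∏ i, (Fin.cons c0 c' : Fin (k + 1) → Ch → ℂ) i (p i)) *
          (Fc (Q ^ 100) (p 0) (B.eval (n : ℤ)) *
            ∏ i : Fin k, Fc Q (p i.succ) ((P i).eval (n : ℤ) + h i)) :=
      fun n _ => Z2A_expand Q c0 c' _ (fun i => (P i).eval (n : ℤ) + h i)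
    rw [Finset.sum_congr rfl e1, Finset.sum_comm]
    refine Finset.sum_congr rfl fun p _ => ?_
    unfold z2a_f
    rw [Finset.mul_sum]
  have h2 : (H : ℂ) * MCf Q m0 (Fin.cons c0 c' : Fin (k + 1) → Ch → ℂ) (sys B P h) =
      ∑ p ∈ z2a_I k Q, (if p ∈ TSf (k + 1) Q (fl Q (1 / 16)) m0 then
        (∏ i, (Fin.cons c0 c' : Fin (k + 1) → Ch → ℂ) i (p i)) * z2a_g Q m0 B P H p h else 0) := by
    rw [← Finset.sum_filter, Finset.filter_mem_eq_inter, Finset.inter_eq_right.mpr (z2a_sub hQ)]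
    unfold MCf z2a_g
    rw [Finset.mul_sum]
    refine Finset.sum_congr rfl fun p _ => ?_
    ring
  rw [h1, h2, ← Finset.sum_sub_distrib]
  refine Finset.sum_congr rfl fun p _ => ?_
  by_cases hp : p ∈ TSf (k + 1) Q (fl Q (1 / 16)) m0
  · rw [if_pos hp, hf1 p hp]
    ring
  · rw [if_neg hp, hf2 p hp, sub_zero]

/-- **Z2A.** Proof. `Z2A_expand`, `Z2a` of `H59P` with `γ_p = ∏ c_i(p_i)`, total size `≤ 3^(k+1)`; `f_p` is the difference in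
`Z1_small` for `p ∈ TSf` (`TSf ⊆` the index set, `PC Q ⊆ PC (Q^100)`; `m0 = |lc B| r ≥ 1`), the sum in `Z1_large` else.
Compare `z2b_dec` in `H59P/Z2B.lean`. `9^(k+1) Q^(-c) ≤ Q^(-c/2)` for `Q` large. -/
theorem Z2A_cell (k A : ℕ) (hA : 1 ≤ A) : ∃ c : ℝ, 0 < c ∧ ∃ Q0 : ℕ, ∀ Q : ℕ, Q0 ≤ Q →
    ∀ B : ℤ[X], Lin A B → ∀ P : Fin k → ℤ[X], Pol A P → ∀ r : ℕ, 1 ≤ r → r ^ 100 ≤ Q →
    ∀ c0 : Ch → ℂ, ∑ p ∈ PC (Q ^ 100), ‖c0 p‖ ≤ 3 → ∀ c' : Fin k → Ch → ℂ,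
    (∀ i, ∑ p ∈ PC Q, ‖c' i p‖ ≤ 3) →
    ∀ b s : Fin k → ℕ, (∀ i, Q ^ 4 ≤ s i) → ∀ a H : ℕ, Q ^ 600 ≤ H →
    ∑ h ∈ cub b s, ‖∑ n ∈ Ico a (a + H), SG (Q ^ 100) c0 (B.eval (n : ℤ)) *
        ∏ i, SG Q (c' i) ((P i).eval (n : ℤ) + h i) -
      H * MCf Q (B.leadingCoeff.natAbs * r) (Fin.cons c0 c' : Fin (k + 1) → Ch → ℂ) (sys B P h)‖ ^ 2 ≤
      vol s * H ^ 2 * (Q : ℝ) ^ (-c) := by
  classical
  obtain ⟨c1, hc1, Q1, h1⟩ := Z1_small k A hA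
  obtain ⟨c2, hc2, Q2, h2⟩ := Z1_large k A hA
  have hcm : 0 < min c1 c2 := lt_min hc1 hc2
  obtain ⟨Q3, hQ31, h3⟩ := G1_rlog (9 ^ (k + 1)) 0 (min c1 c2 / 2) (by linarith)
  refine ⟨min c1 c2 / 2, by linarith, max 1 (max Q1 (max Q2 Q3)), ?_⟩
  intro Q hQ B hB P hP r hr1 hr c0 hc0 c' hc' b s hs a H hH
  have hQ1 : 1 ≤ Q := (le_max_left _ _).trans hQ
  have hQQ1 : Q1 ≤ Q := (le_max_left _ _).trans ((le_max_right _ _).trans hQ)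
  have hQQ2 : Q2 ≤ Q := (le_max_left _ _).trans ((le_max_right _ _).trans ((le_max_right _ _).trans hQ))
  have hQQ3 : Q3 ≤ Q := (le_max_right _ _).trans ((le_max_right _ _).trans ((le_max_right _ _).trans hQ))
  have hQ1r : (1 : ℝ) ≤ Q := by exact_mod_cast hQ1
  have hQ0r : (0 : ℝ) < Q := by linarith
  have hV : 0 ≤ vol s * (H : ℝ) ^ 2 := by
    refine mul_nonneg ?_ (sq_nonneg _)
    unfold vol
    exact Finset.prod_nonneg fun i _ => Nat.cast_nonneg _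
  have h9 : (9 : ℝ) ^ (k + 1) ≤ (Q : ℝ) ^ (min c1 c2 / 2) := by
    have := h3 Q hQQ3
    rwa [Real.rpow_zero, mul_one] at this
  set m0 : ℕ := B.leadingCoeff.natAbs * r with hm0
  have hlc : 1 ≤ B.leadingCoeff.natAbs := by
    have hB0 : B ≠ 0 := by
      intro h0
      have := hB.deg
      rw [h0, natDegree_zero] at this
      omega
    have : B.leadingCoeff ≠ 0 := leadingCoeff_ne_zero.2 hB0
    omega
  have hm01 : 1 ≤ m0 := Nat.mul_pos hlc hr1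
  have hdvd : B.leadingCoeff.natAbs ∣ m0 := Dvd.intro _ rfl
  set W : ℝ := vol s * (H : ℝ) ^ 2 * (Q : ℝ) ^ (-(min c1 c2)) with hW
  have hW0 : 0 ≤ W := mul_nonneg hV (Real.rpow_nonneg hQ0r.le _)
  have hWle : ∀ c : ℝ, min c1 c2 ≤ c → vol s * (H : ℝ) ^ 2 * (Q : ℝ) ^ (-c) ≤ W := by
    intro c hc
    exact mul_le_mul_of_nonneg_left (Real.rpow_le_rpow_of_exponent_le hQ1r (by linarith)) hV
  set f : (Fin (k + 1) → Ch) → (Fin k → ℕ) → ℂ := fun p h =>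
    if p ∈ TSf (k + 1) Q (fl Q (1 / 16)) m0 then z2a_f Q m0 B P a H p h - z2a_g Q m0 B P H p h
    else z2a_f Q m0 B P a H p h with hfdef
  have hf1 : ∀ p ∈ TSf (k + 1) Q (fl Q (1 / 16)) m0, ∀ h, f p h =
      z2a_f Q m0 B P a H p h - z2a_g Q m0 B P H p h := by
    intro p hp h
    rw [hfdef]
    exact if_pos hp
  have hf2 : ∀ p, p ∉ TSf (k + 1) Q (fl Q (1 / 16)) m0 → ∀ h, f p h = z2a_f Q m0 B P a H p h := by
    intro p hp h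
    rw [hfdef]
    exact if_neg hp
  have hdec : ∀ h ∈ cub b s, ‖∑ n ∈ Ico a (a + H), SG (Q ^ 100) c0 (B.eval (n : ℤ)) *
        ∏ i, SG Q (c' i) ((P i).eval (n : ℤ) + h i) -
      H * MCf Q m0 (Fin.cons c0 c' : Fin (k + 1) → Ch → ℂ) (sys B P h)‖ ^ 2 =
      ‖∑ p ∈ z2a_I k Q, (∏ i, (Fin.cons c0 c' : Fin (k + 1) → Ch → ℂ) i (p i)) * f p h‖ ^ 2 := by
    intro h _
    rw [z2a_dec Q m0 hQ1 B P a H c0 c' h (fun p => f p h) (fun p hp => hf1 p hp h)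
      (fun p hp => hf2 p hp h)]
  rw [Finset.sum_congr rfl hdec]
  have hmain := Z2a (cub b s) (z2a_I k Q)
    (fun p => ∏ i, (Fin.cons c0 c' : Fin (k + 1) → Ch → ℂ) i (p i)) f (3 ^ (k + 1)) W hW0
    (z2a_gam Q c0 hc0 c' hc') ?_
  · refine hmain.trans ?_
    have e1 : ((3 : ℝ) ^ (k + 1)) ^ 2 = 9 ^ (k + 1) := by
      rw [← pow_mul, mul_comm, pow_mul]
      norm_num
    have e2 : (Q : ℝ) ^ (-(min c1 c2 / 2)) = (Q : ℝ) ^ (min c1 c2 / 2) * (Q : ℝ) ^ (-(min c1 c2)) := by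
      rw [← Real.rpow_add hQ0r]
      congr 1
      ring
    rw [e1, e2]
    have e3 := mul_le_mul_of_nonneg_right h9 hW0
    refine e3.trans (le_of_eq ?_)
    rw [hW]
    ring
  · intro p hp
    obtain ⟨hp0, hps⟩ := z2a_mem.1 hp
    by_cases hpT : p ∈ TSf (k + 1) Q (fl Q (1 / 16)) m0
    · have e1 := h1 Q hQQ1 B hB P hP m0 hm01 hdvd p hpT b s hs a H hH
      have e2 : ∑ h ∈ cub b s, ‖f p h‖ ^ 2 = ∑ h ∈ cub b s,
          ‖∑ n ∈ Ico a (a + H), Fc (Q ^ 100) (p 0) (B.eval (n : ℤ)) *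
              ∏ i : Fin k, Fc Q (p i.succ) ((P i).eval (n : ℤ) + h i) -
            H * (MRf p (Rf m0 p) (sys B P h) *
              ((∑ d ∈ SF (fl Q (1 / 2) / Rf m0 p) (Rf m0 p), tdf d (sys B P h) : ℝ) : ℂ))‖ ^ 2 :=
        Finset.sum_congr rfl fun h _ => by rw [hf1 p hpT h]; rfl
      rw [e2]
      exact e1.trans (hWle c1 (min_le_left _ _))
    · have e1 := h2 Q hQQ2 B hB P hP r hr1 hr p hp0 hps hpT b s hs a H hH
      have e2 : ∑ h ∈ cub b s, ‖f p h‖ ^ 2 = ∑ h ∈ cub b s,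
          ‖∑ n ∈ Ico a (a + H), Fc (Q ^ 100) (p 0) (B.eval (n : ℤ)) *
              ∏ i : Fin k, Fc Q (p i.succ) ((P i).eval (n : ℤ) + h i)‖ ^ 2 :=
        Finset.sum_congr rfl fun h _ => by rw [hf2 p hpT h]; rfl
      rw [e2]
      exact e1.trans (hWle c2 (min_le_right _ _))

end Pool.Agent.Lib.H24P
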