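import Pool.Agent.Lib.H24P.Defs2

/-!
# Project H24P: definitions for module Z
-/

open Finset Polynomial

namespace Pool.Agent.Lib.H24P

open Pool.Agent.Lib.H68T Pool.Agent.Lib.H18Q Pool.Agent.Lib.H59P

noncomputable section

/-- The truncated main term of a cell with coefficients `c`. -/
def MCf {k : ℕ} (Q m0 : ℕ) (c : Fin k → Ch → ℂ) (φ : Fin k → ℤ → ℤ) : ℂ :=
  ∑ p ∈ TSf k Q (fl Q (1 / 16)) m0, (∏ i, c i (p i)) * (MRf p (Rf m0 p) φ *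
    ((∑ d ∈ SF (fl Q (1 / 2) / Rf m0 p) (Rf m0 p), tdf d φ : ℝ) : ℂ))

/-- All the coefficients frozen at the base points of the cells of `n` and `h`. -/
def cfz {k : ℕ} (Q X1 : ℕ) (P : Fin k → ℤ[X]) (M : Fin k → ℕ) (B : ℤ[X]) (C0 : ℤ → Ch → ℂ)
    (Cc : Fin k → ℤ → Ch → ℂ) (h : Fin k → ℕ) (n : ℕ) : Fin (k + 1) → Ch → ℂ :=
  Fin.cons (C0 (B.eval ((bs (X1 / Q ^ 800) n : ℕ) : ℤ)))
    (fun i => Cc i (fz (P i) (X1 / Q ^ 8) (M i / Q ^ 8) n (h i)))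

/-- The total main term. -/
def MZf {k : ℕ} (Q X1 m0 : ℕ) (P : Fin k → ℤ[X]) (M : Fin k → ℕ) (B : ℤ[X]) (C0 : ℤ → Ch → ℂ)
    (Cc : Fin k → ℤ → Ch → ℂ) (h : Fin k → ℕ) : ℂ :=
  ∑ n ∈ Ico X1 (2 * X1), MDf Q m0 (cfz Q X1 P M B C0 Cc h n) (sys B P h)

/-- The weighted number of prime values. -/
def RPh {k : ℕ} (X1 : ℕ) (B : ℤ[X]) (P : Fin k → ℤ[X]) (h : Fin k → ℕ) : ℝ :=
  ∑ n ∈ Ico X1 (2 * X1), lp (B.eval (n : ℤ)) * ∏ i, lp ((P i).eval (n : ℤ) + h i)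

end

end Pool.Agent.Lib.H24P
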